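import Pool.Agent.Lib.MP_0f858a_nt.KR.Stmts84

/-!
MP_0f858a_nt (Kummer ratio): module BT (the sieve of Selberg, constant 2).
-/

set_option autoImplicit false

namespace Pool.Agent.Lib.MP_0f858a_nt.KR.B27

open Finset Filter ArithmeticFunction
open scoped Classical ArithmeticFunction.Moebius

/-- the squarefree `d ≤ Q` prime to `q` -/
noncomputable def D (q Q : ℕ) : Finset ℕ := (Icc 1 Q).filter fun d => Squarefree d ∧ ¬ q ∣ d

/-- the weight `1 / φ(d)` -/
noncomputable def ph (d : ℕ) : ℝ := 1 / (d.totient : ℝ)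

/-- the sum of `1 / φ(d)` -/
noncomputable def G (q Q : ℕ) : ℝ := ∑ f ∈ D q Q, ph f

/-- the weights of Selberg -/
noncomputable def la (q Q d : ℕ) : ℝ :=
  (μ d : ℝ) * d / G q Q * ∑ f ∈ (D q Q).filter (fun f => d ∣ f), ph f

theorem mem_D {q Q d : ℕ} : d ∈ D q Q ↔ (1 ≤ d ∧ d ≤ Q) ∧ Squarefree d ∧ ¬ q ∣ d := by
  simp [D]

theorem D_dvd {q Q d e : ℕ} (hd : d ∈ D q Q) (he : e ∣ d) : e ∈ D q Q := by
  rw [mem_D] at hd ⊢
  have h0 : 0 < d := hd.1.1
  refine ⟨⟨Nat.pos_of_dvd_of_pos he h0, (Nat.le_of_dvd h0 he).trans hd.1.2⟩,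
    hd.2.1.squarefree_of_dvd he, fun h => hd.2.2 (h.trans he)⟩

theorem one_mem_D {q Q : ℕ} (hq : 2 ≤ q) (hQ : 1 ≤ Q) : 1 ∈ D q Q := by
  rw [mem_D]
  refine ⟨⟨le_refl _, hQ⟩, squarefree_one, fun h => ?_⟩
  have := Nat.le_of_dvd one_pos h
  omega

theorem ph_pos {d : ℕ} (hd : 1 ≤ d) : 0 < ph d := by
  have : 0 < d.totient := Nat.totient_pos.2 hd
  unfold ph
  positivity

theorem ph_nonneg (d : ℕ) : 0 ≤ ph d := by
  unfold ph
  positivity

theorem G_pos {q Q : ℕ} (hq : 2 ≤ q) (hQ : 1 ≤ Q) : 0 < G q Q :=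
  Finset.sum_pos (fun _ hd => ph_pos (mem_D.1 hd).1.1) ⟨1, one_mem_D hq hQ⟩

/-- the sum of the Moebius function over the `d` with `e ∣ d ∣ f` -/
theorem sum_mu {q Q e f : ℕ} (hf : f ∈ D q Q) :
    ∑ d ∈ (D q Q).filter (fun d => e ∣ d ∧ d ∣ f), (μ d : ℝ) = if e = f then (μ e : ℝ) else 0 := by
  have hf1 : 1 ≤ f := (mem_D.1 hf).1.1
  have hsf : Squarefree f := (mem_D.1 hf).2.1
  by_cases hef : e ∣ f
  · obtain ⟨g, rfl⟩ := hef
    have he0 : e ≠ 0 := by rintro rfl; simp at hf1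
    have hg0 : g ≠ 0 := by rintro rfl; simp at hf1
    have h1 : (D q Q).filter (fun d => e ∣ d ∧ d ∣ e * g) =
        g.divisors.image (fun c => e * c) := by
      ext d
      simp only [Finset.mem_filter, Finset.mem_image, Nat.mem_divisors]
      constructor
      · rintro ⟨_, ⟨c, rfl⟩, h⟩
        exact ⟨c, ⟨Nat.dvd_of_mul_dvd_mul_left (Nat.pos_of_ne_zero he0) h, hg0⟩, rfl⟩
      · rintro ⟨c, ⟨hc, _⟩, rfl⟩
        exact ⟨D_dvd hf (Nat.mul_dvd_mul_left e hc), Dvd.intro _ rfl, Nat.mul_dvd_mul_left e hc⟩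
    rw [h1, Finset.sum_image (fun a _ b _ h => Nat.eq_of_mul_eq_mul_left
      (Nat.pos_of_ne_zero he0) h)]
    have hcop : Nat.Coprime e g := Nat.coprime_of_squarefree_mul hsf
    have h2 : ∀ c ∈ g.divisors, (μ (e * c) : ℝ) = (μ e : ℝ) * (μ c : ℝ) := by
      intro c hc
      have hc1 : Nat.Coprime e c := Nat.Coprime.coprime_dvd_right (Nat.dvd_of_mem_divisors hc) hcop
      rw [isMultiplicative_moebius.map_mul_of_coprime hc1]
      push_cast
      ring
    rw [Finset.sum_congr rfl h2, ← Finset.mul_sum]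
    have h3 : ∑ c ∈ g.divisors, (μ c : ℝ) = if g = 1 then 1 else 0 := by
      have h4 : ∑ c ∈ g.divisors, μ c = if g = 1 then 1 else 0 := by
        rw [← coe_mul_zeta_apply, moebius_mul_coe_zeta, one_apply]
      have h5 : ((∑ c ∈ g.divisors, μ c : ℤ) : ℝ) = ((if g = 1 then 1 else 0 : ℤ) : ℝ) := by
        rw [h4]
      push_cast at h5
      exact h5
    rw [h3]
    by_cases hg1 : g = 1
    · subst hg1
      simp
    · rw [if_neg hg1, if_neg]
      · ring
      · intro h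
        apply hg1
        have : e * 1 = e * g := by rw [mul_one]; exact h
        exact (Nat.eq_of_mul_eq_mul_left (Nat.pos_of_ne_zero he0) this).symm
  · rw [if_neg (fun h : e = f => hef (h ▸ dvd_refl e))]
    apply Finset.sum_eq_zero
    intro d hd
    rw [Finset.mem_filter] at hd
    exact absurd (hd.2.1.trans hd.2.2) hef

/-- the diagonal coordinates -/
theorem sum_la {q Q e : ℕ} (he : e ∈ D q Q) :
    ∑ d ∈ (D q Q).filter (fun d => e ∣ d), la q Q d / d = (μ e : ℝ) * ph e / G q Q := by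
  have h1 : ∀ d ∈ (D q Q).filter (fun d => e ∣ d), la q Q d / d =
      ∑ f ∈ D q Q, if d ∣ f then (μ d : ℝ) * ph f / G q Q else 0 := by
    intro d hd
    have hd1 : (d : ℝ) ≠ 0 := by
      have := (mem_D.1 (Finset.mem_filter.1 hd).1).1.1
      positivity
    rw [← Finset.sum_filter, la, ← Finset.sum_div, ← Finset.mul_sum]
    field_simp
  rw [Finset.sum_congr rfl h1, Finset.sum_comm]
  have h2 : ∀ f ∈ D q Q, ∑ d ∈ (D q Q).filter (fun d => e ∣ d),
      (if d ∣ f then (μ d : ℝ) * ph f / G q Q else 0) =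
      if e = f then (μ e : ℝ) * ph f / G q Q else 0 := by
    intro f hf
    rw [← Finset.sum_filter, Finset.filter_filter]
    have h3 := sum_mu (e := e) hf
    have h4 : ∑ d ∈ (D q Q).filter (fun d => e ∣ d ∧ d ∣ f), (μ d : ℝ) * ph f / G q Q =
        (∑ d ∈ (D q Q).filter (fun d => e ∣ d ∧ d ∣ f), (μ d : ℝ)) * (ph f / G q Q) := by
      rw [Finset.sum_mul]
      exact Finset.sum_congr rfl fun d _ => by ring
    rw [h4, h3]
    split_ifs
    · ring
    · ring
  rw [Finset.sum_congr rfl h2, Finset.sum_ite_eq, if_pos he]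

/-- the quadratic form -/
theorem quad {q Q : ℕ} (hq : 2 ≤ q) (hQ : 1 ≤ Q) :
    ∑ d ∈ D q Q, ∑ d' ∈ D q Q, la q Q d * la q Q d' / (Nat.lcm d d' : ℝ) = 1 / G q Q := by
  have hG := G_pos hq hQ
  have h1 : ∀ d ∈ D q Q, ∀ d' ∈ D q Q, la q Q d * la q Q d' / (Nat.lcm d d' : ℝ) =
      ∑ e ∈ D q Q, if e ∣ d ∧ e ∣ d' then
        (e.totient : ℝ) * ((la q Q d / d) * (la q Q d' / d')) else 0 := by
    intro d hd d' hd'
    have hd1 : 0 < d := (mem_D.1 hd).1.1
    have hd1' : 0 < d' := (mem_D.1 hd').1.1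
    have h2 : (D q Q).filter (fun e => e ∣ d ∧ e ∣ d') = (Nat.gcd d d').divisors := by
      ext e
      simp only [Finset.mem_filter, Nat.mem_divisors, Nat.dvd_gcd_iff]
      constructor
      · rintro ⟨_, h⟩
        exact ⟨h, (Nat.gcd_pos_of_pos_left _ hd1).ne'⟩
      · rintro ⟨h, _⟩
        exact ⟨D_dvd hd h.1, h⟩
    rw [← Finset.sum_filter, h2, ← Finset.sum_mul]
    have h3 : ∑ e ∈ (Nat.gcd d d').divisors, (e.totient : ℝ) = Nat.gcd d d' := by
      exact_mod_cast Nat.sum_totient (Nat.gcd d d')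
    have h4 : (Nat.gcd d d' : ℝ) * (Nat.lcm d d' : ℝ) = d * d' := by
      exact_mod_cast Nat.gcd_mul_lcm d d'
    have hl : (0 : ℝ) < Nat.lcm d d' := by exact_mod_cast Nat.lcm_pos hd1 hd1'
    have hdr : (0 : ℝ) < d := by exact_mod_cast hd1
    have hdr' : (0 : ℝ) < d' := by exact_mod_cast hd1'
    rw [h3]
    field_simp
    linear_combination (-(la q Q d * la q Q d')) * h4
  have h5 : ∑ d ∈ D q Q, ∑ d' ∈ D q Q, la q Q d * la q Q d' / (Nat.lcm d d' : ℝ) =
      ∑ e ∈ D q Q, (e.totient : ℝ) * (∑ d ∈ (D q Q).filter (fun d => e ∣ d), la q Q d / d) ^ 2 := by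
    rw [Finset.sum_congr rfl fun d hd => Finset.sum_congr rfl (h1 d hd)]
    rw [Finset.sum_congr rfl fun d _ => Finset.sum_comm]
    rw [Finset.sum_comm]
    refine Finset.sum_congr rfl fun e he => ?_
    rw [sq, Finset.sum_mul_sum, Finset.mul_sum, Finset.sum_filter]
    refine Finset.sum_congr rfl fun d hd => ?_
    by_cases h : e ∣ d
    · rw [if_pos h, Finset.mul_sum, Finset.sum_filter]
      refine Finset.sum_congr rfl fun d' hd' => ?_
      by_cases h' : e ∣ d'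
      · rw [if_pos ⟨h, h'⟩, if_pos h']
      · rw [if_neg (fun h0 => h' h0.2), if_neg h']
    · rw [if_neg h]
      exact Finset.sum_eq_zero fun d' _ => if_neg (fun h0 => h h0.1)
  rw [h5]
  have h6 : ∀ e ∈ D q Q, (e.totient : ℝ) *
      (∑ d ∈ (D q Q).filter (fun d => e ∣ d), la q Q d / d) ^ 2 = ph e * (1 / G q Q ^ 2) := by
    intro e he
    rw [sum_la he]
    have hmu : ((μ e : ℝ)) ^ 2 = 1 := by
      have h7 := moebius_sq_eq_one_of_squarefree (mem_D.1 he).2.1
      exact_mod_cast h7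
    have ht : (e.totient : ℝ) * ph e = 1 := by
      have : 0 < e.totient := Nat.totient_pos.2 (mem_D.1 he).1.1
      unfold ph
      field_simp
    calc (e.totient : ℝ) * ((μ e : ℝ) * ph e / G q Q) ^ 2
        = ((e.totient : ℝ) * ph e) * ph e * (μ e : ℝ) ^ 2 * (1 / G q Q ^ 2) := by ring
      _ = ph e * (1 / G q Q ^ 2) := by rw [ht, hmu]; ring
  rw [Finset.sum_congr rfl h6, ← Finset.sum_mul]
  change G q Q * _ = _
  field_simp

theorem la_one {q Q : ℕ} (hq : 2 ≤ q) (hQ : 1 ≤ Q) : la q Q 1 = 1 := by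
  have hG := G_pos hq hQ
  have h1 : (D q Q).filter (fun f => 1 ∣ f) = D q Q :=
    Finset.filter_true_of_mem fun f _ => one_dvd f
  rw [la, h1]
  change ((μ 1 : ℤ) : ℝ) * ((1 : ℕ) : ℝ) / G q Q * G q Q = 1
  rw [moebius_apply_one]
  field_simp
  norm_num

theorem sum_div_le {f Q : ℕ} (hf : 1 ≤ f) (hfQ : f ≤ Q) :
    ∑ d ∈ f.divisors, (d : ℝ) ≤ Q * (1 + Real.log Q) := by
  have h1 : ∑ d ∈ f.divisors, (d : ℝ) = ∑ d ∈ f.divisors, ((f / d : ℕ) : ℝ) := by
    rw [Nat.sum_div_divisors f (fun d => (d : ℝ))]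
  have h2 : ∀ d ∈ f.divisors, ((f / d : ℕ) : ℝ) = f * (d : ℝ)⁻¹ := by
    intro d hd
    have hd1 := Nat.dvd_of_mem_divisors hd
    have hd0 : (d : ℝ) ≠ 0 := by
      have := Nat.pos_of_mem_divisors hd
      positivity
    rw [Nat.cast_div hd1 hd0]
    rfl
  rw [h1, Finset.sum_congr rfl h2, ← Finset.mul_sum]
  have h3 : ∑ d ∈ f.divisors, (d : ℝ)⁻¹ ≤ 1 + Real.log f := by
    refine le_trans ?_ (harmonic_le_one_add_log f)
    rw [harmonic_eq_sum_Icc]
    push_cast
    refine Finset.sum_le_sum_of_subset_of_nonneg ?_ (fun _ _ _ => by positivity)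
    intro d hd
    rw [Finset.mem_Icc]
    exact ⟨Nat.pos_of_mem_divisors hd, Nat.divisor_le hd⟩
  have hf' : (1 : ℝ) ≤ f := by exact_mod_cast hf
  have hfQ' : (f : ℝ) ≤ Q := by exact_mod_cast hfQ
  have h4 : Real.log f ≤ Real.log Q := Real.log_le_log (by linarith) hfQ'
  have h5 : 0 ≤ Real.log f := Real.log_nonneg hf'
  calc (f : ℝ) * ∑ d ∈ f.divisors, (d : ℝ)⁻¹ ≤ f * (1 + Real.log f) := by gcongr
    _ ≤ Q * (1 + Real.log Q) := by gcongr

theorem sum_abs_la {q Q : ℕ} (hq : 2 ≤ q) (hQ : 1 ≤ Q) :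
    ∑ d ∈ D q Q, |la q Q d| ≤ Q * (1 + Real.log Q) := by
  have hG := G_pos hq hQ
  have h1 : ∀ d ∈ D q Q, |la q Q d| ≤ 1 / G q Q * ∑ f ∈ D q Q, if d ∣ f then (d : ℝ) * ph f else 0 := by
    intro d hd
    rw [← Finset.sum_filter, ← Finset.mul_sum, la]
    have h2 : 0 ≤ ∑ f ∈ (D q Q).filter (fun f => d ∣ f), ph f :=
      Finset.sum_nonneg fun f _ => ph_nonneg f
    rw [abs_mul, abs_of_nonneg h2, abs_div, abs_mul, abs_of_pos hG, Nat.abs_cast]
    have h3 : |(μ d : ℝ)| ≤ 1 := by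
      have := @abs_moebius_le_one d
      exact_mod_cast this
    have h4 : |(μ d : ℝ)| * d / G q Q ≤ 1 * d / G q Q := by gcongr
    calc |(μ d : ℝ)| * d / G q Q * ∑ f ∈ (D q Q).filter (fun f => d ∣ f), ph f
        ≤ 1 * d / G q Q * ∑ f ∈ (D q Q).filter (fun f => d ∣ f), ph f := by gcongr
      _ = 1 / G q Q * (d * ∑ f ∈ (D q Q).filter (fun f => d ∣ f), ph f) := by ring
  refine (Finset.sum_le_sum h1).trans ?_
  rw [← Finset.mul_sum, Finset.sum_comm]
  have h5 : ∀ f ∈ D q Q, ∑ d ∈ D q Q, (if d ∣ f then (d : ℝ) * ph f else 0) ≤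
      (Q * (1 + Real.log Q)) * ph f := by
    intro f hf
    rw [← Finset.sum_filter, ← Finset.sum_mul]
    refine mul_le_mul_of_nonneg_right ?_ (ph_nonneg f)
    refine le_trans ?_ (sum_div_le (mem_D.1 hf).1.1 (mem_D.1 hf).1.2)
    refine Finset.sum_le_sum_of_subset_of_nonneg ?_ (fun _ _ _ => by positivity)
    intro d hd
    rw [Finset.mem_filter] at hd
    rw [Nat.mem_divisors]
    exact ⟨hd.2, by have := (mem_D.1 hf).1.1; omega⟩
  have h6 := Finset.sum_le_sum h5
  rw [← Finset.mul_sum] at h6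
  calc 1 / G q Q * ∑ f ∈ D q Q, ∑ d ∈ D q Q, (if d ∣ f then (d : ℝ) * ph f else 0)
      ≤ 1 / G q Q * ((Q * (1 + Real.log Q)) * G q Q) :=
        mul_le_mul_of_nonneg_left h6 (by positivity)
    _ = Q * (1 + Real.log Q) := by field_simp

/-! ### The lower bound of `G` -/

/-- the product of the prime factors -/
noncomputable def rd (n : ℕ) : ℕ := ∏ p ∈ n.primeFactors, p

theorem rd_dvd {n : ℕ} : rd n ∣ n := Nat.prod_primeFactors_dvd n

theorem rd_sqf (n : ℕ) : Squarefree (rd n) := by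
  unfold rd
  rw [Nat.squarefree_iff_prime_squarefree]
  intro p hp h
  have h1 : p ∣ ∏ p ∈ n.primeFactors, p := (Dvd.intro _ rfl).trans h
  have hpn : p ∈ n.primeFactors := by
    rw [Prime.dvd_finsetProd_iff hp.prime] at h1
    obtain ⟨r, hr, hpr⟩ := h1
    have := (Nat.prime_dvd_prime_iff_eq hp (Nat.prime_of_mem_primeFactors hr)).1 hpr
    rwa [this]
  rw [← Finset.mul_prod_erase _ _ hpn] at h
  have h2 := Nat.dvd_of_mul_dvd_mul_left hp.pos h
  rw [Prime.dvd_finsetProd_iff hp.prime] at h2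
  obtain ⟨r, hr, hpr⟩ := h2
  rw [Finset.mem_erase] at hr
  exact hr.1 ((Nat.prime_dvd_prime_iff_eq hp (Nat.prime_of_mem_primeFactors hr.2)).1 hpr).symm

theorem rd_primeFactors (n : ℕ) : (rd n).primeFactors = n.primeFactors :=
  Nat.primeFactors_prod fun _ hp => Nat.prime_of_mem_primeFactors hp

/-- the monoid homomorphism `n ↦ 1 / n` -/
noncomputable def invHom : ℕ →* ℝ where
  toFun n := (n : ℝ)⁻¹
  map_one' := by simp
  map_mul' a b := by push_cast; exact mul_inv _ _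

theorem fiber_le {Q f : ℕ} (hf : 1 ≤ f) :
    ∑ n ∈ (Icc 1 Q).filter (fun n => rd n = f), (n : ℝ)⁻¹ ≤ ph f := by
  have hE := (EulerProduct.summable_and_hasSum_factoredNumbers_prod_filter_prime_geometric
    (f := invHom) (fun {p} hp => by
      have h1 : (1 : ℝ) < p := by exact_mod_cast hp.one_lt
      change ‖(p : ℝ)⁻¹‖ < 1
      rw [norm_inv, Real.norm_natCast]
      exact inv_lt_one_of_one_lt₀ h1) f.primeFactors).2
  have hf0 : (0 : ℝ) < f := by exact_mod_cast hf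
  have h2 : ∏ p ∈ f.primeFactors with p.Prime, (1 - invHom p)⁻¹ =
      (∏ p ∈ f.primeFactors, (1 - (p : ℝ)⁻¹))⁻¹ := by
    rw [Finset.filter_true_of_mem fun p hp => Nat.prime_of_mem_primeFactors hp,
      ← Finset.prod_inv_distrib]
    rfl
  have h3 : (f.totient : ℝ) = f * ∏ p ∈ f.primeFactors, (1 - (p : ℝ)⁻¹) := by
    have h := Nat.totient_eq_mul_prod_factors f
    have h' := congrArg (fun z : ℚ => (z : ℝ)) h
    push_cast at h'
    exact h'
  rw [h2] at hE
  have hE2 : HasSum ((Nat.factoredNumbers f.primeFactors).indicator (fun n : ℕ => (n : ℝ)⁻¹))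
      ((∏ p ∈ f.primeFactors, (1 - (p : ℝ)⁻¹))⁻¹) := by
    rw [← hasSum_subtype_iff_indicator]
    exact hE
  set T := ((Icc 1 Q).filter (fun n => rd n = f)).image (fun n => n / f) with hT
  have hdv : ∀ n ∈ (Icc 1 Q).filter (fun n => rd n = f), f ∣ n := by
    intro n hn
    rw [Finset.mem_filter] at hn
    rw [← hn.2]
    exact rd_dvd
  have h4 := sum_le_hasSum T (fun n _ => Set.indicator_nonneg (fun m _ => by positivity) n) hE2
  have h5 : ∑ m ∈ T, (Nat.factoredNumbers f.primeFactors).indicator (fun n : ℕ => (n : ℝ)⁻¹) m =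
      f * ∑ n ∈ (Icc 1 Q).filter (fun n => rd n = f), (n : ℝ)⁻¹ := by
    rw [hT, Finset.sum_image, Finset.mul_sum]
    · refine Finset.sum_congr rfl fun n hn => ?_
      obtain ⟨c, hc⟩ := hdv n hn
      have hn1 := Finset.mem_filter.1 hn
      have hn0 : n ≠ 0 := by
        have := (Finset.mem_Icc.1 hn1.1).1
        omega
      have hnc : n / f = c := by
        rw [hc]
        exact Nat.mul_div_cancel_left c hf
      have hc0 : c ≠ 0 := by
        rintro rfl
        exact hn0 (by rw [hc]; simp)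
      rw [hnc, Set.indicator_of_mem]
      · rw [hc]
        push_cast
        have : (c : ℝ) ≠ 0 := by exact_mod_cast hc0
        field_simp
      · refine Nat.mem_factoredNumbers_of_primeFactors_subset hc0 ?_
        rw [← hn1.2, rd_primeFactors]
        exact Nat.primeFactors_mono (Dvd.intro_left f hc.symm) hn0
    · intro a ha b hb hab
      have ha' := hdv a ha
      have hb' := hdv b hb
      have h6 : f * (a / f) = f * (b / f) := by
        have h7 : a / f = b / f := hab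
        rw [h7]
      rwa [Nat.mul_div_cancel' ha', Nat.mul_div_cancel' hb'] at h6
  rw [h5] at h4
  have hP : 0 < ∏ p ∈ f.primeFactors, (1 - (p : ℝ)⁻¹) := by
    have h8 : (0 : ℝ) < f.totient := by exact_mod_cast Nat.totient_pos.2 hf
    rw [h3] at h8
    exact (mul_pos_iff_of_pos_left hf0).1 h8
  unfold ph
  rw [h3, one_div, mul_inv, ← div_eq_inv_mul, le_div_iff₀ hf0, mul_comm]
  exact h4

theorem sum_le_G (q Q : ℕ) :
    ∑ n ∈ (Icc 1 Q).filter (fun n => ¬ q ∣ n), (n : ℝ)⁻¹ ≤ G q Q := by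
  have h1 : ∀ n ∈ (Icc 1 Q).filter (fun n => ¬ q ∣ n), rd n ∈ D q Q := by
    intro n hn
    rw [Finset.mem_filter, Finset.mem_Icc] at hn
    rw [mem_D]
    have hd : rd n ∣ n := rd_dvd
    refine ⟨⟨Nat.pos_of_dvd_of_pos hd hn.1.1, (Nat.le_of_dvd hn.1.1 hd).trans hn.1.2⟩,
      rd_sqf n, fun h => hn.2 (h.trans hd)⟩
  rw [← Finset.sum_fiberwise_of_maps_to h1]
  refine Finset.sum_le_sum fun f hf => ?_
  refine le_trans ?_ (fiber_le (Q := Q) (mem_D.1 hf).1.1)
  refine Finset.sum_le_sum_of_subset_of_nonneg ?_ (fun _ _ _ => by positivity)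
  intro n hn
  rw [Finset.mem_filter, Finset.mem_filter] at hn
  rw [Finset.mem_filter]
  exact ⟨hn.1.1, hn.2⟩

theorem G_low {q Q : ℕ} (hq : q.Prime) (hQ : 1 ≤ Q) : (1 - 1 / q) * Real.log Q ≤ G q Q := by
  refine le_trans ?_ (sum_le_G q Q)
  have hq0 : (0 : ℝ) < q := by exact_mod_cast hq.pos
  have hH : Real.log Q ≤ ∑ n ∈ Icc 1 Q, (n : ℝ)⁻¹ := by
    have h := log_add_one_le_harmonic Q
    rw [harmonic_eq_sum_Icc] at h
    push_cast at h
    refine le_trans (Real.log_le_log (by exact_mod_cast hQ) (by linarith)) h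
  have h1 : ∑ n ∈ (Icc 1 Q).filter (fun n => q ∣ n), (n : ℝ)⁻¹ ≤
      1 / q * ∑ n ∈ Icc 1 Q, (n : ℝ)⁻¹ := by
    have h2 : (Icc 1 Q).filter (fun n => q ∣ n) ⊆ (Icc 1 Q).image (fun m => q * m) := by
      intro n hn
      rw [Finset.mem_filter, Finset.mem_Icc] at hn
      obtain ⟨⟨h3, h4⟩, m, rfl⟩ := hn
      rw [Finset.mem_image]
      refine ⟨m, ?_, rfl⟩
      rw [Finset.mem_Icc]
      have hm0 : m ≠ 0 := by rintro rfl; simp at h3
      exact ⟨Nat.pos_of_ne_zero hm0, (Nat.le_mul_of_pos_left m hq.pos).trans h4⟩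
    refine (Finset.sum_le_sum_of_subset_of_nonneg h2 (fun _ _ _ => by positivity)).trans ?_
    rw [Finset.sum_image (fun a _ b _ h => Nat.eq_of_mul_eq_mul_left hq.pos h), Finset.mul_sum]
    refine Finset.sum_le_sum fun m _ => ?_
    push_cast
    rw [mul_inv, one_div]
  have h3 := Finset.sum_filter_add_sum_filter_not (Icc 1 Q) (fun n => q ∣ n)
    (fun n => (n : ℝ)⁻¹)
  have h4 : (0 : ℝ) ≤ 1 - 1 / q := by
    rw [sub_nonneg, div_le_one hq0]
    exact_mod_cast hq.one_le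
  calc (1 - 1 / (q : ℝ)) * Real.log Q ≤ (1 - 1 / (q : ℝ)) * ∑ n ∈ Icc 1 Q, (n : ℝ)⁻¹ := by
        gcongr
    _ ≤ ∑ n ∈ (Icc 1 Q).filter (fun n => ¬ q ∣ n), (n : ℝ)⁻¹ := by linarith

/-! ### The congruences -/

theorem ex_class (b : Bool) {q m : ℕ} (hq : 1 ≤ q) (hm : 1 ≤ m) (hc : Nat.Coprime q m) :
    ∃ v : ℕ, ∀ k : ℕ, 1 ≤ k → (m ∣ pk b q k ↔ k ≡ v [MOD m]) := by
  have : NeZero m := ⟨by omega⟩
  have hu := ZMod.coe_mul_inv_eq_one q hc
  cases b with
  | true =>
    refine ⟨(-((q : ZMod m)⁻¹)).val, fun k hk => ?_⟩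
    rw [← ZMod.natCast_eq_natCast_iff, ZMod.natCast_zmod_val, ← ZMod.natCast_eq_zero_iff]
    simp only [pk, if_true]
    push_cast
    constructor
    · intro h
      linear_combination (q : ZMod m)⁻¹ * h - (k : ZMod m) * hu
    · intro h
      linear_combination (q : ZMod m) * h - hu
  | false =>
    refine ⟨((q : ZMod m)⁻¹).val, fun k hk => ?_⟩
    rw [← ZMod.natCast_eq_natCast_iff, ZMod.natCast_zmod_val, ← ZMod.natCast_eq_zero_iff]
    have h1 : 1 ≤ k * q := Nat.mul_pos hk hq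
    simp only [pk, Bool.false_eq_true, if_false]
    rw [Nat.cast_sub h1]
    push_cast
    constructor
    · intro h
      linear_combination (q : ZMod m)⁻¹ * h - (k : ZMod m) * hu
    · intro h
      linear_combination (q : ZMod m) * h + hu

theorem count (b : Bool) {q m : ℕ} (t : ℕ) (hq : 1 ≤ q) (hm : 1 ≤ m) (hc : Nat.Coprime q m) :
    |((((Icc 1 t).filter (fun k => m ∣ pk b q k)).card : ℝ)) - t / m| ≤ 1 := by
  obtain ⟨v, hv⟩ := ex_class b hq hm hc
  have h1 : (Icc 1 t).filter (fun k => m ∣ pk b q k) = (Ioc 0 t).filter (fun k => k ≡ v [MOD m]) := by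
    ext k
    simp only [Finset.mem_filter, Finset.mem_Icc, Finset.mem_Ioc]
    constructor
    · rintro ⟨⟨h1, h2⟩, h3⟩
      exact ⟨⟨h1, h2⟩, (hv k h1).1 h3⟩
    · rintro ⟨⟨h1, h2⟩, h3⟩
      exact ⟨⟨h1, h2⟩, (hv k h1).2 h3⟩
  have h2 := Nat.Ioc_filter_modEq_card 0 t (r := m) hm v
  rw [h1]
  set c := ((Ioc 0 t).filter (fun k => k ≡ v [MOD m])).card with hcdef
  set A : ℤ := ⌊((t : ℚ) - v) / (m : ℚ)⌋ with hA
  set B : ℤ := ⌊(((0 : ℕ) : ℚ) - v) / (m : ℚ)⌋ with hB
  have hm0 : (0 : ℚ) < m := by exact_mod_cast hm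
  have h3 : (A : ℚ) ≤ ((t : ℚ) - v) / (m : ℚ) := Int.floor_le _
  have h4 : ((t : ℚ) - v) / (m : ℚ) < A + 1 := Int.lt_floor_add_one _
  have h5 : (B : ℚ) ≤ (((0 : ℕ) : ℚ) - v) / (m : ℚ) := Int.floor_le _
  have h6 : (((0 : ℕ) : ℚ) - v) / (m : ℚ) < B + 1 := Int.lt_floor_add_one _
  have h7 : ((t : ℚ) - v) / (m : ℚ) - (((0 : ℕ) : ℚ) - v) / (m : ℚ) = t / m := by
    push_cast
    field_simp
    ring
  have h8 : (0 : ℚ) ≤ t / m := by positivity
  have h9 : |(c : ℚ) - t / m| ≤ 1 := by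
    have h10 : (c : ℚ) = max ((A : ℚ) - B) 0 := by
      have := congrArg (fun z : ℤ => (z : ℚ)) h2
      push_cast at this
      exact this
    rw [h10, abs_le]
    rcases le_total ((A : ℚ) - B) 0 with h11 | h11
    · rw [max_eq_right h11]
      constructor <;> linarith
    · rw [max_eq_left h11]
      constructor <;> linarith
  have h12 : ((|(c : ℚ) - t / m| : ℚ) : ℝ) ≤ ((1 : ℚ) : ℝ) := by exact_mod_cast h9
  push_cast at h12
  exact h12

/-! ### The sieve -/

theorem sieve (b : Bool) {q : ℕ} (t : ℕ) {Q : ℕ} (hq : q.Prime) (hQ : 1 ≤ Q) :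
    (((Icc 1 t).filter (fun k => (pk b q k).Prime)).card : ℝ) ≤
      Q + (t / G q Q + (Q * (1 + Real.log Q)) ^ 2) := by
  have hq2 := hq.two_le
  -- the small primes
  have h1 : (Icc 1 t).filter (fun k => (pk b q k).Prime) ⊆
      Icc 1 Q ∪ (Icc 1 t).filter (fun k => (pk b q k).Prime ∧ Q < pk b q k) := by
    intro k hk
    rw [Finset.mem_filter] at hk
    rw [Finset.mem_union, Finset.mem_filter, Finset.mem_Icc]
    by_cases h : Q < pk b q k
    · exact Or.inr ⟨hk.1, hk.2, h⟩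
    · left
      rw [not_lt] at h
      have hk1 := (Finset.mem_Icc.1 hk.1).1
      refine ⟨hk1, ?_⟩
      have h2 : k * 2 ≤ k * q := Nat.mul_le_mul_left k hq2
      cases b with
      | true =>
        simp only [pk, if_true] at h
        omega
      | false =>
        simp only [pk, Bool.false_eq_true, if_false] at h
        omega
  have h2 : (((Icc 1 t).filter (fun k => (pk b q k).Prime)).card : ℝ) ≤
      Q + (((Icc 1 t).filter (fun k => (pk b q k).Prime ∧ Q < pk b q k)).card : ℝ) := by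
    have h3 := (Finset.card_le_card h1).trans (Finset.card_union_le _ _)
    rw [Nat.card_Icc, Nat.add_sub_cancel] at h3
    exact_mod_cast h3
  refine h2.trans ?_
  gcongr
  -- the squares
  have h3 : (((Icc 1 t).filter (fun k => (pk b q k).Prime ∧ Q < pk b q k)).card : ℝ) ≤
      ∑ k ∈ Icc 1 t, (∑ d ∈ D q Q, if d ∣ pk b q k then la q Q d else 0) ^ 2 := by
    rw [Finset.card_eq_sum_ones, Nat.cast_sum, Finset.sum_filter]
    refine Finset.sum_le_sum fun k hk => ?_
    split_ifs with h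
    · have h4 : ∑ d ∈ D q Q, (if d ∣ pk b q k then la q Q d else 0) = 1 := by
        rw [Finset.sum_eq_single_of_mem 1 (one_mem_D hq2 hQ)]
        · rw [if_pos (one_dvd _), la_one hq2 hQ]
        · intro d hd hd1
          rw [if_neg]
          intro hdv
          rcases (Nat.dvd_prime h.1).1 hdv with h5 | h5
          · exact hd1 h5
          · have := (mem_D.1 hd).1.2
            omega
      rw [h4]
      norm_num
    · positivity
  refine h3.trans ?_
  have h4 : ∑ k ∈ Icc 1 t, (∑ d ∈ D q Q, if d ∣ pk b q k then la q Q d else 0) ^ 2 =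
      ∑ d ∈ D q Q, ∑ d' ∈ D q Q, la q Q d * la q Q d' *
        (((Icc 1 t).filter (fun k => Nat.lcm d d' ∣ pk b q k)).card : ℝ) := by
    have h5 : ∀ k ∈ Icc 1 t, (∑ d ∈ D q Q, if d ∣ pk b q k then la q Q d else 0) ^ 2 =
        ∑ d ∈ D q Q, ∑ d' ∈ D q Q, if Nat.lcm d d' ∣ pk b q k then la q Q d * la q Q d' else 0 := by
      intro k _
      rw [sq, Finset.sum_mul_sum]
      refine Finset.sum_congr rfl fun d _ => Finset.sum_congr rfl fun d' _ => ?_
      by_cases h : d ∣ pk b q k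
      · by_cases h' : d' ∣ pk b q k
        · rw [if_pos h, if_pos h', if_pos (Nat.lcm_dvd h h')]
        · rw [if_neg h', if_neg (fun h0 => h' ((Nat.dvd_lcm_right d d').trans h0)), mul_zero]
      · rw [if_neg h, if_neg (fun h0 => h ((Nat.dvd_lcm_left d d').trans h0)), zero_mul]
    rw [Finset.sum_congr rfl h5, Finset.sum_comm]
    refine Finset.sum_congr rfl fun d _ => ?_
    rw [Finset.sum_comm]
    refine Finset.sum_congr rfl fun d' _ => ?_
    rw [← Finset.sum_filter, Finset.sum_const, nsmul_eq_mul, mul_comm]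
  rw [h4]
  have h6 : ∀ d ∈ D q Q, ∀ d' ∈ D q Q, la q Q d * la q Q d' *
      (((Icc 1 t).filter (fun k => Nat.lcm d d' ∣ pk b q k)).card : ℝ) ≤
      t * (la q Q d * la q Q d' / (Nat.lcm d d' : ℝ)) + |la q Q d| * |la q Q d'| := by
    intro d hd d' hd'
    have hd1 : 0 < d := (mem_D.1 hd).1.1
    have hd1' : 0 < d' := (mem_D.1 hd').1.1
    have hcop : Nat.Coprime q (Nat.lcm d d') := by
      rw [Nat.Prime.coprime_iff_not_dvd hq]
      intro h
      have h7 : q ∣ d * d' := h.trans (Nat.lcm_dvd_mul d d')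
      rcases (Nat.Prime.dvd_mul hq).1 h7 with h8 | h8
      · exact (mem_D.1 hd).2.2 h8
      · exact (mem_D.1 hd').2.2 h8
    have h9 := count b t hq.one_le (Nat.lcm_pos hd1 hd1') hcop
    set c := ((((Icc 1 t).filter (fun k => Nat.lcm d d' ∣ pk b q k)).card : ℝ))
    have h10 : la q Q d * la q Q d' * (c - t / (Nat.lcm d d' : ℝ)) ≤
        |la q Q d| * |la q Q d'| := by
      refine (le_abs_self _).trans ?_
      rw [abs_mul, abs_mul]
      have := mul_le_mul_of_nonneg_left h9 (by positivity : 0 ≤ |la q Q d| * |la q Q d'|)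
      rwa [mul_one] at this
    have h11 : la q Q d * la q Q d' * c = t * (la q Q d * la q Q d' / (Nat.lcm d d' : ℝ)) +
        la q Q d * la q Q d' * (c - t / (Nat.lcm d d' : ℝ)) := by ring
    rw [h11]
    gcongr
  have h12 := Finset.sum_le_sum fun d hd => Finset.sum_le_sum (h6 d hd)
  refine h12.trans ?_
  have h13 : ∑ d ∈ D q Q, ∑ d' ∈ D q Q, (t * (la q Q d * la q Q d' / (Nat.lcm d d' : ℝ)) +
      |la q Q d| * |la q Q d'|) = t * (1 / G q Q) + (∑ d ∈ D q Q, |la q Q d|) ^ 2 := by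
    rw [← quad hq2 hQ, sq, Finset.sum_mul_sum, Finset.mul_sum, ← Finset.sum_add_distrib]
    refine Finset.sum_congr rfl fun d _ => ?_
    rw [Finset.mul_sum, ← Finset.sum_add_distrib]
  rw [h13]
  have h14 := sum_abs_la hq2 hQ
  have h15 : 0 ≤ ∑ d ∈ D q Q, |la q Q d| := Finset.sum_nonneg fun _ _ => abs_nonneg _
  have h16 : (∑ d ∈ D q Q, |la q Q d|) ^ 2 ≤ (Q * (1 + Real.log Q)) ^ 2 := by gcongr
  have h17 : (t : ℝ) * (1 / G q Q) = t / G q Q := by ring
  linarith

/-! ### The theorem -/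

theorem inv_one_sub {x : ℝ} (h0 : 0 ≤ x) (h1 : x ≤ 1 / 2) : 1 / (1 - x) ≤ 1 + 2 * x := by
  rw [div_le_iff₀ (by linarith)]
  nlinarith

theorem rpow_three_half {L : ℝ} (hL : 0 < L) : L ^ (3 / 2 : ℝ) = L * Real.sqrt L := by
  rw [Real.sqrt_eq_rpow, show (3 / 2 : ℝ) = 1 + 1 / 2 by norm_num, Real.rpow_add hL,
    Real.rpow_one]

theorem large (b : Bool) {q t : ℕ} (hq : q.Prime) (ht : 2 ≤ t) (hL : 400 ≤ Real.log t) :
    (((Icc 1 t).filter (fun k => (pk b q k).Prime)).card : ℝ) ≤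
      (1 + 2 / q) * (2 * t / Real.log t) + 82 * t / (Real.log t * Real.sqrt (Real.log t)) := by
  set L := Real.log t with hLdef
  set s := Real.sqrt L with hs
  have ht0 : (0 : ℝ) < t := by positivity
  have hL0 : 0 < L := by linarith
  have hss : s * s = L := Real.mul_self_sqrt hL0.le
  have hs0 : 0 < s := Real.sqrt_pos.2 hL0
  have hs20 : 20 ≤ s := by
    rw [hs]
    refine Real.le_sqrt_of_sq_le ?_
    linarith
  set T := Real.exp (L / 2) with hT
  have hT0 : 0 < T := Real.exp_pos _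
  have hTT : T * T = t := by
    rw [hT, ← Real.exp_add, add_halves, hLdef, Real.exp_log ht0]
  have hlogs : Real.log s ≤ s - 1 := Real.log_le_sub_one_of_pos hs0
  have hlogL : Real.log L ≤ 2 * s - 2 := by
    rw [← hss, Real.log_mul hs0.ne' hs0.ne']
    linarith
  have hT4 : 2 * L ^ 2 ≤ T := by
    have h := Real.pow_div_factorial_le_exp (L / 2) (by linarith) 4
    have h2 : ((4 : ℕ).factorial : ℝ) = 24 := by norm_num [Nat.factorial]
    rw [h2] at h
    have h3 : 2 * L ^ 2 ≤ (L / 2) ^ 4 / 24 := by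
      have h4 : 768 ≤ L ^ 2 := by nlinarith
      have h5 : 0 ≤ L ^ 2 * (L ^ 2 - 768) := mul_nonneg (sq_nonneg _) (by linarith)
      nlinarith
    exact h3.trans h
  set Q : ℕ := ⌊T / L ^ 2⌋₊ with hQ
  have hQle : (Q : ℝ) ≤ T / L ^ 2 := Nat.floor_le (by positivity)
  have hTL : 2 ≤ T / L ^ 2 := by
    rw [le_div_iff₀ (by positivity)]
    linarith
  have hQge : T / (2 * L ^ 2) ≤ Q := by
    have h1 : T / L ^ 2 < Q + 1 := Nat.lt_floor_add_one _
    have h2 : T / (2 * L ^ 2) = T / L ^ 2 / 2 := by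
      rw [div_div]
      ring
    rw [h2]
    linarith
  have hQ1 : 1 ≤ Q := by
    rw [hQ]
    exact Nat.le_floor (by push_cast; linarith)
  have hQ1r : (1 : ℝ) ≤ Q := by exact_mod_cast hQ1
  have hQT : (Q : ℝ) ≤ T := hQle.trans (div_le_self hT0.le (by nlinarith))
  have hlogT : Real.log T = L / 2 := by rw [hT, Real.log_exp]
  have hlogQ : Real.log Q ≤ L / 2 := by
    rw [← hlogT]
    exact Real.log_le_log (by linarith) hQT
  have hlogQ0 : 0 ≤ Real.log Q := Real.log_nonneg hQ1r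
  have hlogQ' : L / 2 * (1 - 10 / s) ≤ Real.log Q := by
    have h1 : Real.log (T / (2 * L ^ 2)) ≤ Real.log Q := Real.log_le_log (by positivity) hQge
    have h2 : Real.log (T / (2 * L ^ 2)) = L / 2 - Real.log 2 - 2 * Real.log L := by
      rw [Real.log_div hT0.ne' (by positivity), hlogT, Real.log_mul (by norm_num) (by positivity),
        Real.log_pow]
      push_cast
      ring
    have h3 : Real.log 2 ≤ 1 := by
      have := Real.log_le_sub_one_of_pos (by norm_num : (0 : ℝ) < 2)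
      linarith
    have h4 : L / 2 * (1 - 10 / s) = L / 2 - 5 * s := by
      rw [← hss]
      field_simp
      ring
    rw [h4]
    linarith
  have hG := G_low (Q := Q) hq hQ1
  have hGp := G_pos hq.two_le hQ1
  have hqr : (2 : ℝ) ≤ q := by exact_mod_cast hq.two_le
  have hx : 0 ≤ 1 / (q : ℝ) := by positivity
  have hx2 : 1 / (q : ℝ) ≤ 1 / 2 := by gcongr
  have hy : 0 ≤ 10 / s := by positivity
  have hy2 : 10 / s ≤ 1 / 2 := by
    rw [div_le_div_iff₀ hs0 (by norm_num)]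
    linarith
  have h1 : (t : ℝ) / G q Q ≤ (1 + 2 / q) * (2 * t / L) * (1 + 20 / s) := by
    have h2 : (1 - 1 / (q : ℝ)) * (L / 2 * (1 - 10 / s)) ≤ G q Q :=
      le_trans (mul_le_mul_of_nonneg_left hlogQ' (by linarith)) hG
    have h3 : 0 < (1 - 1 / (q : ℝ)) * (L / 2 * (1 - 10 / s)) := by
      have : 0 < 1 - 1 / (q : ℝ) := by linarith
      have : 0 < 1 - 10 / s := by linarith
      positivity
    have h4 : (t : ℝ) / G q Q ≤ t / ((1 - 1 / (q : ℝ)) * (L / 2 * (1 - 10 / s))) :=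
      div_le_div_of_nonneg_left ht0.le h3 h2
    have h5 : (t : ℝ) / ((1 - 1 / (q : ℝ)) * (L / 2 * (1 - 10 / s))) =
        (1 / (1 - 1 / (q : ℝ))) * (2 * t / L) * (1 / (1 - 10 / s)) := by
      have e1 : 1 - 1 / (q : ℝ) ≠ 0 := by linarith
      have e2 : 1 - 10 / s ≠ 0 := by linarith
      rw [div_mul_div_comm, div_mul_div_comm, div_eq_div_iff (by positivity)
        (mul_ne_zero (mul_ne_zero e1 hL0.ne') e2)]
      ring
    have h6 := inv_one_sub hx hx2
    have h7 := inv_one_sub hy hy2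
    have h8 : 0 ≤ 1 / (1 - 1 / (q : ℝ)) := by
      have : 0 < 1 - 1 / (q : ℝ) := by linarith
      positivity
    have h9 : 0 ≤ 1 / (1 - 10 / s) := by
      have : 0 < 1 - 10 / s := by linarith
      positivity
    rw [h5] at h4
    refine h4.trans ?_
    have h10 : 1 + 2 * (1 / (q : ℝ)) = 1 + 2 / q := by ring
    have h11 : 1 + 2 * (10 / s) = 1 + 20 / s := by ring
    rw [h10] at h6
    rw [h11] at h7
    gcongr
  have h2 : (Q : ℝ) * (1 + Real.log Q) ≤ T / L := by
    have h3 : 1 + Real.log Q ≤ L := by linarith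
    calc (Q : ℝ) * (1 + Real.log Q) ≤ T / L ^ 2 * L := by gcongr
      _ = T / L := by field_simp
  have h3 : ((Q : ℝ) * (1 + Real.log Q)) ^ 2 ≤ t / L ^ 2 := by
    have h4 : 0 ≤ (Q : ℝ) * (1 + Real.log Q) := by positivity
    calc ((Q : ℝ) * (1 + Real.log Q)) ^ 2 ≤ (T / L) ^ 2 := by gcongr
      _ = t / L ^ 2 := by rw [div_pow, sq T, hTT]
  have hLs : L * s ≤ L ^ 2 := by
    have : s ≤ L := by nlinarith
    rw [sq]
    gcongr
  have h4 : (t : ℝ) / L ^ 2 ≤ t / (L * s) := div_le_div_of_nonneg_left ht0.le (by positivity) hLs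
  have h5 : (Q : ℝ) ≤ t / (L * s) := by
    have h6 : (Q : ℝ) ≤ t / L ^ 2 := by
      refine hQle.trans ?_
      gcongr
      nlinarith
    exact h6.trans h4
  have h6 := sieve b t hq hQ1
  have h7 : (1 + 2 / (q : ℝ)) * (2 * t / L) * (1 + 20 / s) ≤
      (1 + 2 / q) * (2 * t / L) + 80 * t / (L * s) := by
    have h8 : 1 + 2 / (q : ℝ) ≤ 2 := by
      have h9 : 2 / (q : ℝ) = 2 * (1 / q) := by ring
      rw [h9]
      linarith
    have h10 : (1 + 2 / (q : ℝ)) * (2 * t / L) * (20 / s) ≤ 2 * (2 * t / L) * (20 / s) := by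
      gcongr
    have h11 : 2 * (2 * (t : ℝ) / L) * (20 / s) = 80 * t / (L * s) := by
      field_simp
      ring
    rw [h11] at h10
    linarith
  have h12 : (80 : ℝ) * t / (L * s) + t / (L * s) + t / (L * s) = 82 * t / (L * s) := by ring
  linarith

theorem stBt_27 : StBt := by
  refine ⟨10000, fun b q t hq ht => ?_⟩
  have ht0 : (0 : ℝ) < t := by positivity
  have hL0 : 0 < Real.log t := Real.log_pos (by exact_mod_cast (by omega : 1 < t))
  have hq0 : (0 : ℝ) < q := by exact_mod_cast hq.pos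
  rw [rpow_three_half hL0]
  have hs0 : 0 < Real.sqrt (Real.log t) := Real.sqrt_pos.2 hL0
  rcases le_total 400 (Real.log t) with h | h
  · refine (large b hq ht h).trans ?_
    gcongr
    norm_num
  · have h1 : (((Icc 1 t).filter (fun k => (pk b q k).Prime)).card : ℝ) ≤ t := by
      have h2 := Finset.card_filter_le (Icc 1 t) (fun k => (pk b q k).Prime)
      rw [Nat.card_Icc, Nat.add_sub_cancel] at h2
      exact_mod_cast h2
    refine h1.trans ?_
    have h3 : Real.sqrt (Real.log t) ≤ 20 := by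
      refine Real.sqrt_le_iff.2 ⟨by norm_num, by linarith⟩
    have h4 : Real.log t * Real.sqrt (Real.log t) ≤ 10000 := by
      calc Real.log t * Real.sqrt (Real.log t) ≤ 400 * 20 := by gcongr
        _ ≤ 10000 := by norm_num
    have h5 : (t : ℝ) ≤ 10000 * t / (Real.log t * Real.sqrt (Real.log t)) := by
      rw [le_div_iff₀ (by positivity)]
      nlinarith
    have h6 : 0 ≤ (1 + 2 / (q : ℝ)) * (2 * t / Real.log t) := by positivity
    linarith

end Pool.Agent.Lib.MP_0f858a_nt.KR.B27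

namespace Pool.Agent.Lib.MP_0f858a_nt.KR

theorem stBt_27 : StBt := B27.stBt_27

end Pool.Agent.Lib.MP_0f858a_nt.KR
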