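import Mathlib

/-!
MP_0f858a_nt (Kummer ratio): definitions and statements of the modules.
-/

set_option autoImplicit false

namespace Pool.Agent.Lib.MP_0f858a_nt.KR

open Finset Filter
open scoped Classical

/-! ### Definitions -/

/-- `n` has no prime factor `≤ y` -/
def Ro (y n : ℕ) : Prop := ∀ p : ℕ, p.Prime → p ≤ y → ¬ p ∣ n

/-- `k q + 1` or `k q - 1` -/
def pk (b : Bool) (q k : ℕ) : ℕ := if b then k * q + 1 else k * q - 1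

/-- the sum of `1 / k` over the `k` in `(K₀, K₁]` for which `k q ± 1` is prime -/
noncomputable def ZS (b : Bool) (q K₀ K₁ : ℕ) : ℝ :=
  ∑ k ∈ (Ioc K₀ K₁).filter (fun k => (pk b q k).Prime), 1 / (k : ℝ)

/-- the product of `1 - χ(p) / p` over the primes `p ≤ y` -/
noncomputable def PY {q : ℕ} (y : ℕ) (χ : DirichletCharacter ℂ q) : ℂ :=
  ∏ p ∈ (Icc 1 y).filter Nat.Prime, (1 - χ p / (p : ℂ))

/-- `L(1, χ)` without the Euler factors at the primes `p ≤ y` -/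
noncomputable def EE {q : ℕ} [NeZero q] (y : ℕ) (χ : DirichletCharacter ℂ q) : ℂ :=
  DirichletCharacter.LFunction χ 1 * PY y χ

/-- the odd characters modulo `q` -/
noncomputable def odd (q : ℕ) [NeZero q] : Finset (DirichletCharacter ℂ q) :=
  univ.filter fun χ => χ (-1) = -1

/-- the sum of `|E_χ - 1|²` over the nonprincipal characters modulo `q` -/
noncomputable def SQ (y q : ℕ) : ℝ :=
  if h : q = 0 then 0 else
    haveI : NeZero q := ⟨h⟩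
    ∑ χ ∈ univ.filter (fun χ : DirichletCharacter ℂ q => χ ≠ 1), ‖EE y χ - 1‖ ^ 2

/-- the sum of `E_χ - 1` over the odd characters modulo `q` -/
noncomputable def FS (y q : ℕ) : ℂ :=
  if h : q = 0 then 0 else
    haveI : NeZero q := ⟨h⟩
    ∑ χ ∈ odd q, (EE y χ - 1)

/-- the Kummer ratio -/
noncomputable def RR (q : ℕ) : ℝ :=
  if h : q = 0 then 1 else
    haveI : NeZero q := ⟨h⟩
    ‖∏ χ ∈ odd q, DirichletCharacter.LFunction χ 1‖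

/-- the primes in `(√x, x]` -/
noncomputable def Pr (x : ℕ) : Finset ℕ := (Icc 1 x).filter fun q => q.Prime ∧ x < q ^ 2

/-- the end point of the sums: `x ^ (c ⌈log x⌉)` -/
noncomputable def TT (c x : ℕ) : ℕ := x ^ (c * ⌈Real.log x⌉₊)

/-- `exp (√log x)` -/
noncomputable def WW (x : ℕ) : ℕ := ⌊Real.exp (Real.sqrt (Real.log x))⌋₊

/-- `exp ((log x) ^ (1/8))` -/
noncomputable def K8 (x : ℕ) : ℕ := ⌈Real.exp (Real.log x ^ (1 / 8 : ℝ))⌉₊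

/-- `1` if `n ≡ 1`, `-1` if `n ≡ -1`, `0` else (modulo `q ≥ 3`) -/
noncomputable def sg (q n : ℕ) : ℝ :=
  if n % q = 1 then 1 else if (n + 1) % q = 0 then -1 else 0

/-- the number of primes `p` in `(W, y]` dividing `m` -/
noncomputable def os (W y m : ℕ) : ℕ := (m.primeFactors.filter fun p => W < p ∧ p ≤ y).card

/-- the weight `1_(m is W-rough) / (1 + os m)` -/
noncomputable def be (W y m : ℕ) : ℝ := if Ro W m then 1 / (1 + (os W y m : ℝ)) else 0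

/-- the sum of the weights `be (n / p)` over the primes `p` in `(W, y]` dividing `n` -/
noncomputable def bs (W y n : ℕ) : ℝ :=
  ∑ p ∈ n.primeFactors.filter (fun p => W < p ∧ p ≤ y), be W y (n / p)

/-- the number of primes `p > W` with `p² ∣ n` -/
noncomputable def s2 (W n : ℕ) : ℕ := (n.primeFactors.filter fun p => W < p ∧ p ^ 2 ∣ n).card

/-- the sum over the nonprincipal characters modulo `q` of the squares of the character sums -/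
noncomputable def VS (q : ℕ) (S : Finset ℕ) (a : ℕ → ℂ) : ℝ :=
  ∑ᶠ (χ : DirichletCharacter ℂ q) (_ : χ ≠ 1), ‖∑ n ∈ S, a n * χ n‖ ^ 2

/-- the sum of `1 / l` over the primes `l > z₀` dividing `Δ` -/
noncomputable def fD (z₀ Δ : ℕ) : ℝ :=
  ∑ l ∈ Δ.primeFactors.filter (fun l => z₀ < l), 1 / (l : ℝ)

/-! ### L-functions -/

/-- (LONE) `L(1, χ)` is the sum of the series -/
def StLone : Prop := ∀ (q : ℕ) [NeZero q] (χ : DirichletCharacter ℂ q), χ ≠ 1 →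
  Tendsto (fun N : ℕ => ∑ n ∈ Icc 1 N, χ n / (n : ℂ)) atTop
    (nhds (DirichletCharacter.LFunction χ 1))

/-- (EUL) the same without the Euler factors at the primes `≤ y` -/
def StEul : Prop := ∀ (q : ℕ) [NeZero q] (χ : DirichletCharacter ℂ q) (y : ℕ), χ ≠ 1 →
  Tendsto (fun N : ℕ => ∑ n ∈ (Icc 1 N).filter (Ro y), χ n / (n : ℂ)) atTop
    (nhds (EE y χ))

/-- (PP) the prime powers: `∑ q / (m p ^ m)` over the `p ^ m ≡ ± 1 (mod q)` with `2 ≤ m ≤ M`,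
`p ≤ y` is bounded -/
def StPp : Prop := ∃ C : ℝ, ∀ q y M : ℕ, q.Prime → 3 ≤ q →
  ∑ p ∈ (Icc 1 y).filter Nat.Prime, ∑ m ∈ (Icc 2 M).filter (fun m => sg q (p ^ m) ≠ 0),
    (q : ℝ) / (m * (p : ℝ) ^ m) ≤ C

/-- (LOGP) the finite Euler product -/
def StLogp : Prop := ∃ C : ℝ, ∀ (q : ℕ) [NeZero q] (y : ℕ), q.Prime → 3 ≤ q →
  |∑ χ ∈ odd q, Real.log ‖PY y χ‖| ≤
    C + 1 / 2 * max (ZS true q 0 (y / q + 1)) (ZS false q 0 (y / q + 1))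

/-- (LOGE) the logarithm of the rest -/
def StLoge : Prop := ∀ (q : ℕ) [NeZero q] (y : ℕ), q.Prime → 3 ≤ q → SQ y q ≤ 1 / 4 →
  ‖FS y q‖ ≤ 1 → (∀ χ ∈ odd q, EE y χ ≠ 0) ∧ |∑ χ ∈ odd q, Real.log ‖EE y χ‖| ≤ 2

/-! ### Rough numbers -/

/-- (RS) rough numbers in two residue classes prime to `q` -/
def StRs : Prop := ∃ C z₀ : ℕ, ∀ z t q a b N H : ℕ, z₀ ≤ z → z₀ < q → q.Prime →
  ¬ q ∣ a → ¬ q ∣ b →
  |((((Ioc N (N + H)).filter (fun n => n ≡ a [MOD q] ∧ Ro z n)).card : ℝ)) -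
    (((Ioc N (N + H)).filter (fun n => n ≡ b [MOD q] ∧ Ro z n)).card : ℝ)| ≤
    (1 / 2) ^ t * (H / q : ℝ) + (z : ℝ) ^ (C * (t + 1))

/-- (RSH) the same with the weights `1 / n` -/
def StRsh : Prop := ∃ C z₀ : ℕ, ∀ z t q a b N N' : ℕ, z₀ ≤ z → z₀ < q → q.Prime →
  ¬ q ∣ a → ¬ q ∣ b → 1 ≤ N → N ≤ N' → N' ≤ 2 * N →
  |∑ n ∈ (Ioc N N').filter (fun n => n ≡ a [MOD q] ∧ Ro z n), 1 / (n : ℝ) -
    ∑ n ∈ (Ioc N N').filter (fun n => n ≡ b [MOD q] ∧ Ro z n), 1 / (n : ℝ)| ≤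
    2 * (1 / 2) ^ t / q + 2 * (z : ℝ) ^ (C * (t + 1)) / N

/-- (TAIL) the end of the series of `E_χ` -/
def StTail : Prop := ∃ c x₀ : ℕ, ∀ x, x₀ ≤ x → ∀ (q : ℕ) [NeZero q], q ∈ Pr x →
  ∀ χ : DirichletCharacter ℂ q, χ ≠ 1 →
  ‖EE (x ^ 3) χ - 1 - ∑ n ∈ (Ioc (x ^ 3) (TT c x)).filter (Ro (x ^ 3)), χ n / (n : ℂ)‖ ≤
    1 / (x : ℝ) ^ 2

/-- (MLS) the large sieve for the nonprincipal characters of prime moduli -/
def StMls : Prop := ∃ C : ℝ, 0 < C ∧ ∀ (x M : ℕ) (S : Finset ℕ) (a : ℕ → ℂ), 1 ≤ x → 1 ≤ M →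
  S ⊆ Ioc M (2 * M) →
  ∑ q ∈ (Icc 1 x).filter Nat.Prime, VS q S a ≤ C * (M + (x : ℝ) ^ 2) * ∑ n ∈ S, ‖a n‖ ^ 2

/-- (SEC) the second moment -/
def StSec : Prop := ∀ A : ℕ, ∃ x₀ : ℕ, ∀ x, x₀ ≤ x →
  (((Pr x).filter (fun q => 1 / 4 < SQ (x ^ 3) q)).card : ℝ) ≤ x / Real.log x ^ A

/-- (RAM) the identity of Ramare -/
def StRam : Prop := ∀ W y n : ℕ, 1 ≤ W → W ≤ y → 1 ≤ n →
  |(if Ro y n then (1 : ℝ) else 0) - (if Ro W n then (1 : ℝ) else 0) + bs W y n| ≤ s2 W n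

/-- (TYI) the rough numbers -/
def StTyI : Prop := ∀ c : ℕ, ∃ x₀ : ℕ, ∀ x, x₀ ≤ x → ∀ q ∈ Pr x,
  q * |∑ n ∈ (Ioc (x ^ 3) (TT c x)).filter (Ro (WW x)), sg q n / n| ≤ 1 / 8

/-- (SQR) the numbers with a square factor -/
def StSqr : Prop := ∀ c : ℕ, ∃ x₀ : ℕ, ∀ x, x₀ ≤ x → ∀ q ∈ Pr x,
  q * ∑ n ∈ Ioc (x ^ 3) (TT c x), |sg q n| * s2 (WW x) n / n ≤ 1 / 8

/-- (TYII) the bilinear sums -/
def StTyII : Prop := ∀ c A : ℕ, ∃ x₀ : ℕ, ∀ x, x₀ ≤ x →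
  (((Pr x).filter (fun q =>
    1 / 8 < q * |∑ n ∈ Ioc (x ^ 3) (TT c x), sg q n * bs (WW x) (x ^ 3) n / n|)).card : ℝ) ≤
    x / Real.log x ^ A

/-- (FST) the first moment -/
def StFst : Prop := ∀ A : ℕ, ∃ x₀ : ℕ, ∀ x, x₀ ≤ x →
  (((Pr x).filter (fun q => 1 < ‖FS (x ^ 3) q‖)).card : ℝ) ≤ x / Real.log x ^ A

/-! ### The primes `k q ± 1` -/

/-- (BT) the theorem of Brun and Titchmarsh with the constant 2 -/
def StBt : Prop := ∃ C : ℝ, ∀ (b : Bool) (q t : ℕ), q.Prime → 2 ≤ t →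
  (((Icc 1 t).filter (fun k => (pk b q k).Prime)).card : ℝ) ≤
    (1 + 2 / q) * (2 * t / Real.log t) + C * t / Real.log t ^ (3 / 2 : ℝ)

/-- (BTS) the same with the weights `1 / k` -/
def StBts : Prop := ∃ C : ℝ, ∀ (b : Bool) (q K₁ K₂ : ℕ), q.Prime → 3 ≤ K₁ → K₁ ≤ K₂ →
  Real.log K₂ ≤ q → ZS b q K₁ K₂ ≤ 2 * Real.log (Real.log K₂ / Real.log K₁) + C

/-- (SV) a sieve of dimension `w`, uniform in `w` -/
def StSv : Prop := ∃ C : ℝ, 1 ≤ C ∧ ∀ (w z₀ X Δ : ℕ) (S : Finset ℕ), 2 ≤ w → 2 * w ≤ z₀ →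
  Δ ≠ 0 → C * w * Real.log z₀ ≤ Real.log X → (∀ n ∈ S, n < X) →
  (∀ l : ℕ, l.Prime → z₀ < l → l ^ w ≤ X → ¬ l ∣ Δ →
    ∃ R : Finset (ZMod l), R.card = w ∧ ∀ n ∈ S, (n : ZMod l) ∉ R) →
  (S.card : ℝ) ≤ X * (C * w * Real.log z₀ / Real.log X) ^ w * Real.exp (w * fD z₀ Δ)

/-- (MID) large deviations for the `k` of middle size -/
def StMid : Prop := ∀ B : ℕ, ∃ C : ℝ, 1 ≤ C ∧ ∃ x₀ : ℕ, ∀ x, x₀ ≤ x → ∀ (b : Bool) (s K₁ : ℕ),
  1 ≤ s → (s : ℝ) ≤ B * Real.log (Real.log x) → C * s * Real.log K₁ ≤ Real.log x →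
  (((Pr x).filter (fun q => 1 < ZS b q (K8 x) K₁)).card : ℝ) ≤
    C * (x / Real.log x) * Real.exp (-s)

/-- (SML) the small `k` -/
def StSml : Prop := ∀ A : ℕ, ∃ C : ℝ, ∃ x₀ : ℕ, ∀ x, x₀ ≤ x → ∀ b : Bool,
  (((Pr x).filter (fun q => C < ZS b q 0 (K8 x))).card : ℝ) ≤ x / Real.log x ^ A

/-! ### The theorem -/

/-- (MAIN) the tail of the Kummer ratio -/
def StMain : Prop := ∀ A : ℕ, ∃ C : ℝ, 0 < C ∧ ∀ (x : ℕ) (V : ℝ), 2 ≤ x → 1 ≤ V →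
  (((Icc 1 x).filter (fun q => q.Prime ∧ q ≠ 2 ∧ V ≤ max (RR q) (RR q)⁻¹)).card : ℝ) ≤
    C * (x / Real.log x) * (Real.exp (-V / C) + (Real.log x ^ A)⁻¹)

end Pool.Agent.Lib.MP_0f858a_nt.KR
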