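import Mathlib
import Pool.Agent.Lib.MP_0f858a_nt.KR.Stmts84

/-!
MP_0f858a_nt, theorem KR, module BTS: the bound with the weights `1 / k`, by summation by parts.
-/

set_option autoImplicit false

namespace Pool.Agent.Lib.MP_0f858a_nt.KR

open Finset Filter
open scoped Classical

/-- the counting function -/
noncomputable def btsN_96 (b : Bool) (q t : ℕ) : ℝ :=
  (((Icc 1 t).filter (fun k => (pk b q k).Prime)).card : ℝ)

theorem bts_abel_96 (b : Bool) (q K₁ K₂ : ℕ) (h1 : 1 ≤ K₁) (h2 : K₁ ≤ K₂) :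
    ZS b q K₁ K₂ = btsN_96 b q K₂ / K₂ - btsN_96 b q K₁ / K₁ +
      ∑ t ∈ Ico K₁ K₂, btsN_96 b q t * (1 / (t : ℝ) - 1 / ((t : ℝ) + 1)) := by
  induction K₂, h2 using Nat.le_induction with
  | base => simp [ZS]
  | succ n hn ih =>
    have hn0 : (0 : ℝ) < n := by exact_mod_cast (by omega : 0 < n)
    have e1 : ZS b q K₁ (n + 1) = ZS b q K₁ n +
        (if (pk b q (n + 1)).Prime then 1 / ((n : ℝ) + 1) else 0) := by
      unfold ZS
      rw [Finset.sum_filter, Finset.sum_filter, Finset.sum_Ioc_succ_top hn]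
      push_cast
      rfl
    have e2 : btsN_96 b q (n + 1) = btsN_96 b q n +
        (if (pk b q (n + 1)).Prime then 1 else 0) := by
      unfold btsN_96
      rw [Finset.card_filter, Finset.card_filter, Finset.sum_Icc_succ_top (by omega)]
      push_cast
      rfl
    rw [e1, Finset.sum_Ico_succ_top hn, ih, e2]
    push_cast
    split_ifs
    · field_simp
      ring
    · field_simp
      ring

theorem bts_ll_96 (t : ℕ) (ht : 3 ≤ t) :
    1 / ((t : ℝ) * Real.log t) ≤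
      Real.log (Real.log t) - Real.log (Real.log ((t - 1 : ℕ) : ℝ)) := by
  have hc : ((t - 1 : ℕ) : ℝ) = (t : ℝ) - 1 := by
    rw [Nat.cast_sub (by omega)]
    simp
  have ht' : (3 : ℝ) ≤ t := by exact_mod_cast ht
  rw [hc]
  have h1 : 0 < Real.log ((t : ℝ) - 1) := Real.log_pos (by linarith)
  have h2 : 0 < Real.log (t : ℝ) := Real.log_pos (by linarith)
  have h3 : 1 / (t : ℝ) ≤ Real.log t - Real.log ((t : ℝ) - 1) := by
    have h := Real.log_le_sub_one_of_pos (show 0 < ((t : ℝ) - 1) / t by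
      apply div_pos <;> linarith)
    rw [Real.log_div (by linarith) (by linarith)] at h
    have e : ((t : ℝ) - 1) / t - 1 = -(1 / t) := by
      field_simp
      ring
    linarith
  have h4 := Real.log_le_sub_one_of_pos (div_pos h1 h2)
  rw [Real.log_div h1.ne' h2.ne'] at h4
  have e : Real.log ((t : ℝ) - 1) / Real.log t - 1 =
      -((Real.log t - Real.log ((t : ℝ) - 1)) / Real.log t) := by
    field_simp
    ring
  have h5 : 1 / ((t : ℝ) * Real.log t) ≤
      (Real.log t - Real.log ((t : ℝ) - 1)) / Real.log t := by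
    rw [← div_div]
    gcongr
  linarith

theorem bts_sq_96 (t : ℕ) (ht : 3 ≤ t) :
    1 / ((t : ℝ) * Real.log t ^ (3 / 2 : ℝ)) ≤
      2 / Real.sqrt (Real.log ((t - 1 : ℕ) : ℝ)) - 2 / Real.sqrt (Real.log t) := by
  have hc : ((t - 1 : ℕ) : ℝ) = (t : ℝ) - 1 := by
    rw [Nat.cast_sub (by omega)]
    simp
  have ht' : (3 : ℝ) ≤ t := by exact_mod_cast ht
  rw [hc]
  have h1 : 0 < Real.log ((t : ℝ) - 1) := Real.log_pos (by linarith)
  have h2 : 0 < Real.log (t : ℝ) := Real.log_pos (by linarith)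
  have h3 : 1 / (t : ℝ) ≤ Real.log t - Real.log ((t : ℝ) - 1) := by
    have h := Real.log_le_sub_one_of_pos (show 0 < ((t : ℝ) - 1) / t by
      apply div_pos <;> linarith)
    rw [Real.log_div (by linarith) (by linarith)] at h
    have e : ((t : ℝ) - 1) / t - 1 = -(1 / t) := by
      field_simp
      ring
    linarith
  set a := Real.sqrt (Real.log ((t : ℝ) - 1)) with ha
  set c := Real.sqrt (Real.log (t : ℝ)) with hcd
  have ha0 : 0 < a := Real.sqrt_pos.2 h1
  have hc0 : 0 < c := Real.sqrt_pos.2 h2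
  have ha2 : a ^ 2 = Real.log ((t : ℝ) - 1) := Real.sq_sqrt h1.le
  have hc2 : c ^ 2 = Real.log (t : ℝ) := Real.sq_sqrt h2.le
  have hac : a ≤ c := Real.sqrt_le_sqrt (Real.log_le_log (by linarith) (by linarith))
  have hp : Real.log (t : ℝ) ^ (3 / 2 : ℝ) = c ^ 3 := by
    rw [← hc2, ← Real.rpow_natCast c 2, ← Real.rpow_mul hc0.le, ← Real.rpow_natCast c 3]
    norm_num
  rw [hp]
  rw [← ha2, ← hc2] at h3
  have ht0 : (0 : ℝ) < t := by linarith
  have e : 2 / a - 2 / c = 2 * (c - a) / (a * c) := by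
    field_simp
  rw [e, div_le_div_iff₀ (by positivity) (by positivity)]
  rw [div_le_iff₀ ht0] at h3
  -- a c <= 2 (c - a) t c^3, since 1 <= (c - a)(c + a) t and a (c + a) <= 2 c ^ 2
  have h6 : 0 ≤ (c - a) * t := mul_nonneg (by linarith) ht0.le
  have h7 : a * c * 1 ≤ a * c * ((c ^ 2 - a ^ 2) * t) := by gcongr
  have h8 : a * c * ((c ^ 2 - a ^ 2) * t) = ((c - a) * t) * (a * (c + a) * c) := by ring
  have h9 : a * (c + a) * c ≤ 2 * c ^ 3 := by
    have : a * (c + a) ≤ 2 * c ^ 2 := by nlinarith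
    nlinarith
  have h10 := mul_le_mul_of_nonneg_left h9 h6
  calc 1 * (a * c) = a * c * 1 := by ring
    _ ≤ ((c - a) * t) * (a * (c + a) * c) := by rw [← h8]; exact h7
    _ ≤ ((c - a) * t) * (2 * c ^ 3) := h10
    _ = _ := by ring

theorem bts_tel_96 (f : ℕ → ℝ) (K₁ K₂ : ℕ) (h2 : K₁ ≤ K₂) :
    ∑ t ∈ Ico K₁ K₂, (f t - f (t - 1)) = f (K₂ - 1) - f (K₁ - 1) := by
  induction K₂, h2 using Nat.le_induction with
  | base => simp
  | succ n hn ih =>
    rw [Finset.sum_Ico_succ_top hn, ih, Nat.add_sub_cancel]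
    ring

theorem stBts_96 (hBt : StBt) : StBts := by
  obtain ⟨C, hC⟩ := hBt
  refine ⟨11 + 4 * |C|, fun b q K₁ K₂ hq h3 h12 hlq => ?_⟩
  have hq2 : (2 : ℝ) ≤ q := by exact_mod_cast hq.two_le
  have hK1 : (3 : ℝ) ≤ K₁ := by exact_mod_cast h3
  have hK12 : (K₁ : ℝ) ≤ K₂ := by exact_mod_cast h12
  have hCa := abs_nonneg C
  set LL : ℕ → ℝ := fun t => Real.log (Real.log t) with hLL
  set SS : ℕ → ℝ := fun t => -(2 / Real.sqrt (Real.log t)) with hSS
  have hterm : ∀ t ∈ Ico K₁ K₂, btsN_96 b q t * (1 / (t : ℝ) - 1 / ((t : ℝ) + 1)) ≤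
      (1 + 2 / q) * 2 * (LL t - LL (t - 1)) + |C| * (SS t - SS (t - 1)) := by
    intro t ht
    rw [Finset.mem_Ico] at ht
    have ht3 : 3 ≤ t := h3.trans ht.1
    have ht' : (3 : ℝ) ≤ t := by exact_mod_cast ht3
    have hl : 0 < Real.log (t : ℝ) := Real.log_pos (by linarith)
    have hlp : 0 < Real.log (t : ℝ) ^ (3 / 2 : ℝ) := Real.rpow_pos_of_pos hl _
    have hN : btsN_96 b q t ≤ (1 + 2 / q) * (2 * t / Real.log t) +
        |C| * t / Real.log t ^ (3 / 2 : ℝ) := by
      refine (hC b q t hq (by omega)).trans ?_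
      have := le_abs_self C
      gcongr
    have e1 : 1 / (t : ℝ) - 1 / ((t : ℝ) + 1) ≤ 1 / (t : ℝ) ^ 2 := by
      rw [div_sub_div _ _ (by linarith) (by linarith), div_le_div_iff₀ (by positivity) (by positivity)]
      nlinarith
    have e0 : 0 ≤ 1 / (t : ℝ) - 1 / ((t : ℝ) + 1) := by
      rw [sub_nonneg]
      exact one_div_le_one_div_of_le (by linarith) (by linarith)
    have hN0 : 0 ≤ btsN_96 b q t := Nat.cast_nonneg _
    calc btsN_96 b q t * (1 / (t : ℝ) - 1 / ((t : ℝ) + 1))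
        ≤ ((1 + 2 / q) * (2 * t / Real.log t) + |C| * t / Real.log t ^ (3 / 2 : ℝ)) *
          (1 / (t : ℝ) ^ 2) := by gcongr
      _ = (1 + 2 / q) * 2 * (1 / ((t : ℝ) * Real.log t)) +
          |C| * (1 / ((t : ℝ) * Real.log t ^ (3 / 2 : ℝ))) := by
          field_simp
      _ ≤ (1 + 2 / q) * 2 * (LL t - LL (t - 1)) + |C| * (SS t - SS (t - 1)) := by
          have a1 := bts_ll_96 t ht3
          have a2 := bts_sq_96 t ht3
          have a3 : SS t - SS (t - 1) =
              2 / Real.sqrt (Real.log ((t - 1 : ℕ) : ℝ)) - 2 / Real.sqrt (Real.log t) := by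
            simp only [hSS]
            ring
          rw [a3]
          gcongr
  have hsum : ∑ t ∈ Ico K₁ K₂, btsN_96 b q t * (1 / (t : ℝ) - 1 / ((t : ℝ) + 1)) ≤
      (1 + 2 / q) * 2 * (LL (K₂ - 1) - LL (K₁ - 1)) + |C| * (SS (K₂ - 1) - SS (K₁ - 1)) := by
    refine (Finset.sum_le_sum hterm).trans (le_of_eq ?_)
    rw [Finset.sum_add_distrib, ← Finset.mul_sum, ← Finset.mul_sum,
      bts_tel_96 LL K₁ K₂ h12, bts_tel_96 SS K₁ K₂ h12]
  have hc1 : ((K₁ - 1 : ℕ) : ℝ) = (K₁ : ℝ) - 1 := by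
    rw [Nat.cast_sub (by omega)]
    simp
  have hc2 : ((K₂ - 1 : ℕ) : ℝ) = (K₂ : ℝ) - 1 := by
    rw [Nat.cast_sub (by omega)]
    simp
  have hl2 := Real.log_two_gt_d9
  have hl1 : Real.log 2 ≤ Real.log ((K₁ : ℝ) - 1) := Real.log_le_log (by norm_num) (by linarith)
  have hl3 : Real.log ((K₁ : ℝ) - 1) ≤ Real.log ((K₂ : ℝ) - 1) :=
    Real.log_le_log (by linarith) (by linarith)
  have hl4 : Real.log ((K₂ : ℝ) - 1) ≤ Real.log K₂ := Real.log_le_log (by linarith) (by linarith)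
  have hl5 : 1 ≤ Real.log (K₁ : ℝ) := by
    rw [Real.le_log_iff_exp_le (by linarith)]
    have := Real.exp_one_lt_d9
    linarith
  have hl6 : Real.log (K₁ : ℝ) ≤ Real.log K₂ := Real.log_le_log (by linarith) hK12
  have hl7 : Real.log (K₁ : ℝ) ≤ 2 * Real.log ((K₁ : ℝ) - 1) := by
    have : Real.log (K₁ : ℝ) ≤ Real.log (2 * ((K₁ : ℝ) - 1)) :=
      Real.log_le_log (by linarith) (by linarith)
    rw [Real.log_mul (by norm_num) (by linarith)] at this
    linarith
  -- the double logarithms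
  have m1 : LL (K₂ - 1) ≤ Real.log (Real.log K₂) := by
    simp only [hLL, hc2]
    exact Real.log_le_log (by linarith) hl4
  have m2 : Real.log (Real.log K₁) - 1 ≤ LL (K₁ - 1) := by
    simp only [hLL, hc1]
    have h := Real.log_le_log (by linarith) hl7
    rw [Real.log_mul (by norm_num) (by linarith)] at h
    have := Real.log_two_lt_d9
    linarith
  have m3 : Real.log (Real.log K₂ / Real.log K₁) =
      Real.log (Real.log K₂) - Real.log (Real.log K₁) :=
    Real.log_div (by linarith) (by linarith)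
  have m4 : 0 ≤ Real.log (Real.log K₁) := Real.log_nonneg hl5
  have m5 : Real.log (Real.log K₂) ≤ q := by
    have := Real.log_le_sub_one_of_pos (show 0 < Real.log (K₂ : ℝ) by linarith)
    linarith
  have m6 : Real.log (Real.log K₁) ≤ Real.log (Real.log K₂) :=
    Real.log_le_log (by linarith) hl6
  have m7 : SS (K₂ - 1) ≤ 0 := by
    simp only [hSS]
    have : 0 ≤ 2 / Real.sqrt (Real.log ((K₂ - 1 : ℕ) : ℝ)) := by positivity
    linarith
  have m8 : -4 ≤ SS (K₁ - 1) := by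
    simp only [hSS, hc1]
    have h : 1 / 2 ≤ Real.sqrt (Real.log ((K₁ : ℝ) - 1)) := by
      apply Real.le_sqrt_of_sq_le
      norm_num
      linarith
    have : 2 / Real.sqrt (Real.log ((K₁ : ℝ) - 1)) ≤ 2 / (1 / 2) := by gcongr
    linarith
  have m9 : btsN_96 b q K₂ / K₂ ≤ 1 := by
    rw [div_le_one (by linarith)]
    unfold btsN_96
    have h := Finset.card_filter_le (Icc 1 K₂) (fun k => (pk b q k).Prime)
    rw [Nat.card_Icc, Nat.add_sub_cancel] at h
    exact_mod_cast h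
  have m10 : 0 ≤ btsN_96 b q K₁ / K₁ := by
    have : 0 ≤ btsN_96 b q K₁ := Nat.cast_nonneg _
    positivity
  rw [bts_abel_96 b q K₁ K₂ (by omega) h12, m3]
  set X := Real.log (Real.log K₂) - Real.log (Real.log K₁) with hX
  have hX0 : 0 ≤ X := by rw [hX]; linarith
  have hXq : X ≤ q := by rw [hX]; linarith
  have n1 : (1 + 2 / (q : ℝ)) * 2 * (LL (K₂ - 1) - LL (K₁ - 1)) ≤ 2 * X + 2 + 8 := by
    have h : LL (K₂ - 1) - LL (K₁ - 1) ≤ X + 1 := by rw [hX]; linarith
    calc (1 + 2 / (q : ℝ)) * 2 * (LL (K₂ - 1) - LL (K₁ - 1)) ≤ (1 + 2 / (q : ℝ)) * 2 * (X + 1) := by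
          gcongr
      _ = 2 * X + 2 + 4 * ((X + 1) / q) := by ring
      _ ≤ 2 * X + 2 + 4 * 2 := by
          gcongr
          rw [div_le_iff₀ (by linarith)]
          linarith
      _ = _ := by ring
  have n2 : |C| * (SS (K₂ - 1) - SS (K₁ - 1)) ≤ |C| * 4 := by
    gcongr
    linarith
  linarith

end Pool.Agent.Lib.MP_0f858a_nt.KR
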