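import Pool.Agent.Lib.MP_0f858a_nt.KR.Lone12

/-!
EUL: the series of `L(1, χ)` over the numbers without prime factors `≤ y` (helper12).
-/

set_option autoImplicit false

namespace Pool.Agent.Lib.MP_0f858a_nt.KR

open Finset Filter
open scoped Classical

lemma ro_succ_of_not_prime12 {y : ℕ} (hy : ¬ (y + 1).Prime) (n : ℕ) : Ro (y + 1) n ↔ Ro y n := by
  constructor
  · intro h p hp hpy
    exact h p hp (by omega)
  · intro h p hp hpy
    rcases Nat.lt_or_ge y p with h1 | h1
    · exact absurd (show (y + 1).Prime by rwa [show y + 1 = p by omega]) hy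
    · exact h p hp h1

lemma ro_succ_of_prime12 {y : ℕ} (n : ℕ) (hy : (y + 1).Prime) :
    Ro (y + 1) n ↔ Ro y n ∧ ¬ (y + 1) ∣ n := by
  constructor
  · intro h
    exact ⟨fun p hp hpy => h p hp (by omega), h _ hy le_rfl⟩
  · rintro ⟨h, h'⟩ p hp hpy
    rcases Nat.lt_or_ge y p with h1 | h1
    · rwa [show p = y + 1 by omega]
    · exact h p hp h1

lemma ro_mul12 {y : ℕ} (m : ℕ) (hy : (y + 1).Prime) : Ro y ((y + 1) * m) ↔ Ro y m := by
  constructor
  · intro h p hp hpy hpm
    exact h p hp hpy (hpm.mul_left _)
  · intro h p hp hpy hpm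
    rcases (Nat.Prime.dvd_mul hp).1 hpm with h1 | h1
    · have := (Nat.prime_dvd_prime_iff_eq hp hy).1 h1
      omega
    · exact h p hp hpy h1

/-- module EUL -/
theorem stEul_12 (hLone : StLone) : StEul := by
  intro q _ χ y hχ
  induction y with
  | zero =>
    have h1 : ∀ n, Ro 0 n := fun n p hp hp0 => absurd (Nat.le_zero.1 hp0) hp.ne_zero
    have h2 : PY 0 χ = 1 := by simp [PY]
    have h3 := hLone q χ hχ
    simp only [EE, h2, mul_one]
    refine h3.congr fun N => ?_
    rw [filter_true_of_mem fun n _ => h1 n]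
  | succ y ih =>
    by_cases hy : (y + 1).Prime
    · have hP : PY (y + 1) χ = PY y χ * (1 - χ ((y + 1 : ℕ) : ZMod q) / ((y + 1 : ℕ) : ℂ)) := by
        unfold PY
        have h1 : (Icc 1 (y + 1)).filter Nat.Prime = insert (y + 1) ((Icc 1 y).filter Nat.Prime) := by
          ext x
          simp only [mem_filter, mem_Icc, mem_insert]
          constructor
          · rintro ⟨h1, h2⟩
            rcases Nat.lt_or_ge y x with h3 | h3
            · left; omega
            · right; exact ⟨⟨h1.1, h3⟩, h2⟩
          · rintro (rfl | h)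
            · exact ⟨⟨by omega, le_rfl⟩, hy⟩
            · exact ⟨⟨h.1.1, by omega⟩, h.2⟩
        rw [h1, prod_insert (by simp), mul_comm]
      have hE : EE (y + 1) χ = EE y χ - χ ((y + 1 : ℕ) : ZMod q) / ((y + 1 : ℕ) : ℂ) * EE y χ := by
        unfold EE
        rw [hP]
        ring
      rw [hE]
      have hdiv : Tendsto (fun N : ℕ => N / (y + 1)) atTop atTop :=
        Nat.tendsto_div_const_atTop (by omega)
      refine (ih.sub ((ih.comp hdiv).const_mul _)).congr fun N => ?_
      simp only [Function.comp]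
      have h1 : (Icc 1 N).filter (Ro y) = (Icc 1 N).filter (Ro (y + 1)) ∪
          ((Icc 1 (N / (y + 1))).filter (Ro y)).image (fun m => (y + 1) * m) := by
        ext n
        simp only [mem_filter, mem_union, mem_image, mem_Icc]
        constructor
        · rintro ⟨h1, h2⟩
          by_cases h3 : (y + 1) ∣ n
          · right
            obtain ⟨m, rfl⟩ := h3
            refine ⟨m, ⟨⟨?_, ?_⟩, (ro_mul12 m hy).1 h2⟩, rfl⟩
            · rcases Nat.eq_zero_or_pos m with rfl | h
              · simp at h1
              · exact h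
            · rw [Nat.le_div_iff_mul_le (by omega), mul_comm]
              exact h1.2
          · left
            exact ⟨h1, (ro_succ_of_prime12 n hy).2 ⟨h2, h3⟩⟩
        · rintro (⟨h1, h2⟩ | ⟨m, ⟨⟨h1, h2⟩, h3⟩, rfl⟩)
          · exact ⟨h1, ((ro_succ_of_prime12 n hy).1 h2).1⟩
          · rw [Nat.le_div_iff_mul_le (by omega), mul_comm] at h2
            exact ⟨⟨Nat.mul_pos (by omega) h1, h2⟩, (ro_mul12 m hy).2 h3⟩
      rw [h1, sum_union, sum_image]
      · have h2 : ∑ m ∈ (Icc 1 (N / (y + 1))).filter (Ro y),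
            χ (((y + 1) * m : ℕ) : ZMod q) / (((y + 1) * m : ℕ) : ℂ) =
            χ ((y + 1 : ℕ) : ZMod q) / ((y + 1 : ℕ) : ℂ) *
              ∑ m ∈ (Icc 1 (N / (y + 1))).filter (Ro y), χ m / (m : ℂ) := by
          rw [mul_sum]
          refine sum_congr rfl fun m _ => ?_
          rw [Nat.cast_mul, map_mul, Nat.cast_mul, mul_div_mul_comm]
        rw [h2]
        ring
      · intro a _ b _ h
        exact Nat.eq_of_mul_eq_mul_left (by omega) h
      · rw [disjoint_left]
        intro n hn hn'
        rw [mem_filter, ro_succ_of_prime12 n hy] at hn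
        rw [mem_image] at hn'
        obtain ⟨m, _, rfl⟩ := hn'
        exact hn.2.2 (dvd_mul_right _ _)
    · have hP : PY (y + 1) χ = PY y χ := by
        unfold PY
        congr 1
        ext x
        simp only [mem_filter, mem_Icc]
        constructor
        · rintro ⟨h1, h2⟩
          refine ⟨⟨h1.1, ?_⟩, h2⟩
          rcases Nat.lt_or_ge y x with h3 | h3
          · exact absurd (show (y + 1).Prime by rwa [show y + 1 = x by omega]) hy
          · exact h3
        · rintro ⟨h1, h2⟩
          exact ⟨⟨h1.1, by omega⟩, h2⟩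
      have hE : EE (y + 1) χ = EE y χ := by
        unfold EE
        rw [hP]
      rw [hE]
      refine ih.congr fun N => ?_
      congr 1
      ext n
      simp only [mem_filter, ro_succ_of_not_prime12 hy]

end Pool.Agent.Lib.MP_0f858a_nt.KR
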