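import Pool.Agent.Lib.MP_0f858a_nt.KR.Stmts84

/-!
MP_0f858a_nt (Kummer ratio): module LOGE.
-/

set_option autoImplicit false

namespace Pool.Agent.Lib.MP_0f858a_nt.KR

open Finset Filter
open scoped Classical

theorem le27_log (z : ℂ) (hz : ‖z‖ ≤ 1 / 2) : |Real.log ‖1 + z‖ - z.re| ≤ ‖z‖ ^ 2 := by
  have h1 : ‖z‖ < 1 := by linarith
  have h2 := Complex.norm_log_one_add_sub_self_le h1
  have h3 : Real.log ‖1 + z‖ - z.re = (Complex.log (1 + z) - z).re := by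
    rw [Complex.sub_re, Complex.log_re]
  have h4 : |(Complex.log (1 + z) - z).re| ≤ ‖Complex.log (1 + z) - z‖ := Complex.abs_re_le_norm _
  have h5 : (1 - ‖z‖)⁻¹ ≤ 2 := by
    rw [inv_le_comm₀ (by linarith) (by norm_num)]
    linarith
  have h6 : ‖z‖ ^ 2 * (1 - ‖z‖)⁻¹ / 2 ≤ ‖z‖ ^ 2 := by
    have := mul_le_mul_of_nonneg_left h5 (sq_nonneg ‖z‖)
    linarith
  rw [h3]
  linarith

theorem le27_odd_ne {q : ℕ} [NeZero q] {χ : DirichletCharacter ℂ q} (h : χ ∈ odd q) : χ ≠ 1 := by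
  intro h1
  have h2 : χ (-1) = -1 := by simpa [odd] using h
  rw [h1, MulChar.one_apply (isUnit_one.neg)] at h2
  have h3 := congrArg Complex.re h2
  norm_num at h3

theorem stLoge_27 : StLoge := by
  intro q _ y hq hq3 hS hF
  have hq0 : q ≠ 0 := NeZero.ne q
  rw [SQ, dif_neg hq0] at hS
  rw [FS, dif_neg hq0] at hF
  have hterm : ∀ χ ∈ odd q, ‖EE y χ - 1‖ ^ 2 ≤ 1 / 4 := by
    intro χ hχ
    refine le_trans ?_ hS
    exact Finset.single_le_sum (f := fun χ : DirichletCharacter ℂ q => ‖EE y χ - 1‖ ^ 2)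
      (fun _ _ => sq_nonneg _) (by simpa using le27_odd_ne hχ)
  have hhalf : ∀ χ ∈ odd q, ‖EE y χ - 1‖ ≤ 1 / 2 := by
    intro χ hχ
    have h1 := hterm χ hχ
    nlinarith [norm_nonneg (EE y χ - 1)]
  constructor
  · intro χ hχ h0
    have h1 := hhalf χ hχ
    rw [h0] at h1
    norm_num at h1
  · have h1 : ∑ χ ∈ odd q, ‖EE y χ - 1‖ ^ 2 ≤ 1 / 4 := by
      refine le_trans ?_ hS
      refine Finset.sum_le_sum_of_subset_of_nonneg ?_ (fun _ _ _ => sq_nonneg _)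
      intro χ hχ
      simpa using le27_odd_ne hχ
    have h2 : ∑ χ ∈ odd q, Real.log ‖EE y χ‖ = (∑ χ ∈ odd q, (EE y χ - 1)).re +
        ∑ χ ∈ odd q, (Real.log ‖EE y χ‖ - (EE y χ - 1).re) := by
      rw [Complex.re_sum, ← Finset.sum_add_distrib]
      refine Finset.sum_congr rfl fun χ _ => ?_
      ring
    have h3 : |∑ χ ∈ odd q, (Real.log ‖EE y χ‖ - (EE y χ - 1).re)| ≤
        ∑ χ ∈ odd q, ‖EE y χ - 1‖ ^ 2 := by
      refine le_trans (Finset.abs_sum_le_sum_abs _ _) ?_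
      refine Finset.sum_le_sum fun χ hχ => ?_
      have h4 := le27_log (EE y χ - 1) (hhalf χ hχ)
      rwa [add_sub_cancel] at h4
    have h5 : |(∑ χ ∈ odd q, (EE y χ - 1)).re| ≤ 1 :=
      le_trans (Complex.abs_re_le_norm _) hF
    rw [h2]
    have h6 := abs_add_le (∑ χ ∈ odd q, (EE y χ - 1)).re
      (∑ χ ∈ odd q, (Real.log ‖EE y χ‖ - (EE y χ - 1).re))
    linarith

end Pool.Agent.Lib.MP_0f858a_nt.KR
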