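import Pool.Agent.Lib.MP_0f858a_nt.KR.Stmts84

/-!
KR, module LOGP: the finite Euler product.
-/

set_option autoImplicit false

namespace Pool.Agent.Lib.MP_0f858a_nt.KR

open Finset Filter
open scoped Classical

namespace LogP1

theorem one_iff {q : ℕ} (h3 : 3 ≤ q) (n : ℕ) : (n : ZMod q) = 1 ↔ n % q = 1 := by
  have h1 : (n : ZMod q) = ((1 : ℕ) : ZMod q) ↔ n % q = 1 % q := ZMod.natCast_eq_natCast_iff' n 1 q
  rw [Nat.cast_one, Nat.mod_eq_of_lt (by omega : 1 < q)] at h1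
  exact h1

theorem neg_one_iff {q : ℕ} (n : ℕ) : (n : ZMod q) = -1 ↔ (n + 1) % q = 0 := by
  have h1 : ((n + 1 : ℕ) : ZMod q) = 0 ↔ q ∣ n + 1 := ZMod.natCast_eq_zero_iff (n + 1) q
  rw [Nat.dvd_iff_mod_eq_zero] at h1
  rw [← h1]
  push_cast
  exact eq_neg_iff_add_eq_zero

/-- The sum of an odd characters at `n`. -/
theorem odd_sum {q : ℕ} [NeZero q] (hq : q.Prime) (h3 : 3 ≤ q) (n : ℕ) :
    ∑ χ ∈ odd q, χ (n : ZMod q) = ((((q : ℝ) - 1) / 2 * sg q n : ℝ) : ℂ) := by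
  have h1 := DirichletCharacter.sum_char_inv_mul_char_eq ℂ (n := q) (a := 1) isUnit_one
    (n : ZMod q)
  have h2 := DirichletCharacter.sum_char_inv_mul_char_eq ℂ (n := q) (a := -1) isUnit_one.neg
    (n : ZMod q)
  have e1 : ∑ χ ∈ odd q, χ (n : ZMod q) =
      ((∑ χ : DirichletCharacter ℂ q, χ (1 : ZMod q)⁻¹ * χ (n : ZMod q)) -
        ∑ χ : DirichletCharacter ℂ q, χ (-1 : ZMod q)⁻¹ * χ (n : ZMod q)) / 2 := by
    unfold odd
    rw [sum_filter, ← sum_sub_distrib, sum_div]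
    apply sum_congr rfl
    intro χ _
    have i1 : (1 : ZMod q)⁻¹ = 1 := ZMod.inv_one q
    have i2 : (-1 : ZMod q)⁻¹ = -1 := by
      have := ZMod.inv_mul_eq_one_of_isUnit (n := q) (a := (-1 : ZMod q)) isUnit_one.neg (-1)
      have h5 := ZMod.coe_mul_inv_eq_one (n := q) 1 (by simp)
      have h6 : (-1 : ZMod q)⁻¹ * (-1) = 1 := this.2 rfl
      calc (-1 : ZMod q)⁻¹ = -((-1 : ZMod q)⁻¹ * (-1)) := by ring
        _ = -1 := by rw [h6]
    rw [i1, i2, map_one, one_mul]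
    rcases χ.even_or_odd with h | h
    · have h' : χ (-1) = 1 := h
      rw [h', if_neg (by norm_num)]
      ring
    · have h' : χ (-1) = -1 := h
      rw [h', if_pos rfl]
      ring
  rw [e1, h1, h2, Nat.totient_prime hq]
  have hq1 : ((q - 1 : ℕ) : ℂ) = (q : ℂ) - 1 := by
    rw [Nat.cast_sub (by omega)]
    simp
  rw [hq1]
  unfold sg
  by_cases c1 : n % q = 1
  · have c2 : (1 : ZMod q) = (n : ZMod q) := ((one_iff h3 n).2 c1).symm
    have c3 : ¬ (-1 : ZMod q) = (n : ZMod q) := by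
      intro h
      have := (neg_one_iff n).1 h.symm
      rw [Nat.add_mod, c1, Nat.mod_eq_of_lt (by omega : 1 < q)] at this
      rw [Nat.mod_eq_of_lt (by omega)] at this
      omega
    rw [if_pos c2, if_neg c3, if_pos c1]
    push_cast
    ring
  · have c2 : ¬ (1 : ZMod q) = (n : ZMod q) := fun h => c1 ((one_iff h3 n).1 h.symm)
    rw [if_neg c2, if_neg c1]
    by_cases c4 : (n + 1) % q = 0
    · have c5 : (-1 : ZMod q) = (n : ZMod q) := ((neg_one_iff n).2 c4).symm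
      rw [if_pos c5, if_pos c4]
      push_cast
      ring
    · have c5 : ¬ (-1 : ZMod q) = (n : ZMod q) := fun h => c4 ((neg_one_iff n).1 h.symm)
      rw [if_neg c5, if_neg c4]
      push_cast
      ring

/-- the truncated logarithm -/
theorem tend {q : ℕ} [NeZero q] (y : ℕ) (χ : DirichletCharacter ℂ q) :
    Tendsto (fun M : ℕ => ∑ p ∈ (Icc 1 y).filter Nat.Prime, ∑ m ∈ range M,
      ((χ p / (p : ℂ)) ^ m / (m : ℂ)).re) atTop (nhds (-Real.log ‖PY y χ‖)) := by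
  have h0 : ∀ p ∈ (Icc 1 y).filter Nat.Prime, ‖χ p / (p : ℂ)‖ ≤ 1 / 2 := by
    intro p hp
    have hp2 : 2 ≤ p := (mem_filter.1 hp).2.two_le
    rw [norm_div, Complex.norm_natCast]
    have : (2 : ℝ) ≤ p := by exact_mod_cast hp2
    rw [div_le_div_iff₀ (by linarith) (by norm_num)]
    have := DirichletCharacter.norm_le_one χ (p : ZMod q)
    linarith
  have h1 : Real.log ‖PY y χ‖ = ∑ p ∈ (Icc 1 y).filter Nat.Prime,
      Real.log ‖1 - χ p / (p : ℂ)‖ := by
    unfold PY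
    rw [norm_prod, Real.log_prod]
    intro p hp h
    rw [norm_eq_zero, sub_eq_zero] at h
    have := h0 p hp
    rw [← h] at this
    norm_num at this
  rw [h1, ← sum_neg_distrib]
  apply tendsto_finsetSum
  intro p hp
  have h2 := Complex.hasSum_taylorSeries_neg_log (z := χ p / (p : ℂ))
    (lt_of_le_of_lt (h0 p hp) (by norm_num))
  have h3 := (Complex.hasSum_re h2).tendsto_sum_nat
  rw [Complex.neg_re, Complex.log_re] at h3
  exact h3

theorem pk_eq_true {q p : ℕ} (h3 : 3 ≤ q) (hp : p.Prime) (h : p % q = 1) :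
    pk true q (p / q) = p ∧ 1 ≤ p / q := by
  have h1 := Nat.div_add_mod p q
  rw [h] at h1
  have h2 : p / q * q + 1 = p := by rw [mul_comm]; exact h1
  refine ⟨by unfold pk; rw [if_pos rfl]; exact h2, ?_⟩
  by_contra hc
  have : p / q = 0 := Nat.lt_one_iff.1 (not_le.1 hc)
  rw [this] at h2
  have := hp.two_le
  omega

theorem pk_eq_false {q p : ℕ} (h3 : 3 ≤ q) (h : (p + 1) % q = 0) :
    pk false q ((p + 1) / q) = p ∧ 1 ≤ (p + 1) / q := by
  have h1 := Nat.div_add_mod (p + 1) q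
  rw [h, add_zero] at h1
  have h2 : (p + 1) / q * q = p + 1 := by rw [mul_comm]; exact h1
  refine ⟨by unfold pk; rw [if_neg (by simp), h2]; omega, ?_⟩
  by_contra hc
  have : (p + 1) / q = 0 := Nat.lt_one_iff.1 (not_le.1 hc)
  rw [this] at h2
  omega

theorem zs_true {q : ℕ} (h3 : 3 ≤ q) (y : ℕ) :
    ∑ p ∈ ((Icc 1 y).filter Nat.Prime).filter (fun p => p % q = 1), ((q : ℝ) - 1) / p ≤
      ZS true q 0 (y / q + 1) := by
  unfold ZS
  refine (sum_le_sum (g := fun p => 1 / (((p / q : ℕ) : ℕ) : ℝ)) ?_).trans ?_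
  · intro p hp
    rw [mem_filter, mem_filter] at hp
    obtain ⟨h1, h2⟩ := pk_eq_true h3 hp.1.2 hp.2
    unfold pk at h1
    rw [if_pos rfl] at h1
    have h4 : (0 : ℝ) < ((p / q : ℕ) : ℝ) := by exact_mod_cast h2
    have h5 : ((p / q : ℕ) : ℝ) * q + 1 = p := by exact_mod_cast h1
    have h6 : (0 : ℝ) < p := by exact_mod_cast hp.1.2.pos
    rw [div_le_div_iff₀ h6 h4]
    nlinarith
  · rw [← sum_image (g := fun p => p / q) (f := fun k : ℕ => 1 / (k : ℝ))]
    · apply sum_le_sum_of_subset_of_nonneg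
      · intro k hk
        rw [mem_image] at hk
        obtain ⟨p, hp, rfl⟩ := hk
        rw [mem_filter, mem_filter, mem_Icc] at hp
        obtain ⟨h1, h2⟩ := pk_eq_true h3 hp.1.2 hp.2
        rw [mem_filter, mem_Ioc, h1]
        refine ⟨⟨h2, ?_⟩, hp.1.2⟩
        have := Nat.div_le_div_right (c := q) hp.1.1.2
        omega
      · intro i _ _
        positivity
    · intro a ha b hb hab
      rw [mem_coe, mem_filter, mem_filter] at ha hb
      have h1 := (pk_eq_true h3 ha.1.2 ha.2).1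
      have h2 := (pk_eq_true h3 hb.1.2 hb.2).1
      simp only at hab
      rw [← h1, ← h2, hab]

theorem zs_false {q : ℕ} (h3 : 3 ≤ q) (y : ℕ) :
    ∑ p ∈ ((Icc 1 y).filter Nat.Prime).filter (fun p => (p + 1) % q = 0), ((q : ℝ) - 1) / p ≤
      ZS false q 0 (y / q + 1) := by
  unfold ZS
  refine (sum_le_sum (g := fun p => 1 / ((((p + 1) / q : ℕ) : ℕ) : ℝ)) ?_).trans ?_
  · intro p hp
    rw [mem_filter, mem_filter] at hp
    obtain ⟨h1, h2⟩ := pk_eq_false h3 hp.2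
    unfold pk at h1
    rw [if_neg (by simp)] at h1
    have hp0 := hp.1.2.pos
    have h1' : (p + 1) / q * q = p + 1 := by omega
    have h4 : (1 : ℝ) ≤ (((p + 1) / q : ℕ) : ℝ) := by exact_mod_cast h2
    have h5 : (((p + 1) / q : ℕ) : ℝ) * q = p + 1 := by exact_mod_cast h1'
    have h6 : (0 : ℝ) < p := by exact_mod_cast hp0
    rw [div_le_div_iff₀ h6 (by linarith)]
    nlinarith
  · rw [← sum_image (g := fun p => (p + 1) / q) (f := fun k : ℕ => 1 / (k : ℝ))]
    · apply sum_le_sum_of_subset_of_nonneg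
      · intro k hk
        rw [mem_image] at hk
        obtain ⟨p, hp, rfl⟩ := hk
        rw [mem_filter, mem_filter, mem_Icc] at hp
        obtain ⟨h1, h2⟩ := pk_eq_false h3 hp.2
        rw [mem_filter, mem_Ioc, h1]
        refine ⟨⟨h2, ?_⟩, hp.1.2⟩
        have h7 : (p + 1) / q ≤ (y + q) / q := Nat.div_le_div_right (by omega)
        rw [Nat.add_div_right y (by omega)] at h7
        omega
      · intro i _ _
        positivity
    · intro a ha b hb hab
      rw [mem_coe, mem_filter, mem_filter] at ha hb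
      have h1 := (pk_eq_false h3 ha.2).1
      have h2 := (pk_eq_false h3 hb.2).1
      simp only at hab
      rw [← h1, ← h2, hab]

/-- `|a - b| ≤ max a b` for the two sums over the primes -/
theorem first_part {q : ℕ} (h3 : 3 ≤ q) (y : ℕ) :
    |∑ p ∈ (Icc 1 y).filter Nat.Prime, ((q : ℝ) - 1) / 2 * sg q p / p| ≤
      1 / 2 * max (ZS true q 0 (y / q + 1)) (ZS false q 0 (y / q + 1)) := by
  have hq1 : (0 : ℝ) ≤ (q : ℝ) - 1 := by
    have : (3 : ℝ) ≤ q := by exact_mod_cast h3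
    linarith
  have e1 : ∑ p ∈ (Icc 1 y).filter Nat.Prime, ((q : ℝ) - 1) / 2 * sg q p / p =
      1 / 2 * (∑ p ∈ ((Icc 1 y).filter Nat.Prime).filter (fun p => p % q = 1),
        ((q : ℝ) - 1) / p -
      ∑ p ∈ ((Icc 1 y).filter Nat.Prime).filter (fun p => (p + 1) % q = 0),
        ((q : ℝ) - 1) / p) := by
    rw [sum_filter (fun p => p % q = 1), sum_filter (fun p => (p + 1) % q = 0),
      ← sum_sub_distrib, mul_sum]
    apply sum_congr rfl
    intro p _
    unfold sg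
    by_cases c1 : p % q = 1
    · have c4 : ¬ (p + 1) % q = 0 := by
        rw [Nat.add_mod, c1, Nat.mod_eq_of_lt (by omega : 1 < q), Nat.mod_eq_of_lt (by omega)]
        omega
      rw [if_pos c1, if_pos c1, if_neg c4]
      ring
    · rw [if_neg c1, if_neg c1]
      by_cases c4 : (p + 1) % q = 0
      · rw [if_pos c4, if_pos c4]
        ring
      · rw [if_neg c4, if_neg c4]
        ring
  have a0 : 0 ≤ ∑ p ∈ ((Icc 1 y).filter Nat.Prime).filter (fun p => p % q = 1),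
      ((q : ℝ) - 1) / p := sum_nonneg (fun p _ => by positivity)
  have b0 : 0 ≤ ∑ p ∈ ((Icc 1 y).filter Nat.Prime).filter (fun p => (p + 1) % q = 0),
      ((q : ℝ) - 1) / p := sum_nonneg (fun p _ => by positivity)
  have a1 := zs_true h3 y
  have b1 := zs_false h3 y
  have m1 := le_max_left (ZS true q 0 (y / q + 1)) (ZS false q 0 (y / q + 1))
  have m2 := le_max_right (ZS true q 0 (y / q + 1)) (ZS false q 0 (y / q + 1))
  rw [e1, abs_mul, abs_of_pos (by norm_num : (0 : ℝ) < 1 / 2)]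
  apply mul_le_mul_of_nonneg_left _ (by norm_num)
  rw [abs_le]
  constructor <;> linarith

theorem sg_abs (q n : ℕ) : |sg q n| ≤ 1 := by
  unfold sg
  split_ifs <;> norm_num

theorem second_part {q : ℕ} (h3 : 3 ≤ q) (y M : ℕ) (C : ℝ)
    (hC : ∑ p ∈ (Icc 1 y).filter Nat.Prime, ∑ m ∈ (Icc 2 M).filter (fun m => sg q (p ^ m) ≠ 0),
      (q : ℝ) / (m * (p : ℝ) ^ m) ≤ C) :
    |∑ p ∈ (Icc 1 y).filter Nat.Prime, ∑ m ∈ Icc 2 M,
      ((q : ℝ) - 1) / 2 * sg q (p ^ m) / (m * (p : ℝ) ^ m)| ≤ C := by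
  refine (abs_sum_le_sum_abs _ _).trans (le_trans (sum_le_sum ?_) hC)
  intro p hp
  have hp0 : (0 : ℝ) < p := by exact_mod_cast (mem_filter.1 hp).2.pos
  refine (abs_sum_le_sum_abs _ _).trans ?_
  rw [sum_filter]
  apply sum_le_sum
  intro m hm
  have hm2 : 2 ≤ m := (mem_Icc.1 hm).1
  have hm0 : (0 : ℝ) < m := by exact_mod_cast (by omega : 0 < m)
  by_cases h : sg q (p ^ m) = 0
  · rw [if_neg (by simpa using h), h]
    simp
  · rw [if_pos h, abs_div, abs_mul, abs_of_nonneg (by positivity : (0 : ℝ) ≤ m * (p : ℝ) ^ m)]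
    have hq : (3 : ℝ) ≤ q := by exact_mod_cast h3
    rw [abs_of_nonneg (by linarith : (0 : ℝ) ≤ ((q : ℝ) - 1) / 2)]
    apply div_le_div_of_nonneg_right _ (by positivity)
    have := sg_abs q (p ^ m)
    nlinarith [abs_nonneg (sg q (p ^ m))]

end LogP1

open LogP1

/-- (LOGP) -/
theorem stLogp_1 (hPp : StPp) : StLogp := by
  obtain ⟨C, hC⟩ := hPp
  refine ⟨C, ?_⟩
  intro q _ y hq h3
  have h1 : Tendsto (fun M : ℕ => ∑ χ ∈ odd q, ∑ p ∈ (Icc 1 y).filter Nat.Prime,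
      ∑ m ∈ range M, ((χ p / (p : ℂ)) ^ m / (m : ℂ)).re) atTop
      (nhds (∑ χ ∈ odd q, -Real.log ‖PY y χ‖)) :=
    tendsto_finsetSum _ (fun χ _ => tend y χ)
  have h2 : ∀ M : ℕ, 2 ≤ M → ∑ χ ∈ odd q, ∑ p ∈ (Icc 1 y).filter Nat.Prime,
      ∑ m ∈ range M, ((χ p / (p : ℂ)) ^ m / (m : ℂ)).re =
      ∑ p ∈ (Icc 1 y).filter Nat.Prime, ((q : ℝ) - 1) / 2 * sg q p / p +
      ∑ p ∈ (Icc 1 y).filter Nat.Prime, ∑ m ∈ Icc 2 (M - 1),
        ((q : ℝ) - 1) / 2 * sg q (p ^ m) / (m * (p : ℝ) ^ m) := by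
    intro M hM
    rw [sum_comm, ← sum_add_distrib]
    apply sum_congr rfl
    intro p _
    rw [sum_comm]
    have e1 : ∀ m : ℕ, ∑ χ ∈ odd q, ((χ p / (p : ℂ)) ^ m / (m : ℂ)).re =
        ((q : ℝ) - 1) / 2 * sg q (p ^ m) / (m * (p : ℝ) ^ m) := by
      intro m
      rw [← Complex.re_sum]
      have e2 : ∑ χ ∈ odd q, (χ p / (p : ℂ)) ^ m / (m : ℂ) =
          (∑ χ ∈ odd q, χ ((p ^ m : ℕ) : ZMod q)) * (1 / ((m : ℂ) * (p : ℂ) ^ m)) := by
        rw [sum_mul]
        apply sum_congr rfl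
        intro χ _
        rw [Nat.cast_pow, map_pow, div_pow, div_div, mul_comm ((p : ℂ) ^ m), mul_one_div]
      rw [e2, odd_sum hq h3]
      have e3 : ((((q : ℝ) - 1) / 2 * sg q (p ^ m) : ℝ) : ℂ) * (1 / ((m : ℂ) * (p : ℂ) ^ m)) =
          ((((q : ℝ) - 1) / 2 * sg q (p ^ m) / (m * (p : ℝ) ^ m) : ℝ) : ℂ) := by
        push_cast
        ring
      rw [e3, Complex.ofReal_re]
    rw [sum_congr rfl (fun m _ => e1 m)]
    have e4 : range M = insert 0 (insert 1 (Icc 2 (M - 1))) := by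
      ext m
      simp only [mem_range, mem_insert, mem_Icc]
      omega
    rw [e4, sum_insert (by simp), sum_insert (by simp)]
    simp
  have h3' : ∀ᶠ M : ℕ in atTop, |∑ χ ∈ odd q, ∑ p ∈ (Icc 1 y).filter Nat.Prime,
      ∑ m ∈ range M, ((χ p / (p : ℂ)) ^ m / (m : ℂ)).re| ≤
      C + 1 / 2 * max (ZS true q 0 (y / q + 1)) (ZS false q 0 (y / q + 1)) := by
    filter_upwards [eventually_ge_atTop 2] with M hM
    rw [h2 M hM]
    have g1 := first_part h3 y
    have g2 := second_part h3 y (M - 1) C (hC q y (M - 1) hq h3)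
    refine (abs_add_le _ _).trans ?_
    linarith
  have h4 := le_of_tendsto (h1.abs) h3'
  rw [sum_neg_distrib, abs_neg] at h4
  exact h4

end Pool.Agent.Lib.MP_0f858a_nt.KR
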