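import Pool.Agent.Lib.MP_0f858a_nt.KR.Stmts84

/-!
LONE: `L(1, χ)` is the sum of the series (helper12).
-/

set_option autoImplicit false

namespace Pool.Agent.Lib.MP_0f858a_nt.KR

open Finset Filter
open scoped Classical

/-- Abel summation -/
lemma abel12 (f : ℕ → ℂ) (B : ℝ) (hB : ∀ n, ‖∑ i ∈ range n, f i‖ ≤ B) (a : ℕ → ℝ)
    (ha : Antitone a) (h0 : ∀ n, 0 ≤ a n) (n : ℕ) :
    ‖∑ i ∈ range n, (a i : ℂ) * f i‖ ≤ B * a 0 := by
  have hB0 : 0 ≤ B := (norm_nonneg _).trans (hB 0)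
  rcases Nat.eq_zero_or_pos n with rfl | hn
  · simpa using mul_nonneg hB0 (h0 0)
  have h1 := Finset.sum_range_by_parts (fun i => (a i : ℂ)) f n
  simp only [smul_eq_mul] at h1
  rw [h1]
  have h2 : ∀ m : ℕ, ‖∑ i ∈ range m, ((a (i + 1) : ℂ) - a i) * ∑ j ∈ range (i + 1), f j‖ ≤
      B * (a 0 - a m) := by
    intro m
    induction m with
    | zero => simp
    | succ m ih =>
      rw [sum_range_succ]
      refine (norm_add_le _ _).trans ?_
      have h3 : ‖((a (m + 1) : ℂ) - a m) * ∑ j ∈ range (m + 1), f j‖ ≤ (a m - a (m + 1)) * B := by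
        rw [norm_mul]
        refine mul_le_mul ?_ (hB _) (norm_nonneg _) (by linarith [ha (Nat.le_succ m)])
        rw [← Complex.ofReal_sub, Complex.norm_real, Real.norm_eq_abs,
          abs_of_nonpos (by linarith [ha (Nat.le_succ m)])]
        linarith
      linarith
  refine (norm_sub_le _ _).trans ?_
  have h3 : ‖(a (n - 1) : ℂ) * ∑ i ∈ range n, f i‖ ≤ a (n - 1) * B := by
    rw [norm_mul, Complex.norm_real, Real.norm_eq_abs, abs_of_nonneg (h0 _)]
    exact mul_le_mul_of_nonneg_left (hB n) (h0 _)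
  have h4 := h2 (n - 1)
  linarith

/-- complete sums -/
lemma complete12 {q : ℕ} [NeZero q] (f : ZMod q → ℂ) (N : ℕ) :
    ∑ i ∈ range q, f ((N + i : ℕ) : ZMod q) = ∑ a : ZMod q, f a := by
  refine Finset.sum_bij (fun i _ => ((N + i : ℕ) : ZMod q)) (fun _ _ => mem_univ _) ?_ ?_
    (fun _ _ => rfl)
  · intro i hi j hj h
    rw [mem_range] at hi hj
    rw [ZMod.natCast_eq_natCast_iff] at h
    have h2 := Nat.ModEq.add_left_cancel' N h
    exact Nat.ModEq.eq_of_lt_of_lt h2 hi hj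
  · intro b _
    refine ⟨(b - (N : ZMod q)).val, mem_range.2 (ZMod.val_lt _), ?_⟩
    push_cast
    rw [ZMod.natCast_zmod_val]
    ring

lemma norm_char12 {q : ℕ} [NeZero q] (χ : DirichletCharacter ℂ q) (hχ : χ ≠ 1) (n : ℕ) :
    ∀ N : ℕ, ‖∑ i ∈ range n, χ ((N + i : ℕ) : ZMod q)‖ ≤ q := by
  induction n using Nat.strong_induction_on with
  | _ n ih =>
    intro N
    by_cases hn : n < q
    · refine (norm_sum_le _ _).trans ?_
      refine (sum_le_card_nsmul _ _ 1 fun i _ => χ.norm_le_one _).trans ?_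
      rw [card_range, nsmul_eq_mul, mul_one]
      exact_mod_cast hn.le
    · push Not at hn
      obtain ⟨m, rfl⟩ := Nat.exists_eq_add_of_le hn
      have hq : 0 < q := Nat.pos_of_ne_zero (NeZero.ne q)
      rw [sum_range_add, complete12 (fun a => χ a) N, MulChar.sum_eq_zero_of_ne_one hχ, zero_add]
      have h1 := ih m (by omega) (N + q)
      simpa only [Nat.add_assoc] using h1

/-- the tail of the series -/
lemma tail12 {q : ℕ} [NeZero q] (χ : DirichletCharacter ℂ q) (hχ : χ ≠ 1) {s : ℝ} (hs : 1 ≤ s)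
    {N M : ℕ} (hN : 1 ≤ N) (hM : N ≤ M) :
    ‖∑ n ∈ Icc 1 M, χ n / ((n : ℂ) ^ (s : ℂ)) - ∑ n ∈ Icc 1 N, χ n / ((n : ℂ) ^ (s : ℂ))‖ ≤
      q / N := by
  obtain ⟨k, rfl⟩ := Nat.exists_eq_add_of_le hM
  have h1 : ∑ n ∈ Icc 1 (N + k), χ n / ((n : ℂ) ^ (s : ℂ)) =
      ∑ n ∈ Icc 1 N, χ n / ((n : ℂ) ^ (s : ℂ)) +
        ∑ i ∈ range k, χ ((N + 1 + i : ℕ) : ZMod q) / (((N + 1 + i : ℕ) : ℂ) ^ (s : ℂ)) := by
    induction k with
    | zero => simp
    | succ k ih =>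
      have h2 : Icc 1 (N + (k + 1)) = insert (N + 1 + k) (Icc 1 (N + k)) := by
        ext x
        simp only [mem_Icc, mem_insert]
        omega
      rw [h2, sum_insert (by simp), ih (by omega), sum_range_succ]
      ring
  rw [h1, add_sub_cancel_left]
  have h3 : ∑ i ∈ range k, χ ((N + 1 + i : ℕ) : ZMod q) / (((N + 1 + i : ℕ) : ℂ) ^ (s : ℂ)) =
      ∑ i ∈ range k, (((1 / ((N + 1 + i : ℕ) : ℝ) ^ s : ℝ)) : ℂ) *
        χ ((N + 1 + i : ℕ) : ZMod q) := by
    refine sum_congr rfl fun i _ => ?_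
    rw [Complex.ofReal_div, Complex.ofReal_cpow (by positivity)]
    push_cast
    ring
  rw [h3]
  refine (abel12 (fun i => χ ((N + 1 + i : ℕ) : ZMod q)) q (fun n => norm_char12 χ hχ n (N + 1))
    (fun i => 1 / ((N + 1 + i : ℕ) : ℝ) ^ s) ?_ (fun n => by positivity) k).trans ?_
  · intro i j hij
    have h5 : (((N + 1 + i : ℕ) : ℝ)) ≤ ((N + 1 + j : ℕ) : ℝ) := by exact_mod_cast (by omega)
    have h6 : (0 : ℝ) < ((N + 1 + i : ℕ) : ℝ) := by positivity
    exact one_div_le_one_div_of_le (Real.rpow_pos_of_pos h6 _)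
      (Real.rpow_le_rpow h6.le h5 (by linarith))
  · rw [mul_one_div]
    have hN' : (0 : ℝ) < N := by exact_mod_cast hN
    refine div_le_div_of_nonneg_left (by positivity) hN' ?_
    have h6 : (1 : ℝ) ≤ ((N + 1 + 0 : ℕ) : ℝ) := by exact_mod_cast (by omega)
    calc (N : ℝ) ≤ ((N + 1 + 0 : ℕ) : ℝ) := by exact_mod_cast (by omega)
      _ = ((N + 1 + 0 : ℕ) : ℝ) ^ (1 : ℝ) := (Real.rpow_one _).symm
      _ ≤ _ := Real.rpow_le_rpow_of_exponent_le h6 hs

/-- for `s > 1` -/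
lemma LFun12 {q : ℕ} [NeZero q] (χ : DirichletCharacter ℂ q) (hχ : χ ≠ 1) {s : ℝ} (hs : 1 < s)
    {N : ℕ} (hN : 1 ≤ N) :
    ‖DirichletCharacter.LFunction χ (s : ℂ) - ∑ n ∈ Icc 1 N, χ n / ((n : ℂ) ^ (s : ℂ))‖ ≤
      q / N := by
  have hs' : 1 < (s : ℂ).re := by simpa using hs
  have h1 : HasSum (LSeries.term (fun n => χ n) (s : ℂ)) (DirichletCharacter.LFunction χ (s : ℂ)) := by
    rw [DirichletCharacter.LFunction_eq_LSeries χ hs']
    exact (DirichletCharacter.LSeriesSummable_of_one_lt_re χ hs').hasSum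
  have h2 : Tendsto (fun M : ℕ => ∑ n ∈ Icc 1 M, χ n / ((n : ℂ) ^ (s : ℂ))) atTop
      (nhds (DirichletCharacter.LFunction χ (s : ℂ))) := by
    have h3 := h1.tendsto_sum_nat.comp (tendsto_add_atTop_nat 1)
    refine h3.congr fun M => ?_
    simp only [Function.comp]
    rw [range_eq_Ico, sum_eq_sum_Ico_succ_bot (by omega)]
    rw [LSeries.term_zero, zero_add]
    have h4 : Ico (0 + 1) (M + 1) = Icc 1 M := by
      ext x
      simp only [mem_Ico, mem_Icc]
      omega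
    rw [h4]
    refine sum_congr rfl fun n hn => ?_
    rw [mem_Icc] at hn
    rw [LSeries.term_of_ne_zero (by omega)]
  have h5 : Tendsto (fun M : ℕ => ‖∑ n ∈ Icc 1 M, χ n / ((n : ℂ) ^ (s : ℂ)) -
      ∑ n ∈ Icc 1 N, χ n / ((n : ℂ) ^ (s : ℂ))‖) atTop
      (nhds ‖DirichletCharacter.LFunction χ (s : ℂ) -
        ∑ n ∈ Icc 1 N, χ n / ((n : ℂ) ^ (s : ℂ))‖) := (h2.sub_const _).norm
  refine le_of_tendsto h5 ?_
  filter_upwards [eventually_ge_atTop N] with M hM
  exact tail12 χ hχ hs.le hN hM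

/-- at `s = 1` -/
lemma LOne12 {q : ℕ} [NeZero q] (χ : DirichletCharacter ℂ q) (hχ : χ ≠ 1) {N : ℕ} (hN : 1 ≤ N) :
    ‖DirichletCharacter.LFunction χ 1 - ∑ n ∈ Icc 1 N, χ n / (n : ℂ)‖ ≤ q / N := by
  have hc : Continuous (DirichletCharacter.LFunction χ) :=
    (DirichletCharacter.differentiable_LFunction hχ).continuous
  have h1 : Tendsto (fun s : ℝ => ‖DirichletCharacter.LFunction χ (s : ℂ) -
      ∑ n ∈ Icc 1 N, χ n / ((n : ℂ) ^ (s : ℂ))‖) (nhdsWithin 1 (Set.Ioi 1))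
      (nhds ‖DirichletCharacter.LFunction χ ((1 : ℝ) : ℂ) -
      ∑ n ∈ Icc 1 N, χ n / ((n : ℂ) ^ (((1 : ℝ)) : ℂ))‖) := by
    refine Tendsto.mono_left (Continuous.tendsto ?_ 1) nhdsWithin_le_nhds
    refine (Continuous.sub (hc.comp Complex.continuous_ofReal) ?_).norm
    refine continuous_finsetSum _ fun n hn => ?_
    rw [mem_Icc] at hn
    have hn0 : (n : ℂ) ≠ 0 := by
      have : n ≠ 0 := by omega
      exact_mod_cast this
    refine continuous_const.div (Complex.continuous_ofReal.const_cpow (Or.inl hn0)) ?_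
    intro s
    rw [Complex.cpow_ne_zero_iff]
    exact Or.inl hn0
  have h2 : ‖DirichletCharacter.LFunction χ ((1 : ℝ) : ℂ) -
      ∑ n ∈ Icc 1 N, χ n / ((n : ℂ) ^ (((1 : ℝ)) : ℂ))‖ ≤ q / N := by
    refine le_of_tendsto h1 ?_
    filter_upwards [self_mem_nhdsWithin] with s hs
    exact LFun12 χ hχ hs hN
  simpa using h2

/-- module LONE -/
theorem stLone_12 : StLone := by
  intro q _ χ hχ
  rw [tendsto_iff_norm_sub_tendsto_zero]
  have h1 : Tendsto (fun N : ℕ => (q : ℝ) / N) atTop (nhds 0) :=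
    tendsto_const_div_atTop_nhds_zero_nat _
  refine squeeze_zero' (Eventually.of_forall fun N => norm_nonneg _) ?_ h1
  filter_upwards [eventually_ge_atTop 1] with N hN
  rw [norm_sub_rev]
  exact LOne12 χ hχ hN

end Pool.Agent.Lib.MP_0f858a_nt.KR
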