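import Pool.Agent.Lib.MP_0f858a_nt.KR.Mom84
import Pool.Agent.Lib.MP_973905_nt.PrimeSum

/-!
MP_0f858a_nt, MID: large deviations for the `k` of middle size.
-/

set_option autoImplicit false

namespace Pool.Agent.Lib.MP_0f858a_nt.KR

open Finset Filter
open scoped Classical
open Pool.Agent.Lib.MP_973905_nt (PS)

theorem exp_two_le : Real.exp 2 ≤ 7.4 := by
  have h1 : Real.exp 1 < 2.7182818286 := Real.exp_one_lt_d9
  have h2 : Real.exp 2 = Real.exp 1 * Real.exp 1 := by
    rw [← Real.exp_add]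
    norm_num
  have h3 := Real.exp_pos 1
  rw [h2]
  nlinarith

theorem mid_fin (C G : ℝ) (hC : 1 ≤ C) (hG : 1 ≤ G) (x L lz lK lX X M φ E K₀ : ℝ) (s : ℕ)
    (hs : 1 ≤ s) (hx : 0 ≤ x) (hL : 0 < L) (hlz : 0 < lz) (hlK : 1 ≤ lK) (hlX : L / 2 ≤ lX)
    (hM : 0 < M) (hX0 : 0 ≤ X) (hX : X ≤ 2 * x / M) (hφ0 : 0 ≤ φ) (hφ : φ / M ≤ G / lz)
    (hK₀ : 0 < K₀) (hE0 : 0 ≤ E) (hE : E * M ≤ K₀) (hcond : 576 * C * G * s * lK ≤ L) :
    2 * φ * (X * (C * (s + 1 : ℕ) * lz / lX) ^ (s + 1)) *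
      (φ * (1 / K₀ * E + (1 + lK) / M * Real.exp 2)) ^ s ≤
      576 * C * G * (x / L) * Real.exp (-s) := by
  have he := exp_two_le
  have he0 := Real.exp_pos 2
  have hs' : (1 : ℝ) ≤ s := by exact_mod_cast hs
  set w : ℝ := ((s + 1 : ℕ) : ℝ) with hw
  have hw2 : w ≤ 2 * s := by
    rw [hw]
    push_cast
    linarith
  have hw0 : 0 < w := by rw [hw]; positivity
  set θ := φ / M with hθ
  have hθ0 : 0 ≤ θ := by positivity
  have hφθ : φ = θ * M := by rw [hθ]; field_simp
  have hC0 : 0 < C := by linarith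
  have hG0 : 0 < G := by linarith
  have hlX0 : 0 < lX := by linarith
  -- the factors
  have h1 : φ * (1 / K₀ * E + (1 + lK) / M * Real.exp 2) ≤ 18 * θ * lK := by
    have a1 : 1 / K₀ * E ≤ 1 / M := by
      rw [one_div, inv_mul_le_iff₀ hK₀, ← mul_div_assoc, mul_one, le_div_iff₀ hM]
      exact hE
    calc φ * (1 / K₀ * E + (1 + lK) / M * Real.exp 2)
        ≤ φ * (1 / M + (1 + lK) / M * Real.exp 2) := by gcongr
      _ = θ * (1 + (1 + lK) * Real.exp 2) := by rw [hφθ]; field_simp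
      _ ≤ θ * (18 * lK) := by
          refine mul_le_mul_of_nonneg_left ?_ hθ0
          nlinarith
      _ = _ := by ring
  have h1' : 0 ≤ φ * (1 / K₀ * E + (1 + lK) / M * Real.exp 2) := by positivity
  have h2 : C * w * lz / lX ≤ 2 * C * w * lz / L := by
    rw [div_le_div_iff₀ hlX0 hL]
    have : 0 < C * w * lz := by positivity
    nlinarith
  have h2' : 0 ≤ C * w * lz / lX := by positivity
  have h3 : 2 * φ * (X * (C * w * lz / lX) ^ (s + 1)) ≤
      4 * x * θ * (2 * C * w * lz / L) ^ (s + 1) := by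
    calc 2 * φ * (X * (C * w * lz / lX) ^ (s + 1))
        ≤ 2 * φ * (2 * x / M * (2 * C * w * lz / L) ^ (s + 1)) := by gcongr
      _ = _ := by rw [hφθ]; field_simp; ring
  have h4 : (36 * C * w * lz * θ * lK / L) ≤ Real.exp (-2) := by
    have a1 : lz * θ ≤ G := by
      have := (le_div_iff₀ hlz).mp hφ
      linarith
    have a2 : Real.exp (-2) = 1 / Real.exp 2 := by rw [Real.exp_neg]; ring
    rw [a2, div_le_div_iff₀ hL he0]
    calc 36 * C * w * lz * θ * lK * Real.exp 2 = 36 * C * w * (lz * θ) * lK * Real.exp 2 := by ring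
      _ ≤ 36 * C * (2 * s) * G * lK * 8 := by
          gcongr
          linarith
      _ = 576 * C * G * s * lK := by ring
      _ ≤ 1 * L := by linarith
  have h4' : 0 ≤ (36 * C * w * lz * θ * lK / L) := by positivity
  calc 2 * φ * (X * (C * w * lz / lX) ^ (s + 1)) *
        (φ * (1 / K₀ * E + (1 + lK) / M * Real.exp 2)) ^ s
      ≤ (4 * x * θ * (2 * C * w * lz / L) ^ (s + 1)) * (18 * θ * lK) ^ s :=
        mul_le_mul h3 (pow_le_pow_left₀ h1' h1 s) (by positivity) (by positivity)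
    _ = 4 * x * θ * (2 * C * w * lz / L) * (36 * C * w * lz * θ * lK / L) ^ s := by
        rw [show 36 * C * w * lz * θ * lK / L = (2 * C * w * lz / L) * (18 * θ * lK) by
          field_simp; ring, mul_pow (2 * C * w * lz / L) (18 * θ * lK)]
        ring
    _ ≤ 4 * x * (G / lz) * (2 * C * (2 * s) * lz / L) * (Real.exp (-2)) ^ s := by
        gcongr
    _ = 16 * C * G * (x / L) * (s * Real.exp (-2) ^ s) := by
        field_simp
        ring
    _ ≤ 16 * C * G * (x / L) * Real.exp (-s) := by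
        refine mul_le_mul_of_nonneg_left ?_ (by positivity)
        have b1 : Real.exp (-2) ^ s = Real.exp (-s) * Real.exp (-s) := by
          rw [← Real.exp_add, ← Real.exp_nat_mul]
          congr 1
          ring
        have b2 : (s : ℝ) * Real.exp (-s) ≤ 1 := by
          have := Real.add_one_le_exp (s : ℝ)
          rw [Real.exp_neg, ← div_eq_mul_inv, div_le_one (Real.exp_pos _)]
          linarith
        rw [b1]
        calc (s : ℝ) * (Real.exp (-s) * Real.exp (-s)) = (s * Real.exp (-s)) * Real.exp (-s) := by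
              ring
          _ ≤ 1 * Real.exp (-s) := mul_le_mul_of_nonneg_right b2 (Real.exp_pos _).le
          _ = _ := one_mul _
    _ ≤ 576 * C * G * (x / L) * Real.exp (-s) := by
        gcongr
        norm_num

theorem tot_le (Cm : ℝ) (hCm : ∀ x : ℝ, 2 ≤ x →
      |∑ p ∈ PS 0 x, (1 : ℝ) / p - Real.log (Real.log x)| ≤ Cm) (z : ℕ) (hz : 2 ≤ z) :
    ((primorial z).totient : ℝ) / primorial z ≤ Real.exp Cm / Real.log z := by
  have hM : 0 < primorial z := primorial_pos z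
  have hM' : (0 : ℝ) < primorial z := by exact_mod_cast hM
  have hlz : 0 < Real.log z := Real.log_pos (by exact_mod_cast (by omega : 1 < z))
  have hpf : (primorial z).primeFactors = PS 0 z := by
    unfold primorial PS
    rw [Nat.primeFactors_prod fun p hp => (mem_filter.mp hp).2, Nat.floor_zero, Nat.floor_natCast]
    ext p
    simp only [mem_filter, mem_range, mem_Ioc]
    constructor
    · rintro ⟨h1, h2⟩
      exact ⟨⟨h2.pos, by omega⟩, h2⟩
    · rintro ⟨⟨h1, h2⟩, h3⟩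
      exact ⟨by omega, h3⟩
  have h1 : ((primorial z).totient : ℝ) = primorial z *
      ∏ p ∈ (primorial z).primeFactors, (1 - (p : ℝ)⁻¹) := by
    have := Nat.totient_eq_mul_prod_factors (primorial z)
    have h2 : (((primorial z).totient : ℚ) : ℝ) = ((primorial z *
      ∏ p ∈ (primorial z).primeFactors, (1 - (p : ℚ)⁻¹) : ℚ) : ℝ) := by rw [this]
    push_cast at h2
    exact h2
  rw [h1, mul_div_cancel_left₀ _ hM'.ne', hpf]
  calc ∏ p ∈ PS 0 z, (1 - (p : ℝ)⁻¹) ≤ ∏ p ∈ PS 0 z, Real.exp (-(1 / (p : ℝ))) := by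
        refine prod_le_prod (fun p hp => ?_) fun p hp => ?_
        · have h2 : p.Prime := (mem_filter.mp hp).2
          have h3 : (1 : ℝ) ≤ p := by exact_mod_cast h2.one_le
          have := inv_le_one_of_one_le₀ h3
          linarith
        · have := Real.add_one_le_exp (-(1 / (p : ℝ)))
          rw [one_div] at this ⊢
          linarith
    _ = Real.exp (-∑ p ∈ PS 0 z, 1 / (p : ℝ)) := by
        rw [← Real.exp_sum, sum_neg_distrib]
    _ ≤ Real.exp (Cm - Real.log (Real.log z)) := by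
        apply Real.exp_le_exp.mpr
        have := (abs_le.mp (hCm z (by exact_mod_cast hz))).1
        linarith
    _ = _ := by rw [Real.exp_sub, Real.exp_log hlz]

/-- the parameters -/
theorem asym (B : ℕ) (Cm : ℝ) (hCm : 0 ≤ Cm) : ∃ x₀ : ℕ, ∀ x : ℕ, x₀ ≤ x →
    1 ≤ Real.log (Real.log x) ∧ 1 ≤ Real.log x ∧ Real.log x ^ (1 / 8 : ℝ) ≤ Real.log x / 2 ∧
    (B * Real.log (Real.log x) + 1) ^ 2 * (Real.log 4 + 2 * (Real.log (Real.log x) + Cm)) ≤
      Real.log x ^ (1 / 8 : ℝ) := by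
  have hK : (0 : ℝ) < 1 / (((B : ℝ) + 1) ^ 2 * (4 + 2 * Cm)) := by positivity
  have h1 := (isLittleO_pow_exp_pos_mul_atTop (k := 3) (b := (1 / 8 : ℝ)) (by norm_num)).bound hK
  have h2 := (isLittleO_pow_exp_pos_mul_atTop (k := 0) (b := (7 / 8 : ℝ)) (by norm_num)).bound
    (by norm_num : (0 : ℝ) < 1 / 2)
  have hT : Tendsto (fun x : ℕ => Real.log (Real.log x)) atTop atTop :=
    Real.tendsto_log_atTop.comp (Real.tendsto_log_atTop.comp tendsto_natCast_atTop_atTop)
  have hT1 : Tendsto (fun x : ℕ => Real.log x) atTop atTop :=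
    Real.tendsto_log_atTop.comp tendsto_natCast_atTop_atTop
  have h3 := hT.eventually (h1.and (h2.and (eventually_ge_atTop 1)))
  obtain ⟨x₀, hx₀⟩ := eventually_atTop.mp (h3.and (hT1.eventually (eventually_ge_atTop 1)))
  refine ⟨x₀, fun x hx => ?_⟩
  obtain ⟨⟨e1, e2, e3⟩, e4⟩ := hx₀ x hx
  set t := Real.log (Real.log x) with ht
  set L := Real.log x with hL
  have hL0 : 0 < L := by linarith
  have hLt : L = Real.exp t := by rw [ht, Real.exp_log hL0]
  have hL8 : L ^ (1 / 8 : ℝ) = Real.exp (1 / 8 * t) := by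
    rw [hLt, ← Real.exp_mul]
    congr 1
    ring
  refine ⟨e3, e4, ?_, ?_⟩
  · rw [hL8]
    rw [pow_zero, norm_one, Real.norm_eq_abs, abs_of_pos (Real.exp_pos _)] at e2
    have h5 : L = Real.exp (1 / 8 * t) * Real.exp (7 / 8 * t) := by
      rw [hLt, ← Real.exp_add]
      congr 1
      ring
    have h6 := Real.exp_pos (1 / 8 * t)
    rw [h5]
    nlinarith
  · rw [hL8]
    rw [Real.norm_eq_abs, Real.norm_eq_abs, abs_of_pos (Real.exp_pos _),
      abs_of_nonneg (by positivity)] at e1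
    have h7 : Real.log 4 ≤ 2 := by
      have : Real.log 4 = 2 * Real.log 2 := by
        rw [show (4 : ℝ) = 2 ^ 2 by norm_num, Real.log_pow]
        norm_num
      have := Real.log_two_lt_d9
      linarith
    have hlog4 : 0 ≤ Real.log 4 := Real.log_nonneg (by norm_num)
    calc (B * t + 1) ^ 2 * (Real.log 4 + 2 * (t + Cm))
        ≤ (((B : ℝ) + 1) * t) ^ 2 * ((4 + 2 * Cm) * t) := by
          have a1 : (B : ℝ) * t + 1 ≤ ((B : ℝ) + 1) * t := by linarith
          have a2 : Real.log 4 + 2 * (t + Cm) ≤ (4 + 2 * Cm) * t := by nlinarith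
          have a3 : 0 ≤ (B : ℝ) * t + 1 := by positivity
          have a4 : 0 ≤ Real.log 4 + 2 * (t + Cm) := by positivity
          exact mul_le_mul (pow_le_pow_left₀ a3 a1 2) a2 a4 (by positivity)
      _ = (((B : ℝ) + 1) ^ 2 * (4 + 2 * Cm)) * t ^ 3 := by ring
      _ ≤ (((B : ℝ) + 1) ^ 2 * (4 + 2 * Cm)) *
          (1 / (((B : ℝ) + 1) ^ 2 * (4 + 2 * Cm)) * Real.exp (1 / 8 * t)) := by gcongr
      _ = _ := by field_simp

theorem stMid_84 (hSv : StSv) : StMid := by
  obtain ⟨C, hC, hSvC⟩ := hSv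
  obtain ⟨Cm, hCm0, hCm⟩ := Pool.Agent.Lib.MP_973905_nt.sum_inv
  set G := Real.exp Cm with hG
  have hG1 : 1 ≤ G := by
    have := Real.add_one_le_exp Cm
    linarith
  have hC0 : 0 < C := by linarith
  have hG0 : 0 < G := by linarith
  intro B
  refine ⟨576 * C * G, by nlinarith, ?_⟩
  obtain ⟨x₀, hx₀⟩ := asym B Cm hCm0.le
  refine ⟨max x₀ 3, fun x hx b s K₁ hs hsB hcond => ?_⟩
  obtain ⟨a1, a2, a3, a4⟩ := hx₀ x ((le_max_left _ _).trans hx)
  have hx3 : 3 ≤ x := (le_max_right _ _).trans hx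
  set L := Real.log x with hL
  set ℓ := Real.log L with hℓ
  have hL0 : 0 < L := by linarith
  have hx0 : (0 : ℝ) < x := by exact_mod_cast (by omega : 0 < x)
  have hxL : (x : ℝ) = Real.exp L := (Real.exp_log hx0).symm
  -- the number w
  set w : ℝ := ((s + 1 : ℕ) : ℝ) with hw
  have hs' : (1 : ℝ) ≤ s := by exact_mod_cast hs
  have hws : w = s + 1 := by rw [hw]; push_cast; ring
  have hwB : w ≤ B * ℓ + 1 := by linarith
  have hw0 : 0 < w := by linarith
  have hlog4 : 0 ≤ Real.log 4 := Real.log_nonneg (by norm_num)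
  have hpar : w ^ 2 * (Real.log 4 + 2 * (ℓ + Cm)) ≤ L ^ (1 / 8 : ℝ) := by
    refine le_trans ?_ a4
    gcongr
  set K₀ := K8 x with hK₀
  have hK₀exp : Real.exp (L ^ (1 / 8 : ℝ)) ≤ K₀ := by
    rw [hK₀]
    unfold K8
    exact Nat.le_ceil _
  have hpar2 : 2 * w ^ 2 ≤ L ^ (1 / 8 : ℝ) := by
    have : w ^ 2 * 2 ≤ w ^ 2 * (Real.log 4 + 2 * (ℓ + Cm)) := by
      refine mul_le_mul_of_nonneg_left ?_ (by positivity)
      linarith
    linarith
  have hK₀w : 2 * w ^ 2 + 1 ≤ (K₀ : ℝ) := by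
    have := Real.add_one_le_exp (L ^ (1 / 8 : ℝ))
    linarith
  by_cases hK : K₁ ≤ K₀
  · have e1 : (Pr x).filter (fun q => 1 < ZS b q K₀ K₁) = ∅ := by
      refine filter_false_of_mem fun q _ => ?_
      unfold ZS
      rw [Ioc_eq_empty_of_le hK, filter_empty, sum_empty]
      norm_num
    rw [e1, card_empty, Nat.cast_zero]
    positivity
  push Not at hK
  have hK₀3 : 3 ≤ K₀ := by
    have : (3 : ℝ) ≤ K₀ := by nlinarith
    exact_mod_cast this
  have hK₁K₀ : (K₀ : ℝ) ≤ K₁ := by exact_mod_cast hK.le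
  have hK₁0 : (0 : ℝ) < K₁ := by linarith [hK₀w, sq_nonneg w]
  -- log K₁
  have hlK1 : 1 ≤ Real.log K₁ := by
    rw [Real.le_log_iff_exp_le hK₁0]
    have h3 : (3 : ℝ) ≤ K₁ := by exact_mod_cast (by omega : 3 ≤ K₁)
    have := Real.exp_one_lt_d9
    linarith
  have hCG : 1 ≤ 576 * C * G * s := by
    have : 1 ≤ C * G := by nlinarith
    nlinarith
  have hlKL : Real.log K₁ ≤ L := by nlinarith
  have hllK : Real.log (Real.log K₁) ≤ ℓ := Real.log_le_log (by linarith) hlKL
  -- the modulus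
  set z₀ := (s + 1) ^ 2 with hz₀
  have hz₀w : (z₀ : ℝ) = w ^ 2 := by rw [hz₀, hw]; push_cast; ring
  have hz₀4 : 4 ≤ z₀ := by rw [hz₀]; nlinarith
  set M := primorial z₀ with hM
  have hMpos : 0 < M := primorial_pos z₀
  have hMpos' : (0 : ℝ) < M := by exact_mod_cast hMpos
  have hM4 : (M : ℝ) ≤ Real.exp (w ^ 2 * Real.log 4) := by
    have h1 : M ≤ 4 ^ z₀ := primorial_le_four_pow z₀
    have h2 : (M : ℝ) ≤ 4 ^ z₀ := by exact_mod_cast h1
    refine h2.trans (le_of_eq ?_)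
    rw [← hz₀w, Real.exp_nat_mul, Real.exp_log (by norm_num)]
  have hMz : ∀ l : ℕ, l.Prime → z₀ < l → ¬ l ∣ M := by
    intro l hl hzl hdvd
    rw [hM] at hdvd
    unfold primorial at hdvd
    obtain ⟨p, hp, hlp⟩ := (hl.prime.dvd_finsetProd_iff _).mp hdvd
    rw [mem_filter, mem_range] at hp
    have := (Nat.prime_dvd_prime_iff_eq hl hp.2).mp hlp
    omega
  have hM2 : 2 ≤ M := by
    apply Nat.le_of_dvd hMpos
    rw [hM]
    unfold primorial
    refine dvd_prod_of_mem (fun p => p) ?_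
    rw [mem_filter, mem_range]
    exact ⟨by omega, Nat.prime_two⟩
  have htot : (M.totient : ℝ) / M ≤ G / Real.log z₀ := tot_le Cm hCm z₀ (by omega)
  clear_value M
  -- conditions
  have hLbig : w ^ 2 * Real.log 4 ≤ L / 2 := by
    have h1 : w ^ 2 * Real.log 4 ≤ w ^ 2 * (Real.log 4 + 2 * (ℓ + Cm)) := by
      refine mul_le_mul_of_nonneg_left ?_ (by positivity)
      linarith
    linarith
  have hlogM : Real.log M ≤ L / 2 := by
    refine le_trans ?_ hLbig
    rw [Real.log_le_iff_le_exp hMpos']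
    exact hM4
  have hXge : (x : ℝ) / M ≤ ((x / M + 1 : ℕ) : ℝ) := by
    have := Nat.lt_floor_add_one ((x : ℝ) / M)
    rw [Nat.floor_div_natCast, Nat.floor_natCast] at this
    push_cast
    exact this.le
  have hXle : ((x / M + 1 : ℕ) : ℝ) ≤ x / M + 1 := by
    push_cast
    have : ((x / M : ℕ) : ℝ) ≤ (x : ℝ) / M := Nat.cast_div_le
    linarith
  have hlX : L / 2 ≤ Real.log ((x / M + 1 : ℕ) : ℝ) := by
    have h1 : Real.log ((x : ℝ) / M) ≤ Real.log ((x / M + 1 : ℕ) : ℝ) :=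
      Real.log_le_log (by positivity) hXge
    rw [Real.log_div hx0.ne' hMpos'.ne'] at h1
    linarith
  have hMx : (M : ℝ) ≤ x := by
    rw [hxL]
    refine hM4.trans (Real.exp_le_exp.mpr ?_)
    linarith
  have hX2 : ((x / M + 1 : ℕ) : ℝ) ≤ 2 * x / M := by
    refine hXle.trans ?_
    have : 1 ≤ (x : ℝ) / M := by rwa [one_le_div hMpos']
    calc (x : ℝ) / M + 1 ≤ x / M + x / M := by linarith
      _ = _ := by ring
  have hzx : z₀ ^ 2 ≤ x := by
    have h1 : ((z₀ ^ 2 : ℕ) : ℝ) ≤ x := by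
      push_cast
      rw [hz₀w, hxL]
      have h2 : 2 * (2 * w ^ 2) ≤ L := by linarith
      have h3 : w ^ 2 ≤ Real.exp (2 * w ^ 2) := by
        have := Real.add_one_le_exp (2 * w ^ 2)
        nlinarith [sq_nonneg w]
      calc (w ^ 2) ^ 2 ≤ (Real.exp (2 * w ^ 2)) ^ 2 := by gcongr
        _ = Real.exp (2 * (2 * w ^ 2)) := by
            rw [← Real.exp_nat_mul]
            norm_num
        _ ≤ Real.exp L := Real.exp_le_exp.mpr h2
    exact_mod_cast h1
  have hsK : 2 * s ^ 2 ≤ K₀ := by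
    have h1 : ((2 * s ^ 2 : ℕ) : ℝ) ≤ K₀ := by
      push_cast
      have : (s : ℝ) ^ 2 ≤ w ^ 2 := by
        rw [hws]
        nlinarith
      linarith
    exact_mod_cast h1
  have hlz0 : 0 < Real.log z₀ := Real.log_pos (by exact_mod_cast (by omega : 1 < z₀))
  have hlzK : Real.log z₀ ≤ Real.log K₁ := by
    refine Real.log_le_log (by exact_mod_cast (by omega : 0 < z₀)) ?_
    rw [hz₀w]
    nlinarith [sq_nonneg w]
  have hX : C * (s + 1 : ℕ) * Real.log z₀ ≤ Real.log ((x / M + 1 : ℕ) : ℝ) := by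
    refine le_trans ?_ hlX
    rw [← hw]
    calc C * w * Real.log z₀ ≤ C * (2 * s) * Real.log K₁ := by
          gcongr
          linarith
      _ = 2 * (C * s * Real.log K₁) := by ring
      _ ≤ 288 * (G * (C * s * Real.log K₁)) := by
          have : 0 ≤ C * s * Real.log K₁ := by positivity
          nlinarith
      _ = (576 * C * G * s * Real.log K₁) / 2 := by ring
      _ ≤ _ := by linarith
  have hXx : x / M + 1 ≤ x := by
    have h1 : x / M ≤ x / 2 := Nat.div_le_div_left hM2 (by norm_num)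
    omega
  have hmom := moment84 C hC hSvC Cm hCm0.le hCm b x M s z₀ K₀ K₁ hMpos hMz hzx hs
    (by rw [hz₀]; nlinarith) le_rfl hX hXx (by omega) (by omega) hsK
  refine hmom.trans ?_
  have hEM : Real.exp (2 * w ^ 2 * (Real.log (Real.log K₁) + Cm)) * M ≤ K₀ := by
    calc Real.exp (2 * w ^ 2 * (Real.log (Real.log K₁) + Cm)) * M
        ≤ Real.exp (2 * w ^ 2 * (ℓ + Cm)) * Real.exp (w ^ 2 * Real.log 4) := by
          gcongr
      _ = Real.exp (w ^ 2 * (Real.log 4 + 2 * (ℓ + Cm))) := by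
          rw [← Real.exp_add]
          congr 1
          ring
      _ ≤ Real.exp (L ^ (1 / 8 : ℝ)) := Real.exp_le_exp.mpr hpar
      _ ≤ K₀ := hK₀exp
  exact mid_fin C G hC hG1 x L (Real.log z₀) (Real.log K₁) (Real.log ((x / M + 1 : ℕ) : ℝ))
    ((x / M + 1 : ℕ) : ℝ) M M.totient
    (Real.exp (2 * w ^ 2 * (Real.log (Real.log K₁) + Cm))) K₀ s hs hx0.le hL0 hlz0 hlK1 hlX hMpos'
    (Nat.cast_nonneg _) hX2 (Nat.cast_nonneg _) htot
    (by exact_mod_cast (by omega : 0 < K₀)) (Real.exp_pos _).le hEM hcond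

end Pool.Agent.Lib.MP_0f858a_nt.KR
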