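import Pool.Agent.Lib.MP_0f858a_nt.KR.Stmts84
import Pool.Agent.Lib.MP_7c08ba_nt.CD.BLsv

set_option autoImplicit false

/-!
# The large sieve for the characters of prime moduli (module MLS of KR)
-/

namespace Pool.Agent.Lib.MP_0f858a_nt.KR

namespace Mls53

open Finset
open scoped ComplexConjugate Classical

/-! ### Duality -/

lemma dual {ι : Type} (S : Finset ι) (z : ι → ℂ) (N : ℕ) (D : ℝ) (hD : 0 ≤ D)
    (h : ∀ b : ι → ℂ, ∑ m ∈ range N, ‖∑ i ∈ S, b i * z i ^ m‖ ^ 2 ≤ D * ∑ i ∈ S, ‖b i‖ ^ 2)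
    (a : ℕ → ℂ) :
    ∑ i ∈ S, ‖∑ m ∈ range N, a m * z i ^ m‖ ^ 2 ≤ D * ∑ m ∈ range N, ‖a m‖ ^ 2 := by
  set T : ι → ℂ := fun i => ∑ m ∈ range N, a m * z i ^ m with hT
  set U : ℝ := ∑ i ∈ S, ‖T i‖ ^ 2 with hU
  set V : ℕ → ℂ := fun m => ∑ i ∈ S, conj (T i) * z i ^ m with hV
  have hU0 : 0 ≤ U := sum_nonneg fun _ _ => sq_nonneg _
  have h1 : ∑ m ∈ range N, ‖V m‖ ^ 2 ≤ D * U := by
    have := h (fun i => conj (T i))
    simpa [hV, hU, Complex.norm_conj] using this
  have h2 : (U : ℂ) = ∑ m ∈ range N, a m * V m := by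
    have e1 : (U : ℂ) = ∑ i ∈ S, conj (T i) * T i := by
      rw [hU]
      push_cast
      refine sum_congr rfl fun i _ => ?_
      rw [Complex.conj_mul']
    rw [e1, hV]
    simp only [hT, mul_sum]
    rw [sum_comm]
    refine sum_congr rfl fun m _ => sum_congr rfl fun i _ => ?_
    ring
  have h3 : U ≤ ∑ m ∈ range N, ‖a m‖ * ‖V m‖ := by
    calc U = ‖(U : ℂ)‖ := by rw [Complex.norm_real, Real.norm_of_nonneg hU0]
      _ = ‖∑ m ∈ range N, a m * V m‖ := by rw [h2]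
      _ ≤ ∑ m ∈ range N, ‖a m * V m‖ := norm_sum_le _ _
      _ = _ := sum_congr rfl fun m _ => norm_mul _ _
  have h4 : U ^ 2 ≤ (∑ m ∈ range N, ‖a m‖ ^ 2) * (D * U) := by
    calc U ^ 2 ≤ (∑ m ∈ range N, ‖a m‖ * ‖V m‖) ^ 2 := pow_le_pow_left₀ hU0 h3 2
      _ ≤ (∑ m ∈ range N, ‖a m‖ ^ 2) * ∑ m ∈ range N, ‖V m‖ ^ 2 :=
          sum_mul_sq_le_sq_mul_sq _ _ _
      _ ≤ _ := mul_le_mul_of_nonneg_left h1 (sum_nonneg fun _ _ => sq_nonneg _)
  rcases hU0.eq_or_lt with h0 | h0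
  · rw [← h0]
    exact mul_nonneg hD (sum_nonneg fun _ _ => sq_nonneg _)
  · have h5 : U * U ≤ (D * ∑ m ∈ range N, ‖a m‖ ^ 2) * U := by nlinarith [h4]
    exact le_of_mul_le_mul_right h5 h0

/-! ### Gauss sums -/

lemma gs {q : ℕ} [Fact q.Prime] (χ : DirichletCharacter ℂ q) (hχ : χ ≠ 1) (a : ZMod q) :
    gaussSum χ (ZMod.stdAddChar.mulShift a) = χ⁻¹ a * gaussSum χ ZMod.stdAddChar := by
  by_cases ha : IsUnit a
  · simpa [ha.unit_spec] using gaussSum_mulShift_eq χ ZMod.stdAddChar ha.unit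
  · have h0 : a = 0 := by
      by_contra h
      exact ha (isUnit_iff_ne_zero.2 h)
    rw [MulChar.map_nonunit _ ha, zero_mul, h0]
    simp [gaussSum, AddChar.mulShift_apply, MulChar.sum_eq_zero_of_ne_one hχ]

lemma gs_norm {q : ℕ} [Fact q.Prime] (χ : DirichletCharacter ℂ q) (hχ : χ ≠ 1) :
    ‖gaussSum χ ZMod.stdAddChar‖ ^ 2 = q := by
  have h := gaussSum_mul_gaussSum_eq_card hχ (ZMod.isPrimitive_stdAddChar q)
  rw [← star_gaussSum_eq, ZMod.card] at h
  have h2 : ((‖gaussSum χ ZMod.stdAddChar‖ ^ 2 : ℝ) : ℂ) = ((q : ℝ) : ℂ) := by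
    push_cast
    rw [← h]
    exact (Complex.mul_conj' _).symm
  exact_mod_cast h2

/-- Parseval for the characters -/
lemma parseval {q : ℕ} [Fact q.Prime] (f : ZMod q → ℂ) :
    ∑ χ : DirichletCharacter ℂ q, ‖∑ b : ZMod q, χ b * f b‖ ^ 2 =
      q.totient * ∑ b ∈ univ.filter (fun b : ZMod q => b ≠ 0), ‖f b‖ ^ 2 := by
  have h : ((∑ χ : DirichletCharacter ℂ q, ‖∑ b : ZMod q, χ b * f b‖ ^ 2 : ℝ) : ℂ) =
      ((q.totient * ∑ b ∈ univ.filter (fun b : ZMod q => b ≠ 0), ‖f b‖ ^ 2 : ℝ) : ℂ) := by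
    push_cast
    have e1 : ∀ χ : DirichletCharacter ℂ q, ((‖∑ b : ZMod q, χ b * f b‖ : ℝ) : ℂ) ^ 2 =
        ∑ b : ZMod q, ∑ c : ZMod q, (conj (f b) * f c) * (χ⁻¹ b * χ c) := by
      intro χ
      rw [← Complex.conj_mul', map_sum, sum_mul_sum]
      refine sum_congr rfl fun b _ => sum_congr rfl fun c _ => ?_
      rw [map_mul]
      have : conj (χ b) = χ⁻¹ b := MulChar.star_apply' χ b
      rw [this]
      ring
    rw [sum_congr rfl fun χ _ => e1 χ, sum_comm]
    rw [mul_sum, sum_filter]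
    refine sum_congr rfl fun b _ => ?_
    rw [sum_comm]
    split_ifs with hb
    · have hu : IsUnit b := isUnit_iff_ne_zero.2 hb
      have e2 : ∀ c : ZMod q, ∑ χ : DirichletCharacter ℂ q, (conj (f b) * f c) * (χ⁻¹ b * χ c) =
          if b = c then (conj (f b) * f c) * (q.totient : ℂ) else 0 := by
        intro c
        rw [← mul_sum]
        have := DirichletCharacter.sum_char_inv_mul_char_eq ℂ hu c
        have e3 : ∑ χ : DirichletCharacter ℂ q, χ⁻¹ b * χ c =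
            ∑ χ : DirichletCharacter ℂ q, χ b⁻¹ * χ c := by
          refine sum_congr rfl fun χ _ => ?_
          rw [MulChar.inv_apply']
        rw [e3, this]
        split_ifs <;> simp
      rw [sum_congr rfl fun c _ => e2 c, sum_ite_eq univ b]
      simp only [mem_univ, if_true]
      rw [Complex.conj_mul']
      ring
    · have hu : ¬ IsUnit b := fun h => hb h.ne_zero
      refine sum_eq_zero fun c _ => sum_eq_zero fun χ _ => ?_
      rw [MulChar.map_nonunit _ hu]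
      ring
  exact_mod_cast h

/-- the additive sum -/
noncomputable def SS (S : Finset ℕ) (a : ℕ → ℂ) (z : ℂ) : ℂ := ∑ n ∈ S, a n * z ^ n

/-- the character sums by additive sums -/
lemma char_le {q : ℕ} [hq : Fact q.Prime] (S : Finset ℕ) (a : ℕ → ℂ) :
    VS q S a ≤ ∑ b ∈ univ.filter (fun b : ZMod q => b ≠ 0),
      ‖SS S a (ZMod.stdAddChar b)‖ ^ 2 := by
  have hq0 : (0 : ℝ) < q := by exact_mod_cast hq.out.pos
  set f : ZMod q → ℂ := fun b => SS S a (ZMod.stdAddChar b) with hf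
  have h1 : ∀ χ : DirichletCharacter ℂ q, χ ≠ 1 →
      q * ‖∑ n ∈ S, a n * χ n‖ ^ 2 = ‖∑ b : ZMod q, χ⁻¹ b * f b‖ ^ 2 := by
    intro χ hχ
    have hχ' : χ⁻¹ ≠ 1 := inv_ne_one.2 hχ
    have e : ∑ b : ZMod q, χ⁻¹ b * f b =
        gaussSum χ⁻¹ ZMod.stdAddChar * ∑ n ∈ S, a n * χ n := by
      simp only [hf, SS, mul_sum]
      rw [sum_comm]
      refine sum_congr rfl fun n _ => ?_
      have e1 := gs χ⁻¹ hχ' (n : ZMod q)
      rw [inv_inv] at e1
      have e2 : ∑ b : ZMod q, χ⁻¹ b * (a n * ZMod.stdAddChar b ^ n) =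
          a n * gaussSum χ⁻¹ (ZMod.stdAddChar.mulShift (n : ZMod q)) := by
        rw [gaussSum, mul_sum]
        refine sum_congr rfl fun b _ => ?_
        rw [AddChar.mulShift_apply, ← AddChar.map_nsmul_eq_pow, nsmul_eq_mul]
        ring
      rw [e2, e1]
      ring
    rw [e, norm_mul, mul_pow, gs_norm _ hχ']
  have h2 : VS q S a = ∑ χ : DirichletCharacter ℂ q,
      if χ ≠ 1 then ‖∑ n ∈ S, a n * χ n‖ ^ 2 else 0 := by
    unfold VS
    rw [finsum_eq_sum_of_fintype]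
    refine sum_congr rfl fun χ _ => ?_
    rw [finsum_eq_if]
  have h3 : q * VS q S a ≤ q * ∑ b ∈ univ.filter (fun b : ZMod q => b ≠ 0), ‖f b‖ ^ 2 := by
    rw [h2, mul_sum]
    calc ∑ χ : DirichletCharacter ℂ q,
          (q : ℝ) * (if χ ≠ 1 then ‖∑ n ∈ S, a n * χ n‖ ^ 2 else 0)
        ≤ ∑ χ : DirichletCharacter ℂ q, ‖∑ b : ZMod q, χ⁻¹ b * f b‖ ^ 2 := by
          refine sum_le_sum fun χ _ => ?_
          split_ifs with h
          · exact (h1 χ h).le
          · rw [mul_zero]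
            positivity
      _ = ∑ χ : DirichletCharacter ℂ q, ‖∑ b : ZMod q, χ b * f b‖ ^ 2 :=
          Equiv.sum_comp (Equiv.inv (DirichletCharacter ℂ q))
            (fun χ => ‖∑ b : ZMod q, χ b * f b‖ ^ 2)
      _ = q.totient * ∑ b ∈ univ.filter (fun b : ZMod q => b ≠ 0), ‖f b‖ ^ 2 := parseval f
      _ ≤ _ := by
          refine mul_le_mul_of_nonneg_right ?_ (sum_nonneg fun _ _ => sq_nonneg _)
          exact_mod_cast Nat.totient_le q
  exact le_of_mul_le_mul_left h3 hq0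

/-! ### Separation -/

/-- the points -/
noncomputable def pt (i : Σ _ : ℕ, ℕ) : ℂ := Complex.exp (2 * Real.pi * Complex.I * i.2 / i.1)

lemma pt_norm (i : Σ _ : ℕ, ℕ) : ‖pt i‖ = 1 := by
  unfold pt
  have : (2 * Real.pi * Complex.I * i.2 / i.1 : ℂ) =
      ((2 * Real.pi * i.2 / i.1 : ℝ) : ℂ) * Complex.I := by
    push_cast
    ring
  rw [this, Complex.norm_exp_ofReal_mul_I]

lemma sin_lb {t d : ℝ} (hd : 0 < d) (h1 : d ≤ t) (h2 : t ≤ 1 - d) :
    2 * d ≤ Real.sin (Real.pi * t) := by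
  have hpi := Real.pi_pos
  rcases le_total t (1 / 2) with h | h
  · have := Real.mul_le_sin (x := Real.pi * t) (by nlinarith) (by nlinarith)
    refine le_trans ?_ this
    rw [div_mul_eq_mul_div, le_div_iff₀ hpi]
    nlinarith
  · have := Real.mul_le_sin (x := Real.pi * (1 - t)) (by nlinarith) (by nlinarith)
    have h3 : Real.sin (Real.pi * (1 - t)) = Real.sin (Real.pi * t) := by
      rw [mul_sub, mul_one, Real.sin_pi_sub]
    rw [h3] at this
    refine le_trans ?_ this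
    rw [div_mul_eq_mul_div, le_div_iff₀ hpi]
    nlinarith

lemma dist_exp (α β : ℝ) :
    ‖Complex.exp (2 * Real.pi * Complex.I * α) - Complex.exp (2 * Real.pi * Complex.I * β)‖ =
      2 * |Real.sin (Real.pi * (α - β))| := by
  have h1 : Complex.exp (2 * Real.pi * Complex.I * α) -
      Complex.exp (2 * Real.pi * Complex.I * β) =
      Complex.exp (((2 * Real.pi * β : ℝ) : ℂ) * Complex.I) *
        (Complex.exp (Complex.I * ((2 * Real.pi * (α - β) : ℝ) : ℂ)) - 1) := by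
    rw [mul_sub, ← Complex.exp_add, mul_one]
    congr 1
    · congr 1
      push_cast
      ring
    · congr 1
      push_cast
      ring
  rw [h1, norm_mul, Complex.norm_exp_ofReal_mul_I, one_mul,
    Complex.norm_exp_I_mul_ofReal_sub_one, norm_mul, Real.norm_eq_abs, Real.norm_eq_abs,
    abs_of_pos (by norm_num : (0 : ℝ) < 2)]
  congr 3
  ring

lemma sep {x q r b c : ℕ} (hq : q.Prime) (hr : r.Prime) (hqx : q ≤ x) (hrx : r ≤ x)
    (hb : 1 ≤ b) (hbq : b < q) (hc : 1 ≤ c) (hcr : c < r) (hne : (⟨q, b⟩ : Σ _ : ℕ, ℕ) ≠ ⟨r, c⟩) :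
    1 / (x : ℝ) ^ 2 ≤ ‖pt ⟨q, b⟩ - pt ⟨r, c⟩‖ := by
  have hq0 : (0 : ℝ) < q := by exact_mod_cast hq.pos
  have hr0 : (0 : ℝ) < r := by exact_mod_cast hr.pos
  have hx0 : (0 : ℝ) < x := by exact_mod_cast hq.pos.trans_le hqx
  have hp : ∀ i : Σ _ : ℕ, ℕ, pt i = Complex.exp (2 * Real.pi * Complex.I * ((i.2 / i.1 : ℝ) : ℂ)) := by
    intro i
    unfold pt
    congr 1
    push_cast
    ring
  rw [hp, hp, dist_exp]
  simp only
  -- the integer `k`
  set k : ℤ := (b : ℤ) * r - c * q with hk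
  have hk0 : k ≠ 0 := by
    intro h0
    have h1 : b * r = c * q := by
      have : (b : ℤ) * r = c * q := by linarith
      exact_mod_cast this
    have h2 : q ∣ b * r := ⟨c, by rw [h1]; ring⟩
    rcases hq.dvd_mul.1 h2 with h3 | h3
    · exact absurd (Nat.le_of_dvd hb h3) (by omega)
    · have h4 : q = r := (Nat.prime_dvd_prime_iff_eq hq hr).1 h3
      subst h4
      have h5 : b = c := Nat.eq_of_mul_eq_mul_right hq.pos h1
      exact hne (by rw [h5])
  have hdiff : (b / q : ℝ) - c / r = k / (q * r) := by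
    rw [hk]
    push_cast
    field_simp
  rw [hdiff]
  have hb' : ((b : ℕ) : ℤ) < q := by exact_mod_cast hbq
  have hc' : ((c : ℕ) : ℤ) < r := by exact_mod_cast hcr
  have hb1 : (1 : ℤ) ≤ b := by exact_mod_cast hb
  have hc1 : (1 : ℤ) ≤ c := by exact_mod_cast hc
  have hk1 : |k| ≤ q * r - 1 := by
    rw [abs_le]
    constructor
    · rw [hk]
      nlinarith
    · rw [hk]
      nlinarith
  have hk2 : 1 ≤ |k| := Int.one_le_abs hk0
  have hk1' : |(k : ℝ)| ≤ q * r - 1 := by exact_mod_cast hk1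
  have hk2' : 1 ≤ |(k : ℝ)| := by exact_mod_cast hk2
  have hqr : (0 : ℝ) < q * r := mul_pos hq0 hr0
  have h5 : |Real.sin (Real.pi * (k / (q * r)))| = |Real.sin (Real.pi * (|(k : ℝ)| / (q * r)))| := by
    rcases abs_choice (k : ℝ) with h | h
    · rw [h]
    · rw [h, neg_div, mul_neg, Real.sin_neg, abs_neg]
  rw [h5]
  have h6 := sin_lb (t := |(k : ℝ)| / (q * r)) (d := 1 / (q * r)) (by positivity)
    (by gcongr) (by
      rw [div_le_iff₀ hqr, sub_mul, one_mul, one_div, inv_mul_cancel₀ hqr.ne']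
      exact hk1')
  have h7 : 1 / (x : ℝ) ^ 2 ≤ 1 / (q * r) := by
    apply one_div_le_one_div_of_le hqr
    rw [sq]
    have h8 : (q : ℝ) ≤ x := by exact_mod_cast hqx
    have h9 : (r : ℝ) ≤ x := by exact_mod_cast hrx
    gcongr
  have h8 := le_abs_self (Real.sin (Real.pi * (|(k : ℝ)| / (q * r))))
  have h9 : 0 < 1 / (q * r : ℝ) := by positivity
  linarith

end Mls53

open Finset Mls53
open scoped ComplexConjugate Classical

/-- Module MLS. -/
theorem stMls_53 : StMls := by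
  obtain ⟨C, hC, hL⟩ := Pool.Agent.Lib.MP_7c08ba_nt.CD.stLsv
  refine ⟨C, hC, ?_⟩
  intro x M S a hx hM hS
  have hx0 : (0 : ℝ) < x := by exact_mod_cast hx
  set P := (Icc 1 x).filter Nat.Prime with hP
  set I : Finset (Σ _ : ℕ, ℕ) := P.sigma fun q => Ico 1 q with hI
  set D : ℝ := C * (M + (x : ℝ) ^ 2) with hD
  have hD0 : 0 ≤ D := by positivity
  have hmem : ∀ i ∈ I, i.1.Prime ∧ i.1 ≤ x ∧ 1 ≤ i.2 ∧ i.2 < i.1 := by
    intro i hi
    rw [hI, mem_sigma, hP, mem_filter, mem_Icc, mem_Ico] at hi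
    exact ⟨hi.1.2, hi.1.1.2, hi.2.1, hi.2.2⟩
  have h1 := dual I pt M D hD0 (by
    intro b
    have := hL (Σ _ : ℕ, ℕ) I pt b (1 / (x : ℝ) ^ 2) M (by positivity) hM
      (fun i _ => pt_norm i) (by
        intro i hi j hj hij
        obtain ⟨a1, a2, a3, a4⟩ := hmem i hi
        obtain ⟨b1, b2, b3, b4⟩ := hmem j hj
        exact sep a1 b1 a2 b2 a3 a4 b3 b4 hij)
    rw [one_div_one_div] at this
    exact this)
    (fun m => if M + 1 + m ∈ S then a (M + 1 + m) else 0)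
  -- the right side
  have h2 : ∑ m ∈ range M, ‖(if M + 1 + m ∈ S then a (M + 1 + m) else 0)‖ ^ 2 =
      ∑ n ∈ S, ‖a n‖ ^ 2 := by
    have e1 : ∀ m ∈ range M, ‖(if M + 1 + m ∈ S then a (M + 1 + m) else 0)‖ ^ 2 =
        if M + 1 + m ∈ S then ‖a (M + 1 + m)‖ ^ 2 else 0 := by
      intro m _
      split_ifs <;> simp
    rw [sum_congr rfl e1, ← sum_filter]
    refine sum_nbij' (fun m => M + 1 + m) (fun n => n - (M + 1)) ?_ ?_ ?_ ?_ ?_
    · intro m hm
      exact (mem_filter.1 hm).2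
    · intro n hn
      have := mem_Ioc.1 (hS hn)
      rw [mem_filter, mem_range]
      have e : M + 1 + (n - (M + 1)) = n := by omega
      rw [e]
      exact ⟨by omega, hn⟩
    · intro m _
      omega
    · intro n hn
      have := mem_Ioc.1 (hS hn)
      omega
    · intro m _
      rfl
  have h3 : ∀ z : ℂ, ‖z‖ = 1 →
      ‖∑ m ∈ range M, (if M + 1 + m ∈ S then a (M + 1 + m) else 0) * z ^ m‖ = ‖SS S a z‖ := by
    intro z hz
    have e1 : SS S a z = z ^ (M + 1) *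
        ∑ m ∈ range M, (if M + 1 + m ∈ S then a (M + 1 + m) else 0) * z ^ m := by
      unfold SS
      rw [mul_sum]
      have e2 : ∀ m ∈ range M, z ^ (M + 1) *
          ((if M + 1 + m ∈ S then a (M + 1 + m) else 0) * z ^ m) =
          if M + 1 + m ∈ S then a (M + 1 + m) * z ^ (M + 1 + m) else 0 := by
        intro m _
        split_ifs
        · rw [pow_add z (M + 1) m]
          ring
        · ring
      rw [sum_congr rfl e2, ← sum_filter]
      symm
      refine sum_nbij' (fun m => M + 1 + m) (fun n => n - (M + 1)) ?_ ?_ ?_ ?_ ?_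
      · intro m hm
        exact (mem_filter.1 hm).2
      · intro n hn
        have := mem_Ioc.1 (hS hn)
        rw [mem_filter, mem_range]
        have e : M + 1 + (n - (M + 1)) = n := by omega
        rw [e]
        exact ⟨by omega, hn⟩
      · intro m _
        omega
      · intro n hn
        have := mem_Ioc.1 (hS hn)
        omega
      · intro m _
        rfl
    rw [e1, norm_mul, norm_pow, hz, one_pow, one_mul]
  rw [h2] at h1
  refine le_trans ?_ h1
  rw [hI, sum_sigma]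
  refine sum_le_sum fun q hq => ?_
  have hqp : q.Prime := (mem_filter.1 hq).2
  haveI : Fact q.Prime := ⟨hqp⟩
  refine (char_le S a).trans (le_of_eq ?_)
  refine sum_nbij' (fun b : ZMod q => b.val) (fun b : ℕ => (b : ZMod q)) ?_ ?_ ?_ ?_ ?_
  · intro b hb
    have hb0 : b ≠ 0 := (mem_filter.1 hb).2
    rw [mem_Ico]
    exact ⟨Nat.one_le_iff_ne_zero.2 fun h => hb0 ((ZMod.val_eq_zero b).1 h), ZMod.val_lt b⟩
  · intro b hb
    rw [mem_Ico] at hb
    rw [mem_filter]
    refine ⟨mem_univ _, ?_⟩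
    intro h0
    rw [ZMod.natCast_eq_zero_iff] at h0
    exact absurd (Nat.le_of_dvd hb.1 h0) (by omega)
  · intro b _
    exact ZMod.natCast_zmod_val b
  · intro b hb
    exact ZMod.val_cast_of_lt (mem_Ico.1 hb).2
  · intro b _
    have e1 : ZMod.stdAddChar b = pt ⟨q, b.val⟩ := by
      have := ZMod.stdAddChar_coe (N := q) (b.val : ℤ)
      rw [Int.cast_natCast, ZMod.natCast_zmod_val] at this
      rw [this]
      unfold pt
      congr 1
    rw [e1, h3 _ (pt_norm _)]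

end Pool.Agent.Lib.MP_0f858a_nt.KR
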