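import Pool.Agent.Lib.MP_0f858a_nt.KR.Stmts84

/-!
KR, module PP: the prime powers.
-/

set_option autoImplicit false

namespace Pool.Agent.Lib.MP_0f858a_nt.KR

open Finset Filter
open scoped Classical

/-- the large primes -/
theorem big38 {q y M : ℕ} (hq3 : 3 ≤ q) :
    ∑ p ∈ (Icc 1 y).filter (fun p => p.Prime ∧ q ≤ p), ∑ m ∈ Icc 2 M,
      (q : ℝ) / (m * (p : ℝ) ^ m) ≤ 2 := by
  have hq0 : (3 : ℝ) ≤ q := by exact_mod_cast hq3
  have h1 : ∀ p ∈ (Icc 1 y).filter (fun p => p.Prime ∧ q ≤ p), ∑ m ∈ Icc 2 M,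
      (q : ℝ) / (m * (p : ℝ) ^ m) ≤ q * ((p : ℝ) ^ 2)⁻¹ := by
    intro p hp
    obtain ⟨_, _, hqp⟩ := mem_filter.1 hp
    have hp3 : (3 : ℝ) ≤ p := by exact_mod_cast hq3.trans hqp
    have hp0 : (0 : ℝ) < p := by linarith
    calc ∑ m ∈ Icc 2 M, (q : ℝ) / (m * (p : ℝ) ^ m) ≤ ∑ m ∈ Icc 2 M, q / 2 * ((p : ℝ)⁻¹) ^ m := by
          refine sum_le_sum fun m hm => ?_
          have hm2 : (2 : ℝ) ≤ m := by exact_mod_cast (mem_Icc.1 hm).1
          rw [inv_pow, ← div_eq_mul_inv, div_div]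
          refine div_le_div_of_nonneg_left (by linarith) (by positivity) ?_
          exact mul_le_mul_of_nonneg_right hm2 (by positivity)
      _ = q / 2 * ∑ m ∈ Ico 2 (M + 1), ((p : ℝ)⁻¹) ^ m := by
          rw [mul_sum]
          refine sum_congr ?_ fun _ _ => rfl
          ext m
          simp only [mem_Icc, mem_Ico]
          omega
      _ ≤ q / 2 * (((p : ℝ)⁻¹) ^ 2 / (1 - (p : ℝ)⁻¹)) := by
          refine mul_le_mul_of_nonneg_left ?_ (by linarith)
          refine geom_sum_Ico_le_of_lt_one (by positivity) ?_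
          rw [inv_lt_one₀ hp0]
          linarith
      _ ≤ q / 2 * (2 * ((p : ℝ)⁻¹) ^ 2) := by
          refine mul_le_mul_of_nonneg_left ?_ (by linarith)
          have h2 : (p : ℝ)⁻¹ ≤ 1 / 3 := by
            rw [inv_le_comm₀ hp0 (by norm_num)]
            linarith
          rw [div_le_iff₀ (by linarith)]
          have h3 : 0 ≤ ((p : ℝ)⁻¹) ^ 2 := by positivity
          nlinarith
      _ = q * ((p : ℝ) ^ 2)⁻¹ := by
          rw [inv_pow]
          ring
  refine (sum_le_sum h1).trans ?_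
  rw [← mul_sum]
  have h2 : ∑ p ∈ (Icc 1 y).filter (fun p => p.Prime ∧ q ≤ p), ((p : ℝ) ^ 2)⁻¹ ≤
      ∑ p ∈ Ioc (q - 1) y, ((p : ℝ) ^ 2)⁻¹ := by
    refine sum_le_sum_of_subset_of_nonneg ?_ fun p _ _ => by positivity
    intro p hp
    obtain ⟨h3, _, h4⟩ := mem_filter.1 hp
    have h5 := mem_Icc.1 h3
    exact mem_Ioc.2 ⟨by omega, h5.2⟩
  have h3 : ∑ p ∈ Ioc (q - 1) y, ((p : ℝ) ^ 2)⁻¹ ≤ ((q - 1 : ℕ) : ℝ)⁻¹ := by
    by_cases h4 : q - 1 ≤ y
    · have h5 := sum_Ioc_inv_sq_le_sub (α := ℝ) (show q - 1 ≠ 0 by omega) h4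
      have h6 : (0 : ℝ) ≤ (y : ℝ)⁻¹ := by positivity
      linarith
    · rw [Ioc_eq_empty (by omega), sum_empty]
      positivity
  have h4 : ((q - 1 : ℕ) : ℝ) = q - 1 := by
    rw [Nat.cast_sub (by omega), Nat.cast_one]
  rw [h4] at h3
  calc (q : ℝ) * _ ≤ q * ((q : ℝ) - 1)⁻¹ :=
        mul_le_mul_of_nonneg_left (h2.trans h3) (by linarith)
    _ ≤ 2 := by
        rw [← div_eq_mul_inv, div_le_iff₀ (by linarith)]
        linarith

/-- the roots of `X ^ m = a` -/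
theorem roots38 {q : ℕ} (hq : q.Prime) (S : Finset ℕ) (hS : ∀ p ∈ S, p < q) (m : ℕ) (hm : 1 ≤ m)
    (a : ZMod q) (h : ∀ p ∈ S, ((p : ℕ) : ZMod q) ^ m = a) : S.card ≤ m := by
  have : Fact q.Prime := ⟨hq⟩
  have h1 : (S.image (fun p : ℕ => (p : ZMod q))).card = S.card := by
    refine card_image_of_injOn ?_
    intro x hx y hy hxy
    have h2 := (ZMod.natCast_eq_natCast_iff x y q).1 hxy
    unfold Nat.ModEq at h2
    rwa [Nat.mod_eq_of_lt (hS x hx), Nat.mod_eq_of_lt (hS y hy)] at h2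
  rw [← h1]
  calc (S.image (fun p : ℕ => (p : ZMod q))).card ≤ (Polynomial.nthRoots m a).toFinset.card := by
        refine card_le_card fun z hz => ?_
        obtain ⟨p, hp, rfl⟩ := mem_image.1 hz
        rw [Multiset.mem_toFinset, Polynomial.mem_nthRoots (by omega)]
        exact h p hp
    _ ≤ Multiset.card (Polynomial.nthRoots m a) := Multiset.toFinset_card_le _
    _ ≤ m := Polynomial.card_nthRoots m a

theorem ppow_inj38 {p p' m m' : ℕ} (hp : p.Prime) (hp' : p'.Prime) (hm : 1 ≤ m)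
    (h : p ^ m = p' ^ m') : p = p' ∧ m = m' := by
  have h1 : p ∣ p' ^ m' := h ▸ dvd_pow_self p (by omega)
  have h2 : p = p' := (Nat.prime_dvd_prime_iff_eq hp hp').1 (hp.dvd_of_dvd_pow h1)
  subst h2
  exact ⟨rfl, Nat.pow_right_injective hp.two_le h⟩

theorem split38 (m k : ℕ) (hm : 1 ≤ m) (hk : 1 ≤ k) :
    1 / ((m : ℝ) * k) ≤ 1 / (m : ℝ) ^ 3 + 1 / (k : ℝ) ^ (3 / 2 : ℝ) := by
  have hm0 : (0 : ℝ) < m := by exact_mod_cast hm
  have hk0 : (0 : ℝ) < k := by exact_mod_cast hk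
  by_cases h : m ^ 2 ≤ k
  · have h1 : ((m : ℝ)) ^ 2 ≤ k := by exact_mod_cast h
    have h2 : 1 / ((m : ℝ) * k) ≤ 1 / (m : ℝ) ^ 3 := by
      apply one_div_le_one_div_of_le (by positivity)
      nlinarith
    have h3 : 0 ≤ 1 / (k : ℝ) ^ (3 / 2 : ℝ) := by positivity
    linarith
  · have h1 : (k : ℝ) ≤ (m : ℝ) ^ 2 := by
      have : k ≤ m ^ 2 := by omega
      exact_mod_cast this
    have h2 : 1 / ((m : ℝ) * k) ≤ 1 / (k : ℝ) ^ (3 / 2 : ℝ) := by
      apply one_div_le_one_div_of_le (by positivity)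
      have h3 : (k : ℝ) ^ (3 / 2 : ℝ) = k * Real.sqrt k := by
        rw [show (3 / 2 : ℝ) = 1 + 1 / 2 by norm_num, Real.rpow_add hk0, Real.rpow_one,
          Real.sqrt_eq_rpow]
      have h4 : Real.sqrt k ≤ m := by
        rw [Real.sqrt_le_left hm0.le]
        exact h1
      rw [h3]
      nlinarith
    have h3 : 0 ≤ 1 / (m : ℝ) ^ 3 := by positivity
    linarith

/-- the small primes, one sign -/
theorem sign38 {q y M : ℕ} (hq : q.Prime) (kf : ℕ → ℕ) (Pd : ℕ → Prop) (a : ZMod q)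
    (h1 : ∀ n, 2 ≤ n → Pd n → ((n : ℕ) : ZMod q) = a)
    (h2 : ∀ n, 2 ≤ n → Pd n → 1 ≤ kf n ∧ (q : ℝ) / n ≤ 2 * (1 / (kf n : ℝ)))
    (h3 : ∀ n n', 2 ≤ n → 2 ≤ n' → Pd n → Pd n' → kf n = kf n' → n = n') :
    ∑ p ∈ (Icc 1 y).filter (fun p => p.Prime ∧ p < q), ∑ m ∈ (Icc 2 M).filter (fun m => Pd (p ^ m)),
      (q : ℝ) / (m * (p : ℝ) ^ m) ≤
      2 * (∑' k : ℕ, 1 / (k : ℝ) ^ 2 + ∑' k : ℕ, 1 / (k : ℝ) ^ (3 / 2 : ℝ)) := by
  set S := (Icc 1 y).filter (fun p => p.Prime ∧ p < q) with hS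
  have hsum2 : Summable (fun k : ℕ => 1 / (k : ℝ) ^ 2) :=
    Real.summable_one_div_nat_pow.2 (by norm_num)
  have hsum3 : Summable (fun k : ℕ => 1 / (k : ℝ) ^ (3 / 2 : ℝ)) :=
    Real.summable_one_div_nat_rpow.2 (by norm_num)
  have hpm : ∀ p ∈ S, ∀ m ∈ Icc 2 M, 2 ≤ p ^ m := by
    intro p hp m hm
    obtain ⟨_, hpp, _⟩ := mem_filter.1 hp
    have h4 := (mem_Icc.1 hm).1
    calc 2 ≤ p := hpp.two_le
      _ = p ^ 1 := (pow_one p).symm
      _ ≤ p ^ m := Nat.pow_le_pow_right hpp.pos (by omega)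
  have h4 : ∀ p ∈ S, ∀ m ∈ (Icc 2 M).filter (fun m => Pd (p ^ m)),
      (q : ℝ) / (m * (p : ℝ) ^ m) ≤
        2 * (1 / (m : ℝ) ^ 3) + 2 * (1 / (kf (p ^ m) : ℝ) ^ (3 / 2 : ℝ)) := by
    intro p hp m hm
    obtain ⟨hm1, hm2⟩ := mem_filter.1 hm
    have h5 := hpm p hp m hm1
    obtain ⟨h6, h7⟩ := h2 _ h5 hm2
    have hm3 : 1 ≤ m := by
      have := (mem_Icc.1 hm1).1
      omega
    have hm0 : (0 : ℝ) < m := by exact_mod_cast hm3
    have h8 := split38 m (kf (p ^ m)) hm3 h6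
    have h9 : (q : ℝ) / (m * (p : ℝ) ^ m) = (q : ℝ) / ((p ^ m : ℕ) : ℝ) * (1 / m) := by
      push_cast
      rw [div_mul_div_comm, mul_one, mul_comm ((p : ℝ) ^ m)]
    rw [h9]
    calc (q : ℝ) / ((p ^ m : ℕ) : ℝ) * (1 / m) ≤ 2 * (1 / (kf (p ^ m) : ℝ)) * (1 / m) :=
          mul_le_mul_of_nonneg_right h7 (by positivity)
      _ = 2 * (1 / ((m : ℝ) * kf (p ^ m))) := by
          rw [mul_assoc, one_div_mul_one_div, mul_comm (kf (p ^ m) : ℝ)]
      _ ≤ _ := by linarith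
  refine (sum_le_sum fun p hp => sum_le_sum (h4 p hp)).trans ?_
  simp only [sum_add_distrib]
  rw [mul_add]
  refine add_le_add ?_ ?_
  · calc ∑ p ∈ S, ∑ m ∈ (Icc 2 M).filter (fun m => Pd (p ^ m)), 2 * (1 / (m : ℝ) ^ 3)
        = ∑ m ∈ Icc 2 M, ∑ p ∈ S.filter (fun p => Pd (p ^ m)), 2 * (1 / (m : ℝ) ^ 3) := by
          simp only [sum_filter]
          rw [sum_comm]
      _ ≤ ∑ m ∈ Icc 2 M, 2 * (1 / (m : ℝ) ^ 2) := by
          refine sum_le_sum fun m hm => ?_
          have hm2 := (mem_Icc.1 hm).1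
          have hm0 : (0 : ℝ) < m := by
            have : 0 < m := by omega
            exact_mod_cast this
          have hc : (S.filter (fun p => Pd (p ^ m))).card ≤ m := by
            refine roots38 hq _ (fun p hp => ?_) m (by omega) a fun p hp => ?_
            · exact (mem_filter.1 (mem_filter.1 hp).1).2.2
            · obtain ⟨h5, h6⟩ := mem_filter.1 hp
              have h7 := h1 _ (hpm p h5 m hm) h6
              rwa [Nat.cast_pow] at h7
          have hc' : ((S.filter (fun p => Pd (p ^ m))).card : ℝ) ≤ m := by exact_mod_cast hc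
          rw [sum_const, nsmul_eq_mul]
          calc ((S.filter (fun p => Pd (p ^ m))).card : ℝ) * (2 * (1 / (m : ℝ) ^ 3)) ≤
              m * (2 * (1 / (m : ℝ) ^ 3)) := mul_le_mul_of_nonneg_right hc' (by positivity)
            _ = 2 * (1 / (m : ℝ) ^ 2) := by
                field_simp
      _ = 2 * ∑ m ∈ Icc 2 M, 1 / (m : ℝ) ^ 2 := by rw [mul_sum]
      _ ≤ 2 * ∑' k : ℕ, 1 / (k : ℝ) ^ 2 := by
          refine mul_le_mul_of_nonneg_left ?_ (by norm_num)
          exact hsum2.sum_le_tsum _ fun k _ => by positivity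
  · have e : ∑ p ∈ S, ∑ m ∈ (Icc 2 M).filter (fun m => Pd (p ^ m)),
        2 * (1 / (kf (p ^ m) : ℝ) ^ (3 / 2 : ℝ)) =
        2 * ∑ z ∈ (S ×ˢ Icc 2 M).filter (fun z => Pd (z.1 ^ z.2)),
          1 / (kf (z.1 ^ z.2) : ℝ) ^ (3 / 2 : ℝ) := by
      conv_rhs => rw [mul_sum, sum_filter, sum_product]
      refine sum_congr rfl fun p _ => ?_
      rw [sum_filter]
    rw [e]
    refine mul_le_mul_of_nonneg_left ?_ (by norm_num)
    have hinj : Set.InjOn (fun z : ℕ × ℕ => kf (z.1 ^ z.2))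
        ((S ×ˢ Icc 2 M).filter (fun z => Pd (z.1 ^ z.2)) : Set (ℕ × ℕ)) := by
      intro z hz z' hz' hzz
      obtain ⟨h5, h6⟩ := mem_filter.1 (Finset.mem_coe.1 hz)
      obtain ⟨h5', h6'⟩ := mem_filter.1 (Finset.mem_coe.1 hz')
      obtain ⟨h7, h8⟩ := mem_product.1 h5
      obtain ⟨h7', h8'⟩ := mem_product.1 h5'
      have h9 := h3 _ _ (hpm _ h7 _ h8) (hpm _ h7' _ h8') h6 h6' hzz
      have h10 := ppow_inj38 (mem_filter.1 h7).2.1 (mem_filter.1 h7').2.1
        (by have := (mem_Icc.1 h8).1; omega) h9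
      exact Prod.ext h10.1 h10.2
    rw [← sum_image (f := fun k : ℕ => 1 / (k : ℝ) ^ (3 / 2 : ℝ)) hinj]
    exact hsum3.sum_le_tsum _ fun k _ => by positivity

/-- (PP) the prime powers -/
theorem stPp_38 : StPp := by
  refine ⟨2 + (2 * (∑' k : ℕ, 1 / (k : ℝ) ^ 2 + ∑' k : ℕ, 1 / (k : ℝ) ^ (3 / 2 : ℝ)) +
    2 * (∑' k : ℕ, 1 / (k : ℝ) ^ 2 + ∑' k : ℕ, 1 / (k : ℝ) ^ (3 / 2 : ℝ))), ?_⟩
  intro q y M hq hq3
  have hq0 : (0 : ℝ) < q := by exact_mod_cast hq.pos
  have hplus := sign38 (q := q) (y := y) (M := M) hq (fun n => n / q) (fun n => n % q = 1) 1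
    (fun n _ hn => by
      have : (n : ZMod q) = ((1 : ℕ) : ZMod q) := by
        rw [ZMod.natCast_eq_natCast_iff]
        unfold Nat.ModEq
        rw [hn, Nat.mod_eq_of_lt (by omega)]
      rw [this, Nat.cast_one])
    (fun n hn2 hn => by
      have h1 := Nat.div_add_mod n q
      rw [hn] at h1
      have h2 : 1 ≤ n / q := by
        rcases Nat.eq_zero_or_pos (n / q) with h | h
        · rw [h] at h1
          omega
        · exact h
      refine ⟨h2, ?_⟩
      have h3 : (0 : ℝ) < ((n / q : ℕ) : ℝ) := by exact_mod_cast h2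
      have h4 : (n : ℝ) = q * ((n / q : ℕ) : ℝ) + 1 := by exact_mod_cast h1.symm
      have h5 : (0 : ℝ) < q * ((n / q : ℕ) : ℝ) + 1 := by positivity
      rw [h4, mul_one_div, div_le_div_iff₀ h5 h3]
      nlinarith)
    (fun n n' _ _ hn hn' h => by
      have h1 := Nat.div_add_mod n q
      have h2 := Nat.div_add_mod n' q
      have h3 : n / q = n' / q := h
      rw [← h1, ← h2, h3, hn, hn'])
  have hminus := sign38 (q := q) (y := y) (M := M) hq (fun n => (n + 1) / q)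
    (fun n => (n + 1) % q = 0) (-1)
    (fun n _ hn => by
      have h1 : ((n + 1 : ℕ) : ZMod q) = 0 :=
        (ZMod.natCast_eq_zero_iff _ _).2 (Nat.dvd_of_mod_eq_zero hn)
      push_cast at h1
      exact eq_neg_of_add_eq_zero_left h1)
    (fun n hn2 hn => by
      have h1 := Nat.div_add_mod (n + 1) q
      rw [hn] at h1
      have h2 : 1 ≤ (n + 1) / q := by
        rcases Nat.eq_zero_or_pos ((n + 1) / q) with h | h
        · rw [h] at h1
          omega
        · exact h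
      refine ⟨h2, ?_⟩
      have h3 : (1 : ℝ) ≤ (((n + 1) / q : ℕ) : ℝ) := by exact_mod_cast h2
      have h4 : (n : ℝ) + 1 = q * (((n + 1) / q : ℕ) : ℝ) := by
        have : ((n + 1 : ℕ) : ℝ) = ((q * ((n + 1) / q) + 0 : ℕ) : ℝ) := by rw [h1]
        push_cast at this
        linarith
      have h6 : (2 : ℝ) ≤ n := by exact_mod_cast hn2
      have h7 : (n : ℝ) = q * (((n + 1) / q : ℕ) : ℝ) - 1 := by linarith
      rw [mul_one_div, div_le_div_iff₀ (by linarith) (by linarith)]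
      nlinarith)
    (fun n n' _ _ hn hn' h => by
      have h1 := Nat.div_add_mod (n + 1) q
      have h2 := Nat.div_add_mod (n' + 1) q
      have h3 : (n + 1) / q = (n' + 1) / q := h
      rw [hn] at h1
      rw [hn', ← h3] at h2
      omega)
  have hbig := big38 (q := q) (y := y) (M := M) hq3
  have hnn : ∀ p m : ℕ, (0 : ℝ) ≤ (q : ℝ) / (m * (p : ℝ) ^ m) := fun p m => by positivity
  calc ∑ p ∈ (Icc 1 y).filter Nat.Prime, ∑ m ∈ (Icc 2 M).filter (fun m => sg q (p ^ m) ≠ 0),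
      (q : ℝ) / (m * (p : ℝ) ^ m)
      ≤ ∑ p ∈ (Icc 1 y).filter Nat.Prime, ((if q ≤ p then ∑ m ∈ Icc 2 M,
          (q : ℝ) / (m * (p : ℝ) ^ m) else 0) +
          ((if p < q then ∑ m ∈ (Icc 2 M).filter (fun m => p ^ m % q = 1),
            (q : ℝ) / (m * (p : ℝ) ^ m) else 0) +
          (if p < q then ∑ m ∈ (Icc 2 M).filter (fun m => (p ^ m + 1) % q = 0),
            (q : ℝ) / (m * (p : ℝ) ^ m) else 0))) := by
        refine sum_le_sum fun p _ => ?_
        by_cases hpq : q ≤ p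
        · rw [if_pos hpq, if_neg (by omega), if_neg (by omega), add_zero, add_zero]
          exact sum_le_sum_of_subset_of_nonneg (filter_subset _ _) fun m _ _ => hnn p m
        · rw [if_neg hpq, if_pos (by omega), if_pos (by omega), zero_add]
          have h1 : (Icc 2 M).filter (fun m => sg q (p ^ m) ≠ 0) ⊆
              (Icc 2 M).filter (fun m => p ^ m % q = 1) ∪
                (Icc 2 M).filter (fun m => (p ^ m + 1) % q = 0) := by
            intro m hm
            obtain ⟨h2, h3⟩ := mem_filter.1 hm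
            rw [mem_union, mem_filter, mem_filter]
            by_cases h4 : p ^ m % q = 1
            · exact Or.inl ⟨h2, h4⟩
            · right
              refine ⟨h2, ?_⟩
              by_contra h5
              apply h3
              unfold sg
              rw [if_neg h4, if_neg h5]
          refine (sum_le_sum_of_subset_of_nonneg h1 fun m _ _ => hnn p m).trans ?_
          have h2 := sum_union_inter (s₁ := (Icc 2 M).filter (fun m => p ^ m % q = 1))
            (s₂ := (Icc 2 M).filter (fun m => (p ^ m + 1) % q = 0))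
            (f := fun m : ℕ => (q : ℝ) / (m * (p : ℝ) ^ m))
          have h3 : 0 ≤ ∑ m ∈ (Icc 2 M).filter (fun m => p ^ m % q = 1) ∩
              (Icc 2 M).filter (fun m => (p ^ m + 1) % q = 0), (q : ℝ) / (m * (p : ℝ) ^ m) :=
            sum_nonneg fun m _ => hnn p m
          linarith
    _ = (∑ p ∈ (Icc 1 y).filter (fun p => p.Prime ∧ q ≤ p), ∑ m ∈ Icc 2 M,
          (q : ℝ) / (m * (p : ℝ) ^ m)) +
        ((∑ p ∈ (Icc 1 y).filter (fun p => p.Prime ∧ p < q),
          ∑ m ∈ (Icc 2 M).filter (fun m => p ^ m % q = 1), (q : ℝ) / (m * (p : ℝ) ^ m)) +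
        ∑ p ∈ (Icc 1 y).filter (fun p => p.Prime ∧ p < q),
          ∑ m ∈ (Icc 2 M).filter (fun m => (p ^ m + 1) % q = 0), (q : ℝ) / (m * (p : ℝ) ^ m)) := by
        rw [sum_add_distrib, sum_add_distrib, ← sum_filter, ← sum_filter, ← sum_filter,
          filter_filter, filter_filter]
    _ ≤ _ := by
        refine add_le_add hbig (add_le_add ?_ ?_)
        · refine le_of_eq_of_le (sum_congr rfl fun p _ => sum_congr ?_ fun _ _ => rfl) hplus
          ext m
          simp only [mem_filter]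
        · refine le_of_eq_of_le (sum_congr rfl fun p _ => sum_congr ?_ fun _ _ => rfl) hminus
          ext m
          simp only [mem_filter]

end Pool.Agent.Lib.MP_0f858a_nt.KR
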