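import Pool.Agent.Lib.MP_0f858a_nt.KR.Stmts84
import Pool.Agent.Lib.MT2.Rates82

/-!
KR, module RS: rough numbers in two residue classes prime to `q`.
-/

set_option autoImplicit false

namespace Pool.Agent.Lib.MP_0f858a_nt.KR

open Finset Filter
open scoped Classical

namespace Rs1

/-- the number of integers of the class `c` mod `q M` without prime factors in `(zs, z]` -/
noncomputable def cnt (zs z q M : ℕ) (c : ℤ) (N H : ℕ) : ℝ :=
  (((Ioc (N : ℤ) (N + H)).filter (fun n : ℤ => ((q * M : ℕ) : ℤ) ∣ n - c ∧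
    ∀ l ∈ TwinAll.PP zs z, ¬ (l : ℤ) ∣ n)).card : ℝ)

/-- the main term -/
noncomputable def mt (zs z q : ℕ) : ℝ :=
  ∏ l ∈ TwinAll.PP zs z, (1 - (((if l = q then 0 else 1 : ℕ)) : ℝ) / l)

theorem mt_bd (zs z q : ℕ) : 0 ≤ mt zs z q ∧ mt zs z q ≤ 1 := by
  unfold mt
  have h : ∀ l ∈ TwinAll.PP zs z, 0 ≤ (1 - (((if l = q then 0 else 1 : ℕ)) : ℝ) / l) ∧
      (1 - (((if l = q then 0 else 1 : ℕ)) : ℝ) / l) ≤ 1 := by
    intro l hl
    have h1 : (1 : ℝ) ≤ l := by
      have := ((mem_filter.1 hl).2).one_lt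
      exact_mod_cast this.le
    have h2 : (0 : ℝ) ≤ (((if l = q then 0 else 1 : ℕ)) : ℝ) := Nat.cast_nonneg _
    have h3 : (((if l = q then 0 else 1 : ℕ)) : ℝ) ≤ 1 := by
      split_ifs <;> norm_num
    constructor
    · rw [sub_nonneg, div_le_one (by linarith)]
      linarith
    · have : 0 ≤ (((if l = q then 0 else 1 : ℕ)) : ℝ) / l := by positivity
      linarith
  exact ⟨prod_nonneg (fun l hl => (h l hl).1), prod_le_one (fun l hl => (h l hl).1)
    (fun l hl => (h l hl).2)⟩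

theorem cls : ∃ s' zs : ℕ, ∀ z t q M c N H : ℕ, zs ≤ z → q.Prime → zs < q →
    (∀ l : ℕ, l.Prime → zs < l → ¬ l ∣ M) → 0 < M → ¬ q ∣ c →
    |cnt zs z q M c N H - (H / (q * M : ℕ) : ℝ) * mt zs z q| ≤
      (1 / 4) ^ t * (H / (q * M : ℕ) : ℝ) + (z : ℝ) ^ (2 * (s' + 8 * t)) + 2 := by
  obtain ⟨s', zs, hcore⟩ := MT2.R82.coreR 1
  refine ⟨s', zs, ?_⟩
  intro z t q M c N H hz hq hqz hM hM0 hqc
  set Q : ℕ := q * M with hQ
  have hQ0 : 0 < Q := Nat.mul_pos hq.pos hM0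
  obtain ⟨v, H', hcard, hH'⟩ := MT2.R82.class_card
    (fun n : ℤ => ∀ l ∈ TwinAll.PP zs z, ¬ (l : ℤ) ∣ n) Q hQ0 (c : ℤ) (N : ℤ) H
  have hres : ∀ l ∈ TwinAll.PP zs z,
      ((range l).filter (fun r : ℕ => (l : ℤ) ∣ (c : ℤ) + Q * (r : ℤ))).card =
        if l = q then 0 else 1 := by
    intro l hl
    have hl' := mem_filter.1 hl
    by_cases h : l = q
    · rw [if_pos h, card_eq_zero, filter_eq_empty_iff]
      intro r _ hd
      apply hqc
      have h1 : (q : ℤ) ∣ (c : ℤ) + Q * (r : ℤ) := by rw [← h]; exact hd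
      have h2 : (q : ℤ) ∣ (Q : ℤ) * (r : ℤ) := by
        refine Dvd.dvd.mul_right ?_ _
        rw [hQ]
        exact_mod_cast dvd_mul_right q M
      have h3 := (Int.dvd_add_left h2).1 h1
      exact_mod_cast h3
    · rw [if_neg h]
      have hlQ : ¬ l ∣ Q := by
        intro hd
        rcases (hl'.2.dvd_mul).1 hd with h1 | h1
        · exact h ((Nat.prime_dvd_prime_iff_eq hl'.2 hq).1 h1)
        · exact hM l hl'.2 (mem_Ioc.1 hl'.1).1 h1
      have h1 := MT2.R82.card_class l Q hl'.2 hlQ (c : ℤ) (fun n : ℤ => (l : ℤ) ∣ n)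
        (fun n m hnm => by
          constructor
          · intro hn
            have := dvd_sub hn hnm
            rwa [sub_sub_cancel] at this
          · intro hm
            have := dvd_add hnm hm
            rwa [sub_add_cancel] at this)
      rw [h1]
      have h2 : (range l).filter (fun r : ℕ => (l : ℤ) ∣ (r : ℤ)) = {0} := by
        ext r
        rw [mem_filter, mem_range, mem_singleton]
        constructor
        · rintro ⟨h3, h4⟩
          exact Nat.eq_zero_of_dvd_of_lt (by exact_mod_cast h4) h3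
        · rintro rfl
          exact ⟨hl'.2.pos, by simp⟩
      rw [h2, card_singleton]
  have hb := hcore t zs le_rfl z hz (fun l m => (l : ℤ) ∣ (c : ℤ) + Q * m)
    (fun l _ n m hnm => by
      have e : (l : ℤ) ∣ (c + Q * n) - (c + Q * m) := by
        have := Dvd.dvd.mul_left hnm (Q : ℤ)
        have e2 : (Q : ℤ) * (n - m) = (c + Q * n) - (c + Q * m) := by ring
        rwa [e2] at this
      constructor
      · intro hn
        have := dvd_sub hn e
        rwa [sub_sub_cancel] at this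
      · intro hm
        have := dvd_add e hm
        rwa [sub_add_cancel] at this)
    (fun l hl => by
      rw [hres l hl]
      split_ifs <;> norm_num) v H'
  have hprod : ∏ l ∈ TwinAll.PP zs z,
      (1 - ((((range l).filter (fun r : ℕ => (l : ℤ) ∣ (c : ℤ) + Q * (r : ℤ))).card : ℕ) : ℝ) / l) =
      mt zs z q := by
    unfold mt
    apply prod_congr rfl
    intro l hl
    rw [hres l hl]
  rw [hprod] at hb
  have hcnt : cnt zs z q M c N H =
      (((Ioc v (v + H')).filter (fun m : ℤ => ∀ l ∈ TwinAll.PP zs z,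
        ¬ (l : ℤ) ∣ (c : ℤ) + Q * m)).card : ℝ) := by
    unfold cnt
    rw [← hcard]
  rw [hcnt]
  obtain ⟨m0, m1⟩ := mt_bd zs z q
  obtain ⟨hb1, hb2⟩ := hb
  have he0 : (0 : ℝ) ≤ (1 / 4) ^ t := by positivity
  have he1 : ((1 : ℝ) / 4) ^ t ≤ 1 := pow_le_one₀ (by norm_num) (by norm_num)
  have hH0 : (0 : ℝ) ≤ (H' : ℝ) := Nat.cast_nonneg _
  have hHQ : (0 : ℝ) ≤ (H : ℝ) / (Q : ℕ) := by positivity
  obtain ⟨a1, a2⟩ := abs_le.1 hH'
  have k1 : (H' : ℝ) * mt zs z q ≤ (H : ℝ) / (Q : ℕ) + 1 := by nlinarith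
  have k2 : (1 / 4 : ℝ) ^ t * ((H' : ℝ) * mt zs z q) ≤ (1 / 4) ^ t * ((H : ℝ) / (Q : ℕ)) + 1 := by
    have := mul_le_mul_of_nonneg_left k1 he0
    nlinarith
  have k3 : |(H' : ℝ) * mt zs z q - (H : ℝ) / (Q : ℕ) * mt zs z q| ≤ 1 := by
    rw [← sub_mul, abs_mul, abs_of_nonneg m0]
    have := abs_nonneg ((H' : ℝ) - (H : ℝ) / (Q : ℕ))
    nlinarith
  obtain ⟨b1, b2⟩ := abs_le.1 k3
  rw [abs_le]
  constructor
  · nlinarith
  · nlinarith

/-- the class form -/
theorem count_eq (zs z q M a N H : ℕ) (hM0 : 0 < M)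
    (hcop : Nat.Coprime q M) (hMz : ∀ p : ℕ, p.Prime → p ≤ zs → p ∣ M)
    (hM : ∀ l : ℕ, l.Prime → l ∣ M → l ≤ zs) (hz : zs ≤ z) (c : ℕ → ℕ)
    (hc1 : ∀ d, c d ≡ a [MOD q]) (hc2 : ∀ d, c d ≡ d [MOD M]) :
    ((((Ioc N (N + H)).filter (fun n => n ≡ a [MOD q] ∧ Ro z n)).card : ℝ)) =
      ∑ d ∈ (range M).filter (fun d => Nat.Coprime d M), cnt zs z q M (c d) N H := by
  have h1 : ((Ioc N (N + H)).filter (fun n => n ≡ a [MOD q] ∧ Ro z n)).card =
      ∑ d ∈ (range M).filter (fun d => Nat.Coprime d M),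
        (((Ioc N (N + H)).filter (fun n => n ≡ a [MOD q] ∧ Ro z n)).filter
          (fun n => n % M = d)).card := by
    apply card_eq_sum_card_fiberwise
    intro n hn
    rw [mem_coe, mem_filter] at hn ⊢
    refine ⟨mem_range.2 (Nat.mod_lt _ hM0), ?_⟩
    apply Nat.coprime_of_dvd
    intro p hp hp1 hp2
    have g1 := (Nat.dvd_mod_iff hp2).1 hp1
    exact hn.2.2 p hp ((hM p hp hp2).trans hz) g1
  rw [h1]
  push_cast
  apply sum_congr rfl
  intro d hd
  rw [mem_filter, mem_range] at hd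
  unfold cnt
  norm_cast
  apply card_bij (fun (n : ℕ) _ => (n : ℤ))
  · intro n hn
    rw [mem_filter, mem_filter, mem_Ioc] at hn
    rw [mem_filter, mem_Ioc]
    obtain ⟨⟨⟨h2, h3⟩, h4, h5⟩, h6⟩ := hn
    refine ⟨⟨by exact_mod_cast h2, by exact_mod_cast h3⟩, ?_, ?_⟩
    · have h7 : n ≡ c d [MOD q * M] := by
        rw [← Nat.modEq_and_modEq_iff_modEq_mul hcop]
        refine ⟨h4.trans (hc1 d).symm, ?_⟩
        refine Nat.ModEq.trans ?_ (hc2 d).symm
        rw [← h6]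
        exact (Nat.mod_modEq n M).symm
      exact (Nat.modEq_iff_dvd.1 h7.symm)
    · intro l hl hd'
      have hl' := mem_filter.1 hl
      exact h5 l hl'.2 (mem_Ioc.1 hl'.1).2 (by exact_mod_cast hd')
  · intro n _ m _ h
    exact_mod_cast h
  · intro n hn
    rw [mem_filter, mem_Ioc] at hn
    obtain ⟨⟨h2, h3⟩, h4, h5⟩ := hn
    have h0 : (0 : ℤ) ≤ n := by
      have : (0 : ℤ) ≤ (N : ℤ) := Int.natCast_nonneg _
      omega
    obtain ⟨m, rfl⟩ := Int.eq_ofNat_of_zero_le h0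
    have h6 : m ≡ c d [MOD q * M] := (Nat.modEq_iff_dvd.2 h4).symm
    obtain ⟨h7, h8⟩ := (Nat.modEq_and_modEq_iff_modEq_mul hcop).2 h6
    have h9 : m % M = d := by
      have := h8.trans (hc2 d)
      rw [Nat.ModEq, Nat.mod_eq_of_lt hd.1] at this
      exact this
    refine ⟨m, ?_, rfl⟩
    rw [mem_filter, mem_filter, mem_Ioc]
    refine ⟨⟨⟨by exact_mod_cast h2, by exact_mod_cast h3⟩, h7.trans (hc1 d), ?_⟩, h9⟩
    intro p hp hpz hpm
    by_cases hps : p ≤ zs
    · have g1 := hMz p hp hps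
      have g2 : p ∣ m % M := (Nat.dvd_mod_iff g1).2 hpm
      rw [h9] at g2
      have g3 := Nat.dvd_gcd g2 g1
      rw [Nat.Coprime.gcd_eq_one hd.2] at g3
      exact hp.one_lt.ne' (Nat.dvd_one.1 g3)
    · exact h5 p (mem_filter.2 ⟨mem_Ioc.2 ⟨by omega, hpz⟩, hp⟩) (by exact_mod_cast hpm)

end Rs1

open Rs1

/-- (RS) -/
theorem stRs_1 : StRs := by
  obtain ⟨s', zs, hcls⟩ := cls
  set M : ℕ := ∏ p ∈ (range (zs + 1)).filter Nat.Prime, p with hMdef
  have hpr : ∀ p ∈ (range (zs + 1)).filter Nat.Prime, p.Prime := fun p hp => (mem_filter.1 hp).2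
  have hM0 : 0 < M := prod_pos (fun p hp => (hpr p hp).pos)
  have hMz : ∀ p : ℕ, p.Prime → p ≤ zs → p ∣ M := by
    intro p hp hpz
    exact dvd_prod_of_mem _ (mem_filter.2 ⟨mem_range.2 (by omega), hp⟩)
  have hM : ∀ l : ℕ, l.Prime → l ∣ M → l ≤ zs := by
    intro l hl hlM
    rw [hMdef, hl.prime.dvd_finsetProd_iff] at hlM
    obtain ⟨p, hp, hlp⟩ := hlM
    have h1 := (Nat.prime_dvd_prime_iff_eq hl (hpr p hp)).1 hlp
    have h2 := mem_range.1 (mem_filter.1 hp).1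
    omega
  refine ⟨2 * s' + 17, max zs (6 * M), ?_⟩
  intro z t q a b N H hz hqz hq ha hb
  have hz1 : zs ≤ z := (le_max_left _ _).trans hz
  have hz2 : 6 * M ≤ z := (le_max_right _ _).trans hz
  have hq1 : zs < q := lt_of_le_of_lt (le_max_left _ _) hqz
  have hcop : Nat.Coprime q M := (Nat.Prime.coprime_iff_not_dvd hq).2 (fun h => by
    have := hM q hq h
    omega)
  have hMl : ∀ l : ℕ, l.Prime → zs < l → ¬ l ∣ M := fun l hl hzl hlM => by
    have := hM l hl hlM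
    omega
  have hnd : ∀ x d : ℕ, ¬ q ∣ x → ¬ q ∣ ((Nat.chineseRemainder hcop x d : ℕ)) := by
    intro x d hx hd
    apply hx
    exact ((Nat.chineseRemainder hcop x d).2.1.dvd_iff (dvd_refl q)).1 hd
  have hca := count_eq zs z q M a N H hM0 hcop hMz hM hz1
    (fun d => (Nat.chineseRemainder hcop a d : ℕ))
    (fun d => (Nat.chineseRemainder hcop a d).2.1) (fun d => (Nat.chineseRemainder hcop a d).2.2)
  have hcb := count_eq zs z q M b N H hM0 hcop hMz hM hz1
    (fun d => (Nat.chineseRemainder hcop b d : ℕ))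
    (fun d => (Nat.chineseRemainder hcop b d).2.1) (fun d => (Nat.chineseRemainder hcop b d).2.2)
  rw [hca, hcb, ← sum_sub_distrib]
  set E : ℝ := (z : ℝ) ^ (2 * (s' + 8 * (t + 1))) with hE
  have hM1 : (1 : ℝ) ≤ M := by exact_mod_cast hM0
  have hz6 : (6 : ℝ) * M ≤ z := by exact_mod_cast hz2
  have hzR : (1 : ℝ) ≤ z := by linarith
  have hE1 : 1 ≤ E := one_le_pow₀ hzR
  have hq0 : (0 : ℝ) < q := by exact_mod_cast hq.pos
  have hterm : ∀ d ∈ (range M).filter (fun d => Nat.Coprime d M),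
      |cnt zs z q M ((Nat.chineseRemainder hcop a d : ℕ) : ℤ) N H -
        cnt zs z q M ((Nat.chineseRemainder hcop b d : ℕ) : ℤ) N H| ≤
      2 * ((1 / 4) ^ (t + 1) * (H / (q * M : ℕ) : ℝ) + E + 2) := by
    intro d _
    have h1 := abs_le.1 (hcls z (t + 1) q M (Nat.chineseRemainder hcop a d : ℕ) N H hz1 hq hq1 hMl
      hM0 (hnd a d ha))
    have h2 := abs_le.1 (hcls z (t + 1) q M (Nat.chineseRemainder hcop b d : ℕ) N H hz1 hq hq1 hMl
      hM0 (hnd b d hb))
    rw [abs_le]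
    constructor
    · linarith [h1.1, h2.2]
    · linarith [h1.2, h2.1]
  refine (abs_sum_le_sum_abs _ _).trans ((sum_le_sum hterm).trans ?_)
  rw [sum_const, nsmul_eq_mul]
  have hc1 : (((range M).filter (fun d => Nat.Coprime d M)).card : ℝ) ≤ M := by
    have := card_filter_le (range M) (fun d => Nat.Coprime d M)
    rw [card_range] at this
    exact_mod_cast this
  have hpos : (0 : ℝ) ≤ 2 * ((1 / 4) ^ (t + 1) * (H / (q * M : ℕ) : ℝ) + E + 2) := by positivity
  refine (mul_le_mul_of_nonneg_right hc1 hpos).trans ?_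
  have e1 : (M : ℝ) * (2 * ((1 / 4) ^ (t + 1) * (H / (q * M : ℕ) : ℝ) + E + 2)) =
      1 / 2 * (1 / 4) ^ t * (H / q) + M * (2 * E + 4) := by
    push_cast
    field_simp
    ring
  rw [e1]
  have e2 : ((1 : ℝ) / 4) ^ t ≤ (1 / 2) ^ t := pow_le_pow_left₀ (by norm_num) (by norm_num) t
  have e3 : (M : ℝ) * (2 * E + 4) ≤ z ^ ((2 * s' + 17) * (t + 1)) := by
    have f1 : (M : ℝ) * (2 * E + 4) ≤ z * E := by nlinarith
    refine f1.trans ?_
    rw [hE, ← pow_succ']
    apply pow_le_pow_right₀ hzR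
    nlinarith [Nat.zero_le (s' * t), Nat.zero_le t]
  have e4 : 1 / 2 * ((1 : ℝ) / 4) ^ t * (H / q) ≤ (1 / 2) ^ t * (H / q) := by
    apply mul_le_mul_of_nonneg_right _ (by positivity)
    have : (0 : ℝ) ≤ (1 / 4) ^ t := by positivity
    linarith
  linarith

end Pool.Agent.Lib.MP_0f858a_nt.KR
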