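import Pool.Agent.Lib.MP_0f858a_nt.KR.Lone12

/-!
RSH: rough numbers in residue classes with the weights `1 / n` (helper12).
-/

set_option autoImplicit false

namespace Pool.Agent.Lib.MP_0f858a_nt.KR

open Finset Filter
open scoped Classical

lemma sum_Ioc12 (P : ℕ → Prop) [DecidablePred P] (g : ℕ → ℝ) (N H : ℕ) :
    ∑ n ∈ (Ioc N (N + H)).filter P, g n =
      ∑ i ∈ range H, if P (N + 1 + i) then g (N + 1 + i) else 0 := by
  rw [sum_filter]
  induction H with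
  | zero => simp
  | succ H ih =>
    have h1 : Ioc N (N + (H + 1)) = insert (N + 1 + H) (Ioc N (N + H)) := by
      ext x
      simp only [mem_Ioc, mem_insert]
      omega
    rw [h1, sum_insert (by simp), ih, sum_range_succ, add_comm]

lemma card_Ioc12 (P : ℕ → Prop) [DecidablePred P] (N H : ℕ) :
    (((Ioc N (N + H)).filter P).card : ℝ) =
      ∑ i ∈ range H, if P (N + 1 + i) then (1 : ℝ) else 0 := by
  rw [← sum_Ioc12 P (fun _ => 1) N H]
  simp

/-- module RSH -/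
theorem stRsh_12 (hRs : StRs) : StRsh := by
  obtain ⟨C, z₀, h⟩ := hRs
  refine ⟨C, z₀, ?_⟩
  intro z t q a b N N' hz hq hqp ha hb hN hNN' hN'
  obtain ⟨H, rfl⟩ := Nat.exists_eq_add_of_le hNN'
  have hH : H ≤ N := by omega
  obtain ⟨Z, hZ⟩ : ∃ Z : ℝ, Z = (z : ℝ) ^ (C * (t + 1)) := ⟨_, rfl⟩
  have hZ0 : 0 ≤ Z := by rw [hZ]; positivity
  have hN0 : (0 : ℝ) < N := by exact_mod_cast hN
  have hq0 : (0 : ℝ) < q := by exact_mod_cast hqp.pos
  obtain ⟨d, hd⟩ : ∃ d : ℕ → ℝ, d = fun i =>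
      (if (N + 1 + i ≡ a [MOD q] ∧ Ro z (N + 1 + i)) then (1 : ℝ) else 0) -
        (if (N + 1 + i ≡ b [MOD q] ∧ Ro z (N + 1 + i)) then (1 : ℝ) else 0) := ⟨_, rfl⟩
  obtain ⟨B, hB⟩ : ∃ B : ℝ, B = (1 / 2) ^ t * (H / q : ℝ) + Z := ⟨_, rfl⟩
  have hD : ∀ n ≤ H, |∑ i ∈ range n, d i| ≤ B := by
    intro n hn
    have h1 := h z t q a b N n hz hq hqp ha hb
    rw [card_Ioc12, card_Ioc12, ← sum_sub_distrib] at h1
    rw [hd]
    refine h1.trans ?_
    rw [hB, hZ]
    have h2 : (n : ℝ) ≤ H := by exact_mod_cast hn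
    gcongr
  have h1 := abel12 (fun i => if i < H then (d i : ℂ) else 0) B (by
    intro n
    have h2 : ∑ i ∈ range n, (if i < H then (d i : ℂ) else 0) =
        ((∑ i ∈ range (min n H), d i : ℝ) : ℂ) := by
      rw [← sum_filter]
      push_cast
      refine sum_congr ?_ fun _ _ => rfl
      ext i
      simp only [mem_filter, mem_range]
      omega
    rw [h2, Complex.norm_real, Real.norm_eq_abs]
    exact hD _ (min_le_right _ _)) (fun i => 1 / ((N + 1 + i : ℕ) : ℝ)) (by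
    intro i j hij
    have h5 : (((N + 1 + i : ℕ) : ℝ)) ≤ ((N + 1 + j : ℕ) : ℝ) := by exact_mod_cast (by omega)
    have h6 : (0 : ℝ) < ((N + 1 + i : ℕ) : ℝ) := by positivity
    exact one_div_le_one_div_of_le h6 h5) (fun n => by positivity) H
  have h2 : ∑ i ∈ range H, (((1 / ((N + 1 + i : ℕ) : ℝ) : ℝ)) : ℂ) *
      (if i < H then (d i : ℂ) else 0) =
      ((∑ n ∈ (Ioc N (N + H)).filter (fun n => n ≡ a [MOD q] ∧ Ro z n), 1 / (n : ℝ) -
      ∑ n ∈ (Ioc N (N + H)).filter (fun n => n ≡ b [MOD q] ∧ Ro z n), 1 / (n : ℝ) : ℝ) : ℂ) := by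
    rw [sum_Ioc12 _ (fun n => 1 / (n : ℝ)), sum_Ioc12 _ (fun n => 1 / (n : ℝ)), ← sum_sub_distrib,
      Complex.ofReal_sum]
    refine sum_congr rfl fun i hi => ?_
    rw [if_pos (mem_range.1 hi), ← Complex.ofReal_mul, hd]
    congr 1
    beta_reduce
    split_ifs <;> ring
  rw [h2, Complex.norm_real, Real.norm_eq_abs] at h1
  refine h1.trans ?_
  have h3 : (1 / (((N + 1 + 0 : ℕ) : ℝ))) ≤ 1 / N :=
    one_div_le_one_div_of_le hN0 (by push_cast; linarith)
  have hB0 : 0 ≤ B := (abs_nonneg _).trans (hD 0 (Nat.zero_le _))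
  have hHN : (H : ℝ) ≤ N := by exact_mod_cast hH
  calc B * (1 / (((N + 1 + 0 : ℕ) : ℝ))) ≤ B * (1 / N) := mul_le_mul_of_nonneg_left h3 hB0
    _ = (1 / 2) ^ t / q * (H / N) + Z / N := by
        rw [hB]
        field_simp
    _ ≤ (1 / 2) ^ t / q * 1 + Z / N := by
        gcongr
        rw [div_le_one hN0]
        exact hHN
    _ ≤ 2 * (1 / 2) ^ t / q + 2 * (z : ℝ) ^ (C * (t + 1)) / N := by
        rw [← hZ]
        have h7 : 0 ≤ (1 / 2 : ℝ) ^ t / q := by positivity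
        have h8 : 0 ≤ Z / N := by positivity
        have h9 : 2 * (1 / 2 : ℝ) ^ t / q = 2 * ((1 / 2 : ℝ) ^ t / q) := by ring
        have h10 : 2 * Z / N = 2 * (Z / N) := by ring
        rw [h9, h10]
        linarith

end Pool.Agent.Lib.MP_0f858a_nt.KR
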