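import Pool.Agent.Lib.MP_39b545_nt.Long.USieve
import Pool.Agent.Lib.MP_973905_nt.PrimeSum
import Pool.Agent.Lib.MP_0f858a_nt.KR.Stmts84

/-!
# The sieve of dimension `w`, uniform in `w`
-/

set_option autoImplicit false

namespace Pool.Agent.Lib.MP_0f858a_nt.KR

open Finset Pool.Agent.Lib.MP_d5700b_nt
open Pool.Agent.Lib.MP_973905_nt (PS)

/-- The primes in `(z₀, z]` not dividing `Δ`. -/
noncomputable def LamS (z₀ Δ M : ℕ) : Finset ℕ :=
  (Ioc z₀ M).filter (fun r => r.Prime ∧ ¬ r ∣ Δ)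

theorem mem_LamS {z₀ Δ M r : ℕ} : r ∈ LamS z₀ Δ M ↔ (z₀ < r ∧ r ≤ M) ∧ r.Prime ∧ ¬ r ∣ Δ := by
  rw [LamS, mem_filter, mem_Ioc]

/-- Reciprocal sum of the primes. -/
theorem sum_inv_LamS (z₀ Δ : ℕ) (hz₀ : 4 ≤ z₀) (hΔ : Δ ≠ 0) (z : ℝ) (hz : (z₀ : ℝ) ≤ z) :
    Real.log (Real.log z / Real.log z₀) - 8 - fD z₀ Δ ≤ ∑ l ∈ LamS z₀ Δ ⌊z⌋₊, 1 / (l : ℝ) := by
  classical
  have hzr : (4 : ℝ) ≤ z₀ := by exact_mod_cast hz₀
  have hl2 := Real.log_two_gt_d9
  have hlog : 2 * Real.log 2 ≤ Real.log z₀ := by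
    have h1 : Real.log 4 ≤ Real.log z₀ := Real.log_le_log (by norm_num) hzr
    have h2 : Real.log 4 = 2 * Real.log 2 := by
      rw [show (4 : ℝ) = 2 ^ 2 by norm_num, Real.log_pow]
      norm_num
    linarith
  have h1 := (abs_le.1 (Pool.Agent.Lib.MP_973905_nt.PrimeSum.range_bound (z₀ : ℝ) z
    (by linarith) hz)).1
  set B := (Ioc z₀ ⌊z⌋₊).filter (fun r => r.Prime ∧ r ∣ Δ) with hB
  have hsplit : PS (z₀ : ℝ) z = LamS z₀ Δ ⌊z⌋₊ ∪ B := by
    ext r
    rw [Pool.Agent.Lib.MP_973905_nt.PS, Nat.floor_natCast, mem_union, LamS, hB, mem_filter,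
      mem_filter, mem_filter]
    by_cases h : r ∣ Δ
    · simp [h]
    · simp [h]
  have hdisj : Disjoint (LamS z₀ Δ ⌊z⌋₊) B := by
    rw [disjoint_left]
    intro r hr hr'
    rw [mem_LamS] at hr
    rw [hB, mem_filter] at hr'
    exact hr.2.2 hr'.2.2
  rw [hsplit, sum_union hdisj] at h1
  have hbad : ∑ l ∈ B, 1 / (l : ℝ) ≤ fD z₀ Δ := by
    unfold fD
    apply sum_le_sum_of_subset_of_nonneg
    · intro l hl
      rw [hB, mem_filter, mem_Ioc] at hl
      rw [mem_filter, Nat.mem_primeFactors]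
      exact ⟨⟨hl.2.1, hl.2.2, hΔ⟩, hl.1.1⟩
    · intro l _ _
      positivity
  have h6 : 10 / Real.log z₀ ≤ 8 := by
    rw [div_le_iff₀ (by linarith)]
    linarith
  linarith

/-- Weighted logarithmic sum of the primes. -/
theorem sum_log_LamS (z₀ Δ : ℕ) (z : ℝ) (hz : 1 ≤ z) :
    ∑ l ∈ LamS z₀ Δ ⌊z⌋₊, Real.log l / l ≤ Real.log z + 5 := by
  have h1 := (abs_le.1 (Pool.Agent.Lib.MP_973905_nt.PrimeSum.A_bound z hz)).2
  have h2 : ∑ l ∈ LamS z₀ Δ ⌊z⌋₊, Real.log l / l ≤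
      Pool.Agent.Lib.MP_973905_nt.PrimeSum.A z := by
    unfold Pool.Agent.Lib.MP_973905_nt.PrimeSum.A
    apply sum_le_sum_of_subset_of_nonneg
    · intro l hl
      rw [mem_LamS] at hl
      rw [mem_filter, mem_Icc]
      exact ⟨⟨hl.2.1.one_lt.le, hl.1.2⟩, hl.2.1⟩
    · intro l hl _
      rw [mem_filter] at hl
      apply div_nonneg (Real.log_nonneg _) (Nat.cast_nonneg _)
      exact_mod_cast hl.2.one_lt.le
  linarith

/-- The density sum is large. -/
theorem H_lowS (w z₀ Δ : ℕ) (hw : 2 ≤ w) (hz₀ : 2 * w ≤ z₀) (hΔ : Δ ≠ 0) (ℓ : ℝ)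
    (hℓ : 800 * w * Real.log z₀ ≤ ℓ)
    (𝒬 : Finset (Finset ℕ))
    (h𝒬' : 𝒬 ⊆ (LamS z₀ Δ ⌊Real.exp (ℓ / (80 * w))⌋₊).powerset)
    (h𝒬 : ∀ D ∈ (LamS z₀ Δ ⌊Real.exp (ℓ / (80 * w))⌋₊).powerset, D ∉ 𝒬 →
      Real.exp (ℓ / 8) ≤ ((∏ l ∈ D, l : ℕ) : ℝ)) :
    (ℓ / (160 * Real.exp 8 * w * Real.log z₀)) ^ w * Real.exp (-(w * fD z₀ Δ)) ≤
      ∑ D ∈ 𝒬, ∏ l ∈ D, ((w : ℝ) / (l - w)) := by
  classical
  have hwr : (2 : ℝ) ≤ w := by exact_mod_cast hw
  have hz₀4 : 4 ≤ z₀ := by omega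
  have hzr : (4 : ℝ) ≤ z₀ := by exact_mod_cast hz₀4
  have hl2 := Real.log_two_gt_d9
  have hlogz₀ : 2 * Real.log 2 ≤ Real.log z₀ := by
    have h1 : Real.log 4 ≤ Real.log z₀ := Real.log_le_log (by norm_num) hzr
    have h2 : Real.log 4 = 2 * Real.log 2 := by
      rw [show (4 : ℝ) = 2 ^ 2 by norm_num, Real.log_pow]
      norm_num
    linarith
  have hlw0 : 0 < Real.log z₀ := by linarith
  set z := Real.exp (ℓ / (80 * w)) with hz
  set Λ := LamS z₀ Δ ⌊z⌋₊ with hΛ
  have hℓ0 : 0 < ℓ := by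
    have : 0 < 800 * w * Real.log z₀ := by positivity
    linarith
  have hlogz : Real.log z = ℓ / (80 * w) := by rw [hz, Real.log_exp]
  have hlogz5 : 10 * Real.log z₀ ≤ Real.log z := by
    rw [hlogz, le_div_iff₀ (by positivity)]
    linarith
  have hz1 : 1 ≤ z := by
    rw [hz]
    apply Real.one_le_exp
    positivity
  have hzw : (z₀ : ℝ) ≤ z := by
    rw [← Real.log_le_log_iff (by positivity) (by linarith)]
    linarith
  have hmem : ∀ l ∈ Λ, 2 * (w : ℝ) ≤ l ∧ (l : ℝ) ≤ z ∧ (0 : ℝ) < l - w ∧ (0 : ℝ) < l := by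
    intro l hl
    rw [hΛ, mem_LamS] at hl
    have h1 : (z₀ : ℝ) < l := by exact_mod_cast hl.1.1
    have h3 : 2 * (w : ℝ) ≤ z₀ := by exact_mod_cast hz₀
    have h2 : (l : ℝ) ≤ z := (Nat.le_floor_iff (by linarith)).1 hl.1.2
    refine ⟨by linarith, h2, by linarith, by linarith⟩
  set v : ℕ → ℝ := fun l => (w : ℝ) / (l - w) with hv
  have hv0 : ∀ l ∈ Λ, 0 ≤ v l := fun l hl => div_nonneg (Nat.cast_nonneg _) (hmem l hl).2.2.1.le
  set δ := 1 / Real.log z with hδ
  have hlz0 : 0 < Real.log z := by linarith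
  have hδ0 : 0 ≤ δ := by positivity
  have hr := Pool.Agent.Lib.MP_39b545_nt.Long.rankin Λ (fun l hl => by
    have := (hmem l hl).2.2.2
    exact_mod_cast this) v hv0 (Real.exp (ℓ / 8)) δ hδ0 (Real.exp_pos _) 𝒬 h𝒬 h𝒬'
  -- the product
  have hP1 : Real.exp (w * ∑ l ∈ Λ, 1 / (l : ℝ)) ≤ ∏ l ∈ Λ, (1 + v l) := by
    rw [mul_sum, Real.exp_sum]
    apply prod_le_prod
    · intro l _
      exact (Real.exp_pos _).le
    · intro l hl
      obtain ⟨a, b, c, d⟩ := hmem l hl
      have h1 : 1 + v l = (1 - (w : ℝ) / l)⁻¹ := by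
        simp only [hv]
        have e1 : 1 - (w : ℝ) / l = (l - w) / l := by field_simp
        rw [e1, inv_div]
        field_simp
        ring
      have h2 : 0 < 1 - (w : ℝ) / l := by
        rw [sub_pos, div_lt_one d]
        linarith
      rw [h1, ← one_div, le_div_iff₀ h2]
      have h3 : 1 - (w : ℝ) / l ≤ Real.exp (-(w / l)) := by
        have := Real.add_one_le_exp (-((w : ℝ) / l))
        linarith
      calc Real.exp (w * (1 / (l : ℝ))) * (1 - (w : ℝ) / l)
          ≤ Real.exp (w * (1 / (l : ℝ))) * Real.exp (-(w / l)) :=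
            mul_le_mul_of_nonneg_left h3 (Real.exp_pos _).le
        _ = 1 := by
            rw [← Real.exp_add, mul_one_div, add_neg_cancel, Real.exp_zero]
  have hP0 : 0 < ∏ l ∈ Λ, (1 + v l) := lt_of_lt_of_le (Real.exp_pos _) hP1
  -- the Rankin factor
  have hP2 : ∏ l ∈ Λ, (1 + v l * (l : ℝ) ^ δ) ≤ (∏ l ∈ Λ, (1 + v l)) * Real.exp (8 * w) := by
    have h1 : ∀ l ∈ Λ, 1 + v l * (l : ℝ) ^ δ ≤
        (1 + v l) * Real.exp (4 * w * δ * (Real.log l / l)) := by
      intro l hl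
      obtain ⟨a, b, c, d⟩ := hmem l hl
      have hll : 0 ≤ Real.log l := Real.log_nonneg (by linarith)
      have hx0 : 0 ≤ δ * Real.log l := mul_nonneg hδ0 hll
      have hx1 : δ * Real.log l ≤ 1 := by
        rw [hδ, one_div, inv_mul_le_iff₀ hlz0, mul_one]
        exact Real.log_le_log d b
      have hpow : (l : ℝ) ^ δ = Real.exp (δ * Real.log l) := by
        rw [Real.rpow_def_of_pos d, mul_comm]
      have h2 : (l : ℝ) ^ δ ≤ 1 + 2 * (δ * Real.log l) := by
        rw [hpow]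
        have h3 := Real.abs_exp_sub_one_sub_id_le (x := δ * Real.log l)
          (by rw [abs_of_nonneg hx0]; exact hx1)
        have h4 := (abs_le.1 h3).2
        nlinarith
      have h3 : v l ≤ 2 * w / l := by
        simp only [hv]
        rw [div_le_div_iff₀ c d]
        nlinarith
      have h4 : 0 ≤ v l := hv0 l hl
      have h5 : v l * (2 * (δ * Real.log l)) ≤ 4 * w * δ * (Real.log l / l) := by
        calc v l * (2 * (δ * Real.log l)) ≤ 2 * w / l * (2 * (δ * Real.log l)) :=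
              mul_le_mul_of_nonneg_right h3 (by positivity)
          _ = _ := by ring
      have h6 := Real.add_one_le_exp (4 * w * δ * (Real.log l / l))
      have h7 : 0 ≤ 4 * w * δ * (Real.log l / l) := by positivity
      calc 1 + v l * (l : ℝ) ^ δ ≤ 1 + v l * (1 + 2 * (δ * Real.log l)) := by
            have := mul_le_mul_of_nonneg_left h2 h4
            linarith
        _ = 1 + v l + v l * (2 * (δ * Real.log l)) := by ring
        _ ≤ (1 + v l) * (4 * w * δ * (Real.log l / l) + 1) := by nlinarith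
        _ ≤ _ := mul_le_mul_of_nonneg_left h6 (by linarith)
    calc ∏ l ∈ Λ, (1 + v l * (l : ℝ) ^ δ)
        ≤ ∏ l ∈ Λ, ((1 + v l) * Real.exp (4 * w * δ * (Real.log l / l))) := by
          apply prod_le_prod _ h1
          intro l hl
          have := hv0 l hl
          positivity
      _ = (∏ l ∈ Λ, (1 + v l)) * Real.exp (4 * w * δ * ∑ l ∈ Λ, Real.log l / l) := by
          rw [prod_mul_distrib, mul_sum, Real.exp_sum]
      _ ≤ _ := by
          apply mul_le_mul_of_nonneg_left _ hP0.le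
          apply Real.exp_le_exp.2
          have h2 := sum_log_LamS z₀ Δ z hz1
          rw [← hΛ] at h2
          have h3 : Real.log z + 5 ≤ 2 * Real.log z := by linarith
          calc 4 * w * δ * ∑ l ∈ Λ, Real.log l / l ≤ 4 * w * δ * (2 * Real.log z) :=
                mul_le_mul_of_nonneg_left (h2.trans h3) (by positivity)
            _ = 8 * w := by
                rw [hδ]
                field_simp
                ring
  have hq : Real.exp (ℓ / 8) ^ (-δ) = Real.exp (-(10 * w)) := by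
    rw [← Real.exp_mul]
    congr 1
    rw [hδ, hlogz]
    field_simp
    ring
  have hhalf : Real.exp (ℓ / 8) ^ (-δ) * ∏ l ∈ Λ, (1 + v l * (l : ℝ) ^ δ) ≤
      (∏ l ∈ Λ, (1 + v l)) / 2 := by
    rw [hq]
    calc Real.exp (-(10 * w)) * ∏ l ∈ Λ, (1 + v l * (l : ℝ) ^ δ)
        ≤ Real.exp (-(10 * w)) * ((∏ l ∈ Λ, (1 + v l)) * Real.exp (8 * w)) :=
          mul_le_mul_of_nonneg_left hP2 (Real.exp_pos _).le
      _ = (∏ l ∈ Λ, (1 + v l)) * Real.exp (-(2 * w)) := by
          rw [mul_left_comm, ← Real.exp_add]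
          congr 2
          ring
      _ ≤ (∏ l ∈ Λ, (1 + v l)) * (1 / 2) := by
          apply mul_le_mul_of_nonneg_left _ hP0.le
          rw [Real.exp_neg, ← one_div]
          apply one_div_le_one_div_of_le (by norm_num)
          have := Real.add_one_le_exp (2 * (w : ℝ))
          linarith
      _ = _ := by ring
  have hfin : (ℓ / (160 * Real.exp 8 * w * Real.log z₀)) ^ w * Real.exp (-(w * fD z₀ Δ)) ≤
      (∏ l ∈ Λ, (1 + v l)) / 2 := by
    have h1 := sum_inv_LamS z₀ Δ hz₀4 hΔ z hzw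
    rw [← hΛ] at h1
    have h2 : 0 < Real.log z / Real.log z₀ := by positivity
    have h3 : Real.exp (w * (Real.log (Real.log z / Real.log z₀) - 8 - fD z₀ Δ)) ≤
        ∏ l ∈ Λ, (1 + v l) := by
      refine le_trans ?_ hP1
      apply Real.exp_le_exp.2
      exact mul_le_mul_of_nonneg_left h1 (Nat.cast_nonneg _)
    have h4 : Real.exp (w * (Real.log (Real.log z / Real.log z₀) - 8 - fD z₀ Δ)) =
        (ℓ / (80 * Real.exp 8 * w * Real.log z₀)) ^ w * Real.exp (-(w * fD z₀ Δ)) := by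
      rw [mul_sub, sub_eq_add_neg, Real.exp_add]
      congr 1
      rw [Real.exp_nat_mul, Real.exp_sub, Real.exp_log h2, hlogz]
      congr 1
      have := Real.exp_pos 8
      field_simp
    rw [h4] at h3
    have h5 : (ℓ / (160 * Real.exp 8 * w * Real.log z₀)) ^ w =
        (ℓ / (80 * Real.exp 8 * w * Real.log z₀)) ^ w / 2 ^ w := by
      rw [← div_pow]
      congr 1
      have := Real.exp_pos 8
      field_simp
      norm_num
    rw [h5]
    have h6 : (2 : ℝ) ≤ 2 ^ w := by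
      calc (2 : ℝ) = 2 ^ 1 := (pow_one _).symm
        _ ≤ 2 ^ w := pow_le_pow_right₀ (by norm_num) (by omega)
    have h7 : 0 ≤ (ℓ / (80 * Real.exp 8 * w * Real.log z₀)) ^ w := by positivity
    have h8 := Real.exp_pos (-(w * fD z₀ Δ))
    calc (ℓ / (80 * Real.exp 8 * w * Real.log z₀)) ^ w / 2 ^ w * Real.exp (-(w * fD z₀ Δ))
        ≤ (ℓ / (80 * Real.exp 8 * w * Real.log z₀)) ^ w / 2 * Real.exp (-(w * fD z₀ Δ)) :=
          mul_le_mul_of_nonneg_right (div_le_div_of_nonneg_left h7 (by norm_num) h6) h8.le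
      _ = (ℓ / (80 * Real.exp 8 * w * Real.log z₀)) ^ w * Real.exp (-(w * fD z₀ Δ)) / 2 := by
          ring
      _ ≤ _ := by linarith
  linarith

/-- A complete sum over the residues. -/
theorem sum_range_zmod (l : ℕ) [NeZero l] (f : ZMod l → ℝ) :
    ∑ x ∈ range l, f (x : ZMod l) = ∑ a : ZMod l, f a := by
  refine Finset.sum_bij' (fun x _ => (x : ZMod l)) (fun a _ => a.val) (by simp) ?_ ?_ ?_ ?_
  · intro a _
    exact mem_range.2 (ZMod.val_lt a)
  · intro x hx
    exact ZMod.val_cast_of_lt (mem_range.1 hx)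
  · intro a _
    exact ZMod.natCast_zmod_val a
  · intro x _
    rfl

theorem stSv_61 : StSv := by
  classical
  refine ⟨320 * Real.exp 8, ?_, ?_⟩
  · have := Real.add_one_le_exp 8
    linarith
  intro w z₀ X Δ S hw hz₀ hΔ hX hS hR
  set ℓ := Real.log X with hℓ
  have he8 : (9 : ℝ) ≤ Real.exp 8 := by
    have := Real.add_one_le_exp 8
    linarith
  have hwr : (2 : ℝ) ≤ w := by exact_mod_cast hw
  have hz₀4 : 4 ≤ z₀ := by omega
  have hzr : (4 : ℝ) ≤ z₀ := by exact_mod_cast hz₀4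
  have hl2 := Real.log_two_gt_d9
  have hlogz₀ : 2 * Real.log 2 ≤ Real.log z₀ := by
    have h1 : Real.log 4 ≤ Real.log z₀ := Real.log_le_log (by norm_num) hzr
    have h2 : Real.log 4 = 2 * Real.log 2 := by
      rw [show (4 : ℝ) = 2 ^ 2 by norm_num, Real.log_pow]
      norm_num
    linarith
  have hlw0 : 1 ≤ Real.log z₀ := by linarith
  have hwz : 2 ≤ w * Real.log z₀ := by nlinarith
  have hℓ1 : 800 * w * Real.log z₀ ≤ ℓ := by
    have : 320 * 9 * (w * Real.log z₀) ≤ 320 * Real.exp 8 * (w * Real.log z₀) :=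
      mul_le_mul_of_nonneg_right (by linarith) (by linarith)
    nlinarith
  have hℓ0 : 1600 ≤ ℓ := by nlinarith
  have hX0 : (0 : ℝ) < X := by
    rcases Nat.eq_zero_or_pos X with h | h
    · rw [hℓ, h, Nat.cast_zero, Real.log_zero] at hℓ0
      linarith
    · exact_mod_cast h
  have hXe : Real.exp ℓ = X := by rw [hℓ, Real.exp_log hX0]
  set z := Real.exp (ℓ / (80 * w)) with hz
  set Λ := LamS z₀ Δ ⌊z⌋₊ with hΛ
  have hRl : ∀ l : ℕ, ∃ R : Finset (ZMod l), l ∈ Λ → R.card = w ∧ ∀ n ∈ S, (n : ZMod l) ∉ R := by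
    intro l
    by_cases hl : l ∈ Λ
    · have hl' := hl
      rw [hΛ, mem_LamS] at hl'
      have h2 : (l : ℝ) ≤ z := (Nat.le_floor_iff (Real.exp_pos _).le).1 hl'.1.2
      have h3 : l ^ w ≤ X := by
        have h4 : (l : ℝ) ^ w ≤ X := by
          calc (l : ℝ) ^ w ≤ z ^ w := pow_le_pow_left₀ (Nat.cast_nonneg _) h2 w
            _ = Real.exp (ℓ / 80) := by
                rw [hz, ← Real.exp_nat_mul]
                congr 1
                field_simp
            _ ≤ Real.exp ℓ := Real.exp_le_exp.2 (by linarith)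
            _ = X := hXe
        exact_mod_cast h4
      obtain ⟨R, hR1, hR2⟩ := hR l hl'.2.1 hl'.1.1 h3 hl'.2.2
      exact ⟨R, fun _ => ⟨hR1, hR2⟩⟩
    · exact ⟨∅, fun h => absurd h hl⟩
  choose R hR' using hRl
  set I : ℕ → ℕ → ℝ := fun l x => if (x : ZMod l) ∈ R l then 0 else 1 with hI
  set Q := ⌊Real.exp (ℓ / 8)⌋₊ with hQ
  set 𝒬 := Λ.powerset.filter (fun D => ∏ l ∈ D, l ≤ Q) with h𝒬
  have hΛp : ∀ l ∈ Λ, l.Prime := fun l hl => (mem_LamS.1 hl).2.1
  have hus := Pool.Agent.Lib.MP_39b545_nt.Long.usieve Λ hΛp w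
    (fun l hl => hz₀.trans (mem_LamS.1 hl).1.1.le) I
    (by
      intro l hl t
      simp only [hI]
      have : ((t % l : ℕ) : ZMod l) = (t : ZMod l) := by
        rw [ZMod.natCast_mod]
      rw [this])
    (by
      intro l x
      simp only [hI]
      split_ifs
      · exact Or.inl rfl
      · exact Or.inr rfl)
    (by
      intro l hl
      have : NeZero l := ⟨(hΛp l hl).ne_zero⟩
      simp only [hI]
      rw [sum_range_zmod l (fun a => if a ∈ R l then (0 : ℝ) else 1)]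
      have h1 : ∀ a : ZMod l, (if a ∈ R l then (0 : ℝ) else 1) = 1 - if a ∈ R l then 1 else 0 := by
        intro a
        split_ifs <;> simp
      rw [sum_congr rfl fun a _ => h1 a, sum_sub_distrib, sum_const, card_univ, ZMod.card,
        nsmul_eq_mul, mul_one, sum_ite_mem, univ_inter, sum_const, nsmul_eq_mul, mul_one,
        (hR' l hl).1])
    Q X 𝒬
    (by
      intro D hD
      rw [h𝒬, mem_filter, mem_powerset] at hD
      exact hD)
    (by
      rw [h𝒬, mem_filter, mem_powerset]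
      refine ⟨empty_subset _, ?_⟩
      rw [prod_empty, hQ]
      apply Nat.le_floor
      push_cast
      apply Real.one_le_exp
      positivity)
    S
    (by
      intro x hx
      refine ⟨hS x hx, ?_⟩
      intro l hl
      simp only [hI]
      rw [if_neg ((hR' l hl).2 x hx)])
  have hH := H_lowS w z₀ Δ hw hz₀ hΔ ℓ hℓ1 𝒬 (filter_subset _ _) (by
    intro D hD hD'
    rw [h𝒬, mem_filter, not_and, not_le] at hD'
    have h1 := hD' hD
    exact (Nat.lt_of_floor_lt h1).le)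
  set H := ∑ D ∈ 𝒬, ∏ l ∈ D, ((w : ℝ) / (l - w)) with hHdef
  set E := Real.exp (w * fD z₀ Δ) with hE
  have hE0 : 0 < E := Real.exp_pos _
  have hfD : 0 ≤ fD z₀ Δ := by
    unfold fD
    exact sum_nonneg fun l _ => by positivity
  have hE1 : 1 ≤ E := Real.one_le_exp (by positivity)
  set a := 160 * Real.exp 8 * w * Real.log z₀ / ℓ with ha
  have hℓpos : 0 < ℓ := by linarith
  have hwlog : 0 < w * Real.log z₀ := by linarith
  have ha0 : 0 < a := by
    rw [ha]
    have : 0 < 160 * Real.exp 8 * w * Real.log z₀ := by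
      have := Real.exp_pos 8
      have h3 : 160 * Real.exp 8 * w * Real.log z₀ = 160 * Real.exp 8 * (w * Real.log z₀) := by
        ring
      rw [h3]
      positivity
    positivity
  have hinv : ℓ / (160 * Real.exp 8 * w * Real.log z₀) = a⁻¹ := by
    rw [ha, inv_div]
  rw [hinv, Real.exp_neg, ← hE, inv_pow, ← mul_inv] at hH
  have hHpos : 0 < (a ^ w * E)⁻¹ := by positivity
  have h1 : (X : ℝ) / H ≤ X * (a ^ w * E) := by
    rw [div_le_iff₀ (lt_of_lt_of_le hHpos hH)]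
    calc (X : ℝ) = X * (a ^ w * E) * (a ^ w * E)⁻¹ := by
          rw [mul_assoc, mul_inv_cancel₀ (by positivity), mul_one]
      _ ≤ X * (a ^ w * E) * H := mul_le_mul_of_nonneg_left hH (by positivity)
  have hQ1 : (Q : ℝ) ≤ Real.exp (ℓ / 8) := Nat.floor_le (Real.exp_pos _).le
  have h2 : 2 * (Q : ℝ) ^ 4 ≤ 2 * (X * Real.exp (-(ℓ / 2))) := by
    have h3 : (Q : ℝ) ^ 4 ≤ Real.exp (ℓ / 8) ^ 4 := pow_le_pow_left₀ (Nat.cast_nonneg _) hQ1 4
    have h4 : Real.exp (ℓ / 8) ^ 4 = X * Real.exp (-(ℓ / 2)) := by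
      rw [← hXe, ← Real.exp_add, ← Real.exp_nat_mul]
      congr 1
      push_cast
      ring
    linarith
  -- the power of `2 a`
  have h2a : 320 * Real.exp 8 * w * Real.log z₀ / ℓ = 2 * a := by
    rw [ha]
    ring
  rw [h2a]
  have h3 : Real.exp (-(ℓ / 8)) ≤ (2 * a) ^ w := by
    have h4 : Real.log ((2 * a)⁻¹) ≤ (2 * a)⁻¹ := by
      have := Real.log_le_sub_one_of_pos (x := (2 * a)⁻¹) (by positivity)
      linarith
    have h5 : (2 * a) ^ w = Real.exp (-(w * Real.log ((2 * a)⁻¹))) := by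
      rw [Real.log_inv, mul_neg, neg_neg, Real.exp_nat_mul, Real.exp_log (by positivity)]
    rw [h5]
    apply Real.exp_le_exp.2
    apply neg_le_neg
    calc w * Real.log ((2 * a)⁻¹) ≤ w * (2 * a)⁻¹ :=
          mul_le_mul_of_nonneg_left h4 (Nat.cast_nonneg _)
      _ = ℓ / (320 * Real.exp 8 * Real.log z₀) := by
          rw [ha]
          have := Real.exp_pos 8
          field_simp
          norm_num
      _ ≤ ℓ / 8 := by
          apply div_le_div_of_nonneg_left hℓpos.le (by norm_num)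
          nlinarith
  have h4 : 2 * (X * Real.exp (-(ℓ / 2))) ≤ X * ((2 * a) ^ w * E) / 2 := by
    have h5 : Real.exp (-(ℓ / 2)) ≤ Real.exp (-(ℓ / 8)) * (1 / 4) := by
      have h6 : Real.exp (-(ℓ / 2)) = Real.exp (-(ℓ / 8)) * Real.exp (-(3 * ℓ / 8)) := by
        rw [← Real.exp_add]
        congr 1
        ring
      rw [h6]
      apply mul_le_mul_of_nonneg_left _ (Real.exp_pos _).le
      rw [Real.exp_neg, ← one_div]
      apply one_div_le_one_div_of_le (by norm_num)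
      have := Real.add_one_le_exp (3 * ℓ / 8)
      linarith
    have h6 : Real.exp (-(ℓ / 8)) ≤ (2 * a) ^ w * E := by
      calc Real.exp (-(ℓ / 8)) ≤ (2 * a) ^ w := h3
        _ ≤ (2 * a) ^ w * E := le_mul_of_one_le_right (by positivity) hE1
    have h7 : Real.exp (-(ℓ / 2)) ≤ (2 * a) ^ w * E * (1 / 4) :=
      h5.trans (mul_le_mul_of_nonneg_right h6 (by norm_num))
    have h8 := mul_le_mul_of_nonneg_left h7 hX0.le
    linarith
  have h5 : X * (a ^ w * E) ≤ X * ((2 * a) ^ w * E) / 2 := by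
    have h6 : (2 : ℝ) ≤ 2 ^ w := by
      calc (2 : ℝ) = 2 ^ 1 := (pow_one _).symm
        _ ≤ 2 ^ w := pow_le_pow_right₀ (by norm_num) (by omega)
    have h7 : 0 ≤ X * (a ^ w * E) := by positivity
    rw [mul_pow]
    nlinarith
  calc (S.card : ℝ) ≤ X / H + 2 * (Q : ℝ) ^ 4 := hus
    _ ≤ X * ((2 * a) ^ w * E) := by linarith
    _ = X * (2 * a) ^ w * E := by ring

end Pool.Agent.Lib.MP_0f858a_nt.KR
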