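import Pool.Agent.Lib.MP_0f858a_nt.KR.Stmts84

set_option autoImplicit false

/-!
# The second moment (module SEC of KR)
-/

namespace Pool.Agent.Lib.MP_0f858a_nt.KR

namespace Sec53

open Finset Filter
open scoped Classical

lemma VS_eq (q : ℕ) (S : Finset ℕ) (a : ℕ → ℂ) :
    VS q S a = ∑ χ ∈ univ.filter (fun χ : DirichletCharacter ℂ q => χ ≠ 1),
      ‖∑ n ∈ S, a n * χ n‖ ^ 2 := by
  unfold VS
  rw [finsum_eq_sum_of_fintype, sum_filter]
  refine sum_congr rfl fun χ _ => ?_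
  rw [finsum_eq_if]

lemma card_chi (q : ℕ) [NeZero q] :
    ((univ.filter (fun χ : DirichletCharacter ℂ q => χ ≠ 1)).card : ℝ) ≤ q := by
  have h1 : (univ.filter (fun χ : DirichletCharacter ℂ q => χ ≠ 1)).card ≤
      Fintype.card (DirichletCharacter ℂ q) := card_le_univ _
  have h2 : Fintype.card (DirichletCharacter ℂ q) = q.totient := by
    rw [← Nat.card_eq_fintype_card]
    exact DirichletCharacter.card_eq_totient_of_hasEnoughRootsOfUnity ℂ q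
  have h3 := Nat.totient_le q
  exact_mod_cast h1.trans (h2.le.trans h3)

/-- the range of summation -/
noncomputable def TS (c x : ℕ) : Finset ℕ := (Ioc (x ^ 3) (TT c x)).filter (Ro (x ^ 3))

/-- the number of the block -/
def gg (x n : ℕ) : ℕ := Nat.log 2 ((n - 1) / x ^ 3)

/-- the blocks -/
noncomputable def SJ (c x j : ℕ) : Finset ℕ := (TS c x).filter (fun n => gg x n = j)

/-- the number of blocks -/
noncomputable def JJ (c x : ℕ) : ℕ := c * ⌈Real.log x⌉₊ * (Nat.log 2 x + 1)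

lemma mem_TS {c x n : ℕ} (hn : n ∈ TS c x) : x ^ 3 < n ∧ n ≤ TT c x := by
  unfold TS at hn
  exact mem_Ioc.1 (mem_filter.1 hn).1

lemma div_ne {x n : ℕ} (hx : 1 ≤ x) (hn : x ^ 3 < n) : (n - 1) / x ^ 3 ≠ 0 := by
  have h0 : 0 < x ^ 3 := by positivity
  have : 1 ≤ (n - 1) / x ^ 3 := by
    rw [Nat.le_div_iff_mul_le h0]
    omega
  omega

lemma SJ_sub {c x j : ℕ} (hx : 1 ≤ x) : SJ c x j ⊆ Ioc (x ^ 3 * 2 ^ j) (2 * (x ^ 3 * 2 ^ j)) := by
  intro n hn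
  unfold SJ at hn
  obtain ⟨h1, h2⟩ := mem_filter.1 hn
  obtain ⟨h3, -⟩ := mem_TS h1
  have h0 : 0 < x ^ 3 := by positivity
  have h4 := div_ne hx h3
  have h5 : 2 ^ j ≤ (n - 1) / x ^ 3 := by
    rw [← h2]
    exact Nat.pow_log_le_self 2 h4
  have h6 : (n - 1) / x ^ 3 < 2 ^ (j + 1) := by
    rw [← h2]
    exact Nat.lt_pow_succ_log_self (by norm_num) _
  rw [Nat.le_div_iff_mul_le h0] at h5
  rw [Nat.div_lt_iff_lt_mul h0, pow_succ] at h6
  rw [mem_Ioc]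
  constructor
  · have : x ^ 3 * 2 ^ j = 2 ^ j * x ^ 3 := mul_comm _ _
    omega
  · have : 2 * (x ^ 3 * 2 ^ j) = 2 ^ j * 2 * x ^ 3 := by ring
    omega

lemma maps {c x : ℕ} (hx : 1 ≤ x) : ∀ n ∈ TS c x, gg x n ∈ range (JJ c x) := by
  intro n hn
  obtain ⟨h3, h4⟩ := mem_TS hn
  rw [mem_range]
  unfold gg
  apply Nat.log_lt_of_lt_pow (div_ne hx h3)
  have h5 : (n - 1) / x ^ 3 ≤ n - 1 := Nat.div_le_self _ _
  have h6 : TT c x ≤ 2 ^ JJ c x := by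
    unfold TT JJ
    have h7 : x ≤ 2 ^ (Nat.log 2 x + 1) := (Nat.lt_pow_succ_log_self (by norm_num) x).le
    calc x ^ (c * ⌈Real.log x⌉₊) ≤ (2 ^ (Nat.log 2 x + 1)) ^ (c * ⌈Real.log x⌉₊) :=
          Nat.pow_le_pow_left h7 _
      _ = _ := by
          rw [← pow_mul]
          congr 1
          ring
  have h0 : 0 < x ^ 3 := by positivity
  omega

/-- the partial sums in blocks -/
lemma split {q : ℕ} (c x : ℕ) (hx : 1 ≤ x) (χ : DirichletCharacter ℂ q) :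
    ‖∑ n ∈ TS c x, χ n / (n : ℂ)‖ ^ 2 ≤
      JJ c x * ∑ j ∈ range (JJ c x), ‖∑ n ∈ SJ c x j, (1 / (n : ℂ)) * χ n‖ ^ 2 := by
  rw [← sum_fiberwise_of_maps_to (maps hx)]
  have h1 : ‖∑ j ∈ range (JJ c x), ∑ n ∈ (TS c x).filter (fun n => gg x n = j), χ n / (n : ℂ)‖ ≤
      ∑ j ∈ range (JJ c x), ‖∑ n ∈ SJ c x j, (1 / (n : ℂ)) * χ n‖ := by
    refine (norm_sum_le _ _).trans (le_of_eq ?_)
    refine sum_congr rfl fun j _ => ?_
    congr 1
    refine sum_congr rfl fun n _ => ?_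
    ring
  refine (pow_le_pow_left₀ (norm_nonneg _) h1 2).trans ?_
  have h2 := sq_sum_le_card_mul_sum_sq (s := range (JJ c x))
    (f := fun j => ‖∑ n ∈ SJ c x j, (1 / (n : ℂ)) * χ n‖)
  rw [card_range] at h2
  exact h2

/-- the sum of the squares -/
lemma sq_le {c x q : ℕ} [NeZero q] (hx : 3 ≤ x) (hq : q ∈ Pr x)
    (hT : ∀ χ : DirichletCharacter ℂ q, χ ≠ 1 →
      ‖EE (x ^ 3) χ - 1 - ∑ n ∈ (Ioc (x ^ 3) (TT c x)).filter (Ro (x ^ 3)), χ n / (n : ℂ)‖ ≤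
      1 / (x : ℝ) ^ 2) :
    SQ (x ^ 3) q ≤ 1 / 8 + 2 * (JJ c x * ∑ j ∈ range (JJ c x),
      VS q (SJ c x j) (fun n => 1 / (n : ℂ))) := by
  have hx0 : (3 : ℝ) ≤ x := by exact_mod_cast hx
  have hqx : (q : ℝ) ≤ x := by
    have : q ≤ x := (mem_Icc.1 (mem_filter.1 hq).1).2
    exact_mod_cast this
  unfold SQ
  rw [dif_neg (NeZero.ne q)]
  have h1 : ∀ χ ∈ univ.filter (fun χ : DirichletCharacter ℂ q => χ ≠ 1),
      ‖EE (x ^ 3) χ - 1‖ ^ 2 ≤ 2 * (JJ c x * ∑ j ∈ range (JJ c x),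
        ‖∑ n ∈ SJ c x j, (1 / (n : ℂ)) * χ n‖ ^ 2) + 2 * (1 / (x : ℝ) ^ 2) ^ 2 := by
    intro χ hχ
    have h2 := hT χ (mem_filter.1 hχ).2
    have h3 := split c x (by omega) χ
    set F : ℂ := ∑ n ∈ TS c x, χ n / (n : ℂ) with hF
    have h4 : ‖EE (x ^ 3) χ - 1‖ ≤ ‖F‖ + 1 / (x : ℝ) ^ 2 := by
      have : EE (x ^ 3) χ - 1 = F + (EE (x ^ 3) χ - 1 - F) := by ring
      rw [this]
      exact (norm_add_le _ _).trans (add_le_add le_rfl h2)
    have h5 : ‖EE (x ^ 3) χ - 1‖ ^ 2 ≤ (‖F‖ + 1 / (x : ℝ) ^ 2) ^ 2 :=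
      pow_le_pow_left₀ (norm_nonneg _) h4 2
    nlinarith [sq_nonneg (‖F‖ - 1 / (x : ℝ) ^ 2)]
  refine (sum_le_sum h1).trans ?_
  rw [sum_add_distrib, ← mul_sum, ← mul_sum, sum_comm, sum_const, nsmul_eq_mul]
  have h2 : ∑ j ∈ range (JJ c x), ∑ χ ∈ univ.filter (fun χ : DirichletCharacter ℂ q => χ ≠ 1),
      ‖∑ n ∈ SJ c x j, (1 / (n : ℂ)) * χ n‖ ^ 2 =
      ∑ j ∈ range (JJ c x), VS q (SJ c x j) (fun n => 1 / (n : ℂ)) := by
    refine sum_congr rfl fun j _ => ?_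
    rw [VS_eq]
    congr!
  rw [h2]
  have h3 := card_chi q
  have h4 : ((univ.filter (fun χ : DirichletCharacter ℂ q => χ ≠ 1)).card : ℝ) *
      (2 * (1 / (x : ℝ) ^ 2) ^ 2) ≤ 1 / 8 := by
    calc ((univ.filter (fun χ : DirichletCharacter ℂ q => χ ≠ 1)).card : ℝ) *
          (2 * (1 / (x : ℝ) ^ 2) ^ 2) ≤ x * (2 * (1 / (x : ℝ) ^ 2) ^ 2) :=
          mul_le_mul_of_nonneg_right (h3.trans hqx) (by positivity)
      _ = 2 / (x : ℝ) ^ 3 := by
          field_simp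
      _ ≤ 2 / 3 ^ 3 := by
          gcongr
      _ ≤ 1 / 8 := by norm_num
  linarith

/-- one block -/
lemma block {C : ℝ} (hC : 0 < C) {x M : ℕ} (hx : 1 ≤ x) (hM : x ^ 3 ≤ M) {S : Finset ℕ}
    (hS : S ⊆ Ioc M (2 * M)) :
    C * (M + (x : ℝ) ^ 2) * ∑ n ∈ S, ‖(1 / (n : ℂ))‖ ^ 2 ≤ 2 * C := by
  have hx0 : (1 : ℝ) ≤ x := by exact_mod_cast hx
  have hM1 : 1 ≤ M := le_trans (Nat.one_le_iff_ne_zero.2 (by positivity)) hM
  have hM0 : (0 : ℝ) < M := by exact_mod_cast hM1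
  have hMx : (x : ℝ) ^ 2 ≤ M := by
    have h1 : (x : ℝ) ^ 3 ≤ M := by exact_mod_cast hM
    have h2 : (x : ℝ) ^ 2 ≤ (x : ℝ) ^ 3 := pow_le_pow_right₀ hx0 (by norm_num)
    linarith
  have h1 : ∑ n ∈ S, ‖(1 / (n : ℂ))‖ ^ 2 ≤ ∑ n ∈ Ioc M (2 * M), 1 / (M : ℝ) ^ 2 := by
    refine (sum_le_sum_of_subset_of_nonneg hS fun _ _ _ => sq_nonneg _).trans ?_
    refine sum_le_sum fun n hn => ?_
    have h2 : (M : ℝ) ≤ n := by exact_mod_cast (mem_Ioc.1 hn).1.le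
    rw [norm_div, norm_one, Complex.norm_natCast, div_pow, one_pow]
    gcongr
  rw [sum_const, Nat.card_Ioc, nsmul_eq_mul] at h1
  have h2 : ((2 * M - M : ℕ) : ℝ) = M := by
    have : 2 * M - M = M := by omega
    rw [this]
  rw [h2] at h1
  calc C * (M + (x : ℝ) ^ 2) * ∑ n ∈ S, ‖(1 / (n : ℂ))‖ ^ 2
      ≤ C * (M + M) * (M * (1 / (M : ℝ) ^ 2)) := by
        apply mul_le_mul
        · gcongr
        · exact h1
        · exact sum_nonneg fun _ _ => sq_nonneg _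
        · positivity
    _ = 2 * C := by
        field_simp
        ring

lemma JJ_le {c x : ℕ} (hx : 1 ≤ Real.log x) : (JJ c x : ℝ) ≤ 6 * c * Real.log x ^ 2 := by
  set L := Real.log x with hL
  have hx1 : 1 ≤ x := by
    by_contra h
    have : x = 0 := by omega
    rw [hL, this] at hx
    norm_num at hx
  have h1 : ((⌈L⌉₊ : ℕ) : ℝ) ≤ 2 * L := by
    have := Nat.ceil_lt_add_one (show 0 ≤ L by linarith)
    linarith
  have h2 : ((Nat.log 2 x + 1 : ℕ) : ℝ) ≤ 3 * L := by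
    push_cast
    have h3 : ((Nat.log 2 x : ℕ) : ℝ) ≤ Real.logb 2 x := Real.natLog_le_logb x 2
    have h4 : Real.logb 2 x = L / Real.log 2 := rfl
    have h5 : (0.6931471803 : ℝ) < Real.log 2 := Real.log_two_gt_d9
    have h6 : L / Real.log 2 ≤ 2 * L := by
      rw [div_le_iff₀ (by linarith)]
      nlinarith
    linarith
  unfold JJ
  rw [Nat.cast_mul, Nat.cast_mul]
  calc (c : ℝ) * (⌈L⌉₊ : ℕ) * ((Nat.log 2 x + 1 : ℕ) : ℝ) ≤ c * (2 * L) * (3 * L) := by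
        gcongr
    _ = _ := by ring

end Sec53

open Finset Filter Sec53
open scoped Classical

/-- Module SEC. -/
theorem stSec_53 (hTail : StTail) (hMls : StMls) : StSec := by
  obtain ⟨c, x₁, hT⟩ := hTail
  obtain ⟨C, hC, hM⟩ := hMls
  intro A
  -- the size of `x`
  have hlim : ∀ᶠ x : ℕ in atTop, 32 * C * (36 * (c : ℝ) ^ 2) * Real.log x ^ (4 + A) ≤ x := by
    have h1 : ∀ᶠ y : ℝ in atTop, 32 * C * (36 * (c : ℝ) ^ 2) * Real.log y ^ (4 + A) ≤ y := by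
      set K : ℝ := 32 * C * (36 * (c : ℝ) ^ 2) with hK
      have hK0 : 0 ≤ K := by positivity
      have h2 := (Real.isLittleO_pow_log_id_atTop (n := 4 + A)).bound
        (show (0 : ℝ) < 1 / (K + 1) by positivity)
      filter_upwards [h2, eventually_ge_atTop (1 : ℝ)] with y hy hy1
      rw [id, Real.norm_eq_abs, Real.norm_eq_abs, abs_of_nonneg (by linarith : (0 : ℝ) ≤ y)] at hy
      have h3 := le_abs_self (Real.log y ^ (4 + A))
      have h4 : 0 ≤ |Real.log y ^ (4 + A)| := abs_nonneg _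
      have h5 : (K + 1) * |Real.log y ^ (4 + A)| ≤ y := by
        rw [one_div, inv_mul_eq_div, le_div_iff₀ (by positivity)] at hy
        linarith
      nlinarith
    exact tendsto_natCast_atTop_atTop.eventually h1
  have hlog : ∀ᶠ x : ℕ in atTop, 1 ≤ Real.log (x : ℝ) :=
    (Real.tendsto_log_atTop.comp tendsto_natCast_atTop_atTop).eventually_ge_atTop 1
  obtain ⟨x₀, hx₀⟩ := ((hlim.and hlog).and
    ((eventually_ge_atTop x₁).and (eventually_ge_atTop 3))).exists_forall_of_atTop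
  refine ⟨x₀, ?_⟩
  intro x hx
  obtain ⟨⟨h1, h2⟩, h3, h4⟩ := hx₀ x hx
  set L := Real.log x with hL
  have hL0 : 0 < L := by linarith
  set B := (Pr x).filter (fun q => 1 / 4 < SQ (x ^ 3) q) with hB
  set J := JJ c x with hJ
  have hJ1 : (J : ℝ) ≤ 6 * c * L ^ 2 := JJ_le h2
  -- the lower bound
  have h5 : ∀ q ∈ B, 1 / 16 ≤ (J : ℝ) * ∑ j ∈ range J, VS q (SJ c x j) (fun n => 1 / (n : ℂ)) := by
    intro q hq
    obtain ⟨hq1, hq2⟩ := mem_filter.1 hq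
    have hq0 : 1 ≤ q := (mem_Icc.1 (mem_filter.1 hq1).1).1
    haveI : NeZero q := ⟨by omega⟩
    have := sq_le h4 hq1 (hT x h3 q hq1)
    linarith
  have h6 : (B.card : ℝ) * (1 / 16) ≤ J * ∑ j ∈ range J,
      ∑ q ∈ (Icc 1 x).filter Nat.Prime, VS q (SJ c x j) (fun n => 1 / (n : ℂ)) := by
    have e1 : (B.card : ℝ) * (1 / 16) = ∑ q ∈ B, (1 / 16 : ℝ) := by
      rw [sum_const, nsmul_eq_mul]
    rw [e1]
    refine (sum_le_sum h5).trans ?_
    rw [← mul_sum, sum_comm]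
    refine mul_le_mul_of_nonneg_left ?_ (Nat.cast_nonneg _)
    refine sum_le_sum fun j _ => ?_
    refine sum_le_sum_of_subset_of_nonneg ?_ ?_
    · intro q hq
      have hq1 := (mem_filter.1 hq).1
      unfold Pr at hq1
      obtain ⟨a1, a2⟩ := mem_filter.1 hq1
      exact mem_filter.2 ⟨a1, a2.1⟩
    · intro q _ _
      rw [VS_eq]
      exact sum_nonneg fun _ _ => sq_nonneg _
  have h7 : ∀ j ∈ range J, ∑ q ∈ (Icc 1 x).filter Nat.Prime,
      VS q (SJ c x j) (fun n => 1 / (n : ℂ)) ≤ 2 * C := by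
    intro j _
    have hx1 : 1 ≤ x := by omega
    have hM1 : x ^ 3 ≤ x ^ 3 * 2 ^ j := Nat.le_mul_of_pos_right _ (by positivity)
    have hM2 : 1 ≤ x ^ 3 * 2 ^ j := Nat.one_le_iff_ne_zero.2 (by positivity)
    refine (hM x (x ^ 3 * 2 ^ j) (SJ c x j) (fun n => 1 / (n : ℂ)) hx1 hM2 (SJ_sub hx1)).trans ?_
    exact block hC hx1 hM1 (SJ_sub hx1)
  have h8 : (B.card : ℝ) * (1 / 16) ≤ J * (J * (2 * C)) := by
    refine h6.trans (mul_le_mul_of_nonneg_left ?_ (Nat.cast_nonneg _))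
    refine (sum_le_sum h7).trans (le_of_eq ?_)
    rw [sum_const, card_range, nsmul_eq_mul]
  have h9 : (B.card : ℝ) ≤ 32 * C * (36 * (c : ℝ) ^ 2) * L ^ 4 := by
    have e1 : (J : ℝ) * J ≤ (6 * c * L ^ 2) * (6 * c * L ^ 2) :=
      mul_le_mul hJ1 hJ1 (Nat.cast_nonneg _) (by positivity)
    nlinarith
  rw [le_div_iff₀ (by positivity)]
  calc (B.card : ℝ) * L ^ A ≤ (32 * C * (36 * (c : ℝ) ^ 2) * L ^ 4) * L ^ A :=
        mul_le_mul_of_nonneg_right h9 (by positivity)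
    _ = 32 * C * (36 * (c : ℝ) ^ 2) * L ^ (4 + A) := by ring
    _ ≤ x := h1

end Pool.Agent.Lib.MP_0f858a_nt.KR
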