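import Pool.Agent.Lib.MP_0f858a_nt.KR.Stmts84

/-!
# The small `k`
-/

set_option autoImplicit false

namespace Pool.Agent.Lib.MP_0f858a_nt.KR

open Finset Filter
open scoped Classical

/-! ### The sieve conditions -/

/-- The product of the elements of `T` and of their differences. -/
noncomputable def DeT (T : Finset ℕ) : ℕ :=
  (∏ k ∈ T, k) * ∏ p ∈ T.offDiag, ((p.1 - p.2) + (p.2 - p.1))

theorem DeT_ne_zero (T : Finset ℕ) (h : ∀ k ∈ T, 1 ≤ k) : DeT T ≠ 0 := by
  unfold DeT
  rw [mul_ne_zero_iff, prod_ne_zero_iff, prod_ne_zero_iff]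
  refine ⟨fun k hk => ?_, fun p hp => ?_⟩
  · have := h k hk
    omega
  · rw [mem_offDiag] at hp
    have := hp.2.2
    omega

theorem DeT_le (T : Finset ℕ) (M : ℕ) (hM : 1 ≤ M) (h : ∀ k ∈ T, k ≤ M) :
    DeT T ≤ M ^ (T.card + T.card ^ 2) := by
  unfold DeT
  rw [pow_add]
  apply Nat.mul_le_mul
  · exact prod_le_pow_card T _ M h
  · refine (prod_le_pow_card _ _ M ?_).trans ?_
    · intro p hp
      rw [mem_offDiag] at hp
      have h1 := h p.1 hp.1
      have h2 := h p.2 hp.2.1
      omega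
    · apply Nat.pow_le_pow_right hM
      rw [offDiag_card, sq]
      omega

theorem pk_sieve (b : Bool) (T : Finset ℕ) (l : ℕ) (hl : l.Prime) (hΔ : ¬ l ∣ DeT T)
    (x w : ℕ) (hx : 16 ≤ x) (hw : T.card + 1 = w) (hw3 : 3 ≤ w) (hlw : l ^ w ≤ x + 1)
    (hT : ∀ k ∈ T, 1 ≤ k) :
    ∃ R : Finset (ZMod l), R.card = w ∧
      ∀ n ∈ (Pr x).filter (fun q => ∀ k ∈ T, (pk b q k).Prime), (n : ZMod l) ∉ R := by
  have : Fact l.Prime := ⟨hl⟩
  have hk0 : ∀ k ∈ T, (k : ZMod l) ≠ 0 := by
    intro k hk h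
    rw [ZMod.natCast_eq_zero_iff] at h
    exact hΔ ((h.trans (dvd_prod_of_mem _ hk)).mul_right _)
  have hinj : ∀ k ∈ T, ∀ k' ∈ T, (k : ZMod l) = (k' : ZMod l) → k = k' := by
    intro k hk k' hk' h
    by_contra hne
    apply hΔ
    apply Dvd.dvd.mul_left
    have hmem : (k, k') ∈ T.offDiag := mem_offDiag.2 ⟨hk, hk', hne⟩
    refine dvd_trans ?_ (dvd_prod_of_mem _ hmem)
    simp only
    rw [← ZMod.natCast_eq_zero_iff]
    rcases le_total k k' with h1 | h1
    · rw [Nat.sub_eq_zero_of_le h1, zero_add, Nat.cast_sub h1, h, sub_self]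
    · rw [Nat.sub_eq_zero_of_le h1, add_zero, Nat.cast_sub h1, h, sub_self]
  set c : ZMod l := if b then -1 else 1 with hc
  have hc0 : c ≠ 0 := by
    rw [hc]
    split_ifs
    · exact neg_ne_zero.2 one_ne_zero
    · exact one_ne_zero
  refine ⟨insert 0 (T.image fun k : ℕ => c * (k : ZMod l)⁻¹), ?_, ?_⟩
  · rw [card_insert_of_notMem, card_image_of_injOn, hw]
    · intro k hk k' hk' h
      simp only at h
      exact hinj k hk k' hk' (inv_injective (mul_left_cancel₀ hc0 h))
    · rw [mem_image]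
      rintro ⟨k, hk, h⟩
      exact (mul_ne_zero hc0 (inv_ne_zero (hk0 k hk))) h
  · intro n hn h
    rw [mem_filter, Pr, mem_filter, mem_Icc] at hn
    obtain ⟨⟨⟨h1, h2⟩, h3, h4⟩, h5⟩ := hn
    have hl3 : l ^ 3 ≤ x + 1 := (Nat.pow_le_pow_right hl.pos hw3).trans hlw
    have hln : l + 1 < n := by
      by_contra hcon
      push Not at hcon
      have h6 : 4 < n := by
        by_contra h7
        push Not at h7
        have : n ^ 2 ≤ 4 ^ 2 := Nat.pow_le_pow_left h7 2
        omega
      have h7 : n ^ 2 ≤ (l + 1) ^ 2 := Nat.pow_le_pow_left hcon 2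
      have h8 : 4 ≤ l := by omega
      have h9 : l ^ 3 ≤ (l + 1) ^ 2 := by omega
      have h10 : 4 * l ^ 2 ≤ l ^ 3 := by
        rw [pow_succ l 2, mul_comm]
        exact Nat.mul_le_mul_left _ h8
      nlinarith
    rw [mem_insert, mem_image] at h
    rcases h with h | ⟨k, hk, h⟩
    · rw [ZMod.natCast_eq_zero_iff] at h
      have := (Nat.prime_dvd_prime_iff_eq hl h3).1 h
      omega
    · have h6 := h5 k hk
      have h7 := hT k hk
      have h8 : n ≤ k * n := Nat.le_mul_of_pos_left n h7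
      have h9 : (k : ZMod l) * n = c := by
        rw [← h, mul_comm c, ← mul_assoc, mul_inv_cancel₀ (hk0 k hk), one_mul]
      rcases Bool.eq_false_or_eq_true b with hb | hb
      · rw [hb] at h6 hc
        rw [if_pos rfl] at hc
        unfold pk at h6
        rw [if_pos rfl] at h6
        have h10 : l ∣ k * n + 1 := by
          rw [← ZMod.natCast_eq_zero_iff]
          push_cast
          rw [h9, hc]
          ring
        have := (Nat.prime_dvd_prime_iff_eq hl h6).1 h10
        omega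
      · rw [hb] at h6 hc
        simp only [Bool.false_eq_true, if_false] at hc
        unfold pk at h6
        simp only [Bool.false_eq_true, if_false] at h6
        have h10 : l ∣ k * n - 1 := by
          rw [← ZMod.natCast_eq_zero_iff, Nat.cast_sub (by omega)]
          push_cast
          rw [h9, hc]
          ring
        have := (Nat.prime_dvd_prime_iff_eq hl h6).1 h10
        omega

/-! ### The size of the parameters -/

/-- `(log x) ^ (1/8)` -/
noncomputable def U8 (x : ℕ) : ℝ := Real.log x ^ (1 / 8 : ℝ)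

theorem U8_tendsto : Tendsto U8 atTop atTop :=
  (tendsto_rpow_atTop (by norm_num)).comp
    (Real.tendsto_log_atTop.comp tendsto_natCast_atTop_atTop)

theorem U8_pow (x : ℕ) : U8 x ^ 8 = Real.log x := by
  unfold U8
  rw [← Real.rpow_natCast, ← Real.rpow_mul (Real.log_natCast_nonneg x)]
  norm_num

theorem K8_le (x : ℕ) : (K8 x : ℝ) ≤ 2 * Real.exp (U8 x) := by
  have h1 : (K8 x : ℝ) < Real.exp (U8 x) + 1 := Nat.ceil_lt_add_one (Real.exp_pos _).le
  have h2 : 1 ≤ Real.exp (U8 x) := by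
    apply Real.one_le_exp
    unfold U8
    exact Real.rpow_nonneg (Real.log_natCast_nonneg x) _
  linarith

theorem K8_pos (x : ℕ) : 1 ≤ K8 x := by
  unfold K8
  exact Nat.one_le_iff_ne_zero.2 (Nat.ceil_pos.2 (Real.exp_pos _)).ne'

theorem two_pow_card_primeFactors (n : ℕ) (hn : n ≠ 0) : 2 ^ n.primeFactors.card ≤ n := by
  calc 2 ^ n.primeFactors.card ≤ ∏ p ∈ n.primeFactors, p := by
        apply Finset.pow_card_le_prod
        intro p hp
        exact (Nat.prime_of_mem_primeFactors hp).two_le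
    _ ≤ n := Nat.le_of_dvd (Nat.pos_of_ne_zero hn) (Nat.prod_primeFactors_dvd n)

theorem fD_le (z₀ Δ : ℕ) (hz : 1 ≤ z₀) : fD z₀ Δ ≤ Δ.primeFactors.card / z₀ := by
  unfold fD
  have hz' : (1 : ℝ) ≤ z₀ := by exact_mod_cast hz
  calc ∑ l ∈ Δ.primeFactors.filter (fun l => z₀ < l), 1 / (l : ℝ)
      ≤ ∑ l ∈ Δ.primeFactors.filter (fun l => z₀ < l), 1 / (z₀ : ℝ) := by
        apply sum_le_sum
        intro l hl
        rw [mem_filter] at hl
        apply one_div_le_one_div_of_le (by linarith)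
        exact_mod_cast hl.2.le
    _ = (Δ.primeFactors.filter (fun l => z₀ < l)).card / z₀ := by
        rw [sum_const, nsmul_eq_mul, mul_one_div]
    _ ≤ Δ.primeFactors.card / z₀ := by
        apply div_le_div_of_nonneg_right _ (by linarith)
        exact_mod_cast card_le_card (filter_subset _ _)

/-- The number of `q` for which all `k q ± 1`, `k ∈ T`, are prime. -/
theorem tuple_bound (hSv : StSv) (m : ℕ) (hm : 2 ≤ m) : ∀ᶠ x : ℕ in atTop, ∀ (b : Bool)
    (T : Finset ℕ), T.card = m → (∀ k ∈ T, 1 ≤ k ∧ k ≤ 2 * K8 x) →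
    (((Pr x).filter (fun q => ∀ k ∈ T, (pk b q k).Prime)).card : ℝ) ≤
      x * (U8 x / U8 x ^ (8 * (m + 1))) := by
  obtain ⟨C, hC, hsv⟩ := hSv
  set w := m + 1 with hw
  have hwr : (3 : ℝ) ≤ w := by exact_mod_cast (by omega : 3 ≤ m + 1)
  have hmr : (2 : ℝ) ≤ m := by exact_mod_cast hm
  have hF0 : 0 < 2 * Real.exp 1 * (16 * C * w) ^ w := by
    have := Real.exp_pos 1
    have : 0 < 16 * C * w := by nlinarith
    positivity
  have hlog : ∀ᶠ u : ℝ in atTop, 2 * Real.exp 1 * (16 * C * w * Real.log u) ^ w ≤ u := by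
    have h1 := (Real.isLittleO_pow_log_id_atTop (n := w)).def (inv_pos.2 hF0)
    filter_upwards [h1, eventually_ge_atTop 1] with u hu hu1
    simp only [id, Real.norm_eq_abs, abs_pow] at hu
    rw [abs_of_nonneg (Real.log_nonneg hu1), abs_of_nonneg (by linarith), inv_mul_eq_div,
      le_div_iff₀ hF0] at hu
    rw [mul_pow]
    linarith
  have hev := U8_tendsto.eventually (hlog.and (eventually_ge_atTop
    ((2 * w * (m + m ^ 2) + 2 * w + 4 : ℕ) : ℝ)))
  filter_upwards [hev, eventually_ge_atTop 16] with x hx hx16 b T hTc hT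
  obtain ⟨hx1, hx2⟩ := hx
  set u := U8 x with hu
  push_cast at hx2
  have hm2 : 0 ≤ (w : ℝ) * (m + m ^ 2) := by positivity
  have hu4 : 4 ≤ u := by linarith
  have huw : 2 * (w : ℝ) ≤ u := by linarith
  have hlx : u ^ 8 = Real.log x := U8_pow x
  set z₀ := ⌊u ^ 16⌋₊ with hz₀
  have hu1 : 1 ≤ u := by linarith
  have hu8 : u ≤ u ^ 8 := le_self_pow₀ hu1 (by norm_num)
  have hu16 : u ^ 8 + 1 ≤ u ^ 16 := by
    have h1 : u ^ 16 = u ^ 8 * u ^ 8 := by ring
    nlinarith
  have hz1 : u ^ 8 ≤ z₀ := by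
    have := Nat.lt_floor_add_one (u ^ 16)
    linarith
  have hz2 : (z₀ : ℝ) ≤ u ^ 16 := Nat.floor_le (by positivity)
  have hzw : 2 * w ≤ z₀ := by
    have : 2 * (w : ℝ) ≤ z₀ := by linarith
    exact_mod_cast this
  have hz₀1 : 1 ≤ z₀ := by omega
  have hz₀r : (1 : ℝ) ≤ z₀ := by exact_mod_cast hz₀1
  have hlz : Real.log z₀ ≤ 16 * Real.log u := by
    calc Real.log z₀ ≤ Real.log (u ^ 16) := Real.log_le_log (by linarith) hz2
      _ = _ := by
        rw [Real.log_pow]
        norm_num
  have hlz0 : 0 ≤ Real.log z₀ := Real.log_nonneg hz₀r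
  have hlu0 : 0 ≤ Real.log u := Real.log_nonneg hu1
  have hT1 : ∀ k ∈ T, 1 ≤ k := fun k hk => (hT k hk).1
  have hΔ := DeT_ne_zero T hT1
  have hlX : u ^ 8 ≤ Real.log ((x + 1 : ℕ) : ℝ) := by
    rw [hlx]
    apply Real.log_le_log
    · have : 0 < x := by omega
      exact_mod_cast this
    · push_cast
      linarith
  have hCw : C * w * Real.log z₀ ≤ 16 * C * w * Real.log u := by
    have : 0 ≤ C * w := by positivity
    nlinarith
  have hy : 16 * C * w * Real.log u ≤ u ^ 8 := by
    by_contra hcon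
    push Not at hcon
    have h1 : 1 ≤ 16 * C * w * Real.log u := by
      have : 1 ≤ u ^ 8 := one_le_pow₀ hu1
      linarith
    have h2 : 16 * C * w * Real.log u ≤ (16 * C * w * Real.log u) ^ w :=
      le_self_pow₀ h1 (by omega)
    have h3 := Real.add_one_le_exp 1
    have h4 : 1 * (16 * C * w * Real.log u) ^ w ≤
        2 * Real.exp 1 * (16 * C * w * Real.log u) ^ w :=
      mul_le_mul_of_nonneg_right (by linarith) (by linarith)
    linarith
  have hfd : w * fD z₀ (DeT T) ≤ 1 := by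
    have h1 := fD_le z₀ (DeT T) hz₀1
    have h2 := two_pow_card_primeFactors (DeT T) hΔ
    have h3 := DeT_le T (2 * K8 x) (by have := K8_pos x; omega) (fun k hk => (hT k hk).2)
    set n := (DeT T).primeFactors.card with hn
    have h4 : (2 : ℝ) ^ n ≤ (2 * (K8 x : ℝ)) ^ (m + m ^ 2) := by
      have := h2.trans h3
      rw [hTc] at this
      exact_mod_cast this
    have hK := K8_le x
    rw [← hu] at hK
    have hK1 : (1 : ℝ) ≤ K8 x := by exact_mod_cast K8_pos x
    have h5 : n * Real.log 2 ≤ (m + m ^ 2) * (2 * Real.log 2 + u) := by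
      have h6 := Real.log_le_log (by positivity) h4
      rw [Real.log_pow, Real.log_pow] at h6
      have h7 : Real.log (2 * (K8 x : ℝ)) ≤ 2 * Real.log 2 + u := by
        calc Real.log (2 * (K8 x : ℝ)) ≤ Real.log (2 ^ 2 * Real.exp u) :=
              Real.log_le_log (by linarith) (by linarith)
          _ = _ := by
              rw [Real.log_mul (by norm_num) (Real.exp_pos _).ne', Real.log_exp, Real.log_pow]
              norm_num
      push_cast at h6
      have h8 : (0 : ℝ) ≤ m + m ^ 2 := by positivity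
      exact h6.trans (mul_le_mul_of_nonneg_left h7 h8)
    have hl2 := Real.log_two_gt_d9
    have hl3 := Real.log_two_lt_d9
    have h8 : (0 : ℝ) ≤ m + m ^ 2 := by positivity
    have h9 : (n : ℝ) ≤ (m + m ^ 2) * (2 * u) := by
      have h10 : (m + m ^ 2) * (2 * Real.log 2 + u) ≤ (m + m ^ 2) * (2 * u) * Real.log 2 := by
        rw [mul_assoc (m + m ^ 2 : ℝ)]
        apply mul_le_mul_of_nonneg_left _ h8
        nlinarith
      have h11 : 0 < Real.log 2 := by linarith
      exact le_of_mul_le_mul_right (h5.trans h10) h11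
    calc w * fD z₀ (DeT T) ≤ w * (n / z₀) := mul_le_mul_of_nonneg_left h1 (by positivity)
      _ ≤ 1 := by
        rw [mul_div_assoc', div_le_one (by linarith)]
        calc (w : ℝ) * n ≤ w * ((m + m ^ 2) * (2 * u)) :=
              mul_le_mul_of_nonneg_left h9 (by positivity)
          _ = (2 * w * (m + m ^ 2)) * u := by ring
          _ ≤ u * u := mul_le_mul_of_nonneg_right (by linarith) (by linarith)
          _ = u ^ 2 := by ring
          _ ≤ u ^ 8 := pow_le_pow_right₀ hu1 (by norm_num)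
          _ ≤ z₀ := hz1
  have hmain := hsv w z₀ (x + 1) (DeT T)
    ((Pr x).filter (fun q => ∀ k ∈ T, (pk b q k).Prime)) (by omega) hzw hΔ
    (by linarith)
    (by
      intro n hn
      rw [mem_filter, Pr, mem_filter, mem_Icc] at hn
      omega)
    (by
      intro l hl _ hlw hlΔ
      exact pk_sieve b T l hl hlΔ x w hx16 (by omega) (by omega) hlw hT1)
  refine hmain.trans ?_
  have hu80 : 0 < u ^ 8 := by positivity
  have h1 : (C * w * Real.log z₀ / Real.log ((x + 1 : ℕ) : ℝ)) ^ w ≤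
      (16 * C * w * Real.log u / u ^ 8) ^ w := by
    apply pow_le_pow_left₀
    · apply div_nonneg _ (by linarith)
      positivity
    · apply div_le_div₀ _ hCw hu80 hlX
      positivity
  have h2 : Real.exp (w * fD z₀ (DeT T)) ≤ Real.exp 1 := Real.exp_le_exp.2 hfd
  have hxr : (1 : ℝ) ≤ x := by exact_mod_cast (by omega : 1 ≤ x)
  have h3 : ((x + 1 : ℕ) : ℝ) ≤ 2 * x := by
    push_cast
    linarith
  calc ((x + 1 : ℕ) : ℝ) * (C * w * Real.log z₀ / Real.log ((x + 1 : ℕ) : ℝ)) ^ w *
        Real.exp (w * fD z₀ (DeT T))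
      ≤ 2 * x * (16 * C * w * Real.log u / u ^ 8) ^ w * Real.exp 1 := by
        apply mul_le_mul _ h2 (Real.exp_pos _).le (by positivity)
        apply mul_le_mul h3 h1 _ (by positivity)
        apply pow_nonneg
        apply div_nonneg _ (by linarith)
        positivity
    _ = x * ((2 * Real.exp 1 * (16 * C * w * Real.log u) ^ w) / u ^ (8 * w)) := by
        rw [div_pow, ← pow_mul]
        ring
    _ ≤ x * (u / u ^ (8 * w)) := by
        apply mul_le_mul_of_nonneg_left _ (by linarith)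
        apply div_le_div_of_nonneg_right hx1 (by positivity)

/-! ### Dyadic blocks -/

/-- The number of `k` in `[2 ^ j, 2 ^ (j + 1))` for which `k q ± 1` is prime. -/
noncomputable def NB (b : Bool) (q j : ℕ) : ℕ :=
  ((Ico (2 ^ j) (2 ^ (j + 1))).filter (fun k => (pk b q k).Prime)).card

theorem ZS_le_NB (b : Bool) (q K : ℕ) :
    ZS b q 0 K ≤ ∑ j ∈ range (Nat.log 2 K + 1), (NB b q j : ℝ) / 2 ^ j := by
  unfold ZS
  rw [← sum_fiberwise_of_maps_to (g := Nat.log 2) (t := range (Nat.log 2 K + 1))]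
  · apply sum_le_sum
    intro j _
    have h1 : ((((Ioc 0 K).filter (fun k => (pk b q k).Prime)).filter
        (fun k => Nat.log 2 k = j)).card : ℝ) ≤ NB b q j := by
      unfold NB
      exact_mod_cast card_le_card (by
        intro k hk
        rw [mem_filter, mem_filter, mem_Ioc] at hk
        obtain ⟨⟨⟨h1, h2⟩, h3⟩, h4⟩ := hk
        rw [mem_filter, mem_Ico]
        have h5 := (Nat.log_eq_iff (Or.inr ⟨by norm_num, by omega⟩)).1 h4
        exact ⟨h5, h3⟩)
    calc ∑ k ∈ ((Ioc 0 K).filter (fun k => (pk b q k).Prime)).filter (fun k => Nat.log 2 k = j),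
          1 / (k : ℝ)
        ≤ ∑ k ∈ ((Ioc 0 K).filter (fun k => (pk b q k).Prime)).filter
            (fun k => Nat.log 2 k = j), 1 / (2 : ℝ) ^ j := by
          apply sum_le_sum
          intro k hk
          rw [mem_filter, mem_filter, mem_Ioc] at hk
          apply one_div_le_one_div_of_le (by positivity)
          have h5 := (Nat.log_eq_iff (Or.inr ⟨by norm_num, by omega⟩)).1 hk.2
          exact_mod_cast h5.1
      _ = ((((Ioc 0 K).filter (fun k => (pk b q k).Prime)).filter
            (fun k => Nat.log 2 k = j)).card : ℝ) / 2 ^ j := by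
          rw [sum_const, nsmul_eq_mul, mul_one_div]
      _ ≤ _ := div_le_div_of_nonneg_right h1 (by positivity)
  · intro k hk
    rw [mem_filter, mem_Ioc] at hk
    rw [mem_range]
    exact Nat.lt_succ_of_le (Nat.log_mono_right hk.1.2)

theorem choose_NB (b : Bool) (q j m : ℕ) :
    ((NB b q j).choose m : ℝ) = ∑ T ∈ powersetCard m (Ico (2 ^ j) (2 ^ (j + 1))),
      if ∀ k ∈ T, (pk b q k).Prime then (1 : ℝ) else 0 := by
  unfold NB
  rw [← card_powersetCard, ← sum_filter, sum_const, nsmul_eq_mul, mul_one]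
  congr 2
  ext T
  rw [mem_filter, mem_powersetCard, mem_powersetCard]
  constructor
  · rintro ⟨h1, h2⟩
    refine ⟨⟨h1.trans (filter_subset _ _), h2⟩, ?_⟩
    intro k hk
    exact (mem_filter.1 (h1 hk)).2
  · rintro ⟨⟨h1, h2⟩, h3⟩
    refine ⟨?_, h2⟩
    intro k hk
    exact mem_filter.2 ⟨h1 hk, h3 k hk⟩

/-- The moment bound. -/
theorem moment (b : Bool) (x m j : ℕ) (B : ℝ)
    (h : ∀ T : Finset ℕ, T.card = m → T ⊆ Ico (2 ^ j) (2 ^ (j + 1)) →
      (((Pr x).filter (fun q => ∀ k ∈ T, (pk b q k).Prime)).card : ℝ) ≤ B) (hB : 0 ≤ B) :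
    (((Pr x).filter (fun q => (m : ℝ) + 2 ^ j / (j + 1) ^ 2 < NB b q j)).card : ℝ) ≤
      ((j : ℝ) + 1) ^ (2 * m) * B := by
  have hj : (0 : ℝ) < (j : ℝ) + 1 := by positivity
  set t : ℝ := 2 ^ j / ((j : ℝ) + 1) ^ 2 with ht
  have ht0 : 0 < t := by positivity
  -- the binomial moment
  have h1 : ∑ q ∈ Pr x, ((NB b q j).choose m : ℝ) ≤ ((2 ^ j).choose m : ℝ) * B := by
    rw [sum_congr rfl fun q _ => choose_NB b q j m, sum_comm]
    calc ∑ T ∈ powersetCard m (Ico (2 ^ j) (2 ^ (j + 1))), ∑ q ∈ Pr x,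
          (if ∀ k ∈ T, (pk b q k).Prime then (1 : ℝ) else 0)
        ≤ ∑ T ∈ powersetCard m (Ico (2 ^ j) (2 ^ (j + 1))), B := by
          apply sum_le_sum
          intro T hT
          rw [mem_powersetCard] at hT
          rw [← sum_filter, sum_const, nsmul_eq_mul, mul_one]
          exact h T hT.2 hT.1
      _ = _ := by
          rw [sum_const, card_powersetCard, nsmul_eq_mul, Nat.card_Ico]
          congr 3
          rw [pow_succ]
          omega
  have h2 : ∀ q ∈ (Pr x).filter (fun q => (m : ℝ) + t < NB b q j),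
      t ^ m ≤ (m.factorial : ℝ) * ((NB b q j).choose m : ℝ) := by
    intro q hq
    rw [mem_filter] at hq
    have h3 : (m : ℝ) < NB b q j := by linarith [hq.2]
    have h4 : m < NB b q j := by exact_mod_cast h3
    have h5 : ((NB b q j + 1 - m : ℕ) : ℝ) = NB b q j + 1 - m := by
      rw [Nat.cast_sub (by omega)]
      push_cast
      ring
    calc t ^ m ≤ ((NB b q j + 1 - m : ℕ) : ℝ) ^ m := by
          apply pow_le_pow_left₀ ht0.le
          rw [h5]
          linarith [hq.2]
      _ ≤ ((NB b q j).descFactorial m : ℝ) := by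
          exact_mod_cast Nat.pow_sub_le_descFactorial (NB b q j) m
      _ = _ := by
          rw [Nat.descFactorial_eq_factorial_mul_choose]
          push_cast
          ring
  have h3 : (((Pr x).filter (fun q => (m : ℝ) + t < NB b q j)).card : ℝ) * t ^ m ≤
      (2 ^ j : ℝ) ^ m * B := by
    calc (((Pr x).filter (fun q => (m : ℝ) + t < NB b q j)).card : ℝ) * t ^ m
        = ∑ q ∈ (Pr x).filter (fun q => (m : ℝ) + t < NB b q j), t ^ m := by
          rw [sum_const, nsmul_eq_mul]
      _ ≤ ∑ q ∈ (Pr x).filter (fun q => (m : ℝ) + t < NB b q j),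
            (m.factorial : ℝ) * ((NB b q j).choose m : ℝ) := sum_le_sum h2
      _ ≤ ∑ q ∈ Pr x, (m.factorial : ℝ) * ((NB b q j).choose m : ℝ) :=
          sum_le_sum_of_subset_of_nonneg (filter_subset _ _) (fun _ _ _ => by positivity)
      _ = (m.factorial : ℝ) * ∑ q ∈ Pr x, ((NB b q j).choose m : ℝ) := by rw [mul_sum]
      _ ≤ (m.factorial : ℝ) * (((2 ^ j).choose m : ℝ) * B) :=
          mul_le_mul_of_nonneg_left h1 (by positivity)
      _ = ((2 ^ j).descFactorial m : ℝ) * B := by
          rw [Nat.descFactorial_eq_factorial_mul_choose]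
          push_cast
          ring
      _ ≤ (2 ^ j : ℝ) ^ m * B := by
          apply mul_le_mul_of_nonneg_right _ hB
          exact_mod_cast Nat.descFactorial_le_pow (2 ^ j) m
  have h4 : ((j : ℝ) + 1) ^ (2 * m) * t ^ m = (2 ^ j : ℝ) ^ m := by
    rw [ht, div_pow, pow_mul]
    field_simp
  rw [← h4] at h3
  have h5 : 0 < t ^ m := by positivity
  have h6 : (((Pr x).filter (fun q => (m : ℝ) + t < NB b q j)).card : ℝ) * t ^ m ≤
      (((j : ℝ) + 1) ^ (2 * m) * B) * t ^ m := by
    calc _ ≤ ((j : ℝ) + 1) ^ (2 * m) * t ^ m * B := h3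
      _ = _ := by ring
  exact le_of_mul_le_mul_right h6 h5

theorem sum_inv_sq (n : ℕ) : ∑ j ∈ range (n + 1), 1 / ((j : ℝ) + 1) ^ 2 ≤ 2 - 1 / ((n : ℝ) + 1) := by
  induction n with
  | zero => norm_num
  | succ n ih =>
    rw [sum_range_succ]
    have h1 : (0 : ℝ) < (n : ℝ) + 1 := by positivity
    have h2 : 1 / (((n + 1 : ℕ) : ℝ) + 1) ^ 2 ≤ 1 / ((n : ℝ) + 1) - 1 / (((n + 1 : ℕ) : ℝ) + 1) := by
      push_cast
      rw [div_sub_div _ _ (by positivity) (by positivity), div_le_div_iff₀ (by positivity)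
        (by positivity)]
      nlinarith
    linarith

theorem sum_inv_two_pow (n : ℕ) : ∑ j ∈ range n, 1 / (2 : ℝ) ^ j ≤ 2 := by
  have h : ∀ n : ℕ, ∑ j ∈ range n, 1 / (2 : ℝ) ^ j = 2 - 2 / 2 ^ n := by
    intro n
    induction n with
    | zero => norm_num
    | succ n ih =>
      rw [sum_range_succ, ih, pow_succ]
      field_simp
      ring
  rw [h n]
  have : (0 : ℝ) < 2 / 2 ^ n := by positivity
  linarith

theorem stSml_61 (hSv : StSv) : StSml := by
  intro A
  set m := 2 * A + 2 with hm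
  refine ⟨2 * m + 2, ?_⟩
  have hev := U8_tendsto.eventually (eventually_ge_atTop ((2 * 4 ^ m + 4 : ℕ) : ℝ))
  obtain ⟨x₀, hx₀⟩ := eventually_atTop.1 ((tuple_bound hSv m (by omega)).and hev)
  refine ⟨x₀, ?_⟩
  intro x hx b
  obtain ⟨htup, hu'⟩ := hx₀ x hx
  set u := U8 x with hu
  push_cast at hu'
  have h4m : (0 : ℝ) < 4 ^ m := by positivity
  have hu4 : 4 ≤ u := by linarith
  have hu1 : 1 ≤ u := by linarith
  set J := Nat.log 2 (K8 x) with hJ
  set B := (x : ℝ) * (u / u ^ (8 * (m + 1))) with hB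
  have hB0 : 0 ≤ B := by positivity
  have hK1 := K8_pos x
  have hJpow : 2 ^ J ≤ K8 x := Nat.pow_log_le_self 2 (by omega)
  have hJu : (J : ℝ) + 1 ≤ 2 * u := by
    have h1 : (2 : ℝ) ^ J ≤ 2 * Real.exp u := by
      have h2 : (2 : ℝ) ^ J ≤ K8 x := by exact_mod_cast hJpow
      exact h2.trans (K8_le x)
    have h2 := Real.log_le_log (by positivity) h1
    rw [Real.log_pow, Real.log_mul (by norm_num) (Real.exp_pos _).ne', Real.log_exp] at h2
    have hl2 := Real.log_two_gt_d9
    have hl3 := Real.log_two_lt_d9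
    have h3 : ((J : ℝ) + 1) * Real.log 2 ≤ 2 * u * Real.log 2 := by nlinarith
    exact le_of_mul_le_mul_right h3 (by linarith)
  have hblock : ∀ j ∈ range (J + 1),
      (((Pr x).filter (fun q => (m : ℝ) + 2 ^ j / (j + 1) ^ 2 < NB b q j)).card : ℝ) ≤
        (2 * u) ^ (2 * m) * B := by
    intro j hj
    rw [mem_range] at hj
    have h1 := moment b x m j B (by
      intro T hT hTs
      apply htup b T hT
      intro k hk
      have h2 := mem_Ico.1 (hTs hk)
      have h3 : 1 ≤ 2 ^ j := Nat.one_le_two_pow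
      have h4 : 2 ^ j ≤ 2 ^ J := Nat.pow_le_pow_right (by norm_num) (by omega)
      rw [pow_succ] at h2
      omega) hB0
    refine h1.trans ?_
    apply mul_le_mul_of_nonneg_right _ hB0
    apply pow_le_pow_left₀ (by positivity)
    have h5 : (j : ℝ) ≤ J := by exact_mod_cast (by omega : j ≤ J)
    linarith
  have hcov : (Pr x).filter (fun q => ((2 * m + 2 : ℝ)) < ZS b q 0 (K8 x)) ⊆
      (range (J + 1)).biUnion (fun j =>
        (Pr x).filter (fun q => (m : ℝ) + 2 ^ j / (j + 1) ^ 2 < NB b q j)) := by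
    intro q hq
    rw [mem_filter] at hq
    rw [mem_biUnion]
    by_contra hcon
    push Not at hcon
    have h1 : ∀ j ∈ range (J + 1), (NB b q j : ℝ) ≤ (m : ℝ) + 2 ^ j / (j + 1) ^ 2 := by
      intro j hj
      have h2 := hcon j hj
      rw [mem_filter, not_and, not_lt] at h2
      exact h2 hq.1
    have h2 : ZS b q 0 (K8 x) ≤ 2 * m + 2 := by
      calc ZS b q 0 (K8 x) ≤ ∑ j ∈ range (J + 1), (NB b q j : ℝ) / 2 ^ j := ZS_le_NB b q _
        _ ≤ ∑ j ∈ range (J + 1), (m * (1 / (2 : ℝ) ^ j) + 1 / ((j : ℝ) + 1) ^ 2) := by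
            apply sum_le_sum
            intro j hj
            have h3 := h1 j hj
            have h4 : (0 : ℝ) < 2 ^ j := by positivity
            rw [div_le_iff₀ h4]
            refine h3.trans (le_of_eq ?_)
            field_simp
        _ = m * ∑ j ∈ range (J + 1), 1 / (2 : ℝ) ^ j +
              ∑ j ∈ range (J + 1), 1 / ((j : ℝ) + 1) ^ 2 := by
            rw [sum_add_distrib, mul_sum]
        _ ≤ m * 2 + 2 := by
            apply add_le_add
            · exact mul_le_mul_of_nonneg_left (sum_inv_two_pow _) (Nat.cast_nonneg _)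
            · have h3 := sum_inv_sq J
              have h4 : (0 : ℝ) < 1 / ((J : ℝ) + 1) := by positivity
              linarith
        _ = _ := by ring
    linarith [hq.2]
  have hL : Real.log x = u ^ 8 := (U8_pow x).symm
  calc (((Pr x).filter (fun q => ((2 * m + 2 : ℝ)) < ZS b q 0 (K8 x))).card : ℝ)
      ≤ (((range (J + 1)).biUnion (fun j =>
          (Pr x).filter (fun q => (m : ℝ) + 2 ^ j / (j + 1) ^ 2 < NB b q j))).card : ℝ) := by
        exact_mod_cast card_le_card hcov
    _ ≤ ∑ j ∈ range (J + 1),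
          (((Pr x).filter (fun q => (m : ℝ) + 2 ^ j / (j + 1) ^ 2 < NB b q j)).card : ℝ) := by
        exact_mod_cast card_biUnion_le
    _ ≤ ∑ j ∈ range (J + 1), (2 * u) ^ (2 * m) * B := sum_le_sum hblock
    _ = ((J : ℝ) + 1) * ((2 * u) ^ (2 * m) * B) := by
        rw [sum_const, card_range, nsmul_eq_mul]
        push_cast
        ring
    _ ≤ (2 * u) * ((2 * u) ^ (2 * m) * B) := by
        apply mul_le_mul_of_nonneg_right hJu
        positivity
    _ = x * ((2 * 4 ^ m) * (u ^ (2 * m + 2) / u ^ (8 * (m + 1)))) := by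
        rw [hB, mul_pow, pow_mul 2 2 m, show (2 : ℝ) ^ 2 = 4 by norm_num, pow_add u (2 * m) 2]
        ring
    _ ≤ x * (u * (u ^ (2 * m + 2) / u ^ (8 * (m + 1)))) := by
        apply mul_le_mul_of_nonneg_left _ (Nat.cast_nonneg _)
        apply mul_le_mul_of_nonneg_right _ (by positivity)
        linarith
    _ = x * (u ^ (2 * m + 3) / u ^ (8 * (m + 1))) := by
        rw [pow_succ u (2 * m + 2)]
        ring
    _ ≤ x * (1 / u ^ (8 * A)) := by
        apply mul_le_mul_of_nonneg_left _ (Nat.cast_nonneg _)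
        rw [div_le_div_iff₀ (by positivity) (by positivity), one_mul, ← pow_add]
        apply pow_le_pow_right₀ hu1
        omega
    _ = x / Real.log x ^ A := by
        rw [hL, ← pow_mul]
        ring

end Pool.Agent.Lib.MP_0f858a_nt.KR
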