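import Pool.Agent.Lib.MP_0f858a_nt.KR.Stmts84

/-!
KR, module SQR: the numbers with a square factor.
-/

set_option autoImplicit false

namespace Pool.Agent.Lib.MP_0f858a_nt.KR

open Finset Filter
open scoped Classical

/-- powers of `log x` are small against `exp (√log x)` and `√x` -/
theorem grow38 (K : ℝ) : ∃ x₀ : ℕ, ∀ x : ℕ, x₀ ≤ x →
    K * (1 + Real.log x) ^ 3 ≤ WW x ∧ K * (1 + Real.log x) ^ 3 ≤ Real.sqrt x := by
  have h1 : ∀ᶠ s : ℝ in atTop, K * (1 + s ^ 2) ^ 3 + 1 ≤ Real.exp s := by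
    have h2 : ∀ᶠ s : ℝ in atTop, s ^ 7 ≤ Real.exp s := by
      have h3 := (Real.isLittleO_pow_exp_atTop (n := 7)).bound (zero_lt_one)
      filter_upwards [h3, eventually_ge_atTop (0 : ℝ)] with s hs hs0
      rw [one_mul, Real.norm_of_nonneg (by positivity), Real.norm_of_nonneg (Real.exp_pos s).le] at hs
      exact hs
    filter_upwards [h2, eventually_ge_atTop (8 * |K| + 1)] with s hs hs1
    have hK : 0 ≤ |K| := abs_nonneg K
    have hs2 : 1 ≤ s := by linarith
    have h4 : (1 + s ^ 2) ^ 3 ≤ 8 * s ^ 6 := by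
      have h5 : 1 + s ^ 2 ≤ 2 * s ^ 2 := by nlinarith
      calc (1 + s ^ 2) ^ 3 ≤ (2 * s ^ 2) ^ 3 := pow_le_pow_left₀ (by positivity) h5 3
        _ = 8 * s ^ 6 := by ring
    have h6 : K * (1 + s ^ 2) ^ 3 ≤ |K| * (8 * s ^ 6) :=
      mul_le_mul (le_abs_self K) h4 (by positivity) hK
    have h7 : (1 : ℝ) ≤ s ^ 6 := one_le_pow₀ hs2
    have h8 : |K| * (8 * s ^ 6) + 1 ≤ s ^ 7 := by
      calc |K| * (8 * s ^ 6) + 1 ≤ (8 * |K| + 1) * s ^ 6 := by nlinarith
        _ ≤ s * s ^ 6 := by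
          apply mul_le_mul_of_nonneg_right hs1 (by positivity)
        _ = s ^ 7 := by ring
    linarith
  have h9 : Tendsto (fun x : ℕ => Real.sqrt (Real.log x)) atTop atTop :=
    Real.tendsto_sqrt_atTop.comp (Real.tendsto_log_atTop.comp tendsto_natCast_atTop_atTop)
  have h10 : Tendsto (fun x : ℕ => Real.log x) atTop atTop :=
    Real.tendsto_log_atTop.comp tendsto_natCast_atTop_atTop
  have h11 := (h9.eventually h1).and ((h10.eventually (eventually_ge_atTop (4 : ℝ))).and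
    (eventually_ge_atTop 1))
  obtain ⟨x₀, hx₀⟩ := eventually_atTop.1 h11
  refine ⟨x₀, fun x hx => ?_⟩
  obtain ⟨h12, h13, h14⟩ := hx₀ x hx
  have hL : 0 ≤ Real.log x := by linarith
  rw [Real.sq_sqrt hL] at h12
  have h15 : Real.exp (Real.sqrt (Real.log x)) < WW x + 1 := Nat.lt_floor_add_one _
  refine ⟨by linarith, ?_⟩
  have h16 : Real.exp (Real.sqrt (Real.log x)) ≤ Real.sqrt x := by
    have hx0 : (0 : ℝ) < x := by exact_mod_cast h14
    rw [← Real.log_le_log_iff (Real.exp_pos _) (Real.sqrt_pos.2 hx0), Real.log_exp,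
      Real.log_sqrt hx0.le]
    have h17 : Real.sqrt (Real.log x) ^ 2 = Real.log x := Real.sq_sqrt hL
    have h18 : (2 : ℝ) ≤ Real.sqrt (Real.log x) := by
      rw [show (2 : ℝ) = Real.sqrt 4 by
        rw [show (4 : ℝ) = 2 ^ 2 by norm_num, Real.sqrt_sq (by norm_num)]]
      exact Real.sqrt_le_sqrt h13
    nlinarith
  linarith

theorem log_TT38 {c x : ℕ} :
    1 + Real.log (TT c x) ≤ (c + 1) * (1 + Real.log x) ^ 3 := by
  have hL : 0 ≤ Real.log x := Real.log_natCast_nonneg x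
  have h1 : Real.log (TT c x) = (c * ⌈Real.log x⌉₊) * Real.log x := by
    unfold TT
    rw [Nat.cast_pow, Real.log_pow]
    push_cast
    ring
  have h2 : (⌈Real.log x⌉₊ : ℝ) ≤ Real.log x + 1 := (Nat.ceil_lt_add_one hL).le
  rw [h1]
  have hc : (0 : ℝ) ≤ c := Nat.cast_nonneg c
  set l := Real.log x
  have h3 : (c * ⌈l⌉₊ : ℝ) * l ≤ c * (l + 1) * l :=
    mul_le_mul_of_nonneg_right (mul_le_mul_of_nonneg_left h2 hc) hL
  have h4 : c * (l + 1) * l ≤ c * (1 + l) ^ 3 := by
    rw [mul_assoc]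
    apply mul_le_mul_of_nonneg_left _ hc
    nlinarith [mul_nonneg hL hL, mul_nonneg hL (mul_nonneg hL hL)]
  have h5 : (1 : ℝ) ≤ (1 + l) ^ 3 := one_le_pow₀ (by linarith)
  nlinarith

/-- a residue class -/
theorem cls38 {q x p T r : ℕ} (hq : q.Prime) (hp : 1 ≤ p) (hx : 1 ≤ x) (hT : 1 ≤ T)
    (hr : ¬ q ∣ r) :
    ∑ n ∈ (Ioc (x ^ 3) T).filter (fun n => p ^ 2 ∣ n ∧ n ≡ r [MOD q]), 1 / (n : ℝ) ≤
      1 / (p * (x * Real.sqrt x)) + (1 + Real.log T) * (1 / (q * (p : ℝ) ^ 2)) := by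
  have hx0 : (0 : ℝ) < x := by exact_mod_cast hx
  have hp0 : (0 : ℝ) < p := by exact_mod_cast hp
  have hq0 : (0 : ℝ) < q := by exact_mod_cast hq.pos
  have hlog : 0 ≤ Real.log T := Real.log_natCast_nonneg T
  have hsx : 0 < Real.sqrt x := Real.sqrt_pos.2 hx0
  set A := (Ioc (x ^ 3) T).filter (fun n => p ^ 2 ∣ n ∧ n ≡ r [MOD q]) with hA
  set d := p ^ 2 * q with hd
  set g : ℕ → ℝ := fun k => if k = 0 then 1 / (p * (x * Real.sqrt x)) else
    1 / (q * (p : ℝ) ^ 2) * (1 / (k : ℝ)) with hg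
  have hg0 : ∀ k, 0 ≤ g k := by
    intro k
    simp only [hg]
    split_ifs <;> positivity
  have hinj : Set.InjOn (fun n => n / d) (A : Set ℕ) := by
    intro n hn n' hn' hnn
    obtain ⟨h1, h2, h3⟩ := mem_filter.1 (Finset.mem_coe.1 hn)
    obtain ⟨h1', h2', h3'⟩ := mem_filter.1 (Finset.mem_coe.1 hn')
    have hcop : Nat.Coprime (p ^ 2) q := by
      refine Nat.Coprime.pow_left 2 ?_
      rw [Nat.coprime_comm, Nat.Prime.coprime_iff_not_dvd hq]
      intro hqp
      refine hr ?_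
      have h4 : q ∣ n := hqp.trans ((dvd_pow_self p (by norm_num)).trans h2)
      exact (h3.dvd_iff (dvd_refl q)).1 h4
    have h5 : n ≡ n' [MOD d] := by
      rw [hd, ← Nat.modEq_and_modEq_iff_modEq_mul hcop]
      exact ⟨((Nat.modEq_zero_iff_dvd).2 h2).trans ((Nat.modEq_zero_iff_dvd).2 h2').symm,
        h3.trans h3'.symm⟩
    have h6 := Nat.div_add_mod n d
    have h7 := Nat.div_add_mod n' d
    have h8 : n % d = n' % d := h5
    have h9 : n / d = n' / d := hnn
    rw [← h6, ← h7, h8, h9]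
  calc ∑ n ∈ A, 1 / (n : ℝ) ≤ ∑ n ∈ A, g (n / d) := by
        refine sum_le_sum fun n hn => ?_
        obtain ⟨h1, h2, h3⟩ := mem_filter.1 hn
        obtain ⟨h4, h5⟩ := mem_Ioc.1 h1
        have hn1 : 1 ≤ n := by
          have : 0 < x ^ 3 := by positivity
          omega
        have hn0 : (0 : ℝ) < n := by exact_mod_cast hn1
        simp only [hg]
        split_ifs with hk
        · apply one_div_le_one_div_of_le (by positivity)
          have h6 : p ^ 2 ≤ n := Nat.le_of_dvd hn1 h2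
          have h7 : ((p : ℝ)) ^ 2 ≤ n := by exact_mod_cast h6
          have h8 : ((x : ℝ)) ^ 3 ≤ n := by exact_mod_cast h4.le
          have h9 : (p * (x * Real.sqrt x)) ^ 2 ≤ (n : ℝ) ^ 2 := by
            have h10 : Real.sqrt x ^ 2 = x := Real.sq_sqrt hx0.le
            calc (p * (x * Real.sqrt x)) ^ 2 = (p : ℝ) ^ 2 * ((x : ℝ) ^ 2 * Real.sqrt x ^ 2) := by
                  ring
              _ = (p : ℝ) ^ 2 * (x : ℝ) ^ 3 := by rw [h10]; ring
              _ ≤ n * n := mul_le_mul h7 h8 (by positivity) hn0.le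
              _ = (n : ℝ) ^ 2 := by ring
          exact (pow_le_pow_iff_left₀ (by positivity) hn0.le (by norm_num)).1 h9
        · have hk1 : 1 ≤ n / d := Nat.one_le_iff_ne_zero.2 hk
          have hk0 : (0 : ℝ) < ((n / d : ℕ) : ℝ) := by exact_mod_cast hk1
          have h6 : (n / d) * d ≤ n := Nat.div_mul_le_self n d
          have h7 : (((n / d : ℕ) : ℝ)) * ((p : ℝ) ^ 2 * q) ≤ n := by
            have : (((n / d) * d : ℕ) : ℝ) ≤ n := by exact_mod_cast h6
            rw [hd] at this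
            push_cast at this
            exact this
          rw [one_div_mul_one_div]
          apply one_div_le_one_div_of_le (by positivity)
          have h8 : (q : ℝ) * (p : ℝ) ^ 2 * ((n / d : ℕ) : ℝ) =
              (((n / d : ℕ) : ℝ)) * ((p : ℝ) ^ 2 * q) := by ring
          rw [h8]
          exact h7
    _ = ∑ k ∈ A.image (fun n => n / d), g k := by rw [sum_image hinj]
    _ ≤ ∑ k ∈ range (T + 1), g k := by
        refine sum_le_sum_of_subset_of_nonneg ?_ fun k _ _ => hg0 k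
        intro k hk
        obtain ⟨n, hn, rfl⟩ := mem_image.1 hk
        obtain ⟨h4, h5⟩ := mem_Ioc.1 (mem_filter.1 hn).1
        exact mem_range.2 (Nat.lt_succ_of_le ((Nat.div_le_self n d).trans h5))
    _ = 1 / (p * (x * Real.sqrt x)) + 1 / (q * (p : ℝ) ^ 2) * ∑ k ∈ Icc 1 T, 1 / (k : ℝ) := by
        rw [sum_range_succ', add_comm]
        congr 1
        rw [mul_sum, range_eq_Ico, sum_Ico_add' (fun k => g k) 0 T 1]
        refine sum_congr ?_ fun k hk => ?_
        · ext k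
          simp only [mem_Ico, mem_Icc]
          omega
        · have : k ≠ 0 := by
            have := (mem_Icc.1 hk).1
            omega
          simp only [hg, if_neg this]
    _ ≤ 1 / (p * (x * Real.sqrt x)) + (1 + Real.log T) * (1 / (q * (p : ℝ) ^ 2)) := by
        have h1 : ∑ k ∈ Icc 1 T, 1 / (k : ℝ) ≤ 1 + Real.log T := by
          have h2 := harmonic_le_one_add_log T
          rw [harmonic_eq_sum_Icc] at h2
          push_cast at h2
          simpa [one_div] using h2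
        have h3 : 1 / (q * (p : ℝ) ^ 2) * ∑ k ∈ Icc 1 T, 1 / (k : ℝ) ≤
            1 / (q * (p : ℝ) ^ 2) * (1 + Real.log T) :=
          mul_le_mul_of_nonneg_left h1 (by positivity)
        linarith

/-- (SQR) the numbers with a square factor -/
theorem stSqr_38 : StSqr := by
  intro c
  obtain ⟨x₀, hx₀⟩ := grow38 (32 * (c + 1))
  refine ⟨max x₀ 2, fun x hx q hq => ?_⟩
  have hx2 : 2 ≤ x := (le_max_right _ _).trans hx
  obtain ⟨hW, hS⟩ := hx₀ x ((le_max_left _ _).trans hx)
  obtain ⟨hq1, hqp, hqx⟩ : q ∈ Icc 1 x ∧ q.Prime ∧ x < q ^ 2 := by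
    unfold Pr at hq
    exact mem_filter.1 hq
  have hqx' : q ≤ x := (mem_Icc.1 hq1).2
  have hx0 : (0 : ℝ) < x := by
    have : 0 < x := by omega
    exact_mod_cast this
  have hq0 : (0 : ℝ) < q := by exact_mod_cast hqp.pos
  have hq2 : 2 ≤ q := hqp.two_le
  set T := TT c x with hTdef
  set W := WW x with hWdef
  have hT : 1 ≤ T := by
    rw [hTdef]
    unfold TT
    exact Nat.one_le_pow _ _ (by omega)
  have hlT : 0 ≤ Real.log T := Real.log_natCast_nonneg T
  have hLT : 1 + Real.log T ≤ (c + 1) * (1 + Real.log x) ^ 3 := log_TT38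
  have hW1 : 32 * (1 + Real.log T) ≤ W := by
    refine le_trans ?_ hW
    nlinarith
  have hS1 : 32 * (1 + Real.log T) ≤ Real.sqrt x := by
    refine le_trans ?_ hS
    nlinarith
  have hW0 : (0 : ℝ) < W := by linarith
  have hS0 : 0 < Real.sqrt x := by linarith
  have hWne : W ≠ 0 := by
    rintro h
    rw [h] at hW0
    simp at hW0
  -- the sum over `p`
  have h1 : ∑ n ∈ Ioc (x ^ 3) T, |sg q n| * s2 W n / n ≤
      ∑ p ∈ Ioc W T, (∑ n ∈ (Ioc (x ^ 3) T).filter (fun n => p ^ 2 ∣ n ∧ n ≡ 1 [MOD q]), 1 / (n : ℝ) +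
        ∑ n ∈ (Ioc (x ^ 3) T).filter (fun n => p ^ 2 ∣ n ∧ n ≡ q - 1 [MOD q]), 1 / (n : ℝ)) := by
    have h2 : ∀ n ∈ Ioc (x ^ 3) T, |sg q n| * s2 W n / n ≤
        ∑ p ∈ Ioc W T, ((if p ^ 2 ∣ n ∧ n ≡ 1 [MOD q] then 1 / (n : ℝ) else 0) +
          (if p ^ 2 ∣ n ∧ n ≡ q - 1 [MOD q] then 1 / (n : ℝ) else 0)) := by
      intro n hn
      obtain ⟨h3, h4⟩ := mem_Ioc.1 hn
      have hn1 : 1 ≤ n := by omega
      have hn0 : (0 : ℝ) < n := by exact_mod_cast hn1
      have h5 : (s2 W n : ℝ) ≤ ∑ p ∈ Ioc W T, if p ^ 2 ∣ n then (1 : ℝ) else 0 := by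
        rw [sum_boole]
        have : s2 W n ≤ ((Ioc W T).filter (fun p => p ^ 2 ∣ n)).card := by
          refine card_le_card fun p hp => ?_
          obtain ⟨h6, h7, h8⟩ := mem_filter.1 hp
          refine mem_filter.2 ⟨mem_Ioc.2 ⟨h7, ?_⟩, h8⟩
          exact (Nat.le_of_dvd hn1 (Nat.dvd_of_mem_primeFactors h6)).trans h4
        exact_mod_cast this
      have h6 : |sg q n| ≤ (if n ≡ 1 [MOD q] then (1 : ℝ) else 0) +
          (if n ≡ q - 1 [MOD q] then (1 : ℝ) else 0) := by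
        unfold sg
        by_cases h7 : n % q = 1
        · have h8 : n ≡ 1 [MOD q] := by
            unfold Nat.ModEq
            rw [h7, Nat.mod_eq_of_lt (by omega)]
          rw [if_pos h7, if_pos h8, abs_one]
          split_ifs <;> norm_num
        · rw [if_neg h7]
          by_cases h8 : (n + 1) % q = 0
          · have h9 : n ≡ q - 1 [MOD q] := by
              refine Nat.ModEq.add_right_cancel' 1 ?_
              rw [Nat.sub_add_cancel (by omega)]
              exact ((Nat.modEq_zero_iff_dvd).2 (Nat.dvd_of_mod_eq_zero h8)).trans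
                ((Nat.modEq_zero_iff_dvd).2 (dvd_refl q)).symm
            rw [if_pos h8, if_pos h9, abs_neg, abs_one]
            split_ifs <;> norm_num
          · rw [if_neg h8, abs_zero]
            split_ifs <;> norm_num
      have h9 : |sg q n| * s2 W n ≤ ((if n ≡ 1 [MOD q] then (1 : ℝ) else 0) +
          (if n ≡ q - 1 [MOD q] then (1 : ℝ) else 0)) *
          ∑ p ∈ Ioc W T, if p ^ 2 ∣ n then (1 : ℝ) else 0 :=
        mul_le_mul h6 h5 (Nat.cast_nonneg _) ((abs_nonneg _).trans h6)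
      calc |sg q n| * s2 W n / n ≤ (((if n ≡ 1 [MOD q] then (1 : ℝ) else 0) +
          (if n ≡ q - 1 [MOD q] then (1 : ℝ) else 0)) *
          ∑ p ∈ Ioc W T, if p ^ 2 ∣ n then (1 : ℝ) else 0) / n :=
            div_le_div_of_nonneg_right h9 hn0.le
        _ = _ := by
          rw [mul_sum, sum_div]
          refine sum_congr rfl fun p _ => ?_
          by_cases a : p ^ 2 ∣ n <;> by_cases b : n ≡ 1 [MOD q] <;>
            by_cases e : n ≡ q - 1 [MOD q] <;> simp [a, b, e]
          ring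
    refine (sum_le_sum h2).trans (le_of_eq ?_)
    rw [sum_comm]
    refine sum_congr rfl fun p _ => ?_
    rw [sum_add_distrib, sum_filter, sum_filter]
  have h2 : ∑ p ∈ Ioc W T, (∑ n ∈ (Ioc (x ^ 3) T).filter
      (fun n => p ^ 2 ∣ n ∧ n ≡ 1 [MOD q]), 1 / (n : ℝ) +
        ∑ n ∈ (Ioc (x ^ 3) T).filter (fun n => p ^ 2 ∣ n ∧ n ≡ q - 1 [MOD q]), 1 / (n : ℝ)) ≤
      ∑ p ∈ Ioc W T, 2 * (1 / (p * (x * Real.sqrt x)) +
        (1 + Real.log T) * (1 / (q * (p : ℝ) ^ 2))) := by
    refine sum_le_sum fun p hp => ?_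
    have hp1 : 1 ≤ p := by
      have := (mem_Ioc.1 hp).1
      omega
    have h3 := cls38 (q := q) (x := x) (p := p) (T := T) (r := 1) hqp hp1 (by omega) hT
      (fun h => by have := Nat.le_of_dvd one_pos h; omega)
    have h4 := cls38 (q := q) (x := x) (p := p) (T := T) (r := q - 1) hqp hp1 (by omega) hT
      (fun h => by have := Nat.le_of_dvd (by omega) h; omega)
    linarith
  have h3 : ∑ p ∈ Ioc W T, 2 * (1 / (p * (x * Real.sqrt x)) +
        (1 + Real.log T) * (1 / (q * (p : ℝ) ^ 2))) ≤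
      2 * ((1 + Real.log T) / (x * Real.sqrt x) + (1 + Real.log T) / (q * W)) := by
    rw [← mul_sum, sum_add_distrib]
    refine mul_le_mul_of_nonneg_left (add_le_add ?_ ?_) (by norm_num)
    · have h4 : ∑ p ∈ Ioc W T, 1 / (p * (x * Real.sqrt x)) =
          (∑ p ∈ Ioc W T, 1 / (p : ℝ)) * (1 / (x * Real.sqrt x)) := by
        rw [sum_mul]
        refine sum_congr rfl fun p _ => ?_
        rw [one_div_mul_one_div]
      rw [h4]
      have h5 : ∑ p ∈ Ioc W T, 1 / (p : ℝ) ≤ 1 + Real.log T := by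
        have h6 : ∑ p ∈ Ioc W T, 1 / (p : ℝ) ≤ ∑ p ∈ Icc 1 T, 1 / (p : ℝ) := by
          refine sum_le_sum_of_subset_of_nonneg ?_ fun k _ _ => by positivity
          intro k hk
          have := mem_Ioc.1 hk
          exact mem_Icc.2 ⟨by omega, this.2⟩
        have h2 := harmonic_le_one_add_log T
        rw [harmonic_eq_sum_Icc] at h2
        push_cast at h2
        refine h6.trans ?_
        simpa [one_div] using h2
      rw [div_eq_mul_one_div (1 + Real.log T)]
      exact mul_le_mul_of_nonneg_right h5 (by positivity)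
    · rw [← mul_sum]
      have h4 : ∑ p ∈ Ioc W T, 1 / (q * (p : ℝ) ^ 2) =
          1 / q * ∑ p ∈ Ioc W T, ((p : ℝ) ^ 2)⁻¹ := by
        rw [mul_sum]
        refine sum_congr rfl fun p _ => ?_
        rw [← one_div ((p : ℝ) ^ 2), one_div_mul_one_div]
      rw [h4]
      have h5 : ∑ p ∈ Ioc W T, ((p : ℝ) ^ 2)⁻¹ ≤ (W : ℝ)⁻¹ := by
        by_cases hWT : W ≤ T
        · have := sum_Ioc_inv_sq_le_sub (α := ℝ) hWne hWT
          have h6 : (0 : ℝ) ≤ (T : ℝ)⁻¹ := by positivity
          linarith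
        · rw [Ioc_eq_empty (by omega), sum_empty]
          positivity
      calc (1 + Real.log T) * (1 / q * ∑ p ∈ Ioc W T, ((p : ℝ) ^ 2)⁻¹) ≤
          (1 + Real.log T) * (1 / q * (W : ℝ)⁻¹) := by
            refine mul_le_mul_of_nonneg_left (mul_le_mul_of_nonneg_left h5 (by positivity))
              (by linarith)
        _ = (1 + Real.log T) / (q * W) := by
            field_simp
  have h4 := h1.trans (h2.trans h3)
  calc (q : ℝ) * ∑ n ∈ Ioc (x ^ 3) T, |sg q n| * s2 W n / n ≤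
      q * (2 * ((1 + Real.log T) / (x * Real.sqrt x) + (1 + Real.log T) / (q * W))) :=
        mul_le_mul_of_nonneg_left h4 hq0.le
    _ = 2 * ((q / x) * ((1 + Real.log T) / Real.sqrt x) + (1 + Real.log T) / W) := by
        field_simp
    _ ≤ 2 * (1 * (1 / 32) + 1 / 32) := by
        have h5 : (q : ℝ) / x ≤ 1 := by
          rw [div_le_one hx0]
          exact_mod_cast hqx'
        have h6 : (1 + Real.log T) / Real.sqrt x ≤ 1 / 32 := by
          rw [div_le_iff₀ hS0]
          linarith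
        have h7 : (1 + Real.log T) / W ≤ 1 / 32 := by
          rw [div_le_iff₀ hW0]
          linarith
        have h8 : 0 ≤ (1 + Real.log T) / Real.sqrt x := by positivity
        have h9 : (q : ℝ) / x * ((1 + Real.log T) / Real.sqrt x) ≤ 1 * (1 / 32) :=
          mul_le_mul h5 h6 h8 (by norm_num)
        linarith
    _ = 1 / 8 := by norm_num

end Pool.Agent.Lib.MP_0f858a_nt.KR
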