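import Pool.Agent.Lib.MP_0f858a_nt.KR.Rsh12
import Pool.Agent.Lib.MP_0f858a_nt.KR.Eul12

/-!
TAIL: the end of the series of `E_χ` (helper12).
-/

set_option autoImplicit false

namespace Pool.Agent.Lib.MP_0f858a_nt.KR

open Finset Filter
open scoped Classical

/-- the sum over rough numbers in a residue class -/
noncomputable def SC12 (z q a N N' : ℕ) : ℝ :=
  ∑ n ∈ (Ioc N N').filter (fun n => n ≡ a [MOD q] ∧ Ro z n), 1 / (n : ℝ)

lemma block12 {C z₀ : ℕ} (h : ∀ z t q a b N N' : ℕ, z₀ ≤ z → z₀ < q → q.Prime →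
    ¬ q ∣ a → ¬ q ∣ b → 1 ≤ N → N ≤ N' → N' ≤ 2 * N →
    |∑ n ∈ (Ioc N N').filter (fun n => n ≡ a [MOD q] ∧ Ro z n), 1 / (n : ℝ) -
      ∑ n ∈ (Ioc N N').filter (fun n => n ≡ b [MOD q] ∧ Ro z n), 1 / (n : ℝ)| ≤
      2 * (1 / 2) ^ t / q + 2 * (z : ℝ) ^ (C * (t + 1)) / N) {q : ℕ} [NeZero q]
    (χ : DirichletCharacter ℂ q) (hχ : χ ≠ 1) {z t N N' : ℕ} (hz : z₀ ≤ z) (hq : z₀ < q)
    (hqp : q.Prime) (hN : 1 ≤ N) (hNN' : N ≤ N') (hN' : N' ≤ 2 * N) :
    ‖∑ n ∈ (Ioc N N').filter (Ro z), χ n / (n : ℂ)‖ ≤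
      2 * (1 / 2) ^ t + 2 * q * (z : ℝ) ^ (C * (t + 1)) / N := by
  have hq1 : 1 < q := hqp.one_lt
  have : Fact (1 < q) := ⟨hq1⟩
  have hq0 : (0 : ℝ) < q := by exact_mod_cast hqp.pos
  have h1 : ∑ n ∈ (Ioc N N').filter (Ro z), χ n / (n : ℂ) =
      ∑ a ∈ range q, χ ((a : ℕ) : ZMod q) * (SC12 z q a N N' : ℂ) := by
    rw [← sum_fiberwise_of_maps_to (s := (Ioc N N').filter (Ro z)) (t := range q)
      (g := fun n => n % q) (fun n _ => mem_range.2 (Nat.mod_lt _ hqp.pos))]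
    refine sum_congr rfl fun a ha => ?_
    rw [mem_range] at ha
    unfold SC12
    rw [Complex.ofReal_sum, mul_sum]
    have h2 : ((Ioc N N').filter (Ro z)).filter (fun n => n % q = a) =
        (Ioc N N').filter (fun n => n ≡ a [MOD q] ∧ Ro z n) := by
      ext n
      simp only [mem_filter, Nat.ModEq, Nat.mod_eq_of_lt ha]
      tauto
    rw [h2]
    refine sum_congr rfl fun n hn => ?_
    rw [mem_filter] at hn
    have h3 : ((n : ℕ) : ZMod q) = ((a : ℕ) : ZMod q) := (ZMod.natCast_eq_natCast_iff _ _ _).2 hn.2.1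
    rw [h3]
    push_cast
    ring
  have h2 : ∑ a ∈ range q, χ ((a : ℕ) : ZMod q) = 0 := by
    have h3 := complete12 (fun a => χ a) 0
    simp only [zero_add] at h3
    rw [h3, MulChar.sum_eq_zero_of_ne_one hχ]
  have h3 : ∑ a ∈ range q, χ ((a : ℕ) : ZMod q) * (SC12 z q a N N' : ℂ) =
      ∑ a ∈ (range q).erase 0, χ ((a : ℕ) : ZMod q) *
        ((SC12 z q a N N' - SC12 z q 1 N N' : ℝ) : ℂ) := by
    have h4 : ∑ a ∈ range q, χ ((a : ℕ) : ZMod q) * (SC12 z q a N N' : ℂ) =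
        ∑ a ∈ range q, χ ((a : ℕ) : ZMod q) *
          ((SC12 z q a N N' - SC12 z q 1 N N' : ℝ) : ℂ) := by
      have h5 : ∑ a ∈ range q, χ ((a : ℕ) : ZMod q) *
          ((SC12 z q a N N' - SC12 z q 1 N N' : ℝ) : ℂ) =
          ∑ a ∈ range q, χ ((a : ℕ) : ZMod q) * (SC12 z q a N N' : ℂ) -
            (∑ a ∈ range q, χ ((a : ℕ) : ZMod q)) * (SC12 z q 1 N N' : ℂ) := by
        rw [sum_mul, ← sum_sub_distrib]
        refine sum_congr rfl fun a _ => ?_
        push_cast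
        ring
      rw [h5, h2]
      ring
    rw [h4]
    refine (sum_erase _ ?_).symm
    rw [Nat.cast_zero, MulChar.map_zero, zero_mul]
  rw [h1, h3]
  refine (norm_sum_le _ _).trans ?_
  have h4 : ∀ a ∈ (range q).erase 0, ‖χ ((a : ℕ) : ZMod q) *
      ((SC12 z q a N N' - SC12 z q 1 N N' : ℝ) : ℂ)‖ ≤
      2 * (1 / 2) ^ t / q + 2 * (z : ℝ) ^ (C * (t + 1)) / N := by
    intro a ha
    rw [mem_erase, mem_range] at ha
    rw [norm_mul, Complex.norm_real, Real.norm_eq_abs]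
    have h5 := h z t q a 1 N N' hz hq hqp (fun hd => by
      have := Nat.le_of_dvd (Nat.pos_of_ne_zero ha.1) hd
      omega) (fun hd => by
      have := Nat.le_of_dvd one_pos hd
      omega) hN hNN' hN'
    calc ‖χ ((a : ℕ) : ZMod q)‖ * |SC12 z q a N N' - SC12 z q 1 N N'| ≤
        1 * |SC12 z q a N N' - SC12 z q 1 N N'| :=
          mul_le_mul_of_nonneg_right (χ.norm_le_one _) (abs_nonneg _)
      _ ≤ _ := by
          rw [one_mul]
          exact h5
  refine (sum_le_card_nsmul _ _ _ h4).trans ?_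
  rw [nsmul_eq_mul]
  have h6 : (((range q).erase 0).card : ℝ) ≤ q := by
    have : ((range q).erase 0).card ≤ q := (card_erase_le).trans (by simp)
    exact_mod_cast this
  have h7 : (0 : ℝ) ≤ 2 * (1 / 2) ^ t / q + 2 * (z : ℝ) ^ (C * (t + 1)) / N := by positivity
  calc _ ≤ (q : ℝ) * (2 * (1 / 2) ^ t / q + 2 * (z : ℝ) ^ (C * (t + 1)) / N) :=
        mul_le_mul_of_nonneg_right h6 h7
    _ = _ := by
        field_simp

/-- the real estimate for a block -/
lemma est12 {K x M u : ℕ} (hK : 1 ≤ K) (hx : 3 ≤ x) (hM1 : 1 ≤ M)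
    (hM : 36 * Real.log x ≤ Real.log M)
    (hu : u = ⌊Real.log M / (6 * K * Real.log x)⌋₊) (hKM : 6 * K * Real.log x ≤ Real.log M) :
    1 ≤ u ∧ 2 * (1 / 2 : ℝ) ^ (u - 1) + 2 * x * ((x ^ 3 : ℕ) : ℝ) ^ (K * u) / M ≤
      10 * Real.exp (-(Real.log 2 / (6 * K * Real.log x) * Real.log M)) := by
  have hx0 : (0 : ℝ) < x := by positivity
  have hM0 : (0 : ℝ) < M := by exact_mod_cast hM1
  have hK0 : (1 : ℝ) ≤ K := by exact_mod_cast hK
  have hl : 1 ≤ Real.log x := by
    have h1 : Real.log (Real.exp 1) ≤ Real.log x := by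
      refine Real.log_le_log (Real.exp_pos _) ?_
      have h2 := Real.exp_one_lt_d9
      have h3 : (3 : ℝ) ≤ x := by exact_mod_cast hx
      linarith
    rwa [Real.log_exp] at h1
  obtain ⟨l, hl'⟩ : ∃ l : ℝ, l = Real.log x := ⟨_, rfl⟩
  obtain ⟨m, hm'⟩ : ∃ m : ℝ, m = Real.log M := ⟨_, rfl⟩
  rw [← hl'] at hl hM hu hKM ⊢
  rw [← hm'] at hM hu hKM ⊢
  have hD : 0 < 6 * K * l := by positivity
  have hu1 : 1 ≤ u := by
    rw [hu]
    apply Nat.le_floor
    rw [Nat.cast_one, one_le_div hD]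
    exact hKM
  refine ⟨hu1, ?_⟩
  have hlog2 := Real.log_two_gt_d9
  have hlog2' := Real.log_two_lt_d9
  have hm0 : 0 ≤ m := by nlinarith
  have h1 : (u : ℝ) ≤ m / (6 * K * l) := by
    rw [hu]
    exact Nat.floor_le (by positivity)
  have h2 : m / (6 * K * l) < u + 1 := by
    rw [hu]
    exact Nat.lt_floor_add_one _
  -- the first term
  have h3 : 2 * (1 / 2 : ℝ) ^ (u - 1) ≤ 8 * Real.exp (-(Real.log 2 / (6 * K * l) * m)) := by
    have h4 : (1 / 2 : ℝ) ^ (u - 1) = 4 * (1 / 2 : ℝ) ^ (u + 1) := by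
      obtain ⟨v, rfl⟩ : ∃ v, u = v + 1 := ⟨u - 1, by omega⟩
      rw [Nat.add_sub_cancel, pow_succ, pow_succ]
      ring
    have h5 : (1 / 2 : ℝ) ^ (u + 1) ≤ Real.exp (-(Real.log 2 / (6 * K * l) * m)) := by
      have h6 : (1 / 2 : ℝ) ^ (u + 1) = Real.exp (-(Real.log 2 * ((u + 1 : ℕ) : ℝ))) := by
        have h7 : -(Real.log 2 * ((u + 1 : ℕ) : ℝ)) = ((u + 1 : ℕ) : ℝ) * Real.log (1 / 2) := by
          rw [one_div, Real.log_inv]
          ring
        rw [h7, Real.exp_nat_mul, Real.exp_log (by norm_num)]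
      rw [h6]
      apply Real.exp_le_exp.2
      have h8 : Real.log 2 / (6 * K * l) * m = Real.log 2 * (m / (6 * K * l)) := by ring
      rw [h8]
      push_cast
      have := mul_le_mul_of_nonneg_left h2.le (by linarith : (0 : ℝ) ≤ Real.log 2)
      linarith
    rw [h4]
    linarith
  -- the second term
  have h9 : ((x ^ 3 : ℕ) : ℝ) ^ (K * u) = Real.exp (3 * K * u * l) := by
    rw [hl', Nat.cast_pow, ← pow_mul]
    have : 3 * (K : ℝ) * u * Real.log x = ((3 * (K * u) : ℕ) : ℝ) * Real.log x := by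
      push_cast
      ring
    rw [this, Real.exp_nat_mul, Real.exp_log hx0]
  have h10 : (M : ℝ) = Real.exp m := by rw [hm', Real.exp_log hM0]
  have h11 : (x : ℝ) = Real.exp l := by rw [hl', Real.exp_log hx0]
  have h12 : 2 * x * ((x ^ 3 : ℕ) : ℝ) ^ (K * u) / M =
      2 * Real.exp (l + 3 * K * u * l - m) := by
    rw [h9, h10, h11, Real.exp_sub, Real.exp_add]
    ring
  have h13 : 2 * x * ((x ^ 3 : ℕ) : ℝ) ^ (K * u) / M ≤
      2 * Real.exp (-(Real.log 2 / (6 * K * l) * m)) := by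
    rw [h12]
    have h14 : 3 * K * u * l ≤ m / 2 := by
      have := mul_le_mul_of_nonneg_left h1 hD.le
      rw [mul_div_cancel₀ _ hD.ne'] at this
      linarith
    have h15 : Real.log 2 / (6 * K * l) * m ≤ m / 4 := by
      have h16 : Real.log 2 / (6 * K * l) ≤ 1 / 4 := by
        rw [div_le_iff₀ hD]
        nlinarith
      calc _ ≤ 1 / 4 * m := mul_le_mul_of_nonneg_right h16 hm0
        _ = _ := by ring
    have := Real.exp_le_exp.2 (show l + 3 * K * u * l - m ≤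
      -(Real.log 2 / (6 * K * l) * m) by linarith)
    linarith
  linarith

/-- module TAIL -/
theorem stTail_12 (hEul : StEul) (hRsh : StRsh) : StTail := by
  obtain ⟨C, z₀, h⟩ := hRsh
  obtain ⟨K, hK⟩ : ∃ K, K = C + 1 := ⟨_, rfl⟩
  have hK1 : 1 ≤ K := by omega
  refine ⟨36 * K, z₀ ^ 2 + 300 * K + 3, ?_⟩
  intro x hx q _ hq χ hχ
  have hx3 : 3 ≤ x := by omega
  have hxK : 300 * K ≤ x := by omega
  have hxz2 : z₀ ^ 2 ≤ x := by omega
  rw [Pr, mem_filter, mem_Icc] at hq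
  obtain ⟨⟨hq1, hqx⟩, hqp, hq2⟩ := hq
  have hz0q : z₀ < q := lt_of_pow_lt_pow_left₀ 2 (Nat.zero_le _) (lt_of_le_of_lt hxz2 hq2)
  have hxx : x ≤ x ^ 3 := Nat.le_self_pow (by norm_num) x
  have hz : z₀ ≤ x ^ 3 := (hz0q.le.trans hqx).trans hxx
  have hx0 : (0 : ℝ) < x := by positivity
  have hx1 : (1 : ℝ) ≤ x := by exact_mod_cast (by omega : 1 ≤ x)
  have hqx' : (q : ℝ) ≤ x := by exact_mod_cast hqx
  have hK0 : (1 : ℝ) ≤ K := by exact_mod_cast hK1
  have hl : 1 ≤ Real.log x := by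
    have h1 : Real.log (Real.exp 1) ≤ Real.log x := by
      refine Real.log_le_log (Real.exp_pos _) ?_
      have h2 := Real.exp_one_lt_d9
      have h3 : (3 : ℝ) ≤ x := by exact_mod_cast hx3
      linarith
    rwa [Real.log_exp] at h1
  obtain ⟨T, hT⟩ : ∃ T, T = TT (36 * K) x := ⟨_, rfl⟩
  obtain ⟨L, hL⟩ : ∃ L, L = ⌈Real.log x⌉₊ := ⟨_, rfl⟩
  have hLl : Real.log x ≤ L := by rw [hL]; exact Nat.le_ceil _
  have hL1 : (1 : ℝ) ≤ L := hl.trans hLl
  have hTL : T = x ^ (36 * K * L) := by rw [hT, TT, hL]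
  have hlogT : Real.log T = 36 * K * L * Real.log x := by
    rw [hTL, Nat.cast_pow, Real.log_pow]
    push_cast
    ring
  have hT1 : 1 ≤ T := by rw [hTL]; exact Nat.one_le_pow _ _ (by omega)
  have hlT : 36 * Real.log x ≤ Real.log T := by
    rw [hlogT]
    have : 1 ≤ K * (L : ℝ) := by nlinarith
    nlinarith
  have hlT' : 6 * K * Real.log x ≤ Real.log T := by
    rw [hlogT]
    have : (0 : ℝ) ≤ K * Real.log x := by positivity
    nlinarith
  obtain ⟨γ, hγ⟩ : ∃ γ : ℝ, γ = Real.log 2 / (6 * K * Real.log x) := ⟨_, rfl⟩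
  have hlog2 := Real.log_two_gt_d9
  have hlog2' := Real.log_two_lt_d9
  have hD : 0 < 6 * K * Real.log x := by positivity
  have hγ0 : 0 < γ := by
    rw [hγ]
    exact div_pos (by linarith) hD
  obtain ⟨v, hv⟩ : ∃ v : ℝ, v = γ * Real.log 2 := ⟨_, rfl⟩
  have hv0 : 0 < v := by
    rw [hv]
    exact mul_pos hγ0 (by linarith)
  have hγ1 : γ ≤ 1 := by
    rw [hγ, div_le_one hD]
    nlinarith
  have hv1 : v ≤ 1 := by
    rw [hv]
    nlinarith
  obtain ⟨A, hA⟩ : ∃ A : ℝ, A = 20 / v := ⟨_, rfl⟩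
  have hA0 : 0 < A := by
    rw [hA]
    positivity
  have hAv : 10 ≤ A * (1 - Real.exp (-v)) := by
    have h1 : Real.exp (-v) ≤ 1 / (1 + v) := by
      rw [Real.exp_neg, ← one_div]
      refine one_div_le_one_div_of_le (by linarith) ?_
      have := Real.add_one_le_exp v
      linarith
    have h2 : v / (1 + v) ≤ 1 - Real.exp (-v) := by
      have : v / (1 + v) = 1 - 1 / (1 + v) := by
        field_simp
        ring
      linarith
    calc (10 : ℝ) ≤ 20 / (1 + v) := by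
          rw [le_div_iff₀ (by linarith)]
          linarith
      _ = A * (v / (1 + v)) := by
          rw [hA]
          field_simp
      _ ≤ _ := mul_le_mul_of_nonneg_left h2 hA0.le
  -- all blocks
  have key : ∀ d M N : ℕ, T ≤ M → M ≤ N → N - M ≤ d →
      ‖∑ n ∈ (Ioc M N).filter (Ro (x ^ 3)), χ n / (n : ℂ)‖ ≤
        A * Real.exp (-(γ * Real.log M)) := by
    intro d
    induction d using Nat.strong_induction_on with
    | _ d ih =>
      intro M N hTM hMN hd
      have hM1 : 1 ≤ M := hT1.trans hTM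
      have hM0 : (0 : ℝ) < M := by exact_mod_cast hM1
      have hT0 : (0 : ℝ) < T := by exact_mod_cast hT1
      have hlog : Real.log T ≤ Real.log M := Real.log_le_log hT0 (by exact_mod_cast hTM)
      -- one block
      have hblock : ∀ N', M ≤ N' → N' ≤ 2 * M →
          ‖∑ n ∈ (Ioc M N').filter (Ro (x ^ 3)), χ n / (n : ℂ)‖ ≤
            10 * Real.exp (-(γ * Real.log M)) := by
        intro N' h1 h2
        obtain ⟨u, hu⟩ : ∃ u, u = ⌊Real.log M / (6 * K * Real.log x)⌋₊ := ⟨_, rfl⟩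
        obtain ⟨hu1, hE⟩ := est12 hK1 hx3 hM1 (hlT.trans hlog) hu (hlT'.trans hlog)
        rw [← hγ] at hE
        have h3 := block12 h χ hχ (z := x ^ 3) (t := u - 1) hz hz0q hqp hM1 h1 h2
        refine h3.trans (le_trans ?_ hE)
        have h4 : u - 1 + 1 = u := by omega
        rw [h4]
        have h5 : ((x ^ 3 : ℕ) : ℝ) ^ (C * u) ≤ ((x ^ 3 : ℕ) : ℝ) ^ (K * u) := by
          refine pow_le_pow_right₀ ?_ (Nat.mul_le_mul_right _ (by omega))
          exact_mod_cast Nat.one_le_pow _ _ (by omega)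
        gcongr
      rcases Nat.lt_or_ge (2 * M) N with hc | hc
      · have h1 : (Ioc M N).filter (Ro (x ^ 3)) = (Ioc M (2 * M)).filter (Ro (x ^ 3)) ∪
            (Ioc (2 * M) N).filter (Ro (x ^ 3)) := by
          rw [← filter_union]
          congr 1
          ext n
          simp only [mem_Ioc, mem_union]
          omega
        have h2 : Disjoint ((Ioc M (2 * M)).filter (Ro (x ^ 3)))
            ((Ioc (2 * M) N).filter (Ro (x ^ 3))) := by
          rw [disjoint_left]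
          intro n hn hn'
          rw [mem_filter, mem_Ioc] at hn hn'
          omega
        rw [h1, sum_union h2]
        refine (norm_add_le _ _).trans ?_
        have h3 := hblock (2 * M) (by omega) le_rfl
        have h4 := ih (N - 2 * M) (by omega) (2 * M) N (by omega) hc.le le_rfl
        have h5 : Real.log ((2 * M : ℕ) : ℝ) = Real.log 2 + Real.log M := by
          rw [Nat.cast_mul, Real.log_mul (by norm_num) hM0.ne']
          norm_num
        have h6 : Real.exp (-(γ * Real.log ((2 * M : ℕ) : ℝ))) =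
            Real.exp (-v) * Real.exp (-(γ * Real.log M)) := by
          rw [h5, ← Real.exp_add, hv]
          congr 1
          ring
        rw [h6] at h4
        have h7 := mul_le_mul_of_nonneg_right hAv (Real.exp_pos (-(γ * Real.log M))).le
        nlinarith
      · refine (hblock N hMN hc).trans ?_
        have h8 : (10 : ℝ) ≤ A := by
          rw [hA, le_div_iff₀ hv0]
          linarith
        exact mul_le_mul_of_nonneg_right h8 (Real.exp_pos _).le
  -- the bound at `T`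
  have hfin : A * Real.exp (-(γ * Real.log T)) ≤ 1 / (x : ℝ) ^ 2 := by
    have h1 : γ * Real.log T = 6 * Real.log 2 * L := by
      rw [hγ, hlogT]
      field_simp
      ring
    have h2 : Real.exp (-(γ * Real.log T)) ≤ 1 / (x : ℝ) ^ 4 := by
      have h3 : 1 / (x : ℝ) ^ 4 = Real.exp (-(4 * Real.log x)) := by
        rw [Real.exp_neg, ← one_div]
        congr 1
        have h4 : 4 * Real.log x = ((4 : ℕ) : ℝ) * Real.log x := by norm_num
        rw [h4, Real.exp_nat_mul, Real.exp_log hx0]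
      rw [h3, h1]
      apply Real.exp_le_exp.2
      nlinarith
    have h5 : A ≤ 300 * K * x := by
      rw [hA, hv, hγ, div_le_iff₀ (by rw [← hγ, ← hv]; exact hv0)]
      have h6 : Real.log x ≤ x := (Real.log_le_sub_one_of_pos hx0).trans (by linarith)
      have h7 : Real.log 2 / (6 * K * Real.log x) * Real.log 2 =
          (Real.log 2) ^ 2 / (6 * K * Real.log x) := by ring
      rw [h7, mul_div_assoc', le_div_iff₀ hD]
      have h8 : (0.48 : ℝ) ≤ Real.log 2 ^ 2 := by nlinarith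
      have h9 : (0 : ℝ) ≤ K * x := by positivity
      nlinarith
    calc A * Real.exp (-(γ * Real.log T)) ≤ (300 * K * x) * (1 / (x : ℝ) ^ 4) :=
          mul_le_mul h5 h2 (Real.exp_pos _).le (by positivity)
      _ = (300 * K) / x * (1 / (x : ℝ) ^ 2) := by
          field_simp
      _ ≤ 1 * (1 / (x : ℝ) ^ 2) := by
          refine mul_le_mul_of_nonneg_right ?_ (by positivity)
          rw [div_le_one hx0]
          exact_mod_cast hxK
      _ = _ := one_mul _
  -- the limit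
  have hlim := hEul q χ (x ^ 3) hχ
  have hlim2 := ((hlim.sub_const 1).sub_const
    (∑ n ∈ (Ioc (x ^ 3) (TT (36 * K) x)).filter (Ro (x ^ 3)), χ n / (n : ℂ))).norm
  refine le_of_tendsto hlim2 ?_
  have hxT : x ^ 3 ≤ T := by
    rw [hTL]
    refine Nat.pow_le_pow_right (by omega) ?_
    have : 1 ≤ L := by exact_mod_cast hL1
    nlinarith
  filter_upwards [eventually_ge_atTop T] with N hN
  have h1 : (Icc 1 N).filter (Ro (x ^ 3)) = insert 1 ((Ioc (x ^ 3) T).filter (Ro (x ^ 3)) ∪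
      (Ioc T N).filter (Ro (x ^ 3))) := by
    ext n
    simp only [mem_filter, mem_Icc, mem_insert, mem_union, mem_Ioc]
    constructor
    · rintro ⟨⟨h1, h2⟩, h3⟩
      by_cases hn1 : n = 1
      · exact Or.inl hn1
      · right
        have h4 : x ^ 3 < n := by
          by_contra hcon
          push Not at hcon
          exact h3 n.minFac (Nat.minFac_prime hn1) ((Nat.minFac_le (by omega)).trans hcon)
            (Nat.minFac_dvd n)
        rcases Nat.lt_or_ge T n with h5 | h5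
        · exact Or.inr ⟨⟨h5, h2⟩, h3⟩
        · exact Or.inl ⟨⟨h4, h5⟩, h3⟩
    · rintro (rfl | ⟨⟨h1, h2⟩, h3⟩ | ⟨⟨h1, h2⟩, h3⟩)
      · refine ⟨⟨le_rfl, hT1.trans hN⟩, ?_⟩
        intro p hp _ hp1
        exact hp.one_lt.ne' (Nat.dvd_one.1 hp1)
      · exact ⟨⟨by omega, by omega⟩, h3⟩
      · exact ⟨⟨by omega, h2⟩, h3⟩
  have h2 : (1 : ℕ) ∉ (Ioc (x ^ 3) T).filter (Ro (x ^ 3)) ∪ (Ioc T N).filter (Ro (x ^ 3)) := by
    simp only [mem_filter, mem_union, mem_Ioc]
    omega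
  have h3 : Disjoint ((Ioc (x ^ 3) T).filter (Ro (x ^ 3))) ((Ioc T N).filter (Ro (x ^ 3))) := by
    rw [disjoint_left]
    intro n hn hn'
    rw [mem_filter, mem_Ioc] at hn hn'
    omega
  rw [h1, sum_insert h2, sum_union h3, ← hT]
  have h4 : (χ ((1 : ℕ) : ZMod q) / ((1 : ℕ) : ℂ) : ℂ) = 1 := by simp
  rw [h4]
  have h5 : (1 + (∑ n ∈ (Ioc (x ^ 3) T).filter (Ro (x ^ 3)), χ n / (n : ℂ) +
      ∑ n ∈ (Ioc T N).filter (Ro (x ^ 3)), χ n / (n : ℂ)) - 1 -
      ∑ n ∈ (Ioc (x ^ 3) T).filter (Ro (x ^ 3)), χ n / (n : ℂ)) =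
      ∑ n ∈ (Ioc T N).filter (Ro (x ^ 3)), χ n / (n : ℂ) := by ring
  rw [h5]
  exact (key (N - T) T N le_rfl hN le_rfl).trans hfin

end Pool.Agent.Lib.MP_0f858a_nt.KR
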