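import Pool.Agent.Lib.MP_0f858a_nt.KR.Tail12

/-!
TYI: the rough numbers (helper12).
-/

set_option autoImplicit false

namespace Pool.Agent.Lib.MP_0f858a_nt.KR

open Finset Filter
open scoped Classical

/-- the signed sum over rough numbers -/
noncomputable def SG12 (z q N N' : ℕ) : ℝ := ∑ n ∈ (Ioc N N').filter (Ro z), sg q n / n

lemma SG12_eq {z q N N' : ℕ} (hq : 3 ≤ q) :
    SG12 z q N N' = SC12 z q 1 N N' - SC12 z q (q - 1) N N' := by
  unfold SG12 SC12
  rw [sum_filter, sum_filter, sum_filter, ← sum_sub_distrib]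
  refine sum_congr rfl fun n _ => ?_
  have h1 : n ≡ 1 [MOD q] ↔ n % q = 1 := by
    rw [Nat.ModEq, Nat.mod_eq_of_lt (show 1 < q by omega)]
  have h2 : n ≡ q - 1 [MOD q] ↔ (n + 1) % q = 0 := by
    rw [← Nat.dvd_iff_mod_eq_zero, ← Nat.modEq_zero_iff_dvd]
    constructor
    · intro h
      have := h.add_right 1
      rw [show q - 1 + 1 = q by omega] at this
      exact this.trans (by rw [Nat.ModEq, Nat.mod_self, Nat.zero_mod])
    · intro h
      refine Nat.ModEq.add_right_cancel' 1 (h.trans ?_)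
      rw [show q - 1 + 1 = q by omega, Nat.ModEq, Nat.mod_self, Nat.zero_mod]
  by_cases hR : Ro z n
  · simp only [hR, and_true, if_true, h1, h2, sg]
    by_cases h3 : n % q = 1
    · have h4 : ¬ (n + 1) % q = 0 := by
        intro h4
        have h5 : (n + 1) % q = 2 := by
          rw [Nat.add_mod, h3, Nat.mod_eq_of_lt (show 1 < q by omega),
            Nat.mod_eq_of_lt (show 1 + 1 < q by omega)]
        omega
      simp [h3, h4]
    · by_cases h4 : (n + 1) % q = 0
      · simp [h3, h4]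
        ring
      · simp [h3, h4]
  · simp [hR]

/-- module TYI -/
theorem stTyI_12 (hRsh : StRsh) : StTyI := by
  obtain ⟨C, z₀, h⟩ := hRsh
  intro c
  obtain ⟨K, hK⟩ : ∃ K : ℝ, K = C + 1 := ⟨_, rfl⟩
  have hK0 : 0 < K := by rw [hK]; positivity
  have hK1 : (C : ℝ) ≤ K := by rw [hK]; linarith
  obtain ⟨β, hβ⟩ : ∃ β : ℝ, β = Real.log 2 / K := ⟨_, rfl⟩
  have hlog2 := Real.log_two_gt_d9
  have hβ0 : 0 < β := by
    rw [hβ]
    exact div_pos (by linarith) hK0
  -- asymptotics
  have hlogT : Tendsto (fun x : ℕ => Real.log x) atTop atTop :=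
    Real.tendsto_log_atTop.comp tendsto_natCast_atTop_atTop
  have hsqT : Tendsto (fun x : ℕ => Real.sqrt (Real.log x)) atTop atTop :=
    Real.tendsto_sqrt_atTop.comp hlogT
  have hexp : ∀ᶠ x : ℕ in atTop, 6 * c * Real.log x ^ 2 *
      (8 * Real.exp (-(β * Real.sqrt (Real.log x))) + 2 * Real.exp (-Real.log x)) ≤ 1 / 8 := by
    have h1 : Tendsto (fun x : ℕ => (β * Real.sqrt (Real.log x)) ^ 4 *
        Real.exp (-(β * Real.sqrt (Real.log x)))) atTop (nhds 0) :=
      (Real.tendsto_pow_mul_exp_neg_atTop_nhds_zero 4).comp (hsqT.const_mul_atTop hβ0)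
    have h2 : Tendsto (fun x : ℕ => (Real.log x) ^ 2 * Real.exp (-(Real.log x))) atTop (nhds 0) :=
      (Real.tendsto_pow_mul_exp_neg_atTop_nhds_zero 2).comp hlogT
    have h3 := (h1.const_mul (6 * (c : ℝ) * 8 / β ^ 4)).add (h2.const_mul (6 * (c : ℝ) * 2))
    rw [mul_zero, mul_zero, add_zero] at h3
    filter_upwards [h3.eventually_le_const (show (0 : ℝ) < 1 / 8 by norm_num),
      hlogT.eventually_ge_atTop 0] with x hx hx0
    refine le_trans (le_of_eq ?_) hx
    have h4 : Real.sqrt (Real.log x) ^ 4 = Real.log x ^ 2 := by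
      rw [show (4 : ℕ) = 2 * 2 by norm_num, pow_mul, Real.sq_sqrt hx0]
    rw [mul_pow, h4]
    field_simp
  have hall := (((hexp.and (hsqT.eventually_ge_atTop K)).and
    (hsqT.eventually_ge_atTop (Real.log (z₀ + 2)))).and
    (hlogT.eventually_ge_atTop 1)).and (eventually_ge_atTop (z₀ ^ 2 + 9))
  obtain ⟨x₀, hx₀⟩ := eventually_atTop.1 hall
  refine ⟨x₀, ?_⟩
  intro x hx q hq
  obtain ⟨⟨⟨⟨hE, hsK⟩, hsz⟩, hl⟩, hxz⟩ := hx₀ x hx
  rw [Pr, mem_filter, mem_Icc] at hq
  obtain ⟨⟨hq1, hqx⟩, hqp, hq2⟩ := hq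
  have hz0q : z₀ < q := lt_of_pow_lt_pow_left₀ 2 (Nat.zero_le _) (lt_of_le_of_lt (by omega) hq2)
  have hq3 : 3 ≤ q := by
    have : 3 < q := lt_of_pow_lt_pow_left₀ 2 (Nat.zero_le _) (lt_of_le_of_lt (by omega) hq2)
    omega
  have hx0 : (0 : ℝ) < x := by
    have : 0 < x := by omega
    exact_mod_cast this
  have hq0 : (0 : ℝ) < q := by exact_mod_cast hqp.pos
  have hqx' : (q : ℝ) ≤ x := by exact_mod_cast hqx
  obtain ⟨l, hl'⟩ : ∃ l : ℝ, l = Real.log x := ⟨_, rfl⟩
  obtain ⟨s, hs'⟩ : ∃ s : ℝ, s = Real.sqrt l := ⟨_, rfl⟩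
  rw [← hl', ← hs'] at hE
  rw [← hl', ← hs'] at hsK hsz
  rw [← hl'] at hl
  have hs0 : 0 ≤ s := by rw [hs']; exact Real.sqrt_nonneg _
  have hss : s * s = l := by rw [hs']; exact Real.mul_self_sqrt (by linarith)
  have hW : (WW x : ℝ) ≤ Real.exp s := by
    rw [WW, hs', hl']
    exact Nat.floor_le (Real.exp_pos _).le
  have hWz : z₀ ≤ WW x := by
    rw [WW]
    apply Nat.le_floor
    rw [← hl', ← hs']
    have h1 : (z₀ : ℝ) + 2 ≤ Real.exp s := by
      have h2 : (0 : ℝ) < z₀ + 2 := by positivity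
      rw [← Real.exp_log h2]
      exact Real.exp_le_exp.2 hsz
    linarith
  -- the choice of `t`
  obtain ⟨u, hu⟩ : ∃ u, u = ⌊s / K⌋₊ := ⟨_, rfl⟩
  have hu1 : 1 ≤ u := by
    rw [hu]
    apply Nat.le_floor
    rw [Nat.cast_one, one_le_div hK0]
    exact hsK
  have hu2 : (u : ℝ) ≤ s / K := by
    rw [hu]
    exact Nat.floor_le (by positivity)
  have hu3 : s / K < u + 1 := by
    rw [hu]
    exact Nat.lt_floor_add_one _
  obtain ⟨E, hEd⟩ : ∃ E : ℝ, E = 8 * Real.exp (-(β * s)) + 2 * Real.exp (-l) := ⟨_, rfl⟩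
  have hE0 : 0 ≤ E := by rw [hEd]; positivity
  -- one block
  have hblock : ∀ M N : ℕ, x ^ 3 ≤ M → M ≤ N → N ≤ 2 * M → (q : ℝ) * |SG12 (WW x) q M N| ≤ E := by
    intro M N hxM hMN hN
    have hM1 : 1 ≤ M := le_trans (Nat.one_le_pow _ _ (by omega)) hxM
    have hM0 : (0 : ℝ) < M := by exact_mod_cast hM1
    have h1 := h (WW x) (u - 1) q 1 (q - 1) M N hWz hz0q hqp (fun hd => by
      have := Nat.le_of_dvd one_pos hd
      omega) (fun hd => by
      have := Nat.le_of_dvd (by omega) hd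
      omega) hM1 hMN hN
    rw [SG12_eq hq3]
    have h2 : (q : ℝ) * (2 * (1 / 2) ^ (u - 1) / q + 2 * (WW x : ℝ) ^ (C * (u - 1 + 1)) / M) ≤ E := by
      have h3 : u - 1 + 1 = u := by omega
      rw [h3]
      have h4 : (WW x : ℝ) ^ (C * u) ≤ x := by
        calc (WW x : ℝ) ^ (C * u) ≤ (Real.exp s) ^ (C * u) :=
              pow_le_pow_left₀ (Nat.cast_nonneg _) hW _
          _ = Real.exp (((C * u : ℕ) : ℝ) * s) := (Real.exp_nat_mul _ _).symm
          _ ≤ Real.exp l := by
              apply Real.exp_le_exp.2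
              push_cast
              have h5 : (C : ℝ) * u ≤ s := by
                calc (C : ℝ) * u ≤ K * (s / K) := by
                      exact mul_le_mul hK1 hu2 (Nat.cast_nonneg _) hK0.le
                  _ = s := mul_div_cancel₀ _ hK0.ne'
              calc (C : ℝ) * u * s ≤ s * s := mul_le_mul_of_nonneg_right h5 hs0
                _ = l := hss
          _ = x := by rw [hl', Real.exp_log hx0]
      have h5 : 2 * (1 / 2 : ℝ) ^ (u - 1) ≤ 8 * Real.exp (-(β * s)) := by
        have h6 : (1 / 2 : ℝ) ^ (u - 1) = 4 * (1 / 2 : ℝ) ^ (u + 1) := by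
          obtain ⟨w, rfl⟩ : ∃ w, u = w + 1 := ⟨u - 1, by omega⟩
          rw [Nat.add_sub_cancel, pow_succ, pow_succ]
          ring
        have h7 : (1 / 2 : ℝ) ^ (u + 1) = Real.exp (-(Real.log 2 * ((u + 1 : ℕ) : ℝ))) := by
          have h8 : -(Real.log 2 * ((u + 1 : ℕ) : ℝ)) = ((u + 1 : ℕ) : ℝ) * Real.log (1 / 2) := by
            rw [one_div, Real.log_inv]
            ring
          rw [h8, Real.exp_nat_mul, Real.exp_log (by norm_num)]
        have h9 : Real.exp (-(Real.log 2 * ((u + 1 : ℕ) : ℝ))) ≤ Real.exp (-(β * s)) := by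
          apply Real.exp_le_exp.2
          have h10 : β * s = Real.log 2 * (s / K) := by rw [hβ]; ring
          rw [h10]
          push_cast
          have := mul_le_mul_of_nonneg_left hu3.le (by linarith : (0 : ℝ) ≤ Real.log 2)
          linarith
        rw [h6, h7]
        linarith
      have h11 : (q : ℝ) * (2 * (WW x : ℝ) ^ (C * u) / M) ≤ 2 * Real.exp (-l) := by
        have h12 : Real.exp (-l) = 1 / x := by
          rw [Real.exp_neg, hl', Real.exp_log hx0, one_div]
        have h13 : (x : ℝ) ^ 3 ≤ M := by exact_mod_cast hxM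
        rw [h12, mul_div_assoc', div_le_iff₀ hM0]
        calc (q : ℝ) * (2 * (WW x : ℝ) ^ (C * u)) ≤ x * (2 * x) := by gcongr
          _ = 2 * (1 / x) * (x : ℝ) ^ 3 := by
              field_simp
          _ ≤ 2 * (1 / x) * M := mul_le_mul_of_nonneg_left h13 (by positivity)
      calc (q : ℝ) * (2 * (1 / 2) ^ (u - 1) / q + 2 * (WW x : ℝ) ^ (C * u) / M) =
            2 * (1 / 2) ^ (u - 1) + (q : ℝ) * (2 * (WW x : ℝ) ^ (C * u) / M) := by
              field_simp
        _ ≤ E := by rw [hEd]; linarith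
    refine le_trans (mul_le_mul_of_nonneg_left ?_ hq0.le) h2
    exact h1
  -- all blocks
  have key : ∀ d M N : ℕ, x ^ 3 ≤ M → N ≤ M * 2 ^ d → (q : ℝ) * |SG12 (WW x) q M N| ≤ d * E := by
    intro d
    induction d with
    | zero =>
      intro M N _ hN
      have h1 : SG12 (WW x) q M N = 0 := by
        rw [SG12, Ioc_eq_empty (by simpa using hN)]
        simp
      rw [h1]
      simp
    | succ d ih =>
      intro M N hM hN
      have h0 : ((d + 1 : ℕ) : ℝ) * E = E + d * E := by push_cast; ring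
      rw [h0]
      have hdE : 0 ≤ (d : ℝ) * E := by positivity
      rcases Nat.lt_or_ge (2 * M) N with hc | hc
      · have h1 : SG12 (WW x) q M N = SG12 (WW x) q M (2 * M) + SG12 (WW x) q (2 * M) N := by
          unfold SG12
          rw [← sum_union]
          · congr 1
            rw [← filter_union]
            congr 1
            ext n
            simp only [mem_Ioc, mem_union]
            omega
          · rw [disjoint_left]
            intro n hn hn'
            rw [mem_filter, mem_Ioc] at hn hn'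
            omega
        rw [h1]
        have h2 := hblock M (2 * M) hM (by omega) le_rfl
        have h3 := ih (2 * M) N (by omega) (by rw [pow_succ] at hN; linarith)
        have h4 := mul_le_mul_of_nonneg_left (abs_add_le (SG12 (WW x) q M (2 * M))
          (SG12 (WW x) q (2 * M) N)) hq0.le
        linarith
      · rcases Nat.le_total M N with h1 | h1
        · have := hblock M N hM h1 hc
          linarith
        · have h2 : SG12 (WW x) q M N = 0 := by
            rw [SG12, Ioc_eq_empty (by omega)]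
            simp
          rw [h2]
          simp
          linarith
  -- conclusion
  obtain ⟨L, hL⟩ : ∃ L, L = ⌈Real.log x⌉₊ := ⟨_, rfl⟩
  have h1 := key (c * L * Nat.clog 2 x) (x ^ 3) (TT c x) le_rfl (by
    rw [TT, ← hL]
    calc x ^ (c * L) ≤ (2 ^ Nat.clog 2 x) ^ (c * L) :=
          Nat.pow_le_pow_left (Nat.le_pow_clog (by norm_num) x) _
      _ = 2 ^ (c * L * Nat.clog 2 x) := by rw [← pow_mul, mul_comm]
      _ ≤ x ^ 3 * 2 ^ (c * L * Nat.clog 2 x) :=
          Nat.le_mul_of_pos_left _ (Nat.pow_pos (by omega)))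
  refine h1.trans (le_trans ?_ hE)
  rw [← hEd]
  refine mul_le_mul_of_nonneg_right ?_ hE0
  have hLl : (L : ℝ) ≤ 2 * l := by
    have := Nat.ceil_lt_add_one (show 0 ≤ Real.log x by rw [← hl']; linarith)
    rw [← hL, ← hl'] at this
    linarith
  have hcl : (Nat.clog 2 x : ℝ) ≤ 3 * l := by
    have h2 : 1 < x := by omega
    have h3 : 2 ^ (Nat.clog 2 x - 1) < x := Nat.pow_pred_clog_lt_self (by norm_num) h2
    have h4 : 0 < Nat.clog 2 x := Nat.clog_pos (by norm_num) (by omega)
    have h5 : Real.log ((2 ^ (Nat.clog 2 x - 1) : ℕ) : ℝ) ≤ Real.log x :=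
      Real.log_le_log (by positivity) (by exact_mod_cast h3.le)
    rw [Nat.cast_pow, Real.log_pow, ← hl'] at h5
    have h6 : ((Nat.clog 2 x - 1 : ℕ) : ℝ) = Nat.clog 2 x - 1 := by
      rw [Nat.cast_sub h4]
      norm_num
    rw [h6] at h5
    have h7 : Real.log ((2 : ℕ) : ℝ) = Real.log 2 := by norm_num
    rw [h7] at h5
    by_contra hcon
    push Not at hcon
    nlinarith
  push_cast
  calc (c : ℝ) * L * Nat.clog 2 x ≤ c * (2 * l) * (3 * l) := by gcongr
    _ = 6 * c * l ^ 2 := by ring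

end Pool.Agent.Lib.MP_0f858a_nt.KR
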