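import Mathlib
import Pool.Agent.Lib.MP_0f858a_nt.KR.Stmts84

/-!
MP_0f858a_nt, theorem KR, module TYII: the bilinear sums over `n = p m`, from the large sieve.
-/

set_option autoImplicit false

namespace Pool.Agent.Lib.MP_0f858a_nt.KR

open Finset Filter
open scoped Classical

/-! ### One box -/

theorem ty2_orth_96 (q : ℕ) [NeZero q] (hq : q.Prime) (h3 : 3 ≤ q) (n : ℕ) :
    ∑ χ ∈ odd q, χ (n : ZMod q) = ((((q : ℝ) - 1) / 2 * sg q n : ℝ) : ℂ) := by
  have hne2 : (1 : ZMod q) ≠ -1 := by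
    intro h
    have h2 : ((2 : ℕ) : ZMod q) = 0 := by
      push_cast
      have : (1 : ZMod q) + 1 = 0 := by
        nth_rewrite 1 [h]
        ring
      linear_combination this
    rw [ZMod.natCast_eq_zero_iff] at h2
    exact absurd (Nat.le_of_dvd (by norm_num) h2) (by omega)
  have e1 : ∀ χ : DirichletCharacter ℂ q,
      (if χ (-1) = -1 then χ (n : ZMod q) else 0) =
        1 / 2 * (χ (n : ZMod q) - χ (-(n : ZMod q))) := by
    intro χ
    rcases χ.even_or_odd with h | h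
    · have h1 : χ (-1) = 1 := h
      have h2 : χ (-(n : ZMod q)) = χ (n : ZMod q) :=
        DirichletCharacter.Even.eval_neg (ψ := χ) (n : ZMod q) h
      rw [if_neg, h2]
      · ring
      · rw [h1]
        norm_num
    · have h1 : χ (-1) = -1 := h
      have h2 : χ (-(n : ZMod q)) = -χ (n : ZMod q) :=
        DirichletCharacter.Odd.eval_neg (ψ := χ) (n : ZMod q) h
      rw [if_pos h1, h2]
      ring
  have e2 : ∑ χ ∈ odd q, χ (n : ZMod q) =
      1 / 2 * ((∑ χ : DirichletCharacter ℂ q, χ (n : ZMod q)) -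
        ∑ χ : DirichletCharacter ℂ q, χ (-(n : ZMod q))) := by
    unfold odd
    rw [Finset.sum_filter, Finset.sum_congr rfl (fun χ _ => e1 χ), ← Finset.mul_sum,
      Finset.sum_sub_distrib]
  rw [e2, DirichletCharacter.sum_characters_eq, DirichletCharacter.sum_characters_eq,
    Nat.totient_prime hq]
  have hc : (((q - 1 : ℕ) : ℕ) : ℂ) = (q : ℂ) - 1 := by
    rw [Nat.cast_sub (by omega)]
    push_cast
    ring
  rw [hc]
  have a1 : ((n : ZMod q) = 1) ↔ n % q = 1 := by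
    have : (1 : ZMod q) = ((1 : ℕ) : ZMod q) := by push_cast; ring
    rw [this, ZMod.natCast_eq_natCast_iff', Nat.mod_eq_of_lt (show 1 < q by omega)]
  have a2 : (-(n : ZMod q) = 1) ↔ (n + 1) % q = 0 := by
    rw [← Nat.dvd_iff_mod_eq_zero, ← ZMod.natCast_eq_zero_iff]
    push_cast
    constructor
    · intro h
      linear_combination -h
    · intro h
      linear_combination -h
  unfold sg
  by_cases b1 : n % q = 1
  · have b2 : ¬ (-(n : ZMod q) = 1) := by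
      rw [← a1] at b1
      rw [b1]
      exact fun h => hne2 h.symm
    rw [if_pos (a1.2 b1), if_neg b2, if_pos b1]
    push_cast
    ring
  · rw [if_neg (fun h => b1 (a1.1 h)), if_neg b1]
    by_cases b2 : (n + 1) % q = 0
    · rw [if_pos (a2.2 b2), if_pos b2]
      push_cast
      ring
    · rw [if_neg (fun h => b2 (a2.1 h)), if_neg b2]
      push_cast
      ring

theorem ty2_vs_96 (q : ℕ) [NeZero q] (S : Finset ℕ) (a : ℕ → ℂ) :
    VS q S a = ∑ χ ∈ univ.filter (fun χ : DirichletCharacter ℂ q => χ ≠ 1),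
      ‖∑ n ∈ S, a n * χ n‖ ^ 2 := by
  unfold VS
  rw [finsum_eq_sum_of_fintype, Finset.sum_filter]
  refine Finset.sum_congr rfl fun χ _ => ?_
  rw [finsum_eq_if]

theorem ty2_vs_nonneg_96 (q : ℕ) (S : Finset ℕ) (a : ℕ → ℂ) : 0 ≤ VS q S a := by
  unfold VS
  refine finsum_nonneg fun χ => finsum_nonneg fun _ => by positivity

/-- one modulus -/
theorem ty2_box1_96 (q : ℕ) (hq : q.Prime) (h3 : 3 ≤ q) (A B : Finset ℕ) (b : ℕ → ℝ) :
    ((q : ℝ) - 1) / 2 * |∑ p ∈ A, ∑ m ∈ B, sg q (p * m) * b m / ((p : ℝ) * m)| ≤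
      Real.sqrt (VS q A (fun n => 1 / (n : ℂ))) *
        Real.sqrt (VS q B (fun n => (b n : ℂ) / (n : ℂ))) := by
  have : NeZero q := ⟨by omega⟩
  have hq1 : (0 : ℝ) ≤ ((q : ℝ) - 1) / 2 := by
    have : (3 : ℝ) ≤ q := by exact_mod_cast h3
    linarith
  have e1 : ((((q : ℝ) - 1) / 2 *
      ∑ p ∈ A, ∑ m ∈ B, sg q (p * m) * b m / ((p : ℝ) * m) : ℝ) : ℂ) =
      ∑ χ ∈ odd q, (∑ p ∈ A, 1 / (p : ℂ) * χ p) * (∑ m ∈ B, (b m : ℂ) / (m : ℂ) * χ m) := by
    have e2 : ∀ χ : DirichletCharacter ℂ q,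
        (∑ p ∈ A, 1 / (p : ℂ) * χ p) * (∑ m ∈ B, (b m : ℂ) / (m : ℂ) * χ m) =
        ∑ p ∈ A, ∑ m ∈ B, (b m : ℂ) / ((p : ℂ) * m) * χ ((p * m : ℕ) : ZMod q) := by
      intro χ
      rw [Finset.sum_mul_sum]
      refine Finset.sum_congr rfl fun p _ => Finset.sum_congr rfl fun m _ => ?_
      push_cast
      rw [map_mul]
      ring
    have e4 : ∑ χ ∈ odd q, (∑ p ∈ A, 1 / (p : ℂ) * χ p) * (∑ m ∈ B, (b m : ℂ) / (m : ℂ) * χ m) =
        ∑ p ∈ A, ∑ m ∈ B, ∑ χ ∈ odd q,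
          (b m : ℂ) / ((p : ℂ) * m) * χ ((p * m : ℕ) : ZMod q) := by
      rw [Finset.sum_congr rfl (fun χ _ => e2 χ), Finset.sum_comm]
      refine Finset.sum_congr rfl fun p _ => ?_
      rw [Finset.sum_comm]
    rw [e4]
    push_cast
    rw [Finset.mul_sum]
    refine Finset.sum_congr rfl fun p _ => ?_
    rw [Finset.mul_sum]
    refine Finset.sum_congr rfl fun m _ => ?_
    rw [← Finset.mul_sum]
    have := ty2_orth_96 q hq h3 (p * m)
    push_cast at this ⊢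
    rw [this]
    ring
  have e3 : ((q : ℝ) - 1) / 2 * |∑ p ∈ A, ∑ m ∈ B, sg q (p * m) * b m / ((p : ℝ) * m)| =
      ‖((((q : ℝ) - 1) / 2 *
      ∑ p ∈ A, ∑ m ∈ B, sg q (p * m) * b m / ((p : ℝ) * m) : ℝ) : ℂ)‖ := by
    rw [Complex.norm_real, Real.norm_eq_abs, abs_mul, abs_of_nonneg hq1]
  rw [e3, e1]
  have hsub : odd q ⊆ univ.filter (fun χ : DirichletCharacter ℂ q => χ ≠ 1) := by
    intro χ hχ
    unfold odd at hχ
    rw [Finset.mem_filter] at hχ ⊢
    refine ⟨Finset.mem_univ _, ?_⟩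
    rintro rfl
    have h1 := hχ.2
    rw [MulChar.one_apply (by exact isUnit_neg_one)] at h1
    norm_num at h1
  calc ‖∑ χ ∈ odd q, (∑ p ∈ A, 1 / (p : ℂ) * χ p) * (∑ m ∈ B, (b m : ℂ) / (m : ℂ) * χ m)‖
      ≤ ∑ χ ∈ odd q, ‖∑ p ∈ A, 1 / (p : ℂ) * χ p‖ * ‖∑ m ∈ B, (b m : ℂ) / (m : ℂ) * χ m‖ := by
        refine (norm_sum_le _ _).trans (le_of_eq ?_)
        exact Finset.sum_congr rfl fun χ _ => norm_mul _ _
    _ ≤ ∑ χ ∈ univ.filter (fun χ : DirichletCharacter ℂ q => χ ≠ 1),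
        ‖∑ p ∈ A, 1 / (p : ℂ) * χ p‖ * ‖∑ m ∈ B, (b m : ℂ) / (m : ℂ) * χ m‖ :=
        Finset.sum_le_sum_of_subset_of_nonneg hsub fun _ _ _ => by positivity
    _ ≤ _ := by
        rw [ty2_vs_96, ty2_vs_96]
        exact Real.sum_mul_le_sqrt_mul_sqrt _ _ _

theorem ty2_sq_96 (S : Finset ℕ) (M : ℕ) (hM : 1 ≤ M) (hS : S ⊆ Ioc M (2 * M)) (a : ℕ → ℂ)
    (ha : ∀ n ∈ S, ‖a n‖ ≤ 1 / (n : ℝ)) : ∑ n ∈ S, ‖a n‖ ^ 2 ≤ 1 / (M : ℝ) := by
  have hM' : (1 : ℝ) ≤ M := by exact_mod_cast hM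
  have h1 : ∀ n ∈ S, ‖a n‖ ^ 2 ≤ (1 / (M : ℝ)) ^ 2 := by
    intro n hn
    refine pow_le_pow_left₀ (norm_nonneg _) ((ha n hn).trans ?_) 2
    have := (Finset.mem_Ioc.1 (hS hn)).1
    have h2 : (M : ℝ) ≤ n := by exact_mod_cast this.le
    exact one_div_le_one_div_of_le (by linarith) h2
  refine (Finset.sum_le_card_nsmul _ _ _ h1).trans ?_
  rw [nsmul_eq_mul]
  have hc : (S.card : ℝ) ≤ M := by
    have := Finset.card_le_card hS
    rw [Nat.card_Ioc] at this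
    exact_mod_cast this.trans (by omega)
  calc (S.card : ℝ) * (1 / (M : ℝ)) ^ 2 ≤ M * (1 / (M : ℝ)) ^ 2 := by gcongr
    _ = 1 / (M : ℝ) := by
      field_simp

/-- a box, all moduli -/
theorem ty2_box_96 (C : ℝ) (hC : 0 < C)
    (hM : ∀ (x M : ℕ) (S : Finset ℕ) (a : ℕ → ℂ), 1 ≤ x → 1 ≤ M →
      S ⊆ Ioc M (2 * M) →
      ∑ q ∈ (Icc 1 x).filter Nat.Prime, VS q S a ≤
        C * (M + (x : ℝ) ^ 2) * ∑ n ∈ S, ‖a n‖ ^ 2)
    (x P M : ℕ) (hx : 1 ≤ x) (hP : 1 ≤ P) (hM1 : 1 ≤ M) (A B : Finset ℕ)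
    (hA : A ⊆ Ioc P (2 * P)) (hB : B ⊆ Ioc M (2 * M)) (b : ℕ → ℝ)
    (hb : ∀ m ∈ B, |b m| ≤ 1) (Q : Finset ℕ)
    (hQ : ∀ q ∈ Q, q.Prime ∧ 3 ≤ q ∧ q ≤ x) :
    ∑ q ∈ Q, ((q : ℝ) - 1) / 2 * |∑ p ∈ A, ∑ m ∈ B, sg q (p * m) * b m / ((p : ℝ) * m)| ≤
      C * Real.sqrt ((1 + (x : ℝ) ^ 2 / P) * (1 + (x : ℝ) ^ 2 / M)) := by
  have hP' : (1 : ℝ) ≤ P := by exact_mod_cast hP
  have hM' : (1 : ℝ) ≤ M := by exact_mod_cast hM1
  have hsub : Q ⊆ (Icc 1 x).filter Nat.Prime := by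
    intro q hq
    rw [Finset.mem_filter, Finset.mem_Icc]
    obtain ⟨h1, h2, h3⟩ := hQ q hq
    exact ⟨⟨by omega, h3⟩, h1⟩
  have key : ∀ (N : ℕ) (S : Finset ℕ) (a : ℕ → ℂ), 1 ≤ N → S ⊆ Ioc N (2 * N) →
      (∀ n ∈ S, ‖a n‖ ≤ 1 / (n : ℝ)) →
      ∑ q ∈ Q, VS q S a ≤ C * (1 + (x : ℝ) ^ 2 / N) := by
    intro N S a hN hS ha
    have hN' : (1 : ℝ) ≤ N := by exact_mod_cast hN
    calc ∑ q ∈ Q, VS q S a ≤ ∑ q ∈ (Icc 1 x).filter Nat.Prime, VS q S a :=
          Finset.sum_le_sum_of_subset_of_nonneg hsub fun _ _ _ => ty2_vs_nonneg_96 _ _ _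
      _ ≤ C * (N + (x : ℝ) ^ 2) * ∑ n ∈ S, ‖a n‖ ^ 2 := hM x N S a hx hN hS
      _ ≤ C * (N + (x : ℝ) ^ 2) * (1 / (N : ℝ)) := by
          gcongr
          exact ty2_sq_96 S N hN hS a ha
      _ = C * (1 + (x : ℝ) ^ 2 / N) := by
          field_simp
  have kA := key P A (fun n => 1 / (n : ℂ)) hP hA (by
    intro n hn
    simp)
  have kB := key M B (fun n => (b n : ℂ) / (n : ℂ)) hM1 hB (by
    intro n hn
    rw [norm_div, Complex.norm_real, Real.norm_eq_abs, Complex.norm_natCast]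
    have := hb n hn
    gcongr)
  calc ∑ q ∈ Q, ((q : ℝ) - 1) / 2 * |∑ p ∈ A, ∑ m ∈ B, sg q (p * m) * b m / ((p : ℝ) * m)|
      ≤ ∑ q ∈ Q, Real.sqrt (VS q A (fun n => 1 / (n : ℂ))) *
        Real.sqrt (VS q B (fun n => (b n : ℂ) / (n : ℂ))) :=
        Finset.sum_le_sum fun q hq => ty2_box1_96 q (hQ q hq).1 (hQ q hq).2.1 A B b
    _ ≤ Real.sqrt (∑ q ∈ Q, Real.sqrt (VS q A (fun n => 1 / (n : ℂ))) ^ 2) *
        Real.sqrt (∑ q ∈ Q, Real.sqrt (VS q B (fun n => (b n : ℂ) / (n : ℂ))) ^ 2) :=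
        Real.sum_mul_le_sqrt_mul_sqrt _ _ _
    _ = Real.sqrt (∑ q ∈ Q, VS q A (fun n => 1 / (n : ℂ))) *
        Real.sqrt (∑ q ∈ Q, VS q B (fun n => (b n : ℂ) / (n : ℂ))) := by
        congr 2
        · exact Finset.sum_congr rfl fun q _ => Real.sq_sqrt (ty2_vs_nonneg_96 _ _ _)
        · exact Finset.sum_congr rfl fun q _ => Real.sq_sqrt (ty2_vs_nonneg_96 _ _ _)
    _ ≤ Real.sqrt (C * (1 + (x : ℝ) ^ 2 / P)) * Real.sqrt (C * (1 + (x : ℝ) ^ 2 / M)) := by
        gcongr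
    _ = C * Real.sqrt ((1 + (x : ℝ) ^ 2 / P) * (1 + (x : ℝ) ^ 2 / M)) := by
        rw [Real.sqrt_mul hC.le, Real.sqrt_mul hC.le, Real.sqrt_mul (by positivity)]
        have := Real.mul_self_sqrt hC.le
        calc _ = (Real.sqrt C * Real.sqrt C) * (Real.sqrt (1 + (x : ℝ) ^ 2 / P) *
              Real.sqrt (1 + (x : ℝ) ^ 2 / M)) := by ring
          _ = _ := by rw [this]

/-! ### The splitting -/

/-- the primes of the box -/
noncomputable def ty2A_96 (W y D i : ℕ) : Finset ℕ :=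
  (Ioc W y).filter fun p => p.Prime ∧ ⌊(D : ℝ) * Real.log p⌋₊ = i

/-- the rough numbers of the box -/
noncomputable def ty2B_96 (W a b D i j : ℕ) : Finset ℕ :=
  (Icc 1 b).filter fun m => Ro W m ∧ ((a : ℝ) < Real.exp ((i : ℝ) / D) * m ∧
    Real.exp (((i : ℝ) + 1) / D) * m ≤ b) ∧ Nat.log 2 (m - 1) = j

theorem ty2_idx_96 (D p : ℕ) (hD : 1 ≤ D) (hp : 1 ≤ p) :
    Real.exp ((⌊(D : ℝ) * Real.log p⌋₊ : ℝ) / D) ≤ p ∧
      (p : ℝ) < Real.exp (((⌊(D : ℝ) * Real.log p⌋₊ : ℝ) + 1) / D) := by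
  have hD' : (0 : ℝ) < D := by exact_mod_cast hD
  have hp' : (0 : ℝ) < p := by exact_mod_cast hp
  have hl : 0 ≤ Real.log p := Real.log_nonneg (by exact_mod_cast hp)
  have h1 := Nat.floor_le (mul_nonneg hD'.le hl)
  have h2 := Nat.lt_floor_add_one ((D : ℝ) * Real.log p)
  constructor
  · rw [← Real.le_log_iff_exp_le hp', div_le_iff₀ hD']
    linarith
  · rw [← Real.log_lt_iff_lt_exp hp', lt_div_iff₀ hD']
    linarith

/-- the rearrangement -/
theorem ty2_rearr_96 (W y a b : ℕ) (F : ℕ → ℕ → ℝ) :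
    ∑ n ∈ Ioc a b, ∑ p ∈ n.primeFactors.filter (fun p => W < p ∧ p ≤ y), F p (n / p) =
      ∑ u ∈ (((Ioc W y).filter Nat.Prime) ×ˢ Icc 1 b).filter
        (fun u => a < u.1 * u.2 ∧ u.1 * u.2 ≤ b), F u.1 u.2 := by
  rw [Finset.sum_sigma']
  refine Finset.sum_bij' (fun v _ => (v.2, v.1 / v.2)) (fun u _ => ⟨u.1 * u.2, u.1⟩) ?_ ?_ ?_ ?_ ?_
  · rintro ⟨n, p⟩ h
    simp only [Finset.mem_sigma, Finset.mem_Ioc, Finset.mem_filter, Nat.mem_primeFactors] at h
    obtain ⟨⟨h1, h2⟩, ⟨hp, hd, h0⟩, h3, h4⟩ := h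
    simp only [Finset.mem_filter, Finset.mem_product, Finset.mem_Ioc, Finset.mem_Icc]
    have e := Nat.mul_div_cancel' hd
    refine ⟨⟨⟨⟨h3, h4⟩, hp⟩, ?_, ?_⟩, ?_, ?_⟩
    · exact Nat.div_pos (Nat.le_of_dvd (Nat.pos_of_ne_zero h0) hd) hp.pos
    · exact (Nat.div_le_self _ _).trans h2
    · rw [e]
      exact h1
    · rw [e]
      exact h2
  · rintro ⟨p, m⟩ h
    simp only [Finset.mem_filter, Finset.mem_product, Finset.mem_Ioc, Finset.mem_Icc] at h
    obtain ⟨⟨⟨⟨h1, h2⟩, hp⟩, h3, h4⟩, h5, h6⟩ := h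
    simp only [Finset.mem_sigma, Finset.mem_Ioc, Finset.mem_filter, Nat.mem_primeFactors]
    exact ⟨⟨h5, h6⟩, ⟨hp, Dvd.intro _ rfl, Nat.mul_ne_zero hp.ne_zero (by omega)⟩, h1, h2⟩
  · rintro ⟨n, p⟩ h
    simp only [Finset.mem_sigma, Finset.mem_Ioc, Finset.mem_filter, Nat.mem_primeFactors] at h
    obtain ⟨⟨h1, h2⟩, ⟨hp, hd, h0⟩, h3, h4⟩ := h
    simp only [Nat.mul_div_cancel' hd]
  · rintro ⟨p, m⟩ h
    simp only [Finset.mem_filter, Finset.mem_product, Finset.mem_Ioc, Finset.mem_Icc] at h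
    obtain ⟨⟨⟨⟨h1, h2⟩, hp⟩, h3, h4⟩, h5, h6⟩ := h
    simp only [Nat.mul_div_cancel_left m hp.pos]
  · rintro ⟨n, p⟩ _
    rfl

/-- the splitting into boxes -/
theorem ty2_split_96 (q W y a b D I J : ℕ) (hD : 1 ≤ D)
    (hI : ∀ p, W < p → p ≤ y → ⌊(D : ℝ) * Real.log p⌋₊ < I)
    (hJ : ∀ m, m ≤ b → Nat.log 2 (m - 1) < J) :
    |∑ n ∈ Ioc a b, sg q n * bs W y n / n| ≤
      ∑ n ∈ (Ioc a b).filter (fun n : ℕ => (n : ℝ) ≤ Real.exp (1 / (D : ℝ)) * a ∨
        (b : ℝ) < Real.exp (1 / (D : ℝ)) * n), |sg q n| * n.primeFactors.card / n +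
      ∑ i ∈ range I, ∑ j ∈ range J,
        |∑ p ∈ ty2A_96 W y D i, ∑ m ∈ ty2B_96 W a b D i j,
          sg q (p * m) * be W y m / ((p : ℝ) * m)| := by
  set inn : ℕ → ℕ → Prop := fun p m =>
    (a : ℝ) < Real.exp ((⌊(D : ℝ) * Real.log p⌋₊ : ℝ) / D) * m ∧
      Real.exp (((⌊(D : ℝ) * Real.log p⌋₊ : ℝ) + 1) / D) * m ≤ b with hinn
  set F : ℕ → ℕ → ℝ := fun p m => sg q (p * m) * be W y m / ((p : ℝ) * m) with hF
  have hD' : (0 : ℝ) < D := by exact_mod_cast hD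
  have be01 : ∀ m, 0 ≤ be W y m ∧ be W y m ≤ 1 := by
    intro m
    unfold be
    split_ifs with h
    · constructor
      · positivity
      · rw [div_le_one (by positivity)]
        have : (0 : ℝ) ≤ os W y m := Nat.cast_nonneg _
        linarith
    · simp
  have e0 : ∑ n ∈ Ioc a b, sg q n * bs W y n / n =
      ∑ n ∈ Ioc a b, ∑ p ∈ n.primeFactors.filter (fun p => W < p ∧ p ≤ y),
        (if inn p (n / p) then F p (n / p) else 0) +
      ∑ n ∈ Ioc a b, ∑ p ∈ n.primeFactors.filter (fun p => W < p ∧ p ≤ y),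
        (if inn p (n / p) then 0 else F p (n / p)) := by
    rw [← Finset.sum_add_distrib]
    refine Finset.sum_congr rfl fun n hn => ?_
    rw [← Finset.sum_add_distrib]
    unfold bs
    rw [Finset.mul_sum, Finset.sum_div]
    refine Finset.sum_congr rfl fun p hp => ?_
    have hd := Nat.dvd_of_mem_primeFactors (Finset.mem_filter.1 hp).1
    have hpp := Nat.prime_of_mem_primeFactors (Finset.mem_filter.1 hp).1
    have e := Nat.mul_div_cancel' hd
    have e' : (p : ℝ) * ((n / p : ℕ) : ℝ) = n := by exact_mod_cast e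
    have e2 : F p (n / p) = sg q n * be W y (n / p) / n := by
      simp only [hF]
      rw [e, e']
    split_ifs <;> rw [e2] <;> ring
  rw [e0]
  refine (abs_add_le _ _).trans ?_
  rw [add_comm]
  refine add_le_add ?_ ?_
  · -- the boundary
    refine (Finset.abs_sum_le_sum_abs _ _).trans ?_
    rw [Finset.sum_filter]
    refine Finset.sum_le_sum fun n hn => ?_
    rw [Finset.mem_Ioc] at hn
    have hn0 : (0 : ℝ) < n := by exact_mod_cast (by omega : 0 < n)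
    split_ifs with hbd
    · refine (Finset.abs_sum_le_sum_abs _ _).trans ?_
      have : ∀ p ∈ n.primeFactors.filter (fun p => W < p ∧ p ≤ y),
          |if inn p (n / p) then 0 else F p (n / p)| ≤ |sg q n| / n := by
        intro p hp
        have hd := Nat.dvd_of_mem_primeFactors (Finset.mem_filter.1 hp).1
        have e := Nat.mul_div_cancel' hd
        have e' : (p : ℝ) * ((n / p : ℕ) : ℝ) = n := by exact_mod_cast e
        have e2 : F p (n / p) = sg q n * be W y (n / p) / n := by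
          simp only [hF]
          rw [e, e']
        split_ifs
        · rw [abs_zero]
          positivity
        · rw [e2, abs_div, abs_mul, abs_of_pos hn0, abs_of_nonneg (be01 _).1]
          gcongr
          have := (be01 (n / p)).2
          nlinarith [abs_nonneg (sg q n)]
      refine (Finset.sum_le_card_nsmul _ _ _ this).trans ?_
      rw [nsmul_eq_mul]
      have hc : (((n.primeFactors.filter (fun p => W < p ∧ p ≤ y)).card : ℕ) : ℝ) ≤
          n.primeFactors.card := by exact_mod_cast Finset.card_filter_le _ _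
      calc _ ≤ (n.primeFactors.card : ℝ) * (|sg q n| / n) := by gcongr
        _ = _ := by ring
    · rw [Finset.sum_eq_zero, abs_zero]
      intro p hp
      rw [if_pos]
      push Not at hbd
      have hd := Nat.dvd_of_mem_primeFactors (Finset.mem_filter.1 hp).1
      have hpp := Nat.prime_of_mem_primeFactors (Finset.mem_filter.1 hp).1
      have e := Nat.mul_div_cancel' hd
      have e' : (p : ℝ) * ((n / p : ℕ) : ℝ) = n := by exact_mod_cast e
      obtain ⟨i1, i2⟩ := ty2_idx_96 D p hD hpp.one_le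
      have e3 : Real.exp (((⌊(D : ℝ) * Real.log p⌋₊ : ℝ) + 1) / D) =
          Real.exp (1 / (D : ℝ)) * Real.exp ((⌊(D : ℝ) * Real.log p⌋₊ : ℝ) / D) := by
        rw [← Real.exp_add]
        congr 1
        ring
      have hm0 : (0 : ℝ) ≤ ((n / p : ℕ) : ℝ) := Nat.cast_nonneg _
      have hE := Real.exp_pos (1 / (D : ℝ))
      constructor
      · by_contra hcon
        push Not at hcon
        have : (n : ℝ) ≤ Real.exp (1 / (D : ℝ)) * a := by
          calc (n : ℝ) = p * ((n / p : ℕ) : ℝ) := e'.symm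
            _ ≤ Real.exp (((⌊(D : ℝ) * Real.log p⌋₊ : ℝ) + 1) / D) * ((n / p : ℕ) : ℝ) := by
              gcongr
            _ = Real.exp (1 / (D : ℝ)) * (Real.exp ((⌊(D : ℝ) * Real.log p⌋₊ : ℝ) / D) *
                ((n / p : ℕ) : ℝ)) := by
              rw [e3]
              ring
            _ ≤ _ := by gcongr
        linarith [hbd.1]
      · refine le_trans ?_ hbd.2
        rw [e3, mul_assoc, ← e']
        gcongr
  · -- the boxes
    rw [ty2_rearr_96 W y a b (fun p m => if inn p m then F p m else 0)]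
    have e4 : ∑ u ∈ (((Ioc W y).filter Nat.Prime) ×ˢ Icc 1 b).filter
        (fun u => a < u.1 * u.2 ∧ u.1 * u.2 ≤ b), (if inn u.1 u.2 then F u.1 u.2 else 0) =
        ∑ u ∈ (((Ioc W y).filter Nat.Prime) ×ˢ Icc 1 b).filter
          (fun u => Ro W u.2 ∧ inn u.1 u.2), F u.1 u.2 := by
      rw [← Finset.sum_filter, Finset.filter_filter]
      symm
      apply Finset.sum_subset
      · intro u hu
        rw [Finset.mem_filter, Finset.mem_product, Finset.mem_filter, Finset.mem_Ioc,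
          Finset.mem_Icc] at hu ⊢
        obtain ⟨h1, h2, h3⟩ := hu
        refine ⟨h1, ?_, h3⟩
        obtain ⟨i1, i2⟩ := ty2_idx_96 D u.1 hD h1.1.2.one_le
        have hm0 : (0 : ℝ) ≤ (u.2 : ℝ) := Nat.cast_nonneg _
        constructor
        · have : (a : ℝ) < (u.1 : ℝ) * u.2 := by
            refine lt_of_lt_of_le h3.1 ?_
            gcongr
          exact_mod_cast this
        · have : (u.1 : ℝ) * u.2 ≤ b := by
            refine le_trans ?_ h3.2
            gcongr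
          exact_mod_cast this
      · intro u hu hnu
        rw [Finset.mem_filter] at hu hnu
        have hr : ¬ Ro W u.2 := fun h => hnu ⟨hu.1, h, hu.2.2⟩
        simp only [hF]
        unfold be
        rw [if_neg hr]
        simp
    rw [e4, ← Finset.sum_fiberwise_of_maps_to (t := range I ×ˢ range J)
      (g := fun u : ℕ × ℕ => (⌊(D : ℝ) * Real.log u.1⌋₊, Nat.log 2 (u.2 - 1)))]
    · rw [Finset.sum_product]
      refine (Finset.abs_sum_le_sum_abs _ _).trans ?_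
      refine Finset.sum_le_sum fun i _ => (Finset.abs_sum_le_sum_abs _ _).trans ?_
      refine Finset.sum_le_sum fun j _ => le_of_eq ?_
      congr 1
      rw [← Finset.sum_product']
      refine Finset.sum_congr ?_ fun _ _ => rfl
      ext ⟨p, m⟩
      simp only [ty2A_96, ty2B_96, Finset.mem_filter, Finset.mem_product, Finset.mem_Ioc,
        Finset.mem_Icc, Prod.mk.injEq, hinn]
      constructor
      · rintro ⟨⟨⟨⟨h1, h2⟩, h3⟩, h4, h5⟩, h6, h7⟩
        rw [h6] at h5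
        exact ⟨⟨h1, h2, h6⟩, h3, h4, h5, h7⟩
      · rintro ⟨⟨h1, h2, h6⟩, h3, h4, h5, h7⟩
        refine ⟨⟨⟨⟨h1, h2⟩, h3⟩, h4, ?_⟩, h6, h7⟩
        rw [h6]
        exact h5
    · intro u hu
      rw [Finset.mem_filter, Finset.mem_product, Finset.mem_filter, Finset.mem_Ioc,
          Finset.mem_Icc] at hu
      rw [Finset.mem_product, Finset.mem_range, Finset.mem_range]
      exact ⟨hI _ hu.1.1.1.1 hu.1.1.1.2, hJ _ hu.1.2.2⟩

/-! ### The boundary -/

theorem ty2_cls_96 (q u v c : ℕ) (hq : 0 < q) (huv : u ≤ v) :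
    ((((Ioc u v).filter (fun n => n ≡ c [MOD q])).card : ℕ) : ℝ) ≤ ((v : ℝ) - u) / q + 1 := by
  have h := Nat.Ioc_filter_modEq_card u v hq c
  have hq' : (0 : ℚ) < q := by exact_mod_cast hq
  have h1 : ((((Ioc u v).filter (fun n => n ≡ c [MOD q])).card : ℕ) : ℚ) ≤
      ((v : ℚ) - u) / q + 1 := by
    have h2 : ((((Ioc u v).filter (fun n => n ≡ c [MOD q])).card : ℕ) : ℚ) =
        ((max (⌊((v : ℚ) - c) / (q : ℚ)⌋ - ⌊((u : ℚ) - c) / (q : ℚ)⌋) 0 : ℤ) : ℚ) := by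
      exact_mod_cast h
    rw [h2]
    push_cast
    apply max_le
    · have a1 := Int.floor_le (((v : ℚ) - c) / (q : ℚ))
      have a2 := Int.lt_floor_add_one (((u : ℚ) - c) / (q : ℚ))
      have a3 : ((v : ℚ) - c) / (q : ℚ) - ((u : ℚ) - c) / (q : ℚ) = ((v : ℚ) - u) / q := by
        ring
      linarith
    · have : (0 : ℚ) ≤ (v : ℚ) - u := by
        have : (u : ℚ) ≤ v := by exact_mod_cast huv
        linarith
      positivity
  have h3 := (Rat.cast_le (K := ℝ)).2 h1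
  push_cast at h3
  exact h3

theorem ty2_cnt_96 (q u v : ℕ) (hq : 3 ≤ q) (huv : u ≤ v) :
    ∑ n ∈ Ioc u v, |sg q n| ≤ 2 * (((v : ℝ) - u) / q + 1) := by
  have h1 : ∀ n ∈ Ioc u v, |sg q n| ≤ (if n ≡ 1 [MOD q] then (1 : ℝ) else 0) +
      (if n ≡ q - 1 [MOD q] then (1 : ℝ) else 0) := by
    intro n _
    unfold sg
    by_cases a : n % q = 1
    · have a' : n ≡ 1 [MOD q] := by
        unfold Nat.ModEq
        rw [a, Nat.mod_eq_of_lt (by omega)]
      rw [if_pos a, if_pos a']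
      split_ifs <;> norm_num
    · rw [if_neg a]
      by_cases b : (n + 1) % q = 0
      · have b' : n ≡ q - 1 [MOD q] := by
          have : n + 1 ≡ q - 1 + 1 [MOD q] := by
            rw [Nat.sub_add_cancel (by omega)]
            unfold Nat.ModEq
            rw [b, Nat.mod_self]
          exact Nat.ModEq.add_right_cancel' 1 this
        rw [if_pos b, if_pos b']
        split_ifs <;> norm_num
      · rw [if_neg b, abs_zero]
        split_ifs <;> norm_num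
  refine (Finset.sum_le_sum h1).trans ?_
  rw [Finset.sum_add_distrib, ← Finset.sum_filter, ← Finset.sum_filter, Finset.sum_const,
    Finset.sum_const, nsmul_eq_mul, nsmul_eq_mul, mul_one, mul_one]
  have := ty2_cls_96 q u v 1 (by omega) huv
  have := ty2_cls_96 q u v (q - 1) (by omega) huv
  linarith

theorem ty2_pf_96 (n : ℕ) (hn : 1 ≤ n) : n.primeFactors.card ≤ Nat.log 2 n := by
  apply Nat.le_log_of_pow_le (by norm_num)
  calc 2 ^ n.primeFactors.card ≤ ∏ p ∈ n.primeFactors, p :=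
        Finset.pow_card_le_prod _ _ _ fun p hp => (Nat.prime_of_mem_primeFactors hp).two_le
    _ ≤ n := Nat.le_of_dvd hn (Nat.prod_primeFactors_dvd n)

theorem ty2_bd_96 (q a b D K : ℕ) (hq : 3 ≤ q) (hD : 1 ≤ D) (ha : 1 ≤ a) (hab : a ≤ b)
    (hK : ∀ n ∈ Ioc a b, n.primeFactors.card ≤ K) :
    (q : ℝ) * ∑ n ∈ (Ioc a b).filter (fun n : ℕ => (n : ℝ) ≤ Real.exp (1 / (D : ℝ)) * a ∨
        (b : ℝ) < Real.exp (1 / (D : ℝ)) * n), |sg q n| * n.primeFactors.card / n ≤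
      K * (10 / D + 14 * q / a) := by
  have hD' : (1 : ℝ) ≤ D := by exact_mod_cast hD
  have hq' : (3 : ℝ) ≤ q := by exact_mod_cast hq
  have ha' : (1 : ℝ) ≤ a := by exact_mod_cast ha
  have hab' : (a : ℝ) ≤ b := by exact_mod_cast hab
  have hK0 : (0 : ℝ) ≤ K := Nat.cast_nonneg _
  have t0 : (0 : ℝ) < 1 / D := by positivity
  have t1 : 1 / (D : ℝ) ≤ 1 := by
    rw [div_le_one (by linarith)]
    exact hD'
  have hE0 := Real.exp_pos (1 / (D : ℝ))
  have hE1 : Real.exp (1 / (D : ℝ)) ≤ 3 := by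
    refine (Real.exp_le_exp.2 t1).trans ?_
    have := Real.exp_one_lt_d9
    linarith
  have hE2 : Real.exp (1 / (D : ℝ)) - 1 ≤ 2 * (1 / D) := by
    have := Real.abs_exp_sub_one_le (x := 1 / (D : ℝ)) (by rw [abs_of_pos t0]; exact t1)
    rw [abs_of_pos t0] at this
    exact (le_abs_self _).trans this
  have hE3 : 1 - 1 / (D : ℝ) ≤ Real.exp (-(1 / (D : ℝ))) := by
    have := Real.add_one_le_exp (-(1 / (D : ℝ)))
    linarith
  set f : ℕ → ℝ := fun n => |sg q n| * n.primeFactors.card / n with hf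
  have hf0 : ∀ n, 0 ≤ f n := fun n => by positivity
  have s0 : ∑ n ∈ (Ioc a b).filter (fun n : ℕ => (n : ℝ) ≤ Real.exp (1 / (D : ℝ)) * a ∨
        (b : ℝ) < Real.exp (1 / (D : ℝ)) * n), f n ≤
      ∑ n ∈ (Ioc a b).filter (fun n : ℕ => (n : ℝ) ≤ Real.exp (1 / (D : ℝ)) * a), f n +
      ∑ n ∈ (Ioc a b).filter (fun n : ℕ => (b : ℝ) < Real.exp (1 / (D : ℝ)) * n), f n := by
    rw [Finset.sum_filter, Finset.sum_filter, Finset.sum_filter, ← Finset.sum_add_distrib]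
    refine Finset.sum_le_sum fun n _ => ?_
    have := hf0 n
    by_cases c1 : (n : ℝ) ≤ Real.exp (1 / (D : ℝ)) * a
    · rw [if_pos (Or.inl c1), if_pos c1]
      split_ifs <;> linarith
    · by_cases c2 : (b : ℝ) < Real.exp (1 / (D : ℝ)) * n
      · rw [if_pos (Or.inr c2), if_neg c1, if_pos c2]
        linarith
      · rw [if_neg (by tauto), if_neg c1, if_neg c2]
        linarith
  have s1 : ∑ n ∈ (Ioc a b).filter (fun n : ℕ => (n : ℝ) ≤ Real.exp (1 / (D : ℝ)) * a), f n ≤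
      K / a * (2 * ((2 * (1 / D) * a) / q + 1)) := by
    have u1 : ∀ n ∈ (Ioc a b).filter (fun n : ℕ => (n : ℝ) ≤ Real.exp (1 / (D : ℝ)) * a),
        f n ≤ K / a * |sg q n| := by
      intro n hn
      rw [Finset.mem_filter, Finset.mem_Ioc] at hn
      have hk : ((n.primeFactors.card : ℕ) : ℝ) ≤ K := by
        exact_mod_cast hK n (Finset.mem_Ioc.2 hn.1)
      have hn1 : (a : ℝ) ≤ n := by exact_mod_cast hn.1.1.le
      calc f n = |sg q n| * (n.primeFactors.card / n) := by simp only [hf]; ring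
        _ ≤ |sg q n| * (K / a) := by gcongr
        _ = _ := by ring
    refine (Finset.sum_le_sum u1).trans ?_
    rw [← Finset.mul_sum]
    refine mul_le_mul_of_nonneg_left ?_ (by positivity)
    have hsub : (Ioc a b).filter (fun n : ℕ => (n : ℝ) ≤ Real.exp (1 / (D : ℝ)) * a) ⊆
        Ioc a ⌊Real.exp (1 / (D : ℝ)) * a⌋₊ := by
      intro n hn
      rw [Finset.mem_filter, Finset.mem_Ioc] at hn
      rw [Finset.mem_Ioc]
      exact ⟨hn.1.1, Nat.le_floor hn.2⟩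
    refine (Finset.sum_le_sum_of_subset_of_nonneg hsub fun _ _ _ => abs_nonneg _).trans ?_
    have hle : a ≤ ⌊Real.exp (1 / (D : ℝ)) * a⌋₊ := by
      apply Nat.le_floor
      have : 1 ≤ Real.exp (1 / (D : ℝ)) := Real.one_le_exp t0.le
      nlinarith
    refine (ty2_cnt_96 q a _ hq hle).trans ?_
    have hfl := Nat.floor_le (show 0 ≤ Real.exp (1 / (D : ℝ)) * a by positivity)
    have : ((⌊Real.exp (1 / (D : ℝ)) * a⌋₊ : ℕ) : ℝ) - a ≤ 2 * (1 / D) * a := by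
      nlinarith
    gcongr
  have s2 : ∑ n ∈ (Ioc a b).filter (fun n : ℕ => (b : ℝ) < Real.exp (1 / (D : ℝ)) * n), f n ≤
      3 * K / b * (2 * ((1 / D * b + 1) / q + 1)) := by
    have u1 : ∀ n ∈ (Ioc a b).filter (fun n : ℕ => (b : ℝ) < Real.exp (1 / (D : ℝ)) * n),
        f n ≤ 3 * K / b * |sg q n| := by
      intro n hn
      rw [Finset.mem_filter, Finset.mem_Ioc] at hn
      have hk : ((n.primeFactors.card : ℕ) : ℝ) ≤ K := by
        exact_mod_cast hK n (Finset.mem_Ioc.2 hn.1)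
      have hn0 : (0 : ℝ) < n := by exact_mod_cast (by omega : 0 < n)
      have hn1 : (b : ℝ) ≤ 3 * n := by
        nlinarith [hn.2]
      have : 1 / (n : ℝ) ≤ 3 / b := by
        rw [div_le_div_iff₀ hn0 (by linarith)]
        linarith
      calc f n = |sg q n| * (n.primeFactors.card * (1 / n)) := by simp only [hf]; ring
        _ ≤ |sg q n| * (K * (3 / b)) := by gcongr
        _ = _ := by ring
    refine (Finset.sum_le_sum u1).trans ?_
    rw [← Finset.mul_sum]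
    refine mul_le_mul_of_nonneg_left ?_ (by positivity)
    have hsub : (Ioc a b).filter (fun n : ℕ => (b : ℝ) < Real.exp (1 / (D : ℝ)) * n) ⊆
        Ioc ⌊Real.exp (-(1 / (D : ℝ))) * b⌋₊ b := by
      intro n hn
      rw [Finset.mem_filter, Finset.mem_Ioc] at hn
      rw [Finset.mem_Ioc]
      refine ⟨?_, hn.1.2⟩
      rw [Nat.floor_lt (by positivity)]
      have e : Real.exp (-(1 / (D : ℝ))) * Real.exp (1 / (D : ℝ)) = 1 := by
        rw [← Real.exp_add]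
        simp
      have := mul_lt_mul_of_pos_left hn.2 (Real.exp_pos (-(1 / (D : ℝ))))
      rwa [← mul_assoc, e, one_mul] at this
    refine (Finset.sum_le_sum_of_subset_of_nonneg hsub fun _ _ _ => abs_nonneg _).trans ?_
    have hle : ⌊Real.exp (-(1 / (D : ℝ))) * b⌋₊ ≤ b := by
      apply Nat.floor_le_of_le
      have : Real.exp (-(1 / (D : ℝ))) ≤ 1 := Real.exp_le_one_iff.2 (by linarith)
      nlinarith
    refine (ty2_cnt_96 q _ b hq hle).trans ?_
    have hfl := Nat.lt_floor_add_one (Real.exp (-(1 / (D : ℝ))) * b)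
    have : (b : ℝ) - ((⌊Real.exp (-(1 / (D : ℝ))) * b⌋₊ : ℕ) : ℝ) ≤ 1 / D * b + 1 := by
      nlinarith
    gcongr
  have hb0 : (0 : ℝ) < b := by linarith
  calc (q : ℝ) * ∑ n ∈ (Ioc a b).filter (fun n : ℕ => (n : ℝ) ≤ Real.exp (1 / (D : ℝ)) * a ∨
        (b : ℝ) < Real.exp (1 / (D : ℝ)) * n), f n
      ≤ q * (K / a * (2 * ((2 * (1 / D) * a) / q + 1)) +
        3 * K / b * (2 * ((1 / D * b + 1) / q + 1))) := by
        gcongr
        exact s0.trans (add_le_add s1 s2)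
    _ = K * (10 / D + 2 * q / a + 6 / b + 6 * q / b) := by
        field_simp
        ring
    _ ≤ K * (10 / D + 14 * q / a) := by
        refine mul_le_mul_of_nonneg_left ?_ hK0
        have a1 : 6 / (b : ℝ) ≤ 6 * q / a := by
          rw [div_le_div_iff₀ hb0 (by linarith)]
          nlinarith
        have a2 : 6 * (q : ℝ) / b ≤ 6 * q / a := by gcongr
        have a3 : 14 * (q : ℝ) / a = 2 * q / a + 6 * q / a + 6 * q / a := by ring
        linarith

/-! ### The boxes -/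

theorem ty2_box2_96 (C : ℝ) (hC : 0 < C)
    (hM : ∀ (x M : ℕ) (S : Finset ℕ) (a : ℕ → ℂ), 1 ≤ x → 1 ≤ M →
      S ⊆ Ioc M (2 * M) →
      ∑ q ∈ (Icc 1 x).filter Nat.Prime, VS q S a ≤
        C * (M + (x : ℝ) ^ 2) * ∑ n ∈ S, ‖a n‖ ^ 2)
    (x W b D i j : ℕ) (hD : 3 ≤ D) (hW6 : 6 ≤ W) (hWx : W ≤ x) (Q : Finset ℕ)
    (hQ : ∀ q ∈ Q, q.Prime ∧ 3 ≤ q ∧ q ≤ x) :
    ∑ q ∈ Q, ((q : ℝ) - 1) / 2 * |∑ p ∈ ty2A_96 W (x ^ 3) D i,
      ∑ m ∈ ty2B_96 W (x ^ 3) b D i j, sg q (p * m) * be W (x ^ 3) m / ((p : ℝ) * m)| ≤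
      C * (4 * x / Real.sqrt W) := by
  have hx1 : 1 ≤ x := by omega
  have hW' : (6 : ℝ) ≤ W := by exact_mod_cast hW6
  have hx' : (W : ℝ) ≤ x := by exact_mod_cast hWx
  have hRHS : 0 ≤ C * (4 * x / Real.sqrt W) := by positivity
  rcases (ty2A_96 W (x ^ 3) D i).eq_empty_or_nonempty with hA | ⟨p0, hp0⟩
  · rw [hA]
    simpa using hRHS
  rcases (ty2B_96 W (x ^ 3) b D i j).eq_empty_or_nonempty with hB | ⟨m0, hm0⟩
  · rw [hB]
    simpa using hRHS
  have hD' : (3 : ℝ) ≤ D := by exact_mod_cast hD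
  set E : ℝ := Real.exp ((i : ℝ) / D) with hE
  have hE0 : 0 < E := Real.exp_pos _
  have h32 : Real.exp (1 / (D : ℝ)) ≤ 3 / 2 := by
    have t1 : 1 / (D : ℝ) ≤ 1 / 3 := one_div_le_one_div_of_le (by norm_num) hD'
    have t2 : Real.exp (1 / (D : ℝ)) ≤ Real.exp (1 / 3) := Real.exp_le_exp.2 t1
    have t3 : Real.exp (1 / 3) ^ 3 = Real.exp 1 := by
      rw [← Real.exp_nat_mul]
      norm_num
    have t4 : Real.exp (1 / 3) ≤ 3 / 2 := by
      have := Real.exp_one_lt_d9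
      by_contra hcon
      push Not at hcon
      have : (3 / 2 : ℝ) ^ 3 < Real.exp (1 / 3) ^ 3 := pow_lt_pow_left₀ hcon (by norm_num) (by norm_num)
      rw [t3] at this
      norm_num at this
      linarith
    linarith
  have hAE : ∀ p ∈ ty2A_96 W (x ^ 3) D i, W < p ∧ p ≤ x ^ 3 ∧ E ≤ p ∧ (p : ℝ) < 3 / 2 * E := by
    intro p hp
    unfold ty2A_96 at hp
    rw [Finset.mem_filter, Finset.mem_Ioc] at hp
    obtain ⟨⟨h1, h2⟩, hpp, h3⟩ := hp
    obtain ⟨i1, i2⟩ := ty2_idx_96 D p (by omega) hpp.one_le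
    rw [h3] at i1 i2
    refine ⟨h1, h2, i1, lt_of_lt_of_le i2 ?_⟩
    have e3 : Real.exp (((i : ℝ) + 1) / D) = Real.exp (1 / (D : ℝ)) * E := by
      rw [hE, ← Real.exp_add]
      congr 1
      ring
    rw [e3]
    gcongr
  obtain ⟨a1, a2, a3, a4⟩ := hAE p0 hp0
  have hBE : ∀ m ∈ ty2B_96 W (x ^ 3) b D i j, Ro W m ∧ ((x : ℝ) ^ 3 < E * m) ∧ 2 ≤ m ∧
      2 ^ j < m ∧ m ≤ 2 * 2 ^ j := by
    intro m hm
    unfold ty2B_96 at hm
    rw [Finset.mem_filter, Finset.mem_Icc] at hm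
    obtain ⟨⟨h1, h2⟩, h3, ⟨h4, h5⟩, h6⟩ := hm
    push_cast at h4
    have h7 : 2 ≤ m := by
      by_contra hcon
      have : m = 1 := by omega
      rw [this, Nat.cast_one, mul_one] at h4
      have h8 : (p0 : ℝ) ≤ (x : ℝ) ^ 3 := by exact_mod_cast a2
      linarith
    refine ⟨h3, h4, h7, ?_, ?_⟩
    · have := Nat.pow_log_le_self 2 (show m - 1 ≠ 0 by omega)
      rw [h6] at this
      omega
    · have := Nat.lt_pow_succ_log_self (show 1 < 2 by norm_num) (m - 1)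
      rw [h6, pow_succ] at this
      omega
  obtain ⟨b1, b2, b3, b4, b5⟩ := hBE m0 hm0
  obtain ⟨P, hP⟩ : ∃ P : ℕ, ⌈E⌉₊ = P + 1 := by
    have : 0 < ⌈E⌉₊ := Nat.ceil_pos.2 hE0
    exact ⟨⌈E⌉₊ - 1, by omega⟩
  have hP1 : E ≤ P + 1 := by
    have := Nat.le_ceil E
    rw [hP] at this
    exact_mod_cast this
  have hP2 : (P : ℝ) < E := by
    have := Nat.ceil_lt_add_one hE0.le
    rw [hP] at this
    push_cast at this
    linarith
  have hp0W : (W : ℝ) + 1 ≤ p0 := by exact_mod_cast a1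
  have hP3 : (3 : ℝ) < P := by
    linarith
  have hPW : (W : ℝ) / 3 ≤ P := by linarith
  have hA' : ty2A_96 W (x ^ 3) D i ⊆ Ioc P (2 * P) := by
    intro p hp
    obtain ⟨c1, c2, c3, c4⟩ := hAE p hp
    rw [Finset.mem_Ioc]
    constructor
    · have : (P : ℝ) < p := by linarith
      exact_mod_cast this
    · have : (p : ℝ) ≤ 2 * P := by linarith
      exact_mod_cast this
  have hB' : ty2B_96 W (x ^ 3) b D i j ⊆ Ioc (2 ^ j) (2 * 2 ^ j) := by
    intro m hm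
    obtain ⟨c1, c2, c3, c4, c5⟩ := hBE m hm
    rw [Finset.mem_Ioc]
    exact ⟨c4, c5⟩
  have hm0W : W < m0 := by
    have h1 := Nat.minFac_prime (show m0 ≠ 1 by omega)
    have h2 : W < m0.minFac := by
      by_contra hcon
      exact b1 _ h1 (by omega) (Nat.minFac_dvd m0)
    exact h2.trans_le (Nat.minFac_le (by omega))
  have hb : ∀ m ∈ ty2B_96 W (x ^ 3) b D i j, |be W (x ^ 3) m| ≤ 1 := by
    intro m _
    unfold be
    split_ifs with h
    · rw [abs_of_nonneg (by positivity), div_le_one (by positivity)]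
      have : (0 : ℝ) ≤ os W (x ^ 3) m := Nat.cast_nonneg _
      linarith
    · simp
  have hM2 : 1 ≤ 2 ^ j := Nat.one_le_two_pow
  refine (ty2_box_96 C hC hM x P (2 ^ j) hx1 (by exact_mod_cast (by linarith : (1 : ℝ) ≤ P)) hM2
    _ _ hA' hB' (be W (x ^ 3)) hb Q hQ).trans ?_
  refine mul_le_mul_of_nonneg_left ?_ hC.le
  have e1 : 4 * (x : ℝ) / Real.sqrt W = Real.sqrt (16 * (x : ℝ) ^ 2 / W) := by
    rw [Real.sqrt_div (by positivity), Real.sqrt_mul (by norm_num), Real.sqrt_sq (by positivity)]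
    congr 2
    rw [show (16 : ℝ) = 4 ^ 2 by norm_num, Real.sqrt_sq (by norm_num)]
  rw [e1]
  apply Real.sqrt_le_sqrt
  have hj' : (1 : ℝ) ≤ ((2 ^ j : ℕ) : ℝ) := by exact_mod_cast hM2
  set M : ℝ := ((2 ^ j : ℕ) : ℝ) with hMdef
  have hMm : (m0 : ℝ) ≤ 2 * M := by
    rw [hMdef]
    exact_mod_cast b5
  have hMW : (W : ℝ) / 2 ≤ M := by
    have : (W : ℝ) < m0 := by exact_mod_cast hm0W
    linarith
  have hx0 : (0 : ℝ) < x := by linarith
  have hPM : (x : ℝ) ^ 3 ≤ 4 * (P * M) := by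
    have h1 : E * m0 ≤ (P + 1) * (2 * M) := by gcongr
    nlinarith
  have hW0 : (0 : ℝ) < W := by linarith
  have hP0 : (0 : ℝ) < P := by linarith
  have hM0 : (0 : ℝ) < M := by linarith
  have c1 : (x : ℝ) ^ 2 / P ≤ 3 * ((x : ℝ) ^ 2 / W) := by
    rw [← mul_div_assoc, div_le_div_iff₀ hP0 hW0]
    nlinarith [sq_nonneg (x : ℝ)]
  have c2 : (x : ℝ) ^ 2 / M ≤ 2 * ((x : ℝ) ^ 2 / W) := by
    rw [← mul_div_assoc, div_le_div_iff₀ hM0 hW0]
    nlinarith [sq_nonneg (x : ℝ)]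
  have c3 : (x : ℝ) ^ 2 / P * ((x : ℝ) ^ 2 / M) ≤ 4 * x := by
    rw [div_mul_div_comm, div_le_iff₀ (by positivity)]
    calc (x : ℝ) ^ 2 * (x : ℝ) ^ 2 = x * (x : ℝ) ^ 3 := by ring
      _ ≤ x * (4 * (P * M)) := by gcongr
      _ = _ := by ring
  have c4 : (x : ℝ) ≤ (x : ℝ) ^ 2 / W := by
    rw [le_div_iff₀ hW0]
    nlinarith
  have c5 : 1 ≤ (x : ℝ) := by linarith
  calc (1 + (x : ℝ) ^ 2 / P) * (1 + (x : ℝ) ^ 2 / M)
      = 1 + (x : ℝ) ^ 2 / P + (x : ℝ) ^ 2 / M + (x : ℝ) ^ 2 / P * ((x : ℝ) ^ 2 / M) := by ring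
    _ ≤ 16 * ((x : ℝ) ^ 2 / W) := by linarith
    _ = 16 * (x : ℝ) ^ 2 / W := by ring

/-! ### Growth -/

theorem ty2_growth_96 (K : ℝ) (k : ℕ) :
    ∀ᶠ x : ℕ in atTop, K * (Real.log x + 2) ^ k ≤ (WW x : ℝ) := by
  have h1 : Tendsto (fun x : ℕ => Real.sqrt (Real.log x)) atTop atTop :=
    Real.tendsto_sqrt_atTop.comp (Real.tendsto_log_atTop.comp tendsto_natCast_atTop_atTop)
  have h2 := (Real.tendsto_pow_mul_exp_neg_atTop_nhds_zero (2 * k)).const_mul (|K| * 2 ^ k + 1)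
  rw [mul_zero] at h2
  have h3 := (h2.eventually (gt_mem_nhds one_pos)).and (eventually_ge_atTop (2 : ℝ))
  have h4 := (h1.eventually h3).and (eventually_ge_atTop 1)
  filter_upwards [h4] with x hx
  obtain ⟨⟨h5, h6⟩, h7⟩ := hx
  set u := Real.sqrt (Real.log x) with hu
  have hL : 0 ≤ Real.log x := Real.log_nonneg (by exact_mod_cast h7)
  have hu2 : u ^ 2 = Real.log x := Real.sq_sqrt hL
  unfold WW
  have h8 := Nat.lt_floor_add_one (Real.exp (Real.sqrt (Real.log x)))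
  rw [← hu] at h8 ⊢
  have h9 : (|K| * 2 ^ k + 1) * u ^ (2 * k) ≤ Real.exp u := by
    have e : Real.exp (-u) * Real.exp u = 1 := by
      rw [← Real.exp_add]
      simp
    have := mul_le_mul_of_nonneg_right h5.le (Real.exp_pos u).le
    calc (|K| * 2 ^ k + 1) * u ^ (2 * k) =
        (|K| * 2 ^ k + 1) * (u ^ (2 * k) * Real.exp (-u)) * Real.exp u := by
          rw [mul_assoc, mul_assoc, e, mul_one]
      _ ≤ 1 * Real.exp u := this
      _ = _ := one_mul _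
  have h10 : K * (Real.log x + 2) ^ k ≤ |K| * 2 ^ k * u ^ (2 * k) := by
    calc K * (Real.log x + 2) ^ k ≤ |K| * (Real.log x + 2) ^ k := by
          gcongr
          exact le_abs_self K
      _ ≤ |K| * (2 * u ^ 2) ^ k := by
          gcongr
          rw [← hu2]
          nlinarith
      _ = _ := by
          rw [mul_pow, ← pow_mul]
          ring
  have h11 : 1 ≤ u ^ (2 * k) := one_le_pow₀ (by linarith)
  linarith

theorem ty2_log_96 (b x c l t : ℕ) (hx : 1 ≤ x) (hl : Real.log x ≤ l) (hb : b = x ^ (c * l))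
    (ht : 2 ^ t ≤ b) : t ≤ 2 * c * l ^ 2 := by
  have h1 : (2 : ℝ) ^ t ≤ (x : ℝ) ^ (c * l) := by
    rw [hb] at ht
    exact_mod_cast ht
  have hx' : (0 : ℝ) < x := by exact_mod_cast hx
  have h2 := Real.log_le_log (by positivity) h1
  rw [Real.log_pow, Real.log_pow] at h2
  have h3 := Real.log_two_gt_d9
  have ht0 : (0 : ℝ) ≤ t := Nat.cast_nonneg _
  have h4 : ((c * l : ℕ) : ℝ) * Real.log x ≤ ((c * l : ℕ) : ℝ) * l := by gcongr
  push_cast at h2 h4
  have h5 : (t : ℝ) ≤ 2 * c * l ^ 2 := by nlinarith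
  exact_mod_cast h5

/-! ### The module -/

theorem stTyII_96 (hMls : StMls) : StTyII := by
  obtain ⟨C, hC, hM⟩ := hMls
  intro c A
  have hev : ∀ᶠ x : ℕ in atTop, (1 * (Real.log x + 2) ^ 2 ≤ (WW x : ℝ)) ∧
      ((768 * C * (2 * c + 1)) ^ 2 * (Real.log x + 2) ^ (2 * (6 + A)) ≤ (WW x : ℝ)) ∧
      (384 * (2 * (c : ℝ) + 1) ≤ Real.log x) ∧ 4 ≤ x :=
    (ty2_growth_96 _ _).and ((ty2_growth_96 _ _).and
      (((Real.tendsto_log_atTop.comp tendsto_natCast_atTop_atTop).eventually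
        (eventually_ge_atTop _)).and (eventually_ge_atTop 4)))
  obtain ⟨x₀, hx₀⟩ := Filter.eventually_atTop.1 hev
  refine ⟨x₀, fun x hx => ?_⟩
  obtain ⟨g1, g2, g3, g4⟩ := hx₀ x hx
  set L := Real.log x with hL
  set l := ⌈L⌉₊ with hl
  set W := WW x with hW
  have hc0 : (0 : ℝ) ≤ c := Nat.cast_nonneg _
  have hL384 : 384 ≤ L := by linarith
  have hlL : L ≤ l := Nat.le_ceil L
  have hlL' : (l : ℝ) < L + 1 := Nat.ceil_lt_add_one (by linarith)
  have hl384 : (384 : ℝ) ≤ l := by linarith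
  have hl384' : 384 ≤ l := by exact_mod_cast hl384
  have hx0 : (0 : ℝ) < x := by exact_mod_cast (by omega : 0 < x)
  have hxe : (x : ℝ) = Real.exp L := (Real.exp_log hx0).symm
  have hWx' : (W : ℝ) ≤ x := by
    rw [hW]
    unfold WW
    refine (Nat.floor_le (Real.exp_pos _).le).trans ?_
    rw [← hL]
    refine le_trans (Real.exp_le_exp.2 ?_) hxe.ge
    rw [Real.sqrt_le_left (by linarith)]
    nlinarith
  have hWx : W ≤ x := by exact_mod_cast hWx'
  have hWl : (l : ℝ) ^ 2 ≤ W := by nlinarith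
  have hW6' : (6 : ℝ) ≤ W := by nlinarith
  have hW6 : 6 ≤ W := by exact_mod_cast hW6'
  have hxL : 0 ≤ (x : ℝ) / L ^ A := by positivity
  set b := TT c x with hb
  have hb' : b = x ^ (c * l) := by
    rw [hb]
    unfold TT
    rfl
  by_cases hab : b ≤ x ^ 3
  · have : (Pr x).filter (fun q : ℕ => 1 / 8 < (q : ℝ) * |∑ n ∈ Ioc (x ^ 3) b,
        sg q n * bs W (x ^ 3) n / n|) = ∅ := by
      rw [Finset.filter_eq_empty_iff]
      intro q _
      rw [Finset.Ioc_eq_empty (by omega)]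
      simp
    rw [this]
    simpa using hxL
  push Not at hab
  set D := l ^ 3 with hD
  set I := 3 * D * l + 1 with hI
  set J := 2 * c * l ^ 2 + 1 with hJ
  have hD3 : 3 ≤ D := by
    have : 3 ^ 3 ≤ l ^ 3 := Nat.pow_le_pow_left (by omega) 3
    omega
  have hI' : ∀ p, W < p → p ≤ x ^ 3 → ⌊(D : ℝ) * Real.log p⌋₊ < I := by
    intro p h1 h2
    have hp0 : (0 : ℝ) < p := by exact_mod_cast (by omega : 0 < p)
    have h3 : Real.log p ≤ 3 * L := by
      have : (p : ℝ) ≤ (x : ℝ) ^ 3 := by exact_mod_cast h2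
      have := Real.log_le_log hp0 this
      rw [Real.log_pow] at this
      exact_mod_cast this
    have h4 : (D : ℝ) * Real.log p ≤ ((3 * D * l : ℕ) : ℝ) := by
      push_cast
      have : (0 : ℝ) ≤ D := Nat.cast_nonneg _
      nlinarith
    have := Nat.floor_le_of_le h4
    omega
  have hJ' : ∀ m, m ≤ b → Nat.log 2 (m - 1) < J := by
    intro m hm
    by_cases hm1 : m - 1 = 0
    · rw [hm1]
      simp [hJ]
    · have h1 := Nat.pow_log_le_self 2 hm1
      have := ty2_log_96 b x c l (Nat.log 2 (m - 1)) (by omega) hlL hb' (by omega)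
      omega
  have hK' : ∀ n ∈ Ioc (x ^ 3) b, n.primeFactors.card ≤ J := by
    intro n hn
    rw [Finset.mem_Ioc] at hn
    have h0 := ty2_pf_96 n (by omega)
    have h1 := Nat.pow_log_le_self 2 (show n ≠ 0 by omega)
    have := ty2_log_96 b x c l (Nat.log 2 n) (by omega) hlL hb' (by omega)
    omega
  set Q := (Pr x).filter (fun q : ℕ => 1 / 8 < (q : ℝ) * |∑ n ∈ Ioc (x ^ 3) b,
        sg q n * bs W (x ^ 3) n / n|) with hQdef
  have hQ : ∀ q ∈ Q, q.Prime ∧ 3 ≤ q ∧ q ≤ x := by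
    intro q hq
    rw [hQdef, Finset.mem_filter] at hq
    have h1 := hq.1
    unfold Pr at h1
    rw [Finset.mem_filter, Finset.mem_Icc] at h1
    refine ⟨h1.2.1, ?_, h1.1.2⟩
    by_contra hcon
    have : q ≤ 2 := by omega
    have : q ^ 2 ≤ 2 ^ 2 := Nat.pow_le_pow_left this 2
    omega
  set G : ℕ → ℕ → ℕ → ℝ := fun q i j => |∑ p ∈ ty2A_96 W (x ^ 3) D i,
      ∑ m ∈ ty2B_96 W (x ^ 3) b D i j, sg q (p * m) * be W (x ^ 3) m / ((p : ℝ) * m)| with hG
  have hJr : (J : ℝ) ≤ (2 * c + 1) * l ^ 2 := by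
    rw [hJ]
    push_cast
    nlinarith
  have hx1 : (1 : ℝ) ≤ x := by linarith
  have hbdry : ∀ q ∈ Q, (J : ℝ) * (10 / (D : ℝ) + 14 * q / ((x ^ 3 : ℕ) : ℝ)) ≤ 1 / 16 := by
    intro q hq
    have hqx : (q : ℝ) ≤ x := by exact_mod_cast (hQ q hq).2.2
    have h1 : 14 * (q : ℝ) / ((x ^ 3 : ℕ) : ℝ) ≤ 14 / (D : ℝ) := by
      rw [hD]
      push_cast
      rw [div_le_div_iff₀ (by positivity) (by positivity)]
      have h2 : (l : ℝ) ^ 2 ≤ x := hWl.trans hWx'
      have h3 : (l : ℝ) ^ 3 ≤ (x : ℝ) ^ 2 := by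
        calc (l : ℝ) ^ 3 ≤ (l : ℝ) ^ 4 := by
              apply pow_le_pow_right₀ (by linarith) (by norm_num)
          _ = ((l : ℝ) ^ 2) ^ 2 := by ring
          _ ≤ _ := by gcongr
      calc 14 * (q : ℝ) * (l : ℝ) ^ 3 ≤ 14 * x * (x : ℝ) ^ 2 := by gcongr
        _ = 14 * (x : ℝ) ^ 3 := by ring
    have h4 : 10 / (D : ℝ) + 14 * q / ((x ^ 3 : ℕ) : ℝ) ≤ 24 / (l : ℝ) ^ 3 := by
      have : (10 : ℝ) / D + 14 / D = 24 / (l : ℝ) ^ 3 := by
        rw [hD]
        push_cast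
        ring
      linarith
    calc (J : ℝ) * (10 / (D : ℝ) + 14 * q / ((x ^ 3 : ℕ) : ℝ))
        ≤ ((2 * c + 1) * l ^ 2) * (24 / (l : ℝ) ^ 3) := by gcongr
      _ = 24 * (2 * c + 1) / l := by
          field_simp
      _ ≤ 1 / 16 := by
          rw [div_le_div_iff₀ (by linarith) (by norm_num)]
          linarith
  have hq48 : ∀ q ∈ Q, 1 / 48 ≤ ∑ i ∈ range I, ∑ j ∈ range J, ((q : ℝ) - 1) / 2 * G q i j := by
    intro q hq
    have h1 : 1 / 8 < (q : ℝ) * |∑ n ∈ Ioc (x ^ 3) b, sg q n * bs W (x ^ 3) n / n| := by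
      rw [hQdef, Finset.mem_filter] at hq
      exact hq.2
    have hq3 : (3 : ℝ) ≤ q := by exact_mod_cast (hQ q hq).2.1
    have h2 := ty2_split_96 q W (x ^ 3) (x ^ 3) b D I J (by omega) hI' hJ'
    have h3 := ty2_bd_96 q (x ^ 3) b D J (hQ q hq).2.1 (by omega) (Nat.one_le_pow _ _ (by omega))
      hab.le hK'
    have h4 := hbdry q hq
    have h5 : (q : ℝ) * ∑ i ∈ range I, ∑ j ∈ range J, G q i j ≤
        3 * ∑ i ∈ range I, ∑ j ∈ range J, ((q : ℝ) - 1) / 2 * G q i j := by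
      have e : ∑ i ∈ range I, ∑ j ∈ range J, ((q : ℝ) - 1) / 2 * G q i j =
          ((q : ℝ) - 1) / 2 * ∑ i ∈ range I, ∑ j ∈ range J, G q i j := by
        rw [Finset.mul_sum]
        refine Finset.sum_congr rfl fun i _ => ?_
        rw [Finset.mul_sum]
      rw [e]
      have h0 : 0 ≤ ∑ i ∈ range I, ∑ j ∈ range J, G q i j :=
        Finset.sum_nonneg fun i _ => Finset.sum_nonneg fun j _ => abs_nonneg _
      nlinarith
    have h6 := mul_le_mul_of_nonneg_left h2 (show (0 : ℝ) ≤ q by linarith)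
    rw [mul_add] at h6
    simp only [hG] at h5 ⊢
    linarith
  have hcount : (Q.card : ℝ) * (1 / 48) ≤ I * (J * (C * (4 * x / Real.sqrt W))) := by
    calc (Q.card : ℝ) * (1 / 48) = ∑ q ∈ Q, (1 / 48 : ℝ) := by
          rw [Finset.sum_const, nsmul_eq_mul]
      _ ≤ ∑ q ∈ Q, ∑ i ∈ range I, ∑ j ∈ range J, ((q : ℝ) - 1) / 2 * G q i j :=
          Finset.sum_le_sum hq48
      _ = ∑ i ∈ range I, ∑ j ∈ range J, ∑ q ∈ Q, ((q : ℝ) - 1) / 2 * G q i j := by
          rw [Finset.sum_comm]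
          refine Finset.sum_congr rfl fun i _ => ?_
          rw [Finset.sum_comm]
      _ ≤ ∑ i ∈ range I, ∑ j ∈ range J, C * (4 * x / Real.sqrt W) :=
          Finset.sum_le_sum fun i _ => Finset.sum_le_sum fun j _ =>
            ty2_box2_96 C hC hM x W b D i j hD3 hW6 hWx Q hQ
      _ = I * (J * (C * (4 * x / Real.sqrt W))) := by
          rw [Finset.sum_const, Finset.sum_const, Finset.card_range, Finset.card_range,
            nsmul_eq_mul, nsmul_eq_mul]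
  have hIr : (I : ℝ) ≤ 4 * (l : ℝ) ^ 4 := by
    rw [hI, hD]
    push_cast
    have : (1 : ℝ) ≤ (l : ℝ) ^ 4 := one_le_pow₀ (by linarith)
    nlinarith
  have hsW : 768 * C * (2 * c + 1) * (L + 2) ^ (6 + A) ≤ Real.sqrt W := by
    apply Real.le_sqrt_of_sq_le
    refine le_trans (le_of_eq ?_) g2
    rw [mul_pow, ← pow_mul]
    ring
  have hs0 : 0 < Real.sqrt W := Real.sqrt_pos.2 (by linarith)
  have hL0 : 0 < L := by linarith
  have hfin : 48 * (I * (J * (C * (4 * x / Real.sqrt W)))) ≤ x / L ^ A := by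
    calc 48 * ((I : ℝ) * (J * (C * (4 * x / Real.sqrt W))))
        ≤ 48 * (4 * (l : ℝ) ^ 4 * (((2 * c + 1) * l ^ 2) * (C * (4 * x / Real.sqrt W)))) := by
          gcongr
      _ = 768 * C * (2 * c + 1) * (l : ℝ) ^ 6 * x / Real.sqrt W := by ring
      _ ≤ 768 * C * (2 * c + 1) * (L + 2) ^ 6 * x / Real.sqrt W := by
          gcongr
          linarith
      _ ≤ x / L ^ A := by
          rw [div_le_div_iff₀ hs0 (by positivity)]
          calc 768 * C * (2 * c + 1) * (L + 2) ^ 6 * x * L ^ A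
              ≤ 768 * C * (2 * c + 1) * (L + 2) ^ 6 * x * (L + 2) ^ A := by
                gcongr
                linarith
            _ = x * (768 * C * (2 * c + 1) * (L + 2) ^ (6 + A)) := by
                rw [pow_add]
                ring
            _ ≤ x * Real.sqrt W := by gcongr
  linarith

end Pool.Agent.Lib.MP_0f858a_nt.KR
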