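import Pool.Agent.Lib.MP_0f858a_nt.KR.Main84
import Pool.Agent.Lib.MP_0f858a_nt.KR.MID84
import Pool.Agent.Lib.MP_0f858a_nt.KR.Tail12
import Pool.Agent.Lib.MP_0f858a_nt.KR.TyI12
import Pool.Agent.Lib.MP_0f858a_nt.KR.Rsh12
import Pool.Agent.Lib.MP_0f858a_nt.KR.Eul12
import Pool.Agent.Lib.MP_0f858a_nt.KR.Lone12
import Pool.Agent.Lib.MP_0f858a_nt.KR.Rs1
import Pool.Agent.Lib.MP_0f858a_nt.KR.Logp1
import Pool.Agent.Lib.MP_0f858a_nt.KR.Pp38
import Pool.Agent.Lib.MP_0f858a_nt.KR.Ram38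
import Pool.Agent.Lib.MP_0f858a_nt.KR.Sqr38
import Pool.Agent.Lib.MP_0f858a_nt.KR.LogE27
import Pool.Agent.Lib.MP_0f858a_nt.KR.Bt27
import Pool.Agent.Lib.MP_0f858a_nt.KR.Bts96
import Pool.Agent.Lib.MP_0f858a_nt.KR.TyII96
import Pool.Agent.Lib.MP_0f858a_nt.KR.Mls53
import Pool.Agent.Lib.MP_0f858a_nt.KR.Sec53
import Pool.Agent.Lib.MP_0f858a_nt.KR.Fst28
import Pool.Agent.Lib.MP_0f858a_nt.KR.SV61
import Pool.Agent.Lib.MP_0f858a_nt.KR.Sml61

/-!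
MP_0f858a_nt: the modules together.
-/

set_option autoImplicit false

namespace Pool.Agent.Lib.MP_0f858a_nt.KR

theorem rsh84 : StRsh := stRsh_12 stRs_1

theorem tail84 : StTail := stTail_12 (stEul_12 stLone_12) rsh84

theorem sec84 : StSec := stSec_53 tail84 stMls_53

theorem fst84 : StFst := stFst_28 tail84 stRam_38 (stTyI_12 rsh84) stSqr_38 (stTyII_96 stMls_53)

theorem bts84 : StBts := stBts_96 stBt_27

theorem logp84 : StLogp := stLogp_1 stPp_38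

theorem main84 : StMain :=
  stMain_84 logp84 stLoge_27 bts84 sec84 fst84 (stSml_61 stSv_61) (stMid_84 stSv_61)

end Pool.Agent.Lib.MP_0f858a_nt.KR
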