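import Pool.Agent.Lib.MP_0f858a_nt.KR.StmtsB84

/-!
MP_0f858a_nt (Kummer ratio), third part: uniformity in `A ≤ (log x) ^ (1/10)`.
-/

set_option autoImplicit false

namespace Pool.Agent.Lib.MP_0f858a_nt.KR

open Finset Filter
open scoped Classical

/-- the size of the thin exceptional sets -/
noncomputable def TS (x : ℕ) : ℝ := x * Real.exp (-(Real.log x ^ (1 / 8 : ℝ) / 2))

/-- (C1 SECU) the second moment -/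
def StSecu : Prop := ∃ x₀ : ℕ, ∀ x, x₀ ≤ x →
  (((Pr x).filter (fun q => 1 / 4 < SQ (x ^ 3) q)).card : ℝ) ≤ TS x

/-- (C2 TYIIU) the bilinear sums -/
def StTyIIu : Prop := ∀ c : ℕ, ∃ x₀ : ℕ, ∀ x, x₀ ≤ x →
  (((Pr x).filter (fun q =>
    1 / 8 < q * |∑ n ∈ Ioc (x ^ 3) (TT c x), sg q n * bs (WW x) (x ^ 3) n / n|)).card : ℝ) ≤ TS x

/-- (C3 FSTU) the first moment -/
def StFstu : Prop := ∃ x₀ : ℕ, ∀ x, x₀ ≤ x →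
  (((Pr x).filter (fun q => 1 < ‖FS (x ^ 3) q‖)).card : ℝ) ≤ TS x

/-- (C5 MIDU) the `k` of middle size -/
def StMidu : Prop := ∃ c : ℕ, 1 ≤ c ∧ ∃ C : ℝ, ∃ x₀ : ℕ, ∀ x, x₀ ≤ x → ∀ b : Bool,
  (((Pr x).filter (fun q => C < ZS b q (K8 x) (KE c x))).card : ℝ) ≤ TS x

/-- (C6 SMLU) the small `k`, uniform in `A` -/
def StSmlu : Prop := ∃ C : ℝ, ∃ x₀ : ℕ, ∀ x, x₀ ≤ x → ∀ A : ℕ, 3 ≤ A →
  (A : ℝ) ≤ Real.log x ^ (1 / 10 : ℝ) + 1 → ∀ b : Bool,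
  (((Pr x).filter (fun q => C + 2 * Real.log (Real.log A) < ZS b q 0 (K8 x))).card : ℝ) ≤
    x / Real.log x ^ A

/-- (MAINU) the theorem -/
def StMainu : Prop := ∃ C : ℝ, 0 < C ∧ ∀ x : ℕ, 2 ≤ x → ∀ A : ℕ, 2 ≤ A →
  (A : ℝ) ≤ Real.log x ^ (1 / 10 : ℝ) →
  (((Icc 1 x).filter (fun q => q.Prime ∧ q ≠ 2 ∧
    C * Real.log A < max (RR q) (RR q)⁻¹)).card : ℝ) ≤ C * (x / Real.log x ^ A)

end Pool.Agent.Lib.MP_0f858a_nt.KR
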