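import Mathlib
import Pool.Agent.Lib.MP_0f858a_nt.KR.Fst28
import Pool.Agent.Lib.MP_0f858a_nt.KR.StmtsC84

/-!
MP_0f858a_nt, third part, module FSTU: the first moment (the proof of module FST of helper28).
-/

set_option autoImplicit false

namespace Pool.Agent.Lib.MP_0f858a_nt.KR

open Finset Filter
open scoped Classical

theorem stFstu_96 (hTail : StTail) (hRam : StRam) (hTyI : StTyI) (hSqr : StSqr)
    (hTyIIu : StTyIIu) : StFstu := by
  obtain ⟨c, x₁, hx₁⟩ := hTail
  obtain ⟨x₂, hx₂⟩ := hTyI c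
  obtain ⟨x₃, hx₃⟩ := hSqr c
  obtain ⟨x₄, hx₄⟩ := hTyIIu c
  refine ⟨x₁ + x₂ + x₃ + x₄ + 10, fun x hx => ?_⟩
  refine le_trans ?_ (hx₄ x (by omega))
  have hsub : (Pr x).filter (fun q => 1 < ‖FS (x ^ 3) q‖) ⊆ (Pr x).filter (fun q =>
    1 / 8 < q * |∑ n ∈ Ioc (x ^ 3) (TT c x), sg q n * bs (WW x) (x ^ 3) n / n|) := by
    intro q hq
    rw [Finset.mem_filter] at hq ⊢
    obtain ⟨hqP, hqF⟩ := hq
    refine ⟨hqP, ?_⟩
    by_contra hcon
    rw [not_lt] at hcon
    obtain ⟨hq1, hqp, hq2⟩ := Finset.mem_filter.1 hqP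
    rw [Finset.mem_Icc] at hq1
    have hq0 : q ≠ 0 := hqp.ne_zero
    have : NeZero q := ⟨hq0⟩
    have hq3 : 3 ≤ q := by
      by_contra h
      have : q ≤ 2 := by omega
      have h4 : q ^ 2 ≤ 2 ^ 2 := Nat.pow_le_pow_left this 2
      omega
    have hxpos : (0 : ℝ) < x := by
      have : 0 < x := by omega
      exact_mod_cast this
    -- the parameters
    have hW1 : 1 ≤ WW x := by
      unfold WW
      rw [Nat.one_le_floor_iff]
      exact Real.one_le_exp (Real.sqrt_nonneg _)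
    have hWy : WW x ≤ x ^ 3 := by
      unfold WW
      refine Nat.floor_le_of_le ?_
      have hlog : Real.sqrt (Real.log x) ≤ 1 + Real.log x := by
        have h0 : 0 ≤ Real.log x := Real.log_nonneg (by
          have : 1 ≤ x := by omega
          exact_mod_cast this)
        rw [Real.sqrt_le_left (by linarith)]
        nlinarith
      calc Real.exp (Real.sqrt (Real.log x)) ≤ Real.exp (1 + Real.log x) := Real.exp_le_exp.2 hlog
        _ = Real.exp 1 * x := by rw [Real.exp_add, Real.exp_log hxpos]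
        _ ≤ 3 * x := by
          have := Real.exp_one_lt_d9
          nlinarith
        _ ≤ ((x ^ 3 : ℕ) : ℝ) := by
          push_cast
          have h10 : (10 : ℝ) ≤ x := by
            have : 10 ≤ x := by omega
            exact_mod_cast this
          nlinarith [mul_pos hxpos hxpos]
    have hI := hx₂ x (by omega) q hqP
    have hS := hx₃ x (by omega) q hqP
    -- the sum over the rough numbers
    have hT : (q : ℝ) * |∑ n ∈ (Ioc (x ^ 3) (TT c x)).filter (Ro (x ^ 3)), sg q n / n| ≤ 3 / 8 := by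
      have e1 : ∀ (z : ℕ), ∑ n ∈ (Ioc (x ^ 3) (TT c x)).filter (Ro z), sg q n / n =
          ∑ n ∈ Ioc (x ^ 3) (TT c x), sg q n / n * (if Ro z n then 1 else 0) := by
        intro z
        rw [Finset.sum_filter]
        refine Finset.sum_congr rfl fun n _ => ?_
        split_ifs <;> simp
      have e2 : ∑ n ∈ Ioc (x ^ 3) (TT c x), sg q n / n * (if Ro (x ^ 3) n then 1 else 0) =
          ∑ n ∈ Ioc (x ^ 3) (TT c x), sg q n / n * (if Ro (WW x) n then 1 else 0)
          - ∑ n ∈ Ioc (x ^ 3) (TT c x), sg q n * bs (WW x) (x ^ 3) n / n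
          + ∑ n ∈ Ioc (x ^ 3) (TT c x), sg q n / n * ((if Ro (x ^ 3) n then (1 : ℝ) else 0) -
            (if Ro (WW x) n then (1 : ℝ) else 0) + bs (WW x) (x ^ 3) n) := by
        rw [← Finset.sum_sub_distrib, ← Finset.sum_add_distrib]
        refine Finset.sum_congr rfl fun n _ => ?_
        ring
      have e3 : |∑ n ∈ Ioc (x ^ 3) (TT c x), sg q n / n * ((if Ro (x ^ 3) n then (1 : ℝ) else 0) -
            (if Ro (WW x) n then (1 : ℝ) else 0) + bs (WW x) (x ^ 3) n)| ≤
          ∑ n ∈ Ioc (x ^ 3) (TT c x), |sg q n| * s2 (WW x) n / n := by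
        refine (Finset.abs_sum_le_sum_abs _ _).trans (Finset.sum_le_sum fun n hn => ?_)
        rw [Finset.mem_Ioc] at hn
        have hn1 : 1 ≤ n := by omega
        have hn0 : (0 : ℝ) < n := by exact_mod_cast hn1
        rw [abs_mul, abs_div, Nat.abs_cast]
        have h5 := hRam (WW x) (x ^ 3) n hW1 hWy hn1
        have h6 := mul_le_mul_of_nonneg_left h5 (show 0 ≤ |sg q n| / (n : ℝ) by positivity)
        calc _ ≤ |sg q n| / (n : ℝ) * (s2 (WW x) n : ℝ) := h6
          _ = _ := by ring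
      rw [← e1] at e2
      rw [← e1] at e2
      rw [e2]
      have hqr : (0 : ℝ) ≤ q := Nat.cast_nonneg q
      have h7 := abs_add_le (∑ n ∈ (Ioc (x ^ 3) (TT c x)).filter (Ro (WW x)), sg q n / n
          - ∑ n ∈ Ioc (x ^ 3) (TT c x), sg q n * bs (WW x) (x ^ 3) n / n)
          (∑ n ∈ Ioc (x ^ 3) (TT c x), sg q n / n * ((if Ro (x ^ 3) n then (1 : ℝ) else 0) -
            (if Ro (WW x) n then (1 : ℝ) else 0) + bs (WW x) (x ^ 3) n))
      have h8 := abs_sub (∑ n ∈ (Ioc (x ^ 3) (TT c x)).filter (Ro (WW x)), sg q n / n)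
          (∑ n ∈ Ioc (x ^ 3) (TT c x), sg q n * bs (WW x) (x ^ 3) n / n)
      have h9 := (h7.trans (add_le_add h8 e3))
      have h10 := mul_le_mul_of_nonneg_left h9 hqr
      rw [mul_add, mul_add] at h10
      linarith
    -- the first moment
    have hF : FS (x ^ 3) q = ∑ χ ∈ odd q, (EE (x ^ 3) χ - 1 -
        ∑ n ∈ (Ioc (x ^ 3) (TT c x)).filter (Ro (x ^ 3)), χ n / (n : ℂ)) +
        (((q : ℝ) - 1) / 2 *
          ∑ n ∈ (Ioc (x ^ 3) (TT c x)).filter (Ro (x ^ 3)), sg q n / n : ℝ) := by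
      rw [FS, dif_neg hq0]
      have h11 : ((((q : ℝ) - 1) / 2 *
          ∑ n ∈ (Ioc (x ^ 3) (TT c x)).filter (Ro (x ^ 3)), sg q n / n : ℝ) : ℂ) =
          ∑ χ ∈ odd q, ∑ n ∈ (Ioc (x ^ 3) (TT c x)).filter (Ro (x ^ 3)), χ n / (n : ℂ) := by
        rw [Finset.sum_comm, Finset.mul_sum, Complex.ofReal_sum]
        refine Finset.sum_congr rfl fun n _ => ?_
        rw [← Finset.sum_div, fst28_orth hqp hq3 n]
        push_cast
        ring
      rw [h11, ← Finset.sum_add_distrib]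
      refine Finset.sum_congr rfl fun χ _ => ?_
      ring
    have hF1 : ‖∑ χ ∈ odd q, (EE (x ^ 3) χ - 1 -
        ∑ n ∈ (Ioc (x ^ 3) (TT c x)).filter (Ro (x ^ 3)), χ n / (n : ℂ))‖ ≤ 1 / x := by
      refine (norm_sum_le _ _).trans ?_
      refine (Finset.sum_le_card_nsmul _ _ (1 / (x : ℝ) ^ 2) fun χ hχ =>
        hx₁ x (by omega) q hqP χ (fst28_odd_ne hχ)).trans ?_
      rw [nsmul_eq_mul]
      have h12 : ((odd q).card : ℝ) ≤ x := fst28_card_odd.trans (by exact_mod_cast hq1.2)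
      calc ((odd q).card : ℝ) * (1 / (x : ℝ) ^ 2) ≤ x * (1 / (x : ℝ) ^ 2) :=
            mul_le_mul_of_nonneg_right h12 (by positivity)
        _ = 1 / x := by field_simp
    have hF2 : ‖((((q : ℝ) - 1) / 2 *
          ∑ n ∈ (Ioc (x ^ 3) (TT c x)).filter (Ro (x ^ 3)), sg q n / n : ℝ) : ℂ)‖ ≤ 3 / 16 := by
      rw [Complex.norm_real, Real.norm_eq_abs, abs_mul]
      have hq1' : (1 : ℝ) ≤ q := by exact_mod_cast hqp.one_le
      rw [abs_of_nonneg (show (0 : ℝ) ≤ ((q : ℝ) - 1) / 2 by linarith)]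
      nlinarith [abs_nonneg (∑ n ∈ (Ioc (x ^ 3) (TT c x)).filter (Ro (x ^ 3)), sg q n / (n : ℝ))]
    have hlast : ‖FS (x ^ 3) q‖ ≤ 1 / x + 3 / 16 := by
      rw [hF]
      exact (norm_add_le _ _).trans (add_le_add hF1 hF2)
    have h13 : 1 / (x : ℝ) ≤ 1 / 2 := by
      have h10 : (10 : ℝ) ≤ x := by
        have : 10 ≤ x := by omega
        exact_mod_cast this
      exact one_div_le_one_div_of_le (by norm_num) (by linarith)
    linarith
  exact_mod_cast Finset.card_le_card hsub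

end Pool.Agent.Lib.MP_0f858a_nt.KR
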