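import Pool.Agent.Lib.MP_0f858a_nt.KR.StmtsB84

/-!
B1 LEG (helper12).
-/

set_option autoImplicit false

namespace Pool.Agent.Lib.MP_0f858a_nt.KR

open Finset Filter
open scoped Classical

lemma leg12_base (g c N H : ℕ) (hg : 0 < g) :
    |(((Ioc N (N + H)).filter (fun m => m ≡ c [MOD g])).card : ℝ) - (H / g : ℝ)| ≤ 1 := by
  have h1 := Nat.Ioc_filter_modEq_card N (N + H) hg c
  have h1' : (((Ioc N (N + H)).filter (fun m => m ≡ c [MOD g])).card : ℤ) =
      max (⌊(((N + H : ℕ) : ℚ) - c) / g⌋ - ⌊((N : ℚ) - c) / g⌋) 0 := h1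
  have hg0 : (0 : ℚ) < g := by exact_mod_cast hg
  have hle : ⌊((N : ℚ) - c) / g⌋ ≤ ⌊(((N + H : ℕ) : ℚ) - c) / g⌋ := by
    apply Int.floor_le_floor
    apply div_le_div_of_nonneg_right _ hg0.le
    push_cast
    have : (0 : ℚ) ≤ H := Nat.cast_nonneg _
    linarith
  rw [max_eq_left (by linarith)] at h1'
  have a1 := Int.floor_le ((((N + H : ℕ) : ℚ) - c) / g)
  have a2 := Int.lt_floor_add_one ((((N + H : ℕ) : ℚ) - c) / g)
  have b1 := Int.floor_le (((N : ℚ) - c) / g)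
  have b2 := Int.lt_floor_add_one (((N : ℚ) - c) / g)
  have e1 : (((N + H : ℕ) : ℚ) - c) / g = ((N : ℚ) - c) / g + (H : ℚ) / g := by
    push_cast
    ring
  have key : |((((Ioc N (N + H)).filter (fun m => m ≡ c [MOD g])).card : ℤ) : ℚ) -
      (H / g : ℚ)| ≤ 1 := by
    rw [e1] at h1' a1 a2
    rw [h1', abs_le]
    push_cast
    constructor <;> linarith
  have key2 : ((|((((Ioc N (N + H)).filter (fun m => m ≡ c [MOD g])).card : ℤ) : ℚ) -
      (H / g : ℚ)| : ℚ) : ℝ) ≤ ((1 : ℚ) : ℝ) := by exact_mod_cast key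
  push_cast at key2
  exact key2

/-- module B1 LEG -/
theorem stLeg_12 : StLeg := by
  intro B
  induction B using Finset.induction_on with
  | empty =>
    intro g c N H _ hg
    have h1 := leg12_base g c N H hg
    simpa using h1
  | insert p B hpB ih =>
    intro g c N H hB hg
    obtain ⟨hp, hpg⟩ := hB p (Finset.mem_insert_self p B)
    have hB1 : ∀ q ∈ B, q.Prime ∧ ¬ q ∣ g := fun q hq => hB q (Finset.mem_insert_of_mem hq)
    have hB2 : ∀ q ∈ B, q.Prime ∧ ¬ q ∣ g * p := by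
      intro q hq
      obtain ⟨h1, h2⟩ := hB1 q hq
      refine ⟨h1, fun h3 => ?_⟩
      rcases h1.dvd_mul.1 h3 with h4 | h4
      · exact h2 h4
      · have h5 := (Nat.prime_dvd_prime_iff_eq h1 hp).1 h4
        exact hpB (h5 ▸ hq)
    have hcop : Nat.Coprime g p := ((Nat.Prime.coprime_iff_not_dvd hp).2 hpg).symm
    obtain ⟨c', hc1, hc2⟩ := Nat.chineseRemainder hcop c 0
    have i1 := ih g c N H hB1 hg
    have i2 := ih (g * p) c' N H hB2 (Nat.mul_pos hg hp.pos)
    -- the decomposition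
    have hdec : ((Ioc N (N + H)).filter (fun m => m ≡ c [MOD g] ∧ ∀ q ∈ B, ¬ q ∣ m)).card =
        ((Ioc N (N + H)).filter (fun m => m ≡ c [MOD g] ∧ ∀ q ∈ insert p B, ¬ q ∣ m)).card +
        ((Ioc N (N + H)).filter (fun m => m ≡ c' [MOD g * p] ∧ ∀ q ∈ B, ¬ q ∣ m)).card := by
      rw [← Finset.card_union_of_disjoint]
      · congr 1
        ext m
        simp only [Finset.mem_union, Finset.mem_filter, Finset.mem_insert, forall_eq_or_imp]
        have hmod : m ≡ c' [MOD g * p] ↔ m ≡ c [MOD g] ∧ p ∣ m := by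
          rw [← Nat.modEq_and_modEq_iff_modEq_mul hcop]
          constructor
          · rintro ⟨h1, h2⟩
            exact ⟨h1.trans hc1, (Nat.modEq_zero_iff_dvd).1 (h2.trans hc2)⟩
          · rintro ⟨h1, h2⟩
            exact ⟨h1.trans hc1.symm, ((Nat.modEq_zero_iff_dvd).2 h2).trans hc2.symm⟩
        rw [hmod]
        tauto
      · rw [Finset.disjoint_left]
        intro m h1 h2
        obtain ⟨-, -, h3⟩ := Finset.mem_filter.1 h1
        obtain ⟨-, h4, -⟩ := Finset.mem_filter.1 h2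
        refine h3 p (Finset.mem_insert_self p B) ?_
        have h5 : m ≡ c' [MOD p] := h4.of_mul_left g
        exact (Nat.modEq_zero_iff_dvd).1 (h5.trans hc2)
    have hdec' : (((Ioc N (N + H)).filter
        (fun m => m ≡ c [MOD g] ∧ ∀ q ∈ B, ¬ q ∣ m)).card : ℝ) =
        (((Ioc N (N + H)).filter
          (fun m => m ≡ c [MOD g] ∧ ∀ q ∈ insert p B, ¬ q ∣ m)).card : ℝ) +
        (((Ioc N (N + H)).filter
          (fun m => m ≡ c' [MOD g * p] ∧ ∀ q ∈ B, ¬ q ∣ m)).card : ℝ) := by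
      exact_mod_cast hdec
    rw [Finset.prod_insert hpB, Finset.card_insert_of_notMem hpB, pow_succ]
    have hg0 : (g : ℝ) ≠ 0 := by exact_mod_cast hg.ne'
    have hp0 : (p : ℝ) ≠ 0 := by exact_mod_cast hp.ne_zero
    have e1 : (H / g : ℝ) * ((1 - 1 / (p : ℝ)) * ∏ q ∈ B, (1 - 1 / (q : ℝ))) =
        (H / g : ℝ) * (∏ q ∈ B, (1 - 1 / (q : ℝ))) -
          (H / ((g * p : ℕ) : ℝ)) * ∏ q ∈ B, (1 - 1 / (q : ℝ)) := by
      push_cast
      field_simp
    rw [abs_le] at i1 i2 ⊢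
    rw [e1]
    constructor <;> linarith [i1.1, i1.2, i2.1, i2.2]

end Pool.Agent.Lib.MP_0f858a_nt.KR
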