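import Pool.Agent.Lib.MP_0f858a_nt.KR.Core84

/-!
MP_0f858a_nt, MAIN: the tail of the Kummer ratio.
-/

set_option autoImplicit false

namespace Pool.Agent.Lib.MP_0f858a_nt.KR

open Finset Filter
open scoped Classical

/-- the odd primes `q ≤ x` with ratio `≥ V` -/
noncomputable def BadV (x : ℕ) (V : ℝ) : Finset ℕ :=
  (Icc 1 x).filter fun q => q.Prime ∧ q ≠ 2 ∧ V ≤ max (RR q) (RR q)⁻¹

theorem small_card (x : ℕ) :
    (((Icc 1 x).filter (fun q => q ^ 2 ≤ x)).card : ℝ) ≤ Real.sqrt x := by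
  have h1 : (Icc 1 x).filter (fun q => q ^ 2 ≤ x) ⊆ Icc 1 (Nat.sqrt x) := by
    intro q hq
    rw [mem_filter, mem_Icc] at hq
    rw [mem_Icc]
    exact ⟨hq.1.1, Nat.le_sqrt'.mpr hq.2⟩
  have h2 := card_le_card h1
  rw [Nat.card_Icc, Nat.add_sub_cancel] at h2
  calc (((Icc 1 x).filter (fun q => q ^ 2 ≤ x)).card : ℝ) ≤ Nat.sqrt x := by exact_mod_cast h2
    _ ≤ Real.sqrt x := Real.nat_sqrt_le_real_sqrt

theorem cheb : ∃ C : ℝ, 0 < C ∧ ∀ x : ℕ, 2 ≤ x → (((Icc 1 x).filter Nat.Prime).card : ℝ) ≤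
    C * (x / Real.log x) := by
  have h1 := Chebyshev.eventually_primeCounting_le (ε := 1) one_pos
  obtain ⟨X, hX⟩ := eventually_atTop.mp h1
  have hlog4 : 0 ≤ Real.log 4 := Real.log_nonneg (by norm_num)
  refine ⟨Real.log 4 + 1 + Real.log (max X 2), by
    have : 0 ≤ Real.log (max X 2) := Real.log_nonneg (by
      have := le_max_right X 2
      linarith)
    linarith, fun x hx => ?_⟩
  have hx2 : (2 : ℝ) ≤ x := by exact_mod_cast hx
  have hL : 0 < Real.log x := Real.log_pos (by linarith)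
  have hM : 0 ≤ Real.log (max X 2) := Real.log_nonneg (by
      have := le_max_right X 2
      linarith)
  rcases le_or_gt X x with h | h
  · have h2 := hX x h
    rw [Nat.floor_natCast] at h2
    have h3 : ((Icc 1 x).filter Nat.Prime).card = Nat.primeCounting x := by
      rw [Nat.primeCounting, Nat.primeCounting', Nat.count_eq_card_filter_range]
      congr 1
      ext p
      simp only [mem_filter, mem_Icc, mem_range]
      constructor
      · rintro ⟨⟨_, h5⟩, h6⟩
        exact ⟨by omega, h6⟩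
      · rintro ⟨h5, h6⟩
        exact ⟨⟨h6.one_le, by omega⟩, h6⟩
    rw [h3]
    refine h2.trans ?_
    rw [mul_div_assoc]
    refine mul_le_mul_of_nonneg_right ?_ (by positivity)
    linarith
  · have h2 : ((Icc 1 x).filter Nat.Prime).card ≤ x := by
      refine (card_filter_le _ _).trans ?_
      rw [Nat.card_Icc, Nat.add_sub_cancel]
    have h3 : Real.log x ≤ Real.log (max X 2) :=
      Real.log_le_log (by linarith) (h.le.trans (le_max_left _ _))
    calc (((Icc 1 x).filter Nat.Prime).card : ℝ) ≤ x := by exact_mod_cast h2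
      _ = Real.log x * (x / Real.log x) := by field_simp
      _ ≤ _ := by
        refine mul_le_mul_of_nonneg_right ?_ (by positivity)
        linarith

theorem tail_s (hLogp : StLogp) (hLoge : StLoge) (hBts : StBts) (hSec : StSec) (hFst : StFst)
    (hSml : StSml) (hMid : StMid) (A B : ℕ) : ∃ C₄ C₅ : ℝ, 0 < C₄ ∧ 0 < C₅ ∧ ∃ x₁ : ℕ,
    ∀ x s : ℕ, x₁ ≤ x → 1 ≤ s → (s : ℝ) ≤ B * Real.log (Real.log x) → ∀ V : ℝ, C₄ * s < V →
    ((BadV x V).card : ℝ) ≤ 5 * (x / Real.log x ^ A) +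
      C₅ * (x / Real.log x) * Real.exp (-s) := by
  obtain ⟨CA, x2, h2⟩ := hSml A
  obtain ⟨x3, h3⟩ := hSec A
  obtain ⟨x4, h4⟩ := hFst A
  obtain ⟨C, hC, x5, h5⟩ := hMid B
  obtain ⟨x6, h6⟩ := eventually_atTop.mp (lg_ev A B C (by linarith))
  obtain ⟨C₄, hC₄, hcore⟩ := core hLogp hLoge hBts A B C CA hC
  refine ⟨C₄, 2 * C, hC₄, by linarith, max x2 (max x3 (max x4 (max x5 x6))), ?_⟩
  intro x s hx hs hsB V hV
  have hx2 : x2 ≤ x := (le_max_left _ _).trans hx
  have hx' := (le_max_right _ _).trans hx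
  have hx3 : x3 ≤ x := (le_max_left _ _).trans hx'
  have hx'' := (le_max_right _ _).trans hx'
  have hx4 : x4 ≤ x := (le_max_left _ _).trans hx''
  have hx''' := (le_max_right _ _).trans hx''
  have hx5 : x5 ≤ x := (le_max_left _ _).trans hx'''
  have hx6 : x6 ≤ x := (le_max_right _ _).trans hx'''
  have hLg := h6 x hx6
  obtain ⟨k3, k8, kx, klog, kC⟩ := KK_prop A B C hC x s hLg hs hsB
  set S1 := (Icc 1 x).filter (fun q => q ^ 2 ≤ x) with hS1
  set S2 := (Pr x).filter (fun q => 1 / 4 < SQ (x ^ 3) q) with hS2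
  set S3 := (Pr x).filter (fun q => 1 < ‖FS (x ^ 3) q‖) with hS3
  set S4 := fun b : Bool => (Pr x).filter (fun q => CA < ZS b q 0 (K8 x)) with hS4
  set S5 := fun b : Bool => (Pr x).filter (fun q => 1 < ZS b q (K8 x) (KK C x s)) with hS5
  have hsub : BadV x V ⊆ S1 ∪ S2 ∪ S3 ∪ (S4 true ∪ S4 false) ∪ (S5 true ∪ S5 false) := by
    intro q hq
    unfold BadV at hq
    rw [mem_filter] at hq
    obtain ⟨hqI, hqp, hq2, hqV⟩ := hq
    by_contra hno
    simp only [mem_union, not_or] at hno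
    obtain ⟨⟨⟨⟨n1, n2⟩, n3⟩, n4, n4'⟩, n5, n5'⟩ := hno
    have hqx : x < q ^ 2 := by
      by_contra h
      push Not at h
      exact n1 (mem_filter.mpr ⟨hqI, h⟩)
    have hqP : q ∈ Pr x := mem_filter.mpr ⟨hqI, hqp, hqx⟩
    have a2 : SQ (x ^ 3) q ≤ 1 / 4 := by
      by_contra h
      push Not at h
      exact n2 (mem_filter.mpr ⟨hqP, h⟩)
    have a3 : ‖FS (x ^ 3) q‖ ≤ 1 := by
      by_contra h
      push Not at h
      exact n3 (mem_filter.mpr ⟨hqP, h⟩)
    have a4 : ∀ b, ZS b q 0 (K8 x) ≤ CA := by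
      intro b
      by_contra h
      push Not at h
      cases b
      · exact n4' (mem_filter.mpr ⟨hqP, h⟩)
      · exact n4 (mem_filter.mpr ⟨hqP, h⟩)
    have a5 : ∀ b, ZS b q (K8 x) (KK C x s) ≤ 1 := by
      intro b
      by_contra h
      push Not at h
      cases b
      · exact n5' (mem_filter.mpr ⟨hqP, h⟩)
      · exact n5 (mem_filter.mpr ⟨hqP, h⟩)
    have := hcore x s q hLg hs hsB hqP a2 a3 a4 a5
    linarith
  have hcard := card_le_card hsub
  have hun : ((BadV x V).card : ℝ) ≤ (S1.card : ℝ) + S2.card + S3.card +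
      ((S4 true).card + (S4 false).card) + ((S5 true).card + (S5 false).card) := by
    have e1 := card_union_le (S1 ∪ S2 ∪ S3 ∪ (S4 true ∪ S4 false)) (S5 true ∪ S5 false)
    have e2 := card_union_le (S1 ∪ S2 ∪ S3) (S4 true ∪ S4 false)
    have e3 := card_union_le (S1 ∪ S2) S3
    have e4 := card_union_le S1 S2
    have e5 := card_union_le (S4 true) (S4 false)
    have e6 := card_union_le (S5 true) (S5 false)
    exact_mod_cast (by omega : (BadV x V).card ≤ S1.card + S2.card + S3.card +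
      ((S4 true).card + (S4 false).card) + ((S5 true).card + (S5 false).card))
  have b1 : (S1.card : ℝ) ≤ x / Real.log x ^ A := by
    refine (small_card x).trans ?_
    obtain ⟨hx9, hl, -, -, h⟩ := hLg
    have hL : 0 < Real.log x := Real.log_pos (by exact_mod_cast (by omega : 1 < x))
    rwa [le_div_iff₀ (by positivity)]
  have b2 := h3 x hx3
  have b3 := h4 x hx4
  have b4 := h2 x hx2 true
  have b4' := h2 x hx2 false
  have b5 := h5 x hx5 true s (KK C x s) hs hsB kC
  have b5' := h5 x hx5 false s (KK C x s) hs hsB kC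
  rw [← hS2] at b2
  rw [← hS3] at b3
  have c4 : ((S4 true).card : ℝ) ≤ x / Real.log x ^ A := b4
  have c4' : ((S4 false).card : ℝ) ≤ x / Real.log x ^ A := b4'
  have c5 : ((S5 true).card : ℝ) ≤ C * (x / Real.log x) * Real.exp (-s) := b5
  have c5' : ((S5 false).card : ℝ) ≤ C * (x / Real.log x) * Real.exp (-s) := b5'
  linarith

/-- the theorem, from the modules -/
theorem stMain_84 (hLogp : StLogp) (hLoge : StLoge) (hBts : StBts) (hSec : StSec) (hFst : StFst)
    (hSml : StSml) (hMid : StMid) : StMain := by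
  intro A
  obtain ⟨C₄, C₅, hC₄, hC₅, x₁, hmain⟩ :=
    tail_s hLogp hLoge hBts hSec hFst hSml hMid (A + 1) (A + 1)
  obtain ⟨Cc, hCc, hcheb⟩ := cheb
  have hT : Tendsto (fun x : ℕ => Real.log (Real.log x)) atTop atTop :=
    Real.tendsto_log_atTop.comp (Real.tendsto_log_atTop.comp tendsto_natCast_atTop_atTop)
  obtain ⟨x₂, hx₂⟩ := eventually_atTop.mp (hT.eventually (eventually_ge_atTop 1))
  obtain ⟨X, hX⟩ : ∃ X, X = max (max x₁ x₂) 3 := ⟨_, rfl⟩
  have hX3 : 3 ≤ X := by rw [hX]; exact le_max_right _ _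
  have hlX : 0 ≤ Real.log X := Real.log_natCast_nonneg _
  obtain ⟨C, hC⟩ : ∃ C : ℝ, C = 5 + 3 * C₅ + 2 * C₄ + Cc * Real.exp 1 + Real.log X ^ (A + 1) :=
    ⟨_, rfl⟩
  have hlXA : 0 ≤ Real.log X ^ (A + 1) := by positivity
  have he1 : 1 ≤ Real.exp 1 := Real.one_le_exp (by norm_num)
  have hC0 : 0 < C := by
    rw [hC]
    positivity
  refine ⟨C, hC0, ?_⟩
  intro x V hx hV
  have hx2 : (2 : ℝ) ≤ x := by exact_mod_cast hx
  have hL : 0 < Real.log x := Real.log_pos (by linarith)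
  have hLA : 0 < (Real.log x ^ A)⁻¹ := by positivity
  have hxL : 0 < (x : ℝ) / Real.log x := by positivity
  have hbad : (Icc 1 x).filter (fun q => q.Prime ∧ q ≠ 2 ∧ V ≤ max (RR q) (RR q)⁻¹) = BadV x V :=
    rfl
  rw [hbad]
  have hexp0 : 0 < Real.exp (-V / C) := Real.exp_pos _
  rcases lt_or_ge x X with hxX | hxX
  · -- small x
    have h1 : (BadV x V).card ≤ x := by
      refine (card_filter_le _ _).trans ?_
      rw [Nat.card_Icc, Nat.add_sub_cancel]
    have h2 : Real.log x ^ (A + 1) ≤ C := by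
      have : Real.log x ≤ Real.log X :=
        Real.log_le_log (by linarith) (by exact_mod_cast hxX.le)
      have h3 := pow_le_pow_left₀ hL.le this (A + 1)
      have h4 : 0 ≤ Cc * Real.exp 1 := by positivity
      rw [hC]
      linarith
    calc ((BadV x V).card : ℝ) ≤ x := by exact_mod_cast h1
      _ = Real.log x ^ (A + 1) * (x / Real.log x) * (Real.log x ^ A)⁻¹ := by
          rw [pow_succ]
          field_simp
      _ ≤ C * (x / Real.log x) * (Real.log x ^ A)⁻¹ := by gcongr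
      _ ≤ _ := by
          refine mul_le_mul_of_nonneg_left ?_ (by positivity)
          linarith
  have hx1 : x₁ ≤ x := by
    rw [hX] at hxX
    exact (le_max_left _ _).trans ((le_max_left _ _).trans hxX)
  have hx2' : x₂ ≤ x := by
    rw [hX] at hxX
    exact (le_max_right _ _).trans ((le_max_left _ _).trans hxX)
  have hll := hx₂ x hx2'
  set ℓ := Real.log (Real.log x) with hℓ
  rcases le_or_gt V (2 * C₄) with hVs | hVs
  · -- small V
    have h1 : (BadV x V).card ≤ ((Icc 1 x).filter Nat.Prime).card := by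
      refine card_le_card fun q hq => ?_
      unfold BadV at hq
      rw [mem_filter] at hq ⊢
      exact ⟨hq.1, hq.2.1⟩
    have h2 : Real.exp (-1) ≤ Real.exp (-V / C) := by
      apply Real.exp_le_exp.mpr
      rw [neg_div, neg_le_neg_iff, div_le_one hC0]
      have h4 : 0 ≤ Cc * Real.exp 1 := by positivity
      rw [hC]
      linarith
    have h3 : Cc ≤ C * Real.exp (-1) := by
      have h4 : Cc * Real.exp 1 ≤ C := by
        rw [hC]
        linarith
      have h5 : Real.exp 1 * Real.exp (-1) = 1 := by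
        rw [← Real.exp_add]
        simp
      calc Cc = Cc * Real.exp 1 * Real.exp (-1) := by rw [mul_assoc, h5, mul_one]
        _ ≤ C * Real.exp (-1) := by gcongr
    calc ((BadV x V).card : ℝ) ≤ (((Icc 1 x).filter Nat.Prime).card : ℝ) := by exact_mod_cast h1
      _ ≤ Cc * (x / Real.log x) := hcheb x hx
      _ ≤ C * Real.exp (-1) * (x / Real.log x) := by gcongr
      _ = C * (x / Real.log x) * Real.exp (-1) := by ring
      _ ≤ _ := by
          refine mul_le_mul_of_nonneg_left ?_ (by positivity)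
          linarith
  · -- large V
    obtain ⟨s₀, hs₀⟩ : ∃ s₀, s₀ = ⌈V / C₄⌉₊ - 1 := ⟨_, rfl⟩
    have hVC : 2 < V / C₄ := by
      rw [lt_div_iff₀ hC₄]
      linarith
    have hceil : V / C₄ ≤ ⌈V / C₄⌉₊ := Nat.le_ceil _
    have hceil2 : (⌈V / C₄⌉₊ : ℝ) < V / C₄ + 1 := Nat.ceil_lt_add_one (by linarith)
    have hceil3 : 3 ≤ ⌈V / C₄⌉₊ := by
      have : (2 : ℝ) < ⌈V / C₄⌉₊ := by linarith
      exact_mod_cast this
    have hs₀r : (s₀ : ℝ) = ⌈V / C₄⌉₊ - 1 := by
      rw [hs₀, Nat.cast_sub (by omega)]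
      simp
    have hs₀2 : 2 ≤ s₀ := by omega
    have hs₀V : C₄ * s₀ < V := by
      rw [hs₀r]
      have : (⌈V / C₄⌉₊ : ℝ) - 1 < V / C₄ := by linarith
      rw [lt_div_iff₀ hC₄] at this
      linarith
    have hs₀V' : V / (2 * C₄) ≤ s₀ := by
      rw [hs₀r]
      have e1 : V / (2 * C₄) = V / C₄ / 2 := by field_simp
      rw [e1]
      linarith
    obtain ⟨s₁, hs₁⟩ : ∃ s₁, s₁ = ⌊((A + 1 : ℕ) : ℝ) * ℓ⌋₊ := ⟨_, rfl⟩
    have hA1 : (1 : ℝ) ≤ ((A + 1 : ℕ) : ℝ) := by exact_mod_cast (by omega : 1 ≤ A + 1)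
    have hAl : 1 ≤ ((A + 1 : ℕ) : ℝ) * ℓ := by nlinarith
    have hs₁1 : 1 ≤ s₁ := by
      rw [hs₁]
      exact Nat.le_floor (by simpa using hAl)
    have hs₁le : (s₁ : ℝ) ≤ ((A + 1 : ℕ) : ℝ) * ℓ := by
      rw [hs₁]
      exact Nat.floor_le (by linarith)
    have hs₁ge : ((A + 1 : ℕ) : ℝ) * ℓ - 1 ≤ s₁ := by
      have := Nat.lt_floor_add_one (((A + 1 : ℕ) : ℝ) * ℓ)
      rw [hs₁]
      linarith
    obtain ⟨s, hs⟩ : ∃ s, s = min s₀ s₁ := ⟨_, rfl⟩
    have hs1 : 1 ≤ s := by omega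
    have hss₀ : (s : ℝ) ≤ s₀ := by exact_mod_cast (by omega : s ≤ s₀)
    have hss₁ : (s : ℝ) ≤ s₁ := by exact_mod_cast (by omega : s ≤ s₁)
    have h1 := hmain x s hx1 hs1 (hss₁.trans hs₁le) V
      (lt_of_le_of_lt (mul_le_mul_of_nonneg_left hss₀ hC₄.le) hs₀V)
    have hElog : Real.exp (-(((A + 1 : ℕ) : ℝ) * ℓ)) = (Real.log x ^ (A + 1))⁻¹ := by
      rw [Real.exp_neg, Real.exp_nat_mul, hℓ, Real.exp_log hL]
    have hLe : Real.exp 1 ≤ Real.log x := by
      rw [← Real.exp_log hL, ← hℓ]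
      exact Real.exp_le_exp.mpr hll
    have hL1 : 1 ≤ Real.log x := he1.trans hLe
    have hinv : Real.exp 1 * (Real.log x ^ (A + 1))⁻¹ ≤ (Real.log x ^ A)⁻¹ := by
      rw [pow_succ, mul_inv, ← mul_assoc, mul_comm (Real.exp 1), mul_assoc]
      refine mul_le_of_le_one_right hLA.le ?_
      rw [← div_eq_mul_inv, div_le_one hL]
      exact hLe
    have h2 : Real.exp (-s) ≤ Real.exp (-V / C) + (Real.log x ^ A)⁻¹ := by
      have hor : s = s₀ ∨ s = s₁ := by omega
      rcases hor with h | h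
      · have : Real.exp (-(s : ℝ)) ≤ Real.exp (-V / C) := by
          apply Real.exp_le_exp.mpr
          rw [neg_div, neg_le_neg_iff, h]
          refine le_trans ?_ hs₀V'
          have hCC : 2 * C₄ ≤ C := by
            have h4 : 0 ≤ Cc * Real.exp 1 := by positivity
            rw [hC]
            linarith
          exact div_le_div_of_nonneg_left (by linarith) (by linarith) hCC
        linarith
      · have : Real.exp (-(s : ℝ)) ≤ (Real.log x ^ A)⁻¹ := by
          rw [h]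
          calc Real.exp (-(s₁ : ℝ)) ≤ Real.exp (1 + -(((A + 1 : ℕ) : ℝ) * ℓ)) :=
                Real.exp_le_exp.mpr (by linarith)
            _ = Real.exp 1 * (Real.log x ^ (A + 1))⁻¹ := by rw [Real.exp_add, hElog]
            _ ≤ _ := hinv
        linarith
    have h3 : (x : ℝ) / Real.log x ^ (A + 1) = x / Real.log x * (Real.log x ^ A)⁻¹ := by
      rw [pow_succ]
      field_simp
    rw [h3] at h1
    have hCge : 5 + C₅ ≤ C := by
      have h4 : 0 ≤ Cc * Real.exp 1 := by positivity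
      rw [hC]
      linarith
    calc ((BadV x V).card : ℝ) ≤ 5 * (x / Real.log x * (Real.log x ^ A)⁻¹) +
          C₅ * (x / Real.log x) * Real.exp (-s) := h1
      _ ≤ 5 * (x / Real.log x * (Real.exp (-V / C) + (Real.log x ^ A)⁻¹)) +
          C₅ * (x / Real.log x) * (Real.exp (-V / C) + (Real.log x ^ A)⁻¹) := by
          gcongr
          linarith
      _ = (5 + C₅) * (x / Real.log x) * (Real.exp (-V / C) + (Real.log x ^ A)⁻¹) := by ring
      _ ≤ _ := by gcongr

end Pool.Agent.Lib.MP_0f858a_nt.KR
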