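import Pool.Agent.Lib.MP_0f858a_nt.KR.StmtsB84
import Pool.Agent.Lib.MP_0f858a_nt.KR.Main84

/-!
MP_0f858a_nt, MAINB: `max (R, 1/R) ≤ C log A` outside `O_A (x / (log x) ^ A)` primes.
-/

set_option autoImplicit false

namespace Pool.Agent.Lib.MP_0f858a_nt.KR

open Finset Filter
open scoped Classical

theorem KE_prop (c : ℕ) (hc : 1 ≤ c) : ∀ᶠ x : ℕ in atTop,
    3 ≤ KE c x ∧ K8 x ≤ KE c x ∧ KE c x ≤ x ∧ Real.log x / (2 * c) ≤ Real.log (KE c x) := by
  obtain ⟨x₀, hx₀⟩ := eventually_atTop.mp (lg_ev 0 c c (Nat.cast_nonneg _))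
  have hT : Tendsto (fun x : ℕ => Real.log (Real.log x)) atTop atTop :=
    Real.tendsto_log_atTop.comp (Real.tendsto_log_atTop.comp tendsto_natCast_atTop_atTop)
  filter_upwards [eventually_ge_atTop x₀, hT.eventually (eventually_ge_atTop 1)] with x hx hl
  have hc' : (1 : ℝ) ≤ c := by exact_mod_cast hc
  have h := KK_prop 0 c c hc' x 1 (hx₀ x hx) le_rfl (by
    push_cast
    nlinarith)
  have e : KK c x 1 = KE c x := by
    unfold KK KE
    push_cast
    rw [mul_one]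
  rw [e] at h
  obtain ⟨h1, h2, h3, h4, -⟩ := h
  refine ⟨h1, h2, h3, ?_⟩
  refine le_trans (le_of_eq ?_) h4
  push_cast
  rw [mul_one]

theorem coreb (hLogp : StLogp) (hLoge : StLoge) (hBts : StBts) (c : ℕ) (hc : 1 ≤ c) (C₀ C1 : ℝ) :
    ∃ C₄ : ℝ, 0 < C₄ ∧ ∀ᶠ x : ℕ in atTop, ∀ (A q : ℕ), 3 ≤ A →
    q ∈ Pr x → SQ (x ^ 3) q ≤ 1 / 4 →
    ‖FS (x ^ 3) q‖ ≤ 1 → (∀ b, ZS b q 0 (K8 x) ≤ C1 + 2 * Real.log (Real.log A)) →
    (∀ b, ZS b q (K8 x) (KE c x) ≤ C₀) →
    max (RR q) (RR q)⁻¹ ≤ C₄ * Real.log A := by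
  obtain ⟨CP, hCP⟩ := hLogp
  obtain ⟨C2, hC2⟩ := hBts
  refine ⟨Real.exp (2 + CP + 1 / 2 * (C1 + C₀ + C2 + 2 * Real.log (6 * c))), Real.exp_pos _, ?_⟩
  filter_upwards [lg_ev 0 0 0 le_rfl, KE_prop c hc] with x hLg hKE
  intro A q hA hq hSQ hFS hsm hmi
  obtain ⟨k3, k8, kx, klog⟩ := hKE
  obtain ⟨hx9, hl, -, h2, -⟩ := hLg
  unfold Pr at hq
  rw [mem_filter, mem_Icc] at hq
  obtain ⟨⟨hq1, hqx⟩, hqp, hxq⟩ := hq
  have : NeZero q := ⟨by omega⟩
  have hq3 : 3 ≤ q := by nlinarith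
  have hx0 : (0 : ℝ) < x := by exact_mod_cast (by omega : 0 < x)
  have hx1 : (1 : ℝ) < x := by exact_mod_cast (by omega : 1 < x)
  have hL0 : 0 < Real.log x := Real.log_pos hx1
  have hc' : (1 : ℝ) ≤ c := by exact_mod_cast hc
  obtain ⟨hE0, hE⟩ := hLoge q (x ^ 3) hqp hq3 hSQ hFS
  have hP := hCP q (x ^ 3) hqp hq3
  obtain ⟨hR0, hR⟩ := log_RR q (x ^ 3) hE0
  set T := x ^ 3 / q + 1 with hT
  have hTle : T ≤ x ^ 3 := by
    have a1 : x ^ 3 / q ≤ x ^ 3 / 2 := Nat.div_le_div_left (by omega) (by norm_num)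
    have a2 : 8 ≤ x ^ 3 := by nlinarith [Nat.pow_le_pow_left (by omega : 2 ≤ x) 3]
    omega
  have hTge : x ≤ T := by
    have a1 : x ^ 3 / x ≤ x ^ 3 / q := Nat.div_le_div_left hqx (by omega)
    have a2 : x ^ 3 / x = x ^ 2 := by
      rw [show x ^ 3 = x ^ 2 * x by ring]
      exact Nat.mul_div_cancel _ (by omega)
    have a3 : x ≤ x ^ 2 := by nlinarith
    omega
  have hKT : KE c x ≤ T := kx.trans hTge
  have hT0 : (0 : ℝ) < T := by exact_mod_cast (by omega : 0 < T)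
  have hlogT : Real.log T ≤ 3 * Real.log x := by
    have a1 : (T : ℝ) ≤ x ^ 3 := by exact_mod_cast hTle
    calc Real.log T ≤ Real.log ((x : ℝ) ^ 3) := Real.log_le_log hT0 a1
      _ = _ := by rw [Real.log_pow]; norm_num
  have hTq : Real.log T ≤ q := by
    refine hlogT.trans (h2.trans ?_)
    rw [Real.sqrt_le_left (Nat.cast_nonneg _)]
    exact_mod_cast hxq.le
  have hlK : 0 < Real.log (KE c x) := Real.log_pos (by exact_mod_cast (by omega : 1 < KE c x))
  set u := Real.log (Real.log A) with hu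
  have hZ : ∀ b, ZS b q 0 T ≤ C1 + 2 * u + C₀ + C2 + 2 * Real.log (6 * c) := by
    intro b
    rw [ZS_split b q 0 (K8 x) T (Nat.zero_le _) (k8.trans hKT), ZS_split b q (K8 x) (KE c x) T k8
      hKT]
    have a1 := hC2 b q (KE c x) T hqp k3 hKT hTq
    have a2 : Real.log T / Real.log (KE c x) ≤ 6 * c := by
      rw [div_le_iff₀ hlK]
      calc Real.log T ≤ 3 * Real.log x := hlogT
        _ = 6 * c * (Real.log x / (2 * c)) := by field_simp; ring
        _ ≤ _ := by gcongr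
    have a3 : 0 < Real.log T / Real.log (KE c x) := by
      refine div_pos (Real.log_pos ?_) hlK
      exact_mod_cast (by omega : 1 < T)
    have a4 := Real.log_le_log a3 a2
    have a5 := hsm b
    have a6 := hmi b
    linarith
  have hmax : max (ZS true q 0 T) (ZS false q 0 T) ≤
      C1 + 2 * u + C₀ + C2 + 2 * Real.log (6 * c) := max_le (hZ true) (hZ false)
  have habs : |Real.log (RR q)| ≤
      2 + CP + 1 / 2 * (C1 + C₀ + C2 + 2 * Real.log (6 * c)) + u := by
    rw [hR]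
    refine (abs_sub _ _).trans ?_
    linarith
  have hlA : 0 < Real.log A := Real.log_pos (by exact_mod_cast (by omega : 1 < A))
  have hexp : Real.exp (2 + CP + 1 / 2 * (C1 + C₀ + C2 + 2 * Real.log (6 * c)) + u) =
      Real.exp (2 + CP + 1 / 2 * (C1 + C₀ + C2 + 2 * Real.log (6 * c))) * Real.log A := by
    rw [Real.exp_add, hu, Real.exp_log hlA]
  rw [← hexp]
  obtain ⟨g1, g2⟩ := abs_le.mp habs
  refine max_le ?_ ?_
  · rw [← Real.log_le_iff_le_exp hR0]
    exact g2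
  · rw [← Real.log_le_iff_le_exp (inv_pos.mpr hR0), Real.log_inv]
    linarith

/-- the theorem, from the modules -/
theorem stMainb_84 (hLogp : StLogp) (hLoge : StLoge) (hBts : StBts) (hSec : StSec) (hFst : StFst)
    (hSmlb : StSmlb) (hMidb : StMidb) : StMainb := by
  obtain ⟨c, hc, C₀, hMid⟩ := hMidb
  obtain ⟨C1, hSml⟩ := hSmlb
  obtain ⟨C₄, hC₄, hcore⟩ := coreb hLogp hLoge hBts c hc C₀ C1
  refine ⟨2 * C₄, by linarith, ?_⟩
  intro A hA
  obtain ⟨A', hA'⟩ : ∃ A', A' = max A 3 := ⟨_, rfl⟩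
  have hA3 : 3 ≤ A' := by omega
  have hAA' : A ≤ A' := by omega
  have hlogA : Real.log A' ≤ 2 * Real.log A := by
    have h2 : (A' : ℝ) ≤ A ^ 2 := by
      have : A' ≤ A ^ 2 := by
        rcases le_or_gt 3 A with h | h
        · have : A' = A := by omega
          rw [this]
          nlinarith
        · have : A = 2 := by omega
          subst this
          have : A' = 3 := by omega
          omega
      exact_mod_cast this
    have h3 : Real.log A' ≤ Real.log ((A : ℝ) ^ 2) :=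
      Real.log_le_log (by exact_mod_cast (by omega : 0 < A')) h2
    rw [Real.log_pow] at h3
    exact_mod_cast h3
  obtain ⟨x2, h2⟩ := hSml A' hA3
  obtain ⟨x3, h3⟩ := hSec A'
  obtain ⟨x4, h4⟩ := hFst A'
  obtain ⟨x5, h5⟩ := hMid A'
  obtain ⟨x6, h6⟩ := eventually_atTop.mp (hcore.and (lg_ev A' 0 0 le_rfl))
  obtain ⟨X, hX⟩ : ∃ X, X = max x2 (max x3 (max x4 (max x5 (max x6 3)))) := ⟨_, rfl⟩
  have hX3 : 3 ≤ X := by omega
  have hlX : 0 ≤ Real.log X := Real.log_natCast_nonneg _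
  refine ⟨8 + Real.log X ^ A, by positivity, ?_⟩
  intro x hx
  have hx2 : (2 : ℝ) ≤ x := by exact_mod_cast hx
  have hL : 0 < Real.log x := Real.log_pos (by linarith)
  have hcount : (Icc 1 x).filter (fun q => q.Prime ∧ q ≠ 2 ∧
      2 * C₄ * Real.log A < max (RR q) (RR q)⁻¹) ⊆
      (Icc 1 x).filter (fun q => q.Prime ∧ q ≠ 2 ∧ C₄ * Real.log A' < max (RR q) (RR q)⁻¹) := by
    intro q hq
    rw [mem_filter] at hq ⊢
    refine ⟨hq.1, hq.2.1, hq.2.2.1, lt_of_le_of_lt ?_ hq.2.2.2⟩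
    calc C₄ * Real.log A' ≤ C₄ * (2 * Real.log A) := mul_le_mul_of_nonneg_left hlogA hC₄.le
      _ = _ := by ring
  rcases lt_or_ge x X with hxX | hxX
  · have h1 : ((Icc 1 x).filter (fun q => q.Prime ∧ q ≠ 2 ∧
        2 * C₄ * Real.log A < max (RR q) (RR q)⁻¹)).card ≤ x := by
      refine (card_filter_le _ _).trans ?_
      rw [Nat.card_Icc, Nat.add_sub_cancel]
    have h2 : Real.log x ^ A ≤ 8 + Real.log X ^ A := by
      have : Real.log x ≤ Real.log X :=
        Real.log_le_log (by linarith) (by exact_mod_cast hxX.le)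
      have h3 := pow_le_pow_left₀ hL.le this A
      linarith
    refine le_trans (b := (x : ℝ)) (by exact_mod_cast h1) ?_
    rw [← mul_div_assoc, le_div_iff₀ (by positivity), mul_comm]
    exact mul_le_mul_of_nonneg_right h2 (Nat.cast_nonneg _)
  obtain ⟨hco, hLg⟩ := h6 x (by omega)
  set S1 := (Icc 1 x).filter (fun q => q ^ 2 ≤ x) with hS1
  set S2 := (Pr x).filter (fun q => 1 / 4 < SQ (x ^ 3) q) with hS2
  set S3 := (Pr x).filter (fun q => 1 < ‖FS (x ^ 3) q‖) with hS3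
  set S4 := fun b : Bool => (Pr x).filter
    (fun q => C1 + 2 * Real.log (Real.log A') < ZS b q 0 (K8 x)) with hS4
  set S5 := fun b : Bool => (Pr x).filter (fun q => C₀ < ZS b q (K8 x) (KE c x)) with hS5
  have hsub : (Icc 1 x).filter (fun q => q.Prime ∧ q ≠ 2 ∧ C₄ * Real.log A' <
      max (RR q) (RR q)⁻¹) ⊆ S1 ∪ S2 ∪ S3 ∪ (S4 true ∪ S4 false) ∪ (S5 true ∪ S5 false) := by
    intro q hq
    rw [mem_filter] at hq
    obtain ⟨hqI, hqp, hq2, hqV⟩ := hq
    by_contra hno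
    simp only [mem_union, not_or] at hno
    obtain ⟨⟨⟨⟨n1, n2⟩, n3⟩, n4, n4'⟩, n5, n5'⟩ := hno
    have hqx : x < q ^ 2 := by
      by_contra h
      push Not at h
      exact n1 (mem_filter.mpr ⟨hqI, h⟩)
    have hqP : q ∈ Pr x := mem_filter.mpr ⟨hqI, hqp, hqx⟩
    have a2 : SQ (x ^ 3) q ≤ 1 / 4 := by
      by_contra h
      push Not at h
      exact n2 (mem_filter.mpr ⟨hqP, h⟩)
    have a3 : ‖FS (x ^ 3) q‖ ≤ 1 := by
      by_contra h
      push Not at h
      exact n3 (mem_filter.mpr ⟨hqP, h⟩)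
    have a4 : ∀ b, ZS b q 0 (K8 x) ≤ C1 + 2 * Real.log (Real.log A') := by
      intro b
      by_contra h
      push Not at h
      cases b
      · exact n4' (mem_filter.mpr ⟨hqP, h⟩)
      · exact n4 (mem_filter.mpr ⟨hqP, h⟩)
    have a5 : ∀ b, ZS b q (K8 x) (KE c x) ≤ C₀ := by
      intro b
      by_contra h
      push Not at h
      cases b
      · exact n5' (mem_filter.mpr ⟨hqP, h⟩)
      · exact n5 (mem_filter.mpr ⟨hqP, h⟩)
    have := hco A' q hA3 hqP a2 a3 a4 a5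
    linarith
  have hcard := card_le_card (hcount.trans hsub)
  have hun : (((Icc 1 x).filter (fun q => q.Prime ∧ q ≠ 2 ∧
      2 * C₄ * Real.log A < max (RR q) (RR q)⁻¹)).card : ℝ) ≤ (S1.card : ℝ) + S2.card + S3.card +
      ((S4 true).card + (S4 false).card) + ((S5 true).card + (S5 false).card) := by
    have e1 := card_union_le (S1 ∪ S2 ∪ S3 ∪ (S4 true ∪ S4 false)) (S5 true ∪ S5 false)
    have e2 := card_union_le (S1 ∪ S2 ∪ S3) (S4 true ∪ S4 false)
    have e3 := card_union_le (S1 ∪ S2) S3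
    have e4 := card_union_le S1 S2
    have e5 := card_union_le (S4 true) (S4 false)
    have e6 := card_union_le (S5 true) (S5 false)
    exact_mod_cast (by omega : ((Icc 1 x).filter (fun q => q.Prime ∧ q ≠ 2 ∧
      2 * C₄ * Real.log A < max (RR q) (RR q)⁻¹)).card ≤ S1.card + S2.card + S3.card +
      ((S4 true).card + (S4 false).card) + ((S5 true).card + (S5 false).card))
  have hL1 : 1 ≤ Real.log x := by
    have := hLg.2.1
    have h8 : Real.exp 1 ≤ Real.log x := by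
      rw [← Real.exp_log hL]
      exact Real.exp_le_exp.mpr this
    have h9 : 1 ≤ Real.exp 1 := Real.one_le_exp (by norm_num)
    linarith
  have b1 : (S1.card : ℝ) ≤ x / Real.log x ^ A' := by
    refine (small_card x).trans ?_
    obtain ⟨hx9, hl, -, -, h⟩ := hLg
    rwa [le_div_iff₀ (by positivity)]
  have b2 : (S2.card : ℝ) ≤ x / Real.log x ^ A' := h3 x (by omega)
  have b3 : (S3.card : ℝ) ≤ x / Real.log x ^ A' := h4 x (by omega)
  have b4 : ((S4 true).card : ℝ) ≤ x / Real.log x ^ A' := h2 x (by omega) true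
  have b4' : ((S4 false).card : ℝ) ≤ x / Real.log x ^ A' := h2 x (by omega) false
  have b5 : ((S5 true).card : ℝ) ≤ x / Real.log x ^ A' := h5 x (by omega) true
  have b5' : ((S5 false).card : ℝ) ≤ x / Real.log x ^ A' := h5 x (by omega) false
  have hle : (x : ℝ) / Real.log x ^ A' ≤ x / Real.log x ^ A := by
    apply div_le_div_of_nonneg_left (by linarith) (by positivity)
    exact pow_le_pow_right₀ hL1 hAA'
  have hpos : 0 ≤ (x : ℝ) / Real.log x ^ A := by positivity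
  have hXA : 0 ≤ Real.log X ^ A * (x / Real.log x ^ A) := by positivity
  calc _ ≤ _ := hun
    _ ≤ 7 * (x / Real.log x ^ A') := by linarith
    _ ≤ 7 * (x / Real.log x ^ A) := by linarith
    _ ≤ (8 + Real.log X ^ A) * (x / Real.log x ^ A) := by
        rw [add_mul]
        linarith

end Pool.Agent.Lib.MP_0f858a_nt.KR
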