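import Pool.Agent.Lib.MP_0f858a_nt.KR.StmtsC84
import Pool.Agent.Lib.MP_0f858a_nt.KR.MainB84
import Pool.Agent.Lib.MT2.Rates82
import Pool.Agent.Lib.MP_973905_nt.PrimeSum

/-!
MP_0f858a_nt, MIDU: the `k` of middle size, by the variance.
-/

set_option autoImplicit false

namespace Pool.Agent.Lib.MP_0f858a_nt.KR

open Finset Filter
open scoped Classical
open Pool.Agent.Lib.MP_973905_nt (PS)

/-- the number of `k` in `(K, 2K]` with `k q ± 1` prime -/
noncomputable def NK (b : Bool) (K q : ℕ) : ℕ :=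
  ((Ioc K (2 * K)).filter (fun k => (pk b q k).Prime)).card

theorem pk_gt (b : Bool) {q k z : ℕ} (hk : 2 ≤ k) (hq : z < q) (hq2 : 2 ≤ q) : z < pk b q k := by
  have h8 : 2 * q ≤ k * q := Nat.mul_le_mul_right _ hk
  unfold pk
  split_ifs <;> omega

theorem NK_le (b : Bool) (K z0 z q : ℕ) (U : Finset ℕ → ℝ) (hK : 1 ≤ K) (hq : q.Prime)
    (hzq : z < q)
    (hU : ∀ h : ℕ → ℝ, (∀ p, 0 ≤ h p ∧ h p ≤ 1) →
      ∏ p ∈ Pz2 z0 z, (1 - h p) ≤ ∑ D ∈ (Pz2 z0 z).powerset, U D * ∏ p ∈ D, h p) :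
    (NK b K q : ℝ) ≤ ∑ D ∈ (Pz2 z0 z).powerset, U D * rho b K D q +
      K * ∑ D ∈ (Pz2 z0 z).powerset, U D * ∏ p ∈ D, (1 / (p : ℝ)) := by
  have hbd : ∀ k : ℕ, ∀ p : ℕ, (0 : ℝ) ≤ (if p ∣ pk b q k then (1 : ℝ) else 0) ∧
      (if p ∣ pk b q k then (1 : ℝ) else 0) ≤ 1 := by
    intro k p
    split_ifs <;> norm_num
  have h1 : ∀ k ∈ Ioc K (2 * K), (if (pk b q k).Prime then (1 : ℝ) else 0) ≤
      ∑ D ∈ (Pz2 z0 z).powerset, U D * ∏ p ∈ D, (if p ∣ pk b q k then (1 : ℝ) else 0) := by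
    intro k hk
    rw [mem_Ioc] at hk
    refine le_trans ?_ (hU (fun p => if p ∣ pk b q k then (1 : ℝ) else 0) (hbd k))
    split_ifs with hp
    · rw [prod_eq_one]
      intro p hpP
      unfold Pz2 at hpP
      rw [mem_filter, mem_Ioc] at hpP
      have hlt := pk_gt b (k := k) (by omega) hzq hq.two_le
      rw [if_neg, sub_zero]
      intro hdvd
      have := (Nat.prime_dvd_prime_iff_eq hpP.2 hp).mp hdvd
      omega
    · exact prod_nonneg fun p _ => by linarith [(hbd k p).2]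
  have h2 : (NK b K q : ℝ) = ∑ k ∈ Ioc K (2 * K), (if (pk b q k).Prime then (1 : ℝ) else 0) := by
    unfold NK
    rw [← sum_filter, sum_const, nsmul_eq_mul, mul_one]
  rw [h2]
  refine (sum_le_sum h1).trans (le_of_eq ?_)
  rw [sum_comm, mul_sum, ← sum_add_distrib]
  refine sum_congr rfl fun D hD => ?_
  rw [mem_powerset] at hD
  have hDp : ∀ p ∈ D, p.Prime ∧ p ≤ z := fun p hp => by
    have := hD hp
    unfold Pz2 at this
    rw [mem_filter, mem_Ioc] at this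
    exact ⟨this.2, this.1.2⟩
  have h3 : ∑ k ∈ Ioc K (2 * K), U D * ∏ p ∈ D, (if p ∣ pk b q k then (1 : ℝ) else 0) =
      U D * (cD b K D q : ℝ) := by
    rw [← mul_sum]
    congr 1
    unfold cD
    rw [card_eq_sum_ones, sum_filter]
    push_cast
    refine sum_congr rfl fun k _ => ?_
    by_cases h : ∀ p ∈ D, p ∣ pk b q k
    · rw [if_pos h]
      refine prod_eq_one fun p hp => by rw [if_pos (h p hp)]
    · rw [if_neg h]
      push Not at h
      obtain ⟨p, hp, h4⟩ := h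
      exact prod_eq_zero hp (by rw [if_neg h4])
  have h4 : rho b K D q = (cD b K D q : ℝ) - K / ((∏ p ∈ D, p : ℕ) : ℝ) := by
    unfold rho
    rw [if_pos]
    intro p hp hdvd
    have := (Nat.prime_dvd_prime_iff_eq (hDp p hp).1 hq).mp hdvd
    have := (hDp p hp).2
    omega
  have h5 : ∏ p ∈ D, (1 / (p : ℝ)) = 1 / ((∏ p ∈ D, p : ℕ) : ℝ) := by
    push_cast
    rw [prod_div_distrib, prod_const_one]
  rw [h3, h4, h5]
  ring

/-- Mertens -/
theorem mert (Cm : ℝ) (hCm : ∀ x : ℝ, 2 ≤ x →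
      |∑ p ∈ PS 0 x, (1 : ℝ) / p - Real.log (Real.log x)| ≤ Cm) (z0 z : ℕ) (hz : 2 ≤ z) :
    ∏ p ∈ Pz2 z0 z, (1 - 1 / (p : ℝ)) ≤ Real.exp (Cm + z0) / Real.log z := by
  have hlz : 0 < Real.log z := Real.log_pos (by exact_mod_cast (by omega : 1 < z))
  have h1 : ∏ p ∈ Pz2 z0 z, (1 - 1 / (p : ℝ)) ≤ Real.exp (-∑ p ∈ Pz2 z0 z, 1 / (p : ℝ)) := by
    rw [← sum_neg_distrib, Real.exp_sum]
    refine prod_le_prod (fun p hp => ?_) fun p hp => ?_
    · have h2 : p.Prime := (mem_filter.mp hp).2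
      have h3 : (1 : ℝ) ≤ p := by exact_mod_cast h2.one_le
      rw [sub_nonneg, div_le_one (by linarith)]
      exact h3
    · have := Real.add_one_le_exp (-(1 / (p : ℝ)))
      linarith
  have h2 : ∑ p ∈ PS 0 z, 1 / (p : ℝ) ≤ z0 + ∑ p ∈ Pz2 z0 z, 1 / (p : ℝ) := by
    have hsub : PS 0 z ⊆ (Icc 1 z0) ∪ Pz2 z0 z := by
      intro p hp
      unfold PS at hp
      rw [mem_filter, mem_Ioc, Nat.floor_zero, Nat.floor_natCast] at hp
      rw [mem_union, mem_Icc]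
      rcases le_or_gt p z0 with h | h
      · exact Or.inl ⟨hp.1.1, h⟩
      · right
        unfold Pz2
        rw [mem_filter, mem_Ioc]
        exact ⟨⟨h, hp.1.2⟩, hp.2⟩
    calc ∑ p ∈ PS 0 z, 1 / (p : ℝ) ≤ ∑ p ∈ (Icc 1 z0) ∪ Pz2 z0 z, 1 / (p : ℝ) :=
          sum_le_sum_of_subset_of_nonneg hsub fun p _ _ => by positivity
      _ ≤ ∑ p ∈ Icc 1 z0, 1 / (p : ℝ) + ∑ p ∈ Pz2 z0 z, 1 / (p : ℝ) := by
          rw [← sum_union_inter]
          exact le_add_of_nonneg_right (sum_nonneg fun p _ => by positivity)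
      _ ≤ ∑ p ∈ Icc 1 z0, (1 : ℝ) + ∑ p ∈ Pz2 z0 z, 1 / (p : ℝ) := by
          gcongr with p hp
          rw [mem_Icc] at hp
          rw [div_le_one (by exact_mod_cast (by omega : 0 < p))]
          exact_mod_cast hp.1
      _ = _ := by
          rw [sum_const, Nat.card_Icc, nsmul_eq_mul]
          simp
  have h3 := (abs_le.mp (hCm z (by exact_mod_cast hz))).1
  refine h1.trans ?_
  calc Real.exp (-∑ p ∈ Pz2 z0 z, 1 / (p : ℝ)) ≤ Real.exp ((Cm + z0) - Real.log (Real.log z)) :=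
        Real.exp_le_exp.mpr (by linarith)
    _ = _ := by rw [Real.exp_sub, Real.exp_log hlz]

/-- one block -/
theorem block84 (C : ℝ) (b : Bool) (K x z0 z R : ℕ) (U : Finset ℕ → ℝ) (V : ℝ) (hK : 1 ≤ K)
    (hVar : ∑ n ∈ Icc 1 x, (∑ D ∈ (Pz2 z0 z).powerset, U D * rho b K D n) ^ 2 ≤
      C * K * x * Real.log z ^ 5 + 4 * (K : ℝ) ^ 2 * (R : ℝ) ^ 3)
    (hL : 0 < Real.log x) (hC : 0 ≤ C) (hzL : Real.log z ≤ Real.log x) (hzx : z ^ 2 ≤ x)
    (hU : ∀ h : ℕ → ℝ, (∀ p, 0 ≤ h p ∧ h p ≤ 1) →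
      ∏ p ∈ Pz2 z0 z, (1 - h p) ≤ ∑ D ∈ (Pz2 z0 z).powerset, U D * ∏ p ∈ D, h p)
    (hV : ∑ D ∈ (Pz2 z0 z).powerset, U D * ∏ p ∈ D, (1 / (p : ℝ)) ≤ V) :
    (((Pr x).filter (fun q => K * (V + 1 / Real.log x) < NK b K q)).card : ℝ) ≤
      C * x * Real.log x ^ 7 / K + 4 * Real.log x ^ 2 * (R : ℝ) ^ 3 := by
  set L := Real.log x with hLd
  set Bd := (Pr x).filter (fun q => K * (V + 1 / L) < NK b K q) with hBd
  have hK0 : (0 : ℝ) < K := by exact_mod_cast hK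
  have h1 : ∀ q ∈ Bd, (K / L) ^ 2 ≤ (∑ D ∈ (Pz2 z0 z).powerset, U D * rho b K D q) ^ 2 := by
    intro q hq
    rw [hBd, mem_filter] at hq
    obtain ⟨hqP, hqN⟩ := hq
    unfold Pr at hqP
    rw [mem_filter, mem_Icc] at hqP
    obtain ⟨⟨hq1, hqx⟩, hqp, hxq⟩ := hqP
    have hzq : z < q := by
      have h2 : z ^ 2 < q ^ 2 := by omega
      exact lt_of_pow_lt_pow_left₀ 2 (Nat.zero_le _) h2
    have h2 := NK_le b K z0 z q U hK hqp hzq hU
    have h3 : K * ∑ D ∈ (Pz2 z0 z).powerset, U D * ∏ p ∈ D, (1 / (p : ℝ)) ≤ K * V :=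
      mul_le_mul_of_nonneg_left hV hK0.le
    have h4 : K / L ≤ ∑ D ∈ (Pz2 z0 z).powerset, U D * rho b K D q := by
      have e : (K : ℝ) * (V + 1 / L) = K * V + K / L := by ring
      rw [e] at hqN
      linarith
    exact pow_le_pow_left₀ (by positivity) h4 2
  have h2 : (Bd.card : ℝ) * (K / L) ^ 2 ≤
      C * K * x * Real.log z ^ 5 + 4 * (K : ℝ) ^ 2 * (R : ℝ) ^ 3 := by
    refine le_trans ?_ hVar
    rw [← nsmul_eq_mul, ← sum_const]
    refine (sum_le_sum h1).trans ?_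
    refine sum_le_sum_of_subset_of_nonneg (fun q hq => ?_) fun q _ _ => sq_nonneg _
    rw [hBd, mem_filter] at hq
    have := hq.1
    unfold Pr at this
    exact (mem_filter.mp this).1
  have h3 : (Bd.card : ℝ) ≤
      (C * K * x * Real.log z ^ 5 + 4 * (K : ℝ) ^ 2 * (R : ℝ) ^ 3) / (K / L) ^ 2 := by
    rw [le_div_iff₀ (by positivity)]
    exact h2
  have hlz : 0 ≤ Real.log z := Real.log_natCast_nonneg _
  calc (Bd.card : ℝ) ≤ _ := h3
    _ ≤ (C * K * x * L ^ 5 + 4 * (K : ℝ) ^ 2 * (R : ℝ) ^ 3) / (K / L) ^ 2 := by gcongr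
    _ = _ := by
        field_simp

theorem ZS_block (b : Bool) (q K : ℕ) (hK : 1 ≤ K) : ZS b q K (2 * K) ≤ NK b K q / K := by
  unfold ZS NK
  have hK0 : (0 : ℝ) < K := by exact_mod_cast hK
  calc ∑ k ∈ (Ioc K (2 * K)).filter (fun k => (pk b q k).Prime), 1 / (k : ℝ)
      ≤ ∑ k ∈ (Ioc K (2 * K)).filter (fun k => (pk b q k).Prime), 1 / (K : ℝ) := by
        refine sum_le_sum fun k hk => ?_
        rw [mem_filter, mem_Ioc] at hk
        apply one_div_le_one_div_of_le hK0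
        exact_mod_cast hk.1.1.le
    _ = _ := by
        rw [sum_const, nsmul_eq_mul]
        ring

theorem ZS_blocks (b : Bool) (q K₀ J : ℕ) :
    ZS b q K₀ (2 ^ J * K₀) = ∑ j ∈ range J, ZS b q (2 ^ j * K₀) (2 * (2 ^ j * K₀)) := by
  induction J with
  | zero =>
    rw [pow_zero, one_mul, range_zero, sum_empty]
    unfold ZS
    rw [Ioc_self, filter_empty, sum_empty]
  | succ J ih =>
    rw [sum_range_succ, ← ih, ZS_split b q K₀ (2 ^ J * K₀) (2 ^ (J + 1) * K₀)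
      (Nat.le_mul_of_pos_left _ (by positivity))
      (Nat.mul_le_mul_right _ (Nat.pow_le_pow_right (by norm_num) (by omega)))]
    congr 2
    ring

theorem ZS_mono (b : Bool) (q K₀ K₁ K₂ : ℕ) (h : K₁ ≤ K₂) : ZS b q K₀ K₁ ≤ ZS b q K₀ K₂ := by
  unfold ZS
  refine sum_le_sum_of_subset_of_nonneg (fun k hk => ?_) fun k _ _ => by positivity
  rw [mem_filter, mem_Ioc] at hk ⊢
  exact ⟨⟨hk.1.1, hk.1.2.trans h⟩, hk.2⟩

theorem Pz2_eq (z0 z : ℕ) : Pool.Agent.Lib.TwinAll.PP z0 z = Pz2 z0 z := by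
  unfold Pool.Agent.Lib.TwinAll.PP Pz2
  ext p
  simp only [mem_filter]

/-- the sizes of the parameters -/
theorem miduSize (C : ℝ) (hC : 0 < C) : ∀ᶠ x : ℕ in atTop, 2 ≤ Real.log x ∧
    2 * Real.log x * (C * x * Real.log x ^ 7 / Real.exp (Real.log x ^ (1 / 8 : ℝ)) +
      4 * Real.log x ^ 2 * Real.exp (3 / 20 * Real.log x)) ≤ TS x := by
  have hT1 : Tendsto (fun x : ℕ => Real.log x) atTop atTop :=
    Real.tendsto_log_atTop.comp tendsto_natCast_atTop_atTop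
  have hT8 : Tendsto (fun x : ℕ => Real.log x ^ (1 / 8 : ℝ)) atTop atTop :=
    (tendsto_rpow_atTop (by norm_num)).comp hT1
  have hK : (0 : ℝ) < 1 / (4 * C) := by positivity
  have h1 := (isLittleO_pow_exp_pos_mul_atTop (k := 64) (b := (1 / 2 : ℝ)) (by norm_num)).bound hK
  have h2 := (isLittleO_pow_exp_pos_mul_atTop (k := 3) (b := (7 / 20 : ℝ)) (by norm_num)).bound
    (by norm_num : (0 : ℝ) < 1 / 16)
  filter_upwards [hT8.eventually h1, hT1.eventually h2, hT1.eventually (eventually_ge_atTop 2),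
    eventually_ge_atTop 1] with x e1 e2 e3 e4
  refine ⟨e3, ?_⟩
  set L := Real.log x with hL
  set u := L ^ (1 / 8 : ℝ) with hu
  have hL0 : 0 < L := by linarith
  have hx0 : (0 : ℝ) < x := by exact_mod_cast (by omega : 0 < x)
  have hxL : (x : ℝ) = Real.exp L := (Real.exp_log hx0).symm
  have hu0 : 0 ≤ u := by positivity
  have hu8 : u ^ 8 = L := by
    rw [hu, ← Real.rpow_natCast, ← Real.rpow_mul hL0.le]
    norm_num
  have huL : u ≤ L := by
    calc u ≤ L ^ (1 : ℝ) := Real.rpow_le_rpow_of_exponent_le (by linarith) (by norm_num)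
      _ = L := Real.rpow_one L
  rw [Real.norm_eq_abs, Real.norm_eq_abs, abs_of_pos (Real.exp_pos _),
    abs_of_nonneg (by positivity)] at e1 e2
  have a1 : L ^ 8 = u ^ 64 := by
    rw [← hu8, ← pow_mul]
  have a2 : 2 * C * L ^ 8 * Real.exp (-u) ≤ 1 / 2 * Real.exp (-(u / 2)) := by
    have e5 : Real.exp (1 / 2 * u) * Real.exp (-u) = Real.exp (-(u / 2)) := by
      rw [← Real.exp_add]
      congr 1
      ring
    calc 2 * C * L ^ 8 * Real.exp (-u) = 2 * C * u ^ 64 * Real.exp (-u) := by rw [a1]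
      _ ≤ 2 * C * (1 / (4 * C) * Real.exp (1 / 2 * u)) * Real.exp (-u) := by gcongr
      _ = 1 / 2 * (Real.exp (1 / 2 * u) * Real.exp (-u)) := by
          field_simp
          ring
      _ = _ := by rw [e5]
  have a3 : 8 * L ^ 3 * Real.exp (3 / 20 * L) ≤ 1 / 2 * (x * Real.exp (-(u / 2))) := by
    calc 8 * L ^ 3 * Real.exp (3 / 20 * L)
        ≤ 8 * (1 / 16 * Real.exp (7 / 20 * L)) * Real.exp (3 / 20 * L) := by gcongr
      _ = 1 / 2 * Real.exp (7 / 20 * L + 3 / 20 * L) := by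
          rw [Real.exp_add]
          ring
      _ ≤ 1 / 2 * Real.exp (L + -(u / 2)) := by
          apply mul_le_mul_of_nonneg_left _ (by norm_num)
          apply Real.exp_le_exp.mpr
          linarith
      _ = _ := by
          rw [Real.exp_add]
          conv_rhs => rw [hxL]
  have a4 : 2 * L * (C * x * L ^ 7 / Real.exp u + 4 * L ^ 2 * Real.exp (3 / 20 * L)) =
      x * (2 * C * L ^ 8 * Real.exp (-u)) + 8 * L ^ 3 * Real.exp (3 / 20 * L) := by
    rw [Real.exp_neg]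
    field_simp
    ring
  rw [a4]
  unfold TS
  rw [← hL, ← hu]
  have a5 := mul_le_mul_of_nonneg_left a2 hx0.le
  linarith

theorem stMidu_84 (hVar : StVar) : StMidu := by
  obtain ⟨C, hC, hV⟩ := hVar
  obtain ⟨s0, zs, hS⟩ := Pool.Agent.Lib.MT2.R82.s1r_82 1
  obtain ⟨Cm, hCm0, hCm⟩ := Pool.Agent.Lib.MP_973905_nt.sum_inv
  obtain ⟨c, hc⟩ : ∃ c : ℕ, c = 20 * (s0 + 1) := ⟨_, rfl⟩
  have hc1 : 1 ≤ c := by omega
  have hc0 : (0 : ℝ) < c := by exact_mod_cast hc1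
  set C2 := Real.exp (Cm + zs) with hC2
  have hC20 : 0 < C2 := Real.exp_pos _
  have hKT : Tendsto (fun x : ℕ => KE c x) atTop atTop := by
    unfold KE
    refine tendsto_nat_floor_atTop.comp (Real.tendsto_exp_atTop.comp ?_)
    exact (Real.tendsto_log_atTop.comp tendsto_natCast_atTop_atTop).atTop_div_const hc0
  obtain ⟨x₀, hx₀⟩ := eventually_atTop.mp ((miduSize C hC).and ((KE_prop c hc1).and
    ((hKT.eventually (eventually_ge_atTop (zs + 2))).and (eventually_ge_atTop 9))))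
  refine ⟨c, hc1, 8 * c * C2 + 2, x₀, fun x hx b => ?_⟩
  obtain ⟨⟨hL2, hsz⟩, ⟨k3, k8, kx, klog⟩, kz, hx9⟩ := hx₀ x hx
  set L := Real.log x with hL
  have hL0 : 0 < L := by linarith
  have hx0 : (0 : ℝ) < x := by exact_mod_cast (by omega : 0 < x)
  have hxL : (x : ℝ) = Real.exp L := (Real.exp_log hx0).symm
  set z := KE c x with hz
  have hz2 : 2 ≤ z := by omega
  have hz0 : (0 : ℝ) < z := by exact_mod_cast (by omega : 0 < z)
  have hlz : 0 < Real.log z := Real.log_pos (by exact_mod_cast (by omega : 1 < z))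
  have hlzL : Real.log z ≤ L := Real.log_le_log hz0 (by exact_mod_cast kx)
  have hze : (z : ℝ) ≤ Real.exp (L / c) := by
    rw [hz]
    unfold KE
    exact Nat.floor_le (Real.exp_pos _).le
  have hzpow : ∀ m : ℕ, (z : ℝ) ^ m ≤ Real.exp (m * (L / c)) := by
    intro m
    rw [Real.exp_nat_mul]
    exact pow_le_pow_left₀ hz0.le hze m
  have hzx : z ^ 2 ≤ x := by
    have h1 : (z : ℝ) ^ 2 ≤ x := by
      refine (hzpow 2).trans ?_
      rw [hxL]
      apply Real.exp_le_exp.mpr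
      have : L / c ≤ L / 2 := by
        apply div_le_div_of_nonneg_left hL0.le (by norm_num)
        exact_mod_cast (by omega : 2 ≤ c)
      push_cast
      linarith
    exact_mod_cast h1
  obtain ⟨U, Lo, hUL, hsupp, hind, hdens⟩ := hS 0 zs le_rfl z (by omega)
  rw [Pz2_eq] at *
  set R := z ^ (s0 * (0 + 1)) with hR
  have hR3 : (R : ℝ) ^ 3 ≤ Real.exp (3 / 20 * L) := by
    rw [hR]
    push_cast
    rw [← pow_mul]
    refine (hzpow _).trans (Real.exp_le_exp.mpr ?_)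
    rw [← mul_div_assoc, div_le_iff₀ hc0, hc]
    push_cast
    nlinarith
  have hU1 : ∀ h : ℕ → ℝ, (∀ p, 0 ≤ h p ∧ h p ≤ 1) →
      ∏ p ∈ Pz2 zs z, (1 - h p) ≤ ∑ D ∈ (Pz2 zs z).powerset, U D * ∏ p ∈ D, h p :=
    fun h hh => (hind h hh).2
  have hV2 : ∑ D ∈ (Pz2 zs z).powerset, U D * ∏ p ∈ D, (1 / (p : ℝ)) ≤ 2 * C2 / Real.log z := by
    have h1 := (hdens (fun p => 1 / (p : ℝ)) (fun p hp => ⟨by positivity, by norm_num⟩)).1
    refine h1.trans ?_
    have h2 := mert Cm hCm zs z hz2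
    calc (1 + (1 / 2 : ℝ) ^ 0) * ∏ p ∈ Pz2 zs z, (1 - 1 / (p : ℝ))
        = 2 * ∏ p ∈ Pz2 zs z, (1 - 1 / (p : ℝ)) := by norm_num
      _ ≤ 2 * (C2 / Real.log z) := by linarith
      _ = _ := by ring
  set V := 2 * C2 / Real.log z with hVdef
  have hVL : V ≤ 4 * c * C2 / L := by
    rw [hVdef, div_le_div_iff₀ hlz hL0]
    have h1 : L ≤ 2 * c * Real.log z := by
      rw [div_le_iff₀ (by positivity)] at klog
      linarith
    have h2 := mul_le_mul_of_nonneg_left h1 (by positivity : (0 : ℝ) ≤ 2 * C2)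
    linarith
  have hV0 : 0 ≤ V := by positivity
  -- the number of blocks
  have hexJ : ∃ J : ℕ, z ≤ 2 ^ J * K8 x := by
    refine ⟨z, ?_⟩
    have h1 : z < 2 ^ z := Nat.lt_two_pow_self
    have h2 : 1 ≤ K8 x := by
      unfold K8
      exact Nat.one_le_iff_ne_zero.mpr (Nat.ceil_pos.mpr (Real.exp_pos _)).ne'
    nlinarith
  obtain ⟨J, hJ1, hJ2⟩ : ∃ J : ℕ, z ≤ 2 ^ J * K8 x ∧ ∀ j < J, 2 ^ j * K8 x < z :=
    ⟨Nat.find hexJ, Nat.find_spec hexJ, fun j hj => not_le.mp (Nat.find_min hexJ hj)⟩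
  have hK8 : 1 ≤ K8 x := by
    unfold K8
    exact Nat.one_le_iff_ne_zero.mpr (Nat.ceil_pos.mpr (Real.exp_pos _)).ne'
  have hJL : (J : ℝ) ≤ 2 * L := by
    rcases Nat.eq_zero_or_pos J with h | h
    · rw [h, Nat.cast_zero]
      linarith
    · have h1 := hJ2 (J - 1) (by omega)
      have h2 : 2 ^ (J - 1) ≤ x := by
        have : 2 ^ (J - 1) * 1 ≤ 2 ^ (J - 1) * K8 x := Nat.mul_le_mul_left _ hK8
        omega
      have h3 : ((2 : ℝ) ^ (J - 1)) ≤ x := by exact_mod_cast h2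
      have h4 := Real.log_le_log (by positivity) h3
      rw [Real.log_pow, ← hL, Nat.cast_sub (by omega), Nat.cast_one] at h4
      have h5 := Real.log_two_gt_d9
      have h6 : (1 : ℝ) ≤ J := by exact_mod_cast h
      nlinarith
  have hK8e : Real.exp (L ^ (1 / 8 : ℝ)) ≤ K8 x := by
    unfold K8
    exact Nat.le_ceil _
  -- the covering
  have hcov : (Pr x).filter (fun q => 8 * c * C2 + 2 < ZS b q (K8 x) z) ⊆
      (range J).biUnion (fun j => (Pr x).filter (fun q =>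
        ((2 ^ j * K8 x : ℕ) : ℝ) * (V + 1 / L) < NK b (2 ^ j * K8 x) q)) := by
    intro q hq
    rw [mem_filter] at hq
    rw [mem_biUnion]
    by_contra hcon
    push Not at hcon
    have h1 : ∀ j ∈ range J, ZS b q (2 ^ j * K8 x) (2 * (2 ^ j * K8 x)) ≤ V + 1 / L := by
      intro j hj
      have h2 := hcon j hj
      rw [mem_filter, not_and, not_lt] at h2
      have h3 := h2 hq.1
      have hpos : 1 ≤ 2 ^ j * K8 x := Nat.mul_pos (by positivity) hK8
      have hpos' : (0 : ℝ) < ((2 ^ j * K8 x : ℕ) : ℝ) := by exact_mod_cast hpos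
      refine (ZS_block b q _ hpos).trans ?_
      rw [div_le_iff₀ hpos']
      linarith
    have h2 : ZS b q (K8 x) z ≤ J * (V + 1 / L) := by
      refine (ZS_mono b q _ _ _ hJ1).trans ?_
      rw [ZS_blocks]
      refine (sum_le_sum h1).trans (le_of_eq ?_)
      rw [sum_const, card_range, nsmul_eq_mul]
    have h3 : (J : ℝ) * (V + 1 / L) ≤ 2 * L * (4 * c * C2 / L + 1 / L) := by
      have : V + 1 / L ≤ 4 * c * C2 / L + 1 / L := by linarith
      exact mul_le_mul hJL this (by positivity) (by positivity)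
    have h4 : 2 * L * (4 * c * C2 / L + 1 / L) = 8 * c * C2 + 2 := by
      field_simp
      ring
    linarith [hq.2]
  have hblk : ∀ j ∈ range J, (((Pr x).filter (fun q =>
      ((2 ^ j * K8 x : ℕ) : ℝ) * (V + 1 / L) < NK b (2 ^ j * K8 x) q)).card : ℝ) ≤
      C * x * L ^ 7 / Real.exp (L ^ (1 / 8 : ℝ)) + 4 * L ^ 2 * Real.exp (3 / 20 * L) := by
    intro j _
    have hpos : 1 ≤ 2 ^ j * K8 x := Nat.mul_pos (by positivity) hK8
    have h1 := block84 C b (2 ^ j * K8 x) x zs z R U V hpos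
      (hV b (2 ^ j * K8 x) x zs z R U hpos hz2 (fun D => (hUL D).1)
        (fun D hD hD0 => hsupp D hD (Or.inl hD0))) hL0 hC.le hlzL hzx hU1 hV2
    refine h1.trans ?_
    have h2 : Real.exp (L ^ (1 / 8 : ℝ)) ≤ ((2 ^ j * K8 x : ℕ) : ℝ) := by
      refine hK8e.trans ?_
      exact_mod_cast Nat.le_mul_of_pos_left _ (by positivity)
    rw [← hL]
    gcongr
  calc (((Pr x).filter (fun q => 8 * c * C2 + 2 < ZS b q (K8 x) z)).card : ℝ)
      ≤ ∑ j ∈ range J, (((Pr x).filter (fun q =>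
        ((2 ^ j * K8 x : ℕ) : ℝ) * (V + 1 / L) < NK b (2 ^ j * K8 x) q)).card : ℝ) := by
        exact_mod_cast (card_le_card hcov).trans card_biUnion_le
    _ ≤ ∑ j ∈ range J, (C * x * L ^ 7 / Real.exp (L ^ (1 / 8 : ℝ)) +
        4 * L ^ 2 * Real.exp (3 / 20 * L)) := sum_le_sum hblk
    _ = J * (C * x * L ^ 7 / Real.exp (L ^ (1 / 8 : ℝ)) +
        4 * L ^ 2 * Real.exp (3 / 20 * L)) := by
        rw [sum_const, card_range, nsmul_eq_mul]
    _ ≤ 2 * L * (C * x * L ^ 7 / Real.exp (L ^ (1 / 8 : ℝ)) +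
        4 * L ^ 2 * Real.exp (3 / 20 * L)) := by
        apply mul_le_mul_of_nonneg_right hJL
        positivity
    _ ≤ TS x := hsz

end Pool.Agent.Lib.MP_0f858a_nt.KR
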