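import Pool.Agent.Lib.MP_0f858a_nt.KR.Stmts84

/-!
KR, module RAM: the identity of Ramare.
-/

set_option autoImplicit false

namespace Pool.Agent.Lib.MP_0f858a_nt.KR

open Finset Filter
open scoped Classical

theorem os_div38 {W y n p : ℕ} (hn : 1 ≤ n) (hp : p ∈ n.primeFactors) (h1 : W < p) (h2 : p ≤ y) :
    (p ^ 2 ∣ n → os W y (n / p) = os W y n) ∧ (¬ p ^ 2 ∣ n → os W y (n / p) + 1 = os W y n) := by
  obtain ⟨hpp, hpn, hn0⟩ := Nat.mem_primeFactors.1 hp
  obtain ⟨m, rfl⟩ := hpn
  have hm0 : m ≠ 0 := by
    rintro rfl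
    simp at hn0
  rw [Nat.mul_div_cancel_left m hpp.pos]
  have hPF : (p * m).primeFactors = insert p m.primeFactors := by
    rw [Nat.primeFactors_mul hpp.ne_zero hm0, hpp.primeFactors]
    rfl
  constructor
  · intro h
    have hpm : p ∣ m := by
      rw [pow_two] at h
      exact Nat.dvd_of_mul_dvd_mul_left hpp.pos h
    unfold os
    rw [hPF, insert_eq_of_mem (Nat.mem_primeFactors.2 ⟨hpp, hpm, hm0⟩)]
  · intro h
    have hpm : ¬ p ∣ m := fun h' => h (by rw [pow_two]; exact Nat.mul_dvd_mul_left p h')
    have hnot : p ∉ m.primeFactors := fun h' => hpm (Nat.dvd_of_mem_primeFactors h')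
    unfold os
    rw [hPF, filter_insert, if_pos ⟨h1, h2⟩, card_insert_of_notMem]
    exact fun h' => hnot (mem_filter.1 h').1

/-- (RAM) the identity of Ramare -/
theorem stRam_38 : StRam := by
  intro W y n hW hWy hn
  by_cases hR : Ro W n
  · rw [if_pos hR]
    set F := n.primeFactors.filter (fun p => W < p ∧ p ≤ y) with hF
    have hk : os W y n = F.card := rfl
    have hbs : bs W y n = ∑ p ∈ F, if p ^ 2 ∣ n then 1 / (1 + (F.card : ℝ)) else
        1 / (F.card : ℝ) := by
      unfold bs
      refine sum_congr rfl fun p hp => ?_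
      obtain ⟨hp1, hp2, hp3⟩ := mem_filter.1 hp
      have hd := os_div38 hn hp1 hp2 hp3
      have hRo : Ro W (n / p) := fun r hr hrW hrn =>
        hR r hr hrW (hrn.trans (Nat.div_dvd_of_dvd (Nat.dvd_of_mem_primeFactors hp1)))
      unfold be
      rw [if_pos hRo]
      split_ifs with h2
      · rw [hd.1 h2, hk]
      · have h3 := hd.2 h2
        rw [hk] at h3
        rw [← h3]
        push_cast
        rw [add_comm]
    by_cases hE : F = ∅
    · have hRy : Ro y n := by
        intro p hp hpy hpn
        have hpW : W < p := by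
          by_contra hlt
          exact hR p hp (by omega) hpn
        have : p ∈ F := mem_filter.2 ⟨Nat.mem_primeFactors.2 ⟨hp, hpn, by omega⟩, hpW, hpy⟩
        rw [hE] at this
        exact absurd this (notMem_empty p)
      rw [if_pos hRy, hbs, hE]
      simp
    · obtain ⟨p, hp⟩ := Finset.nonempty_iff_ne_empty.2 hE
      have hRy : ¬ Ro y n := by
        intro h
        obtain ⟨hp1, hp2, hp3⟩ := mem_filter.1 hp
        exact h p (Nat.prime_of_mem_primeFactors hp1) hp3 (Nat.dvd_of_mem_primeFactors hp1)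
      rw [if_neg hRy, hbs, sum_ite, sum_const, sum_const, nsmul_eq_mul, nsmul_eq_mul]
      have hcard : ((F.filter (fun p => p ^ 2 ∣ n)).card : ℝ) +
          ((F.filter (fun p => ¬ p ^ 2 ∣ n)).card : ℝ) = F.card := by
        rw [← Nat.cast_add, card_filter_add_card_filter_not]
      have hFpos : (1 : ℝ) ≤ F.card := by
        have : 0 < F.card := card_pos.2 ⟨p, hp⟩
        exact_mod_cast this
      have hs2 : ((F.filter (fun p => p ^ 2 ∣ n)).card : ℝ) ≤ s2 W n := by
        have : (F.filter (fun p => p ^ 2 ∣ n)).card ≤ s2 W n := by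
          refine card_le_card fun r hr => ?_
          obtain ⟨hr1, hr2⟩ := mem_filter.1 hr
          obtain ⟨hr3, hr4, hr5⟩ := mem_filter.1 hr1
          exact mem_filter.2 ⟨hr3, hr4, hr2⟩
        exact_mod_cast this
      set a : ℝ := ((F.filter (fun p => p ^ 2 ∣ n)).card : ℝ)
      set b : ℝ := ((F.filter (fun p => ¬ p ^ 2 ∣ n)).card : ℝ)
      set k : ℝ := (F.card : ℝ)
      have ha : 0 ≤ a := Nat.cast_nonneg _
      have hb : b = k - a := by linarith
      have hk0 : (0 : ℝ) < k := by linarith
      have e : (0 : ℝ) - 1 + (a * (1 / (1 + k)) + b * (1 / k)) = -(a / (k * (1 + k))) := by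
        rw [hb]
        field_simp
        ring
      rw [e, abs_neg, abs_of_nonneg (by positivity)]
      refine le_trans ?_ hs2
      rw [div_le_iff₀ (by positivity)]
      have h1 : 0 ≤ k * (1 + k) - 1 := by nlinarith
      nlinarith [mul_nonneg ha h1]
  · have hRy : ¬ Ro y n := by
      intro h
      exact hR fun p hp hpW => h p hp (hpW.trans hWy)
    rw [if_neg hR, if_neg hRy]
    have hbs : bs W y n = 0 := by
      unfold bs
      refine sum_eq_zero fun p hp => ?_
      obtain ⟨hp1, hp2, hp3⟩ := mem_filter.1 hp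
      unfold be
      rw [if_neg]
      intro h
      refine hR fun r hr hrW hrn => ?_
      refine h r hr hrW ?_
      have hpp := Nat.prime_of_mem_primeFactors hp1
      obtain ⟨m, rfl⟩ := Nat.dvd_of_mem_primeFactors hp1
      rw [Nat.mul_div_cancel_left m hpp.pos]
      rcases (hr.dvd_mul).1 hrn with h' | h'
      · have := (Nat.prime_dvd_prime_iff_eq hr hpp).1 h'
        omega
      · exact h'
    rw [hbs]
    simp

end Pool.Agent.Lib.MP_0f858a_nt.KR
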