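import Pool.Agent.Lib.MP_0f858a_nt.KR.StmtsB84

/-!
MP_0f858a_nt, second part, module B3 SDD: the correlation of two conditions.
-/

set_option autoImplicit false

namespace Pool.Agent.Lib.MP_0f858a_nt.KR

open Finset Filter
open scoped Classical

namespace Sdd96

/-- the sign -/
def sn (b : Bool) : ℤ := if b then 1 else -1

theorem sn_sq (b : Bool) : sn b * sn b = 1 := by
  cases b <;> simp [sn]

theorem pk_cast (b : Bool) (n k : ℕ) (hn : 1 ≤ n) (hk : 1 ≤ k) :
    ((pk b n k : ℕ) : ℤ) = (k : ℤ) * n + sn b := by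
  have h1 : 1 ≤ k * n := Nat.mul_pos hk hn
  cases b
  · simp only [pk, sn, Bool.false_eq_true, if_false]
    rw [Nat.cast_sub h1]
    push_cast
    ring
  · simp only [pk, sn, if_true]
    push_cast
    ring

theorem dvd_iff (D : Finset ℕ) (hD : ∀ p ∈ D, p.Prime) (m : ℕ) :
    (∀ p ∈ D, p ∣ m) ↔ (∏ p ∈ D, p) ∣ m :=
  ⟨fun h => Finset.prod_primes_dvd m (fun p hp => (hD p hp).prime) h,
    fun h p hp => (Finset.dvd_prod_of_mem _ hp).trans h⟩

theorem not_dvd_one (p : ℕ) (hp : p.Prime) (b : Bool) : ¬ (p : ℤ) ∣ sn b := by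
  intro h
  have h1 : (p : ℤ) ∣ sn b * sn b := h.mul_right _
  rw [sn_sq] at h1
  have h2 : p ∣ 1 := by exact_mod_cast h1
  exact hp.one_lt.ne' (Nat.dvd_one.1 h2)

theorem not_pk (b : Bool) (n k p : ℕ) (hn : 1 ≤ n) (hk : 1 ≤ k) (hp : p.Prime)
    (h : p ∣ k * n) : ¬ p ∣ pk b n k := by
  intro h1
  have h2 : (p : ℤ) ∣ ((pk b n k : ℕ) : ℤ) := Int.natCast_dvd_natCast.2 h1
  rw [pk_cast b n k hn hk] at h2
  have h3 : (p : ℤ) ∣ (k : ℤ) * n := by exact_mod_cast h
  exact not_dvd_one p hp b ((Int.dvd_add_right h3).1 h2)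

theorem ex_class (b : Bool) (k : ℕ) (hk : 1 ≤ k) (D : Finset ℕ) (hD : ∀ p ∈ D, p.Prime)
    (hkD : ∀ p ∈ D, ¬ p ∣ k) :
    ∃ r : ℕ, (∀ p ∈ D, ¬ p ∣ r) ∧
      ∀ n, 1 ≤ n → ((∀ p ∈ D, p ∣ pk b n k) ↔ n ≡ r [MOD ∏ p ∈ D, p]) := by
  set d := ∏ p ∈ D, p with hd
  have hd0 : 0 < d := Finset.prod_pos fun p hp => (hD p hp).pos
  have hcop : Nat.Coprime k d :=
    Nat.Coprime.prod_right fun p hp => ((hD p hp).coprime_iff_not_dvd.2 (hkD p hp)).symm
  have hic : IsCoprime (k : ℤ) (d : ℤ) := Nat.isCoprime_iff_coprime.2 hcop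
  obtain ⟨u, v, huv⟩ := hic
  set r0 : ℤ := (-(sn b) * u) % d with hr0
  have hr0n : 0 ≤ r0 := Int.emod_nonneg _ (by exact_mod_cast hd0.ne')
  set r : ℕ := r0.toNat with hr
  have hrr : (r : ℤ) = r0 := Int.toNat_of_nonneg hr0n
  have hkr : (d : ℤ) ∣ (k : ℤ) * r + sn b := by
    have h1 : (d : ℤ) ∣ (-(sn b) * u) - r0 := Int.dvd_self_sub_emod
    rw [hrr]
    have h2 : (k : ℤ) * r0 + sn b = -((k : ℤ) * ((-(sn b) * u) - r0)) + (d : ℤ) * (sn b * v) := by
      have : (1 : ℤ) = u * k + v * d := huv.symm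
      calc (k : ℤ) * r0 + sn b = (k : ℤ) * r0 + sn b * 1 := by ring
        _ = (k : ℤ) * r0 + sn b * (u * k + v * d) := by rw [← this]
        _ = _ := by ring
    rw [h2]
    exact dvd_add (h1.mul_left _).neg_right (Dvd.intro _ rfl)
  refine ⟨r, ?_, ?_⟩
  · intro p hp hpr
    have h1 : (p : ℤ) ∣ (d : ℤ) := Int.natCast_dvd_natCast.2 (Finset.dvd_prod_of_mem _ hp)
    have h2 := h1.trans hkr
    have h3 : (p : ℤ) ∣ (k : ℤ) * r := (Int.natCast_dvd_natCast.2 hpr).mul_left _
    exact not_dvd_one p (hD p hp) b ((Int.dvd_add_right h3).1 h2)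
  · intro n hn
    rw [dvd_iff D hD, ← Int.natCast_dvd_natCast, pk_cast b n k hn hk]
    have hm : n ≡ r [MOD d] ↔ (d : ℤ) ∣ (n : ℤ) - r := by
      rw [Nat.ModEq.comm, Nat.modEq_iff_dvd]
    rw [hm]
    have e : (k : ℤ) * n + sn b = (k : ℤ) * (n - r) + ((k : ℤ) * r + sn b) := by ring
    rw [e, Int.dvd_add_left hkr]
    constructor
    · intro h
      exact (Nat.isCoprime_iff_coprime.2 hcop).symm.dvd_of_dvd_mul_left h
    · intro h
      exact h.mul_left _

/-- the bound -/
noncomputable def bd (K x : ℕ) (D D' : Finset ℕ) : ℝ :=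
  2 ^ D'.card * ((x : ℝ) / ((∏ p ∈ D ∪ D', p : ℕ) : ℝ) + 2 * K)

end Sdd96

open Sdd96

theorem stSdd_96 (hLa : StLa) : StSdd := by
  intro b K x D D' hK hD hD'
  set d := ∏ p ∈ D, p with hd
  have hd0 : 0 < d := Finset.prod_pos fun p hp => (hD p hp).pos
  have hd' : (0 : ℝ) < d := by exact_mod_cast hd0
  have hB0 : 0 ≤ bd K x D D' := by
    unfold bd
    positivity
  have hcls : ∀ r : ℕ, (∀ p ∈ D, ¬ p ∣ r) →
      |∑ n ∈ (Icc 1 x).filter (fun n => n ≡ r [MOD d]), rho b K D' n| ≤ bd K x D D' :=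
    fun r hr => hLa b K x r D D' hK hD hD' hr
  -- `rho` without the condition on the first term
  have hrho : ∀ n ∈ Icc 1 x, rho b K D n * rho b K D' n =
      (cD b K D n : ℝ) * rho b K D' n -
        (K : ℝ) / d * (if ∀ p ∈ D, ¬ p ∣ n then rho b K D' n else 0) := by
    intro n hn
    rw [Finset.mem_Icc] at hn
    by_cases h : ∀ p ∈ D, ¬ p ∣ n
    · have e : rho b K D n = (cD b K D n : ℝ) - K / (d : ℝ) := by
        unfold rho
        rw [if_pos h]
      rw [e, if_pos h]
      ring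
    · have e : rho b K D n = 0 := by
        unfold rho
        rw [if_neg h]
      rw [e, if_neg h]
      push Not at h
      obtain ⟨p, hp, hpn⟩ := h
      have hc : cD b K D n = 0 := by
        unfold cD
        rw [Finset.card_eq_zero, Finset.filter_eq_empty_iff]
        intro k hk hall
        rw [Finset.mem_Ioc] at hk
        exact not_pk b n k p hn.1 (by omega) (hD p hp) (hpn.mul_left k) (hall p hp)
      rw [hc]
      simp
  rw [Finset.sum_congr rfl hrho, Finset.sum_sub_distrib]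
  -- the first sum
  have h1 : |∑ n ∈ Icc 1 x, (cD b K D n : ℝ) * rho b K D' n| ≤ K * bd K x D D' := by
    have e1 : ∑ n ∈ Icc 1 x, (cD b K D n : ℝ) * rho b K D' n =
        ∑ k ∈ Ioc K (2 * K), ∑ n ∈ (Icc 1 x).filter (fun n => ∀ p ∈ D, p ∣ pk b n k),
          rho b K D' n := by
      have e2 : ∀ n ∈ Icc 1 x, (cD b K D n : ℝ) * rho b K D' n =
          ∑ k ∈ Ioc K (2 * K), if (∀ p ∈ D, p ∣ pk b n k) then rho b K D' n else 0 := by
        intro n _
        unfold cD
        rw [Finset.card_filter]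
        push_cast
        rw [Finset.sum_mul]
        refine Finset.sum_congr rfl fun k _ => ?_
        split_ifs <;> simp
      rw [Finset.sum_congr rfl e2, Finset.sum_comm]
      refine Finset.sum_congr rfl fun k _ => ?_
      rw [Finset.sum_filter]
    rw [e1]
    refine (Finset.abs_sum_le_sum_abs _ _).trans ?_
    have h2 : ∀ k ∈ Ioc K (2 * K), |∑ n ∈ (Icc 1 x).filter (fun n => ∀ p ∈ D, p ∣ pk b n k),
        rho b K D' n| ≤ bd K x D D' := by
      intro k hk
      rw [Finset.mem_Ioc] at hk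
      by_cases hkD : ∀ p ∈ D, ¬ p ∣ k
      · obtain ⟨r, hr1, hr2⟩ := ex_class b k (by omega) D hD hkD
        have e3 : (Icc 1 x).filter (fun n => ∀ p ∈ D, p ∣ pk b n k) =
            (Icc 1 x).filter (fun n => n ≡ r [MOD d]) := by
          apply Finset.filter_congr
          intro n hn
          rw [Finset.mem_Icc] at hn
          exact hr2 n hn.1
        rw [e3]
        exact hcls r hr1
      · push Not at hkD
        obtain ⟨p, hp, hpk⟩ := hkD
        have e3 : (Icc 1 x).filter (fun n => ∀ p ∈ D, p ∣ pk b n k) = ∅ := by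
          rw [Finset.filter_eq_empty_iff]
          intro n hn hall
          rw [Finset.mem_Icc] at hn
          exact not_pk b n k p hn.1 (by omega) (hD p hp) (hpk.mul_right n) (hall p hp)
        rw [e3, Finset.sum_empty, abs_zero]
        exact hB0
    refine (Finset.sum_le_card_nsmul _ _ _ h2).trans (le_of_eq ?_)
    rw [Nat.card_Ioc, nsmul_eq_mul]
    congr 2
    omega
  -- the second sum
  have h3 : |∑ n ∈ Icc 1 x, (K : ℝ) / d * (if ∀ p ∈ D, ¬ p ∣ n then rho b K D' n else 0)| ≤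
      K * bd K x D D' := by
    rw [← Finset.mul_sum, abs_mul, abs_of_nonneg (by positivity : (0 : ℝ) ≤ (K : ℝ) / d)]
    have h4 : |∑ n ∈ Icc 1 x, (if ∀ p ∈ D, ¬ p ∣ n then rho b K D' n else 0)| ≤
        d * bd K x D D' := by
      rw [← Finset.sum_fiberwise_of_maps_to (s := Icc 1 x) (t := range d) (g := fun n => n % d)
        (fun n _ => Finset.mem_range.2 (Nat.mod_lt _ hd0))]
      refine (Finset.abs_sum_le_sum_abs _ _).trans ?_
      have h5 : ∀ r ∈ range d, |∑ n ∈ (Icc 1 x).filter (fun n => n % d = r),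
          (if ∀ p ∈ D, ¬ p ∣ n then rho b K D' n else 0)| ≤ bd K x D D' := by
        intro r hr
        rw [Finset.mem_range] at hr
        have e4 : (Icc 1 x).filter (fun n => n % d = r) =
            (Icc 1 x).filter (fun n => n ≡ r [MOD d]) := by
          apply Finset.filter_congr
          intro n _
          unfold Nat.ModEq
          rw [Nat.mod_eq_of_lt hr]
        have e5 : ∀ n, n ≡ r [MOD d] → ∀ p ∈ D, (p ∣ n ↔ p ∣ r) := by
          intro n hn p hp
          exact (hn.of_dvd (Finset.dvd_prod_of_mem _ hp)).dvd_iff dvd_rfl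
        rw [e4]
        by_cases hrD : ∀ p ∈ D, ¬ p ∣ r
        · have e6 : ∑ n ∈ (Icc 1 x).filter (fun n => n ≡ r [MOD d]),
              (if ∀ p ∈ D, ¬ p ∣ n then rho b K D' n else 0) =
              ∑ n ∈ (Icc 1 x).filter (fun n => n ≡ r [MOD d]), rho b K D' n := by
            refine Finset.sum_congr rfl fun n hn => ?_
            rw [if_pos]
            intro p hp hpn
            exact hrD p hp ((e5 n (Finset.mem_filter.1 hn).2 p hp).1 hpn)
          rw [e6]
          exact hcls r hrD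
        · rw [Finset.sum_eq_zero, abs_zero]
          · exact hB0
          · intro n hn
            rw [if_neg]
            intro hall
            apply hrD
            intro p hp hpr
            exact hall p hp ((e5 n (Finset.mem_filter.1 hn).2 p hp).2 hpr)
      refine (Finset.sum_le_card_nsmul _ _ _ h5).trans (le_of_eq ?_)
      rw [Finset.card_range, nsmul_eq_mul]
    calc (K : ℝ) / d * |∑ n ∈ Icc 1 x, (if ∀ p ∈ D, ¬ p ∣ n then rho b K D' n else 0)|
        ≤ (K : ℝ) / d * (d * bd K x D D') := by gcongr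
      _ = K * bd K x D D' := by
        field_simp
  refine (abs_sub _ _).trans ?_
  have e7 : 2 * (K : ℝ) * (2 ^ D'.card * ((x : ℝ) / ((∏ p ∈ D ∪ D', p : ℕ) : ℝ) + 2 * K)) =
      K * bd K x D D' + K * bd K x D D' := by
    unfold bd
    ring
  rw [e7]
  exact add_le_add h1 h3

end Pool.Agent.Lib.MP_0f858a_nt.KR
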