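import Pool.Agent.Lib.MP_0f858a_nt.KR.Sec53
import Pool.Agent.Lib.MP_0f858a_nt.KR.StmtsC84

/-!
MP_0f858a_nt: the second moment with a thin exceptional set (after the module SEC of helper53).
-/

set_option autoImplicit false

namespace Pool.Agent.Lib.MP_0f858a_nt.KR

open Finset Filter Sec53
open scoped Classical

/-- the second moment, thin exceptional set -/
theorem stSecu_84 (hTail : StTail) (hMls : StMls) : StSecu := by
  obtain ⟨c, x₁, hT⟩ := hTail
  obtain ⟨C, hC, hM⟩ := hMls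
  -- the size of `x`
  have hT1 : Tendsto (fun x : ℕ => Real.log x) atTop atTop :=
    Real.tendsto_log_atTop.comp tendsto_natCast_atTop_atTop
  have hK0 : (0 : ℝ) < 1 / (32 * C * (36 * (c : ℝ) ^ 2) + 1) := by positivity
  have hlim : ∀ᶠ x : ℕ in atTop, 32 * C * (36 * (c : ℝ) ^ 2) * Real.log x ^ 4 ≤
      Real.exp (1 / 2 * Real.log x) := by
    have h2 := (isLittleO_pow_exp_pos_mul_atTop (k := 4) (b := (1 / 2 : ℝ)) (by norm_num)).bound hK0
    filter_upwards [hT1.eventually h2] with x hx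
    rw [Real.norm_eq_abs, Real.norm_eq_abs, abs_of_pos (Real.exp_pos _),
      abs_of_nonneg (by positivity)] at hx
    have h3 : (0 : ℝ) ≤ Real.log x ^ 4 := by positivity
    rw [one_div, inv_mul_eq_div, le_div_iff₀ (by positivity)] at hx
    nlinarith
  have hlog : ∀ᶠ x : ℕ in atTop, 1 ≤ Real.log (x : ℝ) :=
    (Real.tendsto_log_atTop.comp tendsto_natCast_atTop_atTop).eventually_ge_atTop 1
  obtain ⟨x₀, hx₀⟩ := ((hlim.and hlog).and
    ((eventually_ge_atTop x₁).and (eventually_ge_atTop 3))).exists_forall_of_atTop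
  refine ⟨x₀, ?_⟩
  intro x hx
  obtain ⟨⟨h1, h2⟩, h3, h4⟩ := hx₀ x hx
  set L := Real.log x with hL
  have hL0 : 0 < L := by linarith
  set B := (Pr x).filter (fun q => 1 / 4 < SQ (x ^ 3) q) with hB
  set J := JJ c x with hJ
  have hJ1 : (J : ℝ) ≤ 6 * c * L ^ 2 := JJ_le h2
  -- the lower bound
  have h5 : ∀ q ∈ B, 1 / 16 ≤ (J : ℝ) * ∑ j ∈ range J, VS q (SJ c x j) (fun n => 1 / (n : ℂ)) := by
    intro q hq
    obtain ⟨hq1, hq2⟩ := mem_filter.1 hq
    have hq0 : 1 ≤ q := (mem_Icc.1 (mem_filter.1 hq1).1).1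
    haveI : NeZero q := ⟨by omega⟩
    have := sq_le h4 hq1 (hT x h3 q hq1)
    linarith
  have h6 : (B.card : ℝ) * (1 / 16) ≤ J * ∑ j ∈ range J,
      ∑ q ∈ (Icc 1 x).filter Nat.Prime, VS q (SJ c x j) (fun n => 1 / (n : ℂ)) := by
    have e1 : (B.card : ℝ) * (1 / 16) = ∑ q ∈ B, (1 / 16 : ℝ) := by
      rw [sum_const, nsmul_eq_mul]
    rw [e1]
    refine (sum_le_sum h5).trans ?_
    rw [← mul_sum, sum_comm]
    refine mul_le_mul_of_nonneg_left ?_ (Nat.cast_nonneg _)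
    refine sum_le_sum fun j _ => ?_
    refine sum_le_sum_of_subset_of_nonneg ?_ ?_
    · intro q hq
      have hq1 := (mem_filter.1 hq).1
      unfold Pr at hq1
      obtain ⟨a1, a2⟩ := mem_filter.1 hq1
      exact mem_filter.2 ⟨a1, a2.1⟩
    · intro q _ _
      rw [VS_eq]
      exact sum_nonneg fun _ _ => sq_nonneg _
  have h7 : ∀ j ∈ range J, ∑ q ∈ (Icc 1 x).filter Nat.Prime,
      VS q (SJ c x j) (fun n => 1 / (n : ℂ)) ≤ 2 * C := by
    intro j _
    have hx1 : 1 ≤ x := by omega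
    have hM1 : x ^ 3 ≤ x ^ 3 * 2 ^ j := Nat.le_mul_of_pos_right _ (by positivity)
    have hM2 : 1 ≤ x ^ 3 * 2 ^ j := Nat.one_le_iff_ne_zero.2 (by positivity)
    refine (hM x (x ^ 3 * 2 ^ j) (SJ c x j) (fun n => 1 / (n : ℂ)) hx1 hM2 (SJ_sub hx1)).trans ?_
    exact block hC hx1 hM1 (SJ_sub hx1)
  have h8 : (B.card : ℝ) * (1 / 16) ≤ J * (J * (2 * C)) := by
    refine h6.trans (mul_le_mul_of_nonneg_left ?_ (Nat.cast_nonneg _))
    refine (sum_le_sum h7).trans (le_of_eq ?_)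
    rw [sum_const, card_range, nsmul_eq_mul]
  have h9 : (B.card : ℝ) ≤ 32 * C * (36 * (c : ℝ) ^ 2) * L ^ 4 := by
    have e1 : (J : ℝ) * J ≤ (6 * c * L ^ 2) * (6 * c * L ^ 2) :=
      mul_le_mul hJ1 hJ1 (Nat.cast_nonneg _) (by positivity)
    nlinarith
  have hx0 : (0 : ℝ) < x := by exact_mod_cast (by omega : 0 < x)
  have hL8 : L ^ (1 / 8 : ℝ) ≤ L := by
    calc L ^ (1 / 8 : ℝ) ≤ L ^ (1 : ℝ) := Real.rpow_le_rpow_of_exponent_le h2 (by norm_num)
      _ = L := Real.rpow_one L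
  calc (B.card : ℝ) ≤ 32 * C * (36 * (c : ℝ) ^ 2) * L ^ 4 := h9
    _ ≤ Real.exp (1 / 2 * L) := h1
    _ ≤ Real.exp (L + -(L ^ (1 / 8 : ℝ) / 2)) := Real.exp_le_exp.mpr (by linarith)
    _ = TS x := by
        unfold TS
        rw [Real.exp_add, hL, Real.exp_log hx0]

end Pool.Agent.Lib.MP_0f858a_nt.KR
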