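import Pool.Agent.Lib.MP_0f858a_nt.KR.Sml61
import Pool.Agent.Lib.MP_0f858a_nt.KR.StmtsC84

/-!
MP_0f858a_nt, SMLU: the small `k`, uniform in `A ≤ (log x) ^ (1/10) + 1` (after the modules SML and
SMLB of helper61).
-/

set_option autoImplicit false

namespace Pool.Agent.Lib.MP_0f858a_nt.KR.SmU

open Finset Filter
open scoped Classical

/-- `(log x) ^ (1/40)` -/
noncomputable def VV (x : ℕ) : ℝ := Real.log x ^ (1 / 40 : ℝ)

theorem VV_tendsto : Tendsto VV atTop atTop :=
  (tendsto_rpow_atTop (by norm_num)).comp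
    (Real.tendsto_log_atTop.comp tendsto_natCast_atTop_atTop)

theorem VV_pow (x : ℕ) : VV x ^ 40 = Real.log x := by
  unfold VV
  rw [← Real.rpow_natCast, ← Real.rpow_mul (Real.log_natCast_nonneg x)]
  norm_num

theorem VV_U8 (x : ℕ) : VV x ^ 5 = U8 x := by
  unfold VV U8
  rw [← Real.rpow_natCast, ← Real.rpow_mul (Real.log_natCast_nonneg x)]
  norm_num

theorem VV_ten (x : ℕ) : VV x ^ 4 = Real.log x ^ (1 / 10 : ℝ) := by
  unfold VV
  rw [← Real.rpow_natCast, ← Real.rpow_mul (Real.log_natCast_nonneg x)]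
  norm_num

/-- The number of `q` for which all `k q ± 1`, `k ∈ T`, are prime, uniform in the number `m` of the
elements of `T`. -/
theorem tuple_u (hSv : StSv) : ∃ C : ℝ, 1 ≤ C ∧ ∀ᶠ x : ℕ in atTop, ∀ (b : Bool) (m : ℕ), 2 ≤ m →
    ((m : ℝ) + 1) ≤ 3 * VV x ^ 4 → ∀ (T : Finset ℕ), T.card = m →
    (∀ k ∈ T, 1 ≤ k ∧ k ≤ 2 * K8 x) →
    (((Pr x).filter (fun q => ∀ k ∈ T, (pk b q k).Prime)).card : ℝ) ≤
      x * (2 * Real.exp 1 * (240 * C / U8 x ^ 7) ^ (m + 1)) := by
  obtain ⟨C, hC, hsv⟩ := hSv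
  refine ⟨C, hC, ?_⟩
  filter_upwards [VV_tendsto.eventually (eventually_ge_atTop (240 * C + 60)),
    eventually_ge_atTop 16] with x hv hx16 b m hm hmw T hTc hT
  set w := m + 1 with hw
  set v := VV x with hvd
  set u := U8 x with hu
  have hvu : v ^ 5 = u := VV_U8 x
  have hv1 : 1 ≤ v := by linarith
  have hv0 : 0 < v := by linarith
  have hvu1 : v ≤ u := by rw [← hvu]; exact le_self_pow₀ hv1 (by norm_num)
  have hwr : (3 : ℝ) ≤ w := by exact_mod_cast (by omega : 3 ≤ m + 1)
  have hmr : (2 : ℝ) ≤ m := by exact_mod_cast hm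
  have hww : (w : ℝ) ≤ 3 * v ^ 4 := by
    rw [hw]
    push_cast
    exact hmw
  have hu1 : 1 ≤ u := by linarith
  have hu0 : 0 < u := by linarith
  have hlx : u ^ 8 = Real.log x := U8_pow x
  set z₀ := ⌊u ^ 16⌋₊ with hz₀
  have hu8 : u ≤ u ^ 8 := le_self_pow₀ hu1 (by norm_num)
  have hu16 : u ^ 8 + 1 ≤ u ^ 16 := by
    have h1 : u ^ 16 = u ^ 8 * u ^ 8 := by ring
    nlinarith
  have hz1 : u ^ 8 ≤ z₀ := by
    have := Nat.lt_floor_add_one (u ^ 16)
    linarith
  have hz2 : (z₀ : ℝ) ≤ u ^ 16 := Nat.floor_le (by positivity)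
  have hv40 : u ^ 8 = v ^ 40 := by rw [← hvu]; ring
  have hzw : 2 * w ≤ z₀ := by
    have : 2 * (w : ℝ) ≤ z₀ := by
      calc 2 * (w : ℝ) ≤ 2 * (3 * v ^ 4) := by linarith
        _ = 6 * v ^ 4 := by ring
        _ ≤ v * v ^ 4 := mul_le_mul_of_nonneg_right (by linarith) (by positivity)
        _ = v ^ 5 := by ring
        _ ≤ v ^ 40 := pow_le_pow_right₀ hv1 (by norm_num)
        _ ≤ z₀ := by rw [← hv40]; exact hz1
    exact_mod_cast this
  have hz₀1 : 1 ≤ z₀ := by omega
  have hz₀r : (1 : ℝ) ≤ z₀ := by exact_mod_cast hz₀1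
  have hlogv : Real.log v ≤ v := by
    have := Real.log_le_sub_one_of_pos hv0
    linarith
  have hlu : Real.log u ≤ 5 * v := by
    rw [← hvu, Real.log_pow]
    push_cast
    linarith
  have hlz : Real.log z₀ ≤ 80 * v := by
    calc Real.log z₀ ≤ Real.log (u ^ 16) := Real.log_le_log (by linarith) hz2
      _ = 16 * Real.log u := by
        rw [Real.log_pow]
        norm_num
      _ ≤ _ := by linarith
  have hlz0 : 0 ≤ Real.log z₀ := Real.log_nonneg hz₀r
  have hT1 : ∀ k ∈ T, 1 ≤ k := fun k hk => (hT k hk).1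
  have hΔ := DeT_ne_zero T hT1
  have hlX : u ^ 8 ≤ Real.log ((x + 1 : ℕ) : ℝ) := by
    rw [hlx]
    apply Real.log_le_log
    · have : 0 < x := by omega
      exact_mod_cast this
    · push_cast
      linarith
  have hCw : C * w * Real.log z₀ ≤ 240 * C * u := by
    calc C * w * Real.log z₀ ≤ C * (3 * v ^ 4) * (80 * v) := by gcongr
      _ = 240 * C * v ^ 5 := by ring
      _ = _ := by rw [hvu]
  have hy : 240 * C * u ≤ u ^ 8 := by
    calc 240 * C * u ≤ u * u := mul_le_mul_of_nonneg_right (by linarith) hu0.le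
      _ = u ^ 2 := by ring
      _ ≤ u ^ 8 := pow_le_pow_right₀ hu1 (by norm_num)
  have hfd : w * fD z₀ (DeT T) ≤ 1 := by
    have h1 := fD_le z₀ (DeT T) hz₀1
    have h2 := two_pow_card_primeFactors (DeT T) hΔ
    have h3 := DeT_le T (2 * K8 x) (by have := K8_pos x; omega) (fun k hk => (hT k hk).2)
    set n := (DeT T).primeFactors.card with hn
    have h4 : (2 : ℝ) ^ n ≤ (2 * (K8 x : ℝ)) ^ (m + m ^ 2) := by
      have := h2.trans h3
      rw [hTc] at this
      exact_mod_cast this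
    have hK := K8_le x
    rw [← hu] at hK
    have hK1 : (1 : ℝ) ≤ K8 x := by exact_mod_cast K8_pos x
    have h5 : n * Real.log 2 ≤ (m + m ^ 2) * (2 * Real.log 2 + u) := by
      have h6 := Real.log_le_log (by positivity) h4
      rw [Real.log_pow, Real.log_pow] at h6
      have h7 : Real.log (2 * (K8 x : ℝ)) ≤ 2 * Real.log 2 + u := by
        calc Real.log (2 * (K8 x : ℝ)) ≤ Real.log (2 ^ 2 * Real.exp u) :=
              Real.log_le_log (by linarith) (by linarith)
          _ = _ := by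
              rw [Real.log_mul (by norm_num) (Real.exp_pos _).ne', Real.log_exp, Real.log_pow]
              norm_num
      push_cast at h6
      have h8 : (0 : ℝ) ≤ m + m ^ 2 := by positivity
      exact h6.trans (mul_le_mul_of_nonneg_left h7 h8)
    have hl2 := Real.log_two_gt_d9
    have hl3 := Real.log_two_lt_d9
    have h8 : (0 : ℝ) ≤ m + m ^ 2 := by positivity
    have h9 : (n : ℝ) ≤ (m + m ^ 2) * (2 * u) := by
      have h10 : (m + m ^ 2) * (2 * Real.log 2 + u) ≤ (m + m ^ 2) * (2 * u) * Real.log 2 := by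
        rw [mul_assoc (m + m ^ 2 : ℝ)]
        apply mul_le_mul_of_nonneg_left _ h8
        nlinarith
      have h11 : 0 < Real.log 2 := by linarith
      exact le_of_mul_le_mul_right (h5.trans h10) h11
    have h12 : ((m : ℝ) + m ^ 2) ≤ w ^ 2 := by
      rw [hw]
      push_cast
      nlinarith
    calc w * fD z₀ (DeT T) ≤ w * (n / z₀) := mul_le_mul_of_nonneg_left h1 (by positivity)
      _ ≤ 1 := by
        rw [mul_div_assoc', div_le_one (by linarith)]
        calc (w : ℝ) * n ≤ w * ((m + m ^ 2) * (2 * u)) :=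
              mul_le_mul_of_nonneg_left h9 (by positivity)
          _ ≤ w * (w ^ 2 * (2 * u)) := by gcongr
          _ = 2 * (w : ℝ) ^ 3 * u := by ring
          _ ≤ 2 * (3 * v ^ 4) ^ 3 * v ^ 5 := by
              rw [hvu]
              gcongr
          _ = 54 * v ^ 17 := by ring
          _ ≤ v * v ^ 17 := mul_le_mul_of_nonneg_right (by linarith) (by positivity)
          _ = v ^ 18 := by ring
          _ ≤ v ^ 40 := pow_le_pow_right₀ hv1 (by norm_num)
          _ ≤ z₀ := by rw [← hv40]; exact hz1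
  have hmain := hsv w z₀ (x + 1) (DeT T)
    ((Pr x).filter (fun q => ∀ k ∈ T, (pk b q k).Prime)) (by omega) hzw hΔ
    (by linarith)
    (by
      intro n hn
      rw [mem_filter, Pr, mem_filter, mem_Icc] at hn
      omega)
    (by
      intro l hl _ hlw hlΔ
      exact pk_sieve b T l hl hlΔ x w hx16 (by omega) (by omega) hlw hT1)
  refine hmain.trans ?_
  have hu80 : 0 < u ^ 8 := by positivity
  have h1 : (C * w * Real.log z₀ / Real.log ((x + 1 : ℕ) : ℝ)) ^ w ≤
      (240 * C * u / u ^ 8) ^ w := by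
    apply pow_le_pow_left₀
    · apply div_nonneg _ (by linarith)
      positivity
    · apply div_le_div₀ _ hCw hu80 hlX
      positivity
  have h2 : Real.exp (w * fD z₀ (DeT T)) ≤ Real.exp 1 := Real.exp_le_exp.2 hfd
  have hxr : (1 : ℝ) ≤ x := by exact_mod_cast (by omega : 1 ≤ x)
  have h3 : ((x + 1 : ℕ) : ℝ) ≤ 2 * x := by
    push_cast
    linarith
  have h4 : 240 * C * u / u ^ 8 = 240 * C / u ^ 7 := by
    rw [div_eq_div_iff (by positivity) (by positivity)]
    ring
  calc ((x + 1 : ℕ) : ℝ) * (C * w * Real.log z₀ / Real.log ((x + 1 : ℕ) : ℝ)) ^ w *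
        Real.exp (w * fD z₀ (DeT T))
      ≤ 2 * x * (240 * C * u / u ^ 8) ^ w * Real.exp 1 := by
        apply mul_le_mul _ h2 (Real.exp_pos _).le (by positivity)
        apply mul_le_mul h3 h1 _ (by positivity)
        apply pow_nonneg
        apply div_nonneg _ (by linarith)
        positivity
    _ = x * (2 * Real.exp 1 * (240 * C / u ^ 7) ^ w) := by
        rw [h4]
        ring

/-- For most `q` the number of primes in all blocks is small. -/
theorem exc_u (hSv : StSv) : ∀ᶠ x : ℕ in atTop, ∀ A : ℕ, (2 * (A : ℝ) + 3) ≤ 3 * VV x ^ 4 →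
    ∀ b : Bool, (((Pr x).filter (fun q => ∃ j ∈ range (Nat.log 2 (K8 x) + 1),
      (((2 * A + 2 : ℕ) : ℝ)) + 2 ^ j / (j + 1) ^ 2 < NB b q j)).card : ℝ) ≤
      x / Real.log x ^ A := by
  obtain ⟨C, hC, htu⟩ := tuple_u hSv
  filter_upwards [htu, VV_tendsto.eventually (eventually_ge_atTop (5760 * C)),
    eventually_ge_atTop 16] with x htup hv hx16 A hA b
  rcases Nat.eq_zero_or_pos A with rfl | hA0
  · rw [pow_zero, div_one]
    have h1 : ((Pr x).filter (fun q => ∃ j ∈ range (Nat.log 2 (K8 x) + 1),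
        (((2 * 0 + 2 : ℕ) : ℝ)) + 2 ^ j / (j + 1) ^ 2 < NB b q j)).card ≤ x := by
      refine (card_filter_le _ _).trans ?_
      unfold Pr
      refine (card_filter_le _ _).trans ?_
      rw [Nat.card_Icc, Nat.add_sub_cancel]
    exact_mod_cast h1
  set m := 2 * A + 2 with hm
  set v := VV x with hvd
  set u := U8 x with hu
  have hvu : v ^ 5 = u := VV_U8 x
  have hv1 : 1 ≤ v := by linarith
  have hvu1 : v ≤ u := by rw [← hvu]; exact le_self_pow₀ hv1 (by norm_num)
  have hu4 : 5760 * C ≤ u := by linarith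
  have hu1 : 1 ≤ u := by linarith
  have hu0 : 0 < u := by linarith
  have he : Real.exp 1 ≤ 3 := by
    have := Real.exp_one_lt_d9
    linarith
  have he1 : 1 ≤ Real.exp 1 := Real.one_le_exp (by norm_num)
  set J := Nat.log 2 (K8 x) with hJ
  set B := (x : ℝ) * (2 * Real.exp 1 * (240 * C / u ^ 7) ^ (m + 1)) with hB
  have hB0 : 0 ≤ B := by
    have : 0 ≤ 240 * C / u ^ 7 := by positivity
    positivity
  have hK1 := K8_pos x
  have hJpow : 2 ^ J ≤ K8 x := Nat.pow_log_le_self 2 (by omega)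
  have hJu : (J : ℝ) + 1 ≤ 2 * u := by
    have h1 : (2 : ℝ) ^ J ≤ 2 * Real.exp u := by
      have h2 : (2 : ℝ) ^ J ≤ K8 x := by exact_mod_cast hJpow
      exact h2.trans (K8_le x)
    have h2 := Real.log_le_log (by positivity) h1
    rw [Real.log_pow, Real.log_mul (by norm_num) (Real.exp_pos _).ne', Real.log_exp] at h2
    have hl2 := Real.log_two_gt_d9
    have hl3 := Real.log_two_lt_d9
    have h3 : ((J : ℝ) + 1) * Real.log 2 ≤ 2 * u * Real.log 2 := by nlinarith
    exact le_of_mul_le_mul_right h3 (by linarith)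
  have hblock : ∀ j ∈ range (J + 1),
      (((Pr x).filter (fun q => (m : ℝ) + 2 ^ j / (j + 1) ^ 2 < NB b q j)).card : ℝ) ≤
        (2 * u) ^ (2 * m) * B := by
    intro j hj
    rw [mem_range] at hj
    have h1 := moment b x m j B (by
      intro T hT hTs
      apply htup b m (by omega) (by
        rw [hm]
        push_cast
        linarith) T hT
      intro k hk
      have h2 := mem_Ico.1 (hTs hk)
      have h3 : 1 ≤ 2 ^ j := Nat.one_le_two_pow
      have h4 : 2 ^ j ≤ 2 ^ J := Nat.pow_le_pow_right (by norm_num) (by omega)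
      rw [pow_succ] at h2
      omega) hB0
    refine h1.trans ?_
    apply mul_le_mul_of_nonneg_right _ hB0
    apply pow_le_pow_left₀ (by positivity)
    have h5 : (j : ℝ) ≤ J := by exact_mod_cast (by omega : j ≤ J)
    linarith
  have hcov : (Pr x).filter (fun q => ∃ j ∈ range (J + 1),
      (m : ℝ) + 2 ^ j / (j + 1) ^ 2 < NB b q j) ⊆
      (range (J + 1)).biUnion (fun j =>
        (Pr x).filter (fun q => (m : ℝ) + 2 ^ j / (j + 1) ^ 2 < NB b q j)) := by
    intro q hq
    rw [mem_filter] at hq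
    obtain ⟨hq1, j, hj, hq2⟩ := hq
    rw [mem_biUnion]
    exact ⟨j, hj, mem_filter.2 ⟨hq1, hq2⟩⟩
  have hL : Real.log x = u ^ 8 := (U8_pow x).symm
  have h2u : 1 ≤ 2 * u := by linarith
  calc (((Pr x).filter (fun q => ∃ j ∈ range (J + 1),
        (m : ℝ) + 2 ^ j / (j + 1) ^ 2 < NB b q j)).card : ℝ)
      ≤ (((range (J + 1)).biUnion (fun j =>
          (Pr x).filter (fun q => (m : ℝ) + 2 ^ j / (j + 1) ^ 2 < NB b q j))).card : ℝ) := by
        exact_mod_cast card_le_card hcov
    _ ≤ ∑ j ∈ range (J + 1),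
          (((Pr x).filter (fun q => (m : ℝ) + 2 ^ j / (j + 1) ^ 2 < NB b q j)).card : ℝ) := by
        exact_mod_cast card_biUnion_le
    _ ≤ ∑ j ∈ range (J + 1), (2 * u) ^ (2 * m) * B := sum_le_sum hblock
    _ = ((J : ℝ) + 1) * ((2 * u) ^ (2 * m) * B) := by
        rw [sum_const, card_range, nsmul_eq_mul]
        push_cast
        ring
    _ ≤ (2 * u) * ((2 * u) ^ (2 * m) * B) := by
        apply mul_le_mul_of_nonneg_right hJu
        positivity
    _ = x * ((2 * u) ^ (2 * m + 1) * (2 * Real.exp 1 * (240 * C / u ^ 7) ^ (m + 1))) := by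
        rw [hB, pow_succ (2 * u) (2 * m)]
        ring
    _ ≤ x * ((2 * u) ^ (2 * (m + 1)) * ((2 * Real.exp 1) ^ (m + 1) *
          (240 * C / u ^ 7) ^ (m + 1))) := by
        have h5 : (2 * u) ^ (2 * m + 1) ≤ (2 * u) ^ (2 * (m + 1)) :=
          pow_le_pow_right₀ h2u (by omega)
        have h6 : 2 * Real.exp 1 ≤ (2 * Real.exp 1) ^ (m + 1) :=
          le_self_pow₀ (by linarith) (by omega)
        have h7 : 0 ≤ 240 * C / u ^ 7 := by positivity
        gcongr
    _ = x * ((4 * u ^ 2) * (2 * Real.exp 1) * (240 * C / u ^ 7)) ^ (m + 1) := by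
        rw [pow_mul, ← mul_pow, ← mul_pow]
        ring_nf
    _ ≤ x * (1 / u ^ 4) ^ (m + 1) := by
        have h7 : 0 ≤ 240 * C / u ^ 7 := by positivity
        apply mul_le_mul_of_nonneg_left _ (Nat.cast_nonneg _)
        apply pow_le_pow_left₀ (by positivity)
        rw [← mul_div_assoc, div_le_div_iff₀ (by positivity) (by positivity)]
        calc 4 * u ^ 2 * (2 * Real.exp 1) * (240 * C) * u ^ 4
            ≤ 4 * u ^ 2 * (2 * 3) * (240 * C) * u ^ 4 := by gcongr
          _ = (5760 * C) * u ^ 6 := by ring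
          _ ≤ u * u ^ 6 := mul_le_mul_of_nonneg_right hu4 (by positivity)
          _ = 1 * u ^ 7 := by ring
    _ = x * (1 / u ^ (4 * (m + 1))) := by
        rw [div_pow, one_pow, ← pow_mul]
    _ ≤ x * (1 / u ^ (8 * A)) := by
        apply mul_le_mul_of_nonneg_left _ (Nat.cast_nonneg _)
        apply one_div_le_one_div_of_le (by positivity)
        apply pow_le_pow_right₀ hu1
        omega
    _ = x / Real.log x ^ A := by
        rw [hL, ← pow_mul]
        ring

/-- The sum over the `k` split at `2 ^ j₀`. -/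
theorem ZS_split (b : Bool) (q K j₀ : ℕ) :
    ZS b q 0 K ≤ ZS b q 0 (2 ^ j₀) +
      ∑ j ∈ Ico j₀ (Nat.log 2 K + 1), (NB b q j : ℝ) / 2 ^ j := by
  unfold ZS
  rw [← sum_filter_add_sum_filter_not ((Ioc 0 K).filter (fun k => (pk b q k).Prime))
    (fun k => k < 2 ^ j₀)]
  apply add_le_add
  · apply sum_le_sum_of_subset_of_nonneg
    · intro k hk
      rw [mem_filter, mem_filter, mem_Ioc] at hk
      rw [mem_filter, mem_Ioc]
      exact ⟨⟨hk.1.1.1, hk.2.le⟩, hk.1.2⟩
    · intro k _ _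
      positivity
  · set S := ((Ioc 0 K).filter (fun k => (pk b q k).Prime)).filter (fun k => ¬ k < 2 ^ j₀)
      with hS
    rw [← sum_fiberwise_of_maps_to (s := S) (g := Nat.log 2) (t := Ico j₀ (Nat.log 2 K + 1))]
    · apply sum_le_sum
      intro j _
      have hmem : ∀ k ∈ S.filter (fun k => Nat.log 2 k = j),
          (2 ^ j ≤ k ∧ k < 2 ^ (j + 1)) ∧ (pk b q k).Prime := by
        intro k hk
        rw [mem_filter, hS, mem_filter, mem_filter, mem_Ioc] at hk
        have h5 := (Nat.log_eq_iff (Or.inr ⟨by norm_num, by omega⟩)).1 hk.2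
        exact ⟨h5, hk.1.1.2⟩
      have h1 : ((S.filter (fun k => Nat.log 2 k = j)).card : ℝ) ≤ NB b q j := by
        unfold NB
        exact_mod_cast card_le_card (by
          intro k hk
          rw [mem_filter, mem_Ico]
          exact hmem k hk)
      calc ∑ k ∈ S.filter (fun k => Nat.log 2 k = j), 1 / (k : ℝ)
          ≤ ∑ k ∈ S.filter (fun k => Nat.log 2 k = j), 1 / (2 : ℝ) ^ j := by
            apply sum_le_sum
            intro k hk
            apply one_div_le_one_div_of_le (by positivity)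
            exact_mod_cast (hmem k hk).1.1
        _ = ((S.filter (fun k => Nat.log 2 k = j)).card : ℝ) / 2 ^ j := by
            rw [sum_const, nsmul_eq_mul, mul_one_div]
        _ ≤ _ := div_le_div_of_nonneg_right h1 (by positivity)
    · intro k hk
      rw [hS, mem_filter, mem_filter, mem_Ioc] at hk
      rw [mem_Ico]
      refine ⟨?_, Nat.lt_succ_of_le (Nat.log_mono_right hk.1.1.2)⟩
      exact Nat.le_log_of_pow_le (by norm_num) (not_lt.1 hk.2)

theorem sum_inv_two_pow_Ico (j₀ n : ℕ) :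
    ∑ j ∈ Ico j₀ n, 1 / (2 : ℝ) ^ j ≤ 2 / 2 ^ j₀ := by
  rw [sum_Ico_eq_sum_range]
  calc ∑ k ∈ range (n - j₀), 1 / (2 : ℝ) ^ (j₀ + k)
      = (1 / 2 ^ j₀) * ∑ k ∈ range (n - j₀), 1 / (2 : ℝ) ^ k := by
        rw [mul_sum]
        apply sum_congr rfl
        intro k _
        rw [pow_add]
        field_simp
    _ ≤ (1 / 2 ^ j₀) * 2 := mul_le_mul_of_nonneg_left (sum_inv_two_pow _) (by positivity)
    _ = _ := by ring

/-- The first three terms. -/
theorem ZS_three (b : Bool) (q : ℕ) : ZS b q 0 3 ≤ 2 := by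
  unfold ZS
  calc ∑ k ∈ (Ioc 0 3).filter (fun k => (pk b q k).Prime), 1 / (k : ℝ)
      ≤ ∑ k ∈ (Ioc 0 3 : Finset ℕ), 1 / (k : ℝ) :=
        sum_le_sum_of_subset_of_nonneg (filter_subset _ _) (fun k _ _ => by positivity)
    _ ≤ 2 := by
        have : (Ioc 0 3 : Finset ℕ) = {1, 2, 3} := by decide
        rw [this]
        norm_num

theorem ZS_add (b : Bool) (q K : ℕ) (hK : 3 ≤ K) : ZS b q 0 K = ZS b q 0 3 + ZS b q 3 K := by
  unfold ZS
  rw [← sum_union]
  · apply sum_congr _ (fun _ _ => rfl)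
    ext k
    simp only [mem_union, mem_filter, mem_Ioc]
    constructor
    · rintro ⟨⟨h1, h2⟩, h3⟩
      rcases le_or_gt k 3 with h | h
      · exact Or.inl ⟨⟨h1, h⟩, h3⟩
      · exact Or.inr ⟨⟨h, h2⟩, h3⟩
    · rintro (⟨⟨h1, h2⟩, h3⟩ | ⟨⟨h1, h2⟩, h3⟩)
      · exact ⟨⟨h1, by omega⟩, h3⟩
      · exact ⟨⟨by omega, h2⟩, h3⟩
  · rw [disjoint_left]
    intro k hk hk'
    rw [mem_filter, mem_Ioc] at hk hk'
    omega

theorem stSmlu_84 (hSv : StSv) (hBts : StBts) : StSmlu := by
  obtain ⟨CB, hB⟩ := hBts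
  obtain ⟨x₀, hx₀⟩ := eventually_atTop.1 ((exc_u hSv).and
    ((VV_tendsto.eventually (eventually_ge_atTop 40)).and (eventually_ge_atTop 16)))
  refine ⟨10 + CB, x₀, ?_⟩
  intro x hx A hA hAx b
  obtain ⟨hexc, hv40, hx16⟩ := hx₀ x hx
  set v := VV x with hvd
  have hv4 : Real.log x ^ (1 / 10 : ℝ) = v ^ 4 := (VV_ten x).symm
  rw [hv4] at hAx
  have hv1 : 1 ≤ v := by linarith
  have hv41 : 40 ≤ v ^ 4 := by
    calc (40 : ℝ) ≤ v := hv40
      _ ≤ v ^ 4 := le_self_pow₀ hv1 (by norm_num)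
  set m := 2 * A + 2 with hm
  set j₀ := Nat.log 2 m + 1 with hj₀
  have hm8 : 8 ≤ m := by omega
  have h2j : m < 2 ^ j₀ := Nat.lt_pow_succ_log_self (by norm_num) m
  have h2j' : 2 ^ j₀ ≤ 2 * m := by
    rw [hj₀, pow_succ, mul_comm]
    exact Nat.mul_le_mul_left 2 (Nat.pow_log_le_self 2 (by omega))
  have hx2 : (2 * m) ^ 2 ≤ x := by
    have h1 : (((2 * m) ^ 2 : ℕ) : ℝ) ≤ x := by
      push_cast
      have h2 : (m : ℝ) ≤ 3 * v ^ 4 := by
        rw [hm]
        push_cast
        linarith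
      have h3 : (x : ℝ) ≥ Real.log x := by
        have := Real.log_le_sub_one_of_pos (show (0 : ℝ) < x by exact_mod_cast (by omega : 0 < x))
        linarith
      have h4 : v ^ 40 = Real.log x := VV_pow x
      calc (2 * (m : ℝ)) ^ 2 ≤ (2 * (3 * v ^ 4)) ^ 2 := by gcongr
        _ = 36 * v ^ 8 := by ring
        _ ≤ v * v ^ 8 := mul_le_mul_of_nonneg_right (by linarith) (by positivity)
        _ = v ^ 9 := by ring
        _ ≤ v ^ 40 := pow_le_pow_right₀ hv1 (by norm_num)
        _ ≤ x := by rw [h4]; exact h3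
    exact_mod_cast h1
  refine le_trans ?_ (hexc A (by linarith) b)
  have hsub : (Pr x).filter (fun q => 10 + CB + 2 * Real.log (Real.log A) < ZS b q 0 (K8 x)) ⊆
      (Pr x).filter (fun q => ∃ j ∈ range (Nat.log 2 (K8 x) + 1),
        (((2 * A + 2 : ℕ) : ℝ)) + 2 ^ j / (j + 1) ^ 2 < NB b q j) := by
    intro q hq
    rw [mem_filter] at hq
    rw [mem_filter]
    refine ⟨hq.1, ?_⟩
    by_contra hcon
    push Not at hcon
    have hqp := hq.1
    rw [Pr, mem_filter, mem_Icc] at hqp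
    obtain ⟨⟨hq1, hq2⟩, hq3, hq4⟩ := hqp
    have hqm : 2 * m < q := by
      have : (2 * m) ^ 2 < q ^ 2 := lt_of_le_of_lt hx2 hq4
      exact lt_of_pow_lt_pow_left₀ 2 (by omega) this
    have hAr : (3 : ℝ) ≤ A := by exact_mod_cast hA
    have hlog3 : 1 < Real.log 3 := by
      have h1 := Real.exp_one_lt_d9
      rw [Real.lt_log_iff_exp_lt (by norm_num)]
      linarith
    have hlogA : 1 < Real.log A := hlog3.trans_le (Real.log_le_log (by norm_num) hAr)
    -- the part up to `2 ^ j₀`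
    have hK2 : Real.log ((2 ^ j₀ : ℕ) : ℝ) ≤ 3 * Real.log A := by
      have h1 : ((2 ^ j₀ : ℕ) : ℝ) ≤ (A : ℝ) ^ 3 := by
        have h2 : 2 ^ j₀ ≤ A ^ 3 := by
          have h3 : 2 * m ≤ 6 * A := by omega
          have h4 : 6 * A ≤ A ^ 3 := by
            have : 9 ≤ A ^ 2 := by nlinarith
            calc 6 * A ≤ A ^ 2 * A := Nat.mul_le_mul_right A (by omega)
              _ = A ^ 3 := by ring
          omega
        exact_mod_cast h2
      calc Real.log ((2 ^ j₀ : ℕ) : ℝ) ≤ Real.log ((A : ℝ) ^ 3) :=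
            Real.log_le_log (by positivity) h1
        _ = 3 * Real.log A := by
            rw [Real.log_pow]
            norm_num
    have h2jr : (1 : ℝ) ≤ ((2 ^ j₀ : ℕ) : ℝ) := by exact_mod_cast Nat.one_le_two_pow
    have hlogle : Real.log ((2 ^ j₀ : ℕ) : ℝ) ≤ q := by
      have h1 : Real.log ((2 ^ j₀ : ℕ) : ℝ) ≤ ((2 ^ j₀ : ℕ) : ℝ) := by
        have := Real.log_le_sub_one_of_pos (show (0 : ℝ) < ((2 ^ j₀ : ℕ) : ℝ) by linarith)
        linarith
      have h2 : ((2 ^ j₀ : ℕ) : ℝ) ≤ q := by exact_mod_cast (by omega : 2 ^ j₀ ≤ q)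
      linarith
    have h1 := hB b q 3 (2 ^ j₀) hq3 le_rfl (by omega) hlogle
    have h3 : ZS b q 0 (2 ^ j₀) ≤ 2 + (2 * (2 + Real.log (Real.log A)) + CB) := by
      rw [ZS_add b q (2 ^ j₀) (by omega)]
      have h4 : Real.log (Real.log ((2 ^ j₀ : ℕ) : ℝ) / Real.log ((3 : ℕ) : ℝ)) ≤
          2 + Real.log (Real.log A) := by
        have h5 : 0 < Real.log ((2 ^ j₀ : ℕ) : ℝ) := by
          apply Real.log_pos
          exact_mod_cast (by omega : 1 < 2 ^ j₀)
        have h6 : Real.log ((2 ^ j₀ : ℕ) : ℝ) / Real.log ((3 : ℕ) : ℝ) ≤ 3 * Real.log A := by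
          push_cast
          rw [div_le_iff₀ (by linarith)]
          push_cast at hK2
          nlinarith
        have h7 : 0 < Real.log ((2 ^ j₀ : ℕ) : ℝ) / Real.log ((3 : ℕ) : ℝ) := by
          apply div_pos h5
          push_cast
          linarith
        calc Real.log (Real.log ((2 ^ j₀ : ℕ) : ℝ) / Real.log ((3 : ℕ) : ℝ))
            ≤ Real.log (3 * Real.log A) := Real.log_le_log h7 h6
          _ = Real.log 3 + Real.log (Real.log A) :=
              Real.log_mul (by norm_num) (by linarith)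
          _ ≤ 2 + Real.log (Real.log A) := by
              have h8 : Real.log 3 ≤ 3 - 1 := Real.log_le_sub_one_of_pos (by norm_num)
              linarith
      have h5 := ZS_three b q
      linarith
    -- the rest
    have h4 : ∑ j ∈ Ico j₀ (Nat.log 2 (K8 x) + 1), (NB b q j : ℝ) / 2 ^ j ≤ 4 := by
      calc ∑ j ∈ Ico j₀ (Nat.log 2 (K8 x) + 1), (NB b q j : ℝ) / 2 ^ j
          ≤ ∑ j ∈ Ico j₀ (Nat.log 2 (K8 x) + 1),
              (m * (1 / (2 : ℝ) ^ j) + 1 / ((j : ℝ) + 1) ^ 2) := by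
            apply sum_le_sum
            intro j hj
            rw [mem_Ico] at hj
            have h5 : (NB b q j : ℝ) ≤ (m : ℝ) + 2 ^ j / ((j : ℝ) + 1) ^ 2 :=
              hcon j (mem_range.2 hj.2)
            have h6 : (0 : ℝ) < 2 ^ j := by positivity
            rw [div_le_iff₀ h6]
            refine h5.trans (le_of_eq ?_)
            field_simp
        _ = m * ∑ j ∈ Ico j₀ (Nat.log 2 (K8 x) + 1), 1 / (2 : ℝ) ^ j +
              ∑ j ∈ Ico j₀ (Nat.log 2 (K8 x) + 1), 1 / ((j : ℝ) + 1) ^ 2 := by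
            rw [sum_add_distrib, mul_sum]
        _ ≤ 2 + 2 := by
            apply add_le_add
            · have h5 := sum_inv_two_pow_Ico j₀ (Nat.log 2 (K8 x) + 1)
              have h6 : (m : ℝ) ≤ 2 ^ j₀ := by exact_mod_cast h2j.le
              calc m * ∑ j ∈ Ico j₀ (Nat.log 2 (K8 x) + 1), 1 / (2 : ℝ) ^ j
                  ≤ m * (2 / 2 ^ j₀) := mul_le_mul_of_nonneg_left h5 (Nat.cast_nonneg _)
                _ = 2 * (m / 2 ^ j₀) := by ring
                _ ≤ 2 * 1 := by
                    apply mul_le_mul_of_nonneg_left _ (by norm_num)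
                    rw [div_le_one (by positivity)]
                    exact h6
                _ = 2 := by ring
            · calc ∑ j ∈ Ico j₀ (Nat.log 2 (K8 x) + 1), 1 / ((j : ℝ) + 1) ^ 2
                  ≤ ∑ j ∈ range (Nat.log 2 (K8 x) + 1), 1 / ((j : ℝ) + 1) ^ 2 := by
                    apply sum_le_sum_of_subset_of_nonneg
                    · intro j hj
                      rw [mem_Ico] at hj
                      exact mem_range.2 hj.2
                    · intro j _ _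
                      positivity
                _ ≤ 2 := by
                    have h5 := sum_inv_sq (Nat.log 2 (K8 x))
                    have h6 : (0 : ℝ) < 1 / (((Nat.log 2 (K8 x) : ℕ) : ℝ) + 1) := by positivity
                    linarith
        _ = 4 := by norm_num
    have h5 := ZS_split b q (K8 x) j₀
    linarith [hq.2]
  exact_mod_cast card_le_card hsub

end Pool.Agent.Lib.MP_0f858a_nt.KR.SmU
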