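import Mathlib
import Pool.Agent.Lib.MP_0f858a_nt.KR.TyII96
import Pool.Agent.Lib.MP_0f858a_nt.KR.StmtsC84

/-!
MP_0f858a_nt, third part, module TYIIU: the bilinear sums, with a thin exceptional set.
-/

set_option autoImplicit false

namespace Pool.Agent.Lib.MP_0f858a_nt.KR

open Finset Filter
open scoped Classical

theorem ty2u_growth_96 (K : ℝ) (k : ℕ) :
    ∀ᶠ x : ℕ in atTop, K * (Real.log x + 2) ^ k * Real.exp (Real.log x ^ (1 / 8 : ℝ)) ≤
      (WW x : ℝ) := by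
  have h1 : Tendsto (fun x : ℕ => Real.sqrt (Real.log x)) atTop atTop :=
    Real.tendsto_sqrt_atTop.comp (Real.tendsto_log_atTop.comp tendsto_natCast_atTop_atTop)
  have h2 := (Real.tendsto_pow_mul_exp_neg_atTop_nhds_zero (2 * k)).const_mul
    ((|K| * 2 ^ k + 1) * 2 ^ (2 * k))
  rw [mul_zero] at h2
  have h3 := (h2.comp (tendsto_id.atTop_div_const (show (0 : ℝ) < 2 by norm_num))).eventually
    (gt_mem_nhds one_pos)
  have h3' := h3.and (eventually_ge_atTop (16 : ℝ))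
  have h4 := (h1.eventually h3').and (eventually_ge_atTop 1)
  filter_upwards [h4] with x hx
  obtain ⟨⟨h5, h6⟩, h7⟩ := hx
  set u := Real.sqrt (Real.log x) with hu
  simp only [Function.comp, id] at h5
  have hL : 0 ≤ Real.log x := Real.log_nonneg (by exact_mod_cast h7)
  have hu2 : u ^ 2 = Real.log x := Real.sq_sqrt hL
  set v := Real.log x ^ (1 / 8 : ℝ) with hv
  have hv0 : 0 ≤ v := Real.rpow_nonneg hL _
  have hv4 : v ^ 4 = u := by
    rw [hv, hu, Real.sqrt_eq_rpow, ← Real.rpow_natCast, ← Real.rpow_mul hL]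
    norm_num
  have hv2 : 2 ≤ v := by
    by_contra hcon
    push Not at hcon
    have : v ^ 4 < 2 ^ 4 := pow_lt_pow_left₀ hcon hv0 (by norm_num)
    rw [hv4] at this
    linarith
  have hvu : v ≤ u / 2 := by
    rw [← hv4]
    have : 2 * 1 ≤ v * v ^ 2 := by
      have : (1 : ℝ) ≤ v ^ 2 := by nlinarith
      gcongr
    nlinarith
  unfold WW
  have h8 := Nat.lt_floor_add_one (Real.exp (Real.sqrt (Real.log x)))
  rw [← hu] at h8 ⊢
  have h9 : (|K| * 2 ^ k + 1) * u ^ (2 * k) ≤ Real.exp (u / 2) := by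
    have e : Real.exp (-(u / 2)) * Real.exp (u / 2) = 1 := by
      rw [← Real.exp_add]
      simp
    have := mul_le_mul_of_nonneg_right h5.le (Real.exp_pos (u / 2)).le
    calc (|K| * 2 ^ k + 1) * u ^ (2 * k) =
        (|K| * 2 ^ k + 1) * 2 ^ (2 * k) * ((u / 2) ^ (2 * k) * Real.exp (-(u / 2))) *
          Real.exp (u / 2) := by
          rw [mul_assoc, mul_assoc, mul_assoc, e, mul_one, div_pow]
          field_simp
      _ ≤ 1 * Real.exp (u / 2) := this
      _ = _ := one_mul _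
  have h10 : K * (Real.log x + 2) ^ k ≤ |K| * 2 ^ k * u ^ (2 * k) := by
    calc K * (Real.log x + 2) ^ k ≤ |K| * (Real.log x + 2) ^ k := by
          gcongr
          exact le_abs_self K
      _ ≤ |K| * (2 * u ^ 2) ^ k := by
          gcongr
          rw [← hu2]
          nlinarith
      _ = _ := by
          rw [mul_pow, ← pow_mul]
          ring
  have h11 : 1 ≤ u ^ (2 * k) := one_le_pow₀ (by linarith)
  have h12 : K * (Real.log x + 2) ^ k ≤ Real.exp (u / 2) - 1 := by linarith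
  have h13 : 1 ≤ Real.exp (u / 2) := Real.one_le_exp (by linarith)
  have h14 : Real.exp (u / 2) * Real.exp (u / 2) = Real.exp u := by
    rw [← Real.exp_add]
    congr 1
    ring
  calc K * (Real.log x + 2) ^ k * Real.exp v ≤ (Real.exp (u / 2) - 1) * Real.exp v := by
        gcongr
    _ ≤ (Real.exp (u / 2) - 1) * Real.exp (u / 2) := by
        gcongr
    _ = Real.exp u - Real.exp (u / 2) := by rw [← h14]; ring
    _ ≤ _ := by linarith

theorem stTyIIu_96 (hMls : StMls) : StTyIIu := by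
  obtain ⟨C, hC, hM⟩ := hMls
  intro c
  have hev : ∀ᶠ x : ℕ in atTop, (1 * (Real.log x + 2) ^ 2 ≤ (WW x : ℝ)) ∧
      ((768 * C * (2 * c + 1)) ^ 2 * (Real.log x + 2) ^ (2 * 6) *
        Real.exp (Real.log x ^ (1 / 8 : ℝ)) ≤ (WW x : ℝ)) ∧
      (384 * (2 * (c : ℝ) + 1) ≤ Real.log x) ∧ 4 ≤ x :=
    (ty2_growth_96 _ _).and ((ty2u_growth_96 _ _).and
      (((Real.tendsto_log_atTop.comp tendsto_natCast_atTop_atTop).eventually
        (eventually_ge_atTop _)).and (eventually_ge_atTop 4)))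
  obtain ⟨x₀, hx₀⟩ := Filter.eventually_atTop.1 hev
  refine ⟨x₀, fun x hx => ?_⟩
  obtain ⟨g1, g2, g3, g4⟩ := hx₀ x hx
  set L := Real.log x with hL
  set l := ⌈L⌉₊ with hl
  set W := WW x with hW
  have hc0 : (0 : ℝ) ≤ c := Nat.cast_nonneg _
  have hL384 : 384 ≤ L := by linarith
  have hlL : L ≤ l := Nat.le_ceil L
  have hlL' : (l : ℝ) < L + 1 := Nat.ceil_lt_add_one (by linarith)
  have hl384 : (384 : ℝ) ≤ l := by linarith
  have hl384' : 384 ≤ l := by exact_mod_cast hl384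
  have hx0 : (0 : ℝ) < x := by exact_mod_cast (by omega : 0 < x)
  have hxe : (x : ℝ) = Real.exp L := (Real.exp_log hx0).symm
  have hWx' : (W : ℝ) ≤ x := by
    rw [hW]
    unfold WW
    refine (Nat.floor_le (Real.exp_pos _).le).trans ?_
    rw [← hL]
    refine le_trans (Real.exp_le_exp.2 ?_) hxe.ge
    rw [Real.sqrt_le_left (by linarith)]
    nlinarith
  have hWx : W ≤ x := by exact_mod_cast hWx'
  have hWl : (l : ℝ) ^ 2 ≤ W := by nlinarith
  have hW6' : (6 : ℝ) ≤ W := by nlinarith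
  have hW6 : 6 ≤ W := by exact_mod_cast hW6'
  have hxL : 0 ≤ TS x := by
    unfold TS
    positivity
  set b := TT c x with hb
  have hb' : b = x ^ (c * l) := by
    rw [hb]
    unfold TT
    rfl
  by_cases hab : b ≤ x ^ 3
  · have : (Pr x).filter (fun q : ℕ => 1 / 8 < (q : ℝ) * |∑ n ∈ Ioc (x ^ 3) b,
        sg q n * bs W (x ^ 3) n / n|) = ∅ := by
      rw [Finset.filter_eq_empty_iff]
      intro q _
      rw [Finset.Ioc_eq_empty (by omega)]
      simp
    rw [this]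
    simpa using hxL
  push Not at hab
  set D := l ^ 3 with hD
  set I := 3 * D * l + 1 with hI
  set J := 2 * c * l ^ 2 + 1 with hJ
  have hD3 : 3 ≤ D := by
    have : 3 ^ 3 ≤ l ^ 3 := Nat.pow_le_pow_left (by omega) 3
    omega
  have hI' : ∀ p, W < p → p ≤ x ^ 3 → ⌊(D : ℝ) * Real.log p⌋₊ < I := by
    intro p h1 h2
    have hp0 : (0 : ℝ) < p := by exact_mod_cast (by omega : 0 < p)
    have h3 : Real.log p ≤ 3 * L := by
      have : (p : ℝ) ≤ (x : ℝ) ^ 3 := by exact_mod_cast h2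
      have := Real.log_le_log hp0 this
      rw [Real.log_pow] at this
      exact_mod_cast this
    have h4 : (D : ℝ) * Real.log p ≤ ((3 * D * l : ℕ) : ℝ) := by
      push_cast
      have : (0 : ℝ) ≤ D := Nat.cast_nonneg _
      nlinarith
    have := Nat.floor_le_of_le h4
    omega
  have hJ' : ∀ m, m ≤ b → Nat.log 2 (m - 1) < J := by
    intro m hm
    by_cases hm1 : m - 1 = 0
    · rw [hm1]
      simp [hJ]
    · have h1 := Nat.pow_log_le_self 2 hm1
      have := ty2_log_96 b x c l (Nat.log 2 (m - 1)) (by omega) hlL hb' (by omega)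
      omega
  have hK' : ∀ n ∈ Ioc (x ^ 3) b, n.primeFactors.card ≤ J := by
    intro n hn
    rw [Finset.mem_Ioc] at hn
    have h0 := ty2_pf_96 n (by omega)
    have h1 := Nat.pow_log_le_self 2 (show n ≠ 0 by omega)
    have := ty2_log_96 b x c l (Nat.log 2 n) (by omega) hlL hb' (by omega)
    omega
  set Q := (Pr x).filter (fun q : ℕ => 1 / 8 < (q : ℝ) * |∑ n ∈ Ioc (x ^ 3) b,
        sg q n * bs W (x ^ 3) n / n|) with hQdef
  have hQ : ∀ q ∈ Q, q.Prime ∧ 3 ≤ q ∧ q ≤ x := by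
    intro q hq
    rw [hQdef, Finset.mem_filter] at hq
    have h1 := hq.1
    unfold Pr at h1
    rw [Finset.mem_filter, Finset.mem_Icc] at h1
    refine ⟨h1.2.1, ?_, h1.1.2⟩
    by_contra hcon
    have : q ≤ 2 := by omega
    have : q ^ 2 ≤ 2 ^ 2 := Nat.pow_le_pow_left this 2
    omega
  set G : ℕ → ℕ → ℕ → ℝ := fun q i j => |∑ p ∈ ty2A_96 W (x ^ 3) D i,
      ∑ m ∈ ty2B_96 W (x ^ 3) b D i j, sg q (p * m) * be W (x ^ 3) m / ((p : ℝ) * m)| with hG
  have hJr : (J : ℝ) ≤ (2 * c + 1) * l ^ 2 := by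
    rw [hJ]
    push_cast
    nlinarith
  have hx1 : (1 : ℝ) ≤ x := by linarith
  have hbdry : ∀ q ∈ Q, (J : ℝ) * (10 / (D : ℝ) + 14 * q / ((x ^ 3 : ℕ) : ℝ)) ≤ 1 / 16 := by
    intro q hq
    have hqx : (q : ℝ) ≤ x := by exact_mod_cast (hQ q hq).2.2
    have h1 : 14 * (q : ℝ) / ((x ^ 3 : ℕ) : ℝ) ≤ 14 / (D : ℝ) := by
      rw [hD]
      push_cast
      rw [div_le_div_iff₀ (by positivity) (by positivity)]
      have h2 : (l : ℝ) ^ 2 ≤ x := hWl.trans hWx'
      have h3 : (l : ℝ) ^ 3 ≤ (x : ℝ) ^ 2 := by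
        calc (l : ℝ) ^ 3 ≤ (l : ℝ) ^ 4 := by
              apply pow_le_pow_right₀ (by linarith) (by norm_num)
          _ = ((l : ℝ) ^ 2) ^ 2 := by ring
          _ ≤ _ := by gcongr
      calc 14 * (q : ℝ) * (l : ℝ) ^ 3 ≤ 14 * x * (x : ℝ) ^ 2 := by gcongr
        _ = 14 * (x : ℝ) ^ 3 := by ring
    have h4 : 10 / (D : ℝ) + 14 * q / ((x ^ 3 : ℕ) : ℝ) ≤ 24 / (l : ℝ) ^ 3 := by
      have : (10 : ℝ) / D + 14 / D = 24 / (l : ℝ) ^ 3 := by
        rw [hD]
        push_cast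
        ring
      linarith
    calc (J : ℝ) * (10 / (D : ℝ) + 14 * q / ((x ^ 3 : ℕ) : ℝ))
        ≤ ((2 * c + 1) * l ^ 2) * (24 / (l : ℝ) ^ 3) := by gcongr
      _ = 24 * (2 * c + 1) / l := by
          field_simp
      _ ≤ 1 / 16 := by
          rw [div_le_div_iff₀ (by linarith) (by norm_num)]
          linarith
  have hq48 : ∀ q ∈ Q, 1 / 48 ≤ ∑ i ∈ range I, ∑ j ∈ range J, ((q : ℝ) - 1) / 2 * G q i j := by
    intro q hq
    have h1 : 1 / 8 < (q : ℝ) * |∑ n ∈ Ioc (x ^ 3) b, sg q n * bs W (x ^ 3) n / n| := by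
      rw [hQdef, Finset.mem_filter] at hq
      exact hq.2
    have hq3 : (3 : ℝ) ≤ q := by exact_mod_cast (hQ q hq).2.1
    have h2 := ty2_split_96 q W (x ^ 3) (x ^ 3) b D I J (by omega) hI' hJ'
    have h3 := ty2_bd_96 q (x ^ 3) b D J (hQ q hq).2.1 (by omega) (Nat.one_le_pow _ _ (by omega))
      hab.le hK'
    have h4 := hbdry q hq
    have h5 : (q : ℝ) * ∑ i ∈ range I, ∑ j ∈ range J, G q i j ≤
        3 * ∑ i ∈ range I, ∑ j ∈ range J, ((q : ℝ) - 1) / 2 * G q i j := by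
      have e : ∑ i ∈ range I, ∑ j ∈ range J, ((q : ℝ) - 1) / 2 * G q i j =
          ((q : ℝ) - 1) / 2 * ∑ i ∈ range I, ∑ j ∈ range J, G q i j := by
        rw [Finset.mul_sum]
        refine Finset.sum_congr rfl fun i _ => ?_
        rw [Finset.mul_sum]
      rw [e]
      have h0 : 0 ≤ ∑ i ∈ range I, ∑ j ∈ range J, G q i j :=
        Finset.sum_nonneg fun i _ => Finset.sum_nonneg fun j _ => abs_nonneg _
      nlinarith
    have h6 := mul_le_mul_of_nonneg_left h2 (show (0 : ℝ) ≤ q by linarith)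
    rw [mul_add] at h6
    simp only [hG] at h5 ⊢
    linarith
  have hcount : (Q.card : ℝ) * (1 / 48) ≤ I * (J * (C * (4 * x / Real.sqrt W))) := by
    calc (Q.card : ℝ) * (1 / 48) = ∑ q ∈ Q, (1 / 48 : ℝ) := by
          rw [Finset.sum_const, nsmul_eq_mul]
      _ ≤ ∑ q ∈ Q, ∑ i ∈ range I, ∑ j ∈ range J, ((q : ℝ) - 1) / 2 * G q i j :=
          Finset.sum_le_sum hq48
      _ = ∑ i ∈ range I, ∑ j ∈ range J, ∑ q ∈ Q, ((q : ℝ) - 1) / 2 * G q i j := by
          rw [Finset.sum_comm]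
          refine Finset.sum_congr rfl fun i _ => ?_
          rw [Finset.sum_comm]
      _ ≤ ∑ i ∈ range I, ∑ j ∈ range J, C * (4 * x / Real.sqrt W) :=
          Finset.sum_le_sum fun i _ => Finset.sum_le_sum fun j _ =>
            ty2_box2_96 C hC hM x W b D i j hD3 hW6 hWx Q hQ
      _ = I * (J * (C * (4 * x / Real.sqrt W))) := by
          rw [Finset.sum_const, Finset.sum_const, Finset.card_range, Finset.card_range,
            nsmul_eq_mul, nsmul_eq_mul]
  have hIr : (I : ℝ) ≤ 4 * (l : ℝ) ^ 4 := by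
    rw [hI, hD]
    push_cast
    have : (1 : ℝ) ≤ (l : ℝ) ^ 4 := one_le_pow₀ (by linarith)
    nlinarith
  have hsW : 768 * C * (2 * c + 1) * (L + 2) ^ 6 * Real.exp (L ^ (1 / 8 : ℝ) / 2) ≤
      Real.sqrt W := by
    apply Real.le_sqrt_of_sq_le
    refine le_trans (le_of_eq ?_) g2
    have e : Real.exp (L ^ (1 / 8 : ℝ) / 2) ^ 2 = Real.exp (L ^ (1 / 8 : ℝ)) := by
      rw [← Real.exp_nat_mul]
      congr 1
      push_cast
      ring
    rw [mul_pow, mul_pow, ← pow_mul, e]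
  have hs0 : 0 < Real.sqrt W := Real.sqrt_pos.2 (by linarith)
  have hL0 : 0 < L := by linarith
  have hfin : 48 * (I * (J * (C * (4 * x / Real.sqrt W)))) ≤ TS x := by
    calc 48 * ((I : ℝ) * (J * (C * (4 * x / Real.sqrt W))))
        ≤ 48 * (4 * (l : ℝ) ^ 4 * (((2 * c + 1) * l ^ 2) * (C * (4 * x / Real.sqrt W)))) := by
          gcongr
      _ = 768 * C * (2 * c + 1) * (l : ℝ) ^ 6 * x / Real.sqrt W := by ring
      _ ≤ 768 * C * (2 * c + 1) * (L + 2) ^ 6 * x / Real.sqrt W := by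
          gcongr
          linarith
      _ ≤ TS x := by
          unfold TS
          rw [Real.exp_neg, ← hL, ← div_eq_mul_inv, div_le_div_iff₀ hs0 (Real.exp_pos _)]
          calc 768 * C * (2 * c + 1) * (L + 2) ^ 6 * x * Real.exp (L ^ (1 / 8 : ℝ) / 2)
              = x * (768 * C * (2 * c + 1) * (L + 2) ^ 6 * Real.exp (L ^ (1 / 8 : ℝ) / 2)) := by
                ring
            _ ≤ x * Real.sqrt W := by gcongr
  linarith

end Pool.Agent.Lib.MP_0f858a_nt.KR
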