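import Pool.Agent.Lib.MP_0f858a_nt.KR.StmtsB84
import Pool.Agent.Lib.MP_973905_nt.PrimeSum

/-!
MP_0f858a_nt (Kummer ratio), second part: module B4 VAR (the variance of an upper bound sieve).
-/

set_option autoImplicit false

namespace Pool.Agent.Lib.MP_0f858a_nt.KR

open Finset Filter
open scoped Classical

namespace V27

/-- the sum of the reciprocals of the primes up to `z` -/
theorem sum_primes : ∃ C : ℝ, 0 < C ∧ ∀ z0 z : ℕ, 2 ≤ z →
    ∑ p ∈ Pz2 z0 z, 1 / (p : ℝ) ≤ Real.log (Real.log z) + C := by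
  obtain ⟨C, hC, h⟩ := MP_973905_nt.sum_inv
  refine ⟨C, hC, fun z0 z hz => ?_⟩
  have h1 := (abs_le.1 (h z (by exact_mod_cast hz))).2
  have h2 : ∑ p ∈ Pz2 z0 z, 1 / (p : ℝ) ≤ ∑ p ∈ MP_973905_nt.PS 0 z, (1 : ℝ) / p := by
    refine Finset.sum_le_sum_of_subset_of_nonneg ?_ (fun _ _ _ => by positivity)
    intro p hp
    unfold Pz2 at hp
    unfold MP_973905_nt.PS
    rw [Finset.mem_filter, Finset.mem_Ioc] at hp ⊢
    rw [Nat.floor_zero, Nat.floor_natCast]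
    exact ⟨⟨by omega, hp.1.2⟩, hp.2⟩
  linarith

/-- the product of the primes of a set -/
theorem prod_pos {D : Finset ℕ} (hD : ∀ p ∈ D, p.Prime) : 0 < ∏ p ∈ D, p :=
  Finset.prod_pos fun p hp => (hD p hp).pos

theorem prod_inj {D D' : Finset ℕ} (hD : ∀ p ∈ D, p.Prime) (hD' : ∀ p ∈ D', p.Prime)
    (h : ∏ p ∈ D, p = ∏ p ∈ D', p) : D = D' := by
  rw [← Nat.primeFactors_prod hD, ← Nat.primeFactors_prod hD', h]

theorem two_pow_le {D : Finset ℕ} (hD : ∀ p ∈ D, p.Prime) : 2 ^ D.card ≤ ∏ p ∈ D, p := by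
  rw [← Finset.prod_const]
  exact Finset.prod_le_prod' fun p hp => (hD p hp).two_le

/-- the sum over the first set -/
theorem sum_first {P D' : Finset ℕ} (hD' : D' ⊆ P) :
    ∑ D ∈ P.powerset, 1 / ((∏ p ∈ D ∪ D', p : ℕ) : ℝ) ≤
      1 / ((∏ p ∈ D', p : ℕ) : ℝ) * (2 ^ D'.card * ∏ p ∈ P, (1 + 1 / (p : ℝ))) := by
  have h1 : ∀ D ∈ P.powerset, 1 / ((∏ p ∈ D ∪ D', p : ℕ) : ℝ) =
      1 / ((∏ p ∈ D', p : ℕ) : ℝ) * ∏ p ∈ D, (if p ∈ D' then (1 : ℝ) else 1 / (p : ℝ)) := by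
    intro D hD
    have h2 : ∏ p ∈ D, (if p ∈ D' then (1 : ℝ) else 1 / (p : ℝ)) = ∏ p ∈ D \ D', 1 / (p : ℝ) := by
      rw [Finset.prod_ite, Finset.prod_const_one, one_mul]
      congr 1
      ext p
      simp
    have h3 : D ∪ D' = D' ∪ (D \ D') := by
      ext p
      simp only [Finset.mem_union, Finset.mem_sdiff]
      tauto
    rw [h2, h3, Finset.prod_union Finset.disjoint_sdiff]
    push_cast
    rw [Finset.prod_div_distrib, Finset.prod_const_one, one_div_mul_one_div]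
  rw [Finset.sum_congr rfl h1, ← Finset.mul_sum]
  refine mul_le_mul_of_nonneg_left ?_ (by positivity)
  have h4 := Finset.prod_one_add (s := P) (f := fun p => if p ∈ D' then (1 : ℝ) else 1 / (p : ℝ))
  rw [← h4]
  have h5 : (2 : ℝ) ^ D'.card = ∏ p ∈ P, (if p ∈ D' then (2 : ℝ) else 1) := by
    rw [Finset.prod_ite, Finset.prod_const_one, mul_one, Finset.prod_const]
    congr 2
    ext p
    simp only [Finset.mem_filter]
    exact ⟨fun h => ⟨hD' h, h⟩, fun h => h.2⟩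
  rw [h5, ← Finset.prod_mul_distrib]
  refine Finset.prod_le_prod (fun p _ => by split_ifs <;> positivity) fun p _ => ?_
  split_ifs
  · have : (0 : ℝ) ≤ 1 / (p : ℝ) := by positivity
    linarith
  · linarith

theorem part1 (P : Finset ℕ) :
    ∑ D ∈ P.powerset, ∑ D' ∈ P.powerset, 2 ^ D'.card * (1 / ((∏ p ∈ D ∪ D', p : ℕ) : ℝ)) ≤
      Real.exp (5 * ∑ p ∈ P, 1 / (p : ℝ)) := by
  rw [Finset.sum_comm]
  have h1 : ∀ D' ∈ P.powerset, ∑ D ∈ P.powerset,
      2 ^ D'.card * (1 / ((∏ p ∈ D ∪ D', p : ℕ) : ℝ)) ≤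
      (∏ p ∈ P, (1 + 1 / (p : ℝ))) * ∏ p ∈ D', (4 / (p : ℝ)) := by
    intro D' hD'
    rw [← Finset.mul_sum]
    have h2 := mul_le_mul_of_nonneg_left (sum_first (Finset.mem_powerset.1 hD'))
      (by positivity : (0 : ℝ) ≤ 2 ^ D'.card)
    refine h2.trans (le_of_eq ?_)
    have h3 : ∏ p ∈ D', (4 / (p : ℝ)) = 2 ^ D'.card * 2 ^ D'.card *
        (1 / ((∏ p ∈ D', p : ℕ) : ℝ)) := by
      rw [Finset.prod_div_distrib, Finset.prod_const]
      push_cast
      rw [← mul_pow]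
      norm_num
      ring
    rw [h3]
    ring
  refine (Finset.sum_le_sum h1).trans ?_
  rw [← Finset.mul_sum, ← Finset.prod_one_add, ← Finset.prod_mul_distrib]
  rw [Finset.mul_sum, Real.exp_sum]
  refine Finset.prod_le_prod (fun p _ => by positivity) fun p _ => ?_
  have h4 : 1 + 1 / (p : ℝ) ≤ Real.exp (1 / p) := by
    have := Real.add_one_le_exp (1 / (p : ℝ))
    linarith
  have h5 : 1 + 4 / (p : ℝ) ≤ Real.exp (4 / p) := by
    have := Real.add_one_le_exp (4 / (p : ℝ))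
    linarith
  calc (1 + 1 / (p : ℝ)) * (1 + 4 / (p : ℝ)) ≤ Real.exp (1 / p) * Real.exp (4 / p) := by gcongr
    _ = Real.exp (5 * (1 / p)) := by
      rw [← Real.exp_add]
      congr 1
      ring

theorem part2 {P : Finset ℕ} (hP : ∀ p ∈ P, p.Prime) {R : ℕ} {U : Finset ℕ → ℝ}
    (hR : ∀ D, D ⊆ P → U D ≠ 0 → ∏ p ∈ D, p ≤ R) :
    ∑ D ∈ P.powerset.filter (fun D => U D ≠ 0), ∑ D' ∈ P.powerset.filter (fun D => U D ≠ 0),
      (2 : ℝ) ^ D'.card ≤ (R : ℝ) ^ 3 := by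
  have hc : (P.powerset.filter (fun D => U D ≠ 0)).card ≤ R := by
    have h1 : (P.powerset.filter (fun D => U D ≠ 0)).card ≤ (Icc 1 R).card := by
      refine Finset.card_le_card_of_injOn (fun D => ∏ p ∈ D, p) ?_ ?_
      · intro D hD
        rw [Finset.mem_coe, Finset.mem_filter, Finset.mem_powerset] at hD
        rw [Finset.mem_coe, Finset.mem_Icc]
        exact ⟨prod_pos fun p hp => hP p (hD.1 hp), hR D hD.1 hD.2⟩
      · intro D hD D' hD' h
        rw [Finset.mem_coe, Finset.mem_filter, Finset.mem_powerset] at hD hD'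
        exact prod_inj (fun p hp => hP p (hD.1 hp)) (fun p hp => hP p (hD'.1 hp)) h
    rwa [Nat.card_Icc, Nat.add_sub_cancel] at h1
  have hcr : ((P.powerset.filter (fun D => U D ≠ 0)).card : ℝ) ≤ R := by exact_mod_cast hc
  have h2 : ∀ D' ∈ P.powerset.filter (fun D => U D ≠ 0), (2 : ℝ) ^ D'.card ≤ R := by
    intro D' hD'
    rw [Finset.mem_filter, Finset.mem_powerset] at hD'
    have h3 := (two_pow_le fun p hp => hP p (hD'.1 hp)).trans (hR D' hD'.1 hD'.2)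
    exact_mod_cast h3
  have h4 : ∑ D' ∈ P.powerset.filter (fun D => U D ≠ 0), (2 : ℝ) ^ D'.card ≤ R * R := by
    refine (Finset.sum_le_sum h2).trans ?_
    rw [Finset.sum_const, nsmul_eq_mul]
    gcongr
  rw [Finset.sum_const, nsmul_eq_mul]
  calc ((P.powerset.filter (fun D => U D ≠ 0)).card : ℝ) *
      ∑ D' ∈ P.powerset.filter (fun D => U D ≠ 0), (2 : ℝ) ^ D'.card ≤ R * (R * R) := by gcongr
    _ = (R : ℝ) ^ 3 := by ring

end V27

theorem stVar_27 (hSdd : StSdd) : StVar := by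
  obtain ⟨C0, hC0, hsum⟩ := V27.sum_primes
  refine ⟨2 * Real.exp (5 * C0), by positivity, fun b K x z0 z R U hK hz hU hR => ?_⟩
  set P := Pz2 z0 z with hP
  have hPp : ∀ p ∈ P, p.Prime := fun p hp => (Finset.mem_filter.1 hp).2
  set T := P.powerset.filter (fun D => U D ≠ 0) with hT
  have h1 : ∀ n, (∑ D ∈ P.powerset, U D * rho b K D n) = ∑ D ∈ T, U D * rho b K D n := by
    intro n
    rw [hT, Finset.sum_filter]
    refine Finset.sum_congr rfl fun D _ => ?_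
    split_ifs with h
    · rfl
    · rw [not_not] at h
      rw [h, zero_mul]
  have h2 : ∑ n ∈ Icc 1 x, (∑ D ∈ P.powerset, U D * rho b K D n) ^ 2 =
      ∑ D ∈ T, ∑ D' ∈ T, U D * U D' * ∑ n ∈ Icc 1 x, rho b K D n * rho b K D' n := by
    have h3 : ∀ n ∈ Icc 1 x, (∑ D ∈ P.powerset, U D * rho b K D n) ^ 2 =
        ∑ D ∈ T, ∑ D' ∈ T, U D * U D' * (rho b K D n * rho b K D' n) := by
      intro n _
      rw [h1, sq, Finset.sum_mul_sum]
      refine Finset.sum_congr rfl fun D _ => Finset.sum_congr rfl fun D' _ => ?_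
      ring
    rw [Finset.sum_congr rfl h3, Finset.sum_comm]
    refine Finset.sum_congr rfl fun D _ => ?_
    rw [Finset.sum_comm]
    refine Finset.sum_congr rfl fun D' _ => ?_
    rw [Finset.mul_sum]
  rw [h2]
  have hKr : (1 : ℝ) ≤ K := by exact_mod_cast hK
  have h4 : ∀ D ∈ T, ∀ D' ∈ T, U D * U D' * ∑ n ∈ Icc 1 x, rho b K D n * rho b K D' n ≤
      2 * K * x * (2 ^ D'.card * (1 / ((∏ p ∈ D ∪ D', p : ℕ) : ℝ))) +
        4 * (K : ℝ) ^ 2 * 2 ^ D'.card := by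
    intro D hD D' hD'
    rw [hT, Finset.mem_filter, Finset.mem_powerset] at hD hD'
    have h5 := hSdd b K x D D' hK (fun p hp => hPp p (hD.1 hp)) (fun p hp => hPp p (hD'.1 hp))
    have h6 : U D * U D' * ∑ n ∈ Icc 1 x, rho b K D n * rho b K D' n ≤
        1 * 1 * |∑ n ∈ Icc 1 x, rho b K D n * rho b K D' n| := by
      refine (le_abs_self _).trans ?_
      rw [abs_mul, abs_mul]
      have := hU D
      have := hU D'
      gcongr
    refine h6.trans ?_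
    rw [one_mul, one_mul]
    refine h5.trans (le_of_eq ?_)
    ring
  refine (Finset.sum_le_sum fun D hD => Finset.sum_le_sum (h4 D hD)).trans ?_
  have h7 : ∑ D ∈ T, ∑ D' ∈ T, (2 * K * x * (2 ^ D'.card * (1 / ((∏ p ∈ D ∪ D', p : ℕ) : ℝ))) +
      4 * (K : ℝ) ^ 2 * 2 ^ D'.card) =
      2 * K * x * ∑ D ∈ T, ∑ D' ∈ T, 2 ^ D'.card * (1 / ((∏ p ∈ D ∪ D', p : ℕ) : ℝ)) +
        4 * (K : ℝ) ^ 2 * ∑ D ∈ T, ∑ D' ∈ T, (2 : ℝ) ^ D'.card := by
    rw [Finset.mul_sum, Finset.mul_sum, ← Finset.sum_add_distrib]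
    refine Finset.sum_congr rfl fun D _ => ?_
    rw [Finset.mul_sum, Finset.mul_sum, ← Finset.sum_add_distrib]
  rw [h7]
  have h8 : ∑ D ∈ T, ∑ D' ∈ T, (2 : ℝ) ^ D'.card * (1 / ((∏ p ∈ D ∪ D', p : ℕ) : ℝ)) ≤
      Real.exp (5 * C0) * Real.log z ^ 5 := by
    have h9 : ∑ D ∈ T, ∑ D' ∈ T, (2 : ℝ) ^ D'.card * (1 / ((∏ p ∈ D ∪ D', p : ℕ) : ℝ)) ≤
        ∑ D ∈ P.powerset, ∑ D' ∈ P.powerset,
          2 ^ D'.card * (1 / ((∏ p ∈ D ∪ D', p : ℕ) : ℝ)) := by
      refine (Finset.sum_le_sum fun D _ => Finset.sum_le_sum_of_subset_of_nonneg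
        (Finset.filter_subset _ _) (fun _ _ _ => by positivity)).trans ?_
      exact Finset.sum_le_sum_of_subset_of_nonneg (Finset.filter_subset _ _)
        (fun _ _ _ => Finset.sum_nonneg fun _ _ => by positivity)
    refine h9.trans ((V27.part1 P).trans ?_)
    have hlz : 0 < Real.log z := Real.log_pos (by exact_mod_cast (by omega : 1 < z))
    have h10 : Real.log z ^ 5 = Real.exp (5 * Real.log (Real.log z)) := by
      rw [mul_comm, Real.exp_mul, Real.exp_log hlz]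
      norm_cast
    rw [h10, ← Real.exp_add]
    refine Real.exp_le_exp.2 ?_
    have := hsum z0 z hz
    linarith
  have h11 := V27.part2 hPp hR
  have h12 : 2 * (K : ℝ) * x * ∑ D ∈ T, ∑ D' ∈ T,
      2 ^ D'.card * (1 / ((∏ p ∈ D ∪ D', p : ℕ) : ℝ)) ≤
      2 * K * x * (Real.exp (5 * C0) * Real.log z ^ 5) := by gcongr
  have h13 : 4 * (K : ℝ) ^ 2 * ∑ D ∈ T, ∑ D' ∈ T, (2 : ℝ) ^ D'.card ≤
      4 * (K : ℝ) ^ 2 * (R : ℝ) ^ 3 := by gcongr
  linarith

end Pool.Agent.Lib.MP_0f858a_nt.KR
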