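import Pool.Agent.Lib.MP_0f858a_nt.KR.PubU84
import Pool.Agent.Lib.MP_0f858a_nt.KR.Tail12
import Pool.Agent.Lib.MP_0f858a_nt.KR.TyI12
import Pool.Agent.Lib.MP_0f858a_nt.KR.Rsh12
import Pool.Agent.Lib.MP_0f858a_nt.KR.Eul12
import Pool.Agent.Lib.MP_0f858a_nt.KR.Lone12
import Pool.Agent.Lib.MP_0f858a_nt.KR.Rs1
import Pool.Agent.Lib.MP_0f858a_nt.KR.Logp1
import Pool.Agent.Lib.MP_0f858a_nt.KR.Pp38
import Pool.Agent.Lib.MP_0f858a_nt.KR.Ram38
import Pool.Agent.Lib.MP_0f858a_nt.KR.Sqr38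
import Pool.Agent.Lib.MP_0f858a_nt.KR.LogE27
import Pool.Agent.Lib.MP_0f858a_nt.KR.Bt27
import Pool.Agent.Lib.MP_0f858a_nt.KR.Bts96
import Pool.Agent.Lib.MP_0f858a_nt.KR.Mls53
import Pool.Agent.Lib.MP_0f858a_nt.KR.SV61
import Pool.Agent.Lib.MP_0f858a_nt.KR.Secu84
import Pool.Agent.Lib.MP_0f858a_nt.KR.TyIIu96
import Pool.Agent.Lib.MP_0f858a_nt.KR.Fstu96
import Pool.Agent.Lib.MP_0f858a_nt.KR.Leg12
import Pool.Agent.Lib.MP_0f858a_nt.KR.La38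
import Pool.Agent.Lib.MP_0f858a_nt.KR.Sdd96
import Pool.Agent.Lib.MP_0f858a_nt.KR.Var27
import Pool.Agent.Lib.MP_0f858a_nt.KR.Midu84
import Pool.Agent.Lib.MP_0f858a_nt.KR.Smlu84

/-!
MP_0f858a_nt: the modules of the uniform theorem together.
-/

set_option autoImplicit false

namespace Pool.Agent.Lib.MP_0f858a_nt.KR

theorem rshU84 : StRsh := stRsh_12 stRs_1

theorem tailU84 : StTail := stTail_12 (stEul_12 stLone_12) rshU84

theorem secU84 : StSecu := stSecu_84 tailU84 stMls_53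

theorem fstU84 : StFstu :=
  stFstu_96 tailU84 stRam_38 (stTyI_12 rshU84) stSqr_38 (stTyIIu_96 stMls_53)

theorem btsU84 : StBts := stBts_96 stBt_27

theorem logpU84 : StLogp := stLogp_1 stPp_38

theorem varU84 : StVar := stVar_27 (stSdd_96 (stLa_38 stLeg_12))

theorem mainu84 : StMainu :=
  stMainu_84 logpU84 stLoge_27 btsU84 secU84 fstU84 (SmU.stSmlu_84 stSv_61 btsU84) (stMidu_84 varU84)

end Pool.Agent.Lib.MP_0f858a_nt.KR
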