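import Pool.Agent.Lib.MP_0f858a_nt.KR.Step84

/-!
MP_0f858a_nt, MID: the number of the primes `q` of a residue class with several `k q ± 1` prime.
-/

set_option autoImplicit false

namespace Pool.Agent.Lib.MP_0f858a_nt.KR

open Finset
open scoped Classical

/-- the conclusion of the sieve with the constant `C` -/
def SvC (C : ℝ) : Prop := ∀ (w z₀ X Δ : ℕ) (S : Finset ℕ), 2 ≤ w → 2 * w ≤ z₀ →
  Δ ≠ 0 → C * w * Real.log z₀ ≤ Real.log X → (∀ n ∈ S, n < X) →
  (∀ l : ℕ, l.Prime → z₀ < l → l ^ w ≤ X → ¬ l ∣ Δ →
    ∃ R : Finset (ZMod l), R.card = w ∧ ∀ n ∈ S, (n : ZMod l) ∉ R) →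
  (S.card : ℝ) ≤ X * (C * w * Real.log z₀ / Real.log X) ^ w * Real.exp (w * fD z₀ Δ)

/-- the primes of the class `a` with all `k q ± 1` prime -/
noncomputable def SA (b : Bool) (x M a : ℕ) (l : List ℕ) : Finset ℕ :=
  (Pr x).filter fun q => q % M = a ∧ ∀ k ∈ l, (pk b q k).Prime

theorem cnt (C : ℝ) (hSv : SvC C) (b : Bool) (x M a w z₀ : ℕ) (hM : 0 < M)
    (hMz : ∀ l : ℕ, l.Prime → z₀ < l → ¬ l ∣ M) (hw : 2 ≤ w) (hwz : 2 * w ≤ z₀)
    (hX : C * w * Real.log z₀ ≤ Real.log ((x / M + 1 : ℕ) : ℝ)) (hXx : x / M + 1 ≤ x) (l : List ℕ)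
    (hl : l.Nodup) (hlen : l.length + 1 = w) (hl2 : ∀ k ∈ l, 2 ≤ k) :
    ((SA b x M a l).card : ℝ) ≤ ((x / M + 1 : ℕ) : ℝ) *
      (C * w * Real.log z₀ / Real.log ((x / M + 1 : ℕ) : ℝ)) ^ w * Real.exp (w * fD z₀ (DL l)) := by
  set S := (SA b x M a l).image (fun q => q / M) with hS
  have hinj : Set.InjOn (fun q => q / M) (SA b x M a l : Finset ℕ) := by
    intro q hq q' hq' h
    simp only at h
    have h1 := (mem_filter.mp (mem_coe.mp hq)).2.1
    have h2 := (mem_filter.mp (mem_coe.mp hq')).2.1
    rw [← Nat.div_add_mod q M, ← Nat.div_add_mod q' M, h, h1, h2]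
  have hcard : S.card = (SA b x M a l).card := card_image_of_injOn hinj
  rw [← hcard]
  refine hSv w z₀ (x / M + 1) (DL l) S hw hwz
    (DL_ne_zero l hl fun k hk => by have := hl2 k hk; omega) hX ?_ ?_
  · intro n hn
    obtain ⟨q, hq, rfl⟩ := mem_image.mp hn
    have h1 := (mem_filter.mp hq).1
    unfold Pr at h1
    rw [mem_filter, mem_Icc] at h1
    exact Nat.lt_succ_of_le (Nat.div_le_div_right h1.1.2)
  · intro r hr hzr hrw hrD
    haveI : Fact r.Prime := ⟨hr⟩
    have hMr : (M : ZMod r) ≠ 0 := by
      rw [Ne, ZMod.natCast_eq_zero_iff]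
      exact hMz r hr hzr
    have hkr : ∀ k ∈ l, (k : ZMod r) ≠ 0 := by
      intro k hk
      rw [Ne, ZMod.natCast_eq_zero_iff]
      exact fun h => hrD (h.trans (dvd_DL l k hk))
    set e : ZMod r := if b then -1 else 1 with he
    have he0 : e ≠ 0 := by
      rw [he]
      split_ifs
      · exact neg_ne_zero.mpr one_ne_zero
      · exact one_ne_zero
    have hinjk : Set.InjOn (fun k : ℕ => e / (k : ZMod r)) (l.toFinset : Finset ℕ) := by
      intro k hk k' hk' h
      rw [mem_coe, List.mem_toFinset] at hk hk'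
      simp only at h
      by_contra hne
      have h1 := hkr k hk
      have h2 := hkr k' hk'
      rw [div_eq_div_iff h1 h2] at h
      have h3 : (k' : ZMod r) = (k : ZMod r) := mul_left_cancel₀ he0 h
      rw [ZMod.natCast_eq_natCast_iff] at h3
      apply hrD
      refine Dvd.dvd.trans ?_ (df_dvd_DL l k k' hk hk' hne)
      unfold df
      rcases le_total k k' with h4 | h4
      · rw [Nat.sub_eq_zero_of_le h4, zero_add]
        exact (Nat.modEq_iff_dvd' h4).mp h3.symm
      · rw [Nat.sub_eq_zero_of_le h4, add_zero]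
        exact (Nat.modEq_iff_dvd' h4).mp h3
    set V : Finset (ZMod r) := insert 0 (l.toFinset.image (fun k : ℕ => e / (k : ZMod r))) with hV
    have hVcard : V.card = w := by
      rw [hV, card_insert_of_notMem, card_image_of_injOn hinjk, List.toFinset_card_of_nodup hl,
        hlen]
      intro h0
      obtain ⟨k, hk, h1⟩ := mem_image.mp h0
      rw [List.mem_toFinset] at hk
      exact div_ne_zero he0 (hkr k hk) h1
    have hinjV : Function.Injective (fun v : ZMod r => (v - (a : ZMod r)) / (M : ZMod r)) := by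
      intro v v' h
      simp only at h
      rw [div_left_inj' hMr] at h
      exact sub_left_injective h
    refine ⟨V.image (fun v => (v - (a : ZMod r)) / (M : ZMod r)), ?_, ?_⟩
    · rw [card_image_of_injective _ hinjV, hVcard]
    · intro n hn hmem
      obtain ⟨q, hq, rfl⟩ := mem_image.mp hn
      rw [SA, mem_filter] at hq
      obtain ⟨hqP, hqa, hqk⟩ := hq
      unfold Pr at hqP
      rw [mem_filter, mem_Icc] at hqP
      obtain ⟨⟨hq1, hqx⟩, hqp, hqx2⟩ := hqP
      have hrq : r < q := by
        have h1 : r ^ 2 ≤ r ^ w := Nat.pow_le_pow_right hr.pos hw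
        have h2 : r ^ 2 < q ^ 2 := by omega
        exact lt_of_pow_lt_pow_left₀ 2 (Nat.zero_le _) h2
      obtain ⟨v, hv, h1⟩ := mem_image.mp hmem
      have h2 : (q : ZMod r) = v := by
        have h3 : (q : ZMod r) = (M : ZMod r) * ((q / M : ℕ) : ZMod r) + (a : ZMod r) := by
          conv_lhs => rw [← Nat.div_add_mod q M, hqa]
          push_cast
          ring
        rw [h3, ← h1]
        field_simp
        ring
      rw [hV, mem_insert] at hv
      rcases hv with hv | hv
      · rw [hv, ZMod.natCast_eq_zero_iff] at h2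
        have := (Nat.prime_dvd_prime_iff_eq hr hqp).mp h2
        omega
      · obtain ⟨k, hk, h3⟩ := mem_image.mp hv
        rw [List.mem_toFinset] at hk
        have hk2 := hl2 k hk
        have h4 : (k : ZMod r) * (q : ZMod r) = e := by
          rw [h2, ← h3]
          have := hkr k hk
          field_simp
        have h5 : r ∣ pk b q k := by
          rw [← ZMod.natCast_eq_zero_iff]
          unfold pk
          cases b with
          | true =>
            simp only [if_true]
            push_cast
            rw [h4, he]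
            simp
          | false =>
            have h6 : 1 ≤ k * q := Nat.mul_pos (by omega) (by omega)
            simp only [Bool.false_eq_true, if_false]
            rw [Nat.cast_sub h6]
            push_cast
            rw [h4, he]
            simp
        have h6 := (Nat.prime_dvd_prime_iff_eq hr (hqk k hk)).mp h5
        have h7 : q < pk b q k := by
          have h8 : 2 * q ≤ k * q := Nat.mul_le_mul_right _ hk2
          unfold pk
          have := hr.two_le
          split_ifs <;> omega
        omega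

end Pool.Agent.Lib.MP_0f858a_nt.KR
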