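import Pool.Agent.Lib.MP_0f858a_nt.KR.Stmts84

/-!
MP_0f858a_nt, MAIN: the bound of the Kummer ratio outside the exceptional sets.
-/

set_option autoImplicit false

namespace Pool.Agent.Lib.MP_0f858a_nt.KR

open Finset Filter
open scoped Classical

theorem PY_ne_zero {q : ℕ} (y : ℕ) (χ : DirichletCharacter ℂ q) : PY y χ ≠ 0 := by
  unfold PY
  refine prod_ne_zero_iff.mpr fun p hp h => ?_
  rw [mem_filter] at hp
  have h2 : (2 : ℝ) ≤ p := by exact_mod_cast hp.2.two_le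
  have h1 : ‖χ p / (p : ℂ)‖ ≤ 1 / 2 := by
    rw [norm_div, Complex.norm_natCast]
    calc ‖χ p‖ / (p : ℝ) ≤ 1 / 2 := div_le_div₀ zero_le_one (χ.norm_le_one p) (by norm_num) h2
      _ = _ := rfl
  rw [sub_eq_zero] at h
  rw [← h, norm_one] at h1
  norm_num at h1

theorem log_RR (q : ℕ) [NeZero q] (y : ℕ) (h : ∀ χ ∈ odd q, EE y χ ≠ 0) :
    0 < RR q ∧ Real.log (RR q) =
      ∑ χ ∈ odd q, Real.log ‖EE y χ‖ - ∑ χ ∈ odd q, Real.log ‖PY y χ‖ := by
  have hL : ∀ χ ∈ odd q, DirichletCharacter.LFunction χ 1 ≠ 0 := fun χ hχ h0 => by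
    apply h χ hχ
    unfold EE
    rw [h0, zero_mul]
  have hR : RR q = ∏ χ ∈ odd q, ‖DirichletCharacter.LFunction χ 1‖ := by
    unfold RR
    rw [dif_neg (NeZero.ne q), norm_prod]
  refine ⟨?_, ?_⟩
  · rw [hR]
    exact prod_pos fun χ hχ => norm_pos_iff.mpr (hL χ hχ)
  · rw [hR, Real.log_prod fun χ hχ => norm_ne_zero_iff.mpr (hL χ hχ), ← sum_sub_distrib]
    refine sum_congr rfl fun χ hχ => ?_
    unfold EE
    rw [norm_mul, Real.log_mul (norm_ne_zero_iff.mpr (hL χ hχ))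
      (norm_ne_zero_iff.mpr (PY_ne_zero y χ))]
    ring

theorem ZS_split (b : Bool) (q k₀ k₁ k₂ : ℕ) (h1 : k₀ ≤ k₁) (h2 : k₁ ≤ k₂) :
    ZS b q k₀ k₂ = ZS b q k₀ k₁ + ZS b q k₁ k₂ := by
  unfold ZS
  rw [sum_filter, sum_filter, sum_filter, sum_Ioc_consecutive _ h1 h2]

/-- the end point of the middle range -/
noncomputable def KK (C : ℝ) (x s : ℕ) : ℕ := ⌊Real.exp (Real.log x / (C * s))⌋₊

/-- the conditions on `x` -/
def Lg (A B : ℕ) (C : ℝ) (x : ℕ) : Prop :=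
  9 ≤ x ∧ 1 ≤ Real.log (Real.log x) ∧
    C * B * Real.log (Real.log x) * (Real.log x ^ (1 / 8 : ℝ) + 2) ≤ Real.log x ∧
    3 * Real.log x ≤ Real.sqrt x ∧ Real.sqrt x * Real.log x ^ A ≤ x

theorem lg_ev (A B : ℕ) (C : ℝ) (hC : 0 ≤ C) : ∀ᶠ x : ℕ in atTop, Lg A B C x := by
  have hT1 : Tendsto (fun x : ℕ => Real.log x) atTop atTop :=
    Real.tendsto_log_atTop.comp tendsto_natCast_atTop_atTop
  have hT : Tendsto (fun x : ℕ => Real.log (Real.log x)) atTop atTop :=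
    Real.tendsto_log_atTop.comp hT1
  have hK : (0 : ℝ) < 1 / (3 * (C * B + 1)) := by positivity
  have h1 := (isLittleO_pow_exp_pos_mul_atTop (k := 1) (b := (1 / 8 : ℝ)) (by norm_num)).bound hK
  have h2 := (isLittleO_pow_exp_pos_mul_atTop (k := 1) (b := (1 / 2 : ℝ)) (by norm_num)).bound
    (by norm_num : (0 : ℝ) < 1 / 3)
  have h3 := (isLittleO_pow_exp_pos_mul_atTop (k := A) (b := (1 / 2 : ℝ)) (by norm_num)).bound
    (by norm_num : (0 : ℝ) < 1)
  filter_upwards [hT.eventually (h1.and (eventually_ge_atTop 1)),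
    hT1.eventually (h2.and (h3.and (eventually_ge_atTop 1))), eventually_ge_atTop 9]
    with x ⟨e1, e2⟩ ⟨e3, e4, e5⟩ e6
  set L := Real.log x with hL
  set t := Real.log L with ht
  have hL0 : 0 < L := by linarith
  have hx0 : (0 : ℝ) < x := by exact_mod_cast (by omega : 0 < x)
  have hxL : (x : ℝ) = Real.exp L := (Real.exp_log hx0).symm
  have hLt : L = Real.exp t := by rw [ht, Real.exp_log hL0]
  have hL8 : L ^ (1 / 8 : ℝ) = Real.exp (1 / 8 * t) := by
    rw [hLt, ← Real.exp_mul]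
    congr 1
    ring
  have hsq : Real.sqrt x = Real.exp (1 / 2 * L) := by
    have : (x : ℝ) = Real.exp (1 / 2 * L) ^ 2 := by
      rw [← Real.exp_nat_mul, hxL]
      congr 1
      push_cast
      ring
    rw [this, Real.sqrt_sq (Real.exp_pos _).le]
  rw [Real.norm_eq_abs, Real.norm_eq_abs, abs_of_pos (Real.exp_pos _),
    abs_of_nonneg (by positivity)] at e1 e3 e4
  refine ⟨e6, e2, ?_, ?_, ?_⟩
  · rw [pow_one] at e1
    have b1 : C * B * t ≤ Real.exp (1 / 8 * t) / 3 := by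
      calc C * B * t ≤ (C * B + 1) * t := by linarith
        _ ≤ (C * B + 1) * (1 / (3 * (C * B + 1)) * Real.exp (1 / 8 * t)) := by gcongr
        _ = _ := by field_simp
    have b2 : 1 ≤ Real.exp (1 / 8 * t) := Real.one_le_exp (by linarith)
    rw [hL8]
    calc C * B * t * (Real.exp (1 / 8 * t) + 2)
        ≤ Real.exp (1 / 8 * t) / 3 * (3 * Real.exp (1 / 8 * t)) := by
          refine mul_le_mul b1 (by linarith) (by positivity) (by positivity)
      _ = Real.exp (1 / 4 * t) := by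
          rw [show (1 / 4 * t) = 1 / 8 * t + 1 / 8 * t by ring, Real.exp_add]
          ring
      _ ≤ L := by
          conv_rhs => rw [hLt]
          exact Real.exp_le_exp.mpr (by linarith)
  · rw [pow_one] at e3
    rw [hsq]
    linarith
  · rw [hsq]
    have b3 : (x : ℝ) = Real.exp (1 / 2 * L) * Real.exp (1 / 2 * L) := by
      rw [← Real.exp_add, hxL]
      congr 1
      ring
    calc Real.exp (1 / 2 * L) * L ^ A ≤ Real.exp (1 / 2 * L) * (1 * Real.exp (1 / 2 * L)) := by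
          gcongr
      _ = x := by rw [b3]; ring

/-- the end point -/
theorem KK_prop (A B : ℕ) (C : ℝ) (hC : 1 ≤ C) (x s : ℕ) (hx : Lg A B C x) (hs : 1 ≤ s)
    (hsB : (s : ℝ) ≤ B * Real.log (Real.log x)) :
    3 ≤ KK C x s ∧ K8 x ≤ KK C x s ∧ KK C x s ≤ x ∧
    Real.log x / (2 * C * s) ≤ Real.log (KK C x s) ∧ C * s * Real.log (KK C x s) ≤ Real.log x := by
  obtain ⟨hx9, hl, h1, -, -⟩ := hx
  set L := Real.log x with hL
  set ℓ := Real.log L with hℓ
  have hx0 : (0 : ℝ) < x := by exact_mod_cast (by omega : 0 < x)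
  have hL1 : 1 < L := by
    rw [hL, Real.lt_log_iff_exp_lt hx0]
    have := Real.exp_one_lt_d9
    have h9 : (9 : ℝ) ≤ x := by exact_mod_cast hx9
    linarith
  have hs' : (1 : ℝ) ≤ s := by exact_mod_cast hs
  have hCs : 0 < C * s := by positivity
  have hCs1 : 1 ≤ C * s := by nlinarith
  set u := L / (C * s) with hu
  have hu2 : L ^ (1 / 8 : ℝ) + 2 ≤ u := by
    rw [hu, le_div_iff₀ hCs]
    calc (L ^ (1 / 8 : ℝ) + 2) * (C * s) ≤ (L ^ (1 / 8 : ℝ) + 2) * (C * (B * ℓ)) := by gcongr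
      _ = C * B * ℓ * (L ^ (1 / 8 : ℝ) + 2) := by ring
      _ ≤ L := h1
  have hL8 : 0 ≤ L ^ (1 / 8 : ℝ) := by positivity
  have hfl : Real.exp u - 1 ≤ (KK C x s : ℝ) := by
    unfold KK
    have := Nat.lt_floor_add_one (Real.exp u)
    linarith
  have hfl2 : (KK C x s : ℝ) ≤ Real.exp u := by
    unfold KK
    exact Nat.floor_le (Real.exp_pos _).le
  have he1 : (2.7 : ℝ) ≤ Real.exp 1 := by
    have := Real.exp_one_gt_d9
    linarith
  have hue : Real.exp (u / 2) ≤ (KK C x s : ℝ) := by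
    refine le_trans ?_ hfl
    have a1 : Real.exp u = Real.exp (u / 2) * Real.exp (u / 2) := by
      rw [← Real.exp_add]
      congr 1
      ring
    have a2 : Real.exp 1 ≤ Real.exp (u / 2) := Real.exp_le_exp.mpr (by linarith)
    rw [a1]
    nlinarith
  have hK0 : (0 : ℝ) < KK C x s := lt_of_lt_of_le (Real.exp_pos _) hue
  have hK3 : 3 ≤ KK C x s := by
    have a1 : Real.exp 1 * Real.exp 1 ≤ Real.exp u := by
      rw [← Real.exp_add]
      exact Real.exp_le_exp.mpr (by linarith)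
    have a2 : (3 : ℝ) ≤ KK C x s := by nlinarith
    exact_mod_cast a2
  refine ⟨hK3, ?_, ?_, ?_, ?_⟩
  · unfold K8
    apply Nat.ceil_le.mpr
    refine le_trans ?_ hfl
    rw [← hL]
    have a1 : Real.exp (L ^ (1 / 8 : ℝ)) * (Real.exp 1 * Real.exp 1) ≤ Real.exp u := by
      rw [← Real.exp_add, ← Real.exp_add]
      exact Real.exp_le_exp.mpr (by linarith)
    have a2 : 1 ≤ Real.exp (L ^ (1 / 8 : ℝ)) := Real.one_le_exp hL8
    have a3 : 7 ≤ Real.exp 1 * Real.exp 1 := by nlinarith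
    have a4 : Real.exp (L ^ (1 / 8 : ℝ)) * 7 ≤
        Real.exp (L ^ (1 / 8 : ℝ)) * (Real.exp 1 * Real.exp 1) :=
      mul_le_mul_of_nonneg_left a3 (by linarith)
    linarith
  · have a1 : Real.exp u ≤ x := by
      rw [← Real.exp_log hx0, ← hL]
      apply Real.exp_le_exp.mpr
      rw [hu]
      exact div_le_self (by linarith) hCs1
    exact_mod_cast hfl2.trans a1
  · rw [Real.le_log_iff_exp_le hK0]
    refine le_trans (le_of_eq ?_) hue
    congr 1
    rw [hu]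
    field_simp
  · have a1 : Real.log (KK C x s) ≤ u := by
      rw [Real.log_le_iff_le_exp hK0]
      exact hfl2
    calc C * s * Real.log (KK C x s) ≤ C * s * u := by gcongr
      _ = L := by rw [hu]; field_simp

theorem core (hLogp : StLogp) (hLoge : StLoge) (hBts : StBts) (A B : ℕ) (C CA : ℝ)
    (hC : 1 ≤ C) : ∃ C₄ : ℝ, 0 < C₄ ∧ ∀ x s q : ℕ, Lg A B C x → 1 ≤ s →
    (s : ℝ) ≤ B * Real.log (Real.log x) → q ∈ Pr x → SQ (x ^ 3) q ≤ 1 / 4 →
    ‖FS (x ^ 3) q‖ ≤ 1 → (∀ b, ZS b q 0 (K8 x) ≤ CA) → (∀ b, ZS b q (K8 x) (KK C x s) ≤ 1) →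
    max (RR q) (RR q)⁻¹ ≤ C₄ * s := by
  obtain ⟨C1, hC1⟩ := hLogp
  obtain ⟨C2, hC2⟩ := hBts
  refine ⟨Real.exp (2 + C1 + 1 / 2 * (CA + 1 + C2)) * (6 * C), by positivity, ?_⟩
  intro x s q hx hs hsB hq hSQ hFS hsm hmi
  obtain ⟨k3, k8, kx, klog, -⟩ := KK_prop A B C hC x s hx hs hsB
  obtain ⟨hx9, hl, h1, h2, -⟩ := hx
  unfold Pr at hq
  rw [mem_filter, mem_Icc] at hq
  obtain ⟨⟨hq1, hqx⟩, hqp, hxq⟩ := hq
  have : NeZero q := ⟨by omega⟩
  have hq3 : 3 ≤ q := by nlinarith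
  have hx0 : (0 : ℝ) < x := by exact_mod_cast (by omega : 0 < x)
  have hx1 : (1 : ℝ) < x := by exact_mod_cast (by omega : 1 < x)
  have hL0 : 0 < Real.log x := Real.log_pos hx1
  have hs' : (1 : ℝ) ≤ s := by exact_mod_cast hs
  have hC0 : 0 < C := by linarith
  obtain ⟨hE0, hE⟩ := hLoge q (x ^ 3) hqp hq3 hSQ hFS
  have hP := hC1 q (x ^ 3) hqp hq3
  obtain ⟨hR0, hR⟩ := log_RR q (x ^ 3) hE0
  -- the end point
  set T := x ^ 3 / q + 1 with hT
  have hTle : T ≤ x ^ 3 := by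
    have a1 : x ^ 3 / q ≤ x ^ 3 / 2 := Nat.div_le_div_left (by omega) (by norm_num)
    have a2 : 8 ≤ x ^ 3 := by nlinarith [Nat.pow_le_pow_left (by omega : 2 ≤ x) 3]
    omega
  have hTge : x ≤ T := by
    have a1 : x ^ 3 / x ≤ x ^ 3 / q := Nat.div_le_div_left hqx (by omega)
    have a2 : x ^ 3 / x = x ^ 2 := by
      rw [show x ^ 3 = x ^ 2 * x by ring]
      exact Nat.mul_div_cancel _ (by omega)
    have a3 : x ≤ x ^ 2 := by nlinarith
    omega
  have hKT : KK C x s ≤ T := kx.trans hTge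
  have hT0 : (0 : ℝ) < T := by exact_mod_cast (by omega : 0 < T)
  have hlogT : Real.log T ≤ 3 * Real.log x := by
    have a1 : (T : ℝ) ≤ x ^ 3 := by exact_mod_cast hTle
    calc Real.log T ≤ Real.log ((x : ℝ) ^ 3) := Real.log_le_log hT0 a1
      _ = _ := by rw [Real.log_pow]; norm_num
  have hTq : Real.log T ≤ q := by
    refine hlogT.trans (h2.trans ?_)
    rw [Real.sqrt_le_left (Nat.cast_nonneg _)]
    exact_mod_cast hxq.le
  have hlK : 0 < Real.log (KK C x s) := Real.log_pos (by exact_mod_cast (by omega : 1 < KK C x s))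
  have hZ : ∀ b, ZS b q 0 T ≤ CA + 1 + C2 + 2 * Real.log (6 * C * s) := by
    intro b
    rw [ZS_split b q 0 (K8 x) T (Nat.zero_le _) (k8.trans hKT), ZS_split b q (K8 x) (KK C x s) T k8
      hKT]
    have a1 := hC2 b q (KK C x s) T hqp k3 hKT hTq
    have a2 : Real.log T / Real.log (KK C x s) ≤ 6 * C * s := by
      rw [div_le_iff₀ hlK]
      calc Real.log T ≤ 3 * Real.log x := hlogT
        _ = 6 * C * s * (Real.log x / (2 * C * s)) := by field_simp; ring
        _ ≤ _ := by gcongr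
    have a3 : 0 < Real.log T / Real.log (KK C x s) := by
      refine div_pos (Real.log_pos ?_) hlK
      exact_mod_cast (by omega : 1 < T)
    have a4 := Real.log_le_log a3 a2
    have a5 := hsm b
    have a6 := hmi b
    linarith
  have hmax : max (ZS true q 0 T) (ZS false q 0 T) ≤ CA + 1 + C2 + 2 * Real.log (6 * C * s) :=
    max_le (hZ true) (hZ false)
  have habs : |Real.log (RR q)| ≤ 2 + C1 + 1 / 2 * (CA + 1 + C2) + Real.log (6 * C * s) := by
    rw [hR]
    refine (abs_sub _ _).trans ?_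
    linarith
  have hexp : Real.exp (2 + C1 + 1 / 2 * (CA + 1 + C2) + Real.log (6 * C * s)) =
      Real.exp (2 + C1 + 1 / 2 * (CA + 1 + C2)) * (6 * C) * s := by
    rw [Real.exp_add, Real.exp_log (by positivity)]
    ring
  rw [← hexp]
  obtain ⟨g1, g2⟩ := abs_le.mp habs
  refine max_le ?_ ?_
  · rw [← Real.log_le_iff_le_exp hR0]
    exact g2
  · rw [← Real.log_le_iff_le_exp (inv_pos.mpr hR0), Real.log_inv]
    linarith

end Pool.Agent.Lib.MP_0f858a_nt.KR
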