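import Pool.Agent.Lib.MP_0f858a_nt.KR.Stmts84

/-!
MP_0f858a_nt, MID: iterated sums over tuples of distinct numbers.
-/

set_option autoImplicit false

namespace Pool.Agent.Lib.MP_0f858a_nt.KR

open Finset
open scoped Classical

/-- iterated sum over the tuples of distinct elements of `K` with the weights `1 / k` -/
noncomputable def IS (K : Finset ℕ) (Ψ : List ℕ → ℝ) : ℕ → List ℕ → ℝ
  | 0, l => Ψ l
  | j + 1, l => ∑ k ∈ K.filter (fun k => k ∉ l), 1 / (k : ℝ) * IS K Ψ j (k :: l)

/-- a list of distinct elements of `K` -/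
def Gd (K : Finset ℕ) (l : List ℕ) : Prop := l.Nodup ∧ ∀ k ∈ l, k ∈ K

theorem Gd.cons {K : Finset ℕ} {l : List ℕ} (h : Gd K l) {k : ℕ} (hk : k ∈ K) (hl : k ∉ l) :
    Gd K (k :: l) := by
  refine ⟨List.nodup_cons.mpr ⟨hl, h.1⟩, fun k' hk' => ?_⟩
  rcases List.mem_cons.mp hk' with rfl | h1
  · exact hk
  · exact h.2 _ h1

theorem gd_nil (K : Finset ℕ) : Gd K [] := ⟨List.nodup_nil, fun k hk => by simp at hk⟩

theorem IS_nonneg (K : Finset ℕ) (Ψ : List ℕ → ℝ) (h : ∀ l, 0 ≤ Ψ l) (j : ℕ) (l : List ℕ) :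
    0 ≤ IS K Ψ j l := by
  induction j generalizing l with
  | zero => exact h l
  | succ j ih =>
    exact sum_nonneg fun k _ => mul_nonneg (by positivity) (ih _)

/-- monotone in the function -/
theorem IS_mono (K : Finset ℕ) (Ψ Ψ' : List ℕ → ℝ) (m : ℕ)
    (h : ∀ l, Gd K l → l.length = m → Ψ l ≤ Ψ' l) (j : ℕ) (l : List ℕ) (hl : Gd K l)
    (hj : l.length + j = m) : IS K Ψ j l ≤ IS K Ψ' j l := by
  induction j generalizing l with
  | zero => exact h l hl (by simpa using hj)
  | succ j ih =>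
    refine sum_le_sum fun k hk => mul_le_mul_of_nonneg_left ?_ (by positivity)
    rw [mem_filter] at hk
    exact ih _ (hl.cons hk.1 hk.2) (by simp only [List.length_cons]; omega)

theorem IS_sum {ι : Type*} (K : Finset ℕ) (I : Finset ι) (Ψ : ι → List ℕ → ℝ) (j : ℕ)
    (l : List ℕ) : IS K (fun l => ∑ i ∈ I, Ψ i l) j l = ∑ i ∈ I, IS K (Ψ i) j l := by
  induction j generalizing l with
  | zero => rfl
  | succ j ih =>
    simp only [IS]
    rw [sum_comm]
    refine sum_congr rfl fun k _ => ?_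
    rw [ih, mul_sum]

theorem IS_smul (K : Finset ℕ) (c : ℝ) (Ψ : List ℕ → ℝ) (j : ℕ) (l : List ℕ) :
    IS K (fun l => c * Ψ l) j l = c * IS K Ψ j l := by
  induction j generalizing l with
  | zero => rfl
  | succ j ih =>
    simp only [IS]
    rw [mul_sum]
    refine sum_congr rfl fun k _ => ?_
    rw [ih]
    ring

/-- upper bound, one variable at a time -/
theorem IS_upper (K : Finset ℕ) (Ψ : List ℕ → ℝ) (D : ℝ) (hD : 0 ≤ D) (m : ℕ)
    (h : ∀ l, Gd K l → l.length < m →
      ∑ k ∈ K.filter (fun k => k ∉ l), 1 / (k : ℝ) * Ψ (k :: l) ≤ D * Ψ l) (j : ℕ) (l : List ℕ)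
    (hl : Gd K l) (hj : l.length + j ≤ m) : IS K Ψ j l ≤ D ^ j * Ψ l := by
  induction j generalizing l with
  | zero => simp [IS]
  | succ j ih =>
    calc IS K Ψ (j + 1) l
        = ∑ k ∈ K.filter (fun k => k ∉ l), 1 / (k : ℝ) * IS K Ψ j (k :: l) := rfl
      _ ≤ ∑ k ∈ K.filter (fun k => k ∉ l), 1 / (k : ℝ) * (D ^ j * Ψ (k :: l)) := by
          refine sum_le_sum fun k hk => mul_le_mul_of_nonneg_left ?_ (by positivity)
          rw [mem_filter] at hk
          exact ih _ (hl.cons hk.1 hk.2) (by simp only [List.length_cons]; omega)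
      _ = D ^ j * ∑ k ∈ K.filter (fun k => k ∉ l), 1 / (k : ℝ) * Ψ (k :: l) := by
          rw [mul_sum]
          exact sum_congr rfl fun k _ => by ring
      _ ≤ D ^ j * (D * Ψ l) := mul_le_mul_of_nonneg_left (h l hl (by omega)) (pow_nonneg hD _)
      _ = D ^ (j + 1) * Ψ l := by ring

/-- lower bound: `P` is a set of numbers with large sum of `1 / k` -/
theorem IS_lower (K : Finset ℕ) (P : ℕ → Prop) (K₀ : ℕ) (hK₀ : 0 < K₀) (hK : ∀ k ∈ K, K₀ < k)
    (hZ : 1 < ∑ k ∈ K.filter P, 1 / (k : ℝ)) (m : ℕ) (hm : m ≤ K₀) (j : ℕ) (l : List ℕ)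
    (hl : Gd K l) (hP : ∀ k ∈ l, P k) (hj : l.length + j ≤ m) :
    (1 - (m : ℝ) / K₀) ^ j ≤
      IS K (fun l => if ∀ k ∈ l, P k then 1 else 0) j l := by
  have hK₀' : (0 : ℝ) < K₀ := by exact_mod_cast hK₀
  have hm' : (m : ℝ) / K₀ ≤ 1 := by
    rw [div_le_one hK₀']
    exact_mod_cast hm
  induction j generalizing l with
  | zero => simp [IS, if_pos hP]
  | succ j ih =>
    have h1 : ∀ k ∈ (K.filter P).filter (fun k => k ∉ l),
        1 / (k : ℝ) * (1 - (m : ℝ) / K₀) ^ j ≤
        1 / (k : ℝ) * IS K (fun l => if ∀ k ∈ l, P k then 1 else 0) j (k :: l) := by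
      intro k hk
      rw [mem_filter, mem_filter] at hk
      refine mul_le_mul_of_nonneg_left ?_ (by positivity)
      refine ih _ (hl.cons hk.1.1 hk.2) (fun k' hk' => ?_)
        (by simp only [List.length_cons]; omega)
      rcases List.mem_cons.mp hk' with rfl | h2
      · exact hk.1.2
      · exact hP _ h2
    have h2 : ∑ k ∈ (K.filter P).filter (fun k => k ∉ l),
        1 / (k : ℝ) * IS K (fun l => if ∀ k ∈ l, P k then 1 else 0) j (k :: l) ≤
        IS K (fun l => if ∀ k ∈ l, P k then 1 else 0) (j + 1) l := by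
      refine sum_le_sum_of_subset_of_nonneg (fun k hk => ?_) fun k _ _ => ?_
      · rw [mem_filter, mem_filter] at hk
        exact mem_filter.mpr ⟨hk.1.1, hk.2⟩
      · exact mul_nonneg (by positivity) (IS_nonneg _ _ (fun l => by positivity) _ _)
    have h3 : 1 - (m : ℝ) / K₀ ≤ ∑ k ∈ (K.filter P).filter (fun k => k ∉ l), 1 / (k : ℝ) := by
      have e1 := sum_filter_add_sum_filter_not (K.filter P) (fun k => k ∉ l)
        (fun k => 1 / (k : ℝ))
      have e2 : ∑ k ∈ (K.filter P).filter (fun k => ¬ k ∉ l), 1 / (k : ℝ) ≤ (m : ℝ) / K₀ := by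
        have e3 : ((K.filter P).filter (fun k => ¬ k ∉ l)).card ≤ l.length := by
          calc _ ≤ l.toFinset.card := card_le_card fun k hk => by
                  rw [mem_filter, not_not] at hk
                  exact List.mem_toFinset.mpr hk.2
            _ ≤ _ := l.toFinset_card_le
        calc ∑ k ∈ (K.filter P).filter (fun k => ¬ k ∉ l), 1 / (k : ℝ)
            ≤ ∑ k ∈ (K.filter P).filter (fun k => ¬ k ∉ l), 1 / (K₀ : ℝ) := by
              refine sum_le_sum fun k hk => ?_
              rw [mem_filter, mem_filter] at hk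
              apply one_div_le_one_div_of_le hK₀'
              exact_mod_cast (hK k hk.1.1).le
          _ = (((K.filter P).filter (fun k => ¬ k ∉ l)).card : ℝ) * (1 / K₀) := by
              rw [sum_const, nsmul_eq_mul]
          _ ≤ (m : ℝ) * (1 / K₀) := by
              refine mul_le_mul_of_nonneg_right ?_ (by positivity)
              exact_mod_cast e3.trans (by omega)
          _ = _ := by ring
      linarith
    calc (1 - (m : ℝ) / K₀) ^ (j + 1)
        = (1 - (m : ℝ) / K₀) * (1 - (m : ℝ) / K₀) ^ j := by ring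
      _ ≤ (∑ k ∈ (K.filter P).filter (fun k => k ∉ l), 1 / (k : ℝ)) *
          (1 - (m : ℝ) / K₀) ^ j := mul_le_mul_of_nonneg_right h3 (pow_nonneg (by linarith) _)
      _ = ∑ k ∈ (K.filter P).filter (fun k => k ∉ l), 1 / (k : ℝ) *
          (1 - (m : ℝ) / K₀) ^ j := by rw [sum_mul]
      _ ≤ _ := sum_le_sum h1
      _ ≤ _ := h2

/-- the distance -/
def df (a b : ℕ) : ℕ := (a - b) + (b - a)

theorem df_pos {a b : ℕ} (h : a ≠ b) : 0 < df a b := by
  unfold df
  omega

theorem df_zero (a : ℕ) : df a 0 = a := by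
  unfold df
  omega

/-- the product of the elements of the list and of all their differences -/
def DL : List ℕ → ℕ
  | [] => 1
  | k :: l => ((0 :: l).map (df k)).prod * DL l

theorem DL_ne_zero (l : List ℕ) (hl : l.Nodup) (h0 : ∀ k ∈ l, k ≠ 0) : DL l ≠ 0 := by
  induction l with
  | nil => simp [DL]
  | cons k l ih =>
    rw [List.nodup_cons] at hl
    refine mul_ne_zero ?_ (ih hl.2 fun k' hk' => h0 k' (List.mem_cons_of_mem _ hk'))
    rw [Ne, List.prod_eq_zero_iff]
    intro h
    obtain ⟨u, hu, h1⟩ := List.mem_map.mp h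
    have h2 : k ≠ u := by
      rcases List.mem_cons.mp hu with rfl | h3
      · exact h0 k List.mem_cons_self
      · rintro rfl
        exact hl.1 h3
    exact (df_pos h2).ne' h1

/-- every element and every difference divides `DL` -/
theorem dvd_DL (l : List ℕ) (k : ℕ) (hk : k ∈ l) : k ∣ DL l := by
  induction l with
  | nil => simp at hk
  | cons k' l ih =>
    rcases List.mem_cons.mp hk with rfl | h1
    · refine Dvd.dvd.mul_right ?_ _
      have : df k 0 ∣ ((0 :: l).map (df k)).prod :=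
        List.dvd_prod (List.mem_map_of_mem List.mem_cons_self)
      rwa [df_zero] at this
    · exact (ih h1).mul_left _

theorem df_dvd_DL (l : List ℕ) (k k' : ℕ) (hk : k ∈ l) (hk' : k' ∈ l) (hne : k ≠ k') :
    df k k' ∣ DL l := by
  induction l with
  | nil => simp at hk
  | cons k₁ l ih =>
    have hcomm : ∀ a b, df a b = df b a := fun a b => by unfold df; omega
    rcases List.mem_cons.mp hk with rfl | h1
    · rcases List.mem_cons.mp hk' with rfl | h2
      · exact absurd rfl hne
      · refine Dvd.dvd.mul_right ?_ _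
        exact List.dvd_prod (List.mem_map_of_mem (List.mem_cons_of_mem _ h2))
    · rcases List.mem_cons.mp hk' with rfl | h2
      · rw [hcomm]
        refine Dvd.dvd.mul_right ?_ _
        exact List.dvd_prod (List.mem_map_of_mem (List.mem_cons_of_mem _ h1))
      · exact (ih h1 h2).mul_left _

end Pool.Agent.Lib.MP_0f858a_nt.KR
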