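import Pool.Agent.Lib.MP_0f858a_nt.KR.StmtsB84
import Pool.Agent.Lib.MP_0f858a_nt.KR.Bt27

/-!
MP_0f858a_nt, KR2, module B2 LA (helper38): the sum of `rho` over a residue class.
-/

set_option autoImplicit false

namespace Pool.Agent.Lib.MP_0f858a_nt.KR

open Finset Filter
open scoped Classical

namespace La38

theorem pk_comm (b : Bool) (n k : ℕ) : pk b n k = pk b k n := by
  unfold pk
  rw [mul_comm]

theorem pk_modEq {b : Bool} {n r k m : ℕ} (hn : 1 ≤ n) (hr : 1 ≤ r) (hk : 1 ≤ k)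
    (h : n ≡ r [MOD m]) : pk b n k ≡ pk b r k [MOD m] := by
  have h1 : k * n ≡ k * r [MOD m] := h.mul_left k
  unfold pk
  cases b with
  | true => exact h1.add_right 1
  | false =>
    have h2 : 1 ≤ k * n := Nat.mul_pos hk hn
    have h3 : 1 ≤ k * r := Nat.mul_pos hk hr
    show k * n - 1 ≡ k * r - 1 [MOD m]
    have h4 : (k * n - 1) + 1 ≡ (k * r - 1) + 1 [MOD m] := by
      rw [Nat.sub_add_cancel h2, Nat.sub_add_cancel h3]
      exact h1
    exact Nat.ModEq.add_right_cancel' 1 h4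

theorem not_dvd {b : Bool} {n k p : ℕ} (hn : 1 ≤ n) (hk : 1 ≤ k) (hp : p.Prime)
    (h : p ∣ n ∨ p ∣ k) : ¬ p ∣ pk b n k := by
  intro hd
  have h1 : p ∣ k * n := by
    rcases h with h | h
    · exact h.mul_left k
    · exact h.mul_right n
  have h2 : 1 ≤ k * n := Nat.mul_pos hk hn
  have h3 : p ∣ 1 := by
    unfold pk at hd
    cases b with
    | true => exact (Nat.dvd_add_right h1).1 hd
    | false =>
      have h4 : p ∣ k * n - 1 := hd
      have h5 := Nat.dvd_sub h1 h4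
      have h6 : k * n - (k * n - 1) = 1 := by omega
      rwa [h6] at h5
  exact hp.one_lt.ne' (Nat.dvd_one.1 h3)

theorem all_dvd {D : Finset ℕ} (hD : ∀ p ∈ D, p.Prime) (m : ℕ) :
    (∀ p ∈ D, p ∣ m) ↔ ∏ p ∈ D, p ∣ m :=
  ⟨fun h => Finset.prod_primes_dvd m (fun p hp => (hD p hp).prime) h,
    fun h _ hp => (Finset.dvd_prod_of_mem _ hp).trans h⟩

theorem cop {D B : Finset ℕ} (hD : ∀ p ∈ D, p.Prime) (hB : ∀ p ∈ B, p.Prime)
    (h : Disjoint D B) : Nat.Coprime (∏ p ∈ D, p) (∏ p ∈ B, p) := by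
  refine Nat.Coprime.prod_left fun p hp => Nat.Coprime.prod_right fun q hq => ?_
  rw [Nat.coprime_primes (hD p hp) (hB q hq)]
  rintro rfl
  exact Finset.disjoint_left.1 h hp hq

theorem class_count (hL : StLeg) (M u x : ℕ) (hM : 0 < M) :
    |(((Ioc 0 x).filter (fun m => m ≡ u [MOD M])).card : ℝ) - (x : ℝ) / M| ≤ 1 := by
  have h := hL ∅ M u 0 x (by simp) hM
  simp only [Finset.prod_empty, mul_one, Finset.card_empty, pow_zero, zero_add] at h
  have e : (Ioc 0 x).filter (fun m => m ≡ u [MOD M] ∧ ∀ p ∈ (∅ : Finset ℕ), ¬ p ∣ m) =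
      (Ioc 0 x).filter (fun m => m ≡ u [MOD M]) := by
    ext m
    simp
  rwa [e] at h

end La38

open La38

theorem stLa_38 (hL : StLeg) : StLa := by
  intro b K x r0 D D' hK hD hD' hr0
  set d : ℕ := ∏ p ∈ D, p with hd
  set B : Finset ℕ := D' \ D with hB
  set G : Finset ℕ := D' ∩ D with hG
  set g : ℕ := ∏ p ∈ G, p with hg
  set bb : ℕ := ∏ p ∈ B, p with hbb
  have hd0 : 0 < d := Finset.prod_pos fun p hp => (hD p hp).pos
  have hBp : ∀ p ∈ B, p.Prime := fun p hp => hD' p (Finset.mem_sdiff.1 hp).1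
  have hGp : ∀ p ∈ G, p.Prime := fun p hp => hD' p (Finset.mem_inter.1 hp).1
  have hg0 : 0 < g := Finset.prod_pos fun p hp => (hGp p hp).pos
  have hb0 : 0 < bb := Finset.prod_pos fun p hp => (hBp p hp).pos
  have hDB : Disjoint D B := Finset.disjoint_sdiff
  have hGB : Disjoint G B := by
    rw [Finset.disjoint_left]
    intro p hp hp'
    exact (Finset.mem_sdiff.1 hp').2 (Finset.mem_inter.1 hp).2
  have hdb : ∏ p ∈ D ∪ D', p = d * bb := by
    rw [← Finset.union_sdiff_self_eq_union, Finset.prod_union Finset.disjoint_sdiff]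
  have hgb : ∏ p ∈ D', p = g * bb := by
    rw [hg, hbb, ← Finset.prod_union hGB]
    congr 1
    ext p
    simp only [hG, hB, Finset.mem_union, Finset.mem_inter, Finset.mem_sdiff]
    tauto
  have hgd : g ∣ d := by
    rw [hg, ← all_dvd hGp]
    exact fun p hp => Finset.dvd_prod_of_mem _ (Finset.mem_inter.1 hp).2
  have hcdb : Nat.Coprime d bb := cop hD hBp hDB
  have hcgb : Nat.Coprime g bb := cop hGp hBp hGB
  -- a representative `≥ 1`
  set r : ℕ := r0 + d with hr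
  have hr1 : 1 ≤ r := by omega
  have hrr : r ≡ r0 [MOD d] := by
    rw [hr]
    exact Nat.add_modEq_right
  have hrD : ∀ p ∈ D, ¬ p ∣ r := by
    intro p hp h
    refine hr0 p hp ?_
    have h1 : p ∣ d := Finset.dvd_prod_of_mem _ hp
    exact (Nat.dvd_add_left h1).1 h
  have hcrg : Nat.Coprime r g := by
    rw [hg]
    refine Nat.Coprime.prod_right fun p hp => ?_
    exact ((Nat.Prime.coprime_iff_not_dvd (hGp p hp)).2 (hrD p (Finset.mem_inter.1 hp).2)).symm
  set F : Finset ℕ := (Icc 1 x).filter (fun n => n ≡ r0 [MOD d]) with hF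
  have hF1 : ∀ n ∈ F, 1 ≤ n ∧ n ≡ r [MOD d] := by
    intro n hn
    rw [hF, Finset.mem_filter, Finset.mem_Icc] at hn
    exact ⟨hn.1.1, hn.2.trans hrr.symm⟩
  set I : Finset ℕ := Ioc K (2 * K) with hI
  have hI1 : ∀ k ∈ I, 1 ≤ k := by
    intro k hk
    rw [hI, Finset.mem_Ioc] at hk
    omega
  -- Step A
  have hA : ∑ n ∈ F, rho b K D' n = ∑ n ∈ F, (cD b K D' n : ℝ) -
      K / ((g * bb : ℕ) : ℝ) * ((F.filter (fun n => ∀ p ∈ B, ¬ p ∣ n)).card : ℝ) := by
    have h1 : ∀ n ∈ F, rho b K D' n = (cD b K D' n : ℝ) -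
        K / ((g * bb : ℕ) : ℝ) * (if ∀ p ∈ B, ¬ p ∣ n then 1 else 0) := by
      intro n hn
      have hn1 := (hF1 n hn).1
      have h2 : (∀ p ∈ D', ¬ p ∣ n) ↔ ∀ p ∈ B, ¬ p ∣ n := by
        constructor
        · exact fun h p hp => h p (Finset.mem_sdiff.1 hp).1
        · intro h p hp hpn
          by_cases hpD : p ∈ D
          · refine hrD p hpD ?_
            have h3 : n ≡ r [MOD p] := (hF1 n hn).2.of_dvd (Finset.dvd_prod_of_mem _ hpD)
            exact (h3.dvd_iff dvd_rfl).1 hpn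
          · exact h p (Finset.mem_sdiff.2 ⟨hp, hpD⟩) hpn
      unfold rho
      rw [hgb]
      by_cases h3 : ∀ p ∈ D', ¬ p ∣ n
      · rw [if_pos h3, if_pos (h2.1 h3), mul_one]
      · rw [if_neg h3, if_neg (fun h => h3 (h2.2 h)), mul_zero, sub_zero]
        push Not at h3
        obtain ⟨p, hp, hpn⟩ := h3
        have h4 : cD b K D' n = 0 := by
          unfold cD
          rw [Finset.card_eq_zero, Finset.filter_eq_empty_iff]
          intro k hk h5
          exact not_dvd hn1 (hI1 k hk) (hD' p hp) (Or.inl hpn) (h5 p hp)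
        rw [h4]
        simp
    rw [Finset.sum_congr rfl h1, Finset.sum_sub_distrib, ← Finset.mul_sum]
    congr 2
    rw [Finset.card_filter]
    push_cast
    rfl
  -- Step B
  have hBst : ∑ n ∈ F, (cD b K D' n : ℝ) =
      ∑ k ∈ I, ((F.filter (fun n => ∀ p ∈ D', p ∣ pk b n k)).card : ℝ) := by
    have h1 : ∀ n ∈ F, (cD b K D' n : ℝ) = ∑ k ∈ I, if ∀ p ∈ D', p ∣ pk b n k then (1 : ℝ) else 0 := by
      intro n _
      unfold cD
      rw [Finset.card_filter]
      push_cast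
      rfl
    rw [Finset.sum_congr rfl h1, Finset.sum_comm]
    refine Finset.sum_congr rfl fun k _ => ?_
    rw [Finset.card_filter]
    push_cast
    rfl
  set A : ℝ := (x : ℝ) / ((d * bb : ℕ) : ℝ) with hAdef
  have hA0 : 0 ≤ A := by positivity
  set S : Finset ℕ := I.filter (fun k => g ∣ pk b r k ∧ ∀ p ∈ B, ¬ p ∣ k) with hS
  -- Step C
  have hC : ∀ k ∈ I, |((F.filter (fun n => ∀ p ∈ D', p ∣ pk b n k)).card : ℝ) -
      (if g ∣ pk b r k ∧ ∀ p ∈ B, ¬ p ∣ k then A else 0)| ≤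
      if g ∣ pk b r k ∧ ∀ p ∈ B, ¬ p ∣ k then 1 else 0 := by
    intro k hk
    have hk1 := hI1 k hk
    by_cases hc : g ∣ pk b r k ∧ ∀ p ∈ B, ¬ p ∣ k
    · rw [if_pos hc, if_pos hc]
      have hkb : Nat.Coprime k bb := by
        rw [hbb]
        refine Nat.Coprime.prod_right fun p hp => ?_
        exact ((Nat.Prime.coprime_iff_not_dvd (hBp p hp)).2 (hc.2 p hp)).symm
      obtain ⟨v, hv⟩ := B27.ex_class b hk1 hb0 hkb
      obtain ⟨u, hu1, hu2⟩ := Nat.chineseRemainder hcdb r v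
      have e1 : F.filter (fun n => ∀ p ∈ D', p ∣ pk b n k) =
          (Ioc 0 x).filter (fun n => n ≡ u [MOD d * bb]) := by
        ext n
        rw [Finset.mem_filter, hF, Finset.mem_filter, Finset.mem_Icc, Finset.mem_filter,
          Finset.mem_Ioc, all_dvd hD', hgb, ← Nat.modEq_and_modEq_iff_modEq_mul hcdb]
        constructor
        · rintro ⟨⟨⟨h1, h2⟩, h3⟩, h4⟩
          refine ⟨⟨h1, h2⟩, (h3.trans hrr.symm).trans hu1.symm, ?_⟩
          have h5 : bb ∣ pk b k n := by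
            rw [← pk_comm]
            exact (Dvd.intro_left g rfl).trans h4
          exact ((hv n h1).1 h5).trans hu2.symm
        · rintro ⟨⟨h1, h2⟩, h3, h4⟩
          have h5 : n ≡ r [MOD d] := h3.trans hu1
          refine ⟨⟨⟨h1, h2⟩, h5.trans hrr⟩, ?_⟩
          have h6 : bb ∣ pk b n k := by
            rw [pk_comm]
            exact (hv n h1).2 (h4.trans hu2)
          have h7 : g ∣ pk b n k :=
            ((pk_modEq h1 hr1 hk1 (h5.of_dvd hgd)).dvd_iff dvd_rfl).2 hc.1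
          exact hcgb.mul_dvd_of_dvd_of_dvd h7 h6
      rw [e1]
      exact class_count hL (d * bb) u x (Nat.mul_pos hd0 hb0)
    · rw [if_neg hc, if_neg hc, sub_zero]
      have e1 : F.filter (fun n => ∀ p ∈ D', p ∣ pk b n k) = ∅ := by
        rw [Finset.filter_eq_empty_iff]
        intro n hn h
        apply hc
        have hn1 := hF1 n hn
        refine ⟨?_, fun p hp hpk => ?_⟩
        · have h1 : g ∣ pk b n k := by
            rw [hg, ← all_dvd hGp]
            exact fun p hp => h p (Finset.mem_inter.1 hp).1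
          exact ((pk_modEq hn1.1 hr1 hk1 (hn1.2.of_dvd hgd)).dvd_iff dvd_rfl).1 h1
        · exact not_dvd hn1.1 hk1 (hBp p hp) (Or.inr hpk) (h p (Finset.mem_sdiff.1 hp).1)
      rw [e1]
      simp
  have hC' : |∑ k ∈ I, ((F.filter (fun n => ∀ p ∈ D', p ∣ pk b n k)).card : ℝ) -
      A * (S.card : ℝ)| ≤ S.card := by
    have e1 : A * (S.card : ℝ) =
        ∑ k ∈ I, if g ∣ pk b r k ∧ ∀ p ∈ B, ¬ p ∣ k then A else 0 := by
      rw [hS, Finset.card_filter]
      push_cast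
      rw [Finset.mul_sum]
      exact Finset.sum_congr rfl fun k _ => by split_ifs <;> simp
    have e2 : (S.card : ℝ) = ∑ k ∈ I, if g ∣ pk b r k ∧ ∀ p ∈ B, ¬ p ∣ k then (1 : ℝ) else 0 := by
      rw [hS, Finset.card_filter]
      push_cast
      rfl
    rw [e1, ← Finset.sum_sub_distrib]
    refine (Finset.abs_sum_le_sum_abs _ _).trans ?_
    refine (Finset.sum_le_sum hC).trans (le_of_eq ?_)
    rw [e2]
  -- Step D
  set P : ℝ := ∏ p ∈ B, (1 - 1 / (p : ℝ)) with hP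
  have hDst : |(S.card : ℝ) - (K / g : ℝ) * P| ≤ 2 ^ B.card := by
    obtain ⟨v, hv⟩ := B27.ex_class b hr1 hg0 hcrg
    have h1 := hL B g v K K (fun p hp => ⟨hBp p hp, fun h => by
      have h2 := (Nat.Prime.coprime_iff_not_dvd (hBp p hp)).1
        (Nat.Coprime.coprime_dvd_left (Finset.dvd_prod_of_mem (fun p => p) hp) hcgb.symm)
      exact h2 h⟩) hg0
    have e1 : (Ioc K (K + K)).filter (fun m => m ≡ v [MOD g] ∧ ∀ p ∈ B, ¬ p ∣ m) = S := by
      rw [hS, hI, two_mul]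
      refine Finset.filter_congr fun k hk => ?_
      rw [Finset.mem_Ioc] at hk
      rw [hv k (by omega)]
    rwa [e1] at h1
  -- Step E
  have hE : |((F.filter (fun n => ∀ p ∈ B, ¬ p ∣ n)).card : ℝ) - (x / d : ℝ) * P| ≤
      2 ^ B.card := by
    have h1 := hL B d r0 0 x (fun p hp => ⟨hBp p hp, fun h => by
      have h2 := (Nat.Prime.coprime_iff_not_dvd (hBp p hp)).1
        (Nat.Coprime.coprime_dvd_left (Finset.dvd_prod_of_mem (fun p => p) hp) hcdb.symm)
      exact h2 h⟩) hd0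
    have e1 : (Ioc 0 (0 + x)).filter (fun m => m ≡ r0 [MOD d] ∧ ∀ p ∈ B, ¬ p ∣ m) =
        F.filter (fun n => ∀ p ∈ B, ¬ p ∣ n) := by
      ext n
      simp only [hF, Finset.mem_filter, Finset.mem_Icc, Finset.mem_Ioc, zero_add]
      constructor
      · rintro ⟨⟨h1, h2⟩, h3, h4⟩
        exact ⟨⟨⟨h1, h2⟩, h3⟩, h4⟩
      · rintro ⟨⟨⟨h1, h2⟩, h3⟩, h4⟩
        exact ⟨⟨h1, h2⟩, h3, h4⟩
    rwa [e1] at h1
  -- the end
  have hScard : (S.card : ℝ) ≤ K := by
    have h1 : S.card ≤ I.card := Finset.card_filter_le _ _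
    have h2 : I.card = K := by
      rw [hI, Nat.card_Ioc]
      omega
    rw [h2] at h1
    exact_mod_cast h1
  have hBD : (2 : ℝ) ^ B.card ≤ 2 ^ D'.card :=
    pow_le_pow_right₀ (by norm_num) (Finset.card_le_card Finset.sdiff_subset)
  have h1D : (1 : ℝ) ≤ 2 ^ D'.card := one_le_pow₀ (by norm_num)
  have hK0 : (0 : ℝ) ≤ K := Nat.cast_nonneg K
  have hgR : (0 : ℝ) < g := by exact_mod_cast hg0
  have hbR : (0 : ℝ) < bb := by exact_mod_cast hb0
  have hdR : (0 : ℝ) < d := by exact_mod_cast hd0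
  have hgb1 : (1 : ℝ) ≤ ((g * bb : ℕ) : ℝ) := by
    exact_mod_cast Nat.mul_pos hg0 hb0
  have hKgb : K / ((g * bb : ℕ) : ℝ) ≤ K := div_le_self hK0 hgb1
  have hKgb0 : 0 ≤ K / ((g * bb : ℕ) : ℝ) := by positivity
  rw [hdb, hA, hBst]
  set N1 : ℝ := ∑ k ∈ I, ((F.filter (fun n => ∀ p ∈ D', p ∣ pk b n k)).card : ℝ) with hN1
  set N2 : ℝ := ((F.filter (fun n => ∀ p ∈ B, ¬ p ∣ n)).card : ℝ) with hN2
  have hmain : A * ((K / g : ℝ) * P) = K / ((g * bb : ℕ) : ℝ) * ((x / d : ℝ) * P) := by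
    rw [hAdef]
    push_cast
    field_simp
  have e : N1 - K / ((g * bb : ℕ) : ℝ) * N2 = (N1 - A * S.card) +
      A * ((S.card : ℝ) - (K / g : ℝ) * P) -
        K / ((g * bb : ℕ) : ℝ) * (N2 - (x / d : ℝ) * P) := by
    linear_combination hmain
  rw [e]
  have t1 : |A * ((S.card : ℝ) - (K / g : ℝ) * P)| ≤ A * 2 ^ D'.card := by
    rw [abs_mul, abs_of_nonneg hA0]
    exact mul_le_mul_of_nonneg_left (hDst.trans hBD) hA0
  have t2 : |K / ((g * bb : ℕ) : ℝ) * (N2 - (x / d : ℝ) * P)| ≤ K * 2 ^ D'.card := by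
    rw [abs_mul, abs_of_nonneg hKgb0]
    exact mul_le_mul hKgb (hE.trans hBD) (abs_nonneg _) hK0
  have t3 : |N1 - A * S.card| ≤ K * 2 ^ D'.card := by
    refine (hC'.trans hScard).trans ?_
    nlinarith
  calc |(N1 - A * S.card) + A * ((S.card : ℝ) - (K / g : ℝ) * P) -
        K / ((g * bb : ℕ) : ℝ) * (N2 - (x / d : ℝ) * P)|
      ≤ |N1 - A * S.card| + |A * ((S.card : ℝ) - (K / g : ℝ) * P)| +
        |K / ((g * bb : ℕ) : ℝ) * (N2 - (x / d : ℝ) * P)| := by
        refine (abs_sub _ _).trans ?_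
        gcongr
        exact abs_add_le _ _
    _ ≤ K * 2 ^ D'.card + A * 2 ^ D'.card + K * 2 ^ D'.card := by gcongr
    _ = 2 ^ D'.card * (A + 2 * K) := by ring

end Pool.Agent.Lib.MP_0f858a_nt.KR
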