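import Pool.Agent.Lib.MP_0f858a_nt.KR.StmtsC84
import Pool.Agent.Lib.MP_0f858a_nt.KR.MainB84

/-!
MP_0f858a_nt, MAINU: `max (R, 1/R) ≤ C log A` outside `C x / (log x) ^ A` primes, uniformly for
`A ≤ (log x) ^ (1/10)`.
-/

set_option autoImplicit false

namespace Pool.Agent.Lib.MP_0f858a_nt.KR

open Finset Filter
open scoped Classical

/-- the sizes -/
theorem sizes : ∀ᶠ x : ℕ in atTop, 1 ≤ Real.log x ∧
    ∀ A : ℕ, (A : ℝ) ≤ Real.log x ^ (1 / 10 : ℝ) + 1 →
      TS x ≤ x / Real.log x ^ A ∧ Real.sqrt x ≤ x / Real.log x ^ A := by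
  have hT1 : Tendsto (fun x : ℕ => Real.log x) atTop atTop :=
    Real.tendsto_log_atTop.comp tendsto_natCast_atTop_atTop
  have hT : Tendsto (fun x : ℕ => Real.log (Real.log x)) atTop atTop :=
    Real.tendsto_log_atTop.comp hT1
  have h1 := (isLittleO_pow_exp_pos_mul_atTop (k := 1) (b := (1 / 40 : ℝ)) (by norm_num)).bound
    (by norm_num : (0 : ℝ) < 1 / 4)
  filter_upwards [hT.eventually (h1.and (eventually_ge_atTop 1)),
    hT1.eventually (eventually_ge_atTop 1), eventually_ge_atTop 1] with x ⟨e1, e2⟩ e3 e4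
  refine ⟨e3, fun A hA => ?_⟩
  set L := Real.log x with hL
  set t := Real.log L with ht
  have hL0 : 0 < L := by linarith
  have hx0 : (0 : ℝ) < x := by exact_mod_cast (by omega : 0 < x)
  have hxL : (x : ℝ) = Real.exp L := (Real.exp_log hx0).symm
  have hLt : L = Real.exp t := by rw [ht, Real.exp_log hL0]
  rw [Real.norm_eq_abs, Real.norm_eq_abs, abs_of_pos (Real.exp_pos _),
    abs_of_nonneg (by positivity), pow_one] at e1
  have hpow : ∀ c : ℝ, L ^ c = Real.exp (c * t) := by
    intro c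
    rw [hLt, ← Real.exp_mul]
    congr 1
    ring
  have hLA : L ^ A = Real.exp (A * t) := by
    rw [Real.exp_nat_mul, ← hLt]
  have hAt : (A : ℝ) * t ≤ L ^ (1 / 8 : ℝ) / 2 := by
    have g1 : 1 ≤ Real.exp (1 / 10 * t) := Real.one_le_exp (by linarith)
    calc (A : ℝ) * t ≤ (L ^ (1 / 10 : ℝ) + 1) * t := by gcongr
      _ = (Real.exp (1 / 10 * t) + 1) * t := by rw [hpow]
      _ ≤ (2 * Real.exp (1 / 10 * t)) * (1 / 4 * Real.exp (1 / 40 * t)) := by
          refine mul_le_mul (by linarith) e1 (by linarith) (by positivity)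
      _ = Real.exp (1 / 10 * t + 1 / 40 * t) / 2 := by
          rw [Real.exp_add]
          ring
      _ = L ^ (1 / 8 : ℝ) / 2 := by
          rw [hpow]
          congr 2
          ring
  have hL8 : L ^ (1 / 8 : ℝ) ≤ L := by
    calc L ^ (1 / 8 : ℝ) ≤ L ^ (1 : ℝ) := Real.rpow_le_rpow_of_exponent_le e3 (by norm_num)
      _ = L := Real.rpow_one L
  constructor
  · unfold TS
    rw [← hL, hLA, div_eq_mul_inv (x : ℝ), ← Real.exp_neg]
    refine mul_le_mul_of_nonneg_left (Real.exp_le_exp.mpr ?_) hx0.le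
    linarith
  · have hsq : Real.sqrt x = Real.exp (1 / 2 * L) := by
      have : (x : ℝ) = Real.exp (1 / 2 * L) ^ 2 := by
        rw [← Real.exp_nat_mul, hxL]
        congr 1
        push_cast
        ring
      rw [this, Real.sqrt_sq (Real.exp_pos _).le]
    rw [hsq, hLA, div_eq_mul_inv (x : ℝ), ← Real.exp_neg]
    conv_rhs => rw [hxL]
    rw [← Real.exp_add]
    apply Real.exp_le_exp.mpr
    linarith

theorem stMainu_84 (hLogp : StLogp) (hLoge : StLoge) (hBts : StBts) (hSecu : StSecu)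
    (hFstu : StFstu) (hSmlu : StSmlu) (hMidu : StMidu) : StMainu := by
  obtain ⟨c, hc, C₀, x5, hMid⟩ := hMidu
  obtain ⟨C1, x2, hSml⟩ := hSmlu
  obtain ⟨x3, hSec⟩ := hSecu
  obtain ⟨x4, hFst⟩ := hFstu
  obtain ⟨C₄, hC₄, hcore⟩ := coreb hLogp hLoge hBts c hc C₀ C1
  obtain ⟨x6, h6⟩ := eventually_atTop.mp (hcore.and sizes)
  obtain ⟨X, hX⟩ : ∃ X, X = max x2 (max x3 (max x4 (max x5 (max x6 3)))) := ⟨_, rfl⟩
  have hX3 : 3 ≤ X := by omega
  obtain ⟨Y, hY⟩ : ∃ Y : ℝ, Y = max 1 (Real.log X) := ⟨_, rfl⟩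
  have hY1 : 1 ≤ Y := by rw [hY]; exact le_max_left _ _
  obtain ⟨N, hN⟩ : ∃ N : ℕ, N = ⌈Y ^ (1 / 10 : ℝ)⌉₊ := ⟨_, rfl⟩
  refine ⟨8 + 2 * C₄ + Y ^ N, by positivity, ?_⟩
  intro x hx A hA hAx
  have hx2 : (2 : ℝ) ≤ x := by exact_mod_cast hx
  have hL : 0 < Real.log x := Real.log_pos (by linarith)
  obtain ⟨A', hA'⟩ : ∃ A', A' = max A 3 := ⟨_, rfl⟩
  have hA3 : 3 ≤ A' := by omega
  have hAA' : A ≤ A' := by omega
  have hA1' : (A' : ℝ) ≤ Real.log x ^ (1 / 10 : ℝ) + 1 := by
    have : (A' : ℝ) ≤ A + 1 := by exact_mod_cast (by omega : A' ≤ A + 1)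
    linarith
  have hlA0 : 0 ≤ Real.log A := Real.log_natCast_nonneg _
  have hlogA : Real.log A' ≤ 2 * Real.log A := by
    have h2 : (A' : ℝ) ≤ A ^ 2 := by
      have : A' ≤ A ^ 2 := by
        rcases le_or_gt 3 A with h | h
        · have : A' = A := by omega
          rw [this]
          nlinarith
        · have : A = 2 := by omega
          subst this
          have : A' = 3 := by omega
          omega
      exact_mod_cast this
    have h3 : Real.log A' ≤ Real.log ((A : ℝ) ^ 2) :=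
      Real.log_le_log (by exact_mod_cast (by omega : 0 < A')) h2
    rw [Real.log_pow] at h3
    exact_mod_cast h3
  obtain ⟨CC, hCC⟩ : ∃ CC : ℝ, CC = 8 + 2 * C₄ + Y ^ N := ⟨_, rfl⟩
  rw [← hCC]
  have hYN : 0 < Y ^ N := by positivity
  have hcount : (Icc 1 x).filter (fun q => q.Prime ∧ q ≠ 2 ∧
      CC * Real.log A < max (RR q) (RR q)⁻¹) ⊆
      (Icc 1 x).filter (fun q => q.Prime ∧ q ≠ 2 ∧ C₄ * Real.log A' < max (RR q) (RR q)⁻¹) := by
    intro q hq
    rw [mem_filter] at hq ⊢
    refine ⟨hq.1, hq.2.1, hq.2.2.1, lt_of_le_of_lt ?_ hq.2.2.2⟩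
    calc C₄ * Real.log A' ≤ C₄ * (2 * Real.log A) := mul_le_mul_of_nonneg_left hlogA hC₄.le
      _ = 2 * C₄ * Real.log A := by ring
      _ ≤ CC * Real.log A := mul_le_mul_of_nonneg_right (by linarith) hlA0
  rcases lt_or_ge x X with hxX | hxX
  · have h1 : ((Icc 1 x).filter (fun q => q.Prime ∧ q ≠ 2 ∧
        CC * Real.log A < max (RR q) (RR q)⁻¹)).card ≤ x := by
      refine (card_filter_le _ _).trans ?_
      rw [Nat.card_Icc, Nat.add_sub_cancel]
    have hlY : Real.log x ≤ Y := by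
      rw [hY]
      exact (Real.log_le_log (by linarith) (by exact_mod_cast hxX.le)).trans (le_max_right _ _)
    have hAN : A ≤ N := by
      have : (A : ℝ) ≤ N := by
        rw [hN]
        refine hAx.trans ((Real.rpow_le_rpow hL.le hlY (by norm_num)).trans (Nat.le_ceil _))
      exact_mod_cast this
    have h2 : Real.log x ^ A ≤ CC := by
      calc Real.log x ^ A ≤ Y ^ A := pow_le_pow_left₀ hL.le hlY A
        _ ≤ Y ^ N := pow_le_pow_right₀ hY1 hAN
        _ ≤ CC := by linarith
    refine le_trans (b := (x : ℝ)) (by exact_mod_cast h1) ?_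
    rw [← mul_div_assoc, le_div_iff₀ (by positivity), mul_comm]
    exact mul_le_mul_of_nonneg_right h2 (Nat.cast_nonneg _)
  obtain ⟨hco, hL1, hsz⟩ := h6 x (by omega)
  obtain ⟨hTS, hsqr⟩ := hsz A' hA1'
  set S1 := (Icc 1 x).filter (fun q => q ^ 2 ≤ x) with hS1
  set S2 := (Pr x).filter (fun q => 1 / 4 < SQ (x ^ 3) q) with hS2
  set S3 := (Pr x).filter (fun q => 1 < ‖FS (x ^ 3) q‖) with hS3
  set S4 := fun b : Bool => (Pr x).filter
    (fun q => C1 + 2 * Real.log (Real.log A') < ZS b q 0 (K8 x)) with hS4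
  set S5 := fun b : Bool => (Pr x).filter (fun q => C₀ < ZS b q (K8 x) (KE c x)) with hS5
  have hsub : (Icc 1 x).filter (fun q => q.Prime ∧ q ≠ 2 ∧ C₄ * Real.log A' <
      max (RR q) (RR q)⁻¹) ⊆ S1 ∪ S2 ∪ S3 ∪ (S4 true ∪ S4 false) ∪ (S5 true ∪ S5 false) := by
    intro q hq
    rw [mem_filter] at hq
    obtain ⟨hqI, hqp, hq2, hqV⟩ := hq
    by_contra hno
    simp only [mem_union, not_or] at hno
    obtain ⟨⟨⟨⟨n1, n2⟩, n3⟩, n4, n4'⟩, n5, n5'⟩ := hno
    have hqx : x < q ^ 2 := by
      by_contra h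
      push Not at h
      exact n1 (mem_filter.mpr ⟨hqI, h⟩)
    have hqP : q ∈ Pr x := mem_filter.mpr ⟨hqI, hqp, hqx⟩
    have a2 : SQ (x ^ 3) q ≤ 1 / 4 := by
      by_contra h
      push Not at h
      exact n2 (mem_filter.mpr ⟨hqP, h⟩)
    have a3 : ‖FS (x ^ 3) q‖ ≤ 1 := by
      by_contra h
      push Not at h
      exact n3 (mem_filter.mpr ⟨hqP, h⟩)
    have a4 : ∀ b, ZS b q 0 (K8 x) ≤ C1 + 2 * Real.log (Real.log A') := by
      intro b
      by_contra h
      push Not at h
      cases b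
      · exact n4' (mem_filter.mpr ⟨hqP, h⟩)
      · exact n4 (mem_filter.mpr ⟨hqP, h⟩)
    have a5 : ∀ b, ZS b q (K8 x) (KE c x) ≤ C₀ := by
      intro b
      by_contra h
      push Not at h
      cases b
      · exact n5' (mem_filter.mpr ⟨hqP, h⟩)
      · exact n5 (mem_filter.mpr ⟨hqP, h⟩)
    have := hco A' q hA3 hqP a2 a3 a4 a5
    linarith
  have hcard := card_le_card (hcount.trans hsub)
  have hun : (((Icc 1 x).filter (fun q => q.Prime ∧ q ≠ 2 ∧
      CC * Real.log A < max (RR q) (RR q)⁻¹)).card : ℝ) ≤ (S1.card : ℝ) + S2.card + S3.card +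
      ((S4 true).card + (S4 false).card) + ((S5 true).card + (S5 false).card) := by
    have e1 := card_union_le (S1 ∪ S2 ∪ S3 ∪ (S4 true ∪ S4 false)) (S5 true ∪ S5 false)
    have e2 := card_union_le (S1 ∪ S2 ∪ S3) (S4 true ∪ S4 false)
    have e3 := card_union_le (S1 ∪ S2) S3
    have e4 := card_union_le S1 S2
    have e5 := card_union_le (S4 true) (S4 false)
    have e6 := card_union_le (S5 true) (S5 false)
    exact_mod_cast (by omega : ((Icc 1 x).filter (fun q => q.Prime ∧ q ≠ 2 ∧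
      CC * Real.log A < max (RR q) (RR q)⁻¹)).card ≤ S1.card + S2.card + S3.card +
      ((S4 true).card + (S4 false).card) + ((S5 true).card + (S5 false).card))
  have b1 : (S1.card : ℝ) ≤ x / Real.log x ^ A' := (small_card x).trans hsqr
  have b2 : (S2.card : ℝ) ≤ x / Real.log x ^ A' := (hSec x (by omega)).trans hTS
  have b3 : (S3.card : ℝ) ≤ x / Real.log x ^ A' := (hFst x (by omega)).trans hTS
  have b4 : ((S4 true).card : ℝ) ≤ x / Real.log x ^ A' := hSml x (by omega) A' hA3 hA1' true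
  have b4' : ((S4 false).card : ℝ) ≤ x / Real.log x ^ A' := hSml x (by omega) A' hA3 hA1' false
  have b5 : ((S5 true).card : ℝ) ≤ x / Real.log x ^ A' := (hMid x (by omega) true).trans hTS
  have b5' : ((S5 false).card : ℝ) ≤ x / Real.log x ^ A' := (hMid x (by omega) false).trans hTS
  have hle : (x : ℝ) / Real.log x ^ A' ≤ x / Real.log x ^ A := by
    apply div_le_div_of_nonneg_left (by linarith) (by positivity)
    exact pow_le_pow_right₀ hL1 hAA'
  have hpos : 0 ≤ (x : ℝ) / Real.log x ^ A := by positivity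
  calc _ ≤ _ := hun
    _ ≤ 7 * (x / Real.log x ^ A') := by linarith
    _ ≤ 7 * (x / Real.log x ^ A) := by linarith
    _ ≤ CC * (x / Real.log x ^ A) := mul_le_mul_of_nonneg_right (by linarith) hpos

/-- the uniform theorem contains the one for fixed `A` -/
theorem mainb_of_mainu (h : StMainu) : StMainb := by
  obtain ⟨C, hC, h1⟩ := h
  refine ⟨C, hC, fun A hA => ?_⟩
  have hT1 : Tendsto (fun x : ℕ => Real.log x ^ (1 / 10 : ℝ)) atTop atTop :=
    (tendsto_rpow_atTop (by norm_num)).comp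
      (Real.tendsto_log_atTop.comp tendsto_natCast_atTop_atTop)
  obtain ⟨X, hX⟩ := eventually_atTop.mp (hT1.eventually (eventually_ge_atTop (A : ℝ)))
  obtain ⟨X', hX'⟩ : ∃ X', X' = max X 3 := ⟨_, rfl⟩
  have hlX : 0 ≤ Real.log X' := Real.log_natCast_nonneg _
  refine ⟨C + Real.log X' ^ A, by positivity, fun x hx => ?_⟩
  have hx2 : (2 : ℝ) ≤ x := by exact_mod_cast hx
  have hL : 0 < Real.log x := Real.log_pos (by linarith)
  have hpos : 0 ≤ (x : ℝ) / Real.log x ^ A := by positivity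
  rcases lt_or_ge x X' with hxX | hxX
  · have h1 : ((Icc 1 x).filter (fun q => q.Prime ∧ q ≠ 2 ∧
        C * Real.log A < max (RR q) (RR q)⁻¹)).card ≤ x := by
      refine (card_filter_le _ _).trans ?_
      rw [Nat.card_Icc, Nat.add_sub_cancel]
    have h2 : Real.log x ^ A ≤ C + Real.log X' ^ A := by
      have : Real.log x ≤ Real.log X' :=
        Real.log_le_log (by linarith) (by exact_mod_cast hxX.le)
      have h3 := pow_le_pow_left₀ hL.le this A
      linarith
    refine le_trans (b := (x : ℝ)) (by exact_mod_cast h1) ?_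
    rw [← mul_div_assoc, le_div_iff₀ (by positivity), mul_comm]
    exact mul_le_mul_of_nonneg_right h2 (Nat.cast_nonneg _)
  · refine (h1 x hx A hA (hX x (by omega))).trans ?_
    refine mul_le_mul_of_nonneg_right ?_ hpos
    have : 0 ≤ Real.log X' ^ A := by positivity
    linarith

/-- the bound `C log log q` outside a thin set -/
theorem thin (h : StMainu) : ∃ C : ℝ, 0 < C ∧ ∀ x : ℕ, 2 ≤ x →
    (((Icc 1 x).filter (fun q : ℕ => q.Prime ∧
      C * Real.log (Real.log q) ≤ max (RR q) (RR q)⁻¹)).card : ℝ) ≤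
      C * x * Real.exp (-Real.log x ^ (1 / 10 : ℝ)) := by
  obtain ⟨C, hC, h1⟩ := h
  have hT1 : Tendsto (fun x : ℕ => Real.log x) atTop atTop :=
    Real.tendsto_log_atTop.comp tendsto_natCast_atTop_atTop
  have hT : Tendsto (fun x : ℕ => Real.log (Real.log x)) atTop atTop :=
    Real.tendsto_log_atTop.comp hT1
  have hT10 : Tendsto (fun x : ℕ => Real.log x ^ (1 / 10 : ℝ)) atTop atTop :=
    (tendsto_rpow_atTop (by norm_num)).comp hT1
  obtain ⟨X, hX⟩ := eventually_atTop.mp ((hT10.eventually (eventually_ge_atTop 2)).and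
    ((hT.eventually (eventually_ge_atTop 2)).and (eventually_ge_atTop 9)))
  refine ⟨2 * C + 1 + Real.exp (Real.log X ^ (1 / 10 : ℝ)), by positivity, ?_⟩
  intro x hx
  have hx2 : (2 : ℝ) ≤ x := by exact_mod_cast hx
  have hL : 0 < Real.log x := Real.log_pos (by linarith)
  obtain ⟨CC, hCC⟩ : ∃ CC : ℝ, CC = 2 * C + 1 + Real.exp (Real.log X ^ (1 / 10 : ℝ)) := ⟨_, rfl⟩
  rw [← hCC]
  have heX := Real.exp_pos (Real.log X ^ (1 / 10 : ℝ))
  set v := Real.log x ^ (1 / 10 : ℝ) with hv
  rcases lt_or_ge x X with hxX | hxX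
  · have h2 : ((Icc 1 x).filter (fun q : ℕ => q.Prime ∧
      CC * Real.log (Real.log q) ≤ max (RR q) (RR q)⁻¹)).card ≤ x := by
      refine (card_filter_le _ _).trans ?_
      rw [Nat.card_Icc, Nat.add_sub_cancel]
    have h3 : v ≤ Real.log X ^ (1 / 10 : ℝ) :=
      Real.rpow_le_rpow hL.le (Real.log_le_log (by linarith) (by exact_mod_cast hxX.le))
        (by norm_num)
    have h4 : 1 ≤ CC * Real.exp (-v) := by
      have h5 : Real.exp v * Real.exp (-v) = 1 := by
        rw [← Real.exp_add]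
        simp
      have h6 : Real.exp v ≤ CC := by
        have := Real.exp_le_exp.mpr h3
        rw [hCC]
        linarith
      calc (1 : ℝ) = Real.exp v * Real.exp (-v) := h5.symm
        _ ≤ CC * Real.exp (-v) := mul_le_mul_of_nonneg_right h6 (Real.exp_pos _).le
    calc _ ≤ (x : ℝ) := by exact_mod_cast h2
      _ = 1 * x := (one_mul _).symm
      _ ≤ (CC * Real.exp (-v)) * x := mul_le_mul_of_nonneg_right h4 (Nat.cast_nonneg _)
      _ = _ := by ring
  obtain ⟨g1, g2, g3⟩ := hX x hxX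
  rw [← hv] at g1
  set L := Real.log x with hLdef
  set t := Real.log L with ht
  have hLt : L = Real.exp t := by rw [ht, Real.exp_log hL]
  have hvt : v = Real.exp (1 / 10 * t) := by
    rw [hv, hLt, ← Real.exp_mul]
    congr 1
    ring
  obtain ⟨A, hA⟩ : ∃ A : ℕ, A = ⌊v⌋₊ := ⟨_, rfl⟩
  have hA2 : 2 ≤ A := by
    rw [hA]
    exact Nat.le_floor (by exact_mod_cast g1)
  have hAv : (A : ℝ) ≤ v := by
    rw [hA]
    exact Nat.floor_le (by linarith)
  have hAv' : v / 2 ≤ A := by
    have := Nat.lt_floor_add_one v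
    rw [← hA] at this
    have h2 : (2 : ℝ) ≤ A := by exact_mod_cast hA2
    linarith
  have hbound := h1 x hx A hA2 (by rw [← hLdef, ← hv]; exact hAv)
  have hlogA : Real.log A ≤ 1 / 10 * t := by
    have h2 : Real.log A ≤ Real.log v := Real.log_le_log (by positivity) hAv
    rwa [hvt, Real.log_exp] at h2
  have hx0 : (0 : ℝ) < x := by linarith
  have hsub : (Icc 1 x).filter (fun q : ℕ => q.Prime ∧
      CC * Real.log (Real.log q) ≤ max (RR q) (RR q)⁻¹) ⊆
      (Icc 1 x).filter (fun q : ℕ => q ^ 2 ≤ x) ∪ (Icc 1 x).filter (fun q : ℕ => q.Prime ∧ q ≠ 2 ∧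
        C * Real.log A < max (RR q) (RR q)⁻¹) := by
    intro q hq
    rw [mem_filter] at hq
    rw [mem_union, mem_filter, mem_filter]
    rcases le_or_gt (q ^ 2) x with h2 | h2
    · exact Or.inl ⟨hq.1, h2⟩
    · refine Or.inr ⟨hq.1, hq.2.1, fun h => by rw [h] at h2; omega, ?_⟩
      have hq0 : (0 : ℝ) < q := by exact_mod_cast hq.2.1.pos
      have h3 : L / 2 ≤ Real.log q := by
        have h4 : Real.log x ≤ Real.log ((q : ℝ) ^ 2) :=
          Real.log_le_log hx0 (by exact_mod_cast h2.le)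
        rw [Real.log_pow] at h4
        push_cast at h4
        rw [hLdef]
        linarith
      have h4 : t / 2 ≤ Real.log (Real.log q) := by
        have h5 : Real.log (L / 2) ≤ Real.log (Real.log q) :=
          Real.log_le_log (by linarith) h3
        rw [Real.log_div hL.ne' (by norm_num), ← ht] at h5
        have h6 := Real.log_two_lt_d9
        linarith
      calc C * Real.log A ≤ C * (1 / 10 * t) := mul_le_mul_of_nonneg_left hlogA hC.le
        _ < CC * (t / 2) := by
            have h5 : C * (1 / 10 * t) ≤ C * (t / 2) := by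
              apply mul_le_mul_of_nonneg_left _ hC.le
              linarith
            have h6 : C * (t / 2) < CC * (t / 2) := by
              apply mul_lt_mul_of_pos_right _ (by linarith)
              rw [hCC]
              linarith
            linarith
        _ ≤ CC * Real.log (Real.log q) := by
            apply mul_le_mul_of_nonneg_left h4
            rw [hCC]
            positivity
        _ ≤ _ := hq.2.2
  have hun : (((Icc 1 x).filter (fun q : ℕ => q.Prime ∧
      CC * Real.log (Real.log q) ≤ max (RR q) (RR q)⁻¹)).card : ℝ) ≤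
      Real.sqrt x + C * (x / Real.log x ^ A) := by
    have h2 := card_le_card hsub
    have h3 := card_union_le ((Icc 1 x).filter (fun q : ℕ => q ^ 2 ≤ x))
      ((Icc 1 x).filter (fun q : ℕ => q.Prime ∧ q ≠ 2 ∧ C * Real.log A < max (RR q) (RR q)⁻¹))
    have h4 : (((Icc 1 x).filter (fun q : ℕ => q.Prime ∧
      CC * Real.log (Real.log q) ≤ max (RR q) (RR q)⁻¹)).card : ℝ) ≤
      (((Icc 1 x).filter (fun q : ℕ => q ^ 2 ≤ x)).card : ℝ) +
      (((Icc 1 x).filter (fun q : ℕ => q.Prime ∧ q ≠ 2 ∧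
        C * Real.log A < max (RR q) (RR q)⁻¹)).card : ℝ) := by exact_mod_cast h2.trans h3
    have h5 := small_card x
    linarith
  have hvL : v ≤ L / 2 := by
    have h2 : v * 2 ≤ v * Real.exp (9 / 10 * t) := by
      apply mul_le_mul_of_nonneg_left _ (by linarith)
      have := Real.add_one_le_exp (9 / 10 * t)
      linarith
    have h3 : v * Real.exp (9 / 10 * t) = L := by
      rw [hvt, hLt, ← Real.exp_add]
      congr 1
      ring
    linarith
  have hsq : Real.sqrt x ≤ x * Real.exp (-v) := by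
    have h2 : Real.sqrt x = Real.exp (1 / 2 * L) := by
      have : (x : ℝ) = Real.exp (1 / 2 * L) ^ 2 := by
        rw [← Real.exp_nat_mul, hLdef]
        conv_lhs => rw [← Real.exp_log hx0]
        congr 1
        push_cast
        ring
      rw [this, Real.sqrt_sq (Real.exp_pos _).le]
    rw [h2]
    conv_rhs => rw [← Real.exp_log hx0, ← hLdef]
    rw [← Real.exp_add]
    apply Real.exp_le_exp.mpr
    linarith
  have hpowA : (x : ℝ) / Real.log x ^ A ≤ x * Real.exp (-v) := by
    rw [div_eq_mul_inv]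
    apply mul_le_mul_of_nonneg_left _ hx0.le
    have h2 : Real.log x ^ A = Real.exp (A * t) := by
      rw [Real.exp_nat_mul, ← hLt]
    rw [h2, ← Real.exp_neg]
    apply Real.exp_le_exp.mpr
    nlinarith
  have hpos : 0 ≤ (x : ℝ) * Real.exp (-v) := by positivity
  calc _ ≤ Real.sqrt x + C * (x / Real.log x ^ A) := hun
    _ ≤ x * Real.exp (-v) + C * (x * Real.exp (-v)) := by
        have := mul_le_mul_of_nonneg_left hpowA hC.le
        linarith
    _ = (1 + C) * (x * Real.exp (-v)) := by ring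
    _ ≤ CC * (x * Real.exp (-v)) := by
        apply mul_le_mul_of_nonneg_right _ hpos
        rw [hCC]
        linarith
    _ = _ := by ring

end Pool.Agent.Lib.MP_0f858a_nt.KR
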