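import Pool.Agent.Lib.MP_0f858a_nt.KR.StmtsC84
import Pool.Agent.Lib.MP_973905_nt.PrimeSum
import Pool.Agent.Lib.MT2.Rates82

/-!
C5 MIDU (helper12): the `k` of middle size, by the variance of an upper bound sieve.
-/

set_option autoImplicit false

namespace Pool.Agent.Lib.MP_0f858a_nt.KR

open Finset Filter
open scoped Classical

namespace Midu12

lemma PP_eq (z0 z : ℕ) : TwinAll.PP z0 z = Pz2 z0 z := by
  ext p
  simp [TwinAll.PP, Pz2]

/-- Mertens -/
lemma prod_le (z0 : ℕ) : ∃ C : ℝ, 0 < C ∧ ∀ z : ℕ, 2 ≤ z →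
    ∏ p ∈ Pz2 z0 z, (1 - 1 / (p : ℝ)) ≤ C / Real.log z := by
  obtain ⟨C, hC, h⟩ := MP_973905_nt.sum_inv
  refine ⟨Real.exp (C + z0), Real.exp_pos _, fun z hz => ?_⟩
  have hz2 : (2 : ℝ) ≤ z := by exact_mod_cast hz
  have h1 := (abs_le.1 (h z hz2)).1
  have hlz : 0 < Real.log z := Real.log_pos (by linarith)
  have h2 : ∑ p ∈ MP_973905_nt.PS 0 z, (1 : ℝ) / p ≤ ∑ p ∈ Pz2 z0 z, 1 / (p : ℝ) + z0 := by
    have hsub : MP_973905_nt.PS 0 z ⊆ Pz2 z0 z ∪ Icc 1 z0 := by
      intro p hp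
      unfold MP_973905_nt.PS at hp
      rw [Finset.mem_filter, Finset.mem_Ioc, Nat.floor_zero, Nat.floor_natCast] at hp
      rw [Finset.mem_union]
      by_cases h3 : z0 < p
      · left
        exact Finset.mem_filter.2 ⟨Finset.mem_Ioc.2 ⟨h3, hp.1.2⟩, hp.2⟩
      · right
        exact Finset.mem_Icc.2 ⟨hp.2.one_le, not_lt.1 h3⟩
    calc ∑ p ∈ MP_973905_nt.PS 0 z, (1 : ℝ) / p ≤ ∑ p ∈ Pz2 z0 z ∪ Icc 1 z0, (1 : ℝ) / p :=
          Finset.sum_le_sum_of_subset_of_nonneg hsub fun _ _ _ => by positivity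
      _ ≤ ∑ p ∈ Pz2 z0 z, 1 / (p : ℝ) + ∑ p ∈ Icc 1 z0, 1 / (p : ℝ) := by
          have h4 := Finset.sum_union_inter (s₁ := Pz2 z0 z) (s₂ := Icc 1 z0)
            (f := fun p : ℕ => 1 / (p : ℝ))
          have h5 : 0 ≤ ∑ p ∈ Pz2 z0 z ∩ Icc 1 z0, 1 / (p : ℝ) :=
            Finset.sum_nonneg fun _ _ => by positivity
          linarith
      _ ≤ ∑ p ∈ Pz2 z0 z, 1 / (p : ℝ) + z0 := by
          have h6 : ∑ p ∈ Icc 1 z0, 1 / (p : ℝ) ≤ ∑ p ∈ Icc 1 z0, (1 : ℝ) := by
            refine Finset.sum_le_sum fun p hp => ?_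
            have h7 : (1 : ℝ) ≤ p := by exact_mod_cast (Finset.mem_Icc.1 hp).1
            rw [div_le_one (by linarith)]
            exact h7
          simp only [Finset.sum_const, Nat.card_Icc, nsmul_eq_mul, mul_one] at h6
          have h8 : ((z0 + 1 - 1 : ℕ) : ℝ) = z0 := by simp
          linarith
  calc ∏ p ∈ Pz2 z0 z, (1 - 1 / (p : ℝ)) ≤ ∏ p ∈ Pz2 z0 z, Real.exp (-(1 / (p : ℝ))) := by
        refine Finset.prod_le_prod (fun p hp => ?_) (fun p hp => ?_)
        · have h3 : p.Prime := (Finset.mem_filter.1 hp).2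
          have h4 : (1 : ℝ) ≤ p := by exact_mod_cast h3.one_le
          have h5 : 1 / (p : ℝ) ≤ 1 := (div_le_one (by linarith)).2 h4
          linarith
        · have h3 := Real.add_one_le_exp (-(1 / (p : ℝ)))
          linarith
    _ = Real.exp (-∑ p ∈ Pz2 z0 z, 1 / (p : ℝ)) := by
        rw [← Real.exp_sum, Finset.sum_neg_distrib]
    _ ≤ Real.exp ((C + z0) - Real.log (Real.log z)) := by
        refine Real.exp_le_exp.2 ?_
        linarith
    _ = Real.exp (C + z0) / Real.log z := by rw [Real.exp_sub, Real.exp_log hlz]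

/-- the block estimate for one number -/
lemma count_le (b : Bool) (K z0 z : ℕ) (U : Finset ℕ → ℝ) (hK : 1 ≤ K)
    (hind : ∀ h : ℕ → ℝ, (∀ q, 0 ≤ h q ∧ h q ≤ 1) →
      ∏ q ∈ Pz2 z0 z, (1 - h q) ≤ ∑ D ∈ (Pz2 z0 z).powerset, U D * ∏ q ∈ D, h q)
    (q : ℕ) (hq : q.Prime) (hqz : z < q) :
    (((Ioc K (2 * K)).filter (fun k => (pk b q k).Prime)).card : ℝ) ≤
      ∑ D ∈ (Pz2 z0 z).powerset, U D * rho b K D q +
        K * ∑ D ∈ (Pz2 z0 z).powerset, U D * ∏ p ∈ D, (1 / (p : ℝ)) := by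
  have h1 : ∀ k ∈ Ioc K (2 * K), (if (pk b q k).Prime then (1 : ℝ) else 0) ≤
      ∑ D ∈ (Pz2 z0 z).powerset, U D * (if ∀ p ∈ D, p ∣ pk b q k then (1 : ℝ) else 0) := by
    intro k hk
    have h2 := hind (fun p => if p ∣ pk b q k then 1 else 0) (fun p => by
      split_ifs <;> norm_num)
    simp only [Finset.prod_boole] at h2
    refine le_trans ?_ h2
    split_ifs with h3
    · refine le_of_eq (Finset.prod_eq_one fun p hp => ?_).symm
      have hp1 := Finset.mem_filter.1 hp
      have hp2 := (Finset.mem_Ioc.1 hp1.1).2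
      rw [if_neg, sub_zero]
      intro h4
      have h5 := (Nat.prime_dvd_prime_iff_eq hp1.2 h3).1 h4
      have hk1 := (Finset.mem_Ioc.1 hk).1
      -- `pk > z`
      have h6 : z < pk b q k := by
        have h7 : 2 * q ≤ k * q := Nat.mul_le_mul_right q (by omega)
        have h8 := hq.two_le
        unfold pk
        split_ifs <;> omega
      omega
    · refine Finset.prod_nonneg fun p _ => ?_
      split_ifs <;> norm_num
  have h2 : (((Ioc K (2 * K)).filter (fun k => (pk b q k).Prime)).card : ℝ) ≤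
      ∑ D ∈ (Pz2 z0 z).powerset, U D * (cD b K D q : ℝ) := by
    calc (((Ioc K (2 * K)).filter (fun k => (pk b q k).Prime)).card : ℝ)
        = ∑ k ∈ Ioc K (2 * K), (if (pk b q k).Prime then (1 : ℝ) else 0) := by
          rw [Finset.sum_boole]
      _ ≤ ∑ k ∈ Ioc K (2 * K), ∑ D ∈ (Pz2 z0 z).powerset,
            U D * (if ∀ p ∈ D, p ∣ pk b q k then (1 : ℝ) else 0) := Finset.sum_le_sum h1
      _ = ∑ D ∈ (Pz2 z0 z).powerset, U D * (cD b K D q : ℝ) := by
          rw [Finset.sum_comm]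
          refine Finset.sum_congr rfl fun D _ => ?_
          rw [← Finset.mul_sum, Finset.sum_boole]
          rfl
  refine h2.trans (le_of_eq ?_)
  rw [Finset.mul_sum, ← Finset.sum_add_distrib]
  refine Finset.sum_congr rfl fun D hD => ?_
  have hD' := Finset.mem_powerset.1 hD
  have h3 : ∀ p ∈ D, ¬ p ∣ q := by
    intro p hp h4
    have hp1 := Finset.mem_filter.1 (hD' hp)
    have h5 := (Nat.prime_dvd_prime_iff_eq hp1.2 hq).1 h4
    have := (Finset.mem_Ioc.1 hp1.1).2
    omega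
  have h4 : ∏ p ∈ D, (1 / (p : ℝ)) = 1 / ((∏ p ∈ D, p : ℕ) : ℝ) := by
    push_cast
    rw [Finset.prod_div_distrib, Finset.prod_const_one]
  rw [rho, if_pos h3, h4]
  ring

/-- the block -/
lemma block (hVar : StVar) : ∃ s0 : ℕ, 1 ≤ s0 ∧ ∃ C : ℝ, 0 < C ∧ ∃ x₀ : ℕ, ∀ x, x₀ ≤ x →
    ∀ (b : Bool) (K : ℕ), 1 ≤ K → (K : ℝ) ≤ Real.exp (Real.log x / (20 * s0)) →
    (((Pr x).filter (fun q => C / Real.log x < ZS b q K (2 * K))).card : ℝ) ≤
      C * x * Real.log x ^ 7 / K := by
  obtain ⟨s1, zs, hS⟩ := MT2.R82.s1r_82 1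
  obtain ⟨CV, hCV, hV⟩ := hVar
  obtain ⟨CM, hCM, hM⟩ := prod_le zs
  set s0 : ℕ := s1 + 1 with hs0
  have hs0' : (1 : ℝ) ≤ s0 := by
    rw [hs0]
    push_cast
    have : (0 : ℝ) ≤ s1 := Nat.cast_nonneg _
    linarith
  have hT1 : Tendsto (fun x : ℕ => Real.log x / (40 * s0)) atTop atTop :=
    Tendsto.atTop_div_const (by linarith)
      (Real.tendsto_log_atTop.comp tendsto_natCast_atTop_atTop)
  have hT2 : Tendsto (fun x : ℕ => Real.log x) atTop atTop :=
    Real.tendsto_log_atTop.comp tendsto_natCast_atTop_atTop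
  obtain ⟨x₀, hx₀⟩ := eventually_atTop.mp ((hT1.eventually (eventually_ge_atTop
    ((zs : ℝ) + 2))).and (hT2.eventually (eventually_ge_atTop (5 : ℝ))))
  refine ⟨s0, by omega, max (80 * s0 * CM + 1) (CV + 1), lt_max_of_lt_right (by linarith), x₀, ?_⟩
  intro x hx b K hK hKe
  obtain ⟨hL1, hL2⟩ := hx₀ x hx
  set L : ℝ := Real.log x with hL
  set C : ℝ := max (80 * s0 * CM + 1) (CV + 1) with hC
  have hL0 : 0 < L := by linarith
  have hx0 : (0 : ℝ) < x := by
    by_contra h
    have h1 : (x : ℝ) = 0 := le_antisymm (not_lt.1 h) (Nat.cast_nonneg _)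
    rw [hL, h1, Real.log_zero] at hL2
    linarith
  have hxe : Real.exp L = x := Real.exp_log hx0
  -- `y = exp (L / (40 s0))`
  set y : ℝ := Real.exp (L / (40 * s0)) with hy
  have hy2 : (zs : ℝ) + 2 + 1 ≤ y := by
    have h1 := Real.add_one_le_exp (L / (40 * s0))
    linarith
  have hzs0 : (0 : ℝ) ≤ zs := Nat.cast_nonneg _
  have hyy : Real.exp (L / (20 * s0)) = y ^ 2 := by
    rw [hy, ← Real.exp_nat_mul]
    congr 1
    field_simp
    norm_num
  set z : ℕ := ⌊Real.exp (L / (20 * s0))⌋₊ with hz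
  have hze : (z : ℝ) ≤ Real.exp (L / (20 * s0)) := Nat.floor_le (Real.exp_pos _).le
  have hzy : y ≤ z := by
    have h1 := Nat.lt_floor_add_one (Real.exp (L / (20 * s0)))
    rw [← hz, hyy] at h1
    nlinarith
  have hz2 : 2 ≤ z := by
    have h1 : (2 : ℝ) ≤ z := by linarith
    exact_mod_cast h1
  have hzz : zs ≤ z := by
    have h1 : (zs : ℝ) ≤ z := by linarith
    exact_mod_cast h1
  have hlz : L / (40 * s0) ≤ Real.log z := by
    rw [Real.le_log_iff_exp_le (by linarith)]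
    exact hzy
  have hlz1 : Real.log z ≤ L := by
    have h1 := Real.log_le_log (by linarith) hze
    rw [Real.log_exp] at h1
    refine h1.trans ?_
    exact div_le_self hL0.le (by linarith)
  have hlz0 : 0 ≤ Real.log z := Real.log_nonneg (by linarith)
  obtain ⟨U, U2, hU1, hU2, hU3, hU4⟩ := hS 0 zs le_rfl z hzz
  rw [PP_eq] at hU2 hU3 hU4
  set R : ℕ := z ^ s0 with hR
  have hRe : (R : ℝ) ≤ Real.exp (L / 20) := by
    rw [hR]
    push_cast
    calc (z : ℝ) ^ s0 ≤ Real.exp (L / (20 * s0)) ^ s0 :=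
          pow_le_pow_left₀ (Nat.cast_nonneg _) hze _
      _ = Real.exp (L / 20) := by
          rw [← Real.exp_nat_mul]
          congr 1
          field_simp
  have hvar := hV b K x zs z R U hK hz2 (fun D => (hU1 D).1) (fun D hD hne => by
    have h1 := hU2 D hD (Or.inl hne)
    refine h1.trans (Nat.pow_le_pow_right (by omega) ?_)
    rw [hs0]
    simp)
  have hK1 : (1 : ℝ) ≤ K := by exact_mod_cast hK
  have hK20 : (K : ℝ) ≤ Real.exp (L / 20) := by
    refine hKe.trans (Real.exp_le_exp.2 ?_)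
    apply div_le_div_of_nonneg_left hL0.le (by norm_num)
    linarith
  have hrest : 4 * (K : ℝ) ^ 2 * (R : ℝ) ^ 3 ≤ K * x * L ^ 5 := by
    have e1 : Real.exp (L / 20) * Real.exp (L / 20) ^ 3 = Real.exp (L / 5) := by
      rw [← Real.exp_nat_mul, ← Real.exp_add]
      congr 1
      push_cast
      ring
    have e2 : 4 * Real.exp (L / 5) ≤ x := by
      have e3 : (x : ℝ) = Real.exp (4 * L / 5) * Real.exp (L / 5) := by
        rw [← Real.exp_add, ← hxe]
        congr 1
        ring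
      have e4 : (4 : ℝ) ≤ Real.exp (4 * L / 5) := by
        have e5 := Real.quadratic_le_exp_of_nonneg (show 0 ≤ 4 * L / 5 by positivity)
        nlinarith
      rw [e3]
      exact mul_le_mul_of_nonneg_right e4 (Real.exp_pos _).le
    have e6 : (1 : ℝ) ≤ L ^ 5 := one_le_pow₀ (by linarith)
    calc 4 * (K : ℝ) ^ 2 * (R : ℝ) ^ 3 = 4 * K * (K * (R : ℝ) ^ 3) := by ring
      _ ≤ 4 * K * (Real.exp (L / 20) * Real.exp (L / 20) ^ 3) := by
          refine mul_le_mul_of_nonneg_left ?_ (by positivity)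
          exact mul_le_mul hK20 (pow_le_pow_left₀ (Nat.cast_nonneg _) hRe 3) (by positivity)
            (Real.exp_pos _).le
      _ = K * (4 * Real.exp (L / 5)) := by rw [e1]; ring
      _ ≤ K * x := mul_le_mul_of_nonneg_left e2 (by positivity)
      _ = K * x * 1 := by ring
      _ ≤ K * x * L ^ 5 := mul_le_mul_of_nonneg_left e6 (by positivity)
  have hvar2 : ∑ n ∈ Icc 1 x, (∑ D ∈ (Pz2 zs z).powerset, U D * rho b K D n) ^ 2 ≤
      (CV + 1) * K * x * L ^ 5 := by
    have h1 : CV * K * x * Real.log z ^ 5 ≤ CV * K * x * L ^ 5 :=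
      mul_le_mul_of_nonneg_left (pow_le_pow_left₀ hlz0 hlz1 5) (by positivity)
    calc _ ≤ _ := hvar
      _ ≤ CV * K * x * L ^ 5 + K * x * L ^ 5 := add_le_add h1 hrest
      _ = _ := by ring
  -- the bad numbers
  set EE' : ℕ → ℝ := fun n => ∑ D ∈ (Pz2 zs z).powerset, U D * rho b K D n with hEE
  have hbad : (((Icc 1 x).filter (fun n => K / L < |EE' n|)).card : ℝ) ≤
      (CV + 1) * x * L ^ 7 / K := by
    have h1 : (((Icc 1 x).filter (fun n => K / L < |EE' n|)).card : ℝ) * (K / L) ^ 2 ≤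
        (CV + 1) * K * x * L ^ 5 := by
      calc (((Icc 1 x).filter (fun n => K / L < |EE' n|)).card : ℝ) * (K / L) ^ 2
          = ∑ n ∈ (Icc 1 x).filter (fun n => K / L < |EE' n|), (K / L) ^ 2 := by
            rw [Finset.sum_const, nsmul_eq_mul]
        _ ≤ ∑ n ∈ (Icc 1 x).filter (fun n => K / L < |EE' n|), EE' n ^ 2 := by
            refine Finset.sum_le_sum fun n hn => ?_
            have h2 := (Finset.mem_filter.1 hn).2
            rw [← sq_abs (EE' n)]
            exact pow_le_pow_left₀ (by positivity) h2.le 2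
        _ ≤ ∑ n ∈ Icc 1 x, EE' n ^ 2 :=
            Finset.sum_le_sum_of_subset_of_nonneg (Finset.filter_subset _ _)
              fun _ _ _ => sq_nonneg _
        _ ≤ _ := hvar2
    have h3 : (CV + 1) * (x : ℝ) * L ^ 7 / K = (CV + 1) * K * x * L ^ 5 / (K / L) ^ 2 := by
      field_simp
    rw [h3, le_div_iff₀ (by positivity)]
    exact h1
  -- the inclusion
  have hsub : (Pr x).filter (fun q => C / L < ZS b q K (2 * K)) ⊆
      (Icc 1 x).filter (fun n => K / L < |EE' n|) := by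
    intro q hq
    obtain ⟨hq1, hq2⟩ := Finset.mem_filter.1 hq
    obtain ⟨hq3, hq4, hq5⟩ := Finset.mem_filter.1 hq1
    refine Finset.mem_filter.2 ⟨hq3, ?_⟩
    by_contra hcon
    push Not at hcon
    apply absurd hq2
    push Not
    -- `z < q`
    have hzq : z < q := by
      have h1 : (z : ℝ) ^ 2 ≤ x := by
        calc (z : ℝ) ^ 2 ≤ Real.exp (L / 20) ^ 2 := by
              refine pow_le_pow_left₀ (Nat.cast_nonneg _) (hze.trans (Real.exp_le_exp.2 ?_)) 2
              apply div_le_div_of_nonneg_left hL0.le (by norm_num)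
              linarith
          _ = Real.exp (L / 10) := by
              rw [← Real.exp_nat_mul]
              congr 1
              push_cast
              ring
          _ ≤ x := by
              rw [← hxe]
              exact Real.exp_le_exp.2 (by linarith)
      have h2 : z ^ 2 ≤ x := by exact_mod_cast h1
      have h3 : z ^ 2 < q ^ 2 := lt_of_le_of_lt h2 hq5
      exact lt_of_pow_lt_pow_left₀ 2 (Nat.zero_le _) h3
    have h1 := count_le b K zs z U hK (fun h hh => (hU3 h hh).2) q hq4 hzq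
    have h2 := (hU4 (fun p => 1 / (p : ℝ)) (fun p hp => ⟨by positivity, by simp⟩)).1
    have h3 := hM z hz2
    have h4 : ∑ D ∈ (Pz2 zs z).powerset, U D * ∏ p ∈ D, (1 / (p : ℝ)) ≤ 80 * s0 * CM / L := by
      calc ∑ D ∈ (Pz2 zs z).powerset, U D * ∏ p ∈ D, (1 / (p : ℝ))
          ≤ (1 + (1 / 2) ^ 0) * ∏ p ∈ Pz2 zs z, (1 - 1 / (p : ℝ)) := h2
        _ ≤ 2 * (CM / Real.log z) := by
            rw [pow_zero]
            linarith
        _ ≤ 2 * (CM / (L / (40 * s0))) := by
            refine mul_le_mul_of_nonneg_left ?_ (by norm_num)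
            exact div_le_div_of_nonneg_left hCM.le (by positivity) hlz
        _ = 80 * s0 * CM / L := by
            field_simp
            ring
    have h5 : (((Ioc K (2 * K)).filter (fun k => (pk b q k).Prime)).card : ℝ) ≤ C * K / L := by
      calc (((Ioc K (2 * K)).filter (fun k => (pk b q k).Prime)).card : ℝ)
          ≤ EE' q + K * ∑ D ∈ (Pz2 zs z).powerset, U D * ∏ p ∈ D, (1 / (p : ℝ)) := h1
        _ ≤ K / L + K * (80 * s0 * CM / L) := by
            refine add_le_add ((le_abs_self _).trans hcon)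
              (mul_le_mul_of_nonneg_left h4 (by positivity))
        _ = (80 * s0 * CM + 1) * (K / L) := by ring
        _ ≤ C * (K / L) := mul_le_mul_of_nonneg_right (le_max_left _ _) (by positivity)
        _ = _ := by ring
    calc ZS b q K (2 * K) ≤ ∑ k ∈ (Ioc K (2 * K)).filter (fun k => (pk b q k).Prime),
          1 / (K : ℝ) := by
          unfold ZS
          refine Finset.sum_le_sum fun k hk => ?_
          have h6 := (Finset.mem_Ioc.1 (Finset.mem_filter.1 hk).1).1
          have h7 : (K : ℝ) ≤ k := by exact_mod_cast h6.le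
          exact one_div_le_one_div_of_le (by linarith) h7
      _ = (((Ioc K (2 * K)).filter (fun k => (pk b q k).Prime)).card : ℝ) / K := by
          rw [Finset.sum_const, nsmul_eq_mul]
          ring
      _ ≤ (C * K / L) / K := div_le_div_of_nonneg_right h5 (by positivity)
      _ = C / L := by field_simp
  calc (((Pr x).filter (fun q => C / L < ZS b q K (2 * K))).card : ℝ)
      ≤ (((Icc 1 x).filter (fun n => K / L < |EE' n|)).card : ℝ) := by
        exact_mod_cast card_le_card hsub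
    _ ≤ (CV + 1) * x * L ^ 7 / K := hbad
    _ ≤ C * x * L ^ 7 / K := by
        have h1 : CV + 1 ≤ C := le_max_right _ _
        have h2 : (0 : ℝ) ≤ x * L ^ 7 / K := by positivity
        calc (CV + 1) * x * L ^ 7 / K = (CV + 1) * (x * L ^ 7 / K) := by ring
          _ ≤ C * (x * L ^ 7 / K) := mul_le_mul_of_nonneg_right h1 h2
          _ = _ := by ring

end Midu12

open Midu12 in
/-- module C5 MIDU -/
theorem stMidu_12 (hVar : StVar) : StMidu := by
  obtain ⟨s0, hs0, C, hC, x₁, hblock⟩ := block hVar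
  -- growth
  have hev : ∀ᶠ u : ℝ in atTop, 3 * C * u ^ 64 ≤ Real.exp (1 / 2 * u) := by
    have h := (isLittleO_pow_exp_pos_mul_atTop (k := 64) (b := (1 / 2 : ℝ)) (by norm_num)).bound
      (show (0 : ℝ) < 1 / (3 * C) by positivity)
    filter_upwards [h, eventually_ge_atTop (0 : ℝ)] with u h1 h2
    rw [Real.norm_of_nonneg (by positivity), Real.norm_of_nonneg (Real.exp_pos _).le] at h1
    rw [one_div, inv_mul_eq_div, le_div_iff₀ (by positivity)] at h1
    linarith
  have hT2 : Tendsto (fun x : ℕ => Real.log x) atTop atTop :=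
    Real.tendsto_log_atTop.comp tendsto_natCast_atTop_atTop
  have hT8 : Tendsto (fun x : ℕ => Real.log x ^ (1 / 8 : ℝ)) atTop atTop :=
    (tendsto_rpow_atTop (by norm_num)).comp hT2
  obtain ⟨x₂, hx₂⟩ := eventually_atTop.mp ((hT8.eventually hev).and
    (hT2.eventually (eventually_ge_atTop (1 : ℝ))))
  refine ⟨20 * s0, by omega, 3 * C, max x₁ x₂, ?_⟩
  intro x hx b
  obtain ⟨hu, hL1⟩ := hx₂ x ((le_max_right _ _).trans hx)
  have hblock' := hblock x ((le_max_left _ _).trans hx) b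
  set L : ℝ := Real.log x with hL
  have hL0 : 0 < L := by linarith
  have hx0 : (0 : ℝ) < x := by
    by_contra h
    have h1 : (x : ℝ) = 0 := le_antisymm (not_lt.1 h) (Nat.cast_nonneg _)
    rw [hL, h1, Real.log_zero] at hL1
    linarith
  set u : ℝ := L ^ (1 / 8 : ℝ) with hudef
  have hu0 : 0 ≤ u := by positivity
  have huL : u ^ 64 = L ^ 8 := by
    rw [hudef, ← Real.rpow_natCast, ← Real.rpow_mul hL0.le, ← Real.rpow_natCast]
    norm_num
  have hK8 : Real.exp u ≤ (K8 x : ℝ) := by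
    unfold K8
    exact Nat.le_ceil _
  have hK81 : 1 ≤ K8 x := by
    have h1 : (1 : ℝ) ≤ K8 x := (Real.one_le_exp hu0).trans hK8
    exact_mod_cast h1
  have hKEe : (KE (20 * s0) x : ℝ) ≤ Real.exp (L / (20 * s0)) := by
    unfold KE
    refine (Nat.floor_le (Real.exp_pos _).le).trans (le_of_eq ?_)
    push_cast
    rfl
  set J : Finset ℕ := (range (⌊2 * L⌋₊ + 1)).filter
    (fun j => 2 ^ j * K8 x ≤ KE (20 * s0) x) with hJ
  have hJcard : (J.card : ℝ) ≤ 3 * L := by
    have h1 : J.card ≤ ⌊2 * L⌋₊ + 1 := by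
      refine (card_filter_le _ _).trans ?_
      simp
    have h2 : ((⌊2 * L⌋₊ : ℕ) : ℝ) ≤ 2 * L := Nat.floor_le (by positivity)
    have h3 : (J.card : ℝ) ≤ (⌊2 * L⌋₊ : ℝ) + 1 := by exact_mod_cast h1
    linarith
  -- the blocks cover the interval
  have hcov : ∀ q, ZS b q (K8 x) (KE (20 * s0) x) ≤
      ∑ j ∈ J, ZS b q (2 ^ j * K8 x) (2 * (2 ^ j * K8 x)) := by
    intro q
    unfold ZS
    have hj : ∀ k ∈ (Ioc (K8 x) (KE (20 * s0) x)).filter (fun k => (pk b q k).Prime),
        2 ^ (Nat.log 2 ((k - 1) / K8 x)) * K8 x < k ∧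
          k ≤ 2 * (2 ^ (Nat.log 2 ((k - 1) / K8 x)) * K8 x) := by
      intro k hk
      have hk1 := Finset.mem_Ioc.1 (Finset.mem_filter.1 hk).1
      have h1 : (k - 1) / K8 x ≠ 0 := by
        have h2 : 1 ≤ (k - 1) / K8 x := by
          rw [Nat.le_div_iff_mul_le (by omega)]
          omega
        omega
      constructor
      · have h2 := Nat.pow_log_le_self 2 h1
        rw [Nat.le_div_iff_mul_le (by omega)] at h2
        omega
      · have h2 := Nat.lt_pow_succ_log_self (b := 2) (by norm_num) ((k - 1) / K8 x)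
        rw [Nat.div_lt_iff_lt_mul (by omega), pow_succ] at h2
        have h3 : 2 ^ Nat.log 2 ((k - 1) / K8 x) * 2 * K8 x =
          2 * (2 ^ Nat.log 2 ((k - 1) / K8 x) * K8 x) := by ring
        omega
    have hmaps : ∀ k ∈ (Ioc (K8 x) (KE (20 * s0) x)).filter (fun k => (pk b q k).Prime),
        Nat.log 2 ((k - 1) / K8 x) ∈ J := by
      intro k hk
      obtain ⟨h1, -⟩ := hj k hk
      have hk1 := Finset.mem_Ioc.1 (Finset.mem_filter.1 hk).1
      have h2 : 2 ^ (Nat.log 2 ((k - 1) / K8 x)) * K8 x ≤ KE (20 * s0) x := by omega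
      refine Finset.mem_filter.2 ⟨Finset.mem_range.2 (Nat.lt_succ_of_le (Nat.le_floor ?_)), h2⟩
      have h3 : (2 : ℝ) ^ (Nat.log 2 ((k - 1) / K8 x)) ≤ Real.exp L := by
        have h4 : 2 ^ (Nat.log 2 ((k - 1) / K8 x)) ≤ KE (20 * s0) x :=
          (Nat.le_mul_of_pos_right _ (by omega)).trans h2
        have h5 : ((2 ^ (Nat.log 2 ((k - 1) / K8 x)) : ℕ) : ℝ) ≤ KE (20 * s0) x := by
          exact_mod_cast h4
        push_cast at h5
        refine h5.trans (hKEe.trans (Real.exp_le_exp.2 ?_))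
        apply div_le_self hL0.le
        have : (1 : ℝ) ≤ s0 := by exact_mod_cast hs0
        linarith
      have h6 := Real.log_le_log (by positivity) h3
      rw [Real.log_pow, Real.log_exp] at h6
      have h7 := Real.log_two_gt_d9
      have h8 : (0 : ℝ) ≤ (Nat.log 2 ((k - 1) / K8 x) : ℕ) := Nat.cast_nonneg _
      nlinarith
    rw [← Finset.sum_fiberwise_of_maps_to hmaps]
    refine Finset.sum_le_sum fun j _ => ?_
    refine Finset.sum_le_sum_of_subset_of_nonneg ?_ fun _ _ _ => by positivity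
    intro k hk
    obtain ⟨hk1, hk2⟩ := Finset.mem_filter.1 hk
    obtain ⟨h1, h2⟩ := hj k hk1
    rw [hk2] at h1 h2
    exact Finset.mem_filter.2 ⟨Finset.mem_Ioc.2 ⟨h1, h2⟩, (Finset.mem_filter.1 hk1).2⟩
  -- the exceptional set
  have hsub : (Pr x).filter (fun q => 3 * C < ZS b q (K8 x) (KE (20 * s0) x)) ⊆
      J.biUnion fun j => (Pr x).filter
        (fun q => C / L < ZS b q (2 ^ j * K8 x) (2 * (2 ^ j * K8 x))) := by
    intro q hq
    obtain ⟨hq1, hq2⟩ := Finset.mem_filter.1 hq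
    by_contra hcon
    have h1 : ∀ j ∈ J, ZS b q (2 ^ j * K8 x) (2 * (2 ^ j * K8 x)) ≤ C / L := by
      intro j hj
      by_contra h2
      exact hcon (Finset.mem_biUnion.2 ⟨j, hj, Finset.mem_filter.2 ⟨hq1, not_le.1 h2⟩⟩)
    have h3 : ZS b q (K8 x) (KE (20 * s0) x) ≤ 3 * C := by
      calc ZS b q (K8 x) (KE (20 * s0) x)
          ≤ ∑ j ∈ J, ZS b q (2 ^ j * K8 x) (2 * (2 ^ j * K8 x)) := hcov q
        _ ≤ ∑ j ∈ J, C / L := Finset.sum_le_sum h1
        _ = J.card * (C / L) := by rw [Finset.sum_const, nsmul_eq_mul]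
        _ ≤ 3 * L * (C / L) := mul_le_mul_of_nonneg_right hJcard (by positivity)
        _ = 3 * C := by field_simp
    linarith
  have hone : ∀ j ∈ J, (((Pr x).filter
      (fun q => C / L < ZS b q (2 ^ j * K8 x) (2 * (2 ^ j * K8 x)))).card : ℝ) ≤
      C * x * L ^ 7 / Real.exp u := by
    intro j hj
    have hj2 := (Finset.mem_filter.1 hj).2
    have h1 : 1 ≤ 2 ^ j * K8 x := Nat.mul_pos (by positivity) (by omega)
    have h2 : ((2 ^ j * K8 x : ℕ) : ℝ) ≤ Real.exp (L / (20 * s0)) := by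
      have h3 : ((2 ^ j * K8 x : ℕ) : ℝ) ≤ KE (20 * s0) x := by exact_mod_cast hj2
      exact h3.trans hKEe
    refine (hblock' (2 ^ j * K8 x) h1 h2).trans ?_
    apply div_le_div_of_nonneg_left (by positivity) (Real.exp_pos _)
    refine hK8.trans ?_
    have h4 : K8 x ≤ 2 ^ j * K8 x := Nat.le_mul_of_pos_left _ (by positivity)
    exact_mod_cast h4
  calc (((Pr x).filter (fun q => 3 * C < ZS b q (K8 x) (KE (20 * s0) x))).card : ℝ)
      ≤ ((J.biUnion fun j => (Pr x).filter
        (fun q => C / L < ZS b q (2 ^ j * K8 x) (2 * (2 ^ j * K8 x)))).card : ℝ) := by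
        exact_mod_cast card_le_card hsub
    _ ≤ ∑ j ∈ J, (((Pr x).filter
        (fun q => C / L < ZS b q (2 ^ j * K8 x) (2 * (2 ^ j * K8 x)))).card : ℝ) := by
        exact_mod_cast card_biUnion_le
    _ ≤ ∑ j ∈ J, C * x * L ^ 7 / Real.exp u := Finset.sum_le_sum hone
    _ = J.card * (C * x * L ^ 7 / Real.exp u) := by rw [Finset.sum_const, nsmul_eq_mul]
    _ ≤ 3 * L * (C * x * L ^ 7 / Real.exp u) :=
        mul_le_mul_of_nonneg_right hJcard (by positivity)
    _ = x * ((3 * C * u ^ 64) / Real.exp u) := by rw [huL]; ring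
    _ ≤ x * (Real.exp (1 / 2 * u) / Real.exp u) := by
        refine mul_le_mul_of_nonneg_left ?_ hx0.le
        exact div_le_div_of_nonneg_right hu (Real.exp_pos _).le
    _ = TS x := by
        unfold TS
        rw [← Real.exp_sub]
        congr 2
        rw [← hL, ← hudef]
        ring

end Pool.Agent.Lib.MP_0f858a_nt.KR
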