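import Pool.Agent.Lib.MP_0f858a_nt.KR.Cnt84

/-!
MP_0f858a_nt, MID: the moment.
-/

set_option autoImplicit false

namespace Pool.Agent.Lib.MP_0f858a_nt.KR

open Finset
open scoped Classical
open Pool.Agent.Lib.MP_973905_nt (PS)

/-- the class of `k q + 1` or `k q - 1` modulo `M` is a unit -/
noncomputable def Ua (b : Bool) (M a : ℕ) : Finset (ZMod M) :=
  if h : M = 0 then ∅ else
    haveI : NeZero M := ⟨h⟩
    univ.filter fun r : ZMod M => IsUnit (r * (a : ZMod M) + (if b then 1 else -1))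

theorem Ua_card (b : Bool) (M a : ℕ) (hM : 0 < M) (ha : Nat.Coprime a M) :
    (Ua b M a).card = M.totient := by
  have : NeZero M := ⟨hM.ne'⟩
  unfold Ua
  rw [dif_neg hM.ne']
  have hu : IsUnit (a : ZMod M) := (ZMod.isUnit_iff_coprime a M).mpr ha
  obtain ⟨u, hu'⟩ := hu
  rw [← ZMod.card_units_eq_totient M, ← Finset.card_univ]
  refine card_bij' (fun r hr => (mem_filter.mp hr).2.unit)
    (fun v _ => ((v : ZMod M) - (if b then 1 else -1)) * ((u⁻¹ : (ZMod M)ˣ) : ZMod M))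
    (fun _ _ => mem_univ _) ?_ ?_ ?_
  · intro v _
    refine mem_filter.mpr ⟨mem_univ _, ?_⟩
    rw [← hu', mul_assoc, Units.inv_mul, mul_one, sub_add_cancel]
    exact v.isUnit
  · intro r hr
    simp only [IsUnit.unit_spec]
    rw [add_sub_cancel_right, ← hu', mul_assoc, Units.mul_inv, mul_one]
  · intro v _
    ext
    simp only [IsUnit.unit_spec]
    rw [← hu', mul_assoc, Units.inv_mul, mul_one, sub_add_cancel]

/-- the count as a multiple of `Psi` -/
theorem cnt_psi (C : ℝ) (hC : 1 ≤ C) (hSv : SvC C) (b : Bool) (x M a w z₀ : ℕ) (hM : 0 < M)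
    (hMz : ∀ l : ℕ, l.Prime → z₀ < l → ¬ l ∣ M)
    (hMz' : ∀ l : ℕ, l.Prime → l ∣ M → l ≤ z₀) (hzx : z₀ ^ 2 ≤ x)
    (hw : 2 ≤ w) (hwz : 2 * w ≤ z₀)
    (hX : C * w * Real.log z₀ ≤ Real.log ((x / M + 1 : ℕ) : ℝ)) (hXx : x / M + 1 ≤ x) (l : List ℕ)
    (hl : l.Nodup) (hlen : l.length + 1 = w) (hl2 : ∀ k ∈ l, 2 ≤ k) :
    ((SA b x M a l).card : ℝ) ≤ if Nat.Coprime a M then ((x / M + 1 : ℕ) : ℝ) *
      (C * w * Real.log z₀ / Real.log ((x / M + 1 : ℕ) : ℝ)) ^ w * Psi w z₀ M (Ua b M a) l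
      else 0 := by
  have : NeZero M := ⟨hM.ne'⟩
  have hB0 : 0 ≤ ((x / M + 1 : ℕ) : ℝ) *
      (C * w * Real.log z₀ / Real.log ((x / M + 1 : ℕ) : ℝ)) ^ w := by
    have h1 : 0 ≤ Real.log z₀ := Real.log_natCast_nonneg _
    have h2 : 0 ≤ Real.log ((x / M + 1 : ℕ) : ℝ) := Real.log_natCast_nonneg _
    have h3 : 0 ≤ C := by linarith
    positivity
  have hPsi : 0 ≤ Psi w z₀ M (Ua b M a) l := by
    unfold Psi
    split_ifs
    · exact (Real.exp_pos _).le
    · exact le_rfl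
  by_cases hne : (SA b x M a l).Nonempty
  swap
  · rw [not_nonempty_iff_eq_empty.mp hne, card_empty, Nat.cast_zero]
    split_ifs
    · exact mul_nonneg hB0 hPsi
    · exact le_rfl
  obtain ⟨q, hq⟩ := hne
  rw [SA, mem_filter] at hq
  obtain ⟨hqP, hqa, hqk⟩ := hq
  unfold Pr at hqP
  rw [mem_filter, mem_Icc] at hqP
  obtain ⟨⟨hq1, hqx⟩, hqp, hqx2⟩ := hqP
  have hzq : z₀ < q := by
    have h2 : z₀ ^ 2 < q ^ 2 := by omega
    exact lt_of_pow_lt_pow_left₀ 2 (Nat.zero_le _) h2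
  have hcopr : ∀ p : ℕ, p.Prime → z₀ < p → Nat.Coprime p M := by
    intro p hp hzp
    exact (Nat.Prime.coprime_iff_not_dvd hp).mpr fun h => by
      have := hMz' p hp h
      omega
  have hqM := hcopr q hqp hzq
  have haM : Nat.Coprime a M := by
    have h1 : Nat.gcd (q % M) M = Nat.gcd q M := by
      rw [← Nat.gcd_rec, Nat.gcd_comm]
    unfold Nat.Coprime
    rw [← hqa, h1]
    exact hqM
  rw [if_pos haM]
  have hqa' : (q : ZMod M) = (a : ZMod M) := by
    rw [← hqa, ZMod.natCast_mod]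
  have hP : Psi w z₀ M (Ua b M a) l = Real.exp (w * fD z₀ (DL l)) := by
    unfold Psi
    rw [if_pos]
    intro k hk
    unfold Ua
    rw [dif_neg hM.ne', mem_filter]
    refine ⟨mem_univ _, ?_⟩
    have hk2 := hl2 k hk
    have hpk := hqk k hk
    have hlt : q < pk b q k := by
      have h8 : 2 * q ≤ k * q := Nat.mul_le_mul_right _ hk2
      have := hqp.two_le
      unfold pk
      split_ifs <;> omega
    have h1 := hcopr _ hpk (by omega)
    have h2 : ((pk b q k : ℕ) : ZMod M) = (k : ZMod M) * (a : ZMod M) + (if b then 1 else -1) := by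
      rw [← hqa']
      unfold pk
      cases b with
      | true => simp
      | false =>
        have h6 : 1 ≤ k * q := Nat.mul_pos (by omega) (by omega)
        simp only [Bool.false_eq_true, if_false]
        rw [Nat.cast_sub h6]
        push_cast
        ring
    rw [← h2]
    exact (ZMod.isUnit_iff_coprime _ M).mpr h1
  rw [hP]
  exact cnt C hSv b x M a w z₀ hM hMz hw hwz hX hXx l hl hlen hl2

/-- the moment -/
theorem moment84 (C : ℝ) (hC : 1 ≤ C) (hSv : SvC C) (Cm : ℝ) (hCm0 : 0 ≤ Cm)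
    (hCm : ∀ x : ℝ, 2 ≤ x →
      |∑ p ∈ PS 0 x, (1 : ℝ) / p - Real.log (Real.log x)| ≤ Cm)
    (b : Bool) (x M s z₀ K₀ K₁ : ℕ) (hM : 0 < M)
    (hMz : ∀ l : ℕ, l.Prime → z₀ < l → ¬ l ∣ M)
    (hzx : z₀ ^ 2 ≤ x) (hs : 1 ≤ s) (hwz : 2 * (s + 1) ≤ z₀) (hwz2 : (s + 1) ^ 2 ≤ z₀)
    (hX : C * (s + 1 : ℕ) * Real.log z₀ ≤ Real.log ((x / M + 1 : ℕ) : ℝ)) (hXx : x / M + 1 ≤ x)
    (hK₀ : 2 ≤ K₀) (hK₁ : 3 ≤ K₁) (hsK : 2 * s ^ 2 ≤ K₀) :
    (((Pr x).filter (fun q => 1 < ZS b q K₀ K₁)).card : ℝ) ≤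
      2 * (M.totient : ℝ) * (((x / M + 1 : ℕ) : ℝ) *
      (C * (s + 1 : ℕ) * Real.log z₀ / Real.log ((x / M + 1 : ℕ) : ℝ)) ^ (s + 1)) *
      (M.totient * (1 / K₀ * Real.exp (2 * ((s + 1 : ℕ) : ℝ) ^ 2 *
        (Real.log (Real.log K₁) + Cm)) + (1 + Real.log K₁) / M * Real.exp 2)) ^ s := by
  have : NeZero M := ⟨hM.ne'⟩
  set Bd : ℝ := ((x / M + 1 : ℕ) : ℝ) *
      (C * (s + 1 : ℕ) * Real.log z₀ / Real.log ((x / M + 1 : ℕ) : ℝ)) ^ (s + 1) with hBd
  have hBd0 : 0 ≤ Bd := by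
    have h1 : 0 ≤ Real.log z₀ := Real.log_natCast_nonneg _
    have h2 : 0 ≤ Real.log ((x / M + 1 : ℕ) : ℝ) := Real.log_natCast_nonneg _
    have h3 : 0 ≤ C := by linarith
    positivity
  set K := Ioc K₀ K₁ with hK
  -- lower bound
  have hlow : ∀ q ∈ (Pr x).filter (fun q => 1 < ZS b q K₀ K₁), (1 / 2 : ℝ) ≤
      IS K (fun l => if ∀ k ∈ l, (pk b q k).Prime then 1 else 0) s [] := by
    intro q hq
    rw [mem_filter] at hq
    have hZ : 1 < ∑ k ∈ K.filter (fun k => (pk b q k).Prime), 1 / (k : ℝ) := hq.2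
    have h1 : (1 - (s : ℝ) / K₀) ^ s ≤
        IS K (fun l => if ∀ k ∈ l, (pk b q k).Prime then 1 else 0) s [] := by
      have h0 := IS_lower K (fun k => (pk b q k).Prime) K₀ (by omega)
        (fun k hk => (mem_Ioc.mp hk).1) (by convert hZ) s (by nlinarith) s [] (gd_nil _)
        (by simp) (by simp)
      convert h0
    refine le_trans ?_ h1
    have hK₀' : (0 : ℝ) < K₀ := by exact_mod_cast (by omega : 0 < K₀)
    have h2 : (2 : ℝ) * s ^ 2 ≤ K₀ := by exact_mod_cast hsK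
    have hs' : (1 : ℝ) ≤ s := by exact_mod_cast hs
    have h3 : (s : ℝ) / K₀ ≤ 1 := by
      rw [div_le_one hK₀']
      nlinarith
    have h4 := one_add_mul_le_pow (a := -((s : ℝ) / K₀)) (by linarith) s
    have h5 : (s : ℝ) * ((s : ℝ) / K₀) ≤ 1 / 2 := by
      rw [← mul_div_assoc, div_le_iff₀ hK₀']
      nlinarith
    calc (1 / 2 : ℝ) ≤ 1 + (s : ℝ) * (-((s : ℝ) / K₀)) := by linarith
      _ ≤ (1 + -((s : ℝ) / K₀)) ^ s := h4
      _ = _ := by ring
  have hcount : ∀ l, Gd K l → l.length = s →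
      ∑ q ∈ Pr x, (if ∀ k ∈ l, (pk b q k).Prime then (1 : ℝ) else 0) ≤
      ∑ a ∈ (range M).filter (fun a => Nat.Coprime a M),
        Bd * Psi (s + 1) z₀ M (Ua b M a) l := by
    intro l hl hlen
    have e1 : ∑ q ∈ Pr x, (if ∀ k ∈ l, (pk b q k).Prime then (1 : ℝ) else 0) =
        ∑ a ∈ range M, ((SA b x M a l).card : ℝ) := by
      rw [← Nat.cast_sum, ← sum_filter, sum_const, nsmul_eq_mul, mul_one]
      congr 1
      rw [card_eq_sum_card_fiberwise (f := fun q => q % M) (t := range M)]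
      · refine sum_congr rfl fun a _ => ?_
        congr 1
        unfold SA
        rw [filter_filter]
        refine filter_congr fun q _ => ?_
        tauto
      · intro q _
        exact mem_coe.mpr (mem_range.mpr (Nat.mod_lt _ hM))
    rw [e1, sum_filter]
    refine sum_le_sum fun a _ => ?_
    exact cnt_psi C hC hSv b x M a (s + 1) z₀ hM hMz
      (fun l hl h => by
        by_contra h1
        exact hMz l hl (by omega) h) hzx (by omega) hwz hX hXx l hl.1 (by omega)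
      (fun k hk => by
        have := (mem_Ioc.mp (hl.2 k hk)).1
        omega)
  have hup : ∑ q ∈ Pr x, IS K (fun l => if ∀ k ∈ l, (pk b q k).Prime then 1 else 0) s [] ≤
      ∑ a ∈ (range M).filter (fun a => Nat.Coprime a M),
        Bd * D1 Cm (s + 1) K₀ K₁ M (Ua b M a) ^ s := by
    rw [← IS_sum]
    refine (IS_mono K _ _ s hcount s [] (gd_nil _) (by simp)).trans ?_
    rw [IS_sum]
    refine sum_le_sum fun a _ => ?_
    rw [IS_smul]
    exact mul_le_mul_of_nonneg_left (IS_psi Cm hCm (s + 1) z₀ K₀ K₁ M (by omega) hwz2 (by omega)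
      hM hMz hK₁ hCm0 (Ua b M a) s (by omega)) hBd0
  have hD : ∀ a ∈ (range M).filter (fun a => Nat.Coprime a M),
      D1 Cm (s + 1) K₀ K₁ M (Ua b M a) = M.totient * (1 / K₀ * Real.exp (2 * ((s + 1 : ℕ) : ℝ) ^ 2 *
        (Real.log (Real.log K₁) + Cm)) + (1 + Real.log K₁) / M * Real.exp 2) := by
    intro a ha
    unfold D1
    rw [Ua_card b M a hM (mem_filter.mp ha).2]
  have hup2 : ∑ a ∈ (range M).filter (fun a => Nat.Coprime a M),
        Bd * D1 Cm (s + 1) K₀ K₁ M (Ua b M a) ^ s = (M.totient : ℝ) * Bd *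
      (M.totient * (1 / K₀ * Real.exp (2 * ((s + 1 : ℕ) : ℝ) ^ 2 *
        (Real.log (Real.log K₁) + Cm)) + (1 + Real.log K₁) / M * Real.exp 2)) ^ s := by
    rw [sum_congr rfl fun a ha => by rw [hD a ha], sum_const, nsmul_eq_mul]
    have : ((range M).filter (fun a => Nat.Coprime a M)).card = M.totient := by
      rw [Nat.totient_eq_card_coprime]
      congr 1
      refine filter_congr fun a _ => ?_
      exact Nat.coprime_comm
    rw [this]
    ring
  have hfin : (((Pr x).filter (fun q => 1 < ZS b q K₀ K₁)).card : ℝ) * (1 / 2) ≤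
      ∑ q ∈ Pr x, IS K (fun l => if ∀ k ∈ l, (pk b q k).Prime then 1 else 0) s [] := by
    rw [← nsmul_eq_mul, ← sum_const]
    refine (sum_le_sum hlow).trans ?_
    exact sum_le_sum_of_subset_of_nonneg (filter_subset _ _) fun q _ _ =>
      IS_nonneg _ _ (fun l => by positivity) _ _
  have h9 := hfin.trans (hup.trans hup2.le)
  linarith

end Pool.Agent.Lib.MP_0f858a_nt.KR
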