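import Pool.Agent.Lib.MP_0f858a_nt.KR.IS84
import Pool.Agent.Lib.MP_973905_nt.PrimeSum

/-!
MP_0f858a_nt, MID: the average of `exp (c fD (k - u))` over the numbers `k` of some residue classes.
-/

set_option autoImplicit false

namespace Pool.Agent.Lib.MP_0f858a_nt.KR

open Finset
open scoped Classical

theorem fD_nonneg (z₀ n : ℕ) : 0 ≤ fD z₀ n := sum_nonneg fun l _ => by positivity

theorem fD_one (z₀ : ℕ) : fD z₀ 1 = 0 := by simp [fD]

theorem fD_mul (z₀ a b : ℕ) (ha : a ≠ 0) (hb : b ≠ 0) : fD z₀ (a * b) ≤ fD z₀ a + fD z₀ b := by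
  unfold fD
  rw [Nat.primeFactors_mul ha hb, filter_union]
  have h := sum_union_inter (s₁ := a.primeFactors.filter (fun l => z₀ < l))
    (s₂ := b.primeFactors.filter (fun l => z₀ < l)) (f := fun l : ℕ => 1 / (l : ℝ))
  have h1 : (0 : ℝ) ≤ ∑ l ∈ a.primeFactors.filter (fun l => z₀ < l) ∩
      b.primeFactors.filter (fun l => z₀ < l), 1 / (l : ℝ) :=
    sum_nonneg fun l _ => by positivity
  linarith

theorem fD_list (z₀ : ℕ) (l : List ℕ) (hl : l.prod ≠ 0) :
    fD z₀ l.prod ≤ (l.map (fD z₀)).sum := by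
  induction l with
  | nil => simp [fD_one]
  | cons a l ih =>
    rw [List.prod_cons] at hl ⊢
    rw [List.map_cons, List.sum_cons]
    have := fD_mul z₀ a l.prod (left_ne_zero_of_mul hl) (right_ne_zero_of_mul hl)
    have := ih (right_ne_zero_of_mul hl)
    linarith

theorem fD_DL (z₀ k : ℕ) (l : List ℕ) (h : DL (k :: l) ≠ 0) (hnd : (0 :: l).Nodup) :
    fD z₀ (DL (k :: l)) ≤ (∑ u ∈ (0 :: l).toFinset, fD z₀ (df k u)) + fD z₀ (DL l) := by
  have h1 : DL (k :: l) = ((0 :: l).map (df k)).prod * DL l := rfl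
  rw [h1] at h ⊢
  have h2 := fD_mul z₀ _ _ (left_ne_zero_of_mul h) (right_ne_zero_of_mul h)
  have h3 := fD_list z₀ _ (left_ne_zero_of_mul h)
  rw [List.map_map] at h3
  have h4 : ((0 :: l).map (fD z₀ ∘ df k)).sum = ∑ u ∈ (0 :: l).toFinset, fD z₀ (df k u) :=
    (List.sum_toFinset _ hnd).symm
  linarith

theorem exp_le_one_add {t : ℝ} (h0 : 0 ≤ t) (h1 : t ≤ 1) : Real.exp t ≤ 1 + 2 * t := by
  have h := Real.exp_bound' h0 h1 (n := 1) (by norm_num)
  simp at h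
  linarith

/-- the set of the primes `> z₀` dividing `n` -/
noncomputable def Pz (z₀ n : ℕ) : Finset ℕ := n.primeFactors.filter fun l => z₀ < l

theorem exp_fD (z₀ n : ℕ) (c : ℝ) (hc0 : 0 ≤ c) (hc : c ≤ z₀) :
    Real.exp (c * fD z₀ n) ≤ ∑ D ∈ (Pz z₀ n).powerset, ∏ l ∈ D, (2 * c / (l : ℝ)) := by
  have h1 : Real.exp (c * fD z₀ n) = ∏ l ∈ Pz z₀ n, Real.exp (c / l) := by
    rw [← Real.exp_sum]
    unfold fD Pz
    rw [mul_sum]
    congr 1
    exact sum_congr rfl fun l _ => by ring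
  have h2 : ∏ l ∈ Pz z₀ n, (1 + 2 * c / (l : ℝ)) =
      ∑ D ∈ (Pz z₀ n).powerset, ∏ l ∈ D, (2 * c / (l : ℝ)) := prod_one_add _
  rw [h1, ← h2]
  refine prod_le_prod (fun l _ => (Real.exp_pos _).le) fun l hl => ?_
  unfold Pz at hl
  rw [mem_filter] at hl
  have hl0 : (0 : ℝ) < l := by
    have : 0 < l := lt_of_le_of_lt (Nat.zero_le _) hl.2
    exact_mod_cast this
  have h3 : c / l ≤ 1 := by
    rw [div_le_one hl0]
    exact hc.trans (by exact_mod_cast hl.2.le)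
  have := exp_le_one_add (div_nonneg hc0 hl0.le) h3
  calc Real.exp (c / l) ≤ 1 + 2 * (c / l) := this
    _ = _ := by ring

/-- numbers in one residue class -/
theorem sum_ap (K₀ K₁ N₀ : ℕ) (hK₀ : 0 < K₀) (hK₁ : 1 ≤ K₁) (hN₀ : 0 < N₀) (A : Finset ℕ)
    (hA : A ⊆ Ioc K₀ K₁) (hc : ∀ k ∈ A, ∀ k' ∈ A, k ≡ k' [MOD N₀]) :
    ∑ k ∈ A, 1 / (k : ℝ) ≤ 1 / K₀ + (1 + Real.log K₁) / N₀ := by
  have hK₀' : (0 : ℝ) < K₀ := by exact_mod_cast hK₀
  have hN₀' : (0 : ℝ) < N₀ := by exact_mod_cast hN₀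
  have hlog : 0 ≤ Real.log K₁ := Real.log_natCast_nonneg _
  rcases A.eq_empty_or_nonempty with h | h
  · subst h
    simp only [sum_empty]
    positivity
  set k₀ := A.min' h with hk₀
  have hk₀A : k₀ ∈ A := A.min'_mem h
  have hk₀' := mem_Ioc.mp (hA hk₀A)
  rw [← add_sum_erase A _ hk₀A]
  apply add_le_add
  · apply one_div_le_one_div_of_le hK₀'
    exact_mod_cast hk₀'.1.le
  · have h1 : ∀ k ∈ A.erase k₀, ∃ i : ℕ, 1 ≤ i ∧ k = k₀ + N₀ * i := by
      intro k hk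
      rw [mem_erase] at hk
      have h2 : k₀ ≤ k := A.min'_le k hk.2
      have h3 : N₀ ∣ k - k₀ := (Nat.modEq_iff_dvd' h2).mp (hc k₀ hk₀A k hk.2)
      obtain ⟨i, hi⟩ := h3
      refine ⟨i, ?_, by omega⟩
      rcases Nat.eq_zero_or_pos i with h4 | h4
      · subst h4
        omega
      · exact h4
    have h5 : ∑ k ∈ A.erase k₀, 1 / (k : ℝ) ≤
        ∑ i ∈ Icc 1 K₁, 1 / ((N₀ : ℝ) * i) := by
      set g : ℕ → ℕ := fun k => (k - k₀) / N₀ with hg
      have hgk : ∀ k ∈ A.erase k₀, 1 ≤ g k ∧ k = k₀ + N₀ * g k := by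
        intro k hk
        obtain ⟨i, hi1, hi2⟩ := h1 k hk
        have e1 : g k = i := by
          simp only [hg]
          rw [hi2, Nat.add_sub_cancel_left, Nat.mul_div_cancel_left _ hN₀]
        rw [e1]
        exact ⟨hi1, hi2⟩
      have hinj : Set.InjOn g (A.erase k₀ : Finset ℕ) := by
        intro a ha b hb hab
        rw [(hgk a ha).2, (hgk b hb).2, hab]
      calc ∑ k ∈ A.erase k₀, 1 / (k : ℝ) ≤ ∑ k ∈ A.erase k₀, 1 / ((N₀ : ℝ) * (g k : ℕ)) := by
            refine sum_le_sum fun k hk => ?_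
            obtain ⟨hi1, hi2⟩ := hgk k hk
            have hi1' : (1 : ℝ) ≤ (g k : ℕ) := by exact_mod_cast hi1
            have hpos : 0 < (N₀ : ℝ) * (g k : ℕ) := by positivity
            apply one_div_le_one_div_of_le hpos
            have : (k : ℝ) = k₀ + N₀ * (g k : ℕ) := by exact_mod_cast hi2
            rw [this]
            have : (0 : ℝ) ≤ k₀ := Nat.cast_nonneg _
            linarith
        _ = ∑ i ∈ (A.erase k₀).image g, 1 / ((N₀ : ℝ) * i) :=
            (sum_image (f := fun i : ℕ => 1 / ((N₀ : ℝ) * i)) hinj).symm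
        _ ≤ _ := by
            refine sum_le_sum_of_subset_of_nonneg ?_ fun i _ _ => by positivity
            intro i hi
            obtain ⟨k, hk, rfl⟩ := mem_image.mp hi
            obtain ⟨hi1, hi2⟩ := hgk k hk
            rw [mem_Icc]
            refine ⟨hi1, ?_⟩
            have hkK := (mem_Ioc.mp (hA (mem_of_mem_erase hk))).2
            have : g k ≤ N₀ * g k := Nat.le_mul_of_pos_left _ hN₀
            omega
    refine h5.trans ?_
    have h6 : ∑ i ∈ Icc 1 K₁, 1 / ((N₀ : ℝ) * i) = (1 / N₀) * ∑ i ∈ Icc 1 K₁, 1 / (i : ℝ) := by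
      rw [mul_sum]
      exact sum_congr rfl fun i _ => by
        rw [one_div_mul_one_div]
    have h7 : ∑ i ∈ Icc 1 K₁, 1 / (i : ℝ) ≤ 1 + Real.log K₁ := by
      have := harmonic_le_one_add_log K₁
      rw [harmonic_eq_sum_Icc] at this
      push_cast at this
      simpa using this
    rw [h6]
    calc (1 / (N₀ : ℝ)) * ∑ i ∈ Icc 1 K₁, 1 / (i : ℝ) ≤ (1 / N₀) * (1 + Real.log K₁) :=
          mul_le_mul_of_nonneg_left h7 (by positivity)
      _ = _ := by ring

end Pool.Agent.Lib.MP_0f858a_nt.KR
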