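import Pool.Agent.Lib.MP_0f858a_nt.KR.ONE84

/-!
MP_0f858a_nt, MID: the average of `exp (c fD (k - u))` over the numbers `k` of some residue classes.
-/

set_option autoImplicit false

namespace Pool.Agent.Lib.MP_0f858a_nt.KR

open Finset
open scoped Classical
open Pool.Agent.Lib.MP_973905_nt (PS)

theorem df_le {k u K : ℕ} (hk : k ≤ K) (hu : u ≤ K) : df k u ≤ K := by
  unfold df
  omega

theorem modEq_of_dvd_df {k u m : ℕ} (h : m ∣ df k u) : k ≡ u [MOD m] := by
  unfold df at h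
  rcases le_total k u with h1 | h1
  · rw [Nat.sub_eq_zero_of_le h1, zero_add] at h
    exact (Nat.modEq_iff_dvd' h1).mpr h
  · rw [Nat.sub_eq_zero_of_le h1, add_zero] at h
    exact ((Nat.modEq_iff_dvd' h1).mpr h).symm

/-- the sum over the numbers congruent to `u` modulo the primes of `D` -/
theorem sum_classes (z₀ K₀ K₁ M u : ℕ) (hK₀ : 0 < K₀) (hM : 0 < M)
    (hMz : ∀ l : ℕ, l.Prime → z₀ < l → ¬ l ∣ M) (hK₁ : 1 ≤ K₁) (U : Finset (ZMod M))
    (D : Finset ℕ) (hD : ∀ l ∈ D, l.Prime ∧ z₀ < l) :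
    ∑ k ∈ (Ioc K₀ K₁).filter (fun k : ℕ => (k : ZMod M) ∈ U ∧ (∀ l ∈ D, l ∣ df k u)), 1 / (k : ℝ) ≤
      (U.card : ℝ) * (1 / K₀ + (1 + Real.log K₁) / ((M : ℝ) * ((∏ l ∈ D, l : ℕ) : ℝ))) := by
  set m := ∏ l ∈ D, l with hm
  have hmpos : 0 < m := prod_pos fun l hl => (hD l hl).1.pos
  have hcop : Nat.Coprime M m := by
    rw [hm]
    refine Nat.Coprime.prod_right fun l hl => ?_
    exact ((Nat.Prime.coprime_iff_not_dvd (hD l hl).1).mpr
      (hMz l (hD l hl).1 (hD l hl).2)).symm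
  set T := (Ioc K₀ K₁).filter (fun k : ℕ => (k : ZMod M) ∈ U ∧ (∀ l ∈ D, l ∣ df k u)) with hT
  have hmaps : ∀ k ∈ T, (k : ZMod M) ∈ U := fun k hk => (mem_filter.mp hk).2.1
  rw [← sum_fiberwise_of_maps_to hmaps]
  calc ∑ r ∈ U, ∑ k ∈ T.filter (fun k : ℕ => (k : ZMod M) = r), 1 / (k : ℝ)
      ≤ ∑ r ∈ U, (1 / K₀ + (1 + Real.log K₁) / ((M : ℝ) * (m : ℝ))) := by
        refine sum_le_sum fun r _ => ?_
        have h1 := sum_ap K₀ K₁ (M * m) hK₀ hK₁ (Nat.mul_pos hM hmpos)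
          (T.filter fun k : ℕ => (k : ZMod M) = r) (fun k hk => (mem_filter.mp (mem_filter.mp hk).1).1)
          (by
            intro k hk k' hk'
            rw [mem_filter] at hk hk'
            have e1 : k ≡ k' [MOD M] := by
              rw [← ZMod.natCast_eq_natCast_iff, hk.2, hk'.2]
            have e2 : ∀ k ∈ T, k ≡ u [MOD m] := by
              intro k hk
              refine modEq_of_dvd_df ?_
              rw [hm]
              refine Finset.prod_primes_dvd _ (fun l hl => (hD l hl).1.prime) fun l hl => ?_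
              exact (mem_filter.mp hk).2.2 l hl
            exact (Nat.modEq_and_modEq_iff_modEq_mul hcop).mp
              ⟨e1, (e2 k hk.1).trans (e2 k' hk'.1).symm⟩)
        push_cast at h1
        exact h1
    _ = _ := by rw [sum_const, nsmul_eq_mul]

/-- the average -/
theorem one_sum (Cm : ℝ) (hCm : ∀ x : ℝ, 2 ≤ x →
      |∑ p ∈ PS 0 x, (1 : ℝ) / p - Real.log (Real.log x)| ≤ Cm)
    (z₀ K₀ K₁ M u : ℕ) (hz₀ : 1 ≤ z₀) (hK₀ : 0 < K₀) (hM : 0 < M)
    (hMz : ∀ l : ℕ, l.Prime → z₀ < l → ¬ l ∣ M) (hK₁ : 3 ≤ K₁) (hu : u ≤ K₁)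
    (U : Finset (ZMod M)) (c : ℝ) (hc0 : 0 ≤ c) (hc : c ≤ z₀) :
    ∑ k ∈ (Ioc K₀ K₁).filter (fun k : ℕ => (k : ZMod M) ∈ U ∧ k ≠ u),
      1 / (k : ℝ) * Real.exp (c * fD z₀ (df k u)) ≤
      (U.card : ℝ) * (1 / K₀ * Real.exp (2 * c * (Real.log (Real.log K₁) + Cm)) +
        (1 + Real.log K₁) / M * Real.exp 2) := by
  set PP := (Icc 1 K₁).filter (fun l => l.Prime ∧ z₀ < l) with hPP
  set g : Finset ℕ → ℝ := fun D => ∏ l ∈ D, (2 * c / (l : ℝ)) with hg
  set T := (Ioc K₀ K₁).filter (fun k : ℕ => (k : ZMod M) ∈ U ∧ k ≠ u) with hT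
  have hK₁r : (3 : ℝ) ≤ K₁ := by exact_mod_cast hK₁
  have hlog : 0 < Real.log K₁ := Real.log_pos (by linarith)
  have hPl : ∀ l ∈ PP, l.Prime ∧ z₀ < l ∧ l ≤ K₁ := fun l hl => by
    rw [hPP, mem_filter, mem_Icc] at hl
    exact ⟨hl.2.1, hl.2.2, hl.1.2⟩
  have hg0 : ∀ D, 0 ≤ g D := fun D => prod_nonneg fun l _ => by positivity
  have hPz : ∀ k ∈ T, Pz z₀ (df k u) ⊆ PP := by
    intro k hk l hl
    rw [hT, mem_filter, mem_Ioc] at hk
    unfold Pz at hl
    rw [mem_filter, Nat.mem_primeFactors] at hl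
    rw [hPP, mem_filter, mem_Icc]
    refine ⟨⟨hl.1.1.one_lt.le, ?_⟩, hl.1.1, hl.2⟩
    exact (Nat.le_of_dvd (df_pos hk.2.2) hl.1.2.1).trans (df_le hk.1.2 hu)
  -- step 1
  have h1 : ∑ k ∈ T, 1 / (k : ℝ) * Real.exp (c * fD z₀ (df k u)) ≤
      ∑ D ∈ PP.powerset, g D * ∑ k ∈ (Ioc K₀ K₁).filter
        (fun k : ℕ => (k : ZMod M) ∈ U ∧ (∀ l ∈ D, l ∣ df k u)), 1 / (k : ℝ) := by
    calc ∑ k ∈ T, 1 / (k : ℝ) * Real.exp (c * fD z₀ (df k u))
        ≤ ∑ k ∈ T, ∑ D ∈ PP.powerset, (if (∀ l ∈ D, l ∣ df k u) then g D * (1 / (k : ℝ)) else 0) := by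
          refine sum_le_sum fun k hk => ?_
          have e1 := exp_fD z₀ (df k u) c hc0 hc
          calc 1 / (k : ℝ) * Real.exp (c * fD z₀ (df k u))
              ≤ 1 / (k : ℝ) * ∑ D ∈ (Pz z₀ (df k u)).powerset, g D :=
                mul_le_mul_of_nonneg_left e1 (by positivity)
            _ = ∑ D ∈ (Pz z₀ (df k u)).powerset, g D * (1 / (k : ℝ)) := by
                rw [mul_sum]
                exact sum_congr rfl fun D _ => mul_comm _ _
            _ = ∑ D ∈ (Pz z₀ (df k u)).powerset,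
                (if (∀ l ∈ D, l ∣ df k u) then g D * (1 / (k : ℝ)) else 0) := by
                refine sum_congr rfl fun D hD => ?_
                rw [mem_powerset] at hD
                rw [if_pos fun l hl => ?_]
                have := hD hl
                unfold Pz at this
                rw [mem_filter, Nat.mem_primeFactors] at this
                exact this.1.2.1
            _ ≤ _ := by
                refine sum_le_sum_of_subset_of_nonneg (powerset_mono.mpr (hPz k hk))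
                  fun D _ _ => ?_
                split_ifs
                · exact mul_nonneg (hg0 D) (by positivity)
                · exact le_rfl
      _ = ∑ D ∈ PP.powerset, ∑ k ∈ T, (if (∀ l ∈ D, l ∣ df k u) then g D * (1 / (k : ℝ)) else 0) :=
          sum_comm
      _ ≤ _ := by
          refine sum_le_sum fun D _ => ?_
          rw [← sum_filter, mul_sum]
          refine sum_le_sum_of_subset_of_nonneg (fun k hk => ?_) fun k _ _ =>
            mul_nonneg (hg0 D) (by positivity)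
          rw [hT, mem_filter, mem_filter] at hk
          rw [mem_filter]
          exact ⟨hk.1.1, hk.1.2.1, hk.2⟩
  -- step 2
  have h2 : ∀ D ∈ PP.powerset, g D * ∑ k ∈ (Ioc K₀ K₁).filter
        (fun k : ℕ => (k : ZMod M) ∈ U ∧ (∀ l ∈ D, l ∣ df k u)), 1 / (k : ℝ) ≤
      (U.card : ℝ) * (1 / K₀) * g D +
        (U.card : ℝ) * ((1 + Real.log K₁) / M) * ∏ l ∈ D, (2 * c / (l : ℝ) ^ 2) := by
    intro D hD
    rw [mem_powerset] at hD
    have e1 := sum_classes z₀ K₀ K₁ M u hK₀ hM hMz (by omega) U D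
      fun l hl => ⟨(hPl l (hD hl)).1, (hPl l (hD hl)).2.1⟩
    have e2 : ∏ l ∈ D, (2 * c / (l : ℝ) ^ 2) = g D / ((∏ l ∈ D, l : ℕ) : ℝ) := by
      rw [hg]
      push_cast
      rw [← prod_div_distrib]
      refine prod_congr rfl fun l _ => ?_
      rw [div_div, sq]
    rw [e2]
    calc _ ≤ g D * ((U.card : ℝ) * (1 / K₀ + (1 + Real.log K₁) /
          ((M : ℝ) * ((∏ l ∈ D, l : ℕ) : ℝ)))) := mul_le_mul_of_nonneg_left e1 (hg0 D)
      _ = _ := by
        rw [← div_div]
        ring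
  have h3 : ∑ D ∈ PP.powerset, g D ≤ Real.exp (2 * c * (Real.log (Real.log K₁) + Cm)) := by
    have e1 : ∑ D ∈ PP.powerset, g D = ∏ l ∈ PP, (1 + 2 * c / (l : ℝ)) := (prod_one_add _).symm
    rw [e1]
    calc ∏ l ∈ PP, (1 + 2 * c / (l : ℝ)) ≤ ∏ l ∈ PP, Real.exp (2 * c / (l : ℝ)) := by
          refine prod_le_prod (fun l _ => by positivity) fun l _ => ?_
          have := Real.add_one_le_exp (2 * c / (l : ℝ))
          linarith
      _ = Real.exp (∑ l ∈ PP, 2 * c / (l : ℝ)) := (Real.exp_sum _ _).symm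
      _ ≤ _ := by
          apply Real.exp_le_exp.mpr
          have e2 : ∑ l ∈ PP, 2 * c / (l : ℝ) = 2 * c * ∑ l ∈ PP, 1 / (l : ℝ) := by
            rw [mul_sum]
            exact sum_congr rfl fun l _ => by ring
          rw [e2]
          refine mul_le_mul_of_nonneg_left ?_ (by positivity)
          have e3 := (abs_le.mp (hCm K₁ (by linarith))).2
          have e4 : ∑ l ∈ PP, 1 / (l : ℝ) ≤ ∑ p ∈ PS 0 (K₁ : ℝ), (1 : ℝ) / p := by
            refine sum_le_sum_of_subset_of_nonneg (fun l hl => ?_) fun l _ _ => by positivity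
            obtain ⟨f1, -, f3⟩ := hPl l hl
            unfold Pool.Agent.Lib.MP_973905_nt.PS
            rw [mem_filter, mem_Ioc, Nat.floor_zero, Nat.floor_natCast]
            exact ⟨⟨f1.pos, f3⟩, f1⟩
          linarith
  have h4 : ∑ D ∈ PP.powerset, ∏ l ∈ D, (2 * c / (l : ℝ) ^ 2) ≤ Real.exp 2 := by
    have e1 : ∑ D ∈ PP.powerset, ∏ l ∈ D, (2 * c / (l : ℝ) ^ 2) =
        ∏ l ∈ PP, (1 + 2 * c / (l : ℝ) ^ 2) := (prod_one_add _).symm
    rw [e1]
    calc ∏ l ∈ PP, (1 + 2 * c / (l : ℝ) ^ 2) ≤ ∏ l ∈ PP, Real.exp (2 * c / (l : ℝ) ^ 2) := by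
          refine prod_le_prod (fun l _ => by positivity) fun l _ => ?_
          have := Real.add_one_le_exp (2 * c / (l : ℝ) ^ 2)
          linarith
      _ = Real.exp (∑ l ∈ PP, 2 * c / (l : ℝ) ^ 2) := (Real.exp_sum _ _).symm
      _ ≤ _ := by
          apply Real.exp_le_exp.mpr
          have e2 : ∑ l ∈ PP, 2 * c / (l : ℝ) ^ 2 = 2 * c * ∑ l ∈ PP, ((l : ℝ) ^ 2)⁻¹ := by
            rw [mul_sum]
            exact sum_congr rfl fun l _ => by ring
          rw [e2]
          have hz : (1 : ℝ) ≤ z₀ := by exact_mod_cast hz₀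
          have e3 : ∑ l ∈ PP, ((l : ℝ) ^ 2)⁻¹ ≤ (z₀ : ℝ)⁻¹ := by
            rcases le_or_gt z₀ K₁ with h | h
            · calc ∑ l ∈ PP, ((l : ℝ) ^ 2)⁻¹ ≤ ∑ l ∈ Ioc z₀ K₁, ((l : ℝ) ^ 2)⁻¹ := by
                    refine sum_le_sum_of_subset_of_nonneg (fun l hl => ?_)
                      fun l _ _ => by positivity
                    obtain ⟨f1, f2, f3⟩ := hPl l hl
                    exact mem_Ioc.mpr ⟨f2, f3⟩
                _ ≤ (z₀ : ℝ)⁻¹ - (K₁ : ℝ)⁻¹ := sum_Ioc_inv_sq_le_sub (by omega) h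
                _ ≤ _ := by
                    have : (0 : ℝ) ≤ (K₁ : ℝ)⁻¹ := by positivity
                    linarith
            · have : PP = ∅ := by
                rw [eq_empty_iff_forall_notMem]
                intro l hl
                obtain ⟨f1, f2, f3⟩ := hPl l hl
                omega
              rw [this, sum_empty]
              positivity
          calc 2 * c * ∑ l ∈ PP, ((l : ℝ) ^ 2)⁻¹ ≤ 2 * c * (z₀ : ℝ)⁻¹ :=
                mul_le_mul_of_nonneg_left e3 (by positivity)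
            _ = 2 * (c / z₀) := by ring
            _ ≤ 2 * 1 := by
                refine mul_le_mul_of_nonneg_left ?_ (by norm_num)
                rw [div_le_one (by linarith)]
                exact hc
            _ = 2 := by norm_num
  refine h1.trans ((sum_le_sum h2).trans ?_)
  rw [sum_add_distrib, ← mul_sum, ← mul_sum]
  have hU : (0 : ℝ) ≤ (U.card : ℝ) := Nat.cast_nonneg _
  have h5 := mul_le_mul_of_nonneg_left h3 (by positivity : (0 : ℝ) ≤ (U.card : ℝ) * (1 / K₀))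
  have h6 := mul_le_mul_of_nonneg_left h4
    (by positivity : (0 : ℝ) ≤ (U.card : ℝ) * ((1 + Real.log K₁) / M))
  calc _ ≤ (U.card : ℝ) * (1 / K₀) * Real.exp (2 * c * (Real.log (Real.log K₁) + Cm)) +
      (U.card : ℝ) * ((1 + Real.log K₁) / M) * Real.exp 2 := add_le_add h5 h6
    _ = _ := by ring

end Pool.Agent.Lib.MP_0f858a_nt.KR
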