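import Pool.Agent.Lib.MP_0f858a_nt.KR.StmtsB84

/-!
MP_0f858a_nt: the public form of the theorem.
-/

set_option autoImplicit false

namespace Pool.Agent.Lib.MP_0f858a_nt.KR

open Finset Filter
open scoped Classical

theorem RR_eq (R : ℕ → ℝ)
    (hR : ∀ (q : ℕ) [NeZero q],
      R q = ‖∏ᶠ (χ : DirichletCharacter ℂ q) (_ : χ (-1) = -1),
        DirichletCharacter.LFunction χ 1‖) (q : ℕ) (hq : q ≠ 0) : R q = RR q := by
  have : NeZero q := ⟨hq⟩
  rw [hR q]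
  unfold RR
  rw [dif_neg hq]
  congr 1
  refine finprod_cond_eq_prod_of_cond_iff _ fun {χ} _ => ?_
  unfold odd
  rw [mem_filter]
  simp

/-- the first part -/
theorem pub_one (h : StMainb) (R : ℕ → ℝ)
    (hR : ∀ (q : ℕ) [NeZero q],
      R q = ‖∏ᶠ (χ : DirichletCharacter ℂ q) (_ : χ (-1) = -1),
        DirichletCharacter.LFunction χ 1‖) :
    ∃ C : ℝ, 0 < C ∧ ∀ A : ℕ, 2 ≤ A → ∃ C' : ℝ, 0 < C' ∧ ∀ x : ℕ, 2 ≤ x →
      (((Icc 1 x).filter (fun q => q.Prime ∧ q ≠ 2 ∧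
        C * Real.log A < max (R q) (R q)⁻¹)).card : ℝ) ≤ C' * (x / Real.log x ^ A) := by
  obtain ⟨C, hC, h1⟩ := h
  refine ⟨C, hC, fun A hA => ?_⟩
  obtain ⟨C', hC', h2⟩ := h1 A hA
  refine ⟨C', hC', fun x hx => ?_⟩
  have e : (Icc 1 x).filter (fun q => q.Prime ∧ q ≠ 2 ∧ C * Real.log A < max (R q) (R q)⁻¹) =
      (Icc 1 x).filter (fun q => q.Prime ∧ q ≠ 2 ∧ C * Real.log A < max (RR q) (RR q)⁻¹) := by
    refine filter_congr fun q hq => ?_
    rw [mem_Icc] at hq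
    rw [RR_eq R hR q (by omega)]
  rw [e]
  exact h2 x hx

/-- the second part -/
theorem pub_two (h : StMainb) (R : ℕ → ℝ)
    (hR : ∀ (q : ℕ) [NeZero q],
      R q = ‖∏ᶠ (χ : DirichletCharacter ℂ q) (_ : χ (-1) = -1),
        DirichletCharacter.LFunction χ 1‖) (f : ℕ → ℝ) (hf : Tendsto f atTop atTop)
    (A : ℕ) (hA : 2 ≤ A) : ∃ C' : ℝ, 0 < C' ∧ ∀ x : ℕ, 2 ≤ x →
      (((Icc 1 x).filter (fun q => q.Prime ∧ f q ≤ max (R q) (R q)⁻¹)).card : ℝ) ≤
        C' * (x / Real.log x ^ A) := by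
  obtain ⟨C, hC, h1⟩ := pub_one h R hR
  obtain ⟨C', hC', h2⟩ := h1 A hA
  obtain ⟨q₀, hq₀⟩ := eventually_atTop.mp (hf.eventually (eventually_gt_atTop (C * Real.log A)))
  refine ⟨((q₀ : ℝ) + 3) * (A : ℝ) ^ A + C', by positivity, fun x hx => ?_⟩
  have hx2 : (2 : ℝ) ≤ x := by exact_mod_cast hx
  have hL : 0 < Real.log x := Real.log_pos (by linarith)
  have hsub : (Icc 1 x).filter (fun q => q.Prime ∧ f q ≤ max (R q) (R q)⁻¹) ⊆
      range (q₀ + 3) ∪ (Icc 1 x).filter (fun q => q.Prime ∧ q ≠ 2 ∧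
        C * Real.log A < max (R q) (R q)⁻¹) := by
    intro q hq
    rw [mem_filter] at hq
    rw [mem_union, mem_range, mem_filter]
    rcases lt_or_ge q (q₀ + 3) with h3 | h3
    · exact Or.inl h3
    · exact Or.inr ⟨hq.1, hq.2.1, by omega, lt_of_lt_of_le (hq₀ q (by omega)) hq.2.2⟩
  have hcard : (((Icc 1 x).filter (fun q => q.Prime ∧ f q ≤ max (R q) (R q)⁻¹)).card : ℝ) ≤
      ((q₀ : ℝ) + 3) + C' * (x / Real.log x ^ A) := by
    have h3 := card_le_card hsub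
    have h4 := card_union_le (range (q₀ + 3)) ((Icc 1 x).filter (fun q => q.Prime ∧ q ≠ 2 ∧
        C * Real.log A < max (R q) (R q)⁻¹))
    rw [card_range] at h4
    have h5 : (((Icc 1 x).filter (fun q => q.Prime ∧ f q ≤ max (R q) (R q)⁻¹)).card : ℝ) ≤
        ((q₀ + 3 : ℕ) : ℝ) + (((Icc 1 x).filter (fun q => q.Prime ∧ q ≠ 2 ∧
        C * Real.log A < max (R q) (R q)⁻¹)).card : ℝ) := by exact_mod_cast h3.trans h4
    push_cast at h5
    have h6 := h2 x hx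
    linarith
  have hA0 : (0 : ℝ) < A := by exact_mod_cast (by omega : 0 < A)
  have hlow : 1 ≤ (A : ℝ) ^ A * (x / Real.log x ^ A) := by
    have h3 : Real.log x ≤ (x : ℝ) ^ (1 / (A : ℝ)) / (1 / (A : ℝ)) :=
      Real.log_le_rpow_div (by linarith) (by positivity)
    have h4 : Real.log x ^ A ≤ (A : ℝ) ^ A * x := by
      calc Real.log x ^ A ≤ ((x : ℝ) ^ (1 / (A : ℝ)) / (1 / (A : ℝ))) ^ A :=
            pow_le_pow_left₀ hL.le h3 A
        _ = (A : ℝ) ^ A * ((x : ℝ) ^ (1 / (A : ℝ))) ^ A := by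
            rw [div_div_eq_mul_div, div_one, mul_pow]
            ring
        _ = (A : ℝ) ^ A * x := by
            rw [← Real.rpow_natCast ((x : ℝ) ^ (1 / (A : ℝ))) A, ← Real.rpow_mul (by linarith),
              one_div_mul_cancel hA0.ne', Real.rpow_one]
    rw [← mul_div_assoc, one_le_div (by positivity)]
    exact h4
  calc _ ≤ ((q₀ : ℝ) + 3) + C' * (x / Real.log x ^ A) := hcard
    _ ≤ ((q₀ : ℝ) + 3) * ((A : ℝ) ^ A * (x / Real.log x ^ A)) + C' * (x / Real.log x ^ A) := by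
        have h3 : ((q₀ : ℝ) + 3) * 1 ≤ ((q₀ : ℝ) + 3) * ((A : ℝ) ^ A * (x / Real.log x ^ A)) :=
          mul_le_mul_of_nonneg_left hlow (by positivity)
        linarith
    _ = _ := by ring

end Pool.Agent.Lib.MP_0f858a_nt.KR
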