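import Pool.Agent.Lib.MP_0f858a_nt.KR.MainU84
import Pool.Agent.Lib.MP_0f858a_nt.KR.Pub84

/-!
MP_0f858a_nt: the public form of the uniform theorem; the exceptional set of part (a).
-/

set_option autoImplicit false

namespace Pool.Agent.Lib.MP_0f858a_nt.KR

open Finset Filter
open scoped Classical

/-- the exceptional set of part (a) -/
theorem part_a (h : StMainu) (δ : ℝ) (hδ0 : 0 < δ) (hδ1 : δ < 1) : ∃ C' : ℝ, 0 < C' ∧
    ∀ x : ℕ, 3 ≤ x → (((Icc 1 x).filter (fun q : ℕ => q.Prime ∧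
      Real.log (Real.log q) ^ δ ≤ max (RR q) (RR q)⁻¹)).card : ℝ) ≤
      C' * x * Real.exp (-Real.exp (Real.log (Real.log x) ^ δ / C')) := by
  obtain ⟨C, hC, h1⟩ := h
  have hT1 : Tendsto (fun x : ℕ => Real.log x) atTop atTop :=
    Real.tendsto_log_atTop.comp tendsto_natCast_atTop_atTop
  have hT : Tendsto (fun x : ℕ => Real.log (Real.log x)) atTop atTop :=
    Real.tendsto_log_atTop.comp hT1
  have hev1 : ∀ᶠ t : ℝ in atTop, 4 * C ≤ t ^ δ :=
    (tendsto_rpow_atTop hδ0).eventually (eventually_ge_atTop _)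
  have hev2 : ∀ᶠ t : ℝ in atTop, 10 / (4 * C) ≤ t ^ (1 - δ) :=
    (tendsto_rpow_atTop (by linarith)).eventually (eventually_ge_atTop _)
  obtain ⟨X, hX⟩ := eventually_atTop.mp ((hT.eventually (hev1.and hev2)).and
    ((hT.eventually (eventually_ge_atTop 4)).and (eventually_ge_atTop 9)))
  obtain ⟨X', hX'⟩ : ∃ X', X' = max X 3 := ⟨_, rfl⟩
  obtain ⟨T0, hT0⟩ : ∃ T0 : ℝ, T0 = Real.log (Real.log X') := ⟨_, rfl⟩
  obtain ⟨C', hC'⟩ : ∃ C' : ℝ, C' = 4 * C + 1 + Real.exp (Real.exp (T0 ^ δ)) := ⟨_, rfl⟩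
  have heT := Real.exp_pos (Real.exp (T0 ^ δ))
  have hC'0 : 0 < C' := by rw [hC']; positivity
  have hC'1 : 1 ≤ C' := by rw [hC']; linarith
  have hC'4 : 4 * C ≤ C' := by rw [hC']; linarith
  refine ⟨C', hC'0, ?_⟩
  intro x hx
  have hx3 : (3 : ℝ) ≤ x := by exact_mod_cast hx
  have hx0 : (0 : ℝ) < x := by linarith
  have hL1 : 1 < Real.log x := by
    rw [Real.lt_log_iff_exp_lt hx0]
    have := Real.exp_one_lt_d9
    linarith
  have hL : 0 < Real.log x := by linarith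
  have ht0 : 0 < Real.log (Real.log x) := Real.log_pos hL1
  set L := Real.log x with hLdef
  set t := Real.log L with ht
  rcases lt_or_ge x X' with hxX | hxX
  · have h2 : ((Icc 1 x).filter (fun q : ℕ => q.Prime ∧
      Real.log (Real.log q) ^ δ ≤ max (RR q) (RR q)⁻¹)).card ≤ x := by
      refine (card_filter_le _ _).trans ?_
      rw [Nat.card_Icc, Nat.add_sub_cancel]
    have h3 : t ≤ T0 := by
      rw [hT0, ht]
      exact Real.log_le_log hL (Real.log_le_log hx0 (by exact_mod_cast hxX.le))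
    have h4 : t ^ δ ≤ T0 ^ δ := Real.rpow_le_rpow ht0.le h3 hδ0.le
    have htd : 0 ≤ t ^ δ := by positivity
    have h5 : t ^ δ / C' ≤ T0 ^ δ := (div_le_self htd hC'1).trans h4
    have h6 : Real.exp (Real.exp (t ^ δ / C')) ≤ C' := by
      have := Real.exp_le_exp.mpr (Real.exp_le_exp.mpr h5)
      rw [hC'] at this ⊢
      linarith
    have h7 : Real.exp (Real.exp (t ^ δ / C')) * Real.exp (-Real.exp (t ^ δ / C')) = 1 := by
      rw [← Real.exp_add]
      simp
    calc _ ≤ (x : ℝ) := by exact_mod_cast h2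
      _ = (Real.exp (Real.exp (t ^ δ / C')) * Real.exp (-Real.exp (t ^ δ / C'))) * x := by
          rw [h7, one_mul]
      _ ≤ (C' * Real.exp (-Real.exp (t ^ δ / C'))) * x := by gcongr
      _ = _ := by ring
  obtain ⟨⟨g1, g2⟩, g3, g4⟩ := hX x (by omega)
  rw [← hLdef, ← ht] at g1 g2 g3
  have htd0 : 0 < t ^ δ := by positivity
  have hLt : L = Real.exp t := by rw [ht, Real.exp_log hL]
  obtain ⟨v, hv⟩ : ∃ v : ℝ, v = Real.exp (t ^ δ / (4 * C)) := ⟨_, rfl⟩
  have hC4 : 0 < 4 * C := by linarith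
  have hv1 : 1 ≤ t ^ δ / (4 * C) := by
    rw [one_le_div hC4]
    exact g1
  have hv2 : 2 ≤ v := by
    rw [hv]
    have := Real.add_one_le_exp (t ^ δ / (4 * C))
    linarith
  obtain ⟨A, hA⟩ : ∃ A : ℕ, A = ⌊v⌋₊ := ⟨_, rfl⟩
  have hA2 : 2 ≤ A := by
    rw [hA]
    exact Nat.le_floor (by exact_mod_cast hv2)
  have hAv : (A : ℝ) ≤ v := by
    rw [hA]
    exact Nat.floor_le (by linarith)
  have hAv' : v / 2 ≤ A := by
    have := Nat.lt_floor_add_one v
    rw [← hA] at this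
    have h2 : (2 : ℝ) ≤ A := by exact_mod_cast hA2
    linarith
  have hv10 : t ^ δ / (4 * C) ≤ 1 / 10 * t := by
    have e : t = t ^ δ * t ^ (1 - δ) := by
      rw [← Real.rpow_add (by linarith)]
      simp
    rw [div_le_iff₀ hC4]
    have h2 : t ^ δ * (10 / (4 * C)) ≤ t := by
      calc t ^ δ * (10 / (4 * C)) ≤ t ^ δ * t ^ (1 - δ) := by gcongr
        _ = t := e.symm
    have h3 : t ^ δ * (10 / (4 * C)) * (4 * C) = 10 * t ^ δ := by field_simp
    have h4 := mul_le_mul_of_nonneg_right h2 hC4.le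
    linarith
  have hvL : v ≤ L ^ (1 / 10 : ℝ) := by
    rw [hv, hLt, ← Real.exp_mul]
    apply Real.exp_le_exp.mpr
    linarith
  have hbound := h1 x (by omega) A hA2 (hAv.trans hvL)
  have hlogA : Real.log A ≤ t ^ δ / (4 * C) := by
    have h2 : Real.log A ≤ Real.log v := Real.log_le_log (by positivity) hAv
    rwa [hv, Real.log_exp] at h2
  have hsub : (Icc 1 x).filter (fun q : ℕ => q.Prime ∧
      Real.log (Real.log q) ^ δ ≤ max (RR q) (RR q)⁻¹) ⊆
      (Icc 1 x).filter (fun q : ℕ => q ^ 2 ≤ x) ∪ (Icc 1 x).filter (fun q : ℕ => q.Prime ∧ q ≠ 2 ∧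
        C * Real.log A < max (RR q) (RR q)⁻¹) := by
    intro q hq
    rw [mem_filter] at hq
    rw [mem_union, mem_filter, mem_filter]
    rcases le_or_gt (q ^ 2) x with h2 | h2
    · exact Or.inl ⟨hq.1, h2⟩
    · refine Or.inr ⟨hq.1, hq.2.1, fun h => by rw [h] at h2; omega, ?_⟩
      have hq0 : (0 : ℝ) < q := by exact_mod_cast hq.2.1.pos
      have h3 : L / 2 ≤ Real.log q := by
        have h4 : Real.log x ≤ Real.log ((q : ℝ) ^ 2) :=
          Real.log_le_log hx0 (by exact_mod_cast h2.le)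
        rw [Real.log_pow] at h4
        push_cast at h4
        rw [hLdef]
        linarith
      have h4 : t / 2 ≤ Real.log (Real.log q) := by
        have h5 : Real.log (L / 2) ≤ Real.log (Real.log q) :=
          Real.log_le_log (by linarith) h3
        rw [Real.log_div hL.ne' (by norm_num), ← ht] at h5
        have h6 := Real.log_two_lt_d9
        linarith
      have h5 : t ^ δ / 2 ≤ Real.log (Real.log q) ^ δ := by
        calc t ^ δ / 2 ≤ t ^ δ / 2 ^ δ := by
              apply div_le_div_of_nonneg_left htd0.le (by positivity)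
              calc (2 : ℝ) ^ δ ≤ 2 ^ (1 : ℝ) :=
                    Real.rpow_le_rpow_of_exponent_le (by norm_num) hδ1.le
                _ = 2 := Real.rpow_one 2
          _ = (t / 2) ^ δ := by rw [Real.div_rpow ht0.le (by norm_num)]
          _ ≤ _ := Real.rpow_le_rpow (by positivity) h4 hδ0.le
      calc C * Real.log A ≤ C * (t ^ δ / (4 * C)) := mul_le_mul_of_nonneg_left hlogA hC.le
        _ = t ^ δ / 4 := by field_simp
        _ < t ^ δ / 2 := by linarith
        _ ≤ Real.log (Real.log q) ^ δ := h5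
        _ ≤ _ := hq.2.2
  have hun : (((Icc 1 x).filter (fun q : ℕ => q.Prime ∧
      Real.log (Real.log q) ^ δ ≤ max (RR q) (RR q)⁻¹)).card : ℝ) ≤
      Real.sqrt x + C * (x / Real.log x ^ A) := by
    have h2 := card_le_card hsub
    have h3 := card_union_le ((Icc 1 x).filter (fun q : ℕ => q ^ 2 ≤ x))
      ((Icc 1 x).filter (fun q : ℕ => q.Prime ∧ q ≠ 2 ∧ C * Real.log A < max (RR q) (RR q)⁻¹))
    have h4 : (((Icc 1 x).filter (fun q : ℕ => q.Prime ∧
      Real.log (Real.log q) ^ δ ≤ max (RR q) (RR q)⁻¹)).card : ℝ) ≤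
      (((Icc 1 x).filter (fun q : ℕ => q ^ 2 ≤ x)).card : ℝ) +
      (((Icc 1 x).filter (fun q : ℕ => q.Prime ∧ q ≠ 2 ∧
        C * Real.log A < max (RR q) (RR q)⁻¹)).card : ℝ) := by exact_mod_cast h2.trans h3
    have h5 := small_card x
    linarith
  obtain ⟨E, hE⟩ : ∃ E : ℝ, E = Real.exp (t ^ δ / C') := ⟨_, rfl⟩
  have hEv : E ≤ v := by
    rw [hE, hv]
    apply Real.exp_le_exp.mpr
    exact div_le_div_of_nonneg_left htd0.le hC4 hC'4
  have hvL2 : v ≤ L / 2 := by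
    have h2 : v ≤ Real.exp (1 / 10 * t) := by
      rw [hv]
      exact Real.exp_le_exp.mpr hv10
    have h3 : Real.exp (1 / 10 * t) * 2 ≤ Real.exp (1 / 10 * t) * Real.exp (9 / 10 * t) := by
      apply mul_le_mul_of_nonneg_left _ (Real.exp_pos _).le
      have := Real.add_one_le_exp (9 / 10 * t)
      linarith
    have h4 : Real.exp (1 / 10 * t) * Real.exp (9 / 10 * t) = L := by
      rw [hLt, ← Real.exp_add]
      congr 1
      ring
    linarith
  have hsq : Real.sqrt x ≤ x * Real.exp (-E) := by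
    have h2 : Real.sqrt x = Real.exp (1 / 2 * L) := by
      have : (x : ℝ) = Real.exp (1 / 2 * L) ^ 2 := by
        rw [← Real.exp_nat_mul, hLdef]
        conv_lhs => rw [← Real.exp_log hx0]
        congr 1
        push_cast
        ring
      rw [this, Real.sqrt_sq (Real.exp_pos _).le]
    rw [h2]
    conv_rhs => rw [← Real.exp_log hx0, ← hLdef]
    rw [← Real.exp_add]
    apply Real.exp_le_exp.mpr
    linarith
  have hpowA : (x : ℝ) / Real.log x ^ A ≤ x * Real.exp (-E) := by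
    rw [div_eq_mul_inv (x : ℝ)]
    apply mul_le_mul_of_nonneg_left _ hx0.le
    have h2 : Real.log x ^ A = Real.exp (A * t) := by
      rw [Real.exp_nat_mul, ← hLt]
    rw [h2, ← Real.exp_neg]
    apply Real.exp_le_exp.mpr
    nlinarith
  have hpos : 0 ≤ (x : ℝ) * Real.exp (-E) := by positivity
  rw [← hE]
  calc _ ≤ Real.sqrt x + C * (x / Real.log x ^ A) := hun
    _ ≤ x * Real.exp (-E) + C * (x * Real.exp (-E)) := by
        have := mul_le_mul_of_nonneg_left hpowA hC.le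
        linarith
    _ = (1 + C) * (x * Real.exp (-E)) := by ring
    _ ≤ C' * (x * Real.exp (-E)) := by
        apply mul_le_mul_of_nonneg_right _ hpos
        rw [hC']
        linarith
    _ = _ := by ring

/-- the theorem for `R` -/
theorem pub_all (h : StMainu) (R : ℕ → ℝ)
    (hR : ∀ (q : ℕ) [NeZero q],
      R q = ‖∏ᶠ (χ : DirichletCharacter ℂ q) (_ : χ (-1) = -1),
        DirichletCharacter.LFunction χ 1‖) :
    (∃ C : ℝ, 0 < C ∧ ∀ x : ℕ, 2 ≤ x → ∀ A : ℕ, 2 ≤ A →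
      (A : ℝ) ≤ Real.log x ^ (1 / 10 : ℝ) →
      (((Icc 1 x).filter (fun q : ℕ => q.Prime ∧ q ≠ 2 ∧
        C * Real.log A < max (R q) (R q)⁻¹)).card : ℝ) ≤ C * (x / Real.log x ^ A)) ∧
    (∃ C : ℝ, 0 < C ∧ ∀ x : ℕ, 2 ≤ x →
      (((Icc 1 x).filter (fun q : ℕ => q.Prime ∧
        C * Real.log (Real.log q) ≤ max (R q) (R q)⁻¹)).card : ℝ) ≤
        C * x * Real.exp (-Real.log x ^ (1 / 10 : ℝ))) ∧
    (∀ ε : ℝ, 0 < ε → ε < 1 / 2 → ∃ C : ℝ, 0 < C ∧ ∀ x : ℕ, 3 ≤ x →
      (((Icc 1 x).filter (fun q : ℕ => q.Prime ∧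
        ¬ max (R q) (R q)⁻¹ < Real.log (Real.log q) ^ (1 / 2 + ε))).card : ℝ) ≤
        C * x * Real.exp (-Real.exp (Real.log (Real.log x) ^ (1 / 2 + ε) / C))) ∧
    (∀ f : ℕ → ℝ, Tendsto f atTop atTop → ∀ A : ℕ, 2 ≤ A → ∃ C : ℝ, 0 < C ∧ ∀ x : ℕ, 2 ≤ x →
      (((Icc 1 x).filter (fun q : ℕ => q.Prime ∧ f q ≤ max (R q) (R q)⁻¹)).card : ℝ) ≤
        C * (x / Real.log x ^ A)) := by
  have hRR : ∀ q : ℕ, 1 ≤ q → R q = RR q := fun q hq => RR_eq R hR q (by omega)
  refine ⟨?_, ?_, ?_, fun f hf A hA => pub_two (mainb_of_mainu h) R hR f hf A hA⟩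
  · obtain ⟨C, hC, h1⟩ := h
    refine ⟨C, hC, fun x hx A hA hAx => ?_⟩
    refine le_trans (le_of_eq ?_) (h1 x hx A hA hAx)
    congr 2
    refine filter_congr fun q hq => ?_
    rw [hRR q (mem_Icc.mp hq).1]
  · obtain ⟨C, hC, h1⟩ := thin h
    refine ⟨C, hC, fun x hx => ?_⟩
    refine le_trans (le_of_eq ?_) (h1 x hx)
    congr 2
    refine filter_congr fun q hq => ?_
    rw [hRR q (mem_Icc.mp hq).1]
  · intro ε h0 h1
    obtain ⟨C, hC, h2⟩ := part_a h (1 / 2 + ε) (by linarith) (by linarith)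
    refine ⟨C, hC, fun x hx => ?_⟩
    refine le_trans (le_of_eq ?_) (h2 x hx)
    congr 2
    refine filter_congr fun q hq => ?_
    rw [hRR q (mem_Icc.mp hq).1, not_lt]

end Pool.Agent.Lib.MP_0f858a_nt.KR
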