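import Pool.Agent.Lib.MP_0f858a_nt.KR.Stmts84

/-!
MP_0f858a_nt (Kummer ratio), second part: the variance of an upper bound sieve; the tail
`max (R, 1/R) > C log A` for at most `O_A (x / (log x) ^ A)` primes `q ≤ x`.
-/

set_option autoImplicit false

namespace Pool.Agent.Lib.MP_0f858a_nt.KR

open Finset Filter
open scoped Classical

/-! ### Definitions -/

/-- the primes in `(z0, z]` (the same as `TwinAll.PP z0 z`) -/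
def Pz2 (z0 z : ℕ) : Finset ℕ := (Ioc z0 z).filter Nat.Prime

/-- the number of `k` in `(K, 2K]` with `k n ± 1` divisible by all `p ∈ D` -/
noncomputable def cD (b : Bool) (K : ℕ) (D : Finset ℕ) (n : ℕ) : ℕ :=
  ((Ioc K (2 * K)).filter (fun k => ∀ p ∈ D, p ∣ pk b n k)).card

/-- `cD` minus its expected value, for `n` prime to `D` -/
noncomputable def rho (b : Bool) (K : ℕ) (D : Finset ℕ) (n : ℕ) : ℝ :=
  if ∀ p ∈ D, ¬ p ∣ n then (cD b K D n : ℝ) - K / ((∏ p ∈ D, p : ℕ) : ℝ) else 0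

/-- the end point `x ^ (1 / c)` -/
noncomputable def KE (c x : ℕ) : ℕ := ⌊Real.exp (Real.log x / c)⌋₊

/-! ### Statements -/

/-- (B1 LEG) numbers of a residue class prime to the primes of `B` (induction on `B`) -/
def StLeg : Prop := ∀ (B : Finset ℕ) (g c N H : ℕ), (∀ p ∈ B, p.Prime ∧ ¬ p ∣ g) → 0 < g →
  |(((Ioc N (N + H)).filter (fun m => m ≡ c [MOD g] ∧ ∀ p ∈ B, ¬ p ∣ m)).card : ℝ) -
    (H / g : ℝ) * ∏ p ∈ B, (1 - 1 / (p : ℝ))| ≤ 2 ^ B.card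

/-- (B2 LA) the sum of `rho` over the `n ≤ x` of a class modulo the product of `D` -/
def StLa : Prop := ∀ (b : Bool) (K x r : ℕ) (D D' : Finset ℕ), 1 ≤ K → (∀ p ∈ D, p.Prime) →
  (∀ p ∈ D', p.Prime) → (∀ p ∈ D, ¬ p ∣ r) →
  |∑ n ∈ (Icc 1 x).filter (fun n => n ≡ r [MOD ∏ p ∈ D, p]), rho b K D' n| ≤
    2 ^ D'.card * ((x : ℝ) / ((∏ p ∈ D ∪ D', p : ℕ) : ℝ) + 2 * K)

/-- (B3 SDD) the correlation of two conditions -/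
def StSdd : Prop := ∀ (b : Bool) (K x : ℕ) (D D' : Finset ℕ), 1 ≤ K → (∀ p ∈ D, p.Prime) →
  (∀ p ∈ D', p.Prime) →
  |∑ n ∈ Icc 1 x, rho b K D n * rho b K D' n| ≤
    2 * K * (2 ^ D'.card * ((x : ℝ) / ((∏ p ∈ D ∪ D', p : ℕ) : ℝ) + 2 * K))

/-- (B4 VAR) the variance for weights `U` of level `R` -/
def StVar : Prop := ∃ C : ℝ, 0 < C ∧ ∀ (b : Bool) (K x z0 z R : ℕ) (U : Finset ℕ → ℝ), 1 ≤ K →
  2 ≤ z → (∀ D, |U D| ≤ 1) →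
  (∀ D, D ⊆ Pz2 z0 z → U D ≠ 0 → ∏ p ∈ D, p ≤ R) →
  ∑ n ∈ Icc 1 x, (∑ D ∈ (Pz2 z0 z).powerset, U D * rho b K D n) ^ 2 ≤
    C * K * x * Real.log z ^ 5 + 4 * (K : ℝ) ^ 2 * (R : ℝ) ^ 3

/-- (B5 MIDB) the `k` of middle size: a constant for all `A` -/
def StMidb : Prop := ∃ c : ℕ, 1 ≤ c ∧ ∃ C : ℝ, ∀ A : ℕ, ∃ x₀ : ℕ, ∀ x, x₀ ≤ x → ∀ b : Bool,
  (((Pr x).filter (fun q => C < ZS b q (K8 x) (KE c x))).card : ℝ) ≤ x / Real.log x ^ A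

/-- (B6 SMLB) the small `k`: the dependence on `A` -/
def StSmlb : Prop := ∃ C : ℝ, ∀ A : ℕ, 3 ≤ A → ∃ x₀ : ℕ, ∀ x, x₀ ≤ x → ∀ b : Bool,
  (((Pr x).filter (fun q => C + 2 * Real.log (Real.log A) < ZS b q 0 (K8 x))).card : ℝ) ≤
    x / Real.log x ^ A

/-- (MAINB) the theorem -/
def StMainb : Prop := ∃ C : ℝ, 0 < C ∧ ∀ A : ℕ, 2 ≤ A → ∃ C' : ℝ, 0 < C' ∧ ∀ x : ℕ, 2 ≤ x →
  (((Icc 1 x).filter (fun q => q.Prime ∧ q ≠ 2 ∧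
    C * Real.log A < max (RR q) (RR q)⁻¹)).card : ℝ) ≤ C' * (x / Real.log x ^ A)

end Pool.Agent.Lib.MP_0f858a_nt.KR
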