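import Pool.Agent.Lib.MP_0f858a_nt.KR.Sml61
import Pool.Agent.Lib.MP_0f858a_nt.KR.StmtsB84

/-!
# The small `k`: the dependence on `A`
-/

set_option autoImplicit false

namespace Pool.Agent.Lib.MP_0f858a_nt.KR

open Finset Filter
open scoped Classical

/-- For most `q` the number of primes in all blocks is small. -/
theorem exc_bound (hSv : StSv) (A : ℕ) : ∃ x₀ : ℕ, ∀ x, x₀ ≤ x → ∀ b : Bool,
    (((Pr x).filter (fun q => ∃ j ∈ range (Nat.log 2 (K8 x) + 1),
      (((2 * A + 2 : ℕ) : ℝ)) + 2 ^ j / (j + 1) ^ 2 < NB b q j)).card : ℝ) ≤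
      x / Real.log x ^ A := by
  set m := 2 * A + 2 with hm
  have hev := U8_tendsto.eventually (eventually_ge_atTop ((2 * 4 ^ m + 4 : ℕ) : ℝ))
  obtain ⟨x₀, hx₀⟩ := eventually_atTop.1 ((tuple_bound hSv m (by omega)).and hev)
  refine ⟨x₀, ?_⟩
  intro x hx b
  obtain ⟨htup, hu'⟩ := hx₀ x hx
  set u := U8 x with hu
  push_cast at hu'
  have h4m : (0 : ℝ) < 4 ^ m := by positivity
  have hu4 : 4 ≤ u := by linarith
  have hu1 : 1 ≤ u := by linarith
  set J := Nat.log 2 (K8 x) with hJ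
  set B := (x : ℝ) * (u / u ^ (8 * (m + 1))) with hB
  have hB0 : 0 ≤ B := by positivity
  have hK1 := K8_pos x
  have hJpow : 2 ^ J ≤ K8 x := Nat.pow_log_le_self 2 (by omega)
  have hJu : (J : ℝ) + 1 ≤ 2 * u := by
    have h1 : (2 : ℝ) ^ J ≤ 2 * Real.exp u := by
      have h2 : (2 : ℝ) ^ J ≤ K8 x := by exact_mod_cast hJpow
      exact h2.trans (K8_le x)
    have h2 := Real.log_le_log (by positivity) h1
    rw [Real.log_pow, Real.log_mul (by norm_num) (Real.exp_pos _).ne', Real.log_exp] at h2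
    have hl2 := Real.log_two_gt_d9
    have hl3 := Real.log_two_lt_d9
    have h3 : ((J : ℝ) + 1) * Real.log 2 ≤ 2 * u * Real.log 2 := by nlinarith
    exact le_of_mul_le_mul_right h3 (by linarith)
  have hblock : ∀ j ∈ range (J + 1),
      (((Pr x).filter (fun q => (m : ℝ) + 2 ^ j / (j + 1) ^ 2 < NB b q j)).card : ℝ) ≤
        (2 * u) ^ (2 * m) * B := by
    intro j hj
    rw [mem_range] at hj
    have h1 := moment b x m j B (by
      intro T hT hTs
      apply htup b T hT
      intro k hk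
      have h2 := mem_Ico.1 (hTs hk)
      have h3 : 1 ≤ 2 ^ j := Nat.one_le_two_pow
      have h4 : 2 ^ j ≤ 2 ^ J := Nat.pow_le_pow_right (by norm_num) (by omega)
      rw [pow_succ] at h2
      omega) hB0
    refine h1.trans ?_
    apply mul_le_mul_of_nonneg_right _ hB0
    apply pow_le_pow_left₀ (by positivity)
    have h5 : (j : ℝ) ≤ J := by exact_mod_cast (by omega : j ≤ J)
    linarith
  have hcov : (Pr x).filter (fun q => ∃ j ∈ range (J + 1),
      (m : ℝ) + 2 ^ j / (j + 1) ^ 2 < NB b q j) ⊆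
      (range (J + 1)).biUnion (fun j =>
        (Pr x).filter (fun q => (m : ℝ) + 2 ^ j / (j + 1) ^ 2 < NB b q j)) := by
    intro q hq
    rw [mem_filter] at hq
    obtain ⟨hq1, j, hj, hq2⟩ := hq
    rw [mem_biUnion]
    exact ⟨j, hj, mem_filter.2 ⟨hq1, hq2⟩⟩
  have hL : Real.log x = u ^ 8 := (U8_pow x).symm
  calc (((Pr x).filter (fun q => ∃ j ∈ range (J + 1),
        (m : ℝ) + 2 ^ j / (j + 1) ^ 2 < NB b q j)).card : ℝ)
      ≤ (((range (J + 1)).biUnion (fun j =>
          (Pr x).filter (fun q => (m : ℝ) + 2 ^ j / (j + 1) ^ 2 < NB b q j))).card : ℝ) := by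
        exact_mod_cast card_le_card hcov
    _ ≤ ∑ j ∈ range (J + 1),
          (((Pr x).filter (fun q => (m : ℝ) + 2 ^ j / (j + 1) ^ 2 < NB b q j)).card : ℝ) := by
        exact_mod_cast card_biUnion_le
    _ ≤ ∑ j ∈ range (J + 1), (2 * u) ^ (2 * m) * B := sum_le_sum hblock
    _ = ((J : ℝ) + 1) * ((2 * u) ^ (2 * m) * B) := by
        rw [sum_const, card_range, nsmul_eq_mul]
        push_cast
        ring
    _ ≤ (2 * u) * ((2 * u) ^ (2 * m) * B) := by
        apply mul_le_mul_of_nonneg_right hJu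
        positivity
    _ = x * ((2 * 4 ^ m) * (u ^ (2 * m + 2) / u ^ (8 * (m + 1)))) := by
        rw [hB, mul_pow, pow_mul 2 2 m, show (2 : ℝ) ^ 2 = 4 by norm_num, pow_add u (2 * m) 2]
        ring
    _ ≤ x * (u * (u ^ (2 * m + 2) / u ^ (8 * (m + 1)))) := by
        apply mul_le_mul_of_nonneg_left _ (Nat.cast_nonneg _)
        apply mul_le_mul_of_nonneg_right _ (by positivity)
        linarith
    _ = x * (u ^ (2 * m + 3) / u ^ (8 * (m + 1))) := by
        rw [pow_succ u (2 * m + 2)]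
        ring
    _ ≤ x * (1 / u ^ (8 * A)) := by
        apply mul_le_mul_of_nonneg_left _ (Nat.cast_nonneg _)
        rw [div_le_div_iff₀ (by positivity) (by positivity), one_mul, ← pow_add]
        apply pow_le_pow_right₀ hu1
        omega
    _ = x / Real.log x ^ A := by
        rw [hL, ← pow_mul]
        ring

/-- The sum over the `k` split at `2 ^ j₀`. -/
theorem ZS_split (b : Bool) (q K j₀ : ℕ) :
    ZS b q 0 K ≤ ZS b q 0 (2 ^ j₀) +
      ∑ j ∈ Ico j₀ (Nat.log 2 K + 1), (NB b q j : ℝ) / 2 ^ j := by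
  unfold ZS
  rw [← sum_filter_add_sum_filter_not ((Ioc 0 K).filter (fun k => (pk b q k).Prime))
    (fun k => k < 2 ^ j₀)]
  apply add_le_add
  · apply sum_le_sum_of_subset_of_nonneg
    · intro k hk
      rw [mem_filter, mem_filter, mem_Ioc] at hk
      rw [mem_filter, mem_Ioc]
      exact ⟨⟨hk.1.1.1, hk.2.le⟩, hk.1.2⟩
    · intro k _ _
      positivity
  · set S := ((Ioc 0 K).filter (fun k => (pk b q k).Prime)).filter (fun k => ¬ k < 2 ^ j₀)
      with hS
    rw [← sum_fiberwise_of_maps_to (s := S) (g := Nat.log 2) (t := Ico j₀ (Nat.log 2 K + 1))]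
    · apply sum_le_sum
      intro j _
      have hmem : ∀ k ∈ S.filter (fun k => Nat.log 2 k = j),
          (2 ^ j ≤ k ∧ k < 2 ^ (j + 1)) ∧ (pk b q k).Prime := by
        intro k hk
        rw [mem_filter, hS, mem_filter, mem_filter, mem_Ioc] at hk
        have h5 := (Nat.log_eq_iff (Or.inr ⟨by norm_num, by omega⟩)).1 hk.2
        exact ⟨h5, hk.1.1.2⟩
      have h1 : ((S.filter (fun k => Nat.log 2 k = j)).card : ℝ) ≤ NB b q j := by
        unfold NB
        exact_mod_cast card_le_card (by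
          intro k hk
          rw [mem_filter, mem_Ico]
          exact hmem k hk)
      calc ∑ k ∈ S.filter (fun k => Nat.log 2 k = j), 1 / (k : ℝ)
          ≤ ∑ k ∈ S.filter (fun k => Nat.log 2 k = j), 1 / (2 : ℝ) ^ j := by
            apply sum_le_sum
            intro k hk
            apply one_div_le_one_div_of_le (by positivity)
            exact_mod_cast (hmem k hk).1.1
        _ = ((S.filter (fun k => Nat.log 2 k = j)).card : ℝ) / 2 ^ j := by
            rw [sum_const, nsmul_eq_mul, mul_one_div]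
        _ ≤ _ := div_le_div_of_nonneg_right h1 (by positivity)
    · intro k hk
      rw [hS, mem_filter, mem_filter, mem_Ioc] at hk
      rw [mem_Ico]
      refine ⟨?_, Nat.lt_succ_of_le (Nat.log_mono_right hk.1.1.2)⟩
      exact Nat.le_log_of_pow_le (by norm_num) (not_lt.1 hk.2)

theorem sum_inv_two_pow_Ico (j₀ n : ℕ) :
    ∑ j ∈ Ico j₀ n, 1 / (2 : ℝ) ^ j ≤ 2 / 2 ^ j₀ := by
  rw [sum_Ico_eq_sum_range]
  calc ∑ k ∈ range (n - j₀), 1 / (2 : ℝ) ^ (j₀ + k)
      = (1 / 2 ^ j₀) * ∑ k ∈ range (n - j₀), 1 / (2 : ℝ) ^ k := by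
        rw [mul_sum]
        apply sum_congr rfl
        intro k _
        rw [pow_add]
        field_simp
    _ ≤ (1 / 2 ^ j₀) * 2 := mul_le_mul_of_nonneg_left (sum_inv_two_pow _) (by positivity)
    _ = _ := by ring

/-- The first three terms. -/
theorem ZS_three (b : Bool) (q : ℕ) : ZS b q 0 3 ≤ 2 := by
  unfold ZS
  calc ∑ k ∈ (Ioc 0 3).filter (fun k => (pk b q k).Prime), 1 / (k : ℝ)
      ≤ ∑ k ∈ (Ioc 0 3 : Finset ℕ), 1 / (k : ℝ) :=
        sum_le_sum_of_subset_of_nonneg (filter_subset _ _) (fun k _ _ => by positivity)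
    _ ≤ 2 := by
        have : (Ioc 0 3 : Finset ℕ) = {1, 2, 3} := by decide
        rw [this]
        norm_num

theorem ZS_add (b : Bool) (q K : ℕ) (hK : 3 ≤ K) : ZS b q 0 K = ZS b q 0 3 + ZS b q 3 K := by
  unfold ZS
  rw [← sum_union]
  · apply sum_congr _ (fun _ _ => rfl)
    ext k
    simp only [mem_union, mem_filter, mem_Ioc]
    constructor
    · rintro ⟨⟨h1, h2⟩, h3⟩
      rcases le_or_gt k 3 with h | h
      · exact Or.inl ⟨⟨h1, h⟩, h3⟩
      · exact Or.inr ⟨⟨h, h2⟩, h3⟩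
    · rintro (⟨⟨h1, h2⟩, h3⟩ | ⟨⟨h1, h2⟩, h3⟩)
      · exact ⟨⟨h1, by omega⟩, h3⟩
      · exact ⟨⟨by omega, h2⟩, h3⟩
  · rw [disjoint_left]
    intro k hk hk'
    rw [mem_filter, mem_Ioc] at hk hk'
    omega

theorem stSmlb_61 (hSv : StSv) (hBts : StBts) : StSmlb := by
  obtain ⟨CB, hB⟩ := hBts
  refine ⟨10 + CB, ?_⟩
  intro A hA
  set m := 2 * A + 2 with hm
  set j₀ := Nat.log 2 m + 1 with hj₀
  have hm8 : 8 ≤ m := by omega
  have h2j : m < 2 ^ j₀ := Nat.lt_pow_succ_log_self (by norm_num) m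
  have h2j' : 2 ^ j₀ ≤ 2 * m := by
    rw [hj₀, pow_succ, mul_comm]
    exact Nat.mul_le_mul_left 2 (Nat.pow_log_le_self 2 (by omega))
  obtain ⟨x₀, hx₀⟩ := exc_bound hSv A
  refine ⟨max x₀ ((2 * m) ^ 2), ?_⟩
  intro x hx b
  have hx1 : x₀ ≤ x := (le_max_left _ _).trans hx
  have hx2 : (2 * m) ^ 2 ≤ x := (le_max_right _ _).trans hx
  refine le_trans ?_ (hx₀ x hx1 b)
  have hsub : (Pr x).filter (fun q => 10 + CB + 2 * Real.log (Real.log A) < ZS b q 0 (K8 x)) ⊆
      (Pr x).filter (fun q => ∃ j ∈ range (Nat.log 2 (K8 x) + 1),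
        (((2 * A + 2 : ℕ) : ℝ)) + 2 ^ j / (j + 1) ^ 2 < NB b q j) := by
    intro q hq
    rw [mem_filter] at hq
    rw [mem_filter]
    refine ⟨hq.1, ?_⟩
    by_contra hcon
    push Not at hcon
    have hqp := hq.1
    rw [Pr, mem_filter, mem_Icc] at hqp
    obtain ⟨⟨hq1, hq2⟩, hq3, hq4⟩ := hqp
    have hqm : 2 * m < q := by
      have : (2 * m) ^ 2 < q ^ 2 := lt_of_le_of_lt hx2 hq4
      exact lt_of_pow_lt_pow_left₀ 2 (by omega) this
    have hAr : (3 : ℝ) ≤ A := by exact_mod_cast hA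
    have hlog3 : 1 < Real.log 3 := by
      have h1 := Real.exp_one_lt_d9
      rw [Real.lt_log_iff_exp_lt (by norm_num)]
      linarith
    have hlogA : 1 < Real.log A := hlog3.trans_le (Real.log_le_log (by norm_num) hAr)
    -- the part up to `2 ^ j₀`
    have hK2 : Real.log ((2 ^ j₀ : ℕ) : ℝ) ≤ 3 * Real.log A := by
      have h1 : ((2 ^ j₀ : ℕ) : ℝ) ≤ (A : ℝ) ^ 3 := by
        have h2 : 2 ^ j₀ ≤ A ^ 3 := by
          have h3 : 2 * m ≤ 6 * A := by omega
          have h4 : 6 * A ≤ A ^ 3 := by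
            have : 9 ≤ A ^ 2 := by nlinarith
            calc 6 * A ≤ A ^ 2 * A := Nat.mul_le_mul_right A (by omega)
              _ = A ^ 3 := by ring
          omega
        exact_mod_cast h2
      calc Real.log ((2 ^ j₀ : ℕ) : ℝ) ≤ Real.log ((A : ℝ) ^ 3) :=
            Real.log_le_log (by positivity) h1
        _ = 3 * Real.log A := by
            rw [Real.log_pow]
            norm_num
    have h2jr : (1 : ℝ) ≤ ((2 ^ j₀ : ℕ) : ℝ) := by exact_mod_cast Nat.one_le_two_pow
    have hlogle : Real.log ((2 ^ j₀ : ℕ) : ℝ) ≤ q := by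
      have h1 : Real.log ((2 ^ j₀ : ℕ) : ℝ) ≤ ((2 ^ j₀ : ℕ) : ℝ) := by
        have := Real.log_le_sub_one_of_pos (show (0 : ℝ) < ((2 ^ j₀ : ℕ) : ℝ) by linarith)
        linarith
      have h2 : ((2 ^ j₀ : ℕ) : ℝ) ≤ q := by exact_mod_cast (by omega : 2 ^ j₀ ≤ q)
      linarith
    have h1 := hB b q 3 (2 ^ j₀) hq3 le_rfl (by omega) hlogle
    have h3 : ZS b q 0 (2 ^ j₀) ≤ 2 + (2 * (2 + Real.log (Real.log A)) + CB) := by
      rw [ZS_add b q (2 ^ j₀) (by omega)]
      have h4 : Real.log (Real.log ((2 ^ j₀ : ℕ) : ℝ) / Real.log ((3 : ℕ) : ℝ)) ≤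
          2 + Real.log (Real.log A) := by
        have h5 : 0 < Real.log ((2 ^ j₀ : ℕ) : ℝ) := by
          apply Real.log_pos
          exact_mod_cast (by omega : 1 < 2 ^ j₀)
        have h6 : Real.log ((2 ^ j₀ : ℕ) : ℝ) / Real.log ((3 : ℕ) : ℝ) ≤ 3 * Real.log A := by
          push_cast
          rw [div_le_iff₀ (by linarith)]
          push_cast at hK2
          nlinarith
        have h7 : 0 < Real.log ((2 ^ j₀ : ℕ) : ℝ) / Real.log ((3 : ℕ) : ℝ) := by
          apply div_pos h5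
          push_cast
          linarith
        calc Real.log (Real.log ((2 ^ j₀ : ℕ) : ℝ) / Real.log ((3 : ℕ) : ℝ))
            ≤ Real.log (3 * Real.log A) := Real.log_le_log h7 h6
          _ = Real.log 3 + Real.log (Real.log A) :=
              Real.log_mul (by norm_num) (by linarith)
          _ ≤ 2 + Real.log (Real.log A) := by
              have h8 : Real.log 3 ≤ 3 - 1 := Real.log_le_sub_one_of_pos (by norm_num)
              linarith
      have h5 := ZS_three b q
      linarith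
    -- the rest
    have h4 : ∑ j ∈ Ico j₀ (Nat.log 2 (K8 x) + 1), (NB b q j : ℝ) / 2 ^ j ≤ 4 := by
      calc ∑ j ∈ Ico j₀ (Nat.log 2 (K8 x) + 1), (NB b q j : ℝ) / 2 ^ j
          ≤ ∑ j ∈ Ico j₀ (Nat.log 2 (K8 x) + 1),
              (m * (1 / (2 : ℝ) ^ j) + 1 / ((j : ℝ) + 1) ^ 2) := by
            apply sum_le_sum
            intro j hj
            rw [mem_Ico] at hj
            have h5 : (NB b q j : ℝ) ≤ (m : ℝ) + 2 ^ j / ((j : ℝ) + 1) ^ 2 :=
              hcon j (mem_range.2 hj.2)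
            have h6 : (0 : ℝ) < 2 ^ j := by positivity
            rw [div_le_iff₀ h6]
            refine h5.trans (le_of_eq ?_)
            field_simp
        _ = m * ∑ j ∈ Ico j₀ (Nat.log 2 (K8 x) + 1), 1 / (2 : ℝ) ^ j +
              ∑ j ∈ Ico j₀ (Nat.log 2 (K8 x) + 1), 1 / ((j : ℝ) + 1) ^ 2 := by
            rw [sum_add_distrib, mul_sum]
        _ ≤ 2 + 2 := by
            apply add_le_add
            · have h5 := sum_inv_two_pow_Ico j₀ (Nat.log 2 (K8 x) + 1)
              have h6 : (m : ℝ) ≤ 2 ^ j₀ := by exact_mod_cast h2j.le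
              calc m * ∑ j ∈ Ico j₀ (Nat.log 2 (K8 x) + 1), 1 / (2 : ℝ) ^ j
                  ≤ m * (2 / 2 ^ j₀) := mul_le_mul_of_nonneg_left h5 (Nat.cast_nonneg _)
                _ = 2 * (m / 2 ^ j₀) := by ring
                _ ≤ 2 * 1 := by
                    apply mul_le_mul_of_nonneg_left _ (by norm_num)
                    rw [div_le_one (by positivity)]
                    exact h6
                _ = 2 := by ring
            · calc ∑ j ∈ Ico j₀ (Nat.log 2 (K8 x) + 1), 1 / ((j : ℝ) + 1) ^ 2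
                  ≤ ∑ j ∈ range (Nat.log 2 (K8 x) + 1), 1 / ((j : ℝ) + 1) ^ 2 := by
                    apply sum_le_sum_of_subset_of_nonneg
                    · intro j hj
                      rw [mem_Ico] at hj
                      exact mem_range.2 hj.2
                    · intro j _ _
                      positivity
                _ ≤ 2 := by
                    have h5 := sum_inv_sq (Nat.log 2 (K8 x))
                    have h6 : (0 : ℝ) < 1 / (((Nat.log 2 (K8 x) : ℕ) : ℝ) + 1) := by positivity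
                    linarith
        _ = 4 := by norm_num
    have h5 := ZS_split b q (K8 x) j₀
    linarith [hq.2]
  exact_mod_cast card_le_card hsub

end Pool.Agent.Lib.MP_0f858a_nt.KR
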