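import Pool.Agent.Lib.MP_0f858a_nt.KR.ONEb84

/-!
MP_0f858a_nt, MID: the iterated sum of `exp (w fD (DL l))` over the tuples of numbers of some
residue classes.
-/

set_option autoImplicit false

namespace Pool.Agent.Lib.MP_0f858a_nt.KR

open Finset
open scoped Classical
open Pool.Agent.Lib.MP_973905_nt (PS)

/-- the function of the tuples -/
noncomputable def Psi (w z₀ M : ℕ) (U : Finset (ZMod M)) (l : List ℕ) : ℝ :=
  if ∀ k ∈ l, (k : ZMod M) ∈ U then Real.exp (w * fD z₀ (DL l)) else 0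

/-- the factor of one step -/
noncomputable def D1 (Cm : ℝ) (w K₀ K₁ M : ℕ) (U : Finset (ZMod M)) : ℝ :=
  (U.card : ℝ) * (1 / K₀ * Real.exp (2 * (w : ℝ) ^ 2 * (Real.log (Real.log K₁) + Cm)) +
    (1 + Real.log K₁) / M * Real.exp 2)

theorem exp_sum_le {ι : Type*} (s : Finset ι) (hs : s.Nonempty) (f : ι → ℝ) :
    Real.exp (∑ u ∈ s, f u) ≤ (1 / (s.card : ℝ)) * ∑ u ∈ s, Real.exp (s.card * f u) := by
  have hc : (0 : ℝ) < s.card := by exact_mod_cast hs.card_pos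
  have h := convexOn_exp.map_sum_le (t := s) (w := fun _ => 1 / (s.card : ℝ))
    (p := fun u => s.card * f u) (fun _ _ => by positivity)
    (by rw [sum_const, nsmul_eq_mul]; field_simp) (fun _ _ => Set.mem_univ _)
  simp only [smul_eq_mul] at h
  have e1 : ∑ u ∈ s, 1 / (s.card : ℝ) * (s.card * f u) = ∑ u ∈ s, f u := by
    refine sum_congr rfl fun u _ => ?_
    field_simp
  rw [e1, ← mul_sum] at h
  exact h

theorem step (Cm : ℝ) (hCm : ∀ x : ℝ, 2 ≤ x →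
      |∑ p ∈ PS 0 x, (1 : ℝ) / p - Real.log (Real.log x)| ≤ Cm)
    (w z₀ K₀ K₁ M : ℕ) (hw : 1 ≤ w) (hz₀ : w ^ 2 ≤ z₀) (hK₀ : 0 < K₀) (hM : 0 < M)
    (hMz : ∀ l : ℕ, l.Prime → z₀ < l → ¬ l ∣ M) (hK₁ : 3 ≤ K₁) (U : Finset (ZMod M))
    (l : List ℕ) (hl : Gd (Ioc K₀ K₁) l) (hlen : l.length < w) :
    ∑ k ∈ (Ioc K₀ K₁).filter (fun k => k ∉ l), 1 / (k : ℝ) * Psi w z₀ M U (k :: l) ≤
      D1 Cm w K₀ K₁ M U * Psi w z₀ M U l := by
  by_cases hlU : ∀ k ∈ l, (k : ZMod M) ∈ U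
  swap
  · have e1 : Psi w z₀ M U l = 0 := if_neg hlU
    rw [e1, mul_zero]
    refine (sum_eq_zero fun k _ => ?_).le
    have : Psi w z₀ M U (k :: l) = 0 :=
      if_neg fun h => hlU fun k' hk' => h k' (List.mem_cons_of_mem _ hk')
    rw [this, mul_zero]
  have e1 : Psi w z₀ M U l = Real.exp (w * fD z₀ (DL l)) := if_pos hlU
  rw [e1]
  have hz1 : 1 ≤ z₀ := le_trans (Nat.one_le_pow _ _ hw) hz₀
  have h0l : (0 : ℕ) ∉ l := fun h => by
    have := (mem_Ioc.mp (hl.2 0 h)).1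
    omega
  have hnd : (0 :: l).Nodup := List.nodup_cons.mpr ⟨h0l, hl.1⟩
  set s := (0 :: l).toFinset with hs
  have hcard : s.card = l.length + 1 := by
    rw [hs, List.toFinset_card_of_nodup hnd, List.length_cons]
  have hsne : s.Nonempty := ⟨0, by rw [hs, List.mem_toFinset]; exact List.mem_cons_self⟩
  have hcw : (s.card : ℝ) ≤ w := by
    rw [hcard]
    exact_mod_cast hlen
  have hmain : ∀ k ∈ (Ioc K₀ K₁).filter (fun k => k ∉ l), 1 / (k : ℝ) * Psi w z₀ M U (k :: l) ≤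
      Real.exp (w * fD z₀ (DL l)) * ((1 / (s.card : ℝ)) * ∑ u ∈ s,
        (if (k : ZMod M) ∈ U then 1 / (k : ℝ) * Real.exp ((w : ℝ) ^ 2 * fD z₀ (df k u)) else 0)) := by
    intro k hk
    rw [mem_filter] at hk
    have hk0 : k ≠ 0 := by
      have := (mem_Ioc.mp hk.1).1
      omega
    by_cases hkU : (k : ZMod M) ∈ U
    swap
    · have : Psi w z₀ M U (k :: l) = 0 := if_neg fun h => hkU (h k List.mem_cons_self)
      rw [this, mul_zero]
      refine mul_nonneg (Real.exp_pos _).le (mul_nonneg (by positivity) (sum_nonneg fun u _ => ?_))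
      rw [if_neg hkU]
    have e2 : Psi w z₀ M U (k :: l) ≤ Real.exp (w * fD z₀ (DL (k :: l))) := by
      unfold Psi
      split_ifs
      · exact le_rfl
      · exact (Real.exp_pos _).le
    have hDL : DL (k :: l) ≠ 0 := by
      refine DL_ne_zero _ (List.nodup_cons.mpr ⟨hk.2, hl.1⟩) fun k' hk' => ?_
      rcases List.mem_cons.mp hk' with rfl | h1
      · exact hk0
      · rintro rfl
        exact h0l h1
    have e3 := fD_DL z₀ k l hDL hnd
    have hw0 : (0 : ℝ) ≤ w := Nat.cast_nonneg _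
    have e4 : Real.exp (w * fD z₀ (DL (k :: l))) ≤
        Real.exp (w * fD z₀ (DL l)) * Real.exp (∑ u ∈ s, w * fD z₀ (df k u)) := by
      rw [← Real.exp_add, ← mul_sum]
      apply Real.exp_le_exp.mpr
      calc w * fD z₀ (DL (k :: l)) ≤ w * (∑ u ∈ s, fD z₀ (df k u) + fD z₀ (DL l)) :=
            mul_le_mul_of_nonneg_left e3 hw0
        _ = _ := by ring
    have e5 : Real.exp (∑ u ∈ s, w * fD z₀ (df k u)) ≤
        (1 / (s.card : ℝ)) * ∑ u ∈ s, Real.exp ((w : ℝ) ^ 2 * fD z₀ (df k u)) := by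
      refine (exp_sum_le s hsne _).trans ?_
      refine mul_le_mul_of_nonneg_left (sum_le_sum fun u _ => ?_) (by positivity)
      apply Real.exp_le_exp.mpr
      calc (s.card : ℝ) * (w * fD z₀ (df k u)) ≤ w * (w * fD z₀ (df k u)) :=
            mul_le_mul_of_nonneg_right hcw (mul_nonneg hw0 (fD_nonneg _ _))
        _ = _ := by ring
    calc 1 / (k : ℝ) * Psi w z₀ M U (k :: l)
        ≤ 1 / (k : ℝ) * (Real.exp (w * fD z₀ (DL l)) * ((1 / (s.card : ℝ)) *
            ∑ u ∈ s, Real.exp ((w : ℝ) ^ 2 * fD z₀ (df k u)))) := by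
          refine mul_le_mul_of_nonneg_left ?_ (by positivity)
          exact e2.trans (e4.trans (mul_le_mul_of_nonneg_left e5 (Real.exp_pos _).le))
      _ = _ := by
          simp only [if_pos hkU]
          rw [← mul_sum]
          ring
  refine (sum_le_sum hmain).trans ?_
  rw [← mul_sum, ← mul_sum, sum_comm]
  have h2 : ∀ u ∈ s, ∑ k ∈ (Ioc K₀ K₁).filter (fun k => k ∉ l),
      (if (k : ZMod M) ∈ U then 1 / (k : ℝ) * Real.exp ((w : ℝ) ^ 2 * fD z₀ (df k u)) else 0) ≤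
      D1 Cm w K₀ K₁ M U := by
    intro u hu
    rw [hs, List.mem_toFinset] at hu
    have huK : u ≤ K₁ := by
      rcases List.mem_cons.mp hu with rfl | h1
      · exact Nat.zero_le _
      · exact (mem_Ioc.mp (hl.2 u h1)).2
    rw [← sum_filter]
    refine le_trans (sum_le_sum_of_subset_of_nonneg (fun k hk => ?_)
      fun k _ _ => mul_nonneg (by positivity) (Real.exp_pos _).le)
      (one_sum Cm hCm z₀ K₀ K₁ M u hz1 hK₀ hM hMz hK₁ huK U ((w : ℝ) ^ 2) (by positivity)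
        (by exact_mod_cast hz₀))
    rw [mem_filter, mem_filter] at hk
    rw [mem_filter]
    refine ⟨hk.1.1, hk.2, ?_⟩
    rintro rfl
    rcases List.mem_cons.mp hu with h1 | h1
    · have := (mem_Ioc.mp hk.1.1).1
      omega
    · exact hk.1.2 h1
  have hc : (0 : ℝ) < s.card := by exact_mod_cast hsne.card_pos
  calc Real.exp (w * fD z₀ (DL l)) * ((1 / (s.card : ℝ)) * ∑ u ∈ s, _)
      ≤ Real.exp (w * fD z₀ (DL l)) * ((1 / (s.card : ℝ)) *
          ∑ u ∈ s, D1 Cm w K₀ K₁ M U) := by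
        refine mul_le_mul_of_nonneg_left (mul_le_mul_of_nonneg_left (sum_le_sum h2)
          (by positivity)) (Real.exp_pos _).le
    _ = _ := by
        rw [sum_const, nsmul_eq_mul]
        field_simp

/-- the sum over the tuples -/
theorem IS_psi (Cm : ℝ) (hCm : ∀ x : ℝ, 2 ≤ x →
      |∑ p ∈ PS 0 x, (1 : ℝ) / p - Real.log (Real.log x)| ≤ Cm)
    (w z₀ K₀ K₁ M : ℕ) (hw : 1 ≤ w) (hz₀ : w ^ 2 ≤ z₀) (hK₀ : 0 < K₀) (hM : 0 < M)
    (hMz : ∀ l : ℕ, l.Prime → z₀ < l → ¬ l ∣ M) (hK₁ : 3 ≤ K₁) (hCm0 : 0 ≤ Cm)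
    (U : Finset (ZMod M)) (j : ℕ) (hj : j ≤ w) :
    IS (Ioc K₀ K₁) (Psi w z₀ M U) j [] ≤ D1 Cm w K₀ K₁ M U ^ j := by
  have hD : 0 ≤ D1 Cm w K₀ K₁ M U := by
    unfold D1
    have : 0 ≤ Real.log K₁ := Real.log_natCast_nonneg _
    positivity
  have h := IS_upper (Ioc K₀ K₁) (Psi w z₀ M U) (D1 Cm w K₀ K₁ M U) hD w
    (fun l hl hlen => step Cm hCm w z₀ K₀ K₁ M hw hz₀ hK₀ hM hMz hK₁ U l hl hlen) j []
    (gd_nil _) (by simpa using hj)
  have e1 : Psi w z₀ M U [] = 1 := by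
    simp [Psi, DL, fD_one]
  rwa [e1, mul_one] at h

end Pool.Agent.Lib.MP_0f858a_nt.KR
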